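import Pool.Agent.FB75.Sub

/-!
# Mass estimates for subharmonic functions
-/

open MeasureTheory Metric Set Filter Topology InnerProductSpace Laplacian
open scoped ContDiff

namespace FB75

/-- The mass of `g` in a closed ball. -/
noncomputable def mass (g : E3 → ℝ) (y : E3) (t : ℝ) : ℝ := ∫ z in closedBall y t, g z

theorem integrableOn_ball {g : E3 → ℝ} (hg : Continuous g) (y : E3) (t : ℝ) :
    IntegrableOn g (closedBall y t) :=
  hg.continuousOn.integrableOn_compact (isCompact_closedBall y t)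

theorem integrable_Psi_shift {g : E3 → ℝ} (hg : Continuous g) (y : E3) {t : ℝ} (ht : 0 < t) :
    Integrable (fun z => Psi (t⁻¹ • (z - y)) * g z) := by
  have hc : Continuous (fun z => Psi (t⁻¹ • (z - y)) * g z) :=
    (continuous_Psi.comp (by fun_prop)).mul hg
  refine hc.integrable_of_hasCompactSupport ?_
  refine HasCompactSupport.of_support_subset_isCompact (isCompact_closedBall y t) ?_
  intro z hz
  by_contra h
  apply hz
  simp only
  rw [Psi_eq_zero, zero_mul]
  rw [norm_smul, norm_inv, Real.norm_of_nonneg ht.le, le_inv_mul_iff₀ ht, mul_one, ← dist_eq_norm]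
  rw [mem_closedBall, not_le] at h
  exact h.le

theorem hasDerivAt_Phi' {v : E3 → ℝ} (hv : ContDiff ℝ 2 v) (y : E3) {t : ℝ} (ht : 0 < t) :
    HasDerivAt (Phi v y) ((t ^ 2)⁻¹ * ∫ z, Psi (t⁻¹ • (z - y)) * Δ v z) t := by
  have h1 := hasDerivAt_Phi hv y t
  refine h1.congr_deriv ?_
  have h2 := integral_affine (fun w => Psi w * Δ v (y + t • w)) y ht
  have h3 : ∀ z : E3, y + t • (t⁻¹ • (z - y)) = z := by
    intro z
    rw [smul_smul, mul_inv_cancel₀ ht.ne', one_smul]; abel
  simp only [h3] at h2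
  rw [h2]
  field_simp

theorem Psi_int_le {g : E3 → ℝ} (hg : Continuous g) (hg0 : ∀ z, 0 ≤ g z) (y : E3) {t : ℝ}
    (ht : 0 < t) : ∫ z, Psi (t⁻¹ • (z - y)) * g z ≤ 1 / 6 * mass g y t := by
  rw [mass, ← integral_const_mul, ← integral_indicator measurableSet_closedBall]
  refine integral_mono (integrable_Psi_shift hg y ht) ?_ ?_
  · have hio : IntegrableOn (fun z => 1 / 6 * g z) (closedBall y t) :=
      integrableOn_ball (continuous_const.mul hg) y t
    exact hio.integrable_indicator measurableSet_closedBall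
  · intro z
    simp only
    by_cases hz : z ∈ closedBall y t
    · rw [indicator_of_mem hz]
      exact mul_le_mul_of_nonneg_right (Psi_le_one _) (hg0 z)
    · rw [indicator_of_notMem hz, Psi_eq_zero, zero_mul]
      rw [norm_smul, norm_inv, Real.norm_of_nonneg ht.le, le_inv_mul_iff₀ ht, mul_one,
        ← dist_eq_norm]
      rw [mem_closedBall, not_le] at hz
      exact hz.le

theorem le_Psi_int {g : E3 → ℝ} (hg : Continuous g) (hg0 : ∀ z, 0 ≤ g z) (y : E3) {r t : ℝ}
    (hr : 0 ≤ r) (hrt : r ≤ t) (ht : 0 < t) :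
    (1 - (r / t) ^ 2) ^ 3 / 6 * mass g y r ≤ ∫ z, Psi (t⁻¹ • (z - y)) * g z := by
  rw [mass, ← integral_const_mul, ← integral_indicator measurableSet_closedBall]
  refine integral_mono ?_ (integrable_Psi_shift hg y ht) ?_
  · have hio : IntegrableOn (fun z => (1 - (r / t) ^ 2) ^ 3 / 6 * g z) (closedBall y r) :=
      integrableOn_ball (continuous_const.mul hg) y r
    exact hio.integrable_indicator measurableSet_closedBall
  · intro z
    simp only
    by_cases hz : z ∈ closedBall y r
    · rw [indicator_of_mem hz]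
      refine mul_le_mul_of_nonneg_right ?_ (hg0 z)
      unfold Psi
      refine div_le_div_of_nonneg_right ?_ (by norm_num)
      have h1 : ‖t⁻¹ • (z - y)‖ ≤ r / t := by
        rw [norm_smul, norm_inv, Real.norm_of_nonneg ht.le, ← dist_eq_norm, div_eq_inv_mul]
        exact mul_le_mul_of_nonneg_left (mem_closedBall.1 hz) (by positivity)
      have h2 : r / t ≤ 1 := (div_le_one ht).2 hrt
      have h3 : 0 ≤ r / t := by positivity
      refine pow_le_pow_left₀ (by nlinarith) (le_max_of_le_right ?_) 3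
      nlinarith [norm_nonneg (t⁻¹ • (z - y))]
    · rw [indicator_of_notMem hz]
      exact mul_nonneg (Psi_nonneg _) (hg0 z)

theorem mass_nonneg {g : E3 → ℝ} (hg0 : ∀ z, 0 ≤ g z) (y : E3) (t : ℝ) : 0 ≤ mass g y t :=
  setIntegral_nonneg measurableSet_closedBall fun z _ => hg0 z

/-- If the mass is small at all scales, the functional grows slowly. -/
theorem Phi_growth_le {v : E3 → ℝ} (hv : ContDiff ℝ 2 v) (hg0 : ∀ z, 0 ≤ Δ v z) {y : E3}
    {t₀ T δ : ℝ} (ht₀ : 0 < t₀) (hT : t₀ ≤ T)
    (h : ∀ t ∈ Icc t₀ T, mass (Δ v) y t ≤ δ * t) :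
    Phi v y T - Phi v y t₀ ≤ δ / 6 * Real.log (T / t₀) := by
  have hder : ∀ t ∈ Icc t₀ T, HasDerivAt (fun t => Phi v y t - δ / 6 * Real.log t)
      ((t ^ 2)⁻¹ * (∫ z, Psi (t⁻¹ • (z - y)) * Δ v z) - δ / 6 * t⁻¹) t := by
    intro t ht
    have ht' : 0 < t := ht₀.trans_le ht.1
    exact (hasDerivAt_Phi' hv y ht').sub ((Real.hasDerivAt_log ht'.ne').const_mul _)
  have hanti : AntitoneOn (fun t => Phi v y t - δ / 6 * Real.log t) (Icc t₀ T) := by
    refine antitoneOn_of_deriv_nonpos (convex_Icc _ _)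
      (fun t ht => (hder t ht).continuousAt.continuousWithinAt) ?_ ?_
    · intro t ht
      rw [interior_Icc] at ht
      exact (hder t (Ioo_subset_Icc_self ht)).differentiableAt.differentiableWithinAt
    · intro t ht
      rw [interior_Icc] at ht
      have ht2 := Ioo_subset_Icc_self ht
      rw [(hder t ht2).deriv]
      have ht' : 0 < t := ht₀.trans_le ht2.1
      have h1 := Psi_int_le (laplacian_continuous hv) hg0 y ht'
      have h2 := h t ht2
      have h3 : (t ^ 2)⁻¹ * (∫ z, Psi (t⁻¹ • (z - y)) * Δ v z) ≤ (t ^ 2)⁻¹ * (1 / 6 * (δ * t)) := by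
        refine mul_le_mul_of_nonneg_left ?_ (by positivity)
        linarith
      have h4 : (t ^ 2)⁻¹ * (1 / 6 * (δ * t)) = δ / 6 * t⁻¹ := by field_simp
      linarith
  have h5 := hanti (left_mem_Icc.2 hT) (right_mem_Icc.2 hT) hT
  simp only at h5
  rw [Real.log_div (ht₀.trans_le hT).ne' ht₀.ne']
  linarith

theorem Phi_mono {v : E3 → ℝ} (hv : ContDiff ℝ 2 v) (hg0 : ∀ z, 0 ≤ Δ v z) (y : E3) :
    MonotoneOn (Phi v y) (Ici 0) := by
  refine monotoneOn_of_deriv_nonneg (convex_Ici 0)
    (fun t _ => (hasDerivAt_Phi hv y t).continuousAt.continuousWithinAt) ?_ ?_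
  · intro t _
    exact (hasDerivAt_Phi hv y t).differentiableAt.differentiableWithinAt
  · intro t ht
    rw [interior_Ici] at ht
    rw [(hasDerivAt_Phi hv y t).deriv]
    refine mul_nonneg (le_of_lt ht) (integral_nonneg fun w => ?_)
    exact mul_nonneg (Psi_nonneg _) (hg0 _)

/-- Growth between `2 * T` and `4 * T` from the mass in the ball of radius `T`. -/
theorem Phi_growth_ge {v : E3 → ℝ} (hv : ContDiff ℝ 2 v) (hg0 : ∀ z, 0 ≤ Δ v z) {y : E3}
    {T : ℝ} (hT : 0 < T) :
    Phi v y (2 * T) + (27 / 3072) * (mass (Δ v) y T / T) ≤ Phi v y (4 * T) := by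
  set c : ℝ := 27 / 6144 * (mass (Δ v) y T / T ^ 2) with hc
  have hder : ∀ t ∈ Icc (2 * T) (4 * T), HasDerivAt (fun t => Phi v y t - c * t)
      ((t ^ 2)⁻¹ * (∫ z, Psi (t⁻¹ • (z - y)) * Δ v z) - c) t := by
    intro t ht
    have ht' : 0 < t := lt_of_lt_of_le (by positivity) ht.1
    have := (hasDerivAt_Phi' hv y ht').sub ((hasDerivAt_id t).const_mul c)
    exact this.congr_deriv (by simp)
  have hmono : MonotoneOn (fun t => Phi v y t - c * t) (Icc (2 * T) (4 * T)) := by
    refine monotoneOn_of_deriv_nonneg (convex_Icc _ _)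
      (fun t ht => (hder t ht).continuousAt.continuousWithinAt) ?_ ?_
    · intro t ht
      rw [interior_Icc] at ht
      exact (hder t (Ioo_subset_Icc_self ht)).differentiableAt.differentiableWithinAt
    · intro t ht
      rw [interior_Icc] at ht
      have ht2 := Ioo_subset_Icc_self ht
      rw [(hder t ht2).deriv]
      have ht' : 0 < t := lt_of_lt_of_le (by positivity) ht2.1
      have h1 := le_Psi_int (laplacian_continuous hv) hg0 y hT.le (by linarith [ht2.1]) ht'
      have h2 : (27 / 64 : ℝ) ≤ (1 - (T / t) ^ 2) ^ 3 := by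
        have h3 : T / t ≤ 1 / 2 := by rw [div_le_iff₀ ht']; linarith [ht2.1]
        have h4 : 0 ≤ T / t := by positivity
        have h5 : (3 / 4 : ℝ) ≤ 1 - (T / t) ^ 2 := by nlinarith
        calc (27 / 64 : ℝ) = (3 / 4) ^ 3 := by norm_num
          _ ≤ _ := pow_le_pow_left₀ (by norm_num) h5 3
      have hm := mass_nonneg hg0 y T
      have h3 : 27 / 384 * mass (Δ v) y T ≤ ∫ z, Psi (t⁻¹ • (z - y)) * Δ v z := by
        refine le_trans ?_ h1
        refine mul_le_mul_of_nonneg_right ?_ hm
        linarith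
      have h4 : (((4 * T) ^ 2)⁻¹ : ℝ) ≤ (t ^ 2)⁻¹ := by
        refine inv_anti₀ (by positivity) ?_
        exact pow_le_pow_left₀ ht'.le ht2.2 2
      have h5 : ((4 * T) ^ 2)⁻¹ * (27 / 384 * mass (Δ v) y T) ≤
          (t ^ 2)⁻¹ * ∫ z, Psi (t⁻¹ • (z - y)) * Δ v z :=
        mul_le_mul h4 h3 (by positivity) (by positivity)
      have h6 : ((4 * T) ^ 2)⁻¹ * (27 / 384 * mass (Δ v) y T) = c := by
        rw [hc]; field_simp; ring
      linarith
  have h5 := hmono (left_mem_Icc.2 (by linarith)) (right_mem_Icc.2 (by linarith))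
    (by linarith : 2 * T ≤ 4 * T)
  simp only at h5
  have h6 : c * (4 * T) - c * (2 * T) = 27 / 3072 * (mass (Δ v) y T / T) := by
    rw [hc]; field_simp; ring
  linarith

theorem Phi_compare {h : E3 → ℝ} (hc : Continuous h) (h0 : ∀ v, 0 ≤ h v) {z x : E3} {t s : ℝ}
    (ht : 0 < t) (hs : 0 < s) (hxs : dist x z + s ≤ t) :
    (s / t) ^ 3 * (1 - ((dist x z + s) / t) ^ 2) ^ 2 * Phi h x s ≤ Phi h z t := by
  set κ : ℝ := (1 - ((dist x z + s) / t) ^ 2) ^ 2 with hκ
  have hr : 0 < s / t := div_pos hs ht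
  set a : E3 := t⁻¹ • (x - z) with ha
  have hna : ‖a‖ = dist x z / t := by
    rw [ha, norm_smul, norm_inv, Real.norm_of_nonneg ht.le, dist_eq_norm, div_eq_inv_mul]
  have h3 : ∫ w, psi ((s / t)⁻¹ • (w - a)) * h (x + s • ((s / t)⁻¹ • (w - a))) =
      (s / t) ^ 3 * Phi h x s :=
    integral_affine (fun w => psi w * h (x + s • w)) a hr
  have h3' : ∀ w : E3, x + s • ((s / t)⁻¹ • (w - a)) = z + t • w := by
    intro w
    rw [smul_smul, show s * (s / t)⁻¹ = t by field_simp, smul_sub, ha, smul_smul,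
      mul_inv_cancel₀ ht.ne', one_smul]
    abel
  simp only [h3'] at h3
  have hle : ∀ w, κ * (psi ((s / t)⁻¹ • (w - a)) * h (z + t • w)) ≤ psi w * h (z + t • w) := by
    intro w
    by_cases hw : 1 ≤ ‖(s / t)⁻¹ • (w - a)‖
    · rw [psi_eq_zero hw, zero_mul, mul_zero]
      exact mul_nonneg (psi_nonneg w) (h0 _)
    · push Not at hw
      have hwa : ‖w - a‖ < s / t := by
        rw [norm_smul, norm_inv, Real.norm_of_nonneg hr.le, inv_mul_lt_iff₀ hr, mul_one] at hw
        exact hw
      have hwn : ‖w‖ ≤ (dist x z + s) / t := by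
        have : ‖w‖ ≤ ‖w - a‖ + ‖a‖ := by
          have := norm_add_le (w - a) a
          rwa [sub_add_cancel] at this
        rw [hna] at this
        rw [add_div]
        linarith
      have hle1 : (dist x z + s) / t ≤ 1 := (div_le_one ht).2 hxs
      have hpw : κ ≤ psi w := by
        rw [hκ, psi]
        refine pow_le_pow_left₀ ?_ ?_ 2
        · have h5 : 0 ≤ (dist x z + s) / t := by positivity
          nlinarith
        · refine le_max_of_le_right ?_
          nlinarith [norm_nonneg w]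
      have hκ0 : 0 ≤ κ := by rw [hκ]; positivity
      have hh : 0 ≤ h (z + t • w) := h0 _
      calc κ * (psi ((s / t)⁻¹ • (w - a)) * h (z + t • w))
          ≤ κ * (1 * h (z + t • w)) := by
            refine mul_le_mul_of_nonneg_left ?_ hκ0
            exact mul_le_mul_of_nonneg_right (psi_le_one _) hh
        _ = κ * h (z + t • w) := by rw [one_mul]
        _ ≤ psi w * h (z + t • w) := mul_le_mul_of_nonneg_right hpw hh
  have hi1 : Integrable (fun w => psi w * h (z + t • w)) :=
    integrable_psi_mul (hc.comp (by fun_prop))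
  have hi2 : Integrable (fun w => psi ((s / t)⁻¹ • (w - a)) * h (z + t • w)) := by
    have hcc : Continuous (fun w => psi ((s / t)⁻¹ • (w - a)) * h (z + t • w)) :=
      (continuous_psi.comp (by fun_prop)).mul (hc.comp (by fun_prop))
    refine hcc.integrable_of_hasCompactSupport ?_
    refine HasCompactSupport.of_support_subset_isCompact (isCompact_closedBall (0 : E3) 1) ?_
    intro w hw
    by_contra hcon
    apply hw
    simp only
    rw [psi_eq_zero, zero_mul]
    simp only [mem_closedBall, dist_zero_right, not_le] at hcon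
    rw [norm_smul, norm_inv, Real.norm_of_nonneg hr.le, le_inv_mul_iff₀ hr, mul_one]
    have : ‖w‖ ≤ ‖w - a‖ + ‖a‖ := by
      have := norm_add_le (w - a) a
      rwa [sub_add_cancel] at this
    rw [hna] at this
    have h6 : (dist x z + s) / t ≤ 1 := (div_le_one ht).2 hxs
    rw [add_div] at h6
    linarith
  have hmono := integral_mono (hi2.const_mul κ) hi1 hle
  rw [integral_const_mul, h3] at hmono
  have : Phi h z t = ∫ w, psi w * h (z + t • w) := rfl
  rw [this]
  linarith

end FB75
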