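import Pool.Agent.FB75.Struct
import Pool.Agent.FB75.Mass

/-!
# A lower bound of the supremum from many segments which meet both phases
-/

open MeasureTheory Metric Set Filter Topology InnerProductSpace Laplacian
open scoped ContDiff

namespace FB75

/-- A smoothed positive part: its second derivative is a hat function on `[ε / 2, ε]`. -/
noncomputable def AreaLow_H (ε s : ℝ) : ℝ :=
  8 / (3 * ε ^ 2) * (trc (ε / 2) s - 2 * trc (3 * ε / 4) s + trc ε s)

/-- The first derivative of the smoothed positive part. -/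
noncomputable def AreaLow_H1 (ε s : ℝ) : ℝ :=
  8 / ε ^ 2 * ((max 0 (s - ε / 2)) ^ 2 - 2 * (max 0 (s - 3 * ε / 4)) ^ 2 + (max 0 (s - ε)) ^ 2)

/-- The second derivative of the smoothed positive part. -/
noncomputable def AreaLow_H2 (ε s : ℝ) : ℝ :=
  16 / ε ^ 2 * (max 0 (s - ε / 2) - 2 * max 0 (s - 3 * ε / 4) + max 0 (s - ε))

theorem AreaLow_H_hasDerivAt (ε s : ℝ) : HasDerivAt (AreaLow_H ε) (AreaLow_H1 ε s) s := by
  have h := (((trc_hasDerivAt (ε / 2) s).sub ((trc_hasDerivAt (3 * ε / 4) s).const_mul 2)).add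
    (trc_hasDerivAt ε s)).const_mul (8 / (3 * ε ^ 2))
  refine h.congr_deriv ?_
  unfold AreaLow_H1
  by_cases hε : ε = 0
  · simp [hε]
  · field_simp

theorem AreaLow_H1_hasDerivAt (ε s : ℝ) : HasDerivAt (AreaLow_H1 ε) (AreaLow_H2 ε s) s := by
  have h := (((trc_hasDerivAt2 (ε / 2) s).sub ((trc_hasDerivAt2 (3 * ε / 4) s).const_mul 2)).add
    (trc_hasDerivAt2 ε s)).const_mul (8 / (3 * ε ^ 2))
  have he : AreaLow_H1 ε = fun s => 8 / (3 * ε ^ 2) * ((3 * (max 0 (s - ε / 2)) ^ 2 -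
      2 * (3 * (max 0 (s - 3 * ε / 4)) ^ 2)) + 3 * (max 0 (s - ε)) ^ 2) := by
    funext s
    unfold AreaLow_H1
    by_cases hε : ε = 0
    · simp [hε]
    · field_simp
  rw [he]
  refine h.congr_deriv ?_
  unfold AreaLow_H2
  by_cases hε : ε = 0
  · simp [hε]
  · field_simp
    ring

theorem AreaLow_H2_continuous (ε : ℝ) : Continuous (AreaLow_H2 ε) := by
  unfold AreaLow_H2; fun_prop

theorem AreaLow_H_contDiff (ε : ℝ) : ContDiff ℝ 2 (AreaLow_H ε) := by
  unfold AreaLow_H
  exact contDiff_const.mul (((trc_contDiff _).sub (contDiff_const.mul (trc_contDiff _))).add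
    (trc_contDiff _))

theorem AreaLow_H1_contDiff (ε : ℝ) : ContDiff ℝ 1 (AreaLow_H1 ε) := by
  rw [contDiff_one_iff_deriv]
  refine ⟨fun s => (AreaLow_H1_hasDerivAt ε s).differentiableAt, ?_⟩
  rw [show deriv (AreaLow_H1 ε) = AreaLow_H2 ε from
    funext fun s => (AreaLow_H1_hasDerivAt ε s).deriv]
  exact AreaLow_H2_continuous ε

section

variable {ε : ℝ} (hε : 0 < ε)

include hε

theorem AreaLow_H2_nonneg (s : ℝ) : 0 ≤ AreaLow_H2 ε s := by
  unfold AreaLow_H2
  refine mul_nonneg (by positivity) ?_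
  have h1 := le_max_left 0 (s - ε / 2)
  have h2 := le_max_right 0 (s - ε / 2)
  have h3 := le_max_left 0 (s - ε)
  have h4 := le_max_right 0 (s - ε)
  rcases max_cases 0 (s - 3 * ε / 4) with ⟨h, _⟩ | ⟨h, _⟩ <;> rw [h] <;> linarith

theorem AreaLow_H2_zero_left {s : ℝ} (hs : s ≤ ε / 2) : AreaLow_H2 ε s = 0 := by
  unfold AreaLow_H2
  rw [max_eq_left (by linarith), max_eq_left (by linarith), max_eq_left (by linarith)]
  simp

theorem AreaLow_H2_zero_right {s : ℝ} (hs : ε ≤ s) : AreaLow_H2 ε s = 0 := by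
  unfold AreaLow_H2
  rw [max_eq_right (by linarith), max_eq_right (by linarith), max_eq_right (by linarith)]
  ring

theorem AreaLow_H1_zero {s : ℝ} (hs : s ≤ ε / 2) : AreaLow_H1 ε s = 0 := by
  unfold AreaLow_H1
  rw [max_eq_left (by linarith), max_eq_left (by linarith), max_eq_left (by linarith)]
  simp

theorem AreaLow_H1_one {s : ℝ} (hs : ε ≤ s) : AreaLow_H1 ε s = 1 := by
  unfold AreaLow_H1
  rw [max_eq_right (by linarith), max_eq_right (by linarith), max_eq_right (by linarith)]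
  field_simp
  ring

theorem AreaLow_H_zero {s : ℝ} (hs : s ≤ ε / 2) : AreaLow_H ε s = 0 := by
  unfold AreaLow_H
  rw [trc_eq_zero hs, trc_eq_zero (by linarith), trc_eq_zero (by linarith)]
  simp

theorem AreaLow_H1_mono : Monotone (AreaLow_H1 ε) := by
  refine monotone_of_deriv_nonneg (fun s => (AreaLow_H1_hasDerivAt ε s).differentiableAt) ?_
  intro s
  rw [(AreaLow_H1_hasDerivAt ε s).deriv]
  exact AreaLow_H2_nonneg hε s

theorem AreaLow_H1_nonneg (s : ℝ) : 0 ≤ AreaLow_H1 ε s := by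
  have h1 : AreaLow_H1 ε (min s 0) = 0 := AreaLow_H1_zero hε (by
    have := min_le_right s 0; linarith)
  rw [← h1]
  exact AreaLow_H1_mono hε (min_le_left _ _)

theorem AreaLow_H1_le_one (s : ℝ) : AreaLow_H1 ε s ≤ 1 := by
  have h1 : AreaLow_H1 ε (max s ε) = 1 := AreaLow_H1_one hε (le_max_right _ _)
  rw [← h1]
  exact AreaLow_H1_mono hε (le_max_left _ _)

theorem AreaLow_H_nonneg (s : ℝ) : 0 ≤ AreaLow_H ε s := by
  have hm : Monotone (AreaLow_H ε) := by
    refine monotone_of_deriv_nonneg (fun s => (AreaLow_H_hasDerivAt ε s).differentiableAt) ?_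
    intro s
    rw [(AreaLow_H_hasDerivAt ε s).deriv]
    exact AreaLow_H1_nonneg hε s
  have h1 : AreaLow_H ε (min s 0) = 0 := AreaLow_H_zero hε (by
    have := min_le_right s 0; linarith)
  rw [← h1]
  exact hm (min_le_left _ _)

theorem AreaLow_H_le {s : ℝ} (hs : 0 ≤ s) : AreaLow_H ε s ≤ s := by
  have hd : ∀ s, HasDerivAt (fun s => s - AreaLow_H ε s) (1 - AreaLow_H1 ε s) s := fun s =>
    (hasDerivAt_id s).sub (AreaLow_H_hasDerivAt ε s)
  have hm : Monotone (fun s => s - AreaLow_H ε s) := by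
    refine monotone_of_deriv_nonneg (fun s => (hd s).differentiableAt) ?_
    intro s
    rw [(hd s).deriv]
    have := AreaLow_H1_le_one hε s
    linarith
  have h1 := hm hs
  simp only at h1
  rw [AreaLow_H_zero hε (show (0 : ℝ) ≤ ε / 2 by positivity)] at h1
  linarith

end

theorem AreaLow_sum_sq (f : E3 →L[ℝ] ℝ) : ∑ i, (f (ei i)) ^ 2 = ‖f‖ ^ 2 := by
  have h1 : ∀ i, f (ei i) = inner ℝ ((InnerProductSpace.toDual ℝ E3).symm f) (ei i) := by
    intro i; rw [InnerProductSpace.toDual_symm_apply]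
  have h2 : ‖f‖ = ‖(InnerProductSpace.toDual ℝ E3).symm f‖ := by
    rw [LinearIsometryEquiv.norm_map]
  rw [h2, ← (EuclideanSpace.basisFun (Fin 3) ℝ).sum_sq_norm_inner_left]
  refine Finset.sum_congr rfl fun i _ => ?_
  rw [h1 i, Real.norm_eq_abs, sq_abs]
  rfl

theorem AreaLow_laplacian {h h1 h2 : ℝ → ℝ} (hh : ∀ s, HasDerivAt h (h1 s) s)
    (hh1 : ∀ s, HasDerivAt h1 (h2 s) s) (hc : ContDiff ℝ 2 h) {u : E3 → ℝ} {x : E3}
    (hharm : HarmonicAt u x) :
    Δ (fun x => h (u x)) x = h2 (u x) * ‖fderiv ℝ u x‖ ^ 2 := by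
  have hcomp : ContDiffAt ℝ 2 (fun x => h (u x)) x := hc.contDiffAt.comp x hharm.1
  rw [laplacian_eq_sum hcomp]
  have hud : ∀ᶠ y in 𝓝 x, DifferentiableAt ℝ u y := by
    filter_upwards [hharm.1.eventually (by simp)] with y hy
    exact hy.differentiableAt (by norm_num)
  have k1 : ∀ i, (fun y => fderiv ℝ (fun x => h (u x)) y (ei i)) =ᶠ[𝓝 x]
      fun y => h1 (u y) * fderiv ℝ u y (ei i) := by
    intro i
    filter_upwards [hud] with y hy
    have h2 := (hh (u y)).comp_hasFDerivAt y hy.hasFDerivAt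
    have h3 : fderiv ℝ (fun x => h (u x)) y = (h1 (u y)) • fderiv ℝ u y := h2.fderiv
    rw [h3]
    rfl
  have k2 : ∀ i, fderiv ℝ (fun y => fderiv ℝ (fun x => h (u x)) y (ei i)) x (ei i) =
      h2 (u x) * (fderiv ℝ u x (ei i)) ^ 2 + h1 (u x) *
        fderiv ℝ (fun y => fderiv ℝ u y (ei i)) x (ei i) := by
    intro i
    rw [(k1 i).fderiv_eq]
    have hd1 : HasFDerivAt (fun y => h1 (u y)) ((h2 (u x)) • fderiv ℝ u x) x :=
      (hh1 (u x)).comp_hasFDerivAt x (hharm.1.differentiableAt (by norm_num)).hasFDerivAt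
    have hd2 : HasFDerivAt (fun y => fderiv ℝ u y (ei i))
        (fderiv ℝ (fun y => fderiv ℝ u y (ei i)) x) x :=
      (((hharm.1.fderiv_right (m := 1) (by norm_num)).differentiableAt (by norm_num)).clm_apply
        (differentiableAt_const _)).hasFDerivAt
    have hd3 : HasFDerivAt (fun y => h1 (u y) * fderiv ℝ u y (ei i)) _ x :=
      hd1.mul hd2
    rw [hd3.fderiv]
    simp only [add_apply, smul_apply, smul_eq_mul]
    ring
  simp only [k2]
  rw [Finset.sum_add_distrib, ← Finset.mul_sum, ← Finset.mul_sum, AreaLow_sum_sq]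
  have h4 : ∑ i, fderiv ℝ (fun y => fderiv ℝ u y (ei i)) x (ei i) = 0 := by
    rw [← laplacian_eq_sum hharm.1, hharm.2.self_of_nhds]; rfl
  rw [h4, mul_zero, add_zero]

section

variable {u : E3 → ℝ} (hu : IsEntireSolution u) {ε : ℝ} (hε : 0 < ε)

include hu hε

theorem AreaLow_near_zero {x : E3} (hx : u x = 0) : ∀ᶠ y in 𝓝 x, u y ≤ ε / 2 := by
  have h1 : {y | u y < ε / 2} ∈ 𝓝 x :=
    (isOpen_lt hu.continuous continuous_const).mem_nhds (by
      change u x < ε / 2
      rw [hx]; positivity)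
  filter_upwards [h1] with y hy
  exact le_of_lt hy

theorem AreaLow_v_contDiff : ContDiff ℝ 2 (fun x => AreaLow_H ε (u x)) := by
  rw [contDiff_iff_contDiffAt]
  intro x
  by_cases hx : u x = 0
  · refine (contDiffAt_const (c := (0 : ℝ))).congr_of_eventuallyEq ?_
    filter_upwards [AreaLow_near_zero hu hε hx] with y hy
    exact AreaLow_H_zero hε hy
  · exact (AreaLow_H_contDiff ε).contDiffAt.comp x (hu.harmonic x (pos_of_ne hu hx)).1

theorem AreaLow_G_contDiff : ContDiff ℝ 1 (fun x => AreaLow_H1 ε (u x)) := by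
  rw [contDiff_iff_contDiffAt]
  intro x
  by_cases hx : u x = 0
  · refine (contDiffAt_const (c := (0 : ℝ))).congr_of_eventuallyEq ?_
    filter_upwards [AreaLow_near_zero hu hε hx] with y hy
    exact AreaLow_H1_zero hε hy
  · exact (AreaLow_H1_contDiff ε).contDiffAt.comp x
      ((hu.harmonic x (pos_of_ne hu hx)).1.of_le (by norm_num))

theorem AreaLow_v_laplacian (x : E3) :
    Δ (fun x => AreaLow_H ε (u x)) x = AreaLow_H2 ε (u x) * ‖fderiv ℝ u x‖ ^ 2 := by
  by_cases hx : u x = 0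
  · have h1 : (fun x => AreaLow_H ε (u x)) =ᶠ[𝓝 x] fun _ => 0 := by
      filter_upwards [AreaLow_near_zero hu hε hx] with y hy
      exact AreaLow_H_zero hε hy
    rw [(laplacian_congr_nhds h1).self_of_nhds]
    have : Δ (fun _ : E3 => (0 : ℝ)) = 0 := laplacian_const
    rw [this, AreaLow_H2_zero_left hε (by rw [hx]; positivity)]
    simp
  · exact AreaLow_laplacian (AreaLow_H_hasDerivAt ε) (AreaLow_H1_hasDerivAt ε)
      (AreaLow_H_contDiff ε) (hu.harmonic x (pos_of_ne hu hx))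

theorem AreaLow_v_laplacian_nonneg (x : E3) : 0 ≤ Δ (fun x => AreaLow_H ε (u x)) x := by
  rw [AreaLow_v_laplacian hu hε]
  exact mul_nonneg (AreaLow_H2_nonneg hε _) (sq_nonneg _)

/-- The gradient of `H' ∘ u` is controlled by the Laplacian of `H ∘ u`. -/
theorem AreaLow_G_fderiv {x : E3} (hg : 0 < u x → u x < ε → 1 / 2 ≤ ‖fderiv ℝ u x‖) :
    ‖fderiv ℝ (fun x => AreaLow_H1 ε (u x)) x‖ ≤ 2 * Δ (fun x => AreaLow_H ε (u x)) x := by
  by_cases hx : u x = 0
  · have h1 : (fun x => AreaLow_H1 ε (u x)) =ᶠ[𝓝 x] fun _ => 0 := by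
      filter_upwards [AreaLow_near_zero hu hε hx] with y hy
      exact AreaLow_H1_zero hε hy
    rw [h1.fderiv_eq]
    have := AreaLow_v_laplacian_nonneg hu hε x
    simp
    linarith
  · have hxp := pos_of_ne hu hx
    have h1 : HasFDerivAt (fun y => AreaLow_H1 ε (u y)) ((AreaLow_H2 ε (u x)) • fderiv ℝ u x) x :=
      (AreaLow_H1_hasDerivAt ε (u x)).comp_hasFDerivAt x
        ((hu.harmonic x hxp).1.differentiableAt (by norm_num)).hasFDerivAt
    rw [h1.fderiv, AreaLow_v_laplacian hu hε, norm_smul,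
      Real.norm_of_nonneg (AreaLow_H2_nonneg hε _)]
    rcases lt_or_ge (u x) ε with h | h
    · have h2 := hg hxp h
      have h3 := AreaLow_H2_nonneg hε (u x)
      have h4 : ‖fderiv ℝ u x‖ ≤ 2 * ‖fderiv ℝ u x‖ ^ 2 := by nlinarith
      calc AreaLow_H2 ε (u x) * ‖fderiv ℝ u x‖ ≤ AreaLow_H2 ε (u x) * (2 * ‖fderiv ℝ u x‖ ^ 2) :=
            mul_le_mul_of_nonneg_left h4 h3
        _ = _ := by ring
    · rw [AreaLow_H2_zero_right hε h]; simp

end

/-- One segment. -/
theorem AreaLow_segment {G : E3 → ℝ} (hG : ContDiff ℝ 1 G) {D : E3 → ℝ} (hD : Continuous D)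
    {x e : E3} {L s0 s1 : ℝ} (he : ‖e‖ = 1) (hD0 : ∀ y, 0 ≤ D y)
    (h0 : s0 ∈ Icc (0 : ℝ) L) (h1 : s1 ∈ Icc (0 : ℝ) L)
    (g0 : G (x + s0 • e) = 0) (g1 : G (x + s1 • e) = 1)
    (hGD : ∀ s ∈ Icc (0 : ℝ) L, ‖fderiv ℝ G (x + s • e)‖ ≤ 2 * D (x + s • e)) :
    1 / 2 ≤ ∫ s in (0 : ℝ)..L, D (x + s • e) := by
  have hL : 0 ≤ L := h0.1.trans h0.2
  have hder : ∀ s : ℝ, HasDerivAt (fun s : ℝ => G (x + s • e)) (fderiv ℝ G (x + s • e) e) s := by
    intro s
    have k1 : HasDerivAt (fun s : ℝ => x + s • e) e s := by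
      have := ((hasDerivAt_id s).smul_const e).const_add x
      simpa using this
    exact ((hG.differentiable (by norm_num)) (x + s • e)).hasFDerivAt.comp_hasDerivAt s k1
  have hcd : Continuous (fun s : ℝ => fderiv ℝ G (x + s • e) e) := by
    have k2 : Continuous (fderiv ℝ G) := hG.continuous_fderiv (by norm_num)
    fun_prop
  have hcD : Continuous (fun s : ℝ => D (x + s • e)) := by fun_prop
  have key : ∀ a b : ℝ, 0 ≤ a → a ≤ b → b ≤ L →
      |G (x + b • e) - G (x + a • e)| ≤ 2 * ∫ s in (0 : ℝ)..L, D (x + s • e) := by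
    intro a b ha hab hb
    have k3 := intervalIntegral.integral_eq_sub_of_hasDerivAt (a := a) (b := b)
      (fun s _ => hder s) (hcd.intervalIntegrable _ _)
    rw [← k3]
    have k4 : |∫ s in a..b, fderiv ℝ G (x + s • e) e| ≤ ∫ s in a..b, 2 * D (x + s • e) := by
      rw [← Real.norm_eq_abs]
      refine intervalIntegral.norm_integral_le_of_norm_le hab ?_ ?_
      · refine Eventually.of_forall fun s hs => ?_
        have k5 := hGD s ⟨ha.trans hs.1.le, hs.2.trans hb⟩
        have k6 := (fderiv ℝ G (x + s • e)).le_opNorm e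
        rw [he, mul_one] at k6
        exact k6.trans k5
      · exact (hcD.const_mul 2).intervalIntegrable _ _
    rw [intervalIntegral.integral_const_mul] at k4
    have k7 : ∫ s in a..b, D (x + s • e) ≤ ∫ s in (0 : ℝ)..L, D (x + s • e) :=
      intervalIntegral.integral_mono_interval ha hab hb
        (Eventually.of_forall fun s => hD0 _) (hcD.intervalIntegrable _ _)
    linarith
  rcases le_total s0 s1 with h | h
  · have := key s0 s1 h0.1 h h1.2
    rw [g0, g1] at this
    norm_num at this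
    linarith
  · have := key s1 s0 h1.1 h h0.2
    rw [g0, g1] at this
    norm_num at this
    linarith

/-- Uniform positivity on the segments. -/
theorem AreaLow_uniform {u : E3 → ℝ} (hu : Continuous u) {e c : E3} {ρ L : ℝ}
    (h : ∀ x ∈ closedBall c ρ, ∃ s ∈ Icc (0 : ℝ) L, 0 < u (x + s • e)) :
    ∃ ε, 0 < ε ∧ ∀ x ∈ closedBall c ρ, ∃ s ∈ Icc (0 : ℝ) L, ε ≤ u (x + s • e) := by
  refine (isCompact_closedBall c ρ).induction_on
    (p := fun S => ∃ ε, 0 < ε ∧ ∀ x ∈ S, ∃ s ∈ Icc (0 : ℝ) L, ε ≤ u (x + s • e)) ?_ ?_ ?_ ?_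
  · exact ⟨1, one_pos, by simp⟩
  · rintro S T hST ⟨ε, hε, h1⟩
    exact ⟨ε, hε, fun x hx => h1 x (hST hx)⟩
  · rintro S T ⟨ε, hε, h1⟩ ⟨δ, hδ, h2⟩
    refine ⟨min ε δ, lt_min hε hδ, ?_⟩
    rintro x (hx | hx)
    · obtain ⟨s, hs, h3⟩ := h1 x hx
      exact ⟨s, hs, (min_le_left _ _).trans h3⟩
    · obtain ⟨s, hs, h3⟩ := h2 x hx
      exact ⟨s, hs, (min_le_right _ _).trans h3⟩
  · intro x hx
    obtain ⟨s, hs, h3⟩ := h x hx
    refine ⟨{y | u (x + s • e) / 2 < u (y + s • e)}, ?_, u (x + s • e) / 2, by positivity, ?_⟩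
    · refine mem_nhdsWithin_of_mem_nhds ?_
      refine (isOpen_lt continuous_const (by fun_prop)).mem_nhds ?_
      change u (x + s • e) / 2 < u (x + s • e)
      linarith
    · intro y hy
      exact ⟨s, hs, le_of_lt hy⟩

theorem AreaLow_shift {g : E3 → ℝ} (hg : Continuous g) (hg0 : ∀ z, 0 ≤ g z) {e c : E3} {ρ L s : ℝ}
    (he : ‖e‖ = 1) (hs : s ∈ Icc (0 : ℝ) L) :
    ∫ x in closedBall c ρ, g (x + s • e) ≤ mass g c (ρ + L) := by
  have h1 : ∫ x in closedBall c ρ, g (x + s • e) = ∫ x in closedBall (c + s • e) ρ, g x := by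
    have k := integral_add_right_eq_self (μ := volume)
      (fun x => (closedBall (c + s • e) ρ).indicator g x) (s • e)
    rw [← integral_indicator measurableSet_closedBall, ← integral_indicator measurableSet_closedBall,
      ← k]
    refine integral_congr_ae (Eventually.of_forall fun x => ?_)
    simp only [indicator, mem_closedBall, dist_add_right]
  rw [h1, mass]
  refine setIntegral_mono_set (integrableOn_ball hg _ _) (Eventually.of_forall fun z => hg0 z)
    (Eventually.of_forall (closedBall_subset_closedBall' ?_ : closedBall (c + s • e) ρ ⊆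
      closedBall c (ρ + L)))
  rw [dist_eq_norm, add_sub_cancel_left, norm_smul, he, mul_one, Real.norm_of_nonneg hs.1]
  linarith [hs.2]

theorem AreaLow_fubini {g : E3 → ℝ} (hg : Continuous g) (hg0 : ∀ z, 0 ≤ g z) {e c : E3} {ρ L : ℝ}
    (he : ‖e‖ = 1) (hρ : 0 < ρ) (hL : 0 < L)
    (h : ∀ x ∈ closedBall c ρ, 1 / 2 ≤ ∫ s in (0 : ℝ)..L, g (x + s • e)) :
    ρ ^ 3 * (volume (ball (0 : E3) 1)).toReal / 2 ≤ L * mass g c (ρ + L) := by
  have hvol : volume.real (closedBall c ρ) = ρ ^ 3 * (volume (ball (0 : E3) 1)).toReal := by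
    rw [Measure.real, Measure.addHaar_closedBall _ _ hρ.le, ENNReal.toReal_mul,
      ENNReal.toReal_ofReal (by positivity)]
    simp
  have hcu : Continuous (Function.uncurry fun (x : E3) (s : ℝ) => g (x + s • e)) := by
    unfold Function.uncurry; fun_prop
  have hci : Continuous (fun x : E3 => ∫ s in (0 : ℝ)..L, g (x + s • e)) :=
    intervalIntegral.continuous_parametric_intervalIntegral_of_continuous' hcu 0 L
  have h1 : ρ ^ 3 * (volume (ball (0 : E3) 1)).toReal / 2 ≤
      ∫ x in closedBall c ρ, ∫ s in (0 : ℝ)..L, g (x + s • e) := by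
    have h2 : ∫ x in closedBall c ρ, (1 / 2 : ℝ) ≤
        ∫ x in closedBall c ρ, ∫ s in (0 : ℝ)..L, g (x + s • e) := by
      refine setIntegral_mono_on (integrableOn_ball continuous_const _ _)
        (integrableOn_ball hci _ _) measurableSet_closedBall h
    rw [setIntegral_const, hvol, smul_eq_mul] at h2
    linarith
  refine h1.trans ?_
  have h3 : ∫ x in closedBall c ρ, ∫ s in (0 : ℝ)..L, g (x + s • e) =
      ∫ s in (0 : ℝ)..L, ∫ x in closedBall c ρ, g (x + s • e) := by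
    simp only [intervalIntegral.integral_of_le hL.le]
    refine integral_integral_swap ?_
    rw [Measure.prod_restrict]
    refine IntegrableOn.mono_set ?_ (prod_mono Subset.rfl Ioc_subset_Icc_self)
    exact hcu.continuousOn.integrableOn_compact ((isCompact_closedBall c ρ).prod isCompact_Icc)
  rw [h3]
  have hcj : Continuous (fun s : ℝ => ∫ x in closedBall c ρ, g (x + s • e)) := by
    refine continuous_parametric_integral_of_continuous (f := fun (s : ℝ) (x : E3) =>
      g (x + s • e)) ?_ (isCompact_closedBall c ρ)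
    unfold Function.uncurry; fun_prop
  have h4 : ∫ s in (0 : ℝ)..L, ∫ x in closedBall c ρ, g (x + s • e) ≤
      ∫ s in (0 : ℝ)..L, mass g c (ρ + L) := by
    refine intervalIntegral.integral_mono_on hL.le (hcj.intervalIntegrable _ _)
      (continuous_const.intervalIntegrable _ _) fun s hs => ?_
    exact AreaLow_shift hg hg0 he hs
  rw [intervalIntegral.integral_const, smul_eq_mul, sub_zero] at h4
  exact h4

theorem area_lower : ∃ A : ℝ, 0 < A ∧ ∀ (u : E3 → ℝ), IsEntireSolution u →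
    ∀ (e c : E3) (ρ L m : ℝ), ‖e‖ = 1 → 0 < ρ → 0 < L →
    (∀ x ∈ closedBall c ρ, (∃ s ∈ Icc (0 : ℝ) L, u (x + s • e) = 0) ∧
      ∃ s ∈ Icc (0 : ℝ) L, 0 < u (x + s • e)) →
    (∀ x ∈ closedBall c (4 * (ρ + L)), u x ≤ m) → ρ ^ 3 ≤ A * L * (ρ + L) * m := by
  have hV : 0 < (volume (ball (0 : E3) 1)).toReal :=
    ENNReal.toReal_pos (measure_ball_pos _ _ one_pos).ne' measure_ball_lt_top.ne
  set V1 : ℝ := (volume (ball (0 : E3) 1)).toReal with hV1
  refine ⟨2 * (3072 / 27) * cpsi / V1, by have := cpsi_pos; positivity, ?_⟩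
  intro u hu e c ρ L m he hρ hL hseg hm
  obtain ⟨ε1, hε1, h1⟩ := AreaLow_uniform hu.continuous (fun x hx => (hseg x hx).2)
  obtain ⟨ε2, hε2, h2⟩ := grad_near hu (isCompact_closedBall c (ρ + L)) (δ := 1 / 2) (by norm_num)
  set ε : ℝ := min ε1 ε2 with hε
  have hε0 : 0 < ε := lt_min hε1 hε2
  have hvc := AreaLow_v_contDiff hu hε0
  have hv0 := AreaLow_v_laplacian_nonneg hu hε0
  have hcD := laplacian_continuous hvc
  have hT : 0 < ρ + L := by positivity
  have h3 : ∀ x ∈ closedBall c ρ,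
      1 / 2 ≤ ∫ s in (0 : ℝ)..L, Δ (fun x => AreaLow_H ε (u x)) (x + s • e) := by
    intro x hx
    obtain ⟨s0, hs0, k0⟩ := (hseg x hx).1
    obtain ⟨s1, hs1, k1⟩ := h1 x hx
    refine AreaLow_segment (AreaLow_G_contDiff hu hε0) hcD he hv0 hs0 hs1 ?_ ?_ ?_
    · exact AreaLow_H1_zero hε0 (by rw [k0]; positivity)
    · exact AreaLow_H1_one hε0 ((min_le_left _ _).trans k1)
    · intro s hs
      refine AreaLow_G_fderiv hu hε0 fun k2 k3 => ?_
      have k4 : x + s • e ∈ closedBall c (ρ + L) := by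
        rw [mem_closedBall, dist_eq_norm] at hx ⊢
        have k5 : x + s • e - c = (x - c) + s • e := by abel
        rw [k5]
        refine (norm_add_le _ _).trans (add_le_add hx ?_)
        rw [norm_smul, he, mul_one, Real.norm_of_nonneg hs.1]
        exact hs.2
      have k6 := h2 _ k4 k2 (k3.trans_le (min_le_right _ _))
      rw [abs_lt] at k6
      linarith [k6.1]
  have h4 := AreaLow_fubini hcD hv0 he hρ hL h3
  have h5 := Phi_growth_ge hvc hv0 (y := c) hT
  have h6 : 0 ≤ Phi (fun x => AreaLow_H ε (u x)) c (2 * (ρ + L)) :=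
    integral_nonneg fun w => mul_nonneg (psi_nonneg w) (AreaLow_H_nonneg hε0 _)
  have h7 : Phi (fun x => AreaLow_H ε (u x)) c (4 * (ρ + L)) ≤ m * cpsi := by
    unfold Phi cpsi
    rw [← integral_const_mul]
    refine integral_mono (integrable_psi_mul (hvc.continuous.comp (by fun_prop)))
      (integrable_psi.const_mul m) fun w => ?_
    simp only
    by_cases hw : 1 ≤ ‖w‖
    · rw [psi_eq_zero hw]; simp
    · push Not at hw
      have k1 : c + (4 * (ρ + L)) • w ∈ closedBall c (4 * (ρ + L)) := by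
        rw [mem_closedBall, dist_eq_norm, add_sub_cancel_left, norm_smul,
          Real.norm_of_nonneg (by positivity)]
        nlinarith [norm_nonneg w]
      have k2 := (AreaLow_H_le hε0 (hu.nonneg _)).trans (hm _ k1)
      rw [mul_comm m]
      exact mul_le_mul_of_nonneg_left k2 (psi_nonneg w)
  set M : ℝ := mass (Δ (fun x => AreaLow_H ε (u x))) c (ρ + L) with hM
  have h8 : M ≤ 3072 / 27 * (ρ + L) * (m * cpsi) := by
    have k1 : 27 / 3072 * (M / (ρ + L)) ≤ m * cpsi := by linarith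
    have k2 : M = 3072 / 27 * (ρ + L) * (27 / 3072 * (M / (ρ + L))) := by field_simp
    rw [k2]
    exact mul_le_mul_of_nonneg_left k1 (by positivity)
  have h9 : ρ ^ 3 * V1 / 2 ≤ L * (3072 / 27 * (ρ + L) * (m * cpsi)) :=
    h4.trans (mul_le_mul_of_nonneg_left h8 hL.le)
  have h10 : ρ ^ 3 = 2 / V1 * (ρ ^ 3 * V1 / 2) := by field_simp
  rw [h10]
  calc 2 / V1 * (ρ ^ 3 * V1 / 2) ≤ 2 / V1 * (L * (3072 / 27 * (ρ + L) * (m * cpsi))) :=
        mul_le_mul_of_nonneg_left h9 (by positivity)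
    _ = _ := by ring

end FB75
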