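import Pool.Agent.LT93.Brouwer

/-!
# Linking: a contractible set cannot contain a circle around a connected set which extends to
infinity on both sides
-/

open Metric Set Filter Topology

namespace FB75

/-- The variational inequality on a compact convex set. -/
private theorem link_vi {Q : Set (EuclideanSpace ℝ (Fin 3))} (hQ : IsCompact Q)
    (hconv : Convex ℝ Q) (hne : Q.Nonempty)
    {G : EuclideanSpace ℝ (Fin 3) → EuclideanSpace ℝ (Fin 3)} (hG : Continuous G) :
    ∃ q ∈ Q, ∀ w ∈ Q, 0 ≤ inner ℝ (G q) (w - q) := by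
  have hP : ∀ x : EuclideanSpace ℝ (Fin 3), ∃ v ∈ Q, ∀ w ∈ Q,
      inner ℝ (x - v) (w - v) ≤ 0 := by
    intro x
    obtain ⟨v, hv, hv2⟩ := exists_norm_eq_iInf_of_complete_convex hne hQ.isComplete hconv x
    exact ⟨v, hv, (norm_eq_iInf_iff_real_inner_le_zero hconv hv).1 hv2⟩
  choose P hPQ hPi using hP
  have hLip : ∀ x y, ‖P x - P y‖ ≤ ‖x - y‖ := by
    intro x y
    have h1 := hPi x (P y) (hPQ y)
    have h2 := hPi y (P x) (hPQ x)
    have h3 : ‖P x - P y‖ ^ 2 ≤ inner ℝ (x - y) (P x - P y) := by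
      have e1 : inner ℝ (x - y) (P x - P y) - ‖P x - P y‖ ^ 2 =
          -(inner ℝ (x - P x) (P y - P x)) - inner ℝ (y - P y) (P x - P y) := by
        rw [← real_inner_self_eq_norm_sq]
        simp only [inner_sub_left, inner_sub_right]
        ring
      linarith
    have h4 := real_inner_le_norm (x - y) (P x - P y)
    by_contra hcon
    rw [not_le] at hcon
    have h5 := norm_nonneg (x - y)
    nlinarith
  have hPcont : Continuous P := by
    refine LipschitzWith.continuous (K := 1) (LipschitzWith.of_dist_le_mul fun x y => ?_)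
    rw [dist_eq_norm, dist_eq_norm, NNReal.coe_one, one_mul]
    exact hLip x y
  obtain ⟨q, hq, hfq⟩ := LT93.brouwer hQ hconv hne (f := fun x => P (x - G x))
    (hPcont.comp (continuous_id.sub hG)).continuousOn (fun x _ => hPQ _)
  refine ⟨q, hq, fun w hw => ?_⟩
  have h := hPi (q - G q) w hw
  have hfq' : P (q - G q) = q := hfq
  rw [hfq'] at h
  have e2 : q - G q - q = -G q := by abel
  rw [e2, inner_neg_left] at h
  linarith

private theorem link_disc {Ω : Set (EuclideanSpace ℝ (Fin 3))} [ContractibleSpace Ω]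
    {e : EuclideanSpace ℝ (Fin 3)} (he : ‖e‖ = 1)
    {C : ℝ} (hC : 0 < C) (hcirc : ∀ x, inner ℝ x e = 0 → ‖x‖ = C → x ∈ Ω) :
    ∃ D : EuclideanSpace ℝ (Fin 3) → EuclideanSpace ℝ (Fin 3), Continuous D ∧ (∀ x, D x ∈ Ω) ∧
      ∀ x, 1 ≤ ‖x - (inner ℝ x e : ℝ) • e‖ →
        D x = (C * ‖x - (inner ℝ x e : ℝ) • e‖⁻¹) • (x - (inner ℝ x e : ℝ) • e) := by
  classical
  obtain ⟨y₀, ⟨H⟩⟩ := id_nullhomotopic Ω
  have hH0 : ∀ a : Ω, H (0, a) = a := fun a => H.apply_zero a
  have hH1 : ∀ a : Ω, H (1, a) = y₀ := fun a => H.apply_one a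
  set h : EuclideanSpace ℝ (Fin 3) → EuclideanSpace ℝ (Fin 3) :=
    fun x => x - (inner ℝ x e : ℝ) • e with hh
  have hc : Continuous h := by
    simp only [hh]
    fun_prop
  have hin0 : ∀ x, inner ℝ (h x) e = 0 := by
    intro x
    simp only [hh]
    rw [inner_sub_left, inner_smul_left, real_inner_self_eq_norm_sq, he]
    simp
  set B : Set (EuclideanSpace ℝ (Fin 3)) := {x | 1 / 2 ≤ ‖h x‖} with hB
  have hdir : ∀ x ∈ B, (C * ‖h x‖⁻¹) • h x ∈ Ω := by
    intro x hx
    have hx' : 1 / 2 ≤ ‖h x‖ := hx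
    have hx0 : 0 < ‖h x‖ := by linarith
    apply hcirc
    · rw [inner_smul_left, hin0, mul_zero]
    · rw [norm_smul, Real.norm_of_nonneg (by positivity)]
      field_simp
  let G' : B → EuclideanSpace ℝ (Fin 3) := fun x =>
    (H (projIcc 0 1 zero_le_one (2 * (1 - ‖h x.1‖)), ⟨(C * ‖h x.1‖⁻¹) • h x.1, hdir x.1 x.2⟩)).1
  have hG'c : Continuous G' := by
    refine continuous_subtype_val.comp (H.continuous.comp ?_)
    have hc1 : Continuous fun x : B => h x.1 := hc.comp continuous_subtype_val
    refine Continuous.prodMk (continuous_projIcc.comp (by fun_prop)) ?_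
    refine Continuous.subtype_mk ?_ _
    have h1 : Continuous fun x : B => ‖h x.1‖⁻¹ := by
      refine Continuous.inv₀ hc1.norm ?_
      intro x hx
      have h2 : 1 / 2 ≤ ‖h x.1‖ := x.2
      rw [hx] at h2
      norm_num at h2
    exact (continuous_const.mul h1).smul hc1
  let D : EuclideanSpace ℝ (Fin 3) → EuclideanSpace ℝ (Fin 3) := fun x =>
    if hx : x ∈ B then G' ⟨x, hx⟩ else y₀.1
  have hDB : ContinuousOn D B := by
    rw [continuousOn_iff_continuous_domRestrict]
    have : B.domRestrict D = G' := by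
      funext x
      show D x.1 = G' x
      simp only [D]
      rw [dif_pos x.2]
    rw [this]
    exact hG'c
  have hD1 : ∀ x, ‖h x‖ ≤ 1 / 2 → D x = y₀.1 := by
    intro x hx
    simp only [D]
    split_ifs with hxB
    · have h1 : ‖h x‖ = 1 / 2 := le_antisymm hx hxB
      have h2 : projIcc (0 : ℝ) 1 zero_le_one (2 * (1 - ‖h x‖)) = 1 := by
        rw [h1]
        apply projIcc_of_right_le
        norm_num
      simp only [G', h2, hH1]
    · rfl
  have hDA : ContinuousOn D {x | ‖h x‖ ≤ 1 / 2} := by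
    refine (continuousOn_const (c := y₀.1)).congr fun x hx => hD1 x hx
  have hclA : IsClosed {x : EuclideanSpace ℝ (Fin 3) | ‖h x‖ ≤ 1 / 2} :=
    isClosed_le hc.norm continuous_const
  have hclB : IsClosed B := isClosed_le continuous_const hc.norm
  have hDc : Continuous D := by
    rw [← continuousOn_univ]
    refine (hDA.union_of_isClosed hDB hclA hclB).mono ?_
    intro x _
    by_cases h2 : ‖h x‖ ≤ 1 / 2
    · exact Or.inl h2
    · exact Or.inr (not_le.1 h2).le
  refine ⟨D, hDc, fun x => ?_, fun x hx => ?_⟩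
  · simp only [D]
    split_ifs with hxB
    · exact (H _).2
    · exact y₀.2
  · have hx' : 1 ≤ ‖h x‖ := hx
    have hxB : x ∈ B := by
      show 1 / 2 ≤ ‖h x‖
      linarith
    have h2 : projIcc (0 : ℝ) 1 zero_le_one (2 * (1 - ‖h x‖)) = 0 := by
      apply projIcc_of_le_left
      linarith
    simp only [D]
    rw [dif_pos hxB]
    simp only [G', h2, hH0]
    rfl

theorem no_link {Ω K : Set (EuclideanSpace ℝ (Fin 3))} [ContractibleSpace Ω]
    (hdis : Disjoint Ω K) (hK : IsPathConnected K) {e : EuclideanSpace ℝ (Fin 3)} (he : ‖e‖ = 1)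
    {C : ℝ} (hC : 0 < C) (hcirc : ∀ x, inner ℝ x e = 0 → ‖x‖ = C → x ∈ Ω)
    (hin : ∀ x ∈ K, inner ℝ x e = 0 → ‖x‖ < C) (hup : ∀ T : ℝ, ∃ x ∈ K, T < inner ℝ x e)
    (hdn : ∀ T : ℝ, ∃ x ∈ K, inner ℝ x e < -T) : False := by
  obtain ⟨D, hDc, hDΩ, hD1⟩ := link_disc he hC hcirc
  -- vertical coordinate and horizontal part
  have hee : inner ℝ e e = (1 : ℝ) := by rw [real_inner_self_eq_norm_sq, he]; norm_num
  set h : EuclideanSpace ℝ (Fin 3) → EuclideanSpace ℝ (Fin 3) :=
    fun x => x - (inner ℝ x e : ℝ) • e with hh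
  have hc : Continuous h := by
    simp only [hh]
    fun_prop
  have hin0 : ∀ x, inner ℝ (h x) e = 0 := by
    intro x
    simp only [hh]
    rw [inner_sub_left, inner_smul_left, hee]
    simp
  have hdec : ∀ x, x = h x + (inner ℝ x e : ℝ) • e := by
    intro x
    simp only [hh]
    abel
  -- the bound
  obtain ⟨T, hT⟩ := (isCompact_closedBall (0 : EuclideanSpace ℝ (Fin 3)) 3).bddAbove_image
    (f := fun x => |inner ℝ (D x) e|) (by fun_prop)
  have hT' : ∀ x, ‖x‖ ≤ 3 → |inner ℝ (D x) e| ≤ T := by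
    intro x hx
    exact hT ⟨x, mem_closedBall_zero_iff.2 hx, rfl⟩
  obtain ⟨xp, hxpK, hxp⟩ := hup T
  obtain ⟨xm, hxmK, hxm⟩ := hdn T
  obtain ⟨γ, hγ⟩ := hK.joinedIn xm hxmK xp hxpK
  set g : ℝ → EuclideanSpace ℝ (Fin 3) := fun t => γ.extend ((t + 1) / 2) with hg
  have hgc : Continuous g := γ.continuous_extend.comp (by fun_prop)
  have hgK : ∀ t, g t ∈ K := by
    intro t
    simp only [hg, Path.extend]
    exact hγ _
  have hg1 : g 1 = xp := by
    simp only [hg]
    norm_num
  have hgm1 : g (-1) = xm := by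
    simp only [hg]
    norm_num
  -- the box
  set Q : Set (EuclideanSpace ℝ (Fin 3)) := {x | ‖h x‖ ≤ 2 ∧ |inner ℝ x e| ≤ 1} with hQ
  have hadd : ∀ x y, h (x + y) = h x + h y := by
    intro x y
    simp only [hh]
    rw [inner_add_left, add_smul]
    abel
  have hsmul : ∀ (a : ℝ) x, h (a • x) = a • h x := by
    intro a x
    simp only [hh]
    rw [real_inner_smul_left, mul_smul, smul_sub]
  have hhe : h e = 0 := by
    simp only [hh]
    rw [hee, one_smul, sub_self]
  have hfix : ∀ x, inner ℝ x e = (0 : ℝ) → h x = x := by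
    intro x hx
    simp only [hh]
    rw [hx, zero_smul, sub_zero]
  have hnorm : ∀ x ∈ Q, ‖x‖ ≤ 3 := by
    intro x hx
    rw [hdec x]
    refine (norm_add_le _ _).trans ?_
    rw [norm_smul, he, mul_one, Real.norm_eq_abs]
    have := hx.1
    have := hx.2
    linarith
  have hQcl : IsClosed Q :=
    (isClosed_le hc.norm continuous_const).and (isClosed_le (by fun_prop) continuous_const)
  have hQc : IsCompact Q :=
    (isCompact_closedBall (0 : EuclideanSpace ℝ (Fin 3)) 3).of_isClosed_subset hQcl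
      fun x hx => mem_closedBall_zero_iff.2 (hnorm x hx)
  have hQconv : Convex ℝ Q := by
    intro x hx y hy a b ha hb hab
    refine ⟨?_, ?_⟩
    · rw [hadd, hsmul, hsmul]
      refine (norm_add_le _ _).trans ?_
      rw [norm_smul, norm_smul, Real.norm_of_nonneg ha, Real.norm_of_nonneg hb]
      have h1 := hx.1
      have h2 := hy.1
      nlinarith
    · rw [inner_add_left, real_inner_smul_left, real_inner_smul_left]
      refine (abs_add_le _ _).trans ?_
      rw [abs_mul, abs_mul, abs_of_nonneg ha, abs_of_nonneg hb]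
      have h1 := hx.2
      have h2 := hy.2
      nlinarith
  have hQne : Q.Nonempty := ⟨0, by
    refine ⟨?_, ?_⟩
    · have : h 0 = 0 := by simp only [hh]; simp
      rw [this, norm_zero]; norm_num
    · simp⟩
  -- the vector field
  set u : EuclideanSpace ℝ (Fin 3) → ℝ := fun x => 1 - max 0 (‖h x‖ - 1) with hu
  have huc : Continuous u := by
    simp only [hu]
    exact continuous_const.sub (continuous_const.max (hc.norm.sub continuous_const))
  set F : EuclideanSpace ℝ (Fin 3) → EuclideanSpace ℝ (Fin 3) :=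
    fun x => h (D x) - u x • h (g (inner ℝ x e)) with hF
  set V : EuclideanSpace ℝ (Fin 3) → ℝ :=
    fun x => inner ℝ (D x) e - inner ℝ (g (inner ℝ x e)) e with hV
  have hgic : Continuous fun x : EuclideanSpace ℝ (Fin 3) => g (inner ℝ x e) :=
    hgc.comp (by fun_prop)
  have hFc : Continuous F := (hc.comp hDc).sub (huc.smul (hc.comp hgic))
  have hVc : Continuous V :=
    (hDc.inner continuous_const).sub (hgic.inner continuous_const)
  have hF0 : ∀ x, inner ℝ (F x) e = 0 := by
    intro x
    simp only [hF]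
    rw [inner_sub_left, real_inner_smul_left, hin0, hin0]
    simp
  obtain ⟨q, hqQ, hq⟩ := link_vi hQc hQconv hQne (G := fun x => F x - V x • e)
    (hFc.sub (hVc.smul continuous_const))
  have hqe : inner ℝ q e = (inner ℝ q e : ℝ) := rfl
  set t : ℝ := inner ℝ q e with ht
  have htb := abs_le.1 hqQ.2
  -- vertical part
  have hver : ∀ τ : ℝ, |τ| ≤ 1 → (τ - t) * V q ≤ 0 := by
    intro τ hτ
    have hw : h q + τ • e ∈ Q := by
      refine ⟨?_, ?_⟩
      · rw [hadd, hsmul, hhe, smul_zero, add_zero, hfix _ (hin0 q)]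
        exact hqQ.1
      · rw [inner_add_left, hin0, real_inner_smul_left, hee, zero_add, mul_one]
        exact hτ
    have h1 := hq _ hw
    have h2 : h q + τ • e - q = (τ - t) • e := by
      nth_rewrite 2 [hdec q]
      rw [sub_smul]
      abel
    rw [h2, real_inner_smul_right, inner_sub_left, hF0, real_inner_smul_left, hee] at h1
    linarith
  have hDq := abs_le.1 (hT' q (hnorm q hqQ))
  have hV0 : V q = 0 := by
    by_contra hne
    rcases lt_or_gt_of_ne hne with hlt | hgt
    · have h1 := hver (-1) (by norm_num)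
      have h2 : t = -1 := by
        by_contra h3
        have h4 : -1 < t := lt_of_le_of_ne htb.1 (Ne.symm h3)
        nlinarith
      have h3 : V q = inner ℝ (D q) e - inner ℝ (g t) e := rfl
      rw [h2, hgm1] at h3
      linarith
    · have h1 := hver 1 (by norm_num)
      have h2 : t = 1 := by
        by_contra h3
        have h4 : t < 1 := lt_of_le_of_ne htb.2 h3
        nlinarith
      have h3 : V q = inner ℝ (D q) e - inner ℝ (g t) e := rfl
      rw [h2, hg1] at h3
      linarith
  -- horizontal part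
  have hhor : ∀ v : EuclideanSpace ℝ (Fin 3), inner ℝ v e = 0 → ‖v‖ ≤ 2 →
      0 ≤ inner ℝ (F q) (v - h q) := by
    intro v hv hv2
    have hw : v + t • e ∈ Q := by
      refine ⟨?_, ?_⟩
      · rw [hadd, hsmul, hhe, smul_zero, add_zero, hfix _ hv]
        exact hv2
      · rw [inner_add_left, hv, real_inner_smul_left, hee, zero_add, mul_one]
        exact hqQ.2
    have h1 := hq _ hw
    have h2 : v + t • e - q = v - h q := by
      nth_rewrite 1 [hdec q]
      abel
    rw [h2] at h1
    simp only [hV0, zero_smul, sub_zero] at h1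
    exact h1
  have hFq : F q = 0 := by
    by_contra hne
    have hpos : 0 < ‖F q‖ := norm_pos_iff.2 hne
    have h1 := hhor (-(2 * ‖F q‖⁻¹) • F q) (by
      rw [real_inner_smul_left, hF0, mul_zero]) (by
      rw [norm_smul, norm_neg, Real.norm_of_nonneg (by positivity)]
      field_simp
      norm_num)
    rw [inner_sub_right, real_inner_smul_right, real_inner_self_eq_norm_sq] at h1
    have h2 : -(2 * ‖F q‖⁻¹) * ‖F q‖ ^ 2 = -2 * ‖F q‖ := by
      field_simp
    rw [h2] at h1
    have h3 := abs_le.1 (abs_real_inner_le_norm (F q) (h q))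
    have h4 : 2 ≤ ‖h q‖ := by
      by_contra h5
      rw [not_le] at h5
      nlinarith [h3.1]
    have h5 : ‖h q‖ = 2 := le_antisymm hqQ.1 h4
    have h6 : D q = (C * ‖h q‖⁻¹) • h q := hD1 q (by
      show 1 ≤ ‖h q‖
      linarith)
    have h7 : u q = 0 := by
      simp only [hu]
      rw [h5]
      norm_num
    have h8 : F q = (C * ‖h q‖⁻¹) • h q := by
      simp only [hF]
      rw [h7, zero_smul, sub_zero, h6, hsmul, hfix _ (hin0 q)]
    have h9 : inner ℝ (F q) (h q) = 2 * C := by
      rw [h8, real_inner_smul_left, real_inner_self_eq_norm_sq, h5]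
      ring
    linarith
  -- contradiction
  have hVq : inner ℝ (D q) e = (inner ℝ (g t) e : ℝ) := by
    have h3 : V q = inner ℝ (D q) e - inner ℝ (g t) e := rfl
    linarith
  have hFq' : h (D q) = u q • h (g t) := by
    have h3 : F q = h (D q) - u q • h (g t) := rfl
    rw [hFq] at h3
    exact (sub_eq_zero.1 h3.symm)
  rcases le_total ‖h q‖ 1 with hle | hge
  · have h1 : u q = 1 := by
      simp only [hu]
      rw [max_eq_left (by linarith), sub_zero]
    rw [h1, one_smul] at hFq'
    have h2 : D q = g t := by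
      rw [hdec (D q), hdec (g t), hFq', hVq]
    exact Set.disjoint_left.1 hdis (hDΩ q) (h2 ▸ hgK t)
  · have h6 : D q = (C * ‖h q‖⁻¹) • h q := hD1 q hge
    have hq0 : 0 < ‖h q‖ := by linarith
    have h7 : inner ℝ (D q) e = (0 : ℝ) := by
      rw [h6, real_inner_smul_left, hin0, mul_zero]
    have h8 : ‖D q‖ = C := by
      rw [h6, norm_smul, Real.norm_of_nonneg (by positivity)]
      field_simp
    rw [h7] at hVq
    have h9 := hin (g t) (hgK t) hVq.symm
    rw [hfix _ h7, hfix _ hVq.symm] at hFq'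
    have hu0 : 0 ≤ u q := by
      simp only [hu]
      have := hqQ.1
      have h10 : max 0 (‖h q‖ - 1) ≤ 1 := max_le (by norm_num) (by linarith)
      linarith
    have hu1 : u q ≤ 1 := by
      simp only [hu]
      have h10 : 0 ≤ max 0 (‖h q‖ - 1) := le_max_left _ _
      linarith
    rw [hFq', norm_smul, Real.norm_of_nonneg hu0] at h8
    have h11 := norm_nonneg (g t)
    nlinarith

end FB75
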