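import Pool.Agent.LT93.Brouwer

/-!
# A contractible subset of three-space with bounded nonempty complement does not exist
-/

open Metric Set Filter Topology

namespace FB75

theorem unbounded_compl {A : Set (EuclideanSpace ℝ (Fin 3))} [hA : ContractibleSpace A]
    {p : EuclideanSpace ℝ (Fin 3)} (hp : p ∉ A) : ¬ Bornology.IsBounded Aᶜ := by
  intro hb
  obtain ⟨ρ₀, hρ₀⟩ := hb.subset_closedBall p
  set ρ : ℝ := max ρ₀ 0 + 1 with hρ
  have hρ0 : 0 < ρ := by rw [hρ]; have := le_max_right ρ₀ 0; linarith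
  have hout : ∀ x, dist x p = ρ → x ∈ A := by
    intro x hx
    by_contra h
    have h1 := hρ₀ h
    rw [mem_closedBall, hx, hρ] at h1
    have := le_max_left ρ₀ 0
    linarith
  obtain ⟨y₀, ⟨H⟩⟩ := id_nullhomotopic A
  -- `H (0, a) = a`, `H (1, a) = y₀`
  have hH0 : ∀ a : A, H (0, a) = a := fun a => H.apply_zero a
  have hH1 : ∀ a : A, H (1, a) = y₀ := fun a => H.apply_one a
  set B : Set (EuclideanSpace ℝ (Fin 3)) := {x | 1 / 2 ≤ ‖x‖ ∧ ‖x‖ ≤ 1} with hB
  have hdir : ∀ x ∈ B, p + (ρ * ‖x‖⁻¹) • x ∈ A := by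
    intro x hx
    have hx0 : 0 < ‖x‖ := by have := hx.1; linarith
    apply hout
    rw [dist_eq_norm, add_sub_cancel_left, norm_smul, Real.norm_of_nonneg (by positivity)]
    field_simp
  let G' : B → EuclideanSpace ℝ (Fin 3) := fun x =>
    (H (projIcc 0 1 zero_le_one (2 * (1 - ‖x.1‖)), ⟨p + (ρ * ‖x.1‖⁻¹) • x.1, hdir x.1 x.2⟩)).1
  have hG'c : Continuous G' := by
    refine continuous_subtype_val.comp (H.continuous.comp ?_)
    refine Continuous.prodMk (continuous_projIcc.comp (by fun_prop)) ?_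
    refine Continuous.subtype_mk ?_ _
    have h1 : Continuous fun x : B => ‖x.1‖⁻¹ := by
      refine Continuous.inv₀ (by fun_prop) ?_
      intro x hx
      have := x.2.1
      rw [hx] at this
      norm_num at this
    fun_prop
  classical
  let N : EuclideanSpace ℝ (Fin 3) → EuclideanSpace ℝ (Fin 3) := fun z => ‖z - p‖⁻¹ • (z - p)
  have hNn : ∀ z, z ≠ p → ‖N z‖ = 1 := by
    intro z hz
    simp only [N]
    rw [norm_smul, norm_inv, norm_norm, inv_mul_cancel₀]
    rw [norm_ne_zero_iff, sub_ne_zero]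
    exact hz
  let r : EuclideanSpace ℝ (Fin 3) → EuclideanSpace ℝ (Fin 3) := fun x =>
    if hx : x ∈ B then N (G' ⟨x, hx⟩) else N y₀.1
  have hne : ∀ a : A, a.1 ≠ p := fun a h => hp (h ▸ a.2)
  have hrn : ∀ x, ‖r x‖ = 1 := by
    intro x
    simp only [r]
    split_ifs with hx
    · exact hNn _ (hne _)
    · exact hNn _ (hne _)
  have hNc : ∀ {X : Type} [TopologicalSpace X] {f : X → EuclideanSpace ℝ (Fin 3)}, Continuous f →
      (∀ x, f x ≠ p) → Continuous fun x => N (f x) := by
    intro X _ f hf hfp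
    simp only [N]
    have h1 : Continuous fun x => ‖f x - p‖⁻¹ := by
      refine Continuous.inv₀ (by fun_prop) ?_
      intro x
      rw [norm_ne_zero_iff, sub_ne_zero]
      exact hfp x
    fun_prop
  have hrB : ContinuousOn r B := by
    rw [continuousOn_iff_continuous_domRestrict]
    have hrG : ∀ x : B, r x.1 = N (G' x) := by
      intro x
      simp only [r]
      rw [dif_pos x.2]
    have : B.domRestrict r = fun x : B => N (G' x) := by
      funext x
      exact hrG x
    rw [this]
    exact hNc hG'c fun x => hne _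
  have hr1 : ∀ x, ‖x‖ ≤ 1 / 2 → r x = N y₀.1 := by
    intro x hx
    simp only [r]
    split_ifs with hxB
    · have h1 : ‖x‖ = 1 / 2 := le_antisymm hx hxB.1
      have h2 : projIcc (0 : ℝ) 1 zero_le_one (2 * (1 - ‖x‖)) = 1 := by
        rw [h1]
        apply projIcc_of_right_le
        norm_num
      simp only [G', h2, hH1]
    · rfl
  have hrA : ContinuousOn r {x | ‖x‖ ≤ 1 / 2} := by
    refine (continuousOn_const (c := N y₀.1)).congr fun x hx => hr1 x hx
  have hclA : IsClosed {x : EuclideanSpace ℝ (Fin 3) | ‖x‖ ≤ 1 / 2} :=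
    isClosed_le (by fun_prop) continuous_const
  have hclB : IsClosed B :=
    (isClosed_le continuous_const (by fun_prop)).and (isClosed_le (by fun_prop) continuous_const)
  have hrc : ContinuousOn r (closedBall 0 1) := by
    refine (hrA.union_of_isClosed hrB hclA hclB).mono ?_
    intro x hx
    rw [mem_closedBall_zero_iff] at hx
    by_cases h : ‖x‖ ≤ 1 / 2
    · exact Or.inl h
    · exact Or.inr ⟨(not_le.1 h).le, hx⟩
  have hrs : ∀ x, ‖x‖ = 1 → r x = x := by
    intro x hx
    have hxB : x ∈ B := ⟨by rw [hx]; norm_num, hx.le⟩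
    simp only [r]
    rw [dif_pos hxB]
    have h2 : projIcc (0 : ℝ) 1 zero_le_one (2 * (1 - ‖x‖)) = 0 := by
      rw [hx]
      apply projIcc_of_le_left
      norm_num
    simp only [G', h2, hH0, N]
    rw [add_sub_cancel_left, norm_smul, Real.norm_of_nonneg (by positivity), hx, smul_smul]
    have : (ρ * 1⁻¹ * 1)⁻¹ * (ρ * 1⁻¹) = 1 := by field_simp
    rw [this, one_smul]
  obtain ⟨x, hx, hfx⟩ := LT93.brouwer (isCompact_closedBall (0 : EuclideanSpace ℝ (Fin 3)) 1)
    (convex_closedBall _ _) ⟨0, by simp⟩ (f := fun x => -r x) hrc.neg (by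
      intro x hx
      rw [mem_closedBall_zero_iff, norm_neg, hrn])
  have hx1 : ‖x‖ = 1 := by rw [← hfx, norm_neg, hrn]
  rw [hrs x hx1] at hfx
  have : x = 0 := by
    have h : (2 : ℝ) • x = 0 := by
      rw [two_smul]
      nth_rewrite 1 [← hfx]
      exact neg_add_cancel x
    exact (smul_eq_zero.1 h).resolve_left (by norm_num)
  rw [this, norm_zero] at hx1
  norm_num at hx1

end FB75
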