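import Pool.Agent.FB75.Cone
import Pool.Agent.FB75.Link
import Pool.Agent.FB75.Unbdd

/-!
# The asymptotic directions of the zero phase meet every great circle
-/

open MeasureTheory Metric Set Filter Topology InnerProductSpace Laplacian
open scoped ContDiff

namespace FB75

theorem asym_aux {u : E3 → ℝ} (hu : IsEntireSolution u) (hΩ : IsPreconnected {x | 0 < u x})
    (hunb : ¬ Bornology.IsBounded {x | u x = 0}) {e : E3} (he : ‖e‖ = 1) {δ M T : ℝ}
    (hδ : 0 < δ) (hM : 0 ≤ M) (h : ∀ x, u x = 0 → δ * ‖x‖ - M ≤ |inner ℝ x e|)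
    (hT : ∀ x, u x = 0 → -T ≤ inner ℝ x e) : False := by
  refine no_cone hu hΩ hunb he (M := M + 2 * |T|) hδ fun x hx => ?_
  have h1 := h x hx
  have h2 := hT x hx
  have h3 := le_abs_self T
  have h4 := abs_nonneg T
  rcases le_total 0 (inner ℝ x e) with h5 | h5
  · rw [abs_of_nonneg h5] at h1
    linarith
  · rw [abs_of_nonpos h5] at h1
    linarith

theorem asym_dir {u : E3 → ℝ} (hu : IsEntireSolution u) [hC : ContractibleSpace {x | 0 < u x}]
    [ContractibleSpace {x | u x = 0}] {e : E3} (he : ‖e‖ = 1) {δ : ℝ} (hδ : 0 < δ) (M : ℝ) :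
    ∃ x, u x = 0 ∧ |inner ℝ x e| < δ * ‖x‖ - M := by
  by_contra hcon
  push Not at hcon
  -- replace `M` by a nonnegative number
  set M' : ℝ := max M 0 with hM'
  have hM0 : 0 ≤ M' := le_max_right _ _
  have h : ∀ x, u x = 0 → δ * ‖x‖ - M' ≤ |inner ℝ x e| := by
    intro x hx
    have := hcon x hx
    have h1 := le_max_left M 0
    linarith
  have hΩ : IsPreconnected {x | 0 < u x} := by
    rw [isPreconnected_iff_preconnectedSpace]
    infer_instance
  have hKp : IsPathConnected {x | u x = 0} := by
    rw [isPathConnected_iff_pathConnectedSpace]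
    infer_instance
  obtain ⟨p, hp⟩ := hKp.nonempty
  have hp' : u p = 0 := hp
  have hunb : ¬ Bornology.IsBounded {x | u x = 0} := by
    have h1 := unbounded_compl (A := {x | 0 < u x}) (p := p) (by simp [hp'])
    have h2 : {x | 0 < u x}ᶜ = {x | u x = 0} := by
      ext x
      simp only [mem_compl_iff, mem_ofPred_eq, not_lt]
      exact ⟨fun h => le_antisymm h (hu.nonneg x), fun h => h.le⟩
    rwa [h2] at h1
  by_cases hdn : ∀ T : ℝ, ∃ x ∈ {x | u x = 0}, inner ℝ x e < -T
  · by_cases hup : ∀ T : ℝ, ∃ x ∈ {x | u x = 0}, T < inner ℝ x e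
    · -- linking
      refine no_link (Ω := {x | 0 < u x}) (K := {x | u x = 0}) ?_ hKp he
        (C := M' / δ + 1) (by positivity) ?_ ?_ hup hdn
      · refine Set.disjoint_left.2 fun x hx hx' => ?_
        have h1 : 0 < u x := hx
        have h2 : u x = 0 := hx'
        linarith
      · intro x hx hxn
        refine pos_of_ne hu fun h0 => ?_
        have h1 := h x h0
        rw [hx, abs_zero, hxn] at h1
        have h2 : δ * (M' / δ + 1) = M' + δ := by field_simp
        linarith
      · intro x hx hx0
        have h1 := h x hx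
        rw [hx0, abs_zero] at h1
        have h2 : ‖x‖ ≤ M' / δ := by rw [le_div_iff₀ hδ]; linarith
        linarith
    · push Not at hup
      obtain ⟨T, hT⟩ := hup
      refine asym_aux hu hΩ hunb (e := -e) (by rw [norm_neg, he]) (T := T) hδ hM0
        (fun x hx => ?_) (fun x hx => ?_)
      · rw [inner_neg_right, abs_neg]; exact h x hx
      · rw [inner_neg_right]
        have := hT x hx
        linarith
  · push Not at hdn
    obtain ⟨T, hT⟩ := hdn
    exact asym_aux hu hΩ hunb he (T := T) hδ hM0 h (fun x hx => hT x hx)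

end FB75
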