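import Pool.Agent.FB75.Struct

/-!
# Exterior balls
-/

open MeasureTheory Metric Set Filter Topology InnerProductSpace Laplacian
open scoped ContDiff

namespace FB75

/-- The barrier bound in the annulus around a ball of the zero phase. -/
private theorem extBall_barrier {u : E3 → ℝ} (hu : IsEntireSolution u) {q : E3} {ρ m : ℝ}
    (hρ : 0 < ρ) (hm0 : 0 ≤ m) (hzero : ∀ x ∈ closedBall q ρ, u x = 0)
    (hm : ∀ x ∈ closedBall q (2 * ρ), u x ≤ m) {x : E3}
    (h1 : ρ ≤ dist x q) (h2 : dist x q ≤ 2 * ρ) :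
    u x ≤ 5 / 2 * m / ρ ^ 2 * (dist x q ^ 2 - ρ ^ 2) := by
  set α : ℝ := 2 / ρ ^ 2 with hα
  have hα0 : 0 < α := by positivity
  have hαρ : α * ρ ^ 2 = 2 := by rw [hα]; field_simp
  have he8 : Real.exp (-8) = Real.exp (-2) * Real.exp (-6) := by
    rw [← Real.exp_add]; norm_num
  have he6 : Real.exp (-6) ≤ 1 / 5 := by
    have h := Real.add_one_le_exp (6 : ℝ)
    have h3 : Real.exp (-6) * Real.exp 6 = 1 := by rw [← Real.exp_add]; norm_num
    nlinarith [Real.exp_pos (-6)]
  have he2 := Real.exp_pos (-2)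
  have hden : 0 < Real.exp (-2) - Real.exp (-8) := by
    rw [he8]; nlinarith
  set K : ℝ := m / (Real.exp (-2) - Real.exp (-8)) with hK
  have hK0 : 0 ≤ K := div_nonneg hm0 hden.le
  have hKm : K * (Real.exp (-2) - Real.exp (-8)) = m := by rw [hK]; field_simp
  let F : E3 → ℝ := fun x => K * (Real.exp (-2) - gau q α x) - u x
  have hFc : Continuous F := by
    have := (gau_contDiff q α).continuous
    have := hu.continuous
    fun_prop
  have hgau : ∀ x, gau q α x = Real.exp (-α * dist x q ^ 2) := by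
    intro x; rw [gau, dist_eq_norm]
  have hgle : ∀ x, ρ ≤ dist x q → gau q α x ≤ Real.exp (-2) := by
    intro x hx
    rw [hgau]
    refine Real.exp_le_exp.2 ?_
    have : ρ ^ 2 ≤ dist x q ^ 2 := pow_le_pow_left₀ hρ.le hx 2
    nlinarith
  have hC : IsCompact (closedBall q (2 * ρ) ∩ {x | ρ ≤ dist x q}) :=
    (isCompact_closedBall q _).inter_right (isClosed_le continuous_const (by fun_prop))
  have key := min_principle hC hFc.continuousOn ?_ x ⟨mem_closedBall.2 h2, h1⟩
  · -- conclusion from the barrier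
    have h3 : 1 - Real.exp (-(α * dist x q ^ 2 - 2)) ≤ α * dist x q ^ 2 - 2 := by
      have := Real.add_one_le_exp (-(α * dist x q ^ 2 - 2))
      linarith
    have h4 : gau q α x = Real.exp (-2) * Real.exp (-(α * dist x q ^ 2 - 2)) := by
      rw [hgau, ← Real.exp_add]; congr 1; ring
    have h5 : u x ≤ K * (Real.exp (-2) - gau q α x) := by
      simp only [F] at key; linarith
    have h6 : K * Real.exp (-2) ≤ 5 / 4 * m := by
      have : K * Real.exp (-2) * (1 - Real.exp (-6)) = m := by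
        rw [← hKm, he8]; ring
      have h7 : 0 ≤ K * Real.exp (-2) := by positivity
      nlinarith
    have h8 : 0 ≤ α * dist x q ^ 2 - 2 := by
      have : ρ ^ 2 ≤ dist x q ^ 2 := pow_le_pow_left₀ hρ.le h1 2
      nlinarith
    calc u x ≤ K * (Real.exp (-2) - gau q α x) := h5
      _ = K * Real.exp (-2) * (1 - Real.exp (-(α * dist x q ^ 2 - 2))) := by rw [h4]; ring
      _ ≤ K * Real.exp (-2) * (α * dist x q ^ 2 - 2) :=
          mul_le_mul_of_nonneg_left h3 (by positivity)
      _ ≤ 5 / 4 * m * (α * dist x q ^ 2 - 2) := mul_le_mul_of_nonneg_right h6 h8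
      _ = 5 / 2 * m / ρ ^ 2 * (dist x q ^ 2 - ρ ^ 2) := by
          rw [hα]; field_simp; ring
  · rintro x ⟨hx2, hx1⟩ hFx
    rw [mem_closedBall] at hx2
    rw [mem_ofPred_eq] at hx1
    have hux : K * (Real.exp (-2) - gau q α x) < u x := by
      simp only [F] at hFx; linarith
    have hupos : 0 < u x :=
      lt_of_le_of_lt (mul_nonneg hK0 (by linarith [hgle x hx1])) hux
    have hne1 : dist x q ≠ ρ := by
      intro h
      rw [hzero x (mem_closedBall.2 h.le)] at hupos
      exact lt_irrefl _ hupos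
    have hne2 : dist x q ≠ 2 * ρ := by
      intro h
      have h3 : gau q α x = Real.exp (-8) := by
        rw [hgau, h]; congr 1; nlinarith
      rw [h3, hKm] at hux
      exact absurd (hm x (mem_closedBall.2 hx2)) (not_le.2 hux)
    have hx1' : ρ < dist x q := lt_of_le_of_ne hx1 (Ne.symm hne1)
    have hx2' : dist x q < 2 * ρ := lt_of_le_of_ne hx2 hne2
    refine ⟨?_, ?_⟩
    · have hcd : Continuous fun v : E3 => dist v q := by fun_prop
      have ho : IsOpen {v : E3 | dist v q < 2 * ρ ∧ ρ < dist v q} :=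
        (isOpen_lt hcd continuous_const).and (isOpen_lt continuous_const hcd)
      refine mem_of_superset
        (ho.mem_nhds (show x ∈ {v : E3 | dist v q < 2 * ρ ∧ ρ < dist v q} from ⟨hx2', hx1'⟩)) ?_
      rintro v ⟨hv1, hv2⟩
      exact ⟨mem_closedBall.2 hv1.le, hv2.le⟩
    · have hharm : HarmonicAt u x := hu.harmonic x hupos
      have hb0 : ContDiffAt ℝ 2 ((fun _ => Real.exp (-2)) - gau q α) x :=
        (contDiff_const.sub (gau_contDiff q α)).contDiffAt
      have hb : ContDiffAt ℝ 2 (K • ((fun _ => Real.exp (-2)) - gau q α)) x := hb0.const_smul K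
      have hFeq : F = K • ((fun _ => Real.exp (-2)) - gau q α) - u := by
        funext v; simp [F]
      have hlapF : Δ F x = - (K * ((4 * α ^ 2 * ‖x - q‖ ^ 2 - 6 * α) * gau q α x)) := by
        rw [hFeq, hb.laplacian_sub hharm.1, hharm.2.self_of_nhds,
          laplacian_smul K hb0,
          contDiffAt_const.laplacian_sub (gau_contDiff q α).contDiffAt, gau_laplacian]
        simp
      refine ⟨by rw [hFeq]; exact hb.sub hharm.1, ?_⟩
      rw [hlapF]
      have hpos : 0 ≤ 4 * α ^ 2 * ‖x - q‖ ^ 2 - 6 * α := by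
        have h6 : ρ ^ 2 ≤ ‖x - q‖ ^ 2 := by
          rw [← dist_eq_norm]
          exact pow_le_pow_left₀ hρ.le hx1 2
        have h7 : 2 ≤ α * ‖x - q‖ ^ 2 := by nlinarith
        nlinarith
      have hg : 0 < gau q α x := Real.exp_pos _
      have : 0 ≤ K * ((4 * α ^ 2 * ‖x - q‖ ^ 2 - 6 * α) * gau q α x) := by positivity
      linarith

/-- If a ball of radius `ρ` in the zero phase touches the free boundary, then `u` is at least
`ρ / 5` somewhere in the concentric ball of twice the radius. -/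
theorem ext_ball {u : E3 → ℝ} (hu : IsEntireSolution u) {q y : E3} {ρ m : ℝ} (hρ : 0 < ρ)
    (hq : ∀ x ∈ ball q ρ, u x = 0) (hy : y ∈ frontier {x | 0 < u x}) (hyq : dist y q = ρ)
    (hm : ∀ x ∈ closedBall q (2 * ρ), u x ≤ m) : ρ ≤ 5 * m := by
  have hm0 : 0 ≤ m := by
    have h := hm q (mem_closedBall_self (by positivity))
    rwa [hq q (mem_ball_self hρ)] at h
  have hzero : ∀ x ∈ closedBall q ρ, u x = 0 := by
    intro x hx
    rw [← closure_ball q hρ.ne'] at hx
    exact closure_minimal (fun y hy => hq y hy) (isClosed_zero hu) hx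
  by_contra hlt
  push Not at hlt
  obtain ⟨z, hzpos, hz⟩ := mem_closure_iff_seq_limit.1 (frontier_subset_closure hy)
  obtain ⟨ν, r, g, -, hside, -⟩ := exists_side hu hy hz hzpos one_pos
  set ε : ℝ := (ρ - 5 * m) / (2 * ρ) with hε
  have hε0 : 0 < ε := div_pos (by linarith) (by positivity)
  have hε1 : (1 - ε) * (2 * ρ) = ρ + 5 * m := by rw [hε]; field_simp; ring
  have hlow := hside.lower hε0
  have hsmall : ∀ᶠ s in 𝓝[>] (0 : ℝ), s ∈ Ioo (0 : ℝ) (ρ - 5 * m) :=
    Ioo_mem_nhdsGT (by linarith)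
  obtain ⟨s, hs, hs0, hs1⟩ := (hlow.and hsmall).exists
  set x : E3 := y + s • ν with hx
  have hdx : dist x q ≤ ρ + s := by
    have h1 : dist x y = s := by
      rw [hx, dist_eq_norm, add_sub_cancel_left, norm_smul, hside.norm_nu, mul_one,
        Real.norm_of_nonneg hs0.le]
    calc dist x q ≤ dist x y + dist y q := dist_triangle _ _ _
      _ = ρ + s := by rw [h1, hyq]; ring
  have h1ε : 0 < 1 - ε := by
    by_contra h
    push Not at h
    nlinarith
  have hupos : 0 < u x := lt_of_lt_of_le (by positivity) hs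
  have hρx : ρ ≤ dist x q := by
    by_contra h
    push Not at h
    rw [hzero x (mem_closedBall.2 h.le)] at hupos
    exact lt_irrefl _ hupos
  have hb := extBall_barrier hu hρ hm0 hzero hm hρx (by linarith)
  have h3 : dist x q ^ 2 - ρ ^ 2 ≤ s * (2 * ρ + s) := by
    have : dist x q ^ 2 ≤ (ρ + s) ^ 2 := pow_le_pow_left₀ dist_nonneg hdx 2
    nlinarith
  have h4 : 5 / 2 * m / ρ ^ 2 * (dist x q ^ 2 - ρ ^ 2) ≤ 5 / 2 * m / ρ ^ 2 * (s * (2 * ρ + s)) :=
    mul_le_mul_of_nonneg_left h3 (by positivity)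
  have h5 : (1 - ε) * s ≤ 5 / 2 * m / ρ ^ 2 * (s * (2 * ρ + s)) := hs.trans (hb.trans h4)
  have h6 : (1 - ε) * s * (2 * ρ ^ 2) ≤ 5 * m * (s * (2 * ρ + s)) := by
    have := mul_le_mul_of_nonneg_right h5 (show (0 : ℝ) ≤ 2 * ρ ^ 2 by positivity)
    calc (1 - ε) * s * (2 * ρ ^ 2) ≤ 5 / 2 * m / ρ ^ 2 * (s * (2 * ρ + s)) * (2 * ρ ^ 2) := this
      _ = 5 * m * (s * (2 * ρ + s)) := by field_simp
  have h7 : (1 - ε) * (2 * ρ) * ρ ≤ 5 * m * (2 * ρ + s) := by
    have : s * ((1 - ε) * (2 * ρ) * ρ) ≤ s * (5 * m * (2 * ρ + s)) := by nlinarith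
    exact le_of_mul_le_mul_left this hs0
  rw [hε1] at h7
  nlinarith

end FB75
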