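import Pool.Agent.FB75.Comp

/-!
# Spreading of positivity in a half-space, Phragmen-Lindelof with gain
-/

open MeasureTheory Metric Set Filter Topology InnerProductSpace Laplacian
open scoped ContDiff

namespace FB75

theorem spread_hasFDerivAt_inner (e a : E3) (y : E3) :
    HasFDerivAt (fun y : E3 => inner ℝ (y - a) e) (innerSL ℝ e) y := by
  have : (fun y : E3 => inner ℝ (y - a) e) = fun y => innerSL ℝ e (y - a) := by
    funext y; simp [real_inner_comm]
  rw [this]
  have h0 : HasFDerivAt (fun y : E3 => innerSL ℝ e (y - a))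
    ((innerSL ℝ e).comp (ContinuousLinearMap.id ℝ E3)) y :=
    (innerSL ℝ e).hasFDerivAt.comp y ((hasFDerivAt_id y).sub_const a)
  rwa [ContinuousLinearMap.comp_id] at h0

theorem spread_hasFDerivAt_ell (e : E3) (t : ℝ) (y : E3) :
    HasFDerivAt (fun y : E3 => inner ℝ y e - t) (innerSL ℝ e) y := by
  have h := (spread_hasFDerivAt_inner e 0 y).sub_const t
  simpa using h

theorem spread_ei_self (i : Fin 3) : inner ℝ (ei i) (ei i) = (1 : ℝ) := by
  rw [real_inner_self_eq_norm_sq, ei, (EuclideanSpace.basisFun (Fin 3) ℝ).norm_eq_one]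
  norm_num

theorem spread_sum_sq (v : E3) : ∑ i, (inner ℝ v (ei i)) ^ 2 = ‖v‖ ^ 2 := by
  have := (EuclideanSpace.basisFun (Fin 3) ℝ).sum_sq_inner_left v
  simpa [ei] using this

theorem spread_sum_mul (v w : E3) : ∑ i, inner ℝ v (ei i) * inner ℝ w (ei i) = inner ℝ v w := by
  have := (EuclideanSpace.basisFun (Fin 3) ℝ).sum_inner_mul_inner v w
  rw [← this]
  refine Finset.sum_congr rfl fun i _ => ?_
  rw [ei, real_inner_comm w]

theorem spread_lap (e p : E3) (t α : ℝ) (x : E3) :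
    Δ (fun y : E3 => (inner ℝ y e - t) * gau p α y) x =
      gau p α x * ((inner ℝ x e - t) * (4 * α ^ 2 * ‖x - p‖ ^ 2 - 10 * α) +
        4 * α * (inner ℝ p e - t)) := by
  have hcd : ContDiff ℝ 2 (fun y : E3 => (inner ℝ y e - t) * gau p α y) := by
    exact ContDiff.mul ((contDiff_id.inner ℝ contDiff_const).sub contDiff_const)
      (gau_contDiff p α)
  rw [laplacian_eq_sum hcd.contDiffAt]
  have h1 : ∀ i, (fun y => fderiv ℝ (fun y : E3 => (inner ℝ y e - t) * gau p α y) y (ei i)) =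
      fun y => (inner ℝ y e - t) * ((-2 * α * gau p α y) * inner ℝ (y - p) (ei i)) +
        gau p α y * inner ℝ e (ei i) := by
    intro i; funext y
    have hd : HasFDerivAt (fun y : E3 => (inner ℝ y e - t) * gau p α y) _ y :=
      (spread_hasFDerivAt_ell e t y).mul (gau_hasFDerivAt p α y)
    rw [hd.fderiv]
    simp only [add_apply, smul_apply, innerSL_apply_apply, smul_eq_mul]
  have h2 : ∀ i, fderiv ℝ (fun y => fderiv ℝ (fun y : E3 => (inner ℝ y e - t) * gau p α y) y
      (ei i)) x (ei i) =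
      (inner ℝ x e - t) * (4 * α ^ 2 * gau p α x * (inner ℝ (x - p) (ei i)) ^ 2 -
        2 * α * gau p α x) - 4 * α * gau p α x * (inner ℝ e (ei i) * inner ℝ (x - p) (ei i)) := by
    intro i
    rw [h1 i]
    have h4 := ((spread_hasFDerivAt_ell e t x).mul
      (((gau_hasFDerivAt p α x).const_mul (-2 * α)).mul
        (spread_hasFDerivAt_inner (ei i) p x))).add
      ((gau_hasFDerivAt p α x).mul_const (inner ℝ e (ei i)))
    have h5 := h4.fderiv
    have h6 : (fun y => (inner ℝ y e - t) * ((-2 * α * gau p α y) * inner ℝ (y - p) (ei i)) +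
        gau p α y * inner ℝ e (ei i)) = ((fun y => inner ℝ y e - t) *
          ((fun y => -2 * α * gau p α y) * fun y => inner ℝ (y - p) (ei i))) +
          fun y => gau p α y * inner ℝ e (ei i) := by
      funext y; simp
    rw [h6, h5]
    simp only [add_apply, smul_apply, innerSL_apply_apply, smul_eq_mul, spread_ei_self,
      Pi.mul_apply]
    ring
  simp only [h2]
  rw [Finset.sum_sub_distrib, ← Finset.mul_sum, ← Finset.mul_sum, spread_sum_mul,
    Finset.sum_sub_distrib, ← Finset.mul_sum, spread_sum_sq]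
  have h7 : inner ℝ e (x - p) = (inner ℝ x e - t) - (inner ℝ p e - t) := by
    rw [real_inner_comm, inner_sub_left]; ring
  rw [h7]
  simp
  ring


/-- The quadratic barrier of the half ball. -/
noncomputable def spread_q (e b : E3) (a0 a1 a2 : ℝ) (y : E3) : ℝ :=
  a0 + a1 * (‖y - b‖ ^ 2 - 3 * (inner ℝ (y - b) e) ^ 2) + a2 * inner ℝ (y - b) e

theorem spread_q_contDiff (e b : E3) (a0 a1 a2 : ℝ) : ContDiff ℝ 2 (spread_q e b a0 a1 a2) := by
  have h1 : ContDiff ℝ 2 (fun y : E3 => inner ℝ (y - b) e) :=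
    (contDiff_id.sub contDiff_const).inner ℝ contDiff_const
  have h2 : ContDiff ℝ 2 (fun y : E3 => ‖y - b‖ ^ 2) :=
    (contDiff_id.sub contDiff_const).norm_sq ℝ
  unfold spread_q
  exact (contDiff_const.add (contDiff_const.mul (h2.sub (contDiff_const.mul (h1.pow 2))))).add
    (contDiff_const.mul h1)

theorem spread_q_lap {e : E3} (he : ‖e‖ = 1) (b : E3) (a0 a1 a2 : ℝ) (x : E3) :
    Δ (spread_q e b a0 a1 a2) x = 0 := by
  rw [laplacian_eq_sum (spread_q_contDiff e b a0 a1 a2).contDiffAt]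
  have hsq : ∀ y : E3, HasFDerivAt (fun y : E3 => ‖y - b‖ ^ 2) (2 • innerSL ℝ (y - b)) y := by
    intro y
    have h0 := (hasStrictFDerivAt_norm_sq (y - b)).hasFDerivAt.comp y
      ((hasFDerivAt_id y).sub_const b)
    have h0' : HasFDerivAt (fun y : E3 => ‖y - b‖ ^ 2)
      ((2 • innerSL ℝ (y - b)).comp (ContinuousLinearMap.id ℝ E3)) y := h0
    rwa [ContinuousLinearMap.comp_id] at h0'
  have h1 : ∀ i, (fun y => fderiv ℝ (spread_q e b a0 a1 a2) y (ei i)) =
      fun y => a1 * (2 * inner ℝ (y - b) (ei i) - 6 * inner ℝ (y - b) e * inner ℝ e (ei i)) +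
        a2 * inner ℝ e (ei i) := by
    intro i; funext y
    have hd : HasFDerivAt (spread_q e b a0 a1 a2) _ y :=
      ((((hsq y).sub (((spread_hasFDerivAt_inner e b y).pow 2).const_mul 3)).const_mul a1).const_add
        a0).add ((spread_hasFDerivAt_inner e b y).const_mul a2)
    rw [hd.fderiv]
    simp only [add_apply, sub_apply, smul_apply, innerSL_apply_apply, smul_eq_mul, nsmul_eq_mul]
    push_cast
    ring
  have h2 : ∀ i, fderiv ℝ (fun y => fderiv ℝ (spread_q e b a0 a1 a2) y (ei i)) x (ei i) =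
      a1 * (2 - 6 * (inner ℝ e (ei i)) ^ 2) := by
    intro i
    rw [h1 i]
    have hd : HasFDerivAt (fun y : E3 => a1 * (2 * inner ℝ (y - b) (ei i) -
      6 * inner ℝ (y - b) e * inner ℝ e (ei i)) + a2 * inner ℝ e (ei i)) _ x :=
      ((((spread_hasFDerivAt_inner (ei i) b x).const_mul 2).sub
        (((spread_hasFDerivAt_inner e b x).const_mul 6).mul_const (inner ℝ e (ei i)))).const_mul
          a1).add_const (a2 * inner ℝ e (ei i))
    rw [hd.fderiv]
    simp only [sub_apply, smul_apply, innerSL_apply_apply, smul_eq_mul, spread_ei_self]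
    ring
  simp only [h2]
  rw [← Finset.mul_sum, Finset.sum_sub_distrib, ← Finset.mul_sum, spread_sum_sq, he]
  simp
  right
  norm_num

/-- The gain factor. -/
noncomputable def th (R ρ : ℝ) : ℝ :=
  Real.exp (-12 * (R / ρ) ^ 2) - Real.exp (-48 * (R / ρ) ^ 2)

theorem th_pos {R ρ : ℝ} (hR : 0 < R) (hρ : 0 < ρ) : 0 < th R ρ := by
  have h : 0 < (R / ρ) ^ 2 := by positivity
  unfold th
  refine sub_pos.2 (Real.exp_lt_exp.2 ?_)
  linarith

theorem th_le_one {R ρ : ℝ} : th R ρ ≤ 1 := by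
  have h : 0 ≤ (R / ρ) ^ 2 := by positivity
  unfold th
  have h1 : Real.exp (-12 * (R / ρ) ^ 2) ≤ 1 := Real.exp_le_one_iff.2 (by linarith)
  have h2 := Real.exp_pos (-48 * (R / ρ) ^ 2)
  linarith

theorem spread_isCompact (e p : E3) (t ρ r : ℝ) :
    IsCompact {x : E3 | t ≤ inner ℝ x e ∧ ρ ≤ dist x p ∧ dist x p ≤ r} := by
  refine (isCompact_closedBall p r).of_isClosed_subset ?_ ?_
  · have hc1 : Continuous fun x : E3 => inner ℝ x e := by fun_prop
    have hc2 : Continuous fun x : E3 => dist x p := by fun_prop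
    exact (isClosed_le continuous_const hc1).inter
      ((isClosed_le continuous_const hc2).inter (isClosed_le hc2 continuous_const))
  · intro x hx
    exact mem_closedBall.2 hx.2.2

theorem spread_gau_eq {p : E3} {ρ : ℝ} (x : E3) :
    gau p (3 / ρ ^ 2) x = Real.exp (-3 * (dist x p / ρ) ^ 2) := by
  rw [gau, dist_eq_norm]
  congr 1
  field_simp

theorem spread {e p : E3} (he : ‖e‖ = 1) {t R ρ κ : ℝ} (hρ : 0 < ρ)
    (hp : 0 < inner ℝ p e - t) (hκ : 0 ≤ κ) {W : E3 → ℝ}
    (hWc : ContinuousOn W {x | t ≤ inner ℝ x e ∧ ρ ≤ dist x p ∧ dist x p ≤ 4 * R})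
    (h0 : ∀ x, t ≤ inner ℝ x e → ρ ≤ dist x p → dist x p ≤ 4 * R → 0 ≤ W x)
    (h1 : ∀ x, t ≤ inner ℝ x e → dist x p = ρ → κ * (inner ℝ x e - t) ≤ W x)
    (h2 : ∀ x, t < inner ℝ x e → ρ < dist x p → dist x p < 4 * R →
      W x < κ * (inner ℝ x e - t) → ContDiffAt ℝ 2 W x ∧ Δ W x ≤ 0) :
    ∀ x, t ≤ inner ℝ x e → ρ ≤ dist x p → dist x p ≤ 2 * R →
      κ * th R ρ * (inner ℝ x e - t) ≤ W x := by
  have _ := he
  set α : ℝ := 3 / ρ ^ 2 with hα
  set c : ℝ := Real.exp (-48 * (R / ρ) ^ 2) with hc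
  have hα0 : 0 < α := by rw [hα]; positivity
  -- the barrier
  set b : E3 → ℝ := fun y => κ * ((inner ℝ y e - t) * gau p α y - c * (inner ℝ y e - t)) with hb
  have hg1 : ∀ y, gau p α y ≤ 1 := by
    intro y
    rw [gau]
    refine Real.exp_le_one_iff.2 ?_
    nlinarith [sq_nonneg ‖y - p‖]
  have hbeq : ∀ y, b y = κ * (inner ℝ y e - t) * (gau p α y - c) := by
    intro y; rw [hb]; ring
  have hb4 : ∀ y, dist y p = 4 * R → b y = 0 := by
    intro y hy
    rw [hbeq, hα, spread_gau_eq, hy, hc]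
    have : -3 * (4 * R / ρ) ^ 2 = -48 * (R / ρ) ^ 2 := by ring
    rw [this, sub_self, mul_zero]
  have hbt : ∀ y, inner ℝ y e = t → b y = 0 := by
    intro y hy
    rw [hbeq, hy, sub_self, mul_zero, zero_mul]
  have hble : ∀ y, t ≤ inner ℝ y e → b y ≤ κ * (inner ℝ y e - t) := by
    intro y hy
    rw [hbeq]
    have h3 : 0 ≤ κ * (inner ℝ y e - t) := mul_nonneg hκ (by linarith)
    have h4 : gau p α y - c ≤ 1 := by
      have := Real.exp_pos (-48 * (R / ρ) ^ 2)
      linarith [hg1 y]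
    nlinarith
  have hl2 : ContDiff ℝ 2 (fun y : E3 => inner ℝ y e - t) :=
    (contDiff_id.inner ℝ contDiff_const).sub contDiff_const
  have hlg : ContDiff ℝ 2 (fun y : E3 => (inner ℝ y e - t) * gau p α y) :=
    hl2.mul (gau_contDiff p α)
  have hbcd : ContDiff ℝ 2 b := contDiff_const.mul (hlg.sub (contDiff_const.mul hl2))
  have hbl : ∀ y, Δ b y = κ * (gau p α y * ((inner ℝ y e - t) *
      (4 * α ^ 2 * ‖y - p‖ ^ 2 - 10 * α) + 4 * α * (inner ℝ p e - t))) := by
    intro y
    have e1 : b = κ • ((fun y : E3 => (inner ℝ y e - t) * gau p α y) -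
        spread_q e 0 (-(c * t)) 0 c) := by
      funext v
      simp only [hb, Pi.smul_apply, Pi.sub_apply, smul_eq_mul, spread_q, sub_zero]
      ring
    have h5 : ContDiffAt ℝ 2 (spread_q e 0 (-(c * t)) 0 c) y :=
      (spread_q_contDiff e 0 (-(c * t)) 0 c).contDiffAt
    have h6 : ContDiffAt ℝ 2 ((fun y : E3 => (inner ℝ y e - t) * gau p α y) -
        spread_q e 0 (-(c * t)) 0 c) y := hlg.contDiffAt.sub h5
    rw [e1, laplacian_smul κ h6, hlg.contDiffAt.laplacian_sub h5,
      spread_lap, spread_q_lap he]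
    simp
  have hmin := min_principle (spread_isCompact e p t ρ (4 * R)) (F := fun y => W y - b y)
    (hWc.sub hbcd.continuous.continuousOn) ?_
  · intro x hx1 hx2 hx3
    have hR0 : 0 ≤ 2 * R := dist_nonneg.trans hx3
    have h3 := hmin x ⟨hx1, hx2, by linarith⟩
    simp only [hbeq] at h3
    have h4 : th R ρ ≤ gau p α x - c := by
      rw [th, hα, spread_gau_eq]
      have h5 : (dist x p / ρ) ^ 2 ≤ 4 * (R / ρ) ^ 2 := by
        have h6 : dist x p / ρ ≤ 2 * R / ρ := div_le_div_of_nonneg_right hx3 hρ.le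
        have h7 : 0 ≤ dist x p / ρ := by positivity
        calc (dist x p / ρ) ^ 2 ≤ (2 * R / ρ) ^ 2 := pow_le_pow_left₀ h7 h6 2
          _ = 4 * (R / ρ) ^ 2 := by ring
      have h8 : Real.exp (-12 * (R / ρ) ^ 2) ≤ Real.exp (-3 * (dist x p / ρ) ^ 2) :=
        Real.exp_le_exp.2 (by linarith)
      linarith
    have h9 : 0 ≤ κ * (inner ℝ x e - t) := mul_nonneg hκ (by linarith)
    nlinarith
  · rintro x ⟨hx1, hx2, hx3⟩ hneg
    have hx1' : t < inner ℝ x e := by
      refine lt_of_le_of_ne hx1 fun h => ?_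
      have := h0 x hx1 hx2 hx3
      rw [hbt x h.symm] at hneg
      linarith
    have hx3' : dist x p < 4 * R := by
      refine lt_of_le_of_ne hx3 fun h => ?_
      have := h0 x hx1 hx2 hx3
      rw [hb4 x h] at hneg
      linarith
    have hx2' : ρ < dist x p := by
      refine lt_of_le_of_ne hx2 fun h => ?_
      have h3 := h1 x hx1 h.symm
      have h4 := hble x hx1
      linarith
    obtain ⟨hW1, hW2⟩ := h2 x hx1' hx2' hx3' (by linarith [hble x hx1])
    refine ⟨?_, hW1.sub hbcd.contDiffAt, ?_⟩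
    · have hc1 : Continuous fun x : E3 => inner ℝ x e := by fun_prop
      have hc2 : Continuous fun x : E3 => dist x p := by fun_prop
      have ho : IsOpen {x : E3 | t < inner ℝ x e ∧ ρ < dist x p ∧ dist x p < 4 * R} :=
        (isOpen_lt continuous_const hc1).inter
          ((isOpen_lt continuous_const hc2).inter (isOpen_lt hc2 continuous_const))
      refine mem_of_superset (ho.mem_nhds ⟨hx1', hx2', hx3'⟩) ?_
      rintro y ⟨h3, h4, h5⟩
      exact ⟨h3.le, h4.le, h5.le⟩
    · have e2 : (fun y => W y - b y) = W - b := rfl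
      rw [e2, hW1.laplacian_sub hbcd.contDiffAt, hbl]
      have h3 : 0 ≤ 4 * α ^ 2 * ‖x - p‖ ^ 2 - 10 * α := by
        have h6 : ρ ^ 2 ≤ ‖x - p‖ ^ 2 := by
          rw [← dist_eq_norm]
          exact pow_le_pow_left₀ hρ.le hx2 2
        have h7 : α * ρ ^ 2 = 3 := by rw [hα]; field_simp
        have h8 : 4 * α ^ 2 * ρ ^ 2 ≤ 4 * α ^ 2 * ‖x - p‖ ^ 2 :=
          mul_le_mul_of_nonneg_left h6 (by positivity)
        have h9 : 4 * α ^ 2 * ρ ^ 2 = 12 * α := by
          calc 4 * α ^ 2 * ρ ^ 2 = 4 * α * (α * ρ ^ 2) := by ring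
            _ = 12 * α := by rw [h7]; ring
        linarith
      have h4 : 0 ≤ (inner ℝ x e - t) * (4 * α ^ 2 * ‖x - p‖ ^ 2 - 10 * α) :=
        mul_nonneg (by linarith) h3
      have h5 : 0 ≤ 4 * α * (inner ℝ p e - t) := by positivity
      have h6 : 0 ≤ κ * (gau p α x * ((inner ℝ x e - t) * (4 * α ^ 2 * ‖x - p‖ ^ 2 - 10 * α) +
          4 * α * (inner ℝ p e - t))) :=
        mul_nonneg hκ (mul_nonneg (Real.exp_pos _).le (by linarith))
      linarith

theorem gain {e p : E3} (he : ‖e‖ = 1) {t R ρ c δ : ℝ} (hρ : 0 < ρ)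
    (hp : 0 < inner ℝ p e - t) (hc : 0 ≤ c) (hδ : 0 ≤ δ) {s : E3 → ℝ} (hs : Continuous s)
    (h0 : ∀ x, 0 ≤ s x)
    (hi : ∀ x, t ≤ inner ℝ x e → dist x p ≤ 4 * R → s x ≤ c * (inner ℝ x e - t) + δ)
    (hii : ∀ x, t < inner ℝ x e → 0 < s x → HarmonicAt s x)
    (hiii : ∀ x ∈ closedBall p ρ, t ≤ inner ℝ x e → s x ≤ c / 2 * (inner ℝ x e - t) + δ) :
    ∀ x, t ≤ inner ℝ x e → dist x p ≤ 2 * R →
      s x ≤ (c - c / 2 * th R ρ) * (inner ℝ x e - t) + δ := by
  have _ := h0
  have hq : ∀ y, c * (inner ℝ y e - t) + δ = spread_q e 0 (δ - c * t) 0 c y := by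
    intro y
    simp only [spread_q, sub_zero]
    ring
  have hsp := spread he hρ hp (κ := c / 2) (R := R) (by linarith)
    (W := spread_q e 0 (δ - c * t) 0 c - s)
    ((spread_q_contDiff e 0 (δ - c * t) 0 c).continuous.sub hs).continuousOn ?_ ?_ ?_
  · intro x hx1 hx2
    by_cases hx : dist x p < ρ
    · have h1 := hiii x (mem_closedBall.2 hx.le) hx1
      have h2 : c / 2 * th R ρ * (inner ℝ x e - t) ≤ c / 2 * (inner ℝ x e - t) := by
        have h3 : c / 2 * th R ρ ≤ c / 2 := by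
          have := mul_le_mul_of_nonneg_left (th_le_one (R := R) (ρ := ρ)) (show 0 ≤ c / 2 by linarith)
          linarith
        exact mul_le_mul_of_nonneg_right h3 (by linarith)
      nlinarith
    · push Not at hx
      have h1 := hsp x hx1 hx hx2
      rw [Pi.sub_apply, ← hq] at h1
      linarith
  · intro x hx1 hx2 hx3
    rw [Pi.sub_apply, ← hq]
    have := hi x hx1 hx3
    linarith
  · intro x hx1 hx2
    rw [Pi.sub_apply, ← hq]
    have := hiii x (mem_closedBall.2 hx2.le) hx1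
    linarith
  · intro x hx1 hx2 hx3 hx4
    rw [Pi.sub_apply, ← hq] at hx4
    have h1 : 0 ≤ c / 2 * (inner ℝ x e - t) := mul_nonneg (by linarith) (by linarith)
    have hh := hii x hx1 (by linarith)
    have hq2 : ContDiffAt ℝ 2 (spread_q e 0 (δ - c * t) 0 c) x :=
      (spread_q_contDiff e 0 (δ - c * t) 0 c).contDiffAt
    refine ⟨hq2.sub hh.1, ?_⟩
    rw [hq2.laplacian_sub hh.1, spread_q_lap he, hh.2.self_of_nhds]
    simp

/-- Half-ball barrier: linear growth on a half-ball gives a linear bound by the distance to the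
plane. -/
theorem half_ball {e b : E3} (he : ‖e‖ = 1) {t R A δ : ℝ} (hR : 0 < R)
    (hb : inner ℝ b e = t) (hA : 0 ≤ A) (hδ : 0 ≤ δ) {s : E3 → ℝ} (hs : Continuous s)
    (h0 : ∀ x, 0 ≤ s x)
    (hflat : ∀ x ∈ closedBall b R, inner ℝ x e = t → s x ≤ δ)
    (hsph : ∀ x ∈ closedBall b R, t ≤ inner ℝ x e → s x ≤ A * R)
    (hii : ∀ x, t < inner ℝ x e → 0 < s x → HarmonicAt s x) :
    ∀ x ∈ closedBall b R, t ≤ inner ℝ x e →
      s x ≤ δ + A * R * (‖x - b‖ ^ 2 / R ^ 2 + 3 * (inner ℝ x e - t) / R) := by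
  have _ := h0
  have hAR : 0 ≤ A * R := by positivity
  have hl : ∀ x : E3, inner ℝ (x - b) e = inner ℝ x e - t := by
    intro x; rw [inner_sub_left, hb]
  have hle : ∀ x : E3, inner ℝ x e - t ≤ ‖x - b‖ := by
    intro x
    rw [← hl]
    have := real_inner_le_norm (x - b) e
    rwa [he, mul_one] at this
  set Q : E3 → ℝ := spread_q e b δ (A / R) (3 * A) with hQ
  have hQe : ∀ x, Q x = δ + A * R * ((‖x - b‖ ^ 2 - 3 * (inner ℝ x e - t) ^ 2) / R ^ 2 +
      3 * (inner ℝ x e - t) / R) := by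
    intro x
    rw [hQ, spread_q, hl]
    field_simp
    ring
  -- lower bounds of the barrier
  have hβ : ∀ x, t ≤ inner ℝ x e → ‖x - b‖ ≤ R → ‖x - b‖ ^ 2 / R ^ 2 ≤
      (‖x - b‖ ^ 2 - 3 * (inner ℝ x e - t) ^ 2) / R ^ 2 + 3 * (inner ℝ x e - t) / R := by
    intro x hx1 hx2
    have h3 : 0 ≤ (inner ℝ x e - t) * (R - (inner ℝ x e - t)) :=
      mul_nonneg (by linarith) (by linarith [hle x])
    have h4 : (‖x - b‖ ^ 2 - 3 * (inner ℝ x e - t) ^ 2) / R ^ 2 + 3 * (inner ℝ x e - t) / R =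
        ‖x - b‖ ^ 2 / R ^ 2 + 3 * ((inner ℝ x e - t) * (R - (inner ℝ x e - t))) / R ^ 2 := by
      field_simp
      ring
    rw [h4]
    have h5 : 0 ≤ 3 * ((inner ℝ x e - t) * (R - (inner ℝ x e - t))) / R ^ 2 := by positivity
    linarith
  have hQcd : ContDiff ℝ 2 Q := spread_q_contDiff _ _ _ _ _
  have hcpt : IsCompact {x : E3 | t ≤ inner ℝ x e ∧ 0 ≤ dist x b ∧ dist x b ≤ R} :=
    spread_isCompact e b t 0 R
  have hmin := min_principle hcpt (F := Q - s) (hQcd.continuous.sub hs).continuousOn ?_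
  · intro x hx1 hx2
    have h3 := hmin x ⟨hx2, dist_nonneg, mem_closedBall.1 hx1⟩
    rw [Pi.sub_apply, hQe] at h3
    have h4 : (‖x - b‖ ^ 2 - 3 * (inner ℝ x e - t) ^ 2) / R ^ 2 ≤ ‖x - b‖ ^ 2 / R ^ 2 :=
      div_le_div_of_nonneg_right (by nlinarith [sq_nonneg (inner ℝ x e - t)]) (by positivity)
    have h5 : A * R * ((‖x - b‖ ^ 2 - 3 * (inner ℝ x e - t) ^ 2) / R ^ 2 +
        3 * (inner ℝ x e - t) / R) ≤ A * R * (‖x - b‖ ^ 2 / R ^ 2 +
          3 * (inner ℝ x e - t) / R) :=
      mul_le_mul_of_nonneg_left (by linarith) hAR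
    linarith
  · rintro x ⟨hx1, -, hx3⟩ hneg
    rw [Pi.sub_apply, hQe] at hneg
    have hxb : ‖x - b‖ ≤ R := by rwa [← dist_eq_norm]
    have h3 := hβ x hx1 hxb
    have h4 : 0 ≤ ‖x - b‖ ^ 2 / R ^ 2 := by positivity
    have h5 := mul_le_mul_of_nonneg_left h3 hAR
    have h6 : 0 ≤ A * R * (‖x - b‖ ^ 2 / R ^ 2) := mul_nonneg hAR h4
    have hx1' : t < inner ℝ x e := by
      refine lt_of_le_of_ne hx1 fun h => ?_
      have := hflat x (mem_closedBall.2 hx3) h.symm
      linarith
    have hx3' : dist x b < R := by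
      refine lt_of_le_of_ne hx3 fun h => ?_
      have h7 := hsph x (mem_closedBall.2 hx3) hx1
      rw [← dist_eq_norm, h, div_self (by positivity), mul_one] at h5
      rw [← dist_eq_norm, h] at hneg
      linarith
    have hh := hii x hx1' (by linarith)
    refine ⟨?_, hQcd.contDiffAt.sub hh.1, ?_⟩
    · have hc1 : Continuous fun x : E3 => inner ℝ x e := by fun_prop
      have hc2 : Continuous fun x : E3 => dist x b := by fun_prop
      have ho : IsOpen {x : E3 | t < inner ℝ x e ∧ dist x b < R} :=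
        (isOpen_lt continuous_const hc1).inter (isOpen_lt hc2 continuous_const)
      refine mem_of_superset (ho.mem_nhds ⟨hx1', hx3'⟩) ?_
      rintro y ⟨h7, h8⟩
      exact ⟨h7.le, dist_nonneg, h8.le⟩
    · rw [hQcd.contDiffAt.laplacian_sub hh.1, hQ, spread_q_lap he, hh.2.self_of_nhds]
      simp

theorem pl_zero {e : E3} (he : ‖e‖ = 1) {t : ℝ} {s : E3 → ℝ} (hs : Continuous s)
    (h0 : ∀ x, 0 ≤ s x) (hplane : ∀ x, inner ℝ x e = t → s x = 0)
    (hharm : ∀ x, t < inner ℝ x e → 0 < s x → HarmonicAt s x) {A δ : ℝ} (hA : 0 < A)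
    (hδ : 0 < δ) (hK : ∀ R₀ : ℝ, ∃ p : E3, R₀ ≤ ‖p‖ ∧ δ * ‖p‖ ≤ inner ℝ p e - t ∧
      ∀ x, s x ≤ A * dist x p) : ∀ x, t ≤ inner ℝ x e → s x = 0 := by
  have hbe : inner ℝ (t • e) e = t := by
    rw [inner_smul_left, real_inner_self_eq_norm_sq, he]
    simp
  -- linear bound
  have hlin : ∀ x, t ≤ inner ℝ x e → s x ≤ 6 * A * (inner ℝ x e - t) := by
    obtain ⟨p, -, -, hp⟩ := hK 0
    intro x hx
    refine le_of_forall_pos_le_add fun ε hε => ?_
    set R : ℝ := max (max (dist p (t • e)) (dist x (t • e))) (max 1 (2 * A * ‖x - t • e‖ ^ 2 / ε))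
      with hR
    have hR1 : dist p (t • e) ≤ R := le_max_of_le_left (le_max_left _ _)
    have hR2 : dist x (t • e) ≤ R := le_max_of_le_left (le_max_right _ _)
    have hR3 : 1 ≤ R := le_max_of_le_right (le_max_left _ _)
    have hR4 : 2 * A * ‖x - t • e‖ ^ 2 / ε ≤ R := le_max_of_le_right (le_max_right _ _)
    have hR0 : 0 < R := by linarith
    have h1 := half_ball (s := s) (e := e) (b := t • e) (R := R) (A := 2 * A) (δ := 0) he hR0 hbe
      (by linarith) le_rfl hs h0 (fun y _ hy => (hplane y hy).le) ?_ hharm x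
      (mem_closedBall.2 hR2) hx
    · refine h1.trans ?_
      have e1 : 0 + 2 * A * R * (‖x - t • e‖ ^ 2 / R ^ 2 + 3 * (inner ℝ x e - t) / R) =
          2 * A * ‖x - t • e‖ ^ 2 / R + 6 * A * (inner ℝ x e - t) := by
        field_simp
        ring
      rw [e1]
      have h2 : 2 * A * ‖x - t • e‖ ^ 2 / R ≤ ε := by
        rw [div_le_iff₀ hR0]
        rw [div_le_iff₀ hε] at hR4
        linarith
      linarith
    · intro y hy _
      have h3 := hp y
      have h4 : dist y p ≤ R + R := by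
        have := dist_triangle y (t • e) p
        rw [dist_comm (t • e) p] at this
        linarith [mem_closedBall.1 hy]
      calc s y ≤ A * dist y p := h3
        _ ≤ A * (R + R) := mul_le_mul_of_nonneg_left h4 hA.le
        _ = 2 * A * R := by ring
  -- the best constant
  set S : Set ℝ := {c | 0 ≤ c ∧ ∀ x, t ≤ inner ℝ x e → s x ≤ c * (inner ℝ x e - t)} with hS
  have hSne : S.Nonempty := ⟨6 * A, by linarith, hlin⟩
  have hSbd : BddBelow S := ⟨0, fun c hc => hc.1⟩
  set cs : ℝ := sInf S with hcs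
  have hcs0 : 0 ≤ cs := le_csInf hSne fun c hc => hc.1
  have hcs6 : cs ≤ 6 * A := csInf_le hSbd ⟨by linarith, hlin⟩
  have hcsS : ∀ x, t ≤ inner ℝ x e → s x ≤ cs * (inner ℝ x e - t) := by
    intro x hx
    rcases hx.eq_or_lt with h | h
    · rw [hplane x h.symm, ← h]
      simp
    · have h1 : s x / (inner ℝ x e - t) ≤ cs := by
        refine le_csInf hSne fun c hc => ?_
        rw [div_le_iff₀ (by linarith)]
        exact hc.2 x hx
      rwa [div_le_iff₀ (by linarith)] at h1
  rcases hcs0.eq_or_lt with h | hcspos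
  · intro x hx
    have := hcsS x hx
    rw [← h, zero_mul] at this
    exact le_antisymm this (h0 x)
  · exfalso
    set r : ℝ := 16 * A / (cs * δ) with hr
    have hr0 : 0 < r := by rw [hr]; positivity
    have hθ0 : 0 < th r 1 := th_pos hr0 one_pos
    have hmem : cs - cs / 2 * th r 1 ∈ S := by
      refine ⟨?_, fun x hx => ?_⟩
      · have := mul_le_mul_of_nonneg_left (th_le_one (R := r) (ρ := 1))
          (show 0 ≤ cs / 2 by linarith)
        linarith
      · obtain ⟨p, hp1, hp2, hp3⟩ := hK (max ‖x‖ 1)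
        have hpx : ‖x‖ ≤ ‖p‖ := (le_max_left _ _).trans hp1
        have hp0 : 0 < ‖p‖ := by linarith [(le_max_right ‖x‖ 1).trans hp1]
        set ρ : ℝ := cs * δ * ‖p‖ / (16 * A) with hρ
        have hρ0 : 0 < ρ := by rw [hρ]; positivity
        have hδp : 0 < δ * ‖p‖ := by positivity
        have hρle : ρ ≤ δ * ‖p‖ / 2 := by
          rw [hρ, div_le_iff₀ (by positivity)]
          have : cs * (δ * ‖p‖) ≤ 6 * A * (δ * ‖p‖) := mul_le_mul_of_nonneg_right hcs6 hδp.le
          nlinarith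
        have hth : th ‖p‖ ρ = th r 1 := by
          have : ‖p‖ / ρ = r / 1 := by
            rw [hρ, hr]
            field_simp
          unfold th
          rw [this]
        have h1 := gain (s := s) (e := e) (p := p) (t := t) (R := ‖p‖) (ρ := ρ) (c := cs) (δ := 0)
          he hρ0 (by linarith) hcs0 le_rfl hs h0
          (fun y hy _ => by rw [add_zero]; exact hcsS y hy) hharm ?_ x hx ?_
        · rwa [hth, add_zero] at h1
        · intro y hy _
          rw [add_zero]
          have h2 : dist y p ≤ ρ := mem_closedBall.1 hy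
          have h3 : inner ℝ p e - inner ℝ y e ≤ ρ := by
            rw [← inner_sub_left]
            have h4 := real_inner_le_norm (p - y) e
            rw [he, mul_one, ← dist_eq_norm, dist_comm] at h4
            linarith
          calc s y ≤ A * dist y p := hp3 y
            _ ≤ A * ρ := mul_le_mul_of_nonneg_left h2 hA.le
            _ = cs / 2 * (δ * ‖p‖ / 8) := by rw [hρ]; field_simp; ring
            _ ≤ cs / 2 * (inner ℝ y e - t) :=
                mul_le_mul_of_nonneg_left (by linarith) (by linarith)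
        · rw [dist_eq_norm]
          have := norm_sub_le x p
          linarith
    have h2 := csInf_le hSbd hmem
    have h3 : 0 < cs / 2 * th r 1 := by positivity
    linarith

end FB75
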