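import Pool.Agent.FB75.Lip
import Pool.Agent.FB75.Spread

/-!
# Asymptotics in a half-space contained in the positive phase
-/

open MeasureTheory Metric Set Filter Topology InnerProductSpace Laplacian
open scoped ContDiff

namespace FB75

/-- The linear function `⟪x, e⟫` is harmonic. -/
private theorem lower_inner_harmonic (e x : E3) : HarmonicAt (fun y : E3 => inner ℝ y e) x := by
  have hfd : ∀ y : E3, HasFDerivAt (fun y : E3 => inner ℝ y e) (innerSL ℝ e) y := by
    intro y
    have h1 : (fun y : E3 => inner ℝ y e) = fun y => innerSL ℝ e y := by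
      funext y; rw [innerSL_apply_apply, real_inner_comm]
    rw [h1]
    exact (innerSL ℝ e).hasFDerivAt
  have hcd : ContDiff ℝ 2 (fun y : E3 => inner ℝ y e) := contDiff_id.inner ℝ contDiff_const
  refine ⟨hcd.contDiffAt, Eventually.of_forall fun y => ?_⟩
  rw [laplacian_eq_sum hcd.contDiffAt]
  have h2 : ∀ i, (fun y => fderiv ℝ (fun y : E3 => inner ℝ y e) y (ei i)) =
      fun _ => innerSL ℝ e (ei i) := by
    intro i; funext y; rw [(hfd y).fderiv]
  simp only [h2]
  simp

/-- `u - a (t - ⟪x, e⟫)` is harmonic where `u` is. -/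
private theorem lower_w_harmonic {u : E3 → ℝ} {x : E3} (h : HarmonicAt u x) (e : E3) (a t : ℝ) :
    HarmonicAt (fun y => u y - a * (t - inner ℝ y e)) x := by
  have h1 := (h.sub (harmonicAt_const (a * t))).add
    ((lower_inner_harmonic e x).const_smul (c := a))
  have h2 : (fun y => u y - a * (t - inner ℝ y e)) =
      (u - fun _ => a * t) + a • (fun y : E3 => inner ℝ y e) := by
    funext y
    simp only [Pi.add_apply, Pi.sub_apply, Pi.smul_apply, smul_eq_mul]
    ring
  rw [h2]
  exact h1

private theorem lower_abs_inner {e : E3} (he : ‖e‖ = 1) (x : E3) : |inner ℝ x e| ≤ ‖x‖ := by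
  have := abs_real_inner_le_norm x e
  rwa [he, mul_one] at this

/-- The distance function to the plane is Lipschitz with constant one. -/
private theorem lower_inner_dist {e : E3} (he : ‖e‖ = 1) (x y : E3) :
    |inner ℝ x e - inner ℝ y e| ≤ dist x y := by
  rw [← inner_sub_left, dist_eq_norm]
  exact lower_abs_inner he _

private theorem lower_th_scale {R L : ℝ} (hR : 0 < R) (hL : 0 < L) :
    th (2 * R) (L * R / 4) = th 2 (L / 4) := by
  have : 2 * R / (L * R / 4) = 2 / (L / 4) := by
    field_simp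
  unfold th
  rw [this]

/-- Harnack on the quarter ball. -/
private theorem lower_harnack {w : E3 → ℝ} {p z : E3} {r : ℝ} (hr : 0 < r)
    (hw : HarmonicOnNhd w (ball p r)) (h0 : ∀ v ∈ ball p r, 0 ≤ w v) (hz : dist z p ≤ r / 4) :
    256 / 78125 * w p ≤ w z := by
  have hsub : ball z (3 * r / 4) ⊆ ball p r := ball_subset_ball' (by linarith)
  have h := harnack (h := w) (z := z) (x := p) (R := 3 * r / 4) (t := 5 * r / 8) (s := r / 8)
    (hw.mono hsub) (fun v hv => h0 v (hsub hv)) (by linarith) (by linarith) (by linarith)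
    (by rw [dist_comm]; linarith)
  have hp : 0 ≤ w p := h0 p (mem_ball_self hr)
  refine le_trans ?_ h
  have e1 : r / 8 / (5 * r / 8) = 1 / 5 := by field_simp
  have e2 : (dist p z + r / 8) / (5 * r / 8) ≤ 3 / 5 := by
    rw [div_le_iff₀ (by positivity), dist_comm]
    linarith
  have e3 : 0 ≤ (dist p z + r / 8) / (5 * r / 8) := by positivity
  rw [e1]
  have e4 : 16 / 25 ≤ 1 - ((dist p z + r / 8) / (5 * r / 8)) ^ 2 := by nlinarith
  have e5 : (16 / 25 : ℝ) ^ 2 ≤ (1 - ((dist p z + r / 8) / (5 * r / 8)) ^ 2) ^ 2 :=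
    pow_le_pow_left₀ (by norm_num) e4 2
  refine mul_le_mul_of_nonneg_right ?_ hp
  nlinarith

/-- The spreading step: one far point with a linear excess gives a uniform linear excess. -/
private theorem lower_step {u : E3 → ℝ} (hu : IsEntireSolution u) {e : E3} (he : ‖e‖ = 1)
    {t : ℝ} {q : E3} (hq : u q = 0) (hbelow : ∀ x, inner ℝ x e < t → 0 < u x) {a : ℝ}
    (ha : 0 ≤ a) (hau : ∀ x, inner ℝ x e ≤ t → a * (t - inner ℝ x e) ≤ u x) {ε : ℝ} (hε : 0 < ε)
    {c L : ℝ} (hc : c = 256 / 78125) (hL : L = c * ε / (8 * (C0 + a + 1))) {P : E3}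
    (hP : inner ℝ P e ≤ t) (hPR : |t| + ‖q‖ + 1 ≤ ‖P‖)
    (hw : ε * ‖P‖ < u P - a * (t - inner ℝ P e)) :
    ∀ y, inner ℝ y e ≤ t → ‖y‖ ≤ ‖P‖ →
      (c * (c * ε / 2)) / 4 * th 2 (L / 4) * (t - inner ℝ y e) ≤
        u y - a * (t - inner ℝ y e) := by
  have hC := C0_pos
  set R : ℝ := ‖P‖ with hR
  have hR0 : 0 < R := by
    have := abs_nonneg t
    have := norm_nonneg q
    linarith
  have hc0 : 0 < c := by rw [hc]; norm_num
  have hc1 : c < 1 := by rw [hc]; norm_num
  have hden : 0 < 8 * (C0 + a + 1) := by positivity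
  have hL0 : 0 < L := by rw [hL]; positivity
  have hLden : L * (8 * (C0 + a + 1)) = c * ε := by rw [hL]; field_simp
  set w : E3 → ℝ := fun y => u y - a * (t - inner ℝ y e) with hwdef
  have hw0 : ∀ y, inner ℝ y e ≤ t → 0 ≤ w y := fun y hy => by
    have := hau y hy
    simp only [hwdef]; linarith
  have hwharm : ∀ y, inner ℝ y e < t → HarmonicAt w y := fun y hy =>
    lower_w_harmonic (hu.harmonic y (hbelow y hy)) e a t
  have haP : 0 ≤ a * (t - inner ℝ P e) := mul_nonneg ha (by linarith)
  have huP : ε * R < u P := by linarith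
  -- `ε` is not large
  have hε1 : ε < 2 * C0 := by
    have h1 := lip hu P hq
    have h2 : dist P q ≤ R + ‖q‖ := by rw [dist_eq_norm]; exact norm_sub_le _ _
    have h3 : C0 * dist P q ≤ C0 * (2 * R) := by
      refine mul_le_mul_of_nonneg_left ?_ hC.le
      have := abs_nonneg t
      linarith
    by_contra hcon
    push Not at hcon
    have : 2 * C0 * R ≤ ε * R := mul_le_mul_of_nonneg_right hcon hR0.le
    linarith
  have hL1 : L < 1 := by
    by_contra hcon
    push Not at hcon
    have h1 : 8 * (C0 + a + 1) ≤ L * (8 * (C0 + a + 1)) := le_mul_of_one_le_left hden.le hcon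
    rw [hLden] at h1
    nlinarith
  have hLR0 : 0 < L * R := by positivity
  have hLR1 : L * R < R := by nlinarith
  -- `u` is positive and harmonic on the ball `ball P (4 * (L * R))`
  have hposP : ∀ v ∈ ball P (4 * (L * R)), 0 < u v := by
    intro v hv
    refine pos_of_ne hu fun h => ?_
    have h1 := lip hu P h
    rw [mem_ball, dist_comm] at hv
    have h2 : C0 * dist P v ≤ C0 * (4 * (L * R)) := mul_le_mul_of_nonneg_left hv.le hC.le
    have h3 : C0 * (4 * L) ≤ ε := by
      have h4 : L * (8 * C0) ≤ L * (8 * (C0 + a + 1)) :=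
        mul_le_mul_of_nonneg_left (by linarith) hL0.le
      have h5 : c * ε ≤ 1 * ε := mul_le_mul_of_nonneg_right hc1.le hε.le
      nlinarith
    have h6 : C0 * (4 * L) * R ≤ ε * R := mul_le_mul_of_nonneg_right h3 hR0.le
    nlinarith
  have hharmP : HarmonicOnNhd u (ball P (4 * (L * R))) := hu.harmonic.mono hposP
  -- the point `P'`
  obtain ⟨P', hP'1, hP'2, hP'3⟩ : ∃ P' : E3, L * R ≤ t - inner ℝ P' e ∧ dist P' P ≤ L * R ∧
      c * ε / 2 * R ≤ w P' := by
    by_cases hcase : L * R ≤ t - inner ℝ P e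
    · refine ⟨P, hcase, by rw [dist_self]; exact hLR0.le, ?_⟩
      have h1 : c * ε / 2 * R ≤ ε * R := by
        refine mul_le_mul_of_nonneg_right ?_ hR0.le
        nlinarith
      exact h1.trans hw.le
    · push Not at hcase
      have hd : dist (P - (L * R) • e) P = L * R := by
        rw [dist_eq_norm, sub_sub_cancel_left, norm_neg, norm_smul, he, mul_one,
          Real.norm_of_nonneg hLR0.le]
      have hin : inner ℝ (P - (L * R) • e) e = inner ℝ P e - L * R := by
        rw [inner_sub_left, inner_smul_left, real_inner_self_eq_norm_sq, he]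
        simp
      refine ⟨P - (L * R) • e, ?_, hd.le, ?_⟩
      · rw [hin]; linarith
      · have h1 := harnack_quarter_local (u := u) (x := P) (d := 4 * (L * R)) (by positivity)
          (fun v hv => (hposP v hv).le) hharmP (z := P - (L * R) • e) (by rw [hd]; ring)
        rw [← hc] at h1
        have h2 : c * (ε * R) ≤ c * u P := mul_le_mul_of_nonneg_left huP.le hc0.le
        simp only [hwdef]
        rw [hin]
        have h3 : a * (t - (inner ℝ P e - L * R)) ≤ a * (2 * (L * R)) :=
          mul_le_mul_of_nonneg_left (by linarith) ha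
        have h4 : a * (4 * L) ≤ c * ε := by
          have : L * (8 * a) ≤ L * (8 * (C0 + a + 1)) :=
            mul_le_mul_of_nonneg_left (by linarith) hL0.le
          nlinarith
        have h5 : a * (4 * L) * R ≤ c * ε * R := mul_le_mul_of_nonneg_right h4 hR0.le
        nlinarith
  -- `w` is nonnegative and harmonic on `ball P' (L * R)`
  have hball : ∀ v ∈ ball P' (L * R), inner ℝ v e < t := by
    intro v hv
    rw [mem_ball] at hv
    have h1 := lower_inner_dist he v P'
    have h2 := (abs_le.1 h1).2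
    linarith
  have hwq : ∀ z, dist z P' ≤ L * R / 4 → c * (c * ε / 2) * R ≤ w z := by
    intro z hz
    have h1 := lower_harnack (w := w) (p := P') (z := z) hLR0
      (fun v hv => hwharm v (hball v hv)) (fun v hv => hw0 v (hball v hv).le) hz
    rw [← hc] at h1
    have h2 : c * (c * ε / 2 * R) ≤ c * w P' := mul_le_mul_of_nonneg_left hP'3 hc0.le
    linarith
  have hP'n : ‖P'‖ ≤ 2 * R := by
    have h1 : ‖P'‖ ≤ ‖P' - P‖ + ‖P‖ := by
      have := norm_add_le (P' - P) P
      rwa [sub_add_cancel] at this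
    rw [← dist_eq_norm] at h1
    linarith
  have ht : |t| ≤ R := by
    have := norm_nonneg q
    linarith
  have hell : ∀ z, dist z P' ≤ L * R / 4 → t - inner ℝ z e ≤ 4 * R := by
    intro z hz
    have h1 : ‖z‖ ≤ ‖z - P'‖ + ‖P'‖ := by
      have := norm_add_le (z - P') P'
      rwa [sub_add_cancel] at this
    rw [← dist_eq_norm] at h1
    have h2 := (abs_le.1 (lower_abs_inner he z)).1
    have h3 := le_abs_self t
    have h4 : ‖z‖ ≤ L * R / 4 + 2 * R := by linarith
    linarith
  set κ : ℝ := c * (c * ε / 2) / 4 with hκ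
  have hκ0 : 0 ≤ κ := by positivity
  have hκw : ∀ z, inner ℝ z e ≤ t → dist z P' ≤ L * R / 4 → κ * (t - inner ℝ z e) ≤ w z := by
    intro z _ hz
    refine le_trans ?_ (hwq z hz)
    calc κ * (t - inner ℝ z e) ≤ κ * (4 * R) := mul_le_mul_of_nonneg_left (hell z hz) hκ0
      _ = c * (c * ε / 2) * R := by rw [hκ]; ring
  have hne : ‖-e‖ = 1 := by rw [norm_neg, he]
  have hin : ∀ x : E3, inner ℝ x (-e) - -t = t - inner ℝ x e := by
    intro x; rw [inner_neg_right]; ring
  have hcont : Continuous w := by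
    have := hu.continuous
    simp only [hwdef]
    fun_prop
  have hsp := spread (e := -e) (p := P') hne (t := -t) (R := 2 * R) (ρ := L * R / 4) (κ := κ)
    (W := w) (by positivity) (by rw [hin]; linarith) hκ0 hcont.continuousOn
    (fun x hx _ _ => hw0 x (by rw [inner_neg_right] at hx; linarith))
    (fun x hx hd => by
      rw [hin]
      exact hκw x (by rw [inner_neg_right] at hx; linarith) hd.le)
    (fun x hx _ _ _ => by
      have h1 := hwharm x (by rw [inner_neg_right] at hx; linarith)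
      exact ⟨h1.1, (h1.2.self_of_nhds).le⟩)
  intro y hy hyR
  rw [lower_th_scale hR0 hL0] at hsp
  have hth : th 2 (L / 4) ≤ 1 := th_le_one
  have hell0 : 0 ≤ t - inner ℝ y e := by linarith
  rcases le_total (L * R / 4) (dist y P') with h | h
  · have h1 := hsp y (by rw [inner_neg_right]; linarith) h (by
      have h2 : dist y P' ≤ ‖y‖ + ‖P'‖ := by rw [dist_eq_norm]; exact norm_sub_le _ _
      linarith)
    rw [hin] at h1
    exact h1
  · refine le_trans ?_ (hκw y hy h)
    refine mul_le_mul_of_nonneg_right ?_ hell0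
    calc κ * th 2 (L / 4) ≤ κ * 1 := mul_le_mul_of_nonneg_left hth hκ0
      _ = κ := mul_one κ

theorem lower_asymp {u : E3 → ℝ} (hu : IsEntireSolution u) {e : E3} (he : ‖e‖ = 1) {t : ℝ}
    (hK : ∃ x, u x = 0) (hbelow : ∀ x, inner ℝ x e < t → 0 < u x) :
    ∃ a, 0 ≤ a ∧ (∀ x, inner ℝ x e ≤ t → a * (t - inner ℝ x e) ≤ u x) ∧
      ∀ ε > 0, ∃ C, ∀ x, inner ℝ x e ≤ t → u x ≤ a * (t - inner ℝ x e) + ε * ‖x‖ + C := by
  obtain ⟨q, hq⟩ := hK
  have hC := C0_pos
  set S : Set ℝ := (fun x : E3 => u x / (t - inner ℝ x e)) '' {x | inner ℝ x e < t} with hS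
  have hSne : S.Nonempty := by
    refine ⟨_, (t - 1) • e, ?_, rfl⟩
    change inner ℝ ((t - 1) • e) e < t
    rw [inner_smul_left, real_inner_self_eq_norm_sq, he]
    simp
  have hS0 : ∀ s ∈ S, 0 ≤ s := by
    rintro _ ⟨x, hx, rfl⟩
    have hx : inner ℝ x e < t := hx
    exact div_nonneg (hu.nonneg x) (by linarith)
  have hSb : BddBelow S := ⟨0, fun s hs => hS0 s hs⟩
  set a : ℝ := sInf S with ha
  have ha0 : 0 ≤ a := le_csInf hSne hS0
  have hau : ∀ x, inner ℝ x e ≤ t → a * (t - inner ℝ x e) ≤ u x := by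
    intro x hx
    rcases hx.eq_or_lt with hx | hx
    · rw [hx, sub_self, mul_zero]; exact hu.nonneg x
    · have h1 : a ≤ u x / (t - inner ℝ x e) := csInf_le hSb ⟨x, hx, rfl⟩
      rwa [le_div_iff₀ (by linarith)] at h1
  refine ⟨a, ha0, hau, ?_⟩
  intro ε hε
  by_contra hcon
  push Not at hcon
  -- the constants
  set c : ℝ := 256 / 78125 with hc
  set L : ℝ := c * ε / (8 * (C0 + a + 1)) with hL
  have hc0 : 0 < c := by rw [hc]; norm_num
  have hL0 : 0 < L := by rw [hL]; positivity
  set κ : ℝ := c * (c * ε / 2) / 4 * th 2 (L / 4) with hκ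
  have hκ0 : 0 < κ := mul_pos (by positivity) (th_pos (by norm_num) (by positivity))
  have hkey : ∀ y, inner ℝ y e < t → a + κ ≤ u y / (t - inner ℝ y e) := by
    intro y hy
    set R₀ : ℝ := |t| + ‖q‖ + 1 + ‖y‖ with hR₀
    obtain ⟨P, hP, hPw⟩ := hcon (C0 * (R₀ + ‖q‖))
    have haP : 0 ≤ a * (t - inner ℝ P e) := mul_nonneg ha0 (by linarith)
    have h1 := lip hu P hq
    have h2 : dist P q ≤ ‖P‖ + ‖q‖ := by rw [dist_eq_norm]; exact norm_sub_le _ _
    have h3 : C0 * dist P q ≤ C0 * (‖P‖ + ‖q‖) := mul_le_mul_of_nonneg_left h2 hC.le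
    have hεP : 0 ≤ ε * ‖P‖ := by positivity
    have hR₀P : R₀ < ‖P‖ := by
      have h4 : C0 * (R₀ + ‖q‖) < C0 * (‖P‖ + ‖q‖) := by linarith
      have h5 := lt_of_mul_lt_mul_left h4 hC.le
      linarith
    have hR₀0 : 0 ≤ C0 * (R₀ + ‖q‖) := by
      have : 0 ≤ R₀ := by rw [hR₀]; positivity
      positivity
    have h6 := lower_step hu he hq hbelow ha0 hau hε hc hL hP
      (by have := norm_nonneg y; linarith) (by linarith) y hy.le
      (by
        have h7 := abs_nonneg t
        have h8 := norm_nonneg q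
        linarith)
    rw [← hκ] at h6
    rw [le_div_iff₀ (by linarith)]
    linarith
  have hfin : a + κ ≤ a := by
    refine le_csInf hSne ?_
    rintro _ ⟨x, hx, rfl⟩
    exact hkey x hx
  linarith

end FB75
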