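import Pool.Agent.FB75.Lip
import Pool.Agent.FB75.Spread

/-!
# Smallness in the half-space which meets the zero phase at all scales
-/

open MeasureTheory Metric Set Filter Topology InnerProductSpace Laplacian
open scoped ContDiff

namespace FB75

/-- First step: a linear bound by the distance to the plane, up to a small linear error. -/
private theorem upper_linear {u : E3 → ℝ} (hu : IsEntireSolution u) {e : E3} (he : ‖e‖ = 1)
    {t : ℝ} (hflat : ∀ ε > 0, ∃ C, ∀ x, inner ℝ x e = t → u x ≤ ε * ‖x‖ + C) {q : E3}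
    (hq : u q = 0) (η : ℝ) (hη : 0 < η) :
    ∃ C, ∀ x, t ≤ inner ℝ x e → u x ≤ 6 * C0 * (inner ℝ x e - t) + η * ‖x‖ + C := by
  have hC0 := C0_pos
  have hbe : inner ℝ (t • e) e = t := by
    rw [inner_smul_left, real_inner_self_eq_norm_sq, he]
    simp
  set D : ℝ := dist q (t • e) + 1 with hD
  have hD1 : 1 ≤ D := by
    have : 0 ≤ dist q (t • e) := dist_nonneg
    linarith
  set l : ℝ := min 1 (η / (4 * C0)) with hl
  have hl0 : 0 < l := lt_min one_pos (by positivity)
  have hl1 : l ≤ 1 := min_le_left _ _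
  have hl2 : 4 * C0 * l ≤ η := by
    have h1 : l ≤ η / (4 * C0) := min_le_right _ _
    rw [le_div_iff₀ (by positivity)] at h1
    linarith
  set ε : ℝ := η * l / 2 with hε
  have hε0 : 0 < ε := by rw [hε]; positivity
  obtain ⟨C, hC⟩ := hflat ε hε0
  refine ⟨η * ‖t • e‖ + ε * (D + ‖t • e‖) + max C 0, fun x hx => ?_⟩
  set r : ℝ := ‖x - t • e‖ with hr
  have hr0 : 0 ≤ r := norm_nonneg _
  set R : ℝ := r / l + D with hR
  have hrl : r ≤ r / l := by
    rw [le_div_iff₀ hl0]
    nlinarith
  have hrl0 : 0 ≤ r / l := by positivity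
  have hR0 : 0 < R := by linarith
  have hxR : r ≤ R := by linarith
  have hδ0 : 0 ≤ ε * (R + ‖t • e‖) + max C 0 := by positivity
  have h1 := half_ball (s := u) (e := e) (b := t • e) (t := t) (R := R) (A := 2 * C0)
    (δ := ε * (R + ‖t • e‖) + max C 0) he hR0 hbe (by positivity) hδ0 hu.continuous hu.nonneg ?_ ?_
    (fun y _ hy => hu.harmonic y hy) x (by rw [mem_closedBall, dist_eq_norm]; exact hxR) hx
  · have e1 : 2 * C0 * R * (‖x - t • e‖ ^ 2 / R ^ 2 + 3 * (inner ℝ x e - t) / R) =
        2 * C0 * (r ^ 2 / R) + 6 * C0 * (inner ℝ x e - t) := by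
      rw [← hr]
      field_simp
      ring
    rw [e1] at h1
    have h2 : r ^ 2 / R ≤ l * r := by
      rw [div_le_iff₀ hR0]
      have h3 : l * (r / l) = r := by field_simp
      have h4 : l * r * R = (l * (r / l)) * r + l * r * D := by rw [hR]; ring
      rw [h4, h3]
      have : 0 ≤ l * r * D := by positivity
      nlinarith
    have h3 : 2 * C0 * (r ^ 2 / R) ≤ η / 2 * r := by
      calc 2 * C0 * (r ^ 2 / R) ≤ 2 * C0 * (l * r) := mul_le_mul_of_nonneg_left h2 (by positivity)
        _ = (4 * C0 * l) * r / 2 := by ring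
        _ ≤ η * r / 2 := by
            have := mul_le_mul_of_nonneg_right hl2 hr0
            linarith
        _ = η / 2 * r := by ring
    have h4 : ε * R = η / 2 * r + ε * D := by
      rw [hR, hε]
      field_simp
    have h5 : r ≤ ‖x‖ + ‖t • e‖ := norm_sub_le x (t • e)
    have h6 : η * r ≤ η * (‖x‖ + ‖t • e‖) := mul_le_mul_of_nonneg_left h5 hη.le
    have h7 : ε * (R + ‖t • e‖) = η / 2 * r + ε * (D + ‖t • e‖) := by
      rw [mul_add, h4]; ring
    rw [h7] at h1
    linarith
  · intro y hy hyt
    have h2 := hC y hyt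
    have h3 : ‖y‖ ≤ R + ‖t • e‖ := by
      have h4 := mem_closedBall.1 hy
      rw [dist_eq_norm] at h4
      have h5 : ‖y‖ ≤ ‖y - t • e‖ + ‖t • e‖ := by
        have := norm_add_le (y - t • e) (t • e)
        rwa [sub_add_cancel] at this
      linarith
    have h4 : ε * ‖y‖ ≤ ε * (R + ‖t • e‖) := mul_le_mul_of_nonneg_left h3 hε0.le
    linarith [le_max_left C 0]
  · intro y hy _
    have h2 := lip hu y hq
    have h3 : dist y q ≤ R + R := by
      have h4 := dist_triangle y (t • e) q
      rw [dist_comm (t • e) q] at h4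
      have h5 := mem_closedBall.1 hy
      linarith
    calc u y ≤ C0 * dist y q := h2
      _ ≤ C0 * (R + R) := mul_le_mul_of_nonneg_left h3 hC0.le
      _ = 2 * C0 * R := by ring

theorem upper_small {u : E3 → ℝ} (hu : IsEntireSolution u) {e : E3} (he : ‖e‖ = 1) {t : ℝ}
    (hflat : ∀ ε > 0, ∃ C, ∀ x, inner ℝ x e = t → u x ≤ ε * ‖x‖ + C) {δ R₀ : ℝ} (hδ : 0 < δ)
    (hK : ∀ R ≥ R₀, ∃ p, u p = 0 ∧ ‖p‖ ≤ R ∧ δ * R ≤ inner ℝ p e - t) :
    ∀ ε > 0, ∃ C, ∀ x, t ≤ inner ℝ x e → u x ≤ ε * ‖x‖ + C := by
  have hC0 := C0_pos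
  obtain ⟨q, hq, -, -⟩ := hK R₀ le_rfl
  have hell : ∀ x : E3, inner ℝ x e - t ≤ ‖x‖ + |t| := by
    intro x
    have h1 := real_inner_le_norm x e
    rw [he, mul_one] at h1
    linarith [neg_abs_le t]
  -- the set of admissible slopes
  set S : Set ℝ := {c | 0 ≤ c ∧ ∀ η > 0, ∃ C, ∀ x, t ≤ inner ℝ x e →
    u x ≤ c * (inner ℝ x e - t) + η * ‖x‖ + C} with hS
  have h6S : 6 * C0 ∈ S := ⟨by linarith, fun η hη => upper_linear hu he hflat hq η hη⟩
  have hSne : S.Nonempty := ⟨_, h6S⟩
  have hSbd : BddBelow S := ⟨0, fun c hc => hc.1⟩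
  set cs : ℝ := sInf S with hcs
  have hcs0 : 0 ≤ cs := le_csInf hSne fun c hc => hc.1
  have hcs6 : cs ≤ 6 * C0 := csInf_le hSbd h6S
  have hcsS : ∀ η > 0, ∃ C, ∀ x, t ≤ inner ℝ x e →
      u x ≤ cs * (inner ℝ x e - t) + η * ‖x‖ + C := by
    intro η hη
    obtain ⟨c, hcS, hc⟩ := exists_lt_of_csInf_lt hSne (show sInf S < cs + η / 2 by linarith)
    obtain ⟨C, hC⟩ := hcS.2 (η / 2) (by positivity)
    refine ⟨C + η / 2 * |t|, fun x hx => ?_⟩
    have h1 := hC x hx
    have h2 : c * (inner ℝ x e - t) ≤ (cs + η / 2) * (inner ℝ x e - t) :=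
      mul_le_mul_of_nonneg_right hc.le (by linarith)
    have h3 : η / 2 * (inner ℝ x e - t) ≤ η / 2 * (‖x‖ + |t|) :=
      mul_le_mul_of_nonneg_left (hell x) (by positivity)
    linarith
  rcases hcs0.eq_or_lt with h | hcspos
  · intro ε hε
    obtain ⟨C, hC⟩ := hcsS ε hε
    refine ⟨C, fun x hx => ?_⟩
    have := hC x hx
    rw [← h, zero_mul, zero_add] at this
    exact this
  · exfalso
    set r : ℝ := 16 * C0 / (cs * δ) with hr
    have hr0 : 0 < r := by rw [hr]; positivity
    have hθ0 : 0 < th r 1 := th_pos hr0 one_pos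
    have hmem : cs - cs / 2 * th r 1 ∈ S := by
      refine ⟨?_, fun η hη => ?_⟩
      · have := mul_le_mul_of_nonneg_left (th_le_one (R := r) (ρ := 1))
          (show 0 ≤ cs / 2 by linarith)
        linarith
      · obtain ⟨C, hC⟩ := hcsS (η / 5) (by positivity)
        refine ⟨η * (|R₀| + 1) + max C 0, fun x hx => ?_⟩
        set R : ℝ := ‖x‖ + |R₀| + 1 with hR
        have hx0 : 0 ≤ ‖x‖ := norm_nonneg x
        have hR00 : 0 ≤ |R₀| := abs_nonneg R₀
        have hRR : R ≥ R₀ := by
          have := le_abs_self R₀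
          linarith
        have hRpos : 0 < R := by linarith
        obtain ⟨p, hp1, hp2, hp3⟩ := hK R hRR
        set ρ : ℝ := cs * δ * R / (16 * C0) with hρ
        have hρ0 : 0 < ρ := by rw [hρ]; positivity
        have hδR : 0 < δ * R := by positivity
        have hρle : ρ ≤ δ * R / 2 := by
          rw [hρ, div_le_iff₀ (by positivity)]
          have : cs * (δ * R) ≤ 6 * C0 * (δ * R) := mul_le_mul_of_nonneg_right hcs6 hδR.le
          nlinarith
        have hth : th R ρ = th r 1 := by
          have : R / ρ = r / 1 := by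
            rw [hρ, hr]
            field_simp
          unfold th
          rw [this]
        have hd0 : 0 ≤ η * R + max C 0 := by positivity
        have h1 := gain (s := u) (e := e) (p := p) (t := t) (R := R) (ρ := ρ) (c := cs)
          (δ := η * R + max C 0) he hρ0 (by linarith) hcs0 hd0 hu.continuous hu.nonneg ?_
          (fun y _ hy => hu.harmonic y hy) ?_ x hx ?_
        · rw [hth] at h1
          have h2 : η * R = η * ‖x‖ + η * (|R₀| + 1) := by rw [hR]; ring
          rw [h2] at h1
          linarith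
        · intro y hy1 hy2
          have h2 := hC y hy1
          have h3 : ‖y‖ ≤ 5 * R := by
            rw [dist_eq_norm] at hy2
            have h5 : ‖y‖ ≤ ‖y - p‖ + ‖p‖ := by
              have := norm_add_le (y - p) p
              rwa [sub_add_cancel] at this
            linarith
          have h4 : η / 5 * ‖y‖ ≤ η / 5 * (5 * R) := mul_le_mul_of_nonneg_left h3 (by positivity)
          linarith [le_max_left C 0]
        · intro y hy _
          have h2 : dist y p ≤ ρ := mem_closedBall.1 hy
          have h3 : inner ℝ p e - inner ℝ y e ≤ ρ := by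
            rw [← inner_sub_left]
            have h4 := real_inner_le_norm (p - y) e
            rw [he, mul_one, ← dist_eq_norm, dist_comm] at h4
            linarith
          have h4 : u y ≤ cs / 2 * (inner ℝ y e - t) := by
            calc u y ≤ C0 * dist y p := lip hu y hp1
              _ ≤ C0 * ρ := mul_le_mul_of_nonneg_left h2 hC0.le
              _ = cs / 2 * (δ * R / 8) := by rw [hρ]; field_simp; ring
              _ ≤ cs / 2 * (inner ℝ y e - t) :=
                  mul_le_mul_of_nonneg_left (by linarith) (by linarith)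
          linarith
        · rw [dist_eq_norm]
          have := norm_sub_le x p
          linarith
    have h2 := csInf_le hSbd hmem
    have h3 : 0 < cs / 2 * th r 1 := by positivity
    linarith

end FB75
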