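import Pool.Agent.FB75.Struct
import Pool.Agent.FB75.Lower

/-!
# Flatness when the zero phase contains the far parts of all cones
-/

open MeasureTheory Metric Set Filter Topology InnerProductSpace Laplacian
open scoped ContDiff

namespace FB75

/-- The quadratic comparison function. -/
noncomputable def touchQ (p e : E3) (a k τ : ℝ) (x : E3) : ℝ :=
  a * (τ - inner ℝ (x - p) e) + k * (‖x - p‖ ^ 2 - 4 * (inner ℝ (x - p) e) ^ 2)

theorem touchQ_contDiff (p e : E3) (a k τ : ℝ) : ContDiff ℝ 2 (touchQ p e a k τ) := by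
  unfold touchQ
  have h1 : ContDiff ℝ 2 fun x : E3 => inner ℝ (x - p) e :=
    (contDiff_id.sub contDiff_const).inner ℝ contDiff_const
  have h2 : ContDiff ℝ 2 fun x : E3 => ‖x - p‖ ^ 2 :=
    (contDiff_norm_sq ℝ).comp (contDiff_id.sub contDiff_const)
  exact (contDiff_const.mul (contDiff_const.sub h1)).add
    (contDiff_const.mul (h2.sub (contDiff_const.mul (h1.pow 2))))

theorem touch_inner_hasFDerivAt (p e x : E3) :
    HasFDerivAt (fun x : E3 => inner ℝ (x - p) e) (innerSL ℝ e) x := by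
  have h1 : (fun x : E3 => (inner ℝ (x - p) e : ℝ)) = fun x => innerSL ℝ e (x - p) := by
    funext x; rw [innerSL_apply_apply, real_inner_comm]
  rw [h1]
  exact (innerSL ℝ e).hasFDerivAt.comp x ((hasFDerivAt_id x).sub_const p)

theorem touch_norm_hasFDerivAt (p x : E3) :
    HasFDerivAt (fun x : E3 => ‖x - p‖ ^ 2) ((2 : ℝ) • innerSL ℝ (x - p)) x := by
  have h2 := (hasStrictFDerivAt_norm_sq (x - p)).hasFDerivAt.comp x
    ((hasFDerivAt_id x).sub_const p)
  rw [ContinuousLinearMap.comp_id] at h2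
  have h3 : (2 • (innerSL ℝ) (x - p) : E3 →L[ℝ] ℝ) = (2 : ℝ) • innerSL ℝ (x - p) := by
    ext v; simp
  rw [h3] at h2
  exact h2

theorem touchQ_fderiv (p e : E3) (a k τ : ℝ) (x v : E3) :
    fderiv ℝ (touchQ p e a k τ) x v = -a * inner ℝ v e +
      k * (2 * inner ℝ (x - p) v - 8 * inner ℝ (x - p) e * inner ℝ v e) := by
  have h1 := touch_inner_hasFDerivAt p e x
  have h2 := touch_norm_hasFDerivAt p x
  have h3 := ((h1.const_sub τ).const_mul a).add
    ((h2.sub ((h1.pow 2).const_mul 4)).const_mul k)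
  have h4 : HasFDerivAt (touchQ p e a k τ) _ x := h3
  rw [h4.fderiv]
  have h5 : inner ℝ v e = (inner ℝ e v : ℝ) := real_inner_comm _ _
  rw [h5]
  simp only [add_apply, smul_apply, neg_apply, sub_apply,
    innerSL_apply_apply, smul_eq_mul, nsmul_eq_mul, Nat.add_one_sub_one, pow_one]
  push_cast
  ring

theorem touchQ_laplacian {p e : E3} (he : ‖e‖ = 1) (a k τ : ℝ) (x : E3) :
    Δ (touchQ p e a k τ) x = -2 * k := by
  rw [laplacian_eq_sum (touchQ_contDiff p e a k τ).contDiffAt]
  have h2 : ∀ i, fderiv ℝ (fun y => fderiv ℝ (touchQ p e a k τ) y (ei i)) x (ei i) =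
      k * (2 - 8 * (inner ℝ (ei i) e) ^ 2) := by
    intro i
    have h0 : (fun y => fderiv ℝ (touchQ p e a k τ) y (ei i)) =
      fun y => -a * inner ℝ (ei i) e +
        k * (2 * inner ℝ (y - p) (ei i) - 8 * inner ℝ (y - p) e * inner ℝ (ei i) e) := by
      funext y
      rw [touchQ_fderiv]
    have h1 := touch_inner_hasFDerivAt p e x
    have h3 := touch_inner_hasFDerivAt p (ei i) x
    have h4 := (((h3.const_mul 2).sub ((h1.const_mul 8).mul_const (inner ℝ (ei i) e))).const_mul
      k).const_add (-a * inner ℝ (ei i) e)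
    have h6 : HasFDerivAt (fun y => -a * inner ℝ (ei i) e +
        k * (2 * inner ℝ (y - p) (ei i) - 8 * inner ℝ (y - p) e * inner ℝ (ei i) e)) _ x := h4
    rw [h0, h6.fderiv]
    have h5 : inner ℝ (ei i) (ei i) = (1 : ℝ) := by
      rw [real_inner_self_eq_norm_sq, ei, (EuclideanSpace.basisFun (Fin 3) ℝ).norm_eq_one]
      norm_num
    have h7 : inner ℝ (ei i) e = (inner ℝ e (ei i) : ℝ) := real_inner_comm _ _
    rw [h7]
    simp only [smul_apply, sub_apply, innerSL_apply_apply, smul_eq_mul, h5]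
    ring
  simp only [h2]
  rw [← Finset.mul_sum, Finset.sum_sub_distrib, ← Finset.mul_sum]
  have h3 : ∑ i, (inner ℝ (ei i) e : ℝ) ^ 2 = 1 := by
    have := (EuclideanSpace.basisFun (Fin 3) ℝ).sum_sq_inner_right e
    rw [he] at this
    simpa only [ei, one_pow] using this
  rw [h3]
  simp
  ring

theorem touchQ_shift (p e : E3) (a k τ σ : ℝ) (x : E3) :
    touchQ p e a k σ x = touchQ p e a k τ x + a * (σ - τ) := by
  unfold touchQ; ring

theorem touch_abs_inner {x p e : E3} (he : ‖e‖ = 1) {R : ℝ} (hx : dist x p ≤ R) :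
    |(inner ℝ (x - p) e : ℝ)| ≤ R := by
  have h := abs_real_inner_le_norm (x - p) e
  rw [he, mul_one, ← dist_eq_norm] at h
  exact h.trans hx

theorem touchQ_line {p e : E3} (he : ‖e‖ = 1) {a k R τ : ℝ} (ha : 0 ≤ a) (hk : 0 ≤ k) {x ν : E3}
    (hν : ‖ν‖ = 1) (hx : dist x p ≤ R) (h0 : touchQ p e a k τ x ≤ 0) {s : ℝ} (hs : 0 ≤ s) :
    touchQ p e a k τ (x + s • ν) ≤ s * (a + 10 * k * R) + k * s ^ 2 := by
  have e1 : x + s • ν - p = (x - p) + s • ν := by abel
  have e2 : ‖(x - p) + s • ν‖ ^ 2 = ‖x - p‖ ^ 2 + 2 * s * inner ℝ (x - p) ν + s ^ 2 := by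
    rw [norm_add_sq_real, inner_smul_right, norm_smul, hν, Real.norm_of_nonneg hs]
    ring
  have e3 : (inner ℝ ((x - p) + s • ν) e : ℝ) = inner ℝ (x - p) e + s * inner ℝ ν e := by
    rw [inner_add_left, inner_smul_left]; simp
  unfold touchQ at h0 ⊢
  rw [e1, e2, e3]
  have hR : 0 ≤ R := dist_nonneg.trans hx
  have h1 := abs_le.1 (touch_abs_inner he hx)
  have h2 := abs_le.1 (touch_abs_inner hν hx)
  have h3 : |(inner ℝ ν e : ℝ)| ≤ 1 := by
    have := abs_real_inner_le_norm ν e
    rwa [hν, he, mul_one] at this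
  have h4 := abs_le.1 h3
  set A : ℝ := inner ℝ (x - p) e
  set B : ℝ := inner ℝ (x - p) ν
  set N : ℝ := inner ℝ ν e
  have h5 : -(A * N) ≤ R := by
    have : |A * N| ≤ R * 1 := by
      rw [abs_mul]
      exact mul_le_mul (touch_abs_inner he hx) h3 (abs_nonneg _) hR
    have := (abs_le.1 this).1
    linarith
  have h6 : 0 ≤ s * a * (1 + N) := mul_nonneg (mul_nonneg hs ha) (by linarith)
  have h7 : 0 ≤ s * k * (R - B) := mul_nonneg (mul_nonneg hs hk) (by linarith)
  have h8 : 0 ≤ s * k * (R + A * N) := mul_nonneg (mul_nonneg hs hk) (by linarith)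
  have h9 : 0 ≤ k * s ^ 2 * N ^ 2 := by positivity
  nlinarith

/-- Sliding comparison with the quadratic functions. -/
theorem touch_slide {u : E3 → ℝ} (hu : IsEntireSolution u) {p e : E3} (he : ‖e‖ = 1)
    {a k R τ₀ : ℝ} (ha : 0 < a) (hk : 0 < k) (hlip : a + 10 * k * R < 1) (hR : 0 < R)
    (hsph : ∀ x, dist x p = R → (∀ᶠ v in 𝓝 x, u v = 0) ∨
      ∀ τ, τ₀ ≤ τ → u x < touchQ p e a k τ x) :
    ∀ x ∈ closedBall p R, u x ≤ max (touchQ p e a k τ₀ x) 0 := by
  have hQc : ∀ τ, Continuous (touchQ p e a k τ) := fun τ => (touchQ_contDiff p e a k τ).continuous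
  set P : ℝ → Prop := fun τ => ∀ x ∈ closedBall p R, u x ≤ max (touchQ p e a k τ x) 0 with hP
  have hmono : ∀ τ σ, τ ≤ σ → P τ → P σ := by
    intro τ σ h hτ x hx
    refine (hτ x hx).trans (max_le_max ?_ le_rfl)
    rw [touchQ_shift p e a k τ σ]
    have : 0 ≤ a * (σ - τ) := mul_nonneg ha.le (by linarith)
    linarith
  -- the comparison holds for a large parameter
  obtain ⟨τ₁, hτ₁, hPτ₁⟩ : ∃ τ₁, τ₀ ≤ τ₁ ∧ P τ₁ := by
    obtain ⟨M, hM⟩ := (isCompact_closedBall p R).exists_bound_of_continuousOn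
      (hu.continuous.sub (hQc 0)).continuousOn
    refine ⟨max τ₀ (M / a), le_max_left _ _, fun x hx => le_max_of_le_left ?_⟩
    have h1 := (abs_le.1 (hM x hx)).2
    rw [touchQ_shift p e a k 0]
    have h2 : a * (M / a) ≤ a * max τ₀ (M / a) :=
      mul_le_mul_of_nonneg_left (le_max_right _ _) ha.le
    rw [mul_div_cancel₀ _ ha.ne'] at h2
    simp only [Pi.sub_apply] at h1
    linarith
  set S : Set ℝ := {τ | τ₀ ≤ τ ∧ P τ} with hS
  have hSne : S.Nonempty := ⟨τ₁, hτ₁, hPτ₁⟩
  have hSb : BddBelow S := ⟨τ₀, fun τ hτ => hτ.1⟩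
  set T : ℝ := sInf S with hT
  have hTτ₀ : τ₀ ≤ T := le_csInf hSne fun τ hτ => hτ.1
  have hgt : ∀ τ, T < τ → P τ := by
    intro τ hτ
    obtain ⟨σ, hσ, hστ⟩ := (csInf_lt_iff hSb hSne).1 hτ
    exact hmono σ τ hστ.le hσ.2
  have hPT : P T := by
    intro x hx
    by_contra hcon
    push Not at hcon
    obtain ⟨h1, h2⟩ := max_lt_iff.1 hcon
    have h3 : T < T + (u x - touchQ p e a k T x) / (2 * a) := by
      have : 0 < (u x - touchQ p e a k T x) / (2 * a) := div_pos (by linarith) (by linarith)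
      linarith
    have h4 := hgt _ h3 x hx
    rw [touchQ_shift p e a k T] at h4
    have h5 : a * (T + (u x - touchQ p e a k T x) / (2 * a) - T) =
        (u x - touchQ p e a k T x) / 2 := by field_simp; ring
    rw [h5] at h4
    rcases le_max_iff.1 h4 with h | h <;> linarith
  rcases hTτ₀.eq_or_lt with hT0 | hT0
  · rw [hT0]; exact hPT
  exfalso
  -- the failing points
  have hfail : ∀ n : ℕ, ∃ x ∈ closedBall p R,
      max (touchQ p e a k (T - (T - τ₀) / (n + 1)) x) 0 < u x := by
    intro n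
    by_contra hcon
    push Not at hcon
    have hn : (0 : ℝ) < n + 1 := by positivity
    have h1 : (T - τ₀) / (n + 1) ≤ T - τ₀ := by
      rw [div_le_iff₀ hn]
      nlinarith [Nat.cast_nonneg (α := ℝ) n]
    have h2 : T - (T - τ₀) / (n + 1) ∈ S := ⟨by linarith, hcon⟩
    have h3 := csInf_le hSb h2
    have h4 : 0 < (T - τ₀) / (n + 1) := div_pos (by linarith) hn
    linarith
  choose x hxB hxu using hfail
  obtain ⟨y, hyB, φ, hφ, hy⟩ := (isCompact_closedBall p R).tendsto_subseq hxB
  have hpos : ∀ n, 0 < u (x (φ n)) := fun n => (le_max_right _ _).trans_lt (hxu _)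
  have hge : touchQ p e a k T y ≤ u y := by
    have h1 : Tendsto (fun n : ℕ => touchQ p e a k T (x (φ n)) -
        a * ((T - τ₀) * (1 / ((φ n : ℝ) + 1)))) atTop (𝓝 (touchQ p e a k T y -
        a * ((T - τ₀) * 0))) := by
      refine (((hQc T).tendsto y).comp hy).sub (Tendsto.const_mul _ (Tendsto.const_mul _ ?_))
      exact tendsto_one_div_add_atTop_nhds_zero_nat.comp hφ.tendsto_atTop
    rw [mul_zero, mul_zero, sub_zero] at h1
    have h2 : Tendsto (fun n => u (x (φ n))) atTop (𝓝 (u y)) := (hu.continuous.tendsto y).comp hy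
    refine le_of_tendsto_of_tendsto' h1 h2 fun n => ?_
    have h3 := (le_max_left _ _).trans (hxu (φ n)).le
    rw [touchQ_shift p e a k T] at h3
    have h4 : a * (T - (T - τ₀) / ((φ n : ℝ) + 1) - T) =
      - (a * ((T - τ₀) * (1 / ((φ n : ℝ) + 1)))) := by ring
    rw [h4] at h3
    linarith
  rcases (mem_closedBall.1 hyB).eq_or_lt with hyR | hyR
  · -- on the sphere
    rcases hsph y hyR with h | h
    · obtain ⟨n, hn⟩ := (hy.eventually h).exists
      exact absurd hn (hpos n).ne'
    · exact absurd hge (not_le.2 (h T hTτ₀))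
  have hnb : closedBall p R ∈ 𝓝 y := by
    refine mem_of_superset (isOpen_ball.mem_nhds (mem_ball.2 hyR)) ball_subset_closedBall
  rcases (hu.nonneg y).eq_or_lt with hy0 | hy0
  · -- a free boundary point
    have hfr : y ∈ frontier {x | 0 < u x} := by
      rw [(isOpen_pos hu).frontier_eq]
      refine ⟨mem_closure_of_tendsto hy (Eventually.of_forall fun n => hpos n), fun h => ?_⟩
      have h1 : 0 < u y := h
      linarith
    obtain ⟨ν, ρ, g, -, hside, -⟩ := exists_side hu hfr hy (fun n => hpos n) one_pos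
    set δ : ℝ := (1 - (a + 10 * k * R)) / 2 with hδ
    have hδ0 : 0 < δ := by rw [hδ]; linarith
    have hkR : 0 < 10 * k * R := by positivity
    have h1 := hside.lower hδ0
    have h2 : ∀ᶠ s in 𝓝[>] (0 : ℝ), y + s • ν ∈ closedBall p R := by
      have hc : Continuous fun s : ℝ => y + s • ν := by fun_prop
      have := hc.tendsto 0
      simp only [zero_smul, add_zero] at this
      exact (this.eventually hnb).filter_mono nhdsWithin_le_nhds
    have h3 : ∀ᶠ s in 𝓝[>] (0 : ℝ), 0 < s ∧ s < δ / k := by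
      have : Ioo (0 : ℝ) (δ / k) ∈ 𝓝[>] (0 : ℝ) := Ioo_mem_nhdsGT (by positivity)
      filter_upwards [this] with s hs using hs
    obtain ⟨s, ⟨hs1, hs2⟩, hs3, hs4⟩ := ((h1.and h2).and h3).exists
    have h5 := hPT _ hs2
    have h6 := touchQ_line he ha.le hk.le hside.norm_nu hyR.le (hge.trans hy0.symm.le) hs3.le
    rw [lt_div_iff₀ hk] at hs4
    have h7 : 0 < (1 - δ) * s := mul_pos (by rw [hδ]; linarith) hs3
    rcases le_max_iff.1 h5 with h | h
    · have h8 : (1 - δ) * s ≤ s * (a + 10 * k * R) + k * s ^ 2 := by linarith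
      have h9 : 1 - δ ≤ (a + 10 * k * R) + k * s := by
        refine le_of_mul_le_mul_right ?_ hs3
        nlinarith
      rw [hδ] at h9 hs4
      linarith
    · linarith
  · -- an interior positive point
    have h1 := hPT y hyB
    have h2 : touchQ p e a k T y = u y := by
      rcases le_max_iff.1 h1 with h | h
      · exact le_antisymm hge h
      · linarith
    have h3 : ∀ᶠ v in 𝓝 y, 0 < touchQ p e a k T v :=
      (hQc T).continuousAt.eventually (lt_mem_nhds (by rw [h2]; exact hy0))
    have hloc : IsLocalMin (touchQ p e a k T - u) y := by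
      filter_upwards [h3, hnb] with v hv hv2
      have h4 := hPT v hv2
      rw [max_eq_left hv.le] at h4
      simp only [Pi.sub_apply]
      linarith
    have hharm : HarmonicAt u y := hu.harmonic y hy0
    have hcd := (touchQ_contDiff p e a k T).contDiffAt (x := y)
    have hcd2 : ContDiffAt ℝ 2 (touchQ p e a k T - u) y := hcd.sub hharm.1
    have hnn := laplacian_nonneg_of_isLocalMin hcd2 hloc
    rw [hcd.laplacian_sub hharm.1, hharm.2.self_of_nhds, touchQ_laplacian he] at hnn
    simp at hnn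
    linarith

/-- The slope in the half-space is at least one. -/
theorem touch_ge_one {u : E3 → ℝ} (hu : IsEntireSolution u)
    {p e : E3} (he : ‖e‖ = 1) (hbelow : ∀ x, inner ℝ (x - p) e < 0 → 0 < u x)
    (hcone : ∀ η > 0, ∃ R₁, ∀ x, R₁ ≤ ‖x - p‖ → η * ‖x - p‖ ≤ inner ℝ (x - p) e → u x = 0)
    (hup : ∀ ε > 0, ∃ C, ∀ x, 0 ≤ inner ℝ (x - p) e → u x ≤ ε * ‖x‖ + C)
    {a : ℝ} (ha0 : 0 ≤ a)
    (hupp : ∀ ε > 0, ∃ C, ∀ x, inner ℝ (x - p) e ≤ 0 → u x ≤ a * (-inner ℝ (x - p) e) +
      ε * ‖x‖ + C) : 1 ≤ a := by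
  by_contra hcon
  push Not at hcon
  set κ : ℝ := (1 - a) / 32 with hκ
  have hκ0 : 0 < κ := by rw [hκ]; linarith
  have hκ1 : κ ≤ 1 / 32 := by rw [hκ]; linarith
  have ha : a = 1 - 32 * κ := by rw [hκ]; ring
  set b : ℝ := 1 - 16 * κ with hb
  have hb0 : 1 / 2 ≤ b := by rw [hb]; linarith
  have hb1 : b < 1 := by rw [hb]; linarith
  obtain ⟨R₁, hR₁⟩ := hcone (κ / 8) (by positivity)
  obtain ⟨C₁, hC₁⟩ := hupp (κ / 4) (by positivity)
  obtain ⟨C₂, hC₂⟩ := hup (κ / 4) (by positivity)
  set R : ℝ := max (R₁ + 1) (max 1 (16 * (κ / 4 * ‖p‖ + |C₁| + |C₂| + 1) / κ)) with hR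
  have hR1 : R₁ < R := (lt_add_one _).trans_le (le_max_left _ _)
  have hR2 : 1 ≤ R := (le_max_left _ _).trans (le_max_right _ _)
  have hR0 : 0 < R := by linarith
  have hR3 : 16 * (κ / 4 * ‖p‖ + |C₁| + |C₂| + 1) ≤ κ * R := by
    have : 16 * (κ / 4 * ‖p‖ + |C₁| + |C₂| + 1) / κ ≤ R := (le_max_right _ _).trans (le_max_right _ _)
    rwa [div_le_iff₀ hκ0, mul_comm R κ] at this
  have hp0 : 0 ≤ κ / 4 * ‖p‖ := by positivity
  have hC1' := le_abs_self C₁
  have hC2' := le_abs_self C₂
  have hC1'' := abs_nonneg C₁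
  have hC2'' := abs_nonneg C₂
  have hk0 : 0 < κ / R := by positivity
  have hkR : κ / R * R = κ := by field_simp
  have hinner : Continuous fun x : E3 => (inner ℝ (x - p) e : ℝ) := by fun_prop
  have hslide := touch_slide hu he (p := p) (a := b) (k := κ / R) (R := R) (τ₀ := -(κ * R / 4))
    (by linarith) hk0 (by rw [mul_assoc, hkR, hb]; linarith) hR0 (by
      intro x hx
      have hz := touch_abs_inner he hx.le
      have hz' := abs_le.1 hz
      have hnx : ‖x - p‖ = R := by rw [← dist_eq_norm, hx]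
      have hxn : ‖x‖ ≤ R + ‖p‖ := by
        have := norm_add_le (x - p) p
        rwa [sub_add_cancel, hnx] at this
      have hxn' : κ / 4 * ‖x‖ ≤ κ / 4 * R + κ / 4 * ‖p‖ := by
        have := mul_le_mul_of_nonneg_left hxn (show 0 ≤ κ / 4 by positivity)
        linarith
      by_cases hzR : κ / 8 * R < inner ℝ (x - p) e
      · left
        have h1 : ∀ᶠ v in 𝓝 x, R₁ < ‖v - p‖ := by
          have hc : Continuous fun v : E3 => ‖v - p‖ := by fun_prop
          exact hc.continuousAt.eventually (lt_mem_nhds (by simp only []; rw [hnx]; exact hR1))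
        have h2 : ∀ᶠ v in 𝓝 x, 0 < inner ℝ (v - p) e - κ / 8 * ‖v - p‖ := by
          have hc : Continuous fun v : E3 => (inner ℝ (v - p) e : ℝ) - κ / 8 * ‖v - p‖ := by
            fun_prop
          exact hc.continuousAt.eventually (lt_mem_nhds (by simp only []; rw [hnx]; linarith))
        filter_upwards [h1, h2] with v hv1 hv2
        exact hR₁ v hv1.le (by linarith)
      · right
        push Not at hzR
        intro τ hτ
        have hbτ : -(κ * R / 4) ≤ b * τ := by
          have h1 : b * (-(κ * R / 4)) ≤ b * τ := mul_le_mul_of_nonneg_left hτ (by linarith)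
          have h2 : 0 < κ * R := by positivity
          nlinarith
        set z : ℝ := inner ℝ (x - p) e with hzdef
        have hq : touchQ p e b (κ / R) τ x = b * τ - b * z + κ * R - 4 * κ * (z ^ 2 / R) := by
          unfold touchQ
          rw [hnx, ← hzdef]
          have h0 : κ / R * (R ^ 2 - 4 * z ^ 2) = κ * R - 4 * κ * (z ^ 2 / R) := by
            field_simp
          rw [h0]; ring
        rw [hq]
        have hκR : 0 < κ * R := by positivity
        rcases lt_or_ge z 0 with hz0 | hz0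
        · have h1 := hC₁ x hz0.le
          rw [← hzdef] at h1
          have h2 : z ^ 2 / R ≤ -z := by
            rw [div_le_iff₀ hR0]
            nlinarith
          have h3 : κ * (z ^ 2 / R) ≤ κ * (-z) := mul_le_mul_of_nonneg_left h2 hκ0.le
          rw [ha] at h1
          rw [hb] at hbτ ⊢
          nlinarith
        · have h1 := hC₂ x hz0
          have h2 : z ^ 2 / R ≤ R / 16 := by
            rw [div_le_iff₀ hR0]
            have h3 : z ≤ R / 4 := by nlinarith
            nlinarith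
          have h3 : κ * (z ^ 2 / R) ≤ κ * (R / 16) := mul_le_mul_of_nonneg_left h2 hκ0.le
          have h4 : b * z ≤ κ / 8 * R := by nlinarith
          nlinarith)
  -- contradiction at the tip
  have hQc : Continuous (touchQ p e b (κ / R) (-(κ * R / 4))) := (touchQ_contDiff _ _ _ _ _).continuous
  have hQp : touchQ p e b (κ / R) (-(κ * R / 4)) p < 0 := by
    unfold touchQ
    rw [sub_self, inner_zero_left, norm_zero]
    have : 0 < b * (κ * R / 4) := by positivity
    linarith
  have hc : Continuous fun s : ℝ => p - s • e := by fun_prop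
  have ht := hc.tendsto 0
  simp only [zero_smul, sub_zero] at ht
  have h1 : ∀ᶠ s in 𝓝[>] (0 : ℝ), touchQ p e b (κ / R) (-(κ * R / 4)) (p - s • e) < 0 :=
    (ht.eventually (hQc.continuousAt.eventually (gt_mem_nhds hQp))).filter_mono nhdsWithin_le_nhds
  have h2 : ∀ᶠ s in 𝓝[>] (0 : ℝ), p - s • e ∈ closedBall p R :=
    (ht.eventually (closedBall_mem_nhds p hR0)).filter_mono nhdsWithin_le_nhds
  obtain ⟨s, ⟨hs1, hs2⟩, hs3⟩ := ((h1.and h2).and self_mem_nhdsWithin).exists
  have h3 := hslide _ hs2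
  rw [max_eq_right hs1.le] at h3
  have h4 : 0 < u (p - s • e) := by
    refine hbelow _ ?_
    rw [sub_sub_cancel_left, inner_neg_left, inner_smul_left, real_inner_self_eq_norm_sq, he]
    simpa using hs3
  linarith

theorem touch_flat {u : E3 → ℝ} (hu : IsEntireSolution u) (hΩ : IsPreconnected {x | 0 < u x})
    {p e : E3} (he : ‖e‖ = 1) (hp : u p = 0) (hbelow : ∀ x, inner ℝ (x - p) e < 0 → 0 < u x)
    (hcone : ∀ η > 0, ∃ R₁, ∀ x, R₁ ≤ ‖x - p‖ → η * ‖x - p‖ ≤ inner ℝ (x - p) e → u x = 0)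
    (hup : ∀ ε > 0, ∃ C, ∀ x, 0 ≤ inner ℝ (x - p) e → u x ≤ ε * ‖x‖ + C) :
    ∀ x, u x = max (-inner ℝ (x - p) e) 0 := by
  have hin : ∀ x : E3, (inner ℝ (x - p) e : ℝ) = inner ℝ x e - inner ℝ p e := fun x =>
    inner_sub_left _ _ _
  obtain ⟨a, ha0, hlow, hupp⟩ := lower_asymp hu he (t := inner ℝ p e) ⟨p, hp⟩ (by
    intro x hx
    exact hbelow x (by rw [hin]; linarith))
  have ha1 : 1 ≤ a := by
    refine touch_ge_one hu he hbelow hcone hup ha0 fun ε hε => ?_
    obtain ⟨C, hC⟩ := hupp ε hε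
    refine ⟨C, fun x hx => ?_⟩
    rw [hin] at hx ⊢
    have := hC x (by linarith)
    rwa [neg_sub]
  have hlow1 : ∀ x : E3, inner ℝ (x - p) e ≤ 0 → -inner ℝ (x - p) e ≤ u x := by
    intro x hx
    have h1 := hlow x (by rw [hin] at hx; linarith)
    rw [hin] at hx ⊢
    nlinarith
  have hse : ∀ s : ℝ, (inner ℝ (p - s • e - p) e : ℝ) = -s := by
    intro s
    rw [sub_sub_cancel_left, inner_neg_left, inner_smul_left, real_inner_self_eq_norm_sq, he]
    simp
  -- the difference with the half-space solution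
  set w : E3 → ℝ := fun x => u x + inner ℝ (x - p) e with hw
  have hinner : Continuous fun x : E3 => (inner ℝ (x - p) e : ℝ) := by fun_prop
  have hU : IsOpen {x : E3 | inner ℝ (x - p) e < 0} := isOpen_lt hinner continuous_const
  have hUc : IsPreconnected {x : E3 | inner ℝ (x - p) e < 0} := by
    refine Convex.isPreconnected ?_
    intro x hx y hy α β hα hβ hαβ
    simp only [mem_ofPred_eq] at hx hy ⊢
    rw [hin] at hx hy ⊢
    rw [inner_add_left, inner_smul_left, inner_smul_left]
    simp only [conj_trivial]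
    have e1 : inner ℝ p e = α * inner ℝ p e + β * inner ℝ p e := by rw [← add_mul, hαβ, one_mul]
    rcases hα.eq_or_lt with h | h
    · have h2 : β = 1 := by linarith
      rw [← h, h2]; linarith
    · nlinarith
  have hlin : ∀ x : E3, HarmonicAt (fun x : E3 => (inner ℝ (x - p) e : ℝ)) x := by
    intro x
    have h1 : (fun x : E3 => (inner ℝ (x - p) e : ℝ)) = touchQ p e (-1) 0 0 := by
      funext v; unfold touchQ; ring
    rw [h1]
    refine ⟨(touchQ_contDiff p e (-1) 0 0).contDiffAt, Eventually.of_forall fun v => ?_⟩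
    rw [touchQ_laplacian he]
    simp
  have hwh : HarmonicOnNhd w {x : E3 | inner ℝ (x - p) e < 0} := by
    intro x hx
    exact (hu.harmonic x (hbelow x hx)).add (hlin x)
  have hw0 : ∀ v ∈ {x : E3 | inner ℝ (x - p) e < 0}, 0 ≤ w v := by
    intro v hv
    have := hlow1 v (le_of_lt hv)
    simp only [hw]; linarith
  have hwc : Continuous w := hu.continuous.add hinner
  have hpe : p - (1 : ℝ) • e ∈ {x : E3 | inner ℝ (x - p) e < 0} := by
    simp only [mem_ofPred_eq]
    rw [hse]; norm_num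
  have hzero : w (p - (1 : ℝ) • e) = 0 := by
    by_contra hne
    have hpos : 0 < w (p - (1 : ℝ) • e) := lt_of_le_of_ne (hw0 _ hpe) (Ne.symm hne)
    have hsub : ∀ v ∈ closedBall (p - (1 : ℝ) • e) 1, (inner ℝ (v - p) e : ℝ) ≤ 0 := by
      intro v hv
      have h1 := touch_abs_inner he (mem_closedBall.1 hv)
      have h2 := (abs_le.1 h1).2
      have h3 : (inner ℝ (v - (p - (1 : ℝ) • e)) e : ℝ) = inner ℝ (v - p) e + 1 := by
        have : v - (p - (1 : ℝ) • e) = (v - p) + (1 : ℝ) • e := by abel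
        rw [this, inner_add_left, inner_smul_left, real_inner_self_eq_norm_sq, he]
        simp
      linarith
    have hsub' : ball (p - (1 : ℝ) • e) 1 ⊆ {x : E3 | inner ℝ (x - p) e < 0} := by
      intro v hv
      have h1 := touch_abs_inner (x := v) (p := p - (1 : ℝ) • e) he le_rfl
      have h2 := (abs_le.1 h1).2
      have h3 : (inner ℝ (v - (p - (1 : ℝ) • e)) e : ℝ) = inner ℝ (v - p) e + 1 := by
        have : v - (p - (1 : ℝ) • e) = (v - p) + (1 : ℝ) • e := by abel
        rw [this, inner_add_left, inner_smul_left, real_inner_self_eq_norm_sq, he]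
        simp
      rw [mem_ball] at hv
      simp only [mem_ofPred_eq]
      linarith
    have hd : dist p (p - (1 : ℝ) • e) = 1 := by
      rw [dist_eq_norm, sub_sub_cancel, one_smul, he]
    set c : ℝ := 256 / 78125 * (25 * Real.exp (-25)) * w (p - (1 : ℝ) • e) with hc
    have hc0 : 0 < c := by
      have := Real.exp_pos (-25)
      positivity
    have hgrow : ∀ s : ℝ, 0 < s → s ≤ 3 / 4 → c * s ≤ w (p - s • e) := by
      intro s hs hs1
      have h1 := hopf_local (u := w) (x := p - (1 : ℝ) • e) (y := p) (d := 1) (s := s) one_pos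
        (hwh.mono hsub') hwc.continuousOn (fun v hv => by
          have h2 := hsub v hv
          have h3 := hlow1 v h2
          simp only [hw]; linarith) hd hs (by linarith)
      have h2 : p + (s / 1) • (p - (1 : ℝ) • e - p) = p - s • e := by
        rw [div_one, one_smul, sub_sub_cancel_left, smul_neg, sub_eq_add_neg]
      rw [h2, div_one] at h1
      rw [hc]
      linarith
    have hfr : p ∈ frontier {x | 0 < u x} := by
      rw [(isOpen_pos hu).frontier_eq]
      refine ⟨?_, fun h => ?_⟩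
      · have hcs : Continuous fun s : ℝ => p - s • e := by fun_prop
        have ht := hcs.tendsto 0
        simp only [zero_smul, sub_zero] at ht
        refine mem_closure_of_tendsto (ht.mono_left (nhdsWithin_le_nhds (s := Ioi (0 : ℝ)))) ?_
        filter_upwards [self_mem_nhdsWithin] with s hs
        refine hbelow _ ?_
        rw [hse]
        have : (0 : ℝ) < s := hs
        linarith
      · have h1 : 0 < u p := h
        linarith
    have hupat := upper_at hu hfr (ε := c / 2) (by positivity)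
    have hcs : Continuous fun s : ℝ => p - s • e := by fun_prop
    have ht := hcs.tendsto 0
    simp only [zero_smul, sub_zero] at ht
    have h1 : ∀ᶠ s in 𝓝[>] (0 : ℝ), u (p - s • e) ≤ (1 + c / 2) * dist (p - s • e) p :=
      (ht.eventually hupat).filter_mono nhdsWithin_le_nhds
    have h2 : ∀ᶠ s in 𝓝[>] (0 : ℝ), 0 < s ∧ s < 3 / 4 := by
      have : Ioo (0 : ℝ) (3 / 4) ∈ 𝓝[>] (0 : ℝ) := Ioo_mem_nhdsGT (by norm_num)
      filter_upwards [this] with s hs using hs
    obtain ⟨s, hs1, hs2, hs3⟩ := (h1.and h2).exists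
    have h3 := hgrow s hs2 hs3.le
    simp only [hw] at h3
    rw [hse] at h3
    have h4 : dist (p - s • e) p = s := by
      rw [dist_eq_norm, sub_sub_cancel_left, norm_neg, norm_smul, he, Real.norm_of_nonneg hs2.le,
        mul_one]
    rw [h4] at hs1
    have h5 : 0 < c * s := mul_pos hc0 hs2
    nlinarith
  have hbelow0 := strong_min_connected hU hUc hwh hw0 hpe hzero
  have hlt : ∀ x : E3, inner ℝ (x - p) e < 0 → u x = -inner ℝ (x - p) e := by
    intro x hx
    have := hbelow0 x hx
    simp only [hw] at this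
    linarith
  have heq : ∀ x : E3, inner ℝ (x - p) e = (0 : ℝ) → u x = 0 := by
    intro x hx
    have hxs : ∀ s : ℝ, (inner ℝ (x - s • e - p) e : ℝ) = -s := by
      intro s
      have : x - s • e - p = (x - p) - s • e := by abel
      rw [this, inner_sub_left, hx, inner_smul_left, real_inner_self_eq_norm_sq, he]
      simp
    have hcs : Continuous fun s : ℝ => u (x - s • e) := by
      have := hu.continuous
      fun_prop
    have ht := (hcs.tendsto 0).mono_left (nhdsWithin_le_nhds (s := Ioi (0 : ℝ)))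
    simp only [zero_smul, sub_zero] at ht
    have ht2 : Tendsto (fun s : ℝ => s) (𝓝[>] (0 : ℝ)) (𝓝 0) :=
      tendsto_id.mono_left nhdsWithin_le_nhds
    refine tendsto_nhds_unique (ht.congr' ?_) ht2
    filter_upwards [self_mem_nhdsWithin] with s hs
    have hs' : (0 : ℝ) < s := hs
    rw [hlt _ (by rw [hxs]; linarith), hxs, neg_neg]
  have hgt : ∀ x : E3, 0 < (inner ℝ (x - p) e : ℝ) → u x = 0 := by
    intro x hx
    by_contra hne
    have hpos := pos_of_ne hu hne
    have hV : IsOpen {x : E3 | 0 < (inner ℝ (x - p) e : ℝ)} := isOpen_lt continuous_const hinner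
    obtain ⟨y, -, hy1, hy2⟩ := hΩ _ _ hU hV (fun y hy => by
      rcases lt_trichotomy (inner ℝ (y - p) e : ℝ) 0 with h | h | h
      · exact Or.inl h
      · have h1 := heq y h
        have h2 : 0 < u y := hy
        linarith
      · exact Or.inr h) ⟨p - (1 : ℝ) • e, hbelow _ hpe, hpe⟩ ⟨x, hpos, hx⟩
    have h1 : (inner ℝ (y - p) e : ℝ) < 0 := hy1
    have h2 : 0 < (inner ℝ (y - p) e : ℝ) := hy2
    linarith
  intro x
  rcases lt_trichotomy (inner ℝ (x - p) e : ℝ) 0 with h | h | h
  · rw [hlt x h, max_eq_left]; linarith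
  · rw [heq x h, h]; simp
  · rw [hgt x h, max_eq_right]; linarith

end FB75
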