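import Pool.Agent.FB75.Sector
import Pool.Agent.FB75.Touch
import Pool.Agent.FB75.Cone

/-!
# Axially symmetric solutions with contractible phases
-/

open MeasureTheory Metric Set Filter Topology InnerProductSpace Laplacian
open scoped ContDiff

namespace FB75

theorem isPreconnected_of_contractible {A : Set E3} [ContractibleSpace A] : IsPreconnected A := by
  rw [isPreconnected_iff_preconnectedSpace]
  infer_instance

theorem AxSym.shift {u : E3 → ℝ} {p e : E3} (hs : AxSym u p e) (s₀ : ℝ) :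
    AxSym u (p + s₀ • e) e := by
  intro x y h1 h2
  have hx : ∀ x : E3, x - p = (x - (p + s₀ • e)) + s₀ • e := fun x => by abel
  refine hs x y ?_ ?_
  · rw [hx x, hx y, inner_add_left, inner_add_left, h1]
  · have h3 : ‖x - p‖ ^ 2 = ‖y - p‖ ^ 2 := by
      rw [hx x, hx y, norm_add_sq_real, norm_add_sq_real, h2, inner_smul_right, inner_smul_right,
        h1]
    exact (pow_left_inj₀ (norm_nonneg _) (norm_nonneg _) (by norm_num)).1 h3

theorem AxSym.neg {u : E3 → ℝ} {p e : E3} (hs : AxSym u p e) : AxSym u p (-e) := by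
  intro x y h1 h2
  refine hs x y ?_ h2
  rw [inner_neg_right, inner_neg_right, neg_inj] at h1
  exact h1

/-- The far part of a sector in the upper half-plane is preconnected. -/
theorem sector_preconnected {η R : ℝ} (hη : 0 < η) (hη1 : η ≤ 1) (hR : 0 < R) :
    IsPreconnected {ζ : ℂ | R ≤ ‖ζ‖ ∧ η * ‖ζ‖ ≤ ζ.re ∧ η * ‖ζ‖ ≤ ζ.im} := by
  have himg : {ζ : ℂ | R ≤ ‖ζ‖ ∧ η * ‖ζ‖ ≤ ζ.re ∧ η * ‖ζ‖ ≤ ζ.im} =
      (fun q : ℝ × ℝ => (q.1 : ℂ) * Complex.exp (q.2 * Complex.I)) ''
        (Ici R ×ˢ Icc (Real.arcsin η) (Real.arccos η)) := by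
    ext ζ
    constructor
    · rintro ⟨h1, h2, h3⟩
      have hn : 0 < ‖ζ‖ := hR.trans_le h1
      have hζ : ζ ≠ 0 := norm_pos_iff.1 hn
      have hre : 0 < ζ.re := (mul_pos hη hn).trans_le h2
      have him : 0 < ζ.im := (mul_pos hη hn).trans_le h3
      have hcos : Real.cos ζ.arg = ζ.re / ‖ζ‖ := Complex.cos_arg hζ
      have hsin : Real.sin ζ.arg = ζ.im / ‖ζ‖ := Complex.sin_arg ζ
      have harg0 : 0 ≤ ζ.arg := Complex.arg_nonneg_iff.2 him.le
      have harg1 : ζ.arg < Real.pi / 2 := by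
        have := (Complex.abs_arg_lt_pi_div_two_iff).2 (Or.inl hre)
        exact (abs_lt.1 this).2
      refine ⟨(‖ζ‖, ζ.arg), ⟨h1, ?_, ?_⟩, ?_⟩
      · rw [Real.arcsin_le_iff_le_sin' ⟨by linarith [Real.pi_pos], harg1⟩, hsin, le_div_iff₀ hn]
        exact h3
      · have h4 : Real.arccos (Real.cos ζ.arg) = ζ.arg :=
          Real.arccos_cos harg0 (by linarith [Real.pi_pos])
        rw [← h4]
        apply Real.arccos_le_arccos
        rw [hcos, le_div_iff₀ hn]
        exact h2
      · simp only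
        exact Complex.norm_mul_exp_arg_mul_I ζ
    · rintro ⟨⟨r, θ⟩, ⟨h1, h2, h3⟩, rfl⟩
      simp only [mem_Ici] at h1 h2 h3
      have hr : 0 < r := hR.trans_le h1
      have hn : ‖(r : ℂ) * Complex.exp (θ * Complex.I)‖ = r := by
        rw [norm_mul, Complex.norm_exp_ofReal_mul_I, mul_one, Complex.norm_real,
          Real.norm_of_nonneg hr.le]
      have hre : ((r : ℂ) * Complex.exp (θ * Complex.I)).re = r * Real.cos θ := by
        rw [Complex.re_ofReal_mul, Complex.exp_ofReal_mul_I_re]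
      have him : ((r : ℂ) * Complex.exp (θ * Complex.I)).im = r * Real.sin θ := by
        rw [Complex.im_ofReal_mul, Complex.exp_ofReal_mul_I_im]
      have h4 : 0 < Real.arcsin η := Real.arcsin_pos.2 hη
      have h5 : Real.arccos η < Real.pi / 2 := Real.arccos_lt_pi_div_two.2 hη
      have hθ0 : 0 < θ := h4.trans_le h2
      have hθ1 : θ < Real.pi / 2 := h3.trans_lt h5
      refine ⟨by rw [hn]; exact h1, ?_, ?_⟩
      · rw [hn, hre, mul_comm]
        refine mul_le_mul_of_nonneg_left ?_ hr.le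
        have h6 := Real.cos_le_cos_of_nonneg_of_le_pi hθ0.le (by linarith [Real.pi_pos, Real.arccos_le_pi η]) h3
        rwa [Real.cos_arccos (by linarith) hη1] at h6
      · rw [hn, him, mul_comm]
        refine mul_le_mul_of_nonneg_left ?_ hr.le
        have h6 := Real.sin_le_sin_of_le_of_le_pi_div_two (by linarith [Real.pi_pos]) hθ1.le h2
        rwa [Real.sin_arcsin (by linarith) hη1] at h6
  rw [himg]
  refine (isPreconnected_Ici.prod isPreconnected_Icc).image _ (Continuous.continuousOn ?_)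
  fun_prop

/-- Normalised case. -/
theorem axi_normal {u : E3 → ℝ} (hu : IsEntireSolution u) {p e : E3} (he : ‖e‖ = 1)
    (hs : AxSym u p e) [ContractibleSpace {x | 0 < u x}] [ContractibleSpace {x | u x = 0}]
    (hax : ∀ s : ℝ, u (p + s • e) = 0 ↔ 0 ≤ s) : ∀ x, u x = max (-inner ℝ (x - p) e) 0 := by
  have hΩ : IsPreconnected {x | 0 < u x} := isPreconnected_of_contractible
  have hp : u p = 0 := by
    have := (hax 0).2 le_rfl
    simpa using this
  have hunb : ¬ Bornology.IsBounded {x | u x = 0} := by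
    have h1 := unbounded_compl (A := {x | 0 < u x}) (p := p) (by simp [hp])
    have h2 : {x | 0 < u x}ᶜ = {x | u x = 0} := by
      ext x
      simp only [mem_compl_iff, mem_ofPred_eq, not_lt]
      exact ⟨fun h => le_antisymm h (hu.nonneg x), fun h => h.le⟩
    rwa [h2] at h1
  have hab := zero_above hu he hs hax
  set t : ℝ := inner ℝ p e with ht
  have hzt : ∀ x, inner ℝ (x - p) e = inner ℝ x e - t := fun x => by rw [inner_sub_left]
  obtain ⟨a, ha0, ha1, ha2⟩ := lower_asymp hu he (t := t) ⟨p, hp⟩ (fun x hx => hab x (by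
    rw [hzt]; linarith))
  have hup : ∀ ε > 0, ∃ C, ∀ x, 0 ≤ inner ℝ (x - p) e → u x ≤ ε * ‖x‖ + C := by
    have h1 := upper_small hu he (t := t) (δ := 1 / 2) (R₀ := 2 * ‖p‖) (fun ε hε => by
      obtain ⟨C, hC⟩ := ha2 ε hε
      refine ⟨C, fun x hx => ?_⟩
      have := hC x hx.le
      rw [hx, sub_self, mul_zero, zero_add] at this
      exact this) (by norm_num) (fun R hR => by
      have hn := norm_nonneg p
      refine ⟨p + (R / 2) • e, (hax _).2 (by linarith), ?_, ?_⟩
      · refine (norm_add_le _ _).trans ?_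
        rw [norm_smul, he, Real.norm_of_nonneg (by linarith), mul_one]
        linarith
      · rw [inner_add_left, inner_smul_left, real_inner_self_eq_norm_sq, he, ← ht]
        simp only [conj_trivial, one_pow, mul_one]
        linarith)
    intro ε hε
    obtain ⟨C, hC⟩ := h1 ε hε
    exact ⟨C, fun x hx => hC x (by rw [hzt] at hx; linarith)⟩
  obtain ⟨f, hf, hfe⟩ := exists_perp e
  -- the dichotomy
  have hdich : ∀ η : ℝ, 0 < η → η < 1 / 2 → ∃ R₀,
      (∀ x, R₀ ≤ ‖x - p‖ → η * ‖x - p‖ ≤ (prf p e x).re → η * ‖x - p‖ ≤ (prf p e x).im →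
        u x = 0) ∨
      (∀ x, R₀ ≤ ‖x - p‖ → η * ‖x - p‖ ≤ (prf p e x).re → η * ‖x - p‖ ≤ (prf p e x).im →
        0 < u x) := by
    intro η hη hη2
    obtain ⟨R₀, hR₀⟩ := sector hu he hs hax hup hη hη2
    set R : ℝ := max R₀ 1 with hR
    have hR1 : 0 < R := one_pos.trans_le (le_max_right _ _)
    have hpre := sector_preconnected hη (by linarith) hR1
    set Z : Set ℂ := {ζ : ℂ | R ≤ ‖ζ‖ ∧ η * ‖ζ‖ ≤ ζ.re ∧ η * ‖ζ‖ ≤ ζ.im} with hZ
    have himg := hpre.image (rep p e f) (continuous_rep p e f).continuousOn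
    have him0 : ∀ ζ ∈ Z, 0 ≤ ζ.im := fun ζ hζ => (by positivity : 0 ≤ η * ‖ζ‖).trans hζ.2.2
    have havoid : ∀ x ∈ rep p e f '' Z, x ∉ frontier {x | 0 < u x} := by
      rintro x ⟨ζ, hζ, rfl⟩ hfr
      have h1 : prf p e (rep p e f ζ) = ζ := prf_rep he hf hfe (him0 ζ hζ)
      have h2 : ‖rep p e f ζ - p‖ = ‖ζ‖ := by rw [← norm_prf he, h1]
      refine hR₀ _ hfr ?_ ?_ ?_
      · rw [h2]; exact (le_max_left _ _).trans hζ.1
      · rw [h1, h2]; exact hζ.2.1
      · rw [h1, h2]; exact hζ.2.2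
    have hsub : rep p e f '' Z ⊆ {x | 0 < u x} ∪ (closure {x | 0 < u x})ᶜ := by
      intro x hx
      by_cases h1 : x ∈ closure {x | 0 < u x}
      · left
        by_contra h2
        apply havoid x hx
        rw [(isOpen_pos hu).frontier_eq]
        exact ⟨h1, h2⟩
      · exact Or.inr h1
    have hdj : Disjoint {x | 0 < u x} (closure {x | 0 < u x})ᶜ :=
      disjoint_compl_right_iff_subset.2 subset_closure
    have hcase := himg.subset_or_subset (isOpen_pos hu) isClosed_closure.isOpen_compl hdj hsub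
    have hrepx : ∀ x, R ≤ ‖x - p‖ → η * ‖x - p‖ ≤ (prf p e x).re → η * ‖x - p‖ ≤ (prf p e x).im →
        rep p e f (prf p e x) ∈ rep p e f '' Z ∧ u x = u (rep p e f (prf p e x)) := by
      intro x h1 h2 h3
      refine ⟨⟨prf p e x, ⟨?_, ?_, ?_⟩, rfl⟩, ?_⟩
      · rw [norm_prf he]; exact h1
      · rw [norm_prf he]; exact h2
      · rw [norm_prf he]; exact h3
      · refine hs.eq_of_prf he ?_
        rw [prf_rep he hf hfe (prf_im_nonneg p e x)]
    refine ⟨R, ?_⟩
    rcases hcase with h | h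
    · right
      intro x h1 h2 h3
      obtain ⟨h4, h5⟩ := hrepx x h1 h2 h3
      rw [h5]
      exact h h4
    · left
      intro x h1 h2 h3
      obtain ⟨h4, h5⟩ := hrepx x h1 h2 h3
      rw [h5]
      by_contra h6
      exact h h4 (subset_closure (pos_of_ne hu h6))
  -- the positive alternative is impossible
  have hneg : ∀ η : ℝ, 0 < η → η < 1 / 2 → ∃ R₀,
      (∀ x, R₀ ≤ ‖x - p‖ → η * ‖x - p‖ ≤ (prf p e x).re → η * ‖x - p‖ ≤ (prf p e x).im →
        u x = 0) := by
    intro η hη hη2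
    obtain ⟨R₀, h | h⟩ := hdich η hη hη2
    · exact ⟨R₀, h⟩
    · exfalso
      obtain ⟨R₁, hR₁⟩ := narrow_of_sector hu he hs hax hab hη hη2 h
      refine no_cone hu hΩ hunb he (δ := 1 / 2) (M := 3 / 2 * ‖p‖ + |R₁|) (by norm_num) ?_
      intro x hx
      have hre0 : 0 ≤ inner ℝ (x - p) e := by
        by_contra hcon
        push Not at hcon
        have := hab x hcon
        linarith
      have hxn : ‖x‖ ≤ ‖x - p‖ + ‖p‖ := by
        have := norm_add_le (x - p) p; rwa [sub_add_cancel] at this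
      have htp : -‖p‖ ≤ t := by
        have := (abs_le.1 (abs_real_inner_le_norm p e)).1
        rwa [he, mul_one] at this
      have hin := hzt x
      rcases le_total R₁ ‖x - p‖ with h1 | h1
      · have h2 := hR₁ x hx h1
        have h3 : ‖x - p‖ ^ 2 = (inner ℝ (x - p) e) ^ 2 + (prf p e x).im ^ 2 := by
          rw [← norm_prf he x, ← Complex.normSq_eq_norm_sq, Complex.normSq_apply]
          change (inner ℝ (x - p) e) * (inner ℝ (x - p) e) + _ = _
          ring
        have h4 := prf_im_nonneg p e x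
        have h5 := norm_nonneg (x - p)
        have h6 : (prf p e x).im ≤ 1 / 2 * ‖x - p‖ := h2.trans (by nlinarith)
        have h7 : (1 / 2 * ‖x - p‖) ^ 2 ≤ (inner ℝ (x - p) e) ^ 2 := by nlinarith
        have h8 : 1 / 2 * ‖x - p‖ ≤ inner ℝ (x - p) e :=
          (pow_le_pow_iff_left₀ (by positivity) hre0 (by norm_num)).1 h7
        have h9 := abs_nonneg R₁
        linarith
      · have h9 := le_abs_self R₁
        have h10 := abs_nonneg R₁
        linarith
  -- conclusion
  refine touch_flat hu hΩ he hp hab ?_ hup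
  intro η hη
  have hη' : 0 < min η (1 / 4) := lt_min hη (by norm_num)
  obtain ⟨R₀, hR₀⟩ := hneg (min η (1 / 4)) hη' ((min_le_right _ _).trans_lt (by norm_num))
  obtain ⟨R₁, hR₁⟩ := cone_of_sector hu he hs hax hab hη'
    ((min_le_right _ _).trans_lt (by norm_num)) hR₀
  refine ⟨R₁, fun x h1 h2 => hR₁ x h1 (le_trans ?_ h2)⟩
  exact mul_le_mul_of_nonneg_right (min_le_left _ _) (norm_nonneg _)

theorem axi_flat {u : E3 → ℝ} (hu : IsEntireSolution u) {p e : E3} (he : ‖e‖ = 1)
    (hs : AxSym u p e) [ContractibleSpace {x | 0 < u x}] [ContractibleSpace {x | u x = 0}] :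
    ∃ (e' : E3) (t : ℝ), ‖e'‖ = 1 ∧ ∀ x, u x = max (inner ℝ x e' - t) 0 := by
  have key : ∀ e₁ : E3, ‖e₁‖ = 1 → AxSym u p e₁ → ∀ s₀ : ℝ, (∀ s : ℝ, u (p + s • e₁) = 0 ↔ s₀ ≤ s) →
      ∃ (e' : E3) (t : ℝ), ‖e'‖ = 1 ∧ ∀ x, u x = max (inner ℝ x e' - t) 0 := by
    intro e₁ he₁ hs₁ s₀ h
    have h1 := axi_normal hu he₁ (hs₁.shift s₀) (fun s => by
      rw [add_assoc, ← add_smul, h]
      constructor <;> intro h <;> linarith)
    refine ⟨-e₁, -inner ℝ (p + s₀ • e₁) e₁, by rw [norm_neg, he₁], fun x => ?_⟩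
    rw [h1 x, inner_sub_left, inner_neg_right]
    congr 1
    ring
  obtain ⟨s₀, h | h⟩ := axis_rays hu he hs
  · exact key e he hs s₀ h
  · refine key (-e) (by rw [norm_neg, he]) hs.neg (-s₀) (fun s => ?_)
    have h1 := h (-s)
    rw [neg_smul] at h1
    rw [smul_neg, h1]
    constructor <;> intro h <;> linarith

end FB75
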