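import Mathlib

/-!
# A contractible rotationally invariant set meets the axis
-/

open Metric Set Filter Topology

namespace FB75

private theorem axisMeet_basis {e : EuclideanSpace ℝ (Fin 3)} (he : ‖e‖ = 1) :
    ∃ b : OrthonormalBasis (Fin 3) ℝ (EuclideanSpace ℝ (Fin 3)), b 0 = e := by
  have hv : Orthonormal ℝ (({0} : Set (Fin 3)).restrict fun _ => e) := by
    constructor
    · intro i; exact he
    · intro i j hij
      exact absurd (Subsingleton.elim i j) hij
  obtain ⟨b, hb⟩ := hv.exists_orthonormalBasis_extension_of_card_eq (ι := Fin 3)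
    (v := fun _ => e) (s := {0}) (by simp)
  exact ⟨b, hb 0 rfl⟩

private theorem axisMeet_norm_sq (b : OrthonormalBasis (Fin 3) ℝ (EuclideanSpace ℝ (Fin 3)))
    (v : EuclideanSpace ℝ (Fin 3)) :
    ‖v‖ ^ 2 = inner ℝ (b 0) v ^ 2 + inner ℝ (b 1) v ^ 2 + inner ℝ (b 2) v ^ 2 := by
  rw [← b.sum_sq_norm_inner_right v, Fin.sum_univ_three]
  simp only [Real.norm_eq_abs, sq_abs]

private theorem axisMeet_circle {L : ℝ → ℂ} (hL : Continuous L) {r : ℝ}
    (h : ∀ θ : ℝ, Complex.exp (L θ) = r * Complex.exp (θ * Complex.I))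
    (hper : L (2 * Real.pi) = L 0) : False := by
  -- `L θ - i θ` takes values in a discrete set
  have h1 : ∀ θ : ℝ, ∃ n : ℤ, (L θ - θ * Complex.I - L 0).im = n * (2 * Real.pi) := by
    intro θ
    have e0 := h 0
    rw [Complex.ofReal_zero, zero_mul, Complex.exp_zero, mul_one] at e0
    have e1 : Complex.exp (L θ - θ * Complex.I) = Complex.exp (L 0) := by
      rw [Complex.exp_sub, h θ, e0, mul_div_assoc, div_self (Complex.exp_ne_zero _), mul_one]
    rw [Complex.exp_eq_exp_iff_exists_int] at e1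
    obtain ⟨n, hn⟩ := e1
    refine ⟨n, ?_⟩
    rw [hn]
    simp
  have hc : Continuous fun θ : ℝ => (L θ - θ * Complex.I - L 0).im := by fun_prop
  have hdt : DiscreteTopology ((AddSubgroup.zmultiples (2 * Real.pi) : AddSubgroup ℝ) : Set ℝ) :=
    NormedSpace.discreteTopology_zmultiples _
  have hconst := (isPreconnected_univ (α := ℝ)).constant_of_mapsTo
    (T := ((AddSubgroup.zmultiples (2 * Real.pi) : AddSubgroup ℝ) : Set ℝ))
    (f := fun θ : ℝ => (L θ - θ * Complex.I - L 0).im)
    (isDiscrete_iff_discreteTopology.mpr hdt) hc.continuousOn (by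
      intro θ _
      obtain ⟨n, hn⟩ := h1 θ
      exact AddSubgroup.mem_zmultiples_iff.mpr ⟨n, by
        change _ = (L θ - θ * Complex.I - L 0).im
        rw [hn]
        simp⟩) (mem_univ (2 * Real.pi)) (mem_univ 0)
  simp only [hper] at hconst
  have hpi := Real.pi_pos
  simp at hconst

theorem axis_meet {A : Set (EuclideanSpace ℝ (Fin 3))} [ContractibleSpace A]
    {p e : EuclideanSpace ℝ (Fin 3)} (he : ‖e‖ = 1)
    (hsym : ∀ x y, inner ℝ (x - p) e = inner ℝ (y - p) e → ‖x - p‖ = ‖y - p‖ →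
      (x ∈ A ↔ y ∈ A)) : ∃ s : ℝ, p + s • e ∈ A := by
  obtain ⟨b, hb⟩ := axisMeet_basis he
  by_contra hno
  push Not at hno
  have hon := b.orthonormal
  have h01 : inner ℝ (b 0) (b 1) = 0 := hon.2 (by decide)
  have h02 : inner ℝ (b 0) (b 2) = 0 := hon.2 (by decide)
  have h12 : inner ℝ (b 1) (b 2) = 0 := hon.2 (by decide)
  have n1 : inner ℝ (b 1) (b 1) = (1 : ℝ) := by
    rw [real_inner_self_eq_norm_sq, hon.1 1]; norm_num
  have n2 : inner ℝ (b 2) (b 2) = (1 : ℝ) := by
    rw [real_inner_self_eq_norm_sq, hon.1 2]; norm_num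
  have n0 : inner ℝ (b 0) (b 0) = (1 : ℝ) := by
    rw [real_inner_self_eq_norm_sq, hon.1 0]; norm_num
  set Th : EuclideanSpace ℝ (Fin 3) → ℂ := fun x =>
    ((inner ℝ (b 1) (x - p) : ℝ) : ℂ) + ((inner ℝ (b 2) (x - p) : ℝ) : ℂ) * Complex.I with hTh
  have hThc : Continuous Th := by
    simp only [hTh]
    fun_prop
  have hTh0 : ∀ x ∈ A, Th x ≠ 0 := by
    intro x hx h0
    have e1 : inner ℝ (b 1) (x - p) = (0 : ℝ) := by
      have := congrArg Complex.re h0
      simpa [hTh] using this
    have e2 : inner ℝ (b 2) (x - p) = (0 : ℝ) := by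
      have := congrArg Complex.im h0
      simpa [hTh] using this
    have e3 : x = p + (inner ℝ (b 0) (x - p) : ℝ) • e := by
      have := b.sum_repr' (x - p)
      rw [Fin.sum_univ_three, e1, e2, zero_smul, zero_smul, add_zero, add_zero, hb] at this
      rw [← hb] at this ⊢
      rw [this]; abel
    exact hno _ (e3 ▸ hx)
  -- the contraction
  obtain ⟨y, ⟨F⟩⟩ := id_nullhomotopic A
  obtain ⟨x₀⟩ : Nonempty A := ⟨y⟩
  set z : ℝ := inner ℝ (b 0) ((x₀ : EuclideanSpace ℝ (Fin 3)) - p) with hz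
  set a₁ : ℝ := inner ℝ (b 1) ((x₀ : EuclideanSpace ℝ (Fin 3)) - p) with ha₁
  set a₂ : ℝ := inner ℝ (b 2) ((x₀ : EuclideanSpace ℝ (Fin 3)) - p) with ha₂
  set r : ℝ := √(a₁ ^ 2 + a₂ ^ 2) with hr
  have hr2 : r ^ 2 = a₁ ^ 2 + a₂ ^ 2 := Real.sq_sqrt (by positivity)
  set c : ℝ → EuclideanSpace ℝ (Fin 3) := fun θ =>
    p + (z • b 0 + (r * Real.cos θ) • b 1 + (r * Real.sin θ) • b 2) with hc
  have hcp : ∀ θ, c θ - p = z • b 0 + (r * Real.cos θ) • b 1 + (r * Real.sin θ) • b 2 := by
    intro θ; simp only [hc]; abel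
  have hi0 : ∀ θ, inner ℝ (b 0) (c θ - p) = z := by
    intro θ
    rw [hcp, inner_add_right, inner_add_right, real_inner_smul_right, real_inner_smul_right,
      real_inner_smul_right, n0, h01, h02]
    ring
  have hi1 : ∀ θ, inner ℝ (b 1) (c θ - p) = r * Real.cos θ := by
    intro θ
    rw [hcp, inner_add_right, inner_add_right, real_inner_smul_right, real_inner_smul_right,
      real_inner_smul_right, n1, real_inner_comm, h01, h12]
    ring
  have hi2 : ∀ θ, inner ℝ (b 2) (c θ - p) = r * Real.sin θ := by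
    intro θ
    rw [hcp, inner_add_right, inner_add_right, real_inner_smul_right, real_inner_smul_right,
      real_inner_smul_right, n2, real_inner_comm, h02, real_inner_comm, h12]
    ring
  have hcA : ∀ θ, c θ ∈ A := by
    intro θ
    refine (hsym x₀ (c θ) ?_ ?_).1 x₀.2
    · rw [← hb, real_inner_comm, ← hz, real_inner_comm, hi0]
    · apply (pow_left_inj₀ (norm_nonneg _) (norm_nonneg _) two_ne_zero).1
      rw [axisMeet_norm_sq b, axisMeet_norm_sq b, hi0, hi1, hi2, ← hz, ← ha₁, ← ha₂]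
      have := Real.cos_sq_add_sin_sq θ
      have e : z ^ 2 + (r * Real.cos θ) ^ 2 + (r * Real.sin θ) ^ 2 =
          z ^ 2 + r ^ 2 * (Real.cos θ ^ 2 + Real.sin θ ^ 2) := by ring
      rw [e, this, mul_one, hr2]
      ring
  have hcc : Continuous c := by
    simp only [hc]
    fun_prop
  set cA : ℝ → A := fun θ => ⟨c θ, hcA θ⟩ with hcAdef
  have hcAc : Continuous cA := hcc.subtype_mk _
  have hcper : cA (2 * Real.pi) = cA 0 := by
    apply Subtype.ext
    simp only [hcAdef, hc, Real.cos_two_pi, Real.sin_two_pi, Real.cos_zero, Real.sin_zero]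
  -- the homotopy from the constant loop
  let H : C(unitInterval × ℝ, {z : ℂ // z ≠ 0}) :=
    ⟨fun q => ⟨Th (F (unitInterval.symm q.1, cA q.2)), hTh0 _ (F _).2⟩, by
      refine Continuous.subtype_mk ?_ _
      refine hThc.comp (continuous_subtype_val.comp (F.continuous.comp ?_))
      exact (unitInterval.continuous_symm.comp continuous_fst).prodMk
        (hcAc.comp continuous_snd)⟩
  have hy0 : Th y ≠ 0 := hTh0 _ y.2
  let f : C(ℝ, ℂ) := ⟨fun _ => Complex.log (Th y), continuous_const⟩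
  have hH0 : ∀ θ : ℝ, H (0, θ) = (⟨Complex.exp (f θ), (f θ).exp_ne_zero⟩ : {z : ℂ // z ≠ 0}) := by
    intro θ
    apply Subtype.ext
    change Th (F (unitInterval.symm 0, cA θ)) = Complex.exp (Complex.log (Th y))
    rw [unitInterval.symm_zero, Complex.exp_log hy0]
    have : F (1, cA θ) = y := by
      rw [F.apply_one]; rfl
    rw [this]
  set L := Complex.isCoveringMap_exp.liftHomotopy H f hH0 with hLdef
  have hL : ∀ (t : unitInterval) (θ : ℝ), Complex.exp (L (t, θ)) =
      Th (F (unitInterval.symm t, cA θ)) := by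
    intro t θ
    have := congr_fun (Complex.isCoveringMap_exp.liftHomotopy_lifts H f hH0) (t, θ)
    exact congrArg Subtype.val this
  have hL0 : ∀ θ : ℝ, L (0, θ) = f θ := Complex.isCoveringMap_exp.liftHomotopy_zero H f hH0
  -- periodicity
  have hper : L (1, 2 * Real.pi) = L (1, 0) := by
    have hcomp : (fun t : unitInterval => L (t, 2 * Real.pi)) =
        (fun t : unitInterval => L (t, 0)) := by
      refine Complex.isCoveringMap_exp.eq_of_comp_eq ?_ ?_ ?_ 0 ?_
      · exact L.continuous.comp (Continuous.prodMk_left _)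
      · exact L.continuous.comp (Continuous.prodMk_left _)
      · funext t
        apply Subtype.ext
        change Complex.exp (L (t, 2 * Real.pi)) = Complex.exp (L (t, 0))
        rw [hL, hL, hcper]
      · change L (0, 2 * Real.pi) = L (0, 0)
        rw [hL0, hL0]; rfl
    exact congr_fun hcomp 1
  refine axisMeet_circle (L := fun θ => L (1, θ)) (r := r)
    (L.continuous.comp (Continuous.prodMk_right _)) ?_ hper
  intro θ
  rw [hL, unitInterval.symm_one]
  have : F (0, cA θ) = cA θ := by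
    rw [F.apply_zero]; rfl
  rw [this]
  change ((inner ℝ (b 1) (c θ - p) : ℝ) : ℂ) + ((inner ℝ (b 2) (c θ - p) : ℝ) : ℂ) * Complex.I = _
  rw [hi1, hi2, Complex.exp_mul_I]
  push_cast
  ring

end FB75
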