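import Pool.Agent.FB75.Hopf

/-!
# Comparison principles, local Hopf lemma, reflections
-/

open MeasureTheory Metric Set Filter Topology InnerProductSpace Laplacian
open scoped ContDiff

namespace FB75

theorem laplacian_norm_sq (y : E3) : Δ (fun x : E3 => ‖x‖ ^ 2) y = 6 := by
  have hcd : ContDiff ℝ 2 (fun x : E3 => ‖x‖ ^ 2) := contDiff_norm_sq ℝ
  rw [laplacian_eq_sum hcd.contDiffAt]
  have h1 : ∀ i, (fun y => fderiv ℝ (fun x : E3 => ‖x‖ ^ 2) y (ei i)) =
      fun y => 2 * innerSL ℝ (ei i) y := by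
    intro i; funext y
    rw [(hasStrictFDerivAt_norm_sq y).hasFDerivAt.fderiv]
    simp [real_inner_comm]
  have h2 : ∀ i, fderiv ℝ (fun y => 2 * innerSL ℝ (ei i) y) y (ei i) = 2 := by
    intro i
    have h3 : HasFDerivAt (fun y => 2 * innerSL ℝ (ei i) y) ((2 : ℝ) • innerSL ℝ (ei i)) y :=
      (innerSL ℝ (ei i)).hasFDerivAt.const_mul 2
    rw [h3.fderiv]
    have h5 : inner ℝ (ei i) (ei i) = (1 : ℝ) := by
      rw [real_inner_self_eq_norm_sq, ei, (EuclideanSpace.basisFun (Fin 3) ℝ).norm_eq_one]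
      norm_num
    simp only [smul_apply, innerSL_apply_apply, smul_eq_mul, h5]
    norm_num
  simp only [h1, h2]
  simp
  norm_num

theorem min_principle {C : Set E3} (hC : IsCompact C) {F : E3 → ℝ} (hF : ContinuousOn F C)
    (h : ∀ x ∈ C, F x < 0 → C ∈ 𝓝 x ∧ ContDiffAt ℝ 2 F x ∧ Δ F x ≤ 0) :
    ∀ x ∈ C, 0 ≤ F x := by
  intro x₀ hx₀
  by_contra hneg
  push Not at hneg
  obtain ⟨M, hM⟩ := hC.isBounded.subset_closedBall (0 : E3)
  have hM' : ∀ x ∈ C, ‖x‖ ^ 2 ≤ M ^ 2 := by
    intro x hx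
    have := hM hx
    rw [mem_closedBall_zero_iff] at this
    exact pow_le_pow_left₀ (norm_nonneg _) this 2
  set ε : ℝ := -F x₀ / (2 * (M ^ 2 + 1)) with hε
  have hε0 : 0 < ε := by
    rw [hε]; apply div_pos <;> nlinarith [sq_nonneg M]
  have hε1 : ε * M ^ 2 < -F x₀ := by
    have h1 : ε * (2 * (M ^ 2 + 1)) = -F x₀ := by
      rw [hε]; field_simp
    nlinarith [sq_nonneg M]
  let G : E3 → ℝ := fun x => F x + ε * (M ^ 2 - ‖x‖ ^ 2)
  have hGc : ContinuousOn G C := by
    refine hF.add (Continuous.continuousOn ?_)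
    fun_prop
  obtain ⟨x₁, hx₁, hmin⟩ := hC.exists_isMinOn ⟨x₀, hx₀⟩ hGc
  have h1 : G x₁ ≤ G x₀ := hmin hx₀
  have h2 : G x₀ < 0 := by
    have := mul_nonneg hε0.le (sq_nonneg ‖x₀‖)
    simp only [G]
    nlinarith
  have h3 : F x₁ < 0 := by
    have h4 := mul_nonneg hε0.le (sub_nonneg.2 (hM' x₁ hx₁))
    have : G x₁ < 0 := h1.trans_lt h2
    simp only [G] at this
    linarith
  obtain ⟨hn, hcd, hlap⟩ := h x₁ hx₁ h3
  have hloc : IsLocalMin G x₁ := by
    filter_upwards [hn] with v hv using hmin hv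
  have hcn : ContDiff ℝ 2 (fun x : E3 => ‖x‖ ^ 2) := contDiff_norm_sq ℝ
  have hG : G = F + (fun _ => ε * M ^ 2) - ε • (fun x : E3 => ‖x‖ ^ 2) := by
    funext v; simp [G]; ring
  have hcd1 : ContDiffAt ℝ 2 (fun _ : E3 => ε * M ^ 2) x₁ := contDiffAt_const
  have hcd2 : ContDiffAt ℝ 2 (ε • (fun x : E3 => ‖x‖ ^ 2)) x₁ := hcn.contDiffAt.const_smul ε
  have hcd3 : ContDiffAt ℝ 2 (F + fun _ : E3 => ε * M ^ 2) x₁ := hcd.add hcd1
  have hGcd : ContDiffAt ℝ 2 G x₁ := by
    rw [hG]; exact hcd3.sub hcd2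
  have hlapG : Δ G x₁ = Δ F x₁ - 6 * ε := by
    rw [hG, hcd3.laplacian_sub hcd2, hcd.laplacian_add hcd1,
      laplacian_smul ε hcn.contDiffAt, laplacian_norm_sq]
    simp
    ring
  have := laplacian_nonneg_of_isLocalMin hGcd hloc
  rw [hlapG] at this
  linarith

theorem strong_min {w : E3 → ℝ} {x : E3} {R : ℝ} (hw : HarmonicOnNhd w (ball x R))
    (h0 : ∀ v ∈ ball x R, 0 ≤ w v) (hx : w x = 0) : ∀ v ∈ ball x (R / 4), w v = 0 := by
  intro v hv
  have hR : 0 < R := by
    have := pos_of_mem_ball hv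
    linarith
  rw [mem_ball] at hv
  have hvR : v ∈ ball x R := by rw [mem_ball]; linarith
  have h := harnack (h := w) (z := x) (x := v) (R := R) (t := R / 2) (s := R / 4) hw h0
    (by linarith) (by linarith) (by linarith) (by linarith)
  rw [hx] at h
  have e1 : R / 4 / (R / 2) = 1 / 2 := by field_simp; norm_num
  have e2 : (dist v x + R / 4) / (R / 2) < 1 := by rw [div_lt_one (by linarith)]; linarith
  have e3 : 0 ≤ (dist v x + R / 4) / (R / 2) := by positivity
  have e4 : 0 < (1 - ((dist v x + R / 4) / (R / 2)) ^ 2) ^ 2 := by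
    have : 0 < 1 - ((dist v x + R / 4) / (R / 2)) ^ 2 := by nlinarith
    positivity
  rw [e1] at h
  have e5 := h0 v hvR
  by_contra hne
  have e6 : 0 < w v := lt_of_le_of_ne e5 (Ne.symm hne)
  have : 0 < (1 / 2 : ℝ) ^ 3 * (1 - ((dist v x + R / 4) / (R / 2)) ^ 2) ^ 2 * w v := by positivity
  linarith

theorem strong_min_connected {w : E3 → ℝ} {U : Set E3} (hU : IsOpen U) (hc : IsPreconnected U)
    (hw : HarmonicOnNhd w U) (h0 : ∀ v ∈ U, 0 ≤ w v) {x : E3} (hx : x ∈ U) (hwx : w x = 0) :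
    ∀ v ∈ U, w v = 0 := by
  have hA : IsOpen {v | v ∈ U ∧ w v = 0} := by
    rw [isOpen_iff_mem_nhds]
    rintro v ⟨hv, hv0⟩
    obtain ⟨r, hr, hrU⟩ := Metric.isOpen_iff.1 hU v hv
    filter_upwards [ball_mem_nhds v (show 0 < r / 4 by linarith)] with z hz
    exact ⟨hrU (ball_subset_ball (by linarith) hz),
      strong_min (hw.mono hrU) (fun y hy => h0 y (hrU hy)) hv0 z hz⟩
  have hB : IsOpen {v | v ∈ U ∧ w v ≠ 0} := by
    have : {v | v ∈ U ∧ w v ≠ 0} = U ∩ w ⁻¹' {0}ᶜ := by ext v; simp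
    rw [this]
    exact hw.continuousOn.isOpen_inter_preimage hU isOpen_compl_singleton
  intro v hv
  by_contra hne
  obtain ⟨z, -, hz1, hz2⟩ := hc _ _ hA hB (fun y hy => by
    by_cases h : w y = 0
    · exact Or.inl ⟨hy, h⟩
    · exact Or.inr ⟨hy, h⟩) ⟨x, hx, hx, hwx⟩ ⟨v, hv, hv, hne⟩
  exact hz2.2 hz1.2

theorem harnack_quarter_local {u : E3 → ℝ} {x : E3} {d : ℝ} (hd : 0 < d)
    (hn : ∀ v ∈ ball x d, 0 ≤ u v) (hh : HarmonicOnNhd u (ball x d)) {z : E3} (hz : dist z x = d / 4) :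
    256 / 78125 * u x ≤ u z := by
  have hsub : ball z (3 * d / 4) ⊆ ball x d := ball_subset_ball' (by rw [hz]; linarith)
  have h := harnack (h := u) (z := z) (x := x) (R := 3 * d / 4) (t := 5 * d / 8) (s := d / 8)
    (hh.mono hsub) (fun v hv => hn v (hsub hv)) (by linarith) (by linarith) (by linarith)
    (by rw [dist_comm, hz]; linarith)
  rw [dist_comm x z, hz] at h
  have e1 : d / 8 / (5 * d / 8) = 1 / 5 := by field_simp
  have e2 : (d / 4 + d / 8) / (5 * d / 8) = 3 / 5 := by field_simp; norm_num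
  rw [e1, e2] at h
  norm_num at h
  linarith

theorem hopf_barrier_local {u : E3 → ℝ} {x : E3} {d : ℝ}
    (hd : 0 < d) (hu : ContinuousOn u (closedBall x d)) (hn : ∀ v ∈ closedBall x d, 0 ≤ u v) (hh : HarmonicOnNhd u (ball x d)) {z : E3} (h1 : d / 4 ≤ dist z x)
    (h2 : dist z x ≤ d) :
    256 / 78125 * u x * (Real.exp (-25 * (dist z x / d) ^ 2) - Real.exp (-25)) ≤ u z := by
  set A : ℝ := 256 / 78125 * u x with hA
  have hA0 : 0 ≤ A := by rw [hA]; exact mul_nonneg (by norm_num) (hn x (mem_closedBall_self hd.le))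
  rcases hA0.eq_or_lt with hA0 | hA0
  · rw [← hA0, zero_mul]; exact hn z h2
  set β : ℝ := 25 / d ^ 2 with hβ
  have hβ0 : 0 < β := by rw [hβ]; positivity
  have hgau : ∀ y, gau x β y = Real.exp (-25 * (dist y x / d) ^ 2) := by
    intro y
    rw [gau, dist_eq_norm, hβ]
    congr 1
    field_simp
  let W : E3 → ℝ := fun y => u y - A * (gau x β y - Real.exp (-25))
  have hWc : ContinuousOn W (closedBall x d) := by
    have h3 := (gau_contDiff x β).continuous
    exact hu.sub (continuous_const.mul (h3.sub continuous_const)).continuousOn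
  have hcpt : IsCompact (closedBall x d ∩ {y | d / 4 ≤ dist y x}) :=
    (isCompact_closedBall x d).inter_right (isClosed_le continuous_const (by fun_prop))
  obtain ⟨y, ⟨hy1, hy2⟩, hymin⟩ := hcpt.exists_isMinOn ⟨z, mem_closedBall.2 h2, h1⟩ (hWc.mono inter_subset_left)
  rw [mem_closedBall] at hy1
  rw [mem_ofPred_eq] at hy2
  have hWz : W y ≤ W z := hymin ⟨mem_closedBall.2 h2, h1⟩
  suffices hW : 0 ≤ W y by
    have := hW.trans hWz
    simp only [W, hgau z] at this
    linarith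
  by_contra hneg
  push Not at hneg
  -- `y` is interior
  have hyd : dist y x ≠ d := by
    intro h
    have : W y = u y := by
      simp only [W, hgau y, h, div_self hd.ne']
      norm_num
    rw [this] at hneg
    exact absurd (hn y (mem_closedBall.2 hy1)) (not_le.2 hneg)
  have hyq : dist y x ≠ d / 4 := by
    intro h
    have h3 := harnack_quarter_local hd (fun v hv => hn v (ball_subset_closedBall hv)) hh h
    have h4 : gau x β y - Real.exp (-25) ≤ 1 := by
      have : gau x β y ≤ 1 := by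
        rw [gau]
        refine Real.exp_le_one_iff.2 ?_
        nlinarith [sq_nonneg ‖y - x‖]
      linarith [Real.exp_pos (-25)]
    have h5 : A * (gau x β y - Real.exp (-25)) ≤ A * 1 := mul_le_mul_of_nonneg_left h4 hA0.le
    simp only [W] at hneg
    linarith
  have hy1' : dist y x < d := lt_of_le_of_ne hy1 hyd
  have hy2' : d / 4 < dist y x := lt_of_le_of_ne hy2 (Ne.symm hyq)
  have hloc : IsLocalMin W y := by
    have hcd : Continuous fun v : E3 => dist v x := by fun_prop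
    have ho : IsOpen {v : E3 | dist v x < d ∧ d / 4 < dist v x} :=
      (isOpen_lt hcd continuous_const).and (isOpen_lt continuous_const hcd)
    filter_upwards [ho.mem_nhds (show y ∈ {v : E3 | dist v x < d ∧ d / 4 < dist v x} from ⟨hy1', hy2'⟩)]
      with v hv
    exact hymin ⟨mem_closedBall.2 hv.1.le, hv.2.le⟩
  have hharm : HarmonicAt u y := hh y (mem_ball.2 hy1')
  have hb0 : ContDiffAt ℝ 2 (gau x β - fun _ => Real.exp (-25)) y :=
    ((gau_contDiff x β).sub contDiff_const).contDiffAt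
  have hb : ContDiffAt ℝ 2 (A • (gau x β - fun _ => Real.exp (-25))) y := hb0.const_smul A
  have hWeq : W = u - A • (gau x β - fun _ => Real.exp (-25)) := by
    funext v; simp [W]
  have hlapW : Δ W y = - (A * ((4 * β ^ 2 * ‖y - x‖ ^ 2 - 6 * β) * gau x β y)) := by
    rw [hWeq, hharm.1.laplacian_sub hb, hharm.2.self_of_nhds,
      laplacian_smul A hb0,
      (gau_contDiff x β).contDiffAt.laplacian_sub contDiffAt_const, gau_laplacian]
    simp
  have hWcd : ContDiffAt ℝ 2 W y := by rw [hWeq]; exact hharm.1.sub hb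
  have hnn := laplacian_nonneg_of_isLocalMin hWcd hloc
  rw [hlapW] at hnn
  have hpos : 0 < 4 * β ^ 2 * ‖y - x‖ ^ 2 - 6 * β := by
    have h6 : (d / 4) ^ 2 < ‖y - x‖ ^ 2 := by
      rw [← dist_eq_norm]
      exact pow_lt_pow_left₀ hy2' (by positivity) (by norm_num)
    have h7 : β * d ^ 2 = 25 := by rw [hβ]; field_simp
    have h8 : 0 < 4 * β * (d / 4) ^ 2 - 6 := by nlinarith
    have h9 : 4 * β * (d / 4) ^ 2 < 4 * β * ‖y - x‖ ^ 2 := by
      exact mul_lt_mul_of_pos_left h6 (by positivity)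
    nlinarith
  have hg : 0 < gau x β y := Real.exp_pos _
  have : 0 < A * ((4 * β ^ 2 * ‖y - x‖ ^ 2 - 6 * β) * gau x β y) := by positivity
  linarith

/-- Linear growth from a boundary point of a ball. -/
theorem hopf_local {u : E3 → ℝ} {x y : E3} {d s : ℝ} (hd : 0 < d)
    (hh : HarmonicOnNhd u (ball x d)) (hu : ContinuousOn u (closedBall x d))
    (hn : ∀ v ∈ closedBall x d, 0 ≤ u v) (hy : dist y x = d) (hs : 0 < s)
    (hsd : s ≤ 3 * d / 4) :
    256 / 78125 * (25 * Real.exp (-25)) * (s / d) * u x ≤ u (y + (s / d) • (x - y)) := by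
  set z : E3 := y + (s / d) • (x - y) with hz
  have hzx : dist z x = d - s := by
    have : z - x = (1 - s / d) • (y - x) := by
      rw [hz]; module
    rw [dist_eq_norm, this, norm_smul, ← dist_eq_norm y x, hy, Real.norm_of_nonneg]
    · field_simp
    · have : s / d ≤ 3 / 4 := by rw [div_le_iff₀ hd]; linarith
      linarith
  have h := hopf_barrier_local hd hu hn hh (z := z) (by rw [hzx]; linarith) (by rw [hzx]; linarith)
  rw [hzx] at h
  refine le_trans ?_ h
  have h1 : Real.exp (-25) * (25 * (s / d)) ≤ Real.exp (-25 * ((d - s) / d) ^ 2) - Real.exp (-25) := by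
    have e1 : -25 * ((d - s) / d) ^ 2 = -25 + (50 * (s / d) - 25 * (s / d) ^ 2) := by
      field_simp; ring
    rw [e1, Real.exp_add]
    have e2 := Real.add_one_le_exp (50 * (s / d) - 25 * (s / d) ^ 2)
    have e3 : 25 * (s / d) ≤ 50 * (s / d) - 25 * (s / d) ^ 2 := by
      have h4 : s / d ≤ 1 := by rw [div_le_iff₀ hd]; linarith
      have h5 : 0 < s / d := by positivity
      nlinarith
    have e4 := Real.exp_pos (-25)
    nlinarith
  have h2 : 0 ≤ 256 / 78125 * u x := mul_nonneg (by norm_num) (hn x (mem_closedBall_self hd.le))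
  calc 256 / 78125 * (25 * Real.exp (-25)) * (s / d) * u x
      = 256 / 78125 * u x * (Real.exp (-25) * (25 * (s / d))) := by ring
    _ ≤ _ := mul_le_mul_of_nonneg_left h1 h2

theorem laplacian_comp_isometry (L : E3 ≃ₗᵢ[ℝ] E3) (b : E3) {f : E3 → ℝ} {x : E3}
    (h : ContDiffAt ℝ 2 f (L x + b)) : Δ (fun y => f (L y + b)) x = Δ f (L x + b) := by
  set v := EuclideanSpace.basisFun (Fin 3) ℝ with hv
  rw [laplacian_eq_iteratedFDeriv_orthonormalBasis _ v,
    laplacian_eq_iteratedFDeriv_orthonormalBasis _ (v.map L)]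
  refine Finset.sum_congr rfl fun i _ => ?_
  rw [iteratedFDeriv_two_apply, iteratedFDeriv_two_apply]
  set L' : E3 →L[ℝ] E3 := (L.toContinuousLinearEquiv : E3 →L[ℝ] E3) with hL'
  have hT : ∀ y, HasFDerivAt (fun y => L y + b) L' y := by
    intro y
    exact (L.toContinuousLinearEquiv.hasFDerivAt (x := y)).add_const b
  have hTc : Continuous fun y => L y + b := by fun_prop
  have hev : ∀ᶠ y in 𝓝 x, fderiv ℝ (fun y => f (L y + b)) y = (fderiv ℝ f (L y + b)).comp L' := by
    have h1 := hTc.continuousAt.eventually (h.eventually (by simp))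
    filter_upwards [h1] with y hy
    exact ((hy.differentiableAt (by norm_num)).hasFDerivAt.comp y (hT y)).fderiv
  have hd : DifferentiableAt ℝ (fderiv ℝ f) (L x + b) :=
    (h.fderiv_right (m := 1) (by norm_num)).differentiableAt (by norm_num)
  have h2 : HasFDerivAt (fun y => (fderiv ℝ f (L y + b)).comp L')
      (((ContinuousLinearMap.compL ℝ E3 E3 ℝ).flip L').comp
        ((fderiv ℝ (fderiv ℝ f) (L x + b)).comp L')) x := by
    have h3 := hd.hasFDerivAt.comp x (hT x)
    exact ((ContinuousLinearMap.compL ℝ E3 E3 ℝ).flip L').hasFDerivAt.comp x h3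
  have h4 : fderiv ℝ (fderiv ℝ fun y => f (L y + b)) x =
      ((ContinuousLinearMap.compL ℝ E3 E3 ℝ).flip L').comp
        ((fderiv ℝ (fderiv ℝ f) (L x + b)).comp L') := by
    have h5 : (fderiv ℝ fun y => f (L y + b)) =ᶠ[𝓝 x] fun y => (fderiv ℝ f (L y + b)).comp L' := hev
    rw [h5.fderiv_eq]
    exact h2.fderiv
  rw [h4]
  simp [hL']

theorem harmonicAt_comp_isometry (L : E3 ≃ₗᵢ[ℝ] E3) (b : E3) {f : E3 → ℝ} {x : E3}
    (h : HarmonicAt f (L x + b)) : HarmonicAt (fun y => f (L y + b)) x := by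
  have hTc : Continuous fun y => L y + b := by fun_prop
  refine ⟨?_, ?_⟩
  · have h1 : ContDiff ℝ 2 fun y => L y + b :=
      (L.toContinuousLinearEquiv.contDiff).add contDiff_const
    exact h.1.comp x h1.contDiffAt
  · have h1 := hTc.continuousAt.eventually (h.1.eventually (by simp))
    have h2 := hTc.continuousAt.eventually h.2
    filter_upwards [h1, h2] with y hy1 hy2
    rw [laplacian_comp_isometry L b hy1, hy2]
    rfl

/-- Reflection across the plane `⟪x, e⟫ = t` (for a unit vector `e`). -/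
noncomputable def rf (e : E3) (t : ℝ) (x : E3) : E3 := x + (2 * (t - inner ℝ x e)) • e

theorem continuous_rf (e : E3) : Continuous fun q : ℝ × E3 => rf e q.1 q.2 := by
  unfold rf; fun_prop

theorem inner_rf {e : E3} (he : ‖e‖ = 1) (t : ℝ) (x : E3) :
    inner ℝ (rf e t x) e = 2 * t - inner ℝ x e := by
  unfold rf
  rw [inner_add_left, inner_smul_left, real_inner_self_eq_norm_sq, he]
  simp
  ring

theorem rf_rf {e : E3} (he : ‖e‖ = 1) (t : ℝ) (x : E3) : rf e t (rf e t x) = x := by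
  have h := inner_rf he t x
  rw [rf, h, rf]
  module

theorem rf_of_inner_eq {e : E3} {t : ℝ} {x : E3} (h : inner ℝ x e = t) : rf e t x = x := by
  rw [rf, h]; simp

/-- The linear part of the reflection. -/
theorem rf_eq {e : E3} (he : ‖e‖ = 1) (t : ℝ) (x : E3) :
    rf e t x = (ℝ ∙ e)ᗮ.reflection x + (2 * t) • e := by
  rw [Submodule.reflection_orthogonal_apply, Submodule.reflection_singleton_apply, he, rf,
    real_inner_comm x e]
  have h1 : (((1 : ℝ) : ℝ) : ℝ) ^ 2 = 1 := by norm_num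
  have h2 : (inner ℝ x e : ℝ) / (((1 : ℝ) : ℝ) ^ 2) = inner ℝ x e := by rw [h1, div_one]
  rw [show ((RCLike.ofReal (1 : ℝ) : ℝ)) = 1 from rfl, h2]
  module

theorem dist_rf {e : E3} (he : ‖e‖ = 1) (t : ℝ) (x y : E3) :
    dist (rf e t x) (rf e t y) = dist x y := by
  rw [rf_eq he, rf_eq he, dist_add_right, LinearIsometryEquiv.dist_map]

theorem harmonicAt_rf {e : E3} (he : ‖e‖ = 1) (t : ℝ) {f : E3 → ℝ} {x : E3}
    (h : HarmonicAt f (rf e t x)) : HarmonicAt (fun y => f (rf e t y)) x := by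
  have h1 : (fun y => f (rf e t y)) = fun y => f ((ℝ ∙ e)ᗮ.reflection y + (2 * t) • e) := by
    funext y; rw [rf_eq he]
  rw [h1]
  rw [rf_eq he] at h
  exact harmonicAt_comp_isometry _ _ h

end FB75
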