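import Pool.Agent.FB75.MovingP
import Pool.Agent.FB75.Cone

/-!
# The zero phase of an invariant solution is not contained in a wedge
-/

open MeasureTheory Metric Set Filter Topology InnerProductSpace Laplacian
open scoped ContDiff

namespace FB75

theorem exists_close_P {e f : E3} (he : ‖e‖ = 1) (hf : ‖f‖ = 1) (hef : inner ℝ e f = 0)
    {P : E3 →L[ℝ] E3} (hPe : P e = e) (hPf : P f = f) {r : ℝ} (hr : 0 < r) :
    ∃ e' : E3, ‖e'‖ = 1 ∧ P e' = e' ∧ ‖e' - e‖ ≤ 2 * r ∧ 0 < inner ℝ e e' ∧ inner ℝ e e' < 1 := by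
  set v : E3 := e + r • f with hv
  have hvn : ‖v‖ ^ 2 = 1 + r ^ 2 := by
    rw [hv, norm_add_sq_real, inner_smul_right, hef, norm_smul, he, hf, Real.norm_eq_abs,
      mul_one, sq_abs]
    ring
  have hv1 : 1 < ‖v‖ := by
    have h1 : (1 : ℝ) ^ 2 < ‖v‖ ^ 2 := by rw [hvn]; nlinarith [sq_nonneg r]
    exact lt_of_pow_lt_pow_left₀ 2 (norm_nonneg _) h1
  have hv0 : v ≠ 0 := by
    intro h
    rw [h, norm_zero] at hv1
    linarith
  have hin : inner ℝ e (‖v‖⁻¹ • v) = ‖v‖⁻¹ := by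
    rw [inner_smul_right, hv, inner_add_right, inner_smul_right, hef, real_inner_self_eq_norm_sq,
      he]
    simp
  refine ⟨‖v‖⁻¹ • v, ?_, ?_, ?_, ?_, ?_⟩
  · rw [norm_smul, norm_inv, norm_norm, inv_mul_cancel₀ (norm_ne_zero_iff.2 hv0)]
  · rw [map_smul, hv, map_add, map_smul, hPe, hPf]
  · refine (normalize_close he hv0).trans ?_
    have : v - e = r • f := by rw [hv]; abel
    rw [this, norm_smul, hf, Real.norm_of_nonneg hr.le, mul_one]
  · rw [hin]; exact inv_pos.2 (by linarith)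
  · rw [hin]; exact inv_lt_one_of_one_lt₀ hv1

theorem no_wedge_aux {u : E3 → ℝ} (hu : IsEntireSolution u) (hΩ : IsPreconnected {x | 0 < u x})
    {P : E3 →L[ℝ] E3} (hP : InvProj u P) (hunb : ∀ R : ℝ, ∃ p, u p = 0 ∧ R < ‖P p‖)
    {e f : E3} (he : ‖e‖ = 1) (hPe : P e = e) (hf : ‖f‖ = 1) (hPf : P f = f)
    (hef : inner ℝ e f = 0) {δ M : ℝ}
    (hδ : 0 < δ) (hδ1 : δ ≤ 1) (hcone : ∀ x, u x = 0 → δ * ‖P x‖ - M ≤ inner ℝ x e) : False := by
  obtain ⟨p₀, hp₀, -⟩ := hunb 0
  set p : E3 := P p₀ with hpdef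
  have hp : u p = 0 := by rw [hpdef, hP.inv, hp₀]
  have hPp : P p = p := hP.idem p₀
  -- cone condition for nearby directions
  have hcone' : ∀ e' : E3, P e' = e' → ‖e' - e‖ ≤ δ / 2 → ∀ x, u x = 0 →
      δ / 2 * ‖P x‖ - M ≤ inner ℝ x e' := by
    intro e' hPe' he' x hx
    have h1 := hcone x hx
    have h2 : inner ℝ x e' = inner ℝ x e + inner ℝ (P x) (e' - e) := by
      rw [hP.symm, map_sub, hPe', hPe, inner_sub_right]; ring
    have h3 := (abs_le.1 (abs_real_inner_le_norm (P x) (e' - e))).1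
    have h4 : ‖P x‖ * ‖e' - e‖ ≤ ‖P x‖ * (δ / 2) := mul_le_mul_of_nonneg_left he' (norm_nonneg _)
    rw [h2]
    linarith
  have hmov : ∀ e' : E3, ‖e'‖ = 1 → P e' = e' → ‖e' - e‖ ≤ δ / 2 → ∀ (x : E3) (s : ℝ), 0 ≤ s →
      u (x + s • e') ≤ u x := fun e' h1 h3 h2 =>
    moving_P hu hΩ hP hunb h1 h3 (half_pos hδ) (hcone' e' h3 h2)
  -- balls in the zero phase
  have hball : ∀ R : ℝ, 0 < R → ∀ x ∈ closedBall (p + R • e) (δ / 4 * R), u x = 0 := by
    intro R hR x₀ hx₀
    rw [← hP.inv x₀]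
    have hx : P x₀ ∈ closedBall (p + R • e) (δ / 4 * R) := by
      rw [mem_closedBall, dist_eq_norm] at hx₀ ⊢
      have h1 : P x₀ - (p + R • e) = P (x₀ - (p + R • e)) := by
        rw [map_sub, map_add, map_smul, hPe, hPp]
      rw [h1]
      exact (hP.norm_le _).trans hx₀
    have hPx : P (P x₀) = P x₀ := hP.idem x₀
    set x : E3 := P x₀ with hxdef
    set v : E3 := R⁻¹ • (x - p) with hv
    have hPv : P v = v := by rw [hv, map_smul, map_sub, hPx, hPp]
    have hve : ‖v - e‖ ≤ δ / 4 := by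
      have h1 : v - e = R⁻¹ • (x - (p + R • e)) := by
        rw [hv, ← sub_sub, smul_sub R⁻¹ (x - p), smul_smul, inv_mul_cancel₀ hR.ne', one_smul]
      rw [h1, norm_smul, norm_inv, Real.norm_of_nonneg hR.le, inv_mul_le_iff₀ hR, ← dist_eq_norm]
      rw [mem_closedBall] at hx
      linarith
    have hv0 : v ≠ 0 := by
      rintro h
      rw [h, zero_sub, norm_neg, he] at hve
      linarith
    have hvn : 0 < ‖v‖ := norm_pos_iff.2 hv0
    have h2 := normalize_close he hv0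
    have h3 := hmov (‖v‖⁻¹ • v) (by
      rw [norm_smul, norm_inv, norm_norm, inv_mul_cancel₀ hvn.ne']) (by rw [map_smul, hPv])
      (by linarith) p (R * ‖v‖)
      (by positivity)
    have h4 : p + (R * ‖v‖) • ‖v‖⁻¹ • v = x := by
      rw [smul_smul, mul_assoc, mul_inv_cancel₀ hvn.ne', mul_one, hv, smul_smul,
        mul_inv_cancel₀ hR.ne', one_smul]
      abel
    rw [h4, hp] at h3
    exact le_antisymm h3 (hu.nonneg x)
  have hray : ∀ s : ℝ, 0 ≤ s → u (p + s • e) = 0 := by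
    intro s hs
    have := hmov e he hPe (by simp; positivity) p s hs
    rw [hp] at this
    exact le_antisymm this (hu.nonneg _)
  -- asymptotics below
  have hbelow : ∀ e' : E3, P e' = e' → ‖e' - e‖ ≤ δ / 2 → ∀ x, inner ℝ x e' < -M → 0 < u x := by
    intro e' hPe' he' x hx
    refine pos_of_ne hu fun h => ?_
    have h1 := hcone' e' hPe' he' x h
    have h2 : 0 ≤ δ / 2 * ‖P x‖ := by positivity
    linarith
  obtain ⟨a, ha0, ha1, ha2⟩ := lower_asymp hu he (t := -M) ⟨p, hp⟩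
    (hbelow e hPe (by simp; positivity))
  obtain ⟨e', he', hPe', hee', hc0, hc1⟩ := exists_close_P he hf hef hPe hPf (r := δ / 4) (by positivity)
  have hee'2 : ‖e' - e‖ ≤ δ / 2 := by linarith
  obtain ⟨a', ha'0, ha'1, ha'2⟩ := lower_asymp hu he' (t := -M) ⟨p, hp⟩ (hbelow e' hPe' hee'2)
  set c : ℝ := inner ℝ e e' with hc
  -- comparison of the slopes
  have hslope : ∀ {e₁ e₂ : E3} {a₁ a₂ : ℝ}, ‖e₁‖ = 1 → ‖e₂‖ = 1 → inner ℝ e₁ e₂ = c →
      (∀ x, inner ℝ x e₁ ≤ -M → a₁ * (-M - inner ℝ x e₁) ≤ u x) →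
      (∀ ε > 0, ∃ C, ∀ x, inner ℝ x e₂ ≤ -M → u x ≤ a₂ * (-M - inner ℝ x e₂) + ε * ‖x‖ + C) →
      a₁ ≤ a₂ * c := by
    intro e₁ e₂ a₁ a₂ h₁ h₂ h₁₂ hlow hupp
    refine le_of_forall_pos_le_add fun ε hε => ?_
    obtain ⟨C, hC⟩ := hupp (ε / 2) (half_pos hε)
    -- choose `T` large
    set B : ℝ := |a₁ * M| + |a₂ * M| + |C| with hB
    have hB0 : 0 ≤ B := by positivity
    set T : ℝ := max (|M| / c + |M|) (2 * B / ε) + 1 with hT
    have hT1 : |M| / c + |M| ≤ T := by have := le_max_left (|M| / c + |M|) (2 * B / ε); linarith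
    have hT2 : 2 * B / ε ≤ T := by have := le_max_right (|M| / c + |M|) (2 * B / ε); linarith
    have hMc : 0 ≤ |M| / c := by positivity
    have hT0 : 0 < T := by
      have := le_max_left (|M| / c + |M|) (2 * B / ε)
      have h4 := abs_nonneg M
      linarith
    have hi1 : inner ℝ ((-T) • e₁) e₁ = -T := by
      rw [inner_smul_left, real_inner_self_eq_norm_sq, h₁]; simp
    have hi2 : inner ℝ ((-T) • e₁) e₂ = -(T * c) := by
      rw [inner_smul_left, h₁₂]; simp
    have hM := neg_abs_le M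
    have hM' := le_abs_self M
    have hTM : |M| ≤ T * c := by
      have h5 : |M| / c ≤ T := by have h4 := abs_nonneg M; linarith
      rwa [div_le_iff₀ hc0] at h5
    have h3 := hlow ((-T) • e₁) (by rw [hi1]; linarith)
    have h4 := hC ((-T) • e₁) (by rw [hi2]; linarith)
    have hn : ‖(-T) • e₁‖ = T := by
      rw [norm_smul, h₁, Real.norm_eq_abs, abs_neg, abs_of_pos hT0, mul_one]
    rw [hi1] at h3
    rw [hi2, hn] at h4
    have h5 : a₁ * T ≤ a₂ * (T * c) + ε / 2 * T + B := by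
      have h6 := le_abs_self (a₁ * M)
      have h7 := neg_abs_le (a₂ * M)
      have h8 := le_abs_self C
      rw [hB]
      nlinarith
    have h6 : B ≤ ε / 2 * T := by
      rw [div_le_iff₀ hε] at hT2
      linarith
    have h7 : a₁ * T ≤ (a₂ * c + ε) * T := by nlinarith
    exact le_of_mul_le_mul_right h7 hT0
  have hs1 : a ≤ a' * c := hslope he he' hc.symm ha1 ha'2
  have hs2 : a' ≤ a * c := hslope he' he (by rw [real_inner_comm]) ha'1 ha2
  have ha : a = 0 := by
    have h1 : a ≤ a * c * c := hs1.trans (mul_le_mul_of_nonneg_right hs2 hc0.le)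
    have h2 : 0 < 1 - c * c := by nlinarith
    nlinarith
  rw [ha] at ha2
  -- smallness everywhere
  have hup := upper_small hu he (t := -M) (δ := 1 / 2) (R₀ := 2 * ‖p‖ + 1) (fun ε hε => by
    obtain ⟨C, hC⟩ := ha2 ε hε
    refine ⟨C, fun x hx => ?_⟩
    have := hC x hx.le
    linarith) (by norm_num) (fun R hR => by
    have hn := norm_nonneg p
    refine ⟨p + (R / 2) • e, hray _ (by linarith), ?_, ?_⟩
    · refine (norm_add_le _ _).trans ?_
      rw [norm_smul, he, Real.norm_of_nonneg (by linarith), mul_one]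
      linarith
    · rw [inner_add_left, inner_smul_left, real_inner_self_eq_norm_sq, he]
      have h1 := hcone p hp
      have h2 : 0 ≤ δ * ‖P p‖ := by positivity
      simp only [conj_trivial, one_pow, mul_one]
      linarith)
  have hsmall : ∀ ε > 0, ∃ C, 0 ≤ C ∧ ∀ x, u x ≤ ε * ‖x‖ + C := by
    intro ε hε
    obtain ⟨C₁, h1⟩ := ha2 ε hε
    obtain ⟨C₂, h2⟩ := hup ε hε
    refine ⟨max 0 (max C₁ C₂), le_max_left _ _, fun x => ?_⟩
    have h3 : C₁ ≤ max 0 (max C₁ C₂) := (le_max_left _ _).trans (le_max_right _ _)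
    have h4 : C₂ ≤ max 0 (max C₁ C₂) := (le_max_right _ _).trans (le_max_right _ _)
    rcases le_total (inner ℝ x e) (-M) with h | h
    · have := h1 x h; linarith
    · have := h2 x h; linarith
  -- the exterior ball
  obtain ⟨C, hC0, hC⟩ := hsmall (δ / 160) (by positivity)
  have hne : ∃ x₁, 0 < u x₁ := ⟨(-(M + 1)) • e, hbelow e hPe (by simp; positivity) _ (by
    rw [inner_smul_left, real_inner_self_eq_norm_sq, he]; simp)⟩
  obtain ⟨x₁, hx₁⟩ := hne
  set R : ℝ := ‖p‖ + 2 * (‖p‖ + ‖x₁‖) + 40 * C / δ + 1 with hR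
  have hR0 : 0 < R := by positivity
  set q : E3 := p + R • e with hq
  have hcl : (closure {x | 0 < u x}).Nonempty := ⟨x₁, subset_closure hx₁⟩
  obtain ⟨y, hy, hyd⟩ := isClosed_closure.exists_infDist_eq_dist hcl q
  set d : ℝ := dist q y with hd
  have hdist : ∀ v, 0 < u v → d ≤ dist q v := by
    intro v hv
    rw [← hyd]
    exact infDist_le_dist_of_mem (subset_closure hv)
  have hzero : ∀ v ∈ ball q d, u v = 0 := by
    intro v hv
    rcases (hu.nonneg v).eq_or_lt with h | h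
    · exact h.symm
    · have := hdist v h
      rw [mem_ball, dist_comm] at hv
      linarith
  have hd1 : δ / 4 * R ≤ d := by
    by_contra hcon
    push Not at hcon
    have h1 : y ∈ ball q (δ / 4 * R) := by rw [mem_ball, dist_comm]; exact hcon
    obtain ⟨v, hv1, hv2⟩ := mem_closure_iff.1 hy _ isOpen_ball h1
    have := hball R hR0 v (ball_subset_closedBall hv1)
    have h3 : 0 < u v := hv2
    linarith
  have hd0 : 0 < d := lt_of_lt_of_le (by positivity) hd1
  have huy : u y = 0 := by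
    have h1 : y ∈ closure (ball q d) := by
      rw [closure_ball q hd0.ne', mem_closedBall, dist_comm]
    have h2 : closure (ball q d) ⊆ {x | u x = 0} :=
      closure_minimal hzero (isClosed_zero hu)
    exact h2 h1
  have hyF : y ∈ frontier {x | 0 < u x} := by
    rw [(isOpen_pos hu).frontier_eq]
    refine ⟨hy, fun h => ?_⟩
    have : 0 < u y := h
    linarith
  have hd2 : d ≤ R + ‖p‖ + ‖x₁‖ := by
    refine (hdist x₁ hx₁).trans ?_
    rw [dist_eq_norm, hq]
    refine (norm_sub_le _ _).trans ?_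
    have h1 : ‖p + R • e‖ ≤ ‖p‖ + R := by
      refine (norm_add_le _ _).trans ?_
      rw [norm_smul, he, mul_one, Real.norm_of_nonneg hR0.le]
    linarith
  have hfin := ext_ball hu hd0 hzero hyF (by rw [dist_comm]) (m := δ / 160 * (4 * R) + C) (by
    intro x hx
    refine (hC x).trans ?_
    have h1 : ‖x‖ ≤ 4 * R := by
      rw [mem_closedBall, dist_eq_norm] at hx
      have h2 : ‖x‖ ≤ ‖x - q‖ + ‖q‖ := by
        have := norm_add_le (x - q) q; rwa [sub_add_cancel] at this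
      have h3 : ‖q‖ ≤ ‖p‖ + R := by
        rw [hq]
        refine (norm_add_le _ _).trans ?_
        rw [norm_smul, he, mul_one, Real.norm_of_nonneg hR0.le]
      have h4 : 0 ≤ 40 * C / δ := by positivity
      linarith
    have h2 : δ / 160 * ‖x‖ ≤ δ / 160 * (4 * R) := mul_le_mul_of_nonneg_left h1 (by positivity)
    linarith)
  have h1 : δ / 8 * R ≤ 5 * C := by linarith
  have h2 : 40 * C / δ < R := by
    rw [hR]
    have := norm_nonneg p
    have := norm_nonneg x₁
    linarith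
  rw [div_lt_iff₀ hδ] at h2
  linarith

theorem no_wedge {u : E3 → ℝ} (hu : IsEntireSolution u) (hΩ : IsPreconnected {x | 0 < u x})
    {P : E3 →L[ℝ] E3} (hP : InvProj u P) (hunb : ∀ R : ℝ, ∃ p, u p = 0 ∧ R < ‖P p‖)
    {e f : E3} (he : ‖e‖ = 1) (hPe : P e = e) (hf : ‖f‖ = 1) (hPf : P f = f)
    (hef : inner ℝ e f = 0) {δ M : ℝ}
    (hδ : 0 < δ) (hcone : ∀ x, u x = 0 → δ * ‖P x‖ - M ≤ inner ℝ x e) : False := by
  refine no_wedge_aux hu hΩ hP hunb he hPe hf hPf hef (δ := min δ 1) (M := M)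
    (lt_min hδ one_pos) (min_le_right _ _) fun x hx => ?_
  have h1 := hcone x hx
  have h2 : min δ 1 * ‖P x‖ ≤ δ * ‖P x‖ :=
    mul_le_mul_of_nonneg_right (min_le_left _ _) (norm_nonneg _)
  linarith

end FB75
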