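import Mathlib

/-!
# Closed convex sets without lines lie in cones
-/

open Metric Set Filter Topology

namespace FB75

/-- A closed convex set with empty interior lies in a plane. -/
private theorem convgeo_plane {K : Set (EuclideanSpace ℝ (Fin 3))} (hc : Convex ℝ K)
    (hint : interior K = ∅) : ∃ (n : EuclideanSpace ℝ (Fin 3)) (c : ℝ), ‖n‖ = 1 ∧
      ∀ x ∈ K, inner ℝ x n = c := by
  rcases K.eq_empty_or_nonempty with hK | ⟨p, hp⟩
  · refine ⟨EuclideanSpace.single 0 1, 0, by simp, ?_⟩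
    intro x hx
    rw [hK] at hx
    exact hx.elim
  have hspan : affineSpan ℝ K ≠ ⊤ := by
    intro h
    rw [← hc.interior_nonempty_iff_affineSpan_eq_top, hint] at h
    exact Set.not_nonempty_empty h
  set W : Submodule ℝ (EuclideanSpace ℝ (Fin 3)) := (affineSpan ℝ K).direction with hW
  have hpA : p ∈ affineSpan ℝ K := subset_affineSpan ℝ K hp
  have hWtop : W ≠ ⊤ := by
    intro h
    apply hspan
    rwa [← AffineSubspace.direction_eq_top_iff_of_nonempty ⟨p, hpA⟩]
  have hWo : Wᗮ ≠ ⊥ := by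
    intro h
    exact hWtop ((Submodule.orthogonal_eq_bot_iff).1 h)
  obtain ⟨n0, hn0, hn00⟩ := Submodule.exists_mem_ne_zero_of_ne_bot hWo
  have hpos : 0 < ‖n0‖ := norm_pos_iff.2 hn00
  refine ⟨‖n0‖⁻¹ • n0, inner ℝ p (‖n0‖⁻¹ • n0), ?_, ?_⟩
  · rw [norm_smul, norm_inv, norm_norm, inv_mul_cancel₀ hpos.ne']
  · intro x hx
    have hxW : x - p ∈ W := by
      have := AffineSubspace.vsub_mem_direction (subset_affineSpan ℝ K hx) hpA
      simpa using this
    have h1 : inner ℝ (x - p) n0 = 0 := (Submodule.mem_orthogonal W n0).1 hn0 _ hxW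
    have h2 : inner ℝ (x - p) (‖n0‖⁻¹ • n0) = (0 : ℝ) := by
      rw [real_inner_smul_right, h1, mul_zero]
    rw [inner_sub_left] at h2
    linarith

/-- The recession cone. -/
private def convgeoRec (K : Set (EuclideanSpace ℝ (Fin 3))) : Set (EuclideanSpace ℝ (Fin 3)) :=
  {v | ∀ x ∈ K, ∀ t : ℝ, 0 ≤ t → x + t • v ∈ K}

private theorem convgeo_zero (K : Set (EuclideanSpace ℝ (Fin 3))) : (0 : EuclideanSpace ℝ (Fin 3)) ∈
    convgeoRec K := by
  intro x hx t _
  simpa using hx

private theorem convgeo_smul {K : Set (EuclideanSpace ℝ (Fin 3))} {v : EuclideanSpace ℝ (Fin 3)}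
    (hv : v ∈ convgeoRec K) {s : ℝ} (hs : 0 ≤ s) : s • v ∈ convgeoRec K := by
  intro x hx t ht
  rw [smul_smul]
  exact hv x hx _ (mul_nonneg ht hs)

private theorem convgeo_add {K : Set (EuclideanSpace ℝ (Fin 3))} {v w : EuclideanSpace ℝ (Fin 3)}
    (hv : v ∈ convgeoRec K) (hw : w ∈ convgeoRec K) : v + w ∈ convgeoRec K := by
  intro x hx t ht
  rw [smul_add, ← add_assoc]
  exact hw _ (hv x hx t ht) t ht

private theorem convgeo_closed {K : Set (EuclideanSpace ℝ (Fin 3))} (hcl : IsClosed K) :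
    IsClosed (convgeoRec K) := by
  have : convgeoRec K = ⋂ x ∈ K, ⋂ t : ℝ, ⋂ _ : 0 ≤ t, (fun v => x + t • v) ⁻¹' K := by
    ext v
    simp [convgeoRec]
  rw [this]
  refine isClosed_iInter fun x => isClosed_iInter fun _ => isClosed_iInter fun t =>
    isClosed_iInter fun _ => hcl.preimage (by fun_prop)

private theorem convgeo_convex (K : Set (EuclideanSpace ℝ (Fin 3))) :
    Convex ℝ (convgeoRec K) := by
  intro v hv w hw a b ha hb _
  exact convgeo_add (convgeo_smul hv ha) (convgeo_smul hw hb)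

/-- Separation of a point from the recession cone. -/
private theorem convgeo_sep {K : Set (EuclideanSpace ℝ (Fin 3))} (hcl : IsClosed K)
    {n : EuclideanSpace ℝ (Fin 3)} (hn : n ∉ convgeoRec K) :
    ∃ y : EuclideanSpace ℝ (Fin 3), (∀ v ∈ convgeoRec K, 0 ≤ inner ℝ v y) ∧ inner ℝ n y < 0 := by
  obtain ⟨f, u, hfn, hfb⟩ := geometric_hahn_banach_point_closed (convgeo_convex K)
    (convgeo_closed hcl) hn
  have hu : u < 0 := by
    have := hfb 0 (convgeo_zero K)
    simpa using this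
  set y : EuclideanSpace ℝ (Fin 3) := (InnerProductSpace.toDual ℝ _).symm f with hy
  have hfy : ∀ v, f v = inner ℝ v y := by
    intro v
    rw [real_inner_comm, hy, InnerProductSpace.toDual_symm_apply]
  refine ⟨y, ?_, ?_⟩
  · intro v hv
    rw [← hfy]
    by_contra hneg
    rw [not_le] at hneg
    have h1 := hfb ((u / f v) • v) (convgeo_smul hv (div_nonneg_of_nonpos hu.le hneg.le))
    rw [map_smul, smul_eq_mul, div_mul_cancel₀ _ hneg.ne] at h1
    exact lt_irrefl _ h1
  · rw [← hfy]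
    linarith

/-- A pointed recession cone has a direction with positive inner products. -/
private theorem convgeo_dir {K : Set (EuclideanSpace ℝ (Fin 3))} (hcl : IsClosed K)
    (hline : ∀ v : EuclideanSpace ℝ (Fin 3), v ≠ 0 → ∃ x ∈ K, ∃ s : ℝ, x + s • v ∉ K) :
    ∃ (e : EuclideanSpace ℝ (Fin 3)) (δ : ℝ), ‖e‖ = 1 ∧ 0 < δ ∧
      ∀ v ∈ convgeoRec K, ‖v‖ = 1 → δ < inner ℝ v e := by
  have hpt : ∀ v, v ∈ convgeoRec K → -v ∈ convgeoRec K → v = 0 := by
    intro v hv hv'
    by_contra h0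
    obtain ⟨x, hx, s, hs⟩ := hline v h0
    rcases le_total 0 s with h | h
    · exact hs (hv x hx s h)
    · apply hs
      have := hv' x hx (-s) (by linarith)
      simpa using this
  by_cases hR : ∀ v ∈ convgeoRec K, v = 0
  · refine ⟨EuclideanSpace.single 0 1, 1, by simp, one_pos, ?_⟩
    intro v hv h1
    rw [hR v hv] at h1
    simp at h1
  push Not at hR
  obtain ⟨v0, hv0, hv00⟩ := hR
  set D : Set (EuclideanSpace ℝ (Fin 3)) := {y | ∀ v ∈ convgeoRec K, 0 ≤ inner ℝ v y} with hD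
  have hDc : Convex ℝ D := by
    intro y hy z hz a b ha hb _ v hv
    rw [inner_add_right, real_inner_smul_right, real_inner_smul_right]
    exact add_nonneg (mul_nonneg ha (hy v hv)) (mul_nonneg hb (hz v hv))
  have hDi : (interior D).Nonempty := by
    by_contra hempty
    rw [Set.not_nonempty_iff_eq_empty] at hempty
    obtain ⟨n, c, hn, hcn⟩ := convgeo_plane hDc hempty
    have h0D : (0 : EuclideanSpace ℝ (Fin 3)) ∈ D := fun v _ => by simp
    have hc0 : c = 0 := by
      have := hcn 0 h0D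
      rw [inner_zero_left] at this
      exact this.symm
    have hn1 : n ∈ convgeoRec K := by
      by_contra h
      obtain ⟨y, hy, hy2⟩ := convgeo_sep hcl h
      have h3 := hcn y hy
      rw [real_inner_comm, hc0] at h3
      linarith
    have hn2 : -n ∈ convgeoRec K := by
      by_contra h
      obtain ⟨y, hy, hy2⟩ := convgeo_sep hcl h
      have h3 := hcn y hy
      rw [real_inner_comm, hc0] at h3
      rw [inner_neg_left, h3] at hy2
      linarith
    have := hpt n hn1 hn2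
    rw [this, norm_zero] at hn
    exact zero_ne_one hn
  obtain ⟨y0, hy0⟩ := hDi
  obtain ⟨ρ, hρ, hball⟩ := Metric.isOpen_iff.1 isOpen_interior y0 hy0
  have hkey : ∀ v ∈ convgeoRec K, ρ / 2 * ‖v‖ ≤ inner ℝ v y0 := by
    intro v hv
    by_cases h0 : v = 0
    · rw [h0]
      simp
    have hvp : 0 < ‖v‖ := norm_pos_iff.2 h0
    have h1 : y0 - (ρ / 2 / ‖v‖) • v ∈ D := by
      apply interior_subset
      apply hball
      rw [mem_ball, dist_eq_norm, sub_sub_cancel_left, norm_neg, norm_smul, Real.norm_eq_abs,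
        abs_of_nonneg (by positivity), div_mul_cancel₀ _ hvp.ne']
      linarith
    have h2 := h1 v hv
    rw [inner_sub_right, real_inner_smul_right, real_inner_self_eq_norm_sq] at h2
    have h3 : ρ / 2 / ‖v‖ * ‖v‖ ^ 2 = ρ / 2 * ‖v‖ := by
      field_simp
    linarith
  have hy00 : y0 ≠ 0 := by
    intro h
    have h1 := hkey v0 hv0
    rw [h, inner_zero_right] at h1
    have h2 : 0 < ρ / 2 * ‖v0‖ := mul_pos (by linarith) (norm_pos_iff.2 hv00)
    linarith
  have hyp : 0 < ‖y0‖ := norm_pos_iff.2 hy00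
  refine ⟨‖y0‖⁻¹ • y0, ‖y0‖⁻¹ * (ρ / 4), ?_, by positivity, ?_⟩
  · rw [norm_smul, norm_inv, norm_norm, inv_mul_cancel₀ hyp.ne']
  · intro v hv h1
    rw [real_inner_smul_right]
    have h2 := hkey v hv
    rw [h1, mul_one] at h2
    apply mul_lt_mul_of_pos_left _ (inv_pos.2 hyp)
    linarith

/-- A closed convex set which contains no line lies in a cone. -/
theorem convex_cone {K : Set (EuclideanSpace ℝ (Fin 3))} (hc : Convex ℝ K) (hcl : IsClosed K)
    (hne : K.Nonempty) (hline : ∀ v : EuclideanSpace ℝ (Fin 3), v ≠ 0 →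
      ∃ x ∈ K, ∃ s : ℝ, x + s • v ∉ K) :
    ∃ (e : EuclideanSpace ℝ (Fin 3)) (δ M : ℝ), ‖e‖ = 1 ∧ 0 < δ ∧
      ∀ x ∈ K, δ * ‖x‖ - M ≤ inner ℝ x e := by
  obtain ⟨e, δ, he, hδ, hdir⟩ := convgeo_dir hcl hline
  have _ := hne
  by_contra hcon
  push Not at hcon
  have h1 : ∀ n : ℕ, ∃ x ∈ K, inner ℝ x e < δ * ‖x‖ - n := fun n => hcon e δ n he hδ
  choose x hxK hx using h1
  have hnorm : ∀ n : ℕ, (n : ℝ) ≤ (1 + δ) * ‖x n‖ := by
    intro n
    have h2 := hx n
    have h3 : -(‖x n‖ * ‖e‖) ≤ inner ℝ (x n) e := by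
      have := abs_real_inner_le_norm (x n) e
      exact (abs_le.1 this).1
    rw [he, mul_one] at h3
    linarith
  have htend : Tendsto (fun n => ‖x n‖) atTop atTop := by
    have h2 : Tendsto (fun n : ℕ => (n : ℝ) / (1 + δ)) atTop atTop :=
      tendsto_natCast_atTop_atTop.atTop_div_const (by linarith)
    refine tendsto_atTop_mono (fun n => ?_) h2
    rw [div_le_iff₀ (by linarith)]
    linarith [hnorm n]
  have hpos : ∀ n : ℕ, 1 ≤ n → 0 < ‖x n‖ := by
    intro n hn
    have h2 := hnorm n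
    have h3 : (1 : ℝ) ≤ n := by exact_mod_cast hn
    by_contra h4
    rw [not_lt] at h4
    nlinarith
  -- directions
  have hcomp : IsCompact (closedBall (0 : EuclideanSpace ℝ (Fin 3)) 1) := isCompact_closedBall _ _
  have hmem : ∀ n : ℕ, ‖x n‖⁻¹ • x n ∈ closedBall (0 : EuclideanSpace ℝ (Fin 3)) 1 := by
    intro n
    rw [mem_closedBall_zero_iff, norm_smul, norm_inv, norm_norm]
    by_cases h0 : ‖x n‖ = 0
    · rw [h0]
      simp
    · rw [inv_mul_cancel₀ h0]
  obtain ⟨v, -, φ, hφ, hlim⟩ := hcomp.tendsto_subseq hmem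
  have hφt : Tendsto φ atTop atTop := hφ.tendsto_atTop
  have hge : ∀ᶠ n in atTop, 1 ≤ φ n := hφt.eventually_ge_atTop 1
  have hv1 : ‖v‖ = 1 := by
    have h2 := hlim.norm
    refine tendsto_nhds_unique h2 ?_
    apply tendsto_const_nhds.congr'
    filter_upwards [hge] with n hn
    have h3 := hpos _ hn
    simp only [Function.comp]
    rw [norm_smul, norm_inv, norm_norm, inv_mul_cancel₀ h3.ne']
  have hvR : v ∈ convgeoRec K := by
    intro y hy t ht
    have h2 : Tendsto (fun n => y + (t * ‖x (φ n)‖⁻¹) • (x (φ n) - y)) atTop (𝓝 (y + t • v)) := by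
      have h3 : Tendsto (fun n => ‖x (φ n)‖⁻¹) atTop (𝓝 0) :=
        (htend.comp hφt).inv_tendsto_atTop
      have h4 : Tendsto (fun n => y + t • ((‖x (φ n)‖⁻¹ • x (φ n)) - ‖x (φ n)‖⁻¹ • y)) atTop
          (𝓝 (y + t • (v - (0 : ℝ) • y))) :=
        tendsto_const_nhds.add ((hlim.sub (h3.smul_const y)).const_smul t)
      rw [zero_smul, sub_zero] at h4
      refine h4.congr fun n => ?_
      rw [← smul_sub, smul_smul]
    refine hcl.mem_of_tendsto h2 ?_
    have hbig : ∀ᶠ n in atTop, t + 1 ≤ ‖x (φ n)‖ := (htend.comp hφt).eventually_ge_atTop (t + 1)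
    filter_upwards [hbig] with n hn
    have hp : 0 < ‖x (φ n)‖ := by linarith
    have h5 : t * ‖x (φ n)‖⁻¹ ≤ 1 := by
      rw [← div_eq_mul_inv, div_le_one hp]
      linarith
    exact hc.add_smul_sub_mem hy (hxK _) ⟨by positivity, h5⟩
  have hlt := hdir v hvR hv1
  have hle : inner ℝ v e ≤ δ := by
    have h2 : Tendsto (fun n => inner ℝ (‖x (φ n)‖⁻¹ • x (φ n)) e) atTop (𝓝 (inner ℝ v e)) :=
      hlim.inner tendsto_const_nhds
    refine le_of_tendsto h2 ?_
    filter_upwards [hge] with n hn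
    have hp := hpos _ hn
    rw [real_inner_smul_left, inv_mul_le_iff₀ hp]
    have h3 := hx (φ n)
    have h4 : (0 : ℝ) ≤ φ n := Nat.cast_nonneg _
    linarith
  linarith

/-- A closed convex set with empty interior lies in a plane. -/
theorem convex_plane {K : Set (EuclideanSpace ℝ (Fin 3))} (hc : Convex ℝ K)
    (hint : interior K = ∅) : ∃ (n : EuclideanSpace ℝ (Fin 3)) (c : ℝ), ‖n‖ = 1 ∧
      ∀ x ∈ K, inner ℝ x n = c :=
  convgeo_plane hc hint

end FB75
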