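import Pool.Agent.FB75.Struct

/-!
# A zero phase contained in a plane is the plane
-/

open MeasureTheory Metric Set Filter Topology InnerProductSpace Laplacian
open scoped ContDiff

namespace FB75

private theorem planeK_ivt {φ : E3 → ℝ} {y w : E3} {r : ℝ} (hr : 0 < r)
    (hcont : ContinuousOn φ (ball y r)) {L : E3 →L[ℝ] ℝ} (hL : HasFDerivAt φ L y)
    (hy : φ y = 0) (hw : 0 < L w) :
    ∃ δ : ℝ, 0 < δ ∧ ∀ x ∈ ball y δ, ∃ s : ℝ, x + s • w ∈ ball y r ∧ φ (x + s • w) = 0 := by
  -- the function on the line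
  have hd : HasDerivAt (fun s : ℝ => φ (y + s • w)) (L w) 0 := by
    have h1 : HasDerivAt (fun s : ℝ => y + s • w) w 0 := by
      simpa using ((hasDerivAt_id (0 : ℝ)).smul_const w).const_add y
    have h2 : HasFDerivAt φ L (y + (0 : ℝ) • w) := by simpa using hL
    exact h2.comp_hasDerivAt 0 h1
  have hw0 : w ≠ 0 := by
    intro h; rw [h] at hw; simp at hw
  have hwn : 0 < ‖w‖ := norm_pos_iff.mpr hw0
  have hpos : ∀ᶠ s in 𝓝[>] (0 : ℝ), 0 < φ (y + s • w) := by
    have h := hasDerivAt_iff_tendsto_slope.mp hd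
    have h' : ∀ᶠ s in 𝓝[≠] (0 : ℝ), 0 < slope (fun s : ℝ => φ (y + s • w)) 0 s :=
      h.eventually (lt_mem_nhds hw)
    have h'' : ∀ᶠ s in 𝓝[>] (0 : ℝ), 0 < slope (fun s : ℝ => φ (y + s • w)) 0 s :=
      h'.filter_mono (nhdsWithin_mono _ (fun x hx => ne_of_gt hx))
    filter_upwards [h'', self_mem_nhdsWithin] with s hs hs0
    have hs0' : 0 < s := hs0
    rw [slope_def_field] at hs
    simp only [zero_smul, add_zero, hy, sub_zero] at hs
    exact (div_pos_iff_of_pos_right hs0').mp hs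
  have hneg : ∀ᶠ s in 𝓝[>] (0 : ℝ), φ (y - s • w) < 0 := by
    have hd' : HasDerivAt (fun s : ℝ => φ (y - s • w)) (-(L w)) 0 := by
      have h1 : HasDerivAt (fun s : ℝ => y - s • w) (-w) 0 := by
        simpa using ((hasDerivAt_id (0 : ℝ)).smul_const w).const_sub y
      have h2 : HasFDerivAt φ L (y - (0 : ℝ) • w) := by simpa using hL
      have h3 := h2.comp_hasDerivAt 0 h1
      rw [map_neg] at h3
      exact h3
    have h := hasDerivAt_iff_tendsto_slope.mp hd'
    have h' : ∀ᶠ s in 𝓝[≠] (0 : ℝ), slope (fun s : ℝ => φ (y - s • w)) 0 s < 0 :=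
      h.eventually (gt_mem_nhds (by linarith))
    have h'' : ∀ᶠ s in 𝓝[>] (0 : ℝ), slope (fun s : ℝ => φ (y - s • w)) 0 s < 0 :=
      h'.filter_mono (nhdsWithin_mono _ (fun x hx => ne_of_gt hx))
    filter_upwards [h'', self_mem_nhdsWithin] with s hs hs0
    have hs0' : 0 < s := hs0
    rw [slope_def_field] at hs
    simp only [zero_smul, sub_zero, hy] at hs
    have h4 := mul_neg_of_neg_of_pos hs hs0'
    rwa [div_mul_cancel₀ _ hs0'.ne'] at h4
  have hsmall : ∀ᶠ s in 𝓝[>] (0 : ℝ), s < r / (2 * ‖w‖) := by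
    have : ∀ᶠ s in 𝓝 (0 : ℝ), s < r / (2 * ‖w‖) := gt_mem_nhds (by positivity)
    exact this.filter_mono nhdsWithin_le_nhds
  obtain ⟨s₀, ⟨⟨hp, hn⟩, hs⟩, hs0⟩ :=
    (((hpos.and hneg).and hsmall).and self_mem_nhdsWithin).exists
  have hs0' : 0 < s₀ := hs0
  have hsw : s₀ * ‖w‖ < r / 2 := by
    have := (mul_lt_mul_of_pos_right hs hwn)
    calc s₀ * ‖w‖ < r / (2 * ‖w‖) * ‖w‖ := this
      _ = r / 2 := by field_simp
  have hmem : ∀ x ∈ ball y (r / 2), ∀ s ∈ Icc (-s₀) s₀, x + s • w ∈ ball y r := by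
    intro x hx s hs
    rw [mem_ball, dist_eq_norm] at hx ⊢
    have h1 : ‖s • w‖ ≤ s₀ * ‖w‖ := by
      rw [norm_smul, Real.norm_eq_abs]
      exact mul_le_mul_of_nonneg_right (abs_le.mpr hs) hwn.le
    calc ‖x + s • w - y‖ = ‖(x - y) + s • w‖ := by congr 1; abel
      _ ≤ ‖x - y‖ + ‖s • w‖ := norm_add_le _ _
      _ < r := by linarith
  -- continuity at the two end points
  have hyr : y ∈ ball y (r / 2) := mem_ball_self (by linarith)
  have e1 : ∀ᶠ x in 𝓝 y, 0 < φ (x + s₀ • w) := by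
    have hm := hmem y hyr s₀ ⟨by linarith, le_refl _⟩
    have hc : ContinuousAt φ (y + s₀ • w) := hcont.continuousAt (isOpen_ball.mem_nhds hm)
    have hc2 : ContinuousAt (fun x : E3 => φ (x + s₀ • w)) y :=
      ContinuousAt.comp (f := fun x : E3 => x + s₀ • w) hc (by fun_prop)
    exact hc2.eventually (lt_mem_nhds hp)
  have e2 : ∀ᶠ x in 𝓝 y, φ (x + (-s₀) • w) < 0 := by
    have hm := hmem y hyr (-s₀) ⟨le_refl _, by linarith⟩
    have hc : ContinuousAt φ (y + (-s₀) • w) := hcont.continuousAt (isOpen_ball.mem_nhds hm)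
    have hc2 : ContinuousAt (fun x : E3 => φ (x + (-s₀) • w)) y :=
      ContinuousAt.comp (f := fun x : E3 => x + (-s₀) • w) hc (by fun_prop)
    have hn' : φ (y + (-s₀) • w) < 0 := by
      have h5 : y + (-s₀) • w = y - s₀ • w := by rw [neg_smul, sub_eq_add_neg]
      rw [h5]; exact hn
    exact hc2.eventually (gt_mem_nhds hn')
  obtain ⟨δ₁, hδ₁, hδ⟩ := Metric.eventually_nhds_iff_ball.mp (e1.and e2)
  refine ⟨min δ₁ (r / 2), lt_min hδ₁ (by linarith), fun x hx => ?_⟩
  have hx1 : x ∈ ball y δ₁ := ball_subset_ball (min_le_left _ _) hx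
  have hx2 : x ∈ ball y (r / 2) := ball_subset_ball (min_le_right _ _) hx
  have hcs : ContinuousOn (fun s : ℝ => φ (x + s • w)) (Icc (-s₀) s₀) := by
    refine hcont.comp (by fun_prop) (fun s hs => hmem x hx2 s hs)
  have := intermediate_value_Icc (show -s₀ ≤ s₀ by linarith) hcs
  obtain ⟨s, hsI, hs⟩ := this ⟨(hδ x hx1).2.le, (hδ x hx1).1.le⟩
  exact ⟨s, hmem x hx2 s hsI, hs⟩

theorem zero_in_plane {u : E3 → ℝ} (hu : IsEntireSolution u) {n : E3} (hn : ‖n‖ = 1) {c : ℝ}
    (h : ∀ x, u x = 0 → inner ℝ x n = c) (hne : ∃ x, u x = 0) :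
    ∀ x, inner ℝ x n = c → u x = 0 := by
  have hnn : inner ℝ n n = (1 : ℝ) := by rw [real_inner_self_eq_norm_sq, hn]; norm_num
  -- every zero is in the frontier
  have hfr : ∀ y, u y = 0 → y ∈ frontier {x | 0 < u x} := by
    intro y hy
    rw [frontier, Set.mem_sdiff]
    constructor
    · rw [mem_closure_iff_seq_limit]
      refine ⟨fun k => y + (1 / ((k : ℝ) + 1)) • n, fun k => ?_, ?_⟩
      · refine pos_of_ne hu (fun h0 => ?_)
        have h1 := h _ h0
        rw [inner_add_left, inner_smul_left, h y hy, hnn] at h1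
        have : (0 : ℝ) < 1 / ((k : ℝ) + 1) := by positivity
        simp at h1
        have h2 : ((k : ℝ) + 1) ≠ 0 := by positivity
        exact h2 h1
      · have h1 : Tendsto (fun k : ℕ => (1 / ((k : ℝ) + 1)) • n) atTop (𝓝 ((0 : ℝ) • n)) :=
          tendsto_one_div_add_atTop_nhds_zero_nat.smul_const n
        simpa using h1.const_add y
    · intro hyi
      have h5 : y ∈ {x | 0 < u x} := interior_subset hyi
      have h6 : 0 < u y := h5
      linarith
  have hfr' : ∀ y, y ∈ frontier {x | 0 < u x} → u y = 0 := by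
    intro y hy
    by_contra h0
    have hp := pos_of_ne hu h0
    have : y ∈ interior {x | 0 < u x} := by
      rw [(isOpen_pos hu).interior_eq]; exact hp
    exact hy.2 this
  -- the zero phase is relatively open in the plane
  have hop : ∀ y, u y = 0 → ∃ δ : ℝ, 0 < δ ∧ ∀ x ∈ ball y δ, inner ℝ x n = c → u x = 0 := by
    intro y hy
    obtain ⟨V, hV, hyV, φ, hφ, hφ', hfV, -⟩ := hu.boundary y (hfr y hy)
    have hz : ∀ x ∈ V, φ x = 0 → u x = 0 := by
      intro x hx h0
      have : x ∈ {x | φ x = 0} ∩ V := ⟨h0, hx⟩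
      rw [← hfV] at this
      exact hfr' x this.1
    have hφy : φ y = 0 := by
      have : y ∈ frontier {x | 0 < u x} ∩ V := ⟨hfr y hy, hyV⟩
      rw [hfV] at this
      exact this.1
    obtain ⟨r, hr, hrV⟩ := Metric.isOpen_iff.mp hV y hyV
    have hcont : ContinuousOn φ (ball y r) := hφ.continuousOn.mono hrV
    have hL : HasFDerivAt φ (fderiv ℝ φ y) y := by
      have : DifferentiableAt ℝ φ y :=
        (hφ.contDiffAt (hV.mem_nhds hyV)).differentiableAt (by simp)
      exact this.hasFDerivAt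
    set L := fderiv ℝ φ y with hLdef
    -- a general consequence of the intermediate value theorem
    have key : ∀ w : E3, L w ≠ 0 → ∃ δ : ℝ, 0 < δ ∧ ∀ x ∈ ball y δ, ∃ s : ℝ,
        u (x + s • w) = 0 := by
      intro w hw
      rcases lt_or_gt_of_ne hw with hw | hw
      · have hw' : 0 < L (-w) := by rw [map_neg]; linarith
        obtain ⟨δ, hδ, h1⟩ := planeK_ivt hr hcont hL hφy hw'
        refine ⟨δ, hδ, fun x hx => ?_⟩
        obtain ⟨s, hs1, hs2⟩ := h1 x hx
        refine ⟨-s, ?_⟩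
        have : x + (-s) • w = x + s • (-w) := by simp
        rw [this]
        exact hz _ (hrV hs1) hs2
      · obtain ⟨δ, hδ, h1⟩ := planeK_ivt hr hcont hL hφy hw
        refine ⟨δ, hδ, fun x hx => ?_⟩
        obtain ⟨s, hs1, hs2⟩ := h1 x hx
        exact ⟨s, hz _ (hrV hs1) hs2⟩
    -- the normal derivative is not zero
    have hLn : L n ≠ 0 := by
      intro hLn
      obtain ⟨v, hv⟩ : ∃ v, L v ≠ 0 := by
        by_contra hcon
        push Not at hcon
        exact hφ' y hyV (ContinuousLinearMap.ext hcon)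
      set w : E3 := v - (inner ℝ v n : ℝ) • n with hwdef
      have hw1 : L w ≠ 0 := by
        rw [hwdef, map_sub, map_smul, hLn]; simpa using hv
      have hw2 : inner ℝ w n = (0 : ℝ) := by
        rw [hwdef, inner_sub_left, inner_smul_left, hnn]; simp
      obtain ⟨δ, hδ, h1⟩ := key w hw1
      have hx : y + (δ / 2) • n ∈ ball y δ := by
        rw [mem_ball, dist_eq_norm, add_sub_cancel_left, norm_smul, hn, Real.norm_eq_abs,
          abs_of_pos (by linarith)]
        linarith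
      obtain ⟨s, hs⟩ := h1 _ hx
      have h2 := h _ hs
      rw [inner_add_left, inner_add_left, inner_smul_left, inner_smul_left, hw2, hnn, h y hy] at h2
      simp at h2
      linarith
    obtain ⟨δ, hδ, h1⟩ := key n hLn
    refine ⟨δ, hδ, fun x hx hxc => ?_⟩
    obtain ⟨s, hs⟩ := h1 x hx
    have h2 := h _ hs
    rw [inner_add_left, inner_smul_left, hxc, hnn] at h2
    simp at h2
    rw [h2] at hs
    simpa using hs
  -- connectedness of lines
  intro x₁ hx₁
  obtain ⟨x₀, hx₀⟩ := hne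
  have hγ : Continuous (fun t : ℝ => x₀ + t • (x₁ - x₀)) := by fun_prop
  have hplane : ∀ t : ℝ, inner ℝ (x₀ + t • (x₁ - x₀)) n = c := by
    intro t
    rw [inner_add_left, inner_smul_left, inner_sub_left, h x₀ hx₀, hx₁]
    simp
  have hclopen : IsClopen {t : ℝ | u (x₀ + t • (x₁ - x₀)) = 0} := by
    constructor
    · exact (isClosed_zero hu).preimage hγ
    · rw [isOpen_iff_mem_nhds]
      intro t ht
      obtain ⟨δ, hδ, h1⟩ := hop _ ht
      have : ∀ᶠ s in 𝓝 t, x₀ + s • (x₁ - x₀) ∈ ball (x₀ + t • (x₁ - x₀)) δ :=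
        hγ.continuousAt.eventually (ball_mem_nhds _ hδ)
      filter_upwards [this] with s hs
      exact h1 _ hs (hplane s)
  have huniv : {t : ℝ | u (x₀ + t • (x₁ - x₀)) = 0} = univ := by
    refine (isClopen_iff.mp hclopen).resolve_left (fun h0 => ?_)
    have : (0 : ℝ) ∈ {t : ℝ | u (x₀ + t • (x₁ - x₀)) = 0} := by simpa using hx₀
    rw [h0] at this
    exact this
  have : (1 : ℝ) ∈ {t : ℝ | u (x₀ + t • (x₁ - x₀)) = 0} := by rw [huniv]; trivial
  simpa using this

end FB75
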