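import Pool.Agent.FB75.Lip
import Pool.Agent.FB75.Comp

/-!
# Local structure at free boundary points
-/

open MeasureTheory Metric Set Filter Topology InnerProductSpace Laplacian
open scoped ContDiff

namespace FB75

/-- The positive side at a free boundary point `y`, with inner unit normal `ν`, interior ball of
radius `ρ` and smooth extension `g`. -/
structure SideAt (u : E3 → ℝ) (y ν : E3) (ρ : ℝ) (g : E3 → ℝ) : Prop where
  norm_nu : ‖ν‖ = 1
  rho_pos : 0 < ρ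
  pos : ∀ x ∈ ball (y + ρ • ν) ρ, 0 < u x
  eq : ∀ x ∈ ball (y + ρ • ν) ρ, u x = g x
  smooth : ContDiffAt ℝ ∞ g y
  zero : g y = 0
  grad : ∀ v, fderiv ℝ g y v = inner ℝ ν v
  hess : ∀ τ, inner ℝ ν τ = 0 → fderiv ℝ (fderiv ℝ g) y τ ν = 0

private lemma st_zero_of_frontier {u : E3 → ℝ} (hu : IsEntireSolution u) {x : E3}
    (hx : x ∈ frontier {x | 0 < u x}) : u x = 0 := by
  rw [(isOpen_pos hu).frontier_eq] at hx
  have h1 : ¬ 0 < u x := hx.2
  exact le_antisymm (not_lt.1 h1) (hu.nonneg x)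

private lemma st_pos_side {V : Set E3} (hV : IsOpen V) {φ : E3 → ℝ} (hφ : ContDiffOn ℝ ∞ φ V)
    {z : E3} (hz : z ∈ V) {s : ℝ} (h : 0 < s * φ z) : ∀ᶠ x in 𝓝 z, x ∈ V ∧ 0 < s * φ x := by
  have h1 : ContinuousAt φ z := hφ.continuousOn.continuousAt (hV.mem_nhds hz)
  have h2 : ContinuousAt (fun x => s * φ x) z := continuousAt_const.mul h1
  exact (hV.eventually_mem hz).and (h2.eventually (lt_mem_nhds h))

/-- Lipschitz bound of the derivative and its consequences. -/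
private lemma st_quad {ψ : E3 → ℝ} {y : E3} (hψ : ContDiffAt ℝ ∞ ψ y) :
    ∃ K : ℝ, 0 < K ∧ ∃ r : ℝ, 0 < r ∧ (∀ x ∈ ball y r, DifferentiableAt ℝ ψ x) ∧
      ∀ x ∈ ball y r, ‖fderiv ℝ ψ x - fderiv ℝ ψ y‖ ≤ K * dist x y := by
  have h1 : ContDiffAt ℝ 1 (fderiv ℝ ψ) y := hψ.fderiv_right (by norm_cast)
  obtain ⟨K, t, ht, hK⟩ := h1.exists_lipschitzOnWith
  have h2 : ∀ᶠ x in 𝓝 y, DifferentiableAt ℝ ψ x := by
    have h3 : ContDiffAt ℝ 1 ψ y := hψ.of_le (by norm_cast)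
    have h4 := h3.eventually (by simp)
    filter_upwards [h4] with x hx
    exact hx.differentiableAt (by simp)
  obtain ⟨r, hr, hrt⟩ := Metric.mem_nhds_iff.1 (Filter.inter_mem ht h2)
  refine ⟨K + 1, by positivity, r, hr, fun x hx => (hrt hx).2, fun x hx => ?_⟩
  have h5 := hK.dist_le_mul x (hrt hx).1 y (mem_of_mem_nhds ht)
  rw [dist_eq_norm] at h5
  have h6 : 0 ≤ dist x y := dist_nonneg
  nlinarith

private lemma st_second {ψ : E3 → ℝ} {y : E3} {K r : ℝ} (hK : 0 < K)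
    (hd : ∀ x ∈ ball y r, DifferentiableAt ℝ ψ x)
    (hb : ∀ x ∈ ball y r, ‖fderiv ℝ ψ x - fderiv ℝ ψ y‖ ≤ K * dist x y) {v : E3}
    (hv : ‖v‖ < r) : |ψ (y + v) - ψ y - fderiv ℝ ψ y v| ≤ K * ‖v‖ * ‖v‖ := by
  have hsub : closedBall y ‖v‖ ⊆ ball y r := closedBall_subset_ball hv
  have h1 := Convex.norm_image_sub_le_of_norm_hasFDerivWithin_le' (𝕜 := ℝ) (f := ψ)
    (f' := fderiv ℝ ψ) (φ := fderiv ℝ ψ y) (s := closedBall y ‖v‖) (C := K * ‖v‖)
    (x := y) (y := y + v)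
    (fun x hx => (hd x (hsub hx)).hasFDerivAt.hasFDerivWithinAt)
    (fun x hx => (hb x (hsub hx)).trans (by
      have : dist x y ≤ ‖v‖ := hx
      nlinarith [hK.le]))
    (convex_closedBall y ‖v‖) (mem_closedBall_self (norm_nonneg _)) (by simp)
  have h2 : y + v - y = v := by abel
  rw [h2] at h1
  rwa [Real.norm_eq_abs] at h1

private lemma st_first {ψ : E3 → ℝ} {y : E3} {K r : ℝ}
    (hd : ∀ x ∈ ball y r, DifferentiableAt ℝ ψ x)
    (hb : ∀ x ∈ ball y r, ‖fderiv ℝ ψ x - fderiv ℝ ψ y‖ ≤ K * dist x y) (hK : 0 < K) {z w : E3}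
    (hz : z ∈ ball y r) (hzw : z + w ∈ ball y r) :
    |ψ (z + w) - ψ z - fderiv ℝ ψ y w| ≤ K * r * ‖w‖ := by
  have h1 := Convex.norm_image_sub_le_of_norm_hasFDerivWithin_le' (𝕜 := ℝ) (f := ψ)
    (f' := fderiv ℝ ψ) (φ := fderiv ℝ ψ y) (s := ball y r) (C := K * r)
    (x := z) (y := z + w)
    (fun x hx => (hd x hx).hasFDerivAt.hasFDerivWithinAt)
    (fun x hx => (hb x hx).trans (by
      have : dist x y < r := hx
      nlinarith))
    (convex_ball y r) hz hzw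
  have h2 : z + w - z = w := by abel
  rw [h2] at h1
  rwa [Real.norm_eq_abs] at h1

/-- A functional nonnegative on an open half space is a nonnegative multiple. -/
private lemma st_dual {A L : E3 →L[ℝ] ℝ} (hA : A ≠ 0) (hL : ‖L‖ = 1)
    (h : ∀ v, 0 < A v → 0 ≤ L v) :
    ∃ ν : E3, ‖ν‖ = 1 ∧ (∀ v, L v = inner ℝ ν v) ∧ ∀ v, A v = ‖A‖ * inner ℝ ν v := by
  set p : E3 := (InnerProductSpace.toDual ℝ E3).symm A with hp
  have hpA : ∀ v, A v = inner ℝ p v := fun v => by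
    rw [hp, InnerProductSpace.toDual_symm_apply]
  have hpn : ‖p‖ = ‖A‖ := by rw [hp, LinearIsometryEquiv.norm_map]
  have hAn : 0 < ‖A‖ := norm_pos_iff.2 hA
  have hAp : A p = ‖A‖ ^ 2 := by rw [hpA, real_inner_self_eq_norm_sq, hpn]
  have h0 : ∀ v, 0 ≤ A v → 0 ≤ L v := by
    intro v hv
    by_contra hcon
    push Not at hcon
    have h1 : ∀ ε : ℝ, 0 < ε → 0 ≤ L v + ε * L p := by
      intro ε hε
      have h2 := h (v + ε • p) (by
        rw [map_add, map_smul, smul_eq_mul, hAp]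
        have : 0 < ε * ‖A‖ ^ 2 := by positivity
        linarith)
      rwa [map_add, map_smul, smul_eq_mul] at h2
    have h3 := h1 1 one_pos
    have h4 : 0 < L p := by linarith
    have h5 := h1 (-L v / (2 * L p)) (div_pos (by linarith) (by linarith))
    have h6 : -L v / (2 * L p) * L p = -L v / 2 := by
      field_simp
    rw [h6] at h5
    linarith
  have hker : ∀ v, A v = 0 → L v = 0 := by
    intro v hv
    have h1 := h0 v hv.ge
    have h2 := h0 (-v) (by rw [map_neg, hv]; simp)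
    rw [map_neg] at h2
    linarith
  have hLA : ∀ v, L v = L p / ‖A‖ ^ 2 * A v := by
    intro v
    have h1 := hker (v - (A v / ‖A‖ ^ 2) • p) (by
      rw [map_sub, map_smul, smul_eq_mul, hAp]
      field_simp
      ring)
    rw [map_sub, map_smul, smul_eq_mul] at h1
    rw [sub_eq_zero.1 h1]
    ring
  have hLp : 0 ≤ L p := h0 p (by rw [hAp]; positivity)
  have hc : L = (L p / ‖A‖ ^ 2) • A := by
    ext v
    rw [ContinuousLinearMap.smul_apply, smul_eq_mul]
    exact hLA v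
  have hc2 : L p / ‖A‖ ^ 2 * ‖A‖ = 1 := by
    have h1 : ‖L‖ = ‖(L p / ‖A‖ ^ 2) • A‖ := by rw [← hc]
    rw [norm_smul, Real.norm_eq_abs, abs_of_nonneg (by positivity), hL] at h1
    exact h1.symm
  have hc3 : L p / ‖A‖ ^ 2 = ‖A‖⁻¹ := eq_inv_of_mul_eq_one_left hc2
  refine ⟨‖A‖⁻¹ • p, ?_, ?_, ?_⟩
  · rw [norm_smul, norm_inv, norm_norm, hpn]
    exact inv_mul_cancel₀ hAn.ne'
  · intro v
    rw [hLA v, hc3, real_inner_smul_left, hpA v]
  · intro v
    rw [real_inner_smul_left, ← hpA v]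
    field_simp

/-- The normal derivative of the squared gradient along tangential directions. -/
private lemma st_hess {g ψ : E3 → ℝ} {y ν : E3} (hg : ContDiffAt ℝ ∞ g y)
    (hψ : ContDiffAt ℝ ∞ ψ y) (hψ0 : ψ y = 0) (hψd : fderiv ℝ ψ y ≠ 0)
    (hG : ∀ᶠ x in 𝓝 y, ψ x = 0 → ‖fderiv ℝ g x‖ = 1)
    (hgrad : ∀ v, fderiv ℝ g y v = inner ℝ ν v) {τ : E3} (hτ : fderiv ℝ ψ y τ = 0) :
    fderiv ℝ (fderiv ℝ g) y τ ν = 0 := by
  let T0 : (E3 →L[ℝ] ℝ) →ₗ[ℝ] E3 :=
    { toFun := fun L => (InnerProductSpace.toDual ℝ E3).symm L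
      map_add' := fun L M => map_add _ L M
      map_smul' := fun c L => by
        refine ext_inner_right ℝ fun v => ?_
        rw [InnerProductSpace.toDual_symm_apply, RingHom.id_apply, real_inner_smul_left,
          InnerProductSpace.toDual_symm_apply]
        rfl }
  let T : (E3 →L[ℝ] ℝ) →L[ℝ] E3 := T0.mkContinuous 1 (fun L => by
    rw [one_mul]
    exact (LinearIsometryEquiv.norm_map (InnerProductSpace.toDual ℝ E3).symm L).le)
  have hTa : ∀ L, T L = (InnerProductSpace.toDual ℝ E3).symm L := fun L => rfl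
  have hTn : ∀ L, ‖T L‖ = ‖L‖ := fun L => by rw [hTa, LinearIsometryEquiv.norm_map]
  have hTi : ∀ L v, inner ℝ (T L) v = L v := fun L v => by
    rw [hTa, InnerProductSpace.toDual_symm_apply]
  have hTy : T (fderiv ℝ g y) = ν := by
    refine ext_inner_right ℝ fun v => ?_
    rw [hTi, hgrad]
  have hfg : ContDiffAt ℝ 1 (fderiv ℝ g) y := hg.fderiv_right (by norm_cast)
  have hfd : HasFDerivAt (fderiv ℝ g) (fderiv ℝ (fderiv ℝ g) y) y :=
    (hfg.differentiableAt (by simp)).hasFDerivAt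
  have hGc : ContDiffAt ℝ 1 (fun x => T (fderiv ℝ g x)) y := T.contDiff.contDiffAt.comp y hfg
  have hGd : HasFDerivAt (fun x => T (fderiv ℝ g x)) (T.comp (fderiv ℝ (fderiv ℝ g) y)) y :=
    T.hasFDerivAt.comp y hfd
  have hn2 : ContDiffAt ℝ 1 (fun x => ‖T (fderiv ℝ g x)‖ ^ 2) y := hGc.norm_sq ℝ
  have hn3 := hGd.norm_sq
  have hstrict := hn2.hasStrictFDerivAt (by simp)
  have hψs : HasStrictFDerivAt ψ (fderiv ℝ ψ y) y := hψ.hasStrictFDerivAt (by simp)
  have hextr : IsLocalExtrOn (fun x => ‖T (fderiv ℝ g x)‖ ^ 2) {x | ψ x = ψ y} y := by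
    left
    have h1 : ‖fderiv ℝ g y‖ = 1 := hG.self_of_nhds hψ0
    have h2 : ∀ᶠ x in 𝓝[{x | ψ x = ψ y}] y, ψ x = ψ y := self_mem_nhdsWithin
    have h3 : ∀ᶠ x in 𝓝[{x | ψ x = ψ y}] y, ψ x = 0 → ‖fderiv ℝ g x‖ = 1 :=
      nhdsWithin_le_nhds hG
    filter_upwards [h2, h3] with x hx1 hx2
    rw [hTn, hTn, h1, hx2 (hx1.trans hψ0)]
  obtain ⟨a, b, hab, h⟩ := hextr.exists_multipliers_of_hasStrictFDerivAt_1d hψs hstrict
  have hb : b ≠ 0 := by
    intro hb
    rw [hb, zero_smul, add_zero] at h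
    rcases smul_eq_zero.1 h with h' | h'
    · exact hab (by rw [h', hb]; rfl)
    · exact hψd h'
  have h4 := congrArg (fun L : E3 →L[ℝ] ℝ => L τ) h
  simp only [ContinuousLinearMap.add_apply, ContinuousLinearMap.smul_apply, smul_eq_mul, hτ,
    mul_zero, zero_add, ContinuousLinearMap.zero_apply] at h4
  have h5 : fderiv ℝ (fun x => ‖T (fderiv ℝ g x)‖ ^ 2) y τ = 0 := by
    rcases mul_eq_zero.1 h4 with h' | h'
    · exact absurd h' hb
    · exact h'
  rw [hn3.fderiv] at h5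
  simp only [ContinuousLinearMap.comp_apply, hTy, ContinuousLinearMap.smul_apply,
    innerSL_apply_apply, smul_eq_mul] at h5
  have h6 : inner ℝ ν (T (fderiv ℝ (fderiv ℝ g) y τ)) = fderiv ℝ (fderiv ℝ g) y τ ν := by
    rw [real_inner_comm, hTi]
  rw [h6] at h5
  simpa using h5

theorem exists_side {u : E3 → ℝ} (hu : IsEntireSolution u) {y : E3}
    (hy : y ∈ frontier {x | 0 < u x}) {z : ℕ → E3} (hz : Tendsto z atTop (𝓝 y))
    (hpos : ∀ n, 0 < u (z n)) {r₀ : ℝ} (hr₀ : 0 < r₀) :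
    ∃ ν ρ g, ρ ≤ r₀ ∧ SideAt u y ν ρ g ∧
      ∃ᶠ n in atTop, (u =ᶠ[𝓝 (z n)] g) ∧ ∀ s ∈ Icc (0 : ℝ) ρ, 0 < u (z n + s • ν) := by
  obtain ⟨V, hV, hyV, φ, hφ, hφd, hFV, hside⟩ := hu.boundary y hy
  have hzero : ∀ x ∈ V, φ x = 0 → x ∈ frontier {x | 0 < u x} := fun x hx h0 => by
    have : x ∈ {x | φ x = 0} ∩ V := ⟨h0, hx⟩
    rw [← hFV] at this
    exact this.1
  have hφy : φ y = 0 := by
    have : y ∈ frontier {x | 0 < u x} ∩ V := ⟨hy, hyV⟩
    rw [hFV] at this
    exact this.1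
  have hzV : ∀ᶠ n in atTop, z n ∈ V := hz.eventually (hV.mem_nhds hyV)
  have hzφ : ∀ᶠ n in atTop, (z n ∈ V ∧ 0 < (1 : ℝ) * φ (z n)) ∨
      (z n ∈ V ∧ 0 < (-1 : ℝ) * φ (z n)) := by
    filter_upwards [hzV] with n hn
    have h1 : φ (z n) ≠ 0 := fun h0 => by
      have := st_zero_of_frontier hu (hzero _ hn h0)
      exact absurd this (hpos n).ne'
    rcases lt_or_gt_of_ne h1 with h2 | h2
    · exact Or.inr ⟨hn, by linarith⟩
    · exact Or.inl ⟨hn, by linarith⟩
  obtain ⟨s, hs, hfreq⟩ : ∃ s : ℝ, (s = 1 ∨ s = -1) ∧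
      ∃ᶠ n in atTop, z n ∈ V ∧ 0 < s * φ (z n) := by
    rcases Filter.frequently_or_distrib.1 hzφ.frequently with h | h
    · exact ⟨1, Or.inl rfl, h⟩
    · exact ⟨-1, Or.inr rfl, h⟩
  obtain ⟨g, hg, hgpos, hgeq, hgn⟩ : ∃ g : E3 → ℝ, ContDiffOn ℝ ∞ g V ∧
      (∀ x ∈ V, 0 < s * φ x → 0 < u x) ∧ (∀ x ∈ V, 0 ≤ s * φ x → u x = g x) ∧
      ∀ x ∈ V, φ x = 0 → ‖fderiv ℝ g x‖ = 1 := by
    rcases hside s hs with h | h
    · obtain ⟨n, hn1, hn2⟩ := hfreq.exists
      exact absurd (h _ hn1 hn2) (hpos n).ne'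
    · exact h
  have hs0 : s ≠ 0 := by rcases hs with h | h <;> rw [h] <;> norm_num
  set ψ : E3 → ℝ := fun x => s * φ x with hψdef
  have hφat : ContDiffAt ℝ ∞ φ y := hφ.contDiffAt (hV.mem_nhds hyV)
  have hψat : ContDiffAt ℝ ∞ ψ y := contDiffAt_const.mul hφat
  have hψfd : fderiv ℝ ψ y = s • fderiv ℝ φ y := by
    rw [hψdef]
    exact fderiv_const_mul (hφat.differentiableAt (by simp)) s
  have hA : fderiv ℝ ψ y ≠ 0 := by
    rw [hψfd]
    exact smul_ne_zero hs0 (hφd y hyV)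
  have hψy : ψ y = 0 := by rw [hψdef]; simp [hφy]
  have hgat : ContDiffAt ℝ ∞ g y := hg.contDiffAt (hV.mem_nhds hyV)
  have hgy : g y = 0 := by
    rw [← hgeq y hyV (by rw [hφy]; simp)]
    exact st_zero_of_frontier hu hy
  have hgd : DifferentiableAt ℝ g y := hgat.differentiableAt (by simp)
  have hψdd : DifferentiableAt ℝ ψ y := hψat.differentiableAt (by simp)
  -- the gradient of g
  have hmono : ∀ v, 0 < fderiv ℝ ψ y v → 0 ≤ fderiv ℝ g y v := by
    intro v hv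
    have h1 : Tendsto (fun t : ℝ => t⁻¹ • (ψ (y + t • v) - ψ y)) (𝓝[>] 0)
        (𝓝 (fderiv ℝ ψ y v)) :=
      (hψdd.hasFDerivAt.hasLineDerivAt v).tendsto_slope_zero_right
    have h2 : Tendsto (fun t : ℝ => t⁻¹ • (g (y + t • v) - g y)) (𝓝[>] 0)
        (𝓝 (fderiv ℝ g y v)) :=
      (hgd.hasFDerivAt.hasLineDerivAt v).tendsto_slope_zero_right
    have h3 : ∀ᶠ t in 𝓝[>] (0 : ℝ), y + t • v ∈ V := by
      have h4 : Tendsto (fun t : ℝ => y + t • v) (𝓝[>] 0) (𝓝 y) := by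
        have : Continuous fun t : ℝ => y + t • v := by fun_prop
        have h5 := this.tendsto 0
        simp only [zero_smul, add_zero] at h5
        exact h5.mono_left nhdsWithin_le_nhds
      exact h4.eventually (hV.mem_nhds hyV)
    refine ge_of_tendsto h2 ?_
    filter_upwards [h1.eventually (lt_mem_nhds hv), h3, self_mem_nhdsWithin] with t ht1 ht2 ht3
    have ht0 : (0 : ℝ) < t := ht3
    rw [hψy, sub_zero, smul_eq_mul] at ht1
    have h6 : 0 < s * φ (y + t • v) := by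
      have := mul_pos ht0 ht1
      rwa [← mul_assoc, mul_inv_cancel₀ ht0.ne', one_mul] at this
    have h7 := hgpos _ ht2 h6
    rw [hgeq _ ht2 h6.le] at h7
    rw [hgy, sub_zero, smul_eq_mul]
    positivity
  obtain ⟨ν, hν, hgν, hAν⟩ := st_dual hA (hgn y hyV hφy) hmono
  -- choice of the radius
  obtain ⟨K, hK, r, hr, hd, hb⟩ := st_quad hψat
  obtain ⟨r1, hr1, hr1V⟩ := Metric.mem_nhds_iff.1 (hV.mem_nhds hyV)
  set a : ℝ := ‖fderiv ℝ ψ y‖ with ha
  have ha0 : 0 < a := norm_pos_iff.2 hA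
  set R : ℝ := min (min r r1) (a / (2 * K)) with hR
  have hR0 : 0 < R := lt_min (lt_min hr hr1) (by positivity)
  have hRr : R ≤ r := (min_le_left _ _).trans (min_le_left _ _)
  have hRr1 : R ≤ r1 := (min_le_left _ _).trans (min_le_right _ _)
  have hRK : K * R ≤ a / 2 := by
    have h1 : R ≤ a / (2 * K) := min_le_right _ _
    rw [le_div_iff₀ (by positivity)] at h1
    linarith
  set ρ : ℝ := min r₀ (R / 4) with hρ
  have hρ0 : 0 < ρ := lt_min hr₀ (by positivity)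
  have hρR : ρ ≤ R / 4 := min_le_right _ _
  have hball : ∀ x ∈ ball (y + ρ • ν) ρ, x ∈ V ∧ 0 < s * φ x := by
    intro x hx
    obtain ⟨v, rfl⟩ : ∃ v, x = y + v := ⟨x - y, by abel⟩
    rw [mem_ball, dist_eq_norm] at hx
    have hx' : ‖v - ρ • ν‖ < ρ := by
      have : y + v - (y + ρ • ν) = v - ρ • ν := by abel
      rwa [this] at hx
    have hvn : ‖v‖ < R := by
      have h1 : ‖v‖ ≤ ‖v - ρ • ν‖ + ‖ρ • ν‖ := by
        have := norm_add_le (v - ρ • ν) (ρ • ν)
        rwa [sub_add_cancel] at this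
      rw [norm_smul, hν, mul_one, Real.norm_eq_abs, abs_of_pos hρ0] at h1
      linarith
    have hin : ‖v‖ ^ 2 < 2 * ρ * inner ℝ ν v := by
      have h1 : ‖v - ρ • ν‖ ^ 2 < ρ ^ 2 := by
        have h0 := norm_nonneg (v - ρ • ν)
        nlinarith
      rw [norm_sub_sq_real, real_inner_smul_right, norm_smul, hν, mul_one, Real.norm_eq_abs,
        abs_of_pos hρ0, real_inner_comm] at h1
      nlinarith
    refine ⟨hr1V ?_, ?_⟩
    · rw [mem_ball, dist_eq_norm]
      have : y + v - y = v := by abel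
      rw [this]; linarith
    · have h1 := st_second hK hd hb (v := v) (by linarith)
      rw [hψy, sub_zero, hAν v, abs_le] at h1
      have h2 : 0 ≤ ‖v‖ := norm_nonneg v
      have h3 : K * ‖v‖ * ‖v‖ < a * inner ℝ ν v := by
        have h4 : K * ‖v‖ * ‖v‖ = K * ‖v‖ ^ 2 := by ring
        rw [h4]
        have h5 : K * ‖v‖ ^ 2 < K * (2 * ρ * inner ℝ ν v) := mul_lt_mul_of_pos_left hin hK
        have h6 : 0 < inner ℝ ν v := by
          by_contra hcon
          push Not at hcon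
          have : 2 * ρ * inner ℝ ν v ≤ 0 := mul_nonpos_of_nonneg_of_nonpos (by positivity) hcon
          have h7 : 0 ≤ ‖v‖ ^ 2 := by positivity
          linarith
        have h8 : K * (2 * ρ) ≤ a := by nlinarith
        have h9 : K * (2 * ρ * inner ℝ ν v) = K * (2 * ρ) * inner ℝ ν v := by ring
        rw [h9] at h5
        exact h5.trans_le (mul_le_mul_of_nonneg_right h8 h6.le)
      have h10 : ψ (y + v) = s * φ (y + v) := rfl
      rw [← h10]
      linarith [h1.1]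
  refine ⟨ν, ρ, g, min_le_left _ _, ?_, ?_⟩
  · refine ⟨hν, hρ0, fun x hx => hgpos x (hball x hx).1 (hball x hx).2,
      fun x hx => hgeq x (hball x hx).1 (hball x hx).2.le, hgat, hgy, hgν, ?_⟩
    intro τ hτ
    refine st_hess hgat hψat hψy hA ?_ hgν (by rw [hAν, hτ, mul_zero])
    filter_upwards [hV.mem_nhds hyV] with x hx h0
    refine hgn x hx ?_
    rcases mul_eq_zero.1 h0 with h | h
    · exact absurd h hs0
    · exact h
  · have hnear : ∀ᶠ n in atTop, z n ∈ ball y (R / 2) :=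
      hz.eventually (ball_mem_nhds y (by positivity))
    refine (hfreq.and_eventually hnear).mono ?_
    rintro n ⟨⟨hn1, hn2⟩, hn3⟩
    refine ⟨?_, ?_⟩
    · filter_upwards [st_pos_side hV hφ hn1 hn2] with x hx
      exact hgeq x hx.1 hx.2.le
    · intro t ht
      have hzR : z n ∈ ball y R := ball_subset_ball (by linarith) hn3
      have hzt : z n + t • ν ∈ ball y R := by
        rw [mem_ball, dist_eq_norm] at hn3 ⊢
        have h1 : z n + t • ν - y = (z n - y) + t • ν := by abel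
        rw [h1]
        have h2 := norm_add_le (z n - y) (t • ν)
        rw [norm_smul, hν, mul_one, Real.norm_eq_abs, abs_of_nonneg ht.1] at h2
        have h3 := ht.2
        linarith
      have h1 := st_first (r := R) (fun x hx => hd x (ball_subset_ball hRr hx))
        (fun x hx => hb x (ball_subset_ball hRr hx)) hK hzR hzt
      rw [hAν, real_inner_smul_right, real_inner_self_eq_norm_sq, hν, norm_smul, hν, mul_one,
        Real.norm_eq_abs, abs_of_nonneg ht.1, abs_le] at h1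
      refine hgpos _ (hr1V (ball_subset_ball hRr1 hzt)) ?_
      have h2 : ψ (z n) = s * φ (z n) := rfl
      have h3 : ψ (z n + t • ν) = s * φ (z n + t • ν) := rfl
      rw [← h3]
      have h4 : K * R * t ≤ a / 2 * t := mul_le_mul_of_nonneg_right hRK ht.1
      have h5 : 0 ≤ a * t := mul_nonneg ha0.le ht.1
      rw [← h2] at hn2
      nlinarith [h1.1]

/-- Shrinking the interior ball. -/
theorem SideAt.shrink {u : E3 → ℝ} {y ν : E3} {ρ : ℝ} {g : E3 → ℝ} (h : SideAt u y ν ρ g)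
    {ρ' : ℝ} (h0 : 0 < ρ') (h1 : ρ' ≤ ρ) : SideAt u y ν ρ' g := by
  have hsub : ball (y + ρ' • ν) ρ' ⊆ ball (y + ρ • ν) ρ := by
    refine ball_subset_ball' ?_
    rw [dist_eq_norm]
    have h2 : y + ρ' • ν - (y + ρ • ν) = (ρ' - ρ) • ν := by
      rw [sub_smul]; abel
    rw [h2, norm_smul, h.norm_nu, mul_one, Real.norm_eq_abs, abs_sub_comm,
      abs_of_nonneg (by linarith)]
    linarith
  exact ⟨h.norm_nu, h0, fun x hx => h.pos x (hsub hx), fun x hx => h.eq x (hsub hx), h.smooth,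
    h.zero, h.grad, h.hess⟩

theorem SideAt.lower {u : E3 → ℝ} {y ν : E3} {ρ : ℝ} {g : E3 → ℝ} (h : SideAt u y ν ρ g)
    {ε : ℝ} (hε : 0 < ε) : ∀ᶠ s in 𝓝[>] (0 : ℝ), (1 - ε) * s ≤ u (y + s • ν) := by
  have hgd : DifferentiableAt ℝ g y := h.smooth.differentiableAt (by simp)
  have h1 : Tendsto (fun t : ℝ => t⁻¹ • (g (y + t • ν) - g y)) (𝓝[>] 0)
      (𝓝 (fderiv ℝ g y ν)) :=
    (hgd.hasFDerivAt.hasLineDerivAt ν).tendsto_slope_zero_right
  rw [h.grad, real_inner_self_eq_norm_sq, h.norm_nu, h.zero] at h1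
  have h2 : (1 : ℝ) - ε < 1 ^ 2 := by linarith
  have h3 : ∀ᶠ t in 𝓝[>] (0 : ℝ), t < 2 * ρ :=
    nhdsWithin_le_nhds (gt_mem_nhds (by have := h.rho_pos; positivity))
  filter_upwards [h1.eventually (lt_mem_nhds h2), h3, self_mem_nhdsWithin] with t ht1 ht2 ht3
  have ht0 : (0 : ℝ) < t := ht3
  rw [sub_zero, smul_eq_mul] at ht1
  have h4 : y + t • ν ∈ ball (y + ρ • ν) ρ := by
    rw [mem_ball, dist_eq_norm]
    have h5 : y + t • ν - (y + ρ • ν) = (t - ρ) • ν := by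
      rw [sub_smul]; abel
    rw [h5, norm_smul, h.norm_nu, mul_one, Real.norm_eq_abs, abs_lt]
    constructor <;> linarith
  rw [h.eq _ h4]
  have h6 := mul_lt_mul_of_pos_left ht1 ht0
  rw [← mul_assoc, mul_inv_cancel₀ ht0.ne', one_mul] at h6
  linarith

private lemma st_upper_side {u g φ : E3 → ℝ} {V : Set E3} (hV : IsOpen V) {y : E3}
    (hyV : y ∈ V) (hg : ContDiffOn ℝ ∞ g V) (hgy : g y = 0) (hgn : ‖fderiv ℝ g y‖ = 1) {s : ℝ}
    (hgeq : ∀ x ∈ V, 0 ≤ s * φ x → u x = g x) {ε : ℝ} (hε : 0 < ε) :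
    ∀ᶠ x in 𝓝 y, 0 < s * φ x → u x ≤ (1 + ε) * dist x y := by
  have hgd : DifferentiableAt ℝ g y :=
    (hg.contDiffAt (hV.mem_nhds hyV)).differentiableAt (by simp)
  have h1 := hgd.hasFDerivAt.isLittleO.bound hε
  filter_upwards [h1, hV.mem_nhds hyV] with x hx hxV hpos
  rw [hgeq x hxV hpos.le, dist_eq_norm]
  rw [hgy, sub_zero, Real.norm_eq_abs, abs_le] at hx
  have h2 : fderiv ℝ g y (x - y) ≤ ‖x - y‖ := by
    have := (fderiv ℝ g y).le_opNorm (x - y)
    rw [hgn, one_mul, Real.norm_eq_abs] at this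
    exact (le_abs_self _).trans this
  linarith [hx.2]

theorem upper_at {u : E3 → ℝ} (hu : IsEntireSolution u) {y : E3}
    (hy : y ∈ frontier {x | 0 < u x}) {ε : ℝ} (hε : 0 < ε) :
    ∀ᶠ x in 𝓝 y, u x ≤ (1 + ε) * dist x y := by
  obtain ⟨V, hV, hyV, φ, hφ, hφd, hFV, hside⟩ := hu.boundary y hy
  have hzero : ∀ x ∈ V, φ x = 0 → x ∈ frontier {x | 0 < u x} := fun x hx h0 => by
    have : x ∈ {x | φ x = 0} ∩ V := ⟨h0, hx⟩
    rw [← hFV] at this
    exact this.1
  have hφy : φ y = 0 := by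
    have : y ∈ frontier {x | 0 < u x} ∩ V := ⟨hy, hyV⟩
    rw [hFV] at this
    exact this.1
  have key : ∀ s : ℝ, (s = 1 ∨ s = -1) →
      ∀ᶠ x in 𝓝 y, 0 < s * φ x → u x ≤ (1 + ε) * dist x y := by
    intro s hs
    rcases hside s hs with h | ⟨g, hg, -, hgeq, hgn⟩
    · filter_upwards [hV.mem_nhds hyV] with x hx hpos
      rw [h x hx hpos]
      positivity
    · have hgy : g y = 0 := by
        rw [← hgeq y hyV (by rw [hφy]; simp)]
        exact st_zero_of_frontier hu hy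
      exact st_upper_side hV hyV hg hgy (hgn y hyV hφy) hgeq hε
  filter_upwards [key 1 (Or.inl rfl), key (-1) (Or.inr rfl), hV.mem_nhds hyV] with x h1 h2 h3
  rcases lt_trichotomy (φ x) 0 with h | h | h
  · exact h2 (by linarith)
  · rw [st_zero_of_frontier hu (hzero x h3 h)]
    positivity
  · exact h1 (by linarith)

theorem grad_tendsto {u : E3 → ℝ} (hu : IsEntireSolution u) {y : E3}
    (hy : y ∈ frontier {x | 0 < u x}) :
    Tendsto (fun x => ‖fderiv ℝ u x‖) (𝓝[{x | 0 < u x}] y) (𝓝 1) := by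
  obtain ⟨V, hV, hyV, φ, hφ, hφd, hFV, hside⟩ := hu.boundary y hy
  have hzero : ∀ x ∈ V, φ x = 0 → x ∈ frontier {x | 0 < u x} := fun x hx h0 => by
    have : x ∈ {x | φ x = 0} ∩ V := ⟨h0, hx⟩
    rw [← hFV] at this
    exact this.1
  have hφy : φ y = 0 := by
    have : y ∈ frontier {x | 0 < u x} ∩ V := ⟨hy, hyV⟩
    rw [hFV] at this
    exact this.1
  rw [Metric.tendsto_nhds]
  intro δ hδ
  have key : ∀ s : ℝ, (s = 1 ∨ s = -1) →
      ∀ᶠ x in 𝓝 y, 0 < s * φ x → 0 < u x → dist ‖fderiv ℝ u x‖ 1 < δ := by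
    intro s hs
    rcases hside s hs with h | ⟨g, hg, -, hgeq, hgn⟩
    · filter_upwards [hV.mem_nhds hyV] with x hx hpos hux
      exact absurd (h x hx hpos) hux.ne'
    · have hgat : ContDiffAt ℝ ∞ g y := hg.contDiffAt (hV.mem_nhds hyV)
      have h1 : ContinuousAt (fderiv ℝ g) y :=
        (hgat.fderiv_right (m := 0) (by norm_cast)).continuousAt
      have h2 : Tendsto (fun x => ‖fderiv ℝ g x‖) (𝓝 y) (𝓝 1) := by
        have := h1.norm.tendsto
        rwa [hgn y hyV hφy] at this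
      rw [Metric.tendsto_nhds] at h2
      filter_upwards [h2 δ hδ, hV.mem_nhds hyV] with x hx hxV hpos _
      have h3 : u =ᶠ[𝓝 x] g := by
        filter_upwards [st_pos_side hV hφ hxV hpos] with w hw
        exact hgeq w hw.1 hw.2.le
      rw [h3.fderiv_eq]
      exact hx
  have h1 := nhdsWithin_le_nhds (s := {x | 0 < u x}) (key 1 (Or.inl rfl))
  have h2 := nhdsWithin_le_nhds (s := {x | 0 < u x}) (key (-1) (Or.inr rfl))
  have h3 := nhdsWithin_le_nhds (s := {x | 0 < u x}) (hV.mem_nhds hyV)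
  filter_upwards [h1, h2, h3, self_mem_nhdsWithin] with x hx1 hx2 hx3 hx4
  have hux : 0 < u x := hx4
  rcases lt_trichotomy (φ x) 0 with h | h | h
  · exact hx2 (by linarith) hux
  · exact absurd (st_zero_of_frontier hu (hzero x hx3 h)) hux.ne'
  · exact hx1 (by linarith) hux

theorem grad_near {u : E3 → ℝ} (hu : IsEntireSolution u) {C : Set E3} (hC : IsCompact C)
    {δ : ℝ} (hδ : 0 < δ) :
    ∃ ε, 0 < ε ∧ ∀ x ∈ C, 0 < u x → u x < ε → |‖fderiv ℝ u x‖ - 1| < δ := by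
  refine hC.induction_on (p := fun S => ∃ ε, 0 < ε ∧ ∀ x ∈ S, 0 < u x → u x < ε →
    |‖fderiv ℝ u x‖ - 1| < δ) ?_ ?_ ?_ ?_
  · exact ⟨1, one_pos, fun x hx => absurd hx (notMem_empty x)⟩
  · rintro S T hST ⟨ε, hε, h⟩
    exact ⟨ε, hε, fun x hx => h x (hST hx)⟩
  · rintro S T ⟨ε, hε, h⟩ ⟨ε', hε', h'⟩
    refine ⟨min ε ε', lt_min hε hε', ?_⟩
    rintro x (hx | hx) h1 h2
    · exact h x hx h1 (h2.trans_le (min_le_left _ _))
    · exact h' x hx h1 (h2.trans_le (min_le_right _ _))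
  · intro x hx
    rcases (hu.nonneg x).eq_or_lt with h0 | h0
    · by_cases hcl : x ∈ closure {x | 0 < u x}
      · have hf : x ∈ frontier {x | 0 < u x} := by
          rw [(isOpen_pos hu).frontier_eq]
          refine ⟨hcl, ?_⟩
          intro h1
          have h2 : 0 < u x := h1
          linarith
        have h1 := Metric.tendsto_nhds.1 (grad_tendsto hu hf) δ hδ
        rw [eventually_nhdsWithin_iff] at h1
        refine ⟨{w | w ∈ {x | 0 < u x} → dist ‖fderiv ℝ u w‖ 1 < δ},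
          nhdsWithin_le_nhds h1, 1, one_pos, ?_⟩
        intro w hw h2 _
        have h3 := hw h2
        rwa [Real.dist_eq] at h3
      · refine ⟨(closure {x | 0 < u x})ᶜ,
          nhdsWithin_le_nhds (isClosed_closure.isOpen_compl.mem_nhds hcl), 1, one_pos, ?_⟩
        intro w hw h2 _
        have h3 : w ∈ {x | 0 < u x} := h2
        exact absurd (subset_closure h3) hw
    · refine ⟨{w | u x / 2 < u w}, nhdsWithin_le_nhds
        ((isOpen_lt continuous_const hu.continuous).mem_nhds ?_), u x / 2, by positivity, ?_⟩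
      · change u x / 2 < u x
        linarith
      · intro w hw h1 h2
        have h3 : u x / 2 < u w := hw
        linarith

end FB75
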