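import Pool.Agent.FB75.Smooth
import Pool.Agent.FB75.Struct
import Pool.Agent.FB75.Mass

/-!
# The gradient bound
-/

open MeasureTheory Metric Set Filter Topology InnerProductSpace Laplacian
open scoped ContDiff

namespace FB75

/-- The truncated cube of a harmonic function is of class `C²` and subharmonic. -/
private theorem grad_trc {h : E3 → ℝ} {x : E3} (hh : HarmonicAt h x) (ε : ℝ) :
    ContDiffAt ℝ 2 (fun y => trc ε (h y)) x ∧ 0 ≤ Δ (fun y => trc ε (h y)) x := by
  have hc : ContDiffAt ℝ 2 (fun y => trc ε (h y)) x := (trc_contDiff ε).contDiffAt.comp x hh.1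
  refine ⟨hc, ?_⟩
  rw [laplacian_eq_sum hc]
  have hud : ∀ᶠ y in 𝓝 x, DifferentiableAt ℝ h y := by
    filter_upwards [hh.1.eventually (by simp)] with y hy
    exact hy.differentiableAt (by norm_num)
  have h1 : ∀ i, (fun y => fderiv ℝ (fun x => trc ε (h x)) y (ei i)) =ᶠ[𝓝 x]
      fun y => (3 * (max 0 (h y - ε)) ^ 2) * fderiv ℝ h y (ei i) := by
    intro i
    filter_upwards [hud] with y hy
    have h2 := (trc_hasDerivAt ε (h y)).comp_hasFDerivAt y hy.hasFDerivAt
    have h3 : fderiv ℝ (fun x => trc ε (h x)) y = (3 * (max 0 (h y - ε)) ^ 2) • fderiv ℝ h y :=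
      h2.fderiv
    rw [h3]
    rfl
  have h2 : ∀ i, fderiv ℝ (fun y => fderiv ℝ (fun x => trc ε (h x)) y (ei i)) x (ei i) =
      6 * max 0 (h x - ε) * (fderiv ℝ h x (ei i)) ^ 2 + 3 * (max 0 (h x - ε)) ^ 2 *
        fderiv ℝ (fun y => fderiv ℝ h y (ei i)) x (ei i) := by
    intro i
    rw [(h1 i).fderiv_eq]
    have hd1 : HasFDerivAt (fun y => 3 * (max 0 (h y - ε)) ^ 2)
        ((6 * max 0 (h x - ε)) • fderiv ℝ h x) x :=
      (trc_hasDerivAt2 ε (h x)).comp_hasFDerivAt x
        (hh.1.differentiableAt (by norm_num)).hasFDerivAt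
    have hd2 : HasFDerivAt (fun y => fderiv ℝ h y (ei i))
        (fderiv ℝ (fun y => fderiv ℝ h y (ei i)) x) x :=
      (((hh.1.fderiv_right (m := 1) (by norm_num)).differentiableAt (by norm_num)).clm_apply
        (differentiableAt_const _)).hasFDerivAt
    have hd3 : HasFDerivAt (fun y => (3 * (max 0 (h y - ε)) ^ 2) * fderiv ℝ h y (ei i)) _ x :=
      hd1.mul hd2
    rw [hd3.fderiv]
    simp only [add_apply, smul_apply, smul_eq_mul]
    ring
  simp only [h2]
  rw [Finset.sum_add_distrib, ← Finset.mul_sum]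
  have h4 : ∑ i, fderiv ℝ (fun y => fderiv ℝ h y (ei i)) x (ei i) = 0 := by
    rw [← laplacian_eq_sum hh.1, hh.2.self_of_nhds]; rfl
  have h5 : ∑ i, 3 * (max 0 (h x - ε)) ^ 2 * fderiv ℝ (fun y => fderiv ℝ h y (ei i)) x (ei i) = 0 := by
    rw [← Finset.mul_sum, h4, mul_zero]
  rw [h5, add_zero]
  have : 0 ≤ max 0 (h x - ε) := le_max_left _ _
  positivity

/-- A crude gradient bound. -/
private theorem grad_crude : ∃ L : ℝ, 0 < L ∧ ∀ u : E3 → ℝ, IsEntireSolution u →
    (∃ x, u x = 0) → ∀ x, 0 < u x → ‖fderiv ℝ u x‖ ≤ L := by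
  obtain ⟨C, hC, hb⟩ := grad_bound
  have hC0 := C0_pos
  refine ⟨C * (2 * C0), by positivity, fun u hu hK x hx => ?_⟩
  obtain ⟨y, hy⟩ := hK
  obtain ⟨y₀, d, hy₀, hd, hyx, -, -, hharm⟩ := exists_nearest hu hx hy
  have h1 := hb u x d (C0 * (2 * d)) hd hharm (fun v hv => by
    rw [abs_of_nonneg (hu.nonneg v)]
    refine (lip hu v hy₀).trans ?_
    refine mul_le_mul_of_nonneg_left ?_ hC0.le
    have h2 := dist_triangle v x y₀
    rw [mem_ball] at hv
    rw [dist_comm x y₀, hyx] at h2
    linarith)
  refine h1.trans (le_of_eq ?_)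
  field_simp

/-- The `C¹` truncation. -/
private noncomputable def grad_H (a s : ℝ) : ℝ :=
  ((max 0 (s - a)) ^ 2 - (max 0 (s - 2 * a)) ^ 2) / (2 * a)

/-- Its derivative. -/
private noncomputable def grad_H' (a s : ℝ) : ℝ := (max 0 (s - a) - max 0 (s - 2 * a)) / a

private theorem grad_H_deriv {a : ℝ} (ha : 0 < a) (s : ℝ) :
    HasDerivAt (grad_H a) (grad_H' a s) s := by
  have h1 := (hasDerivAt_posPow 0 (s - a)).comp s ((hasDerivAt_id s).sub_const a)
  have h2 := (hasDerivAt_posPow 0 (s - 2 * a)).comp s ((hasDerivAt_id s).sub_const (2 * a))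
  have h3 := (h1.sub h2).div_const (2 * a)
  have h4 : HasDerivAt (grad_H a) _ s := h3
  refine h4.congr_deriv ?_
  unfold grad_H'
  norm_num
  field_simp

private theorem grad_H_zero {a s : ℝ} (ha : 0 < a) (hs : s ≤ a) : grad_H a s = 0 := by
  unfold grad_H
  rw [max_eq_left (by linarith), max_eq_left (by linarith)]
  simp

private theorem grad_H'_zero {a s : ℝ} (ha : 0 < a) (hs : s ≤ a) : grad_H' a s = 0 := by
  unfold grad_H'
  rw [max_eq_left (by linarith), max_eq_left (by linarith)]
  simp

private theorem grad_H'_one {a s : ℝ} (ha : 0 < a) (hs : 2 * a ≤ s) : grad_H' a s = 1 := by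
  unfold grad_H'
  rw [max_eq_right (by linarith), max_eq_right (by linarith)]
  field_simp
  ring

private theorem grad_H'_nonneg {a : ℝ} (ha : 0 < a) (s : ℝ) : 0 ≤ grad_H' a s := by
  unfold grad_H'
  refine div_nonneg ?_ ha.le
  have : max 0 (s - 2 * a) ≤ max 0 (s - a) := max_le_max le_rfl (by linarith)
  linarith

private theorem grad_H'_le {a : ℝ} (ha : 0 < a) (s : ℝ) : grad_H' a s ≤ 1 := by
  unfold grad_H'
  rw [div_le_one ha, sub_le_iff_le_add]
  refine max_le ?_ ?_
  · have := le_max_left 0 (s - 2 * a)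
    linarith
  · have := le_max_right 0 (s - 2 * a)
    linarith

private theorem grad_H_nonneg {a : ℝ} (ha : 0 < a) (s : ℝ) : 0 ≤ grad_H a s := by
  unfold grad_H
  refine div_nonneg ?_ (by positivity)
  have h1 : max 0 (s - 2 * a) ≤ max 0 (s - a) := max_le_max le_rfl (by linarith)
  have h2 : 0 ≤ max 0 (s - 2 * a) := le_max_left _ _
  nlinarith

private theorem grad_H_le {a s : ℝ} (ha : 0 < a) (hs : 0 ≤ s) : grad_H a s ≤ s := by
  unfold grad_H
  rw [div_le_iff₀ (by positivity)]
  rcases le_total s a with h | h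
  · rw [max_eq_left (by linarith), max_eq_left (by linarith)]
    nlinarith
  rcases le_total s (2 * a) with h' | h'
  · rw [max_eq_right (by linarith), max_eq_left (by linarith)]
    nlinarith
  · rw [max_eq_right (by linarith), max_eq_right (by linarith)]
    nlinarith

/-- The directional bound. -/
private theorem grad_dir {u : E3 → ℝ} (hu : IsEntireSolution u) {p : E3} (hp : u p = 0) {e : E3}
    (he : ‖e‖ = 1) {x₀ : E3} (hx₀ : 0 < u x₀) : -(fderiv ℝ u x₀ e) ≤ 1 := by
  by_contra hcon
  push Not at hcon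
  obtain ⟨L, hL, hLb⟩ := grad_crude
  have hLb := hLb u hu ⟨p, hp⟩
  set δ : ℝ := (-(fderiv ℝ u x₀ e) - 1) / 2 with hδ
  have hδ0 : 0 < δ := by rw [hδ]; linarith
  -- bound for the directional derivative
  have hdir : ∀ x, -(fderiv ℝ u x e) ≤ ‖fderiv ℝ u x‖ := by
    intro x
    have h1 := (fderiv ℝ u x).le_opNorm e
    rw [he, mul_one, Real.norm_eq_abs] at h1
    have := neg_abs_le (fderiv ℝ u x e)
    linarith
  have hdir' : ∀ x, -‖fderiv ℝ u x‖ ≤ -(fderiv ℝ u x e) := by
    intro x
    have h1 := (fderiv ℝ u x).le_opNorm e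
    rw [he, mul_one, Real.norm_eq_abs] at h1
    have := le_abs_self (fderiv ℝ u x e)
    linarith
  -- the subharmonic function
  classical
  let G : E3 → ℝ := fun x => if 0 < u x then trc (1 + δ) (-(fderiv ℝ u x e)) else 0
  have hGpos : ∀ x, 0 < u x → G x = trc (1 + δ) (-(fderiv ℝ u x e)) := fun x hx => if_pos hx
  have hGzero : ∀ x, u x = 0 → G x = 0 := fun x hx => if_neg (by rw [hx]; exact lt_irrefl 0)
  have hGK : ∀ x, u x = 0 → G =ᶠ[𝓝 x] fun _ => 0 := by
    intro x hx
    by_cases hcl : x ∈ closure {x | 0 < u x}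
    · have hfr : x ∈ frontier {x | 0 < u x} := by
        rw [(isOpen_pos hu).frontier_eq]
        refine ⟨hcl, fun h => ?_⟩
        have : 0 < u x := h
        linarith
      have h1 := grad_tendsto hu hfr
      have h2 : ∀ᶠ z in 𝓝[{x | 0 < u x}] x, ‖fderiv ℝ u z‖ < 1 + δ :=
        h1.eventually (gt_mem_nhds (by linarith))
      rw [eventually_nhdsWithin_iff] at h2
      filter_upwards [h2] with z hz
      rcases (hu.nonneg z).eq_or_lt with h | h
      · exact hGzero z h.symm
      · rw [hGpos z h]
        exact trc_eq_zero ((hdir z).trans (hz h).le)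
    · have h1 : (closure {x | 0 < u x})ᶜ ∈ 𝓝 x := isClosed_closure.isOpen_compl.mem_nhds hcl
      filter_upwards [h1] with z hz
      refine hGzero z ?_
      by_contra h
      exact hz (subset_closure (pos_of_ne hu h))
  have hGΩ : ∀ x, 0 < u x → G =ᶠ[𝓝 x] fun y => trc (1 + δ) (-(fderiv ℝ u y e)) := by
    intro x hx
    filter_upwards [(isOpen_pos hu).mem_nhds hx] with z hz
    exact hGpos z hz
  have hharm : ∀ x, 0 < u x → HarmonicAt (fun y => -(fderiv ℝ u y e)) x := by
    intro x hx
    exact (harmonicAt_fderiv (hu.harmonic x hx) e).neg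
  have hG2 : ContDiff ℝ 2 G := by
    rw [contDiff_iff_contDiffAt]
    intro x
    rcases (hu.nonneg x).eq_or_lt with h | h
    · exact (contDiffAt_const (c := (0 : ℝ))).congr_of_eventuallyEq (hGK x h.symm)
    · exact (grad_trc (hharm x h) (1 + δ)).1.congr_of_eventuallyEq (hGΩ x h)
  have hGlap : ∀ x, 0 ≤ Δ G x := by
    intro x
    rcases (hu.nonneg x).eq_or_lt with h | h
    · rw [(laplacian_congr_nhds (hGK x h.symm)).self_of_nhds]
      have : Δ (fun _ : E3 => (0 : ℝ)) = 0 := laplacian_const
      rw [this]; simp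
    · rw [(laplacian_congr_nhds (hGΩ x h)).self_of_nhds]
      exact (grad_trc (hharm x h) (1 + δ)).2
  -- the supremum
  have hGle : ∀ x, G x ≤ L ^ 3 := by
    intro x
    rcases (hu.nonneg x).eq_or_lt with h | h
    · rw [hGzero x h.symm]; positivity
    · rw [hGpos x h]
      unfold trc
      refine pow_le_pow_left₀ (le_max_left _ _) (max_le hL.le ?_) 3
      have := (hdir x).trans (hLb x h)
      linarith
  have hG0 : ∀ x, 0 ≤ G x := by
    intro x
    rcases (hu.nonneg x).eq_or_lt with h | h
    · rw [hGzero x h.symm]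
    · rw [hGpos x h]; exact trc_nonneg _ _
  have hbdd : BddAbove (range G) := ⟨L ^ 3, by rintro _ ⟨x, rfl⟩; exact hGle x⟩
  set M : ℝ := ⨆ x, G x with hM
  have hGM : ∀ x, G x ≤ M := fun x => le_ciSup hbdd x
  have hM0 : 0 < M := by
    refine lt_of_lt_of_le ?_ (hGM x₀)
    rw [hGpos x₀ hx₀]
    unfold trc
    rw [max_eq_right]
    · have : 0 < -(fderiv ℝ u x₀ e) - (1 + δ) := by rw [hδ]; linarith
      positivity
    · rw [hδ]; linarith
  -- where `G ≥ M / 2` the slope is at least one
  have hslope : ∀ x, M / 2 ≤ G x → 0 < u x ∧ 1 ≤ -(fderiv ℝ u x e) := by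
    intro x hx
    rcases (hu.nonneg x).eq_or_lt with h | h
    · rw [hGzero x h.symm] at hx; linarith
    · refine ⟨h, ?_⟩
      by_contra hlt
      push Not at hlt
      rw [hGpos x h, trc_eq_zero (by linarith)] at hx
      linarith
  -- constants
  have hC0 := C0_pos
  set η : ℝ := 1 / (4 * C0) with hη
  have hη0 : 0 < η := by rw [hη]; positivity
  set ε : ℝ := (9 / 16) * (η / (4 + 2 * η)) ^ 3 / (4 * (1 + L)) with hε
  have hε0 : 0 < ε := by rw [hε]; positivity
  obtain ⟨x₁, hx₁⟩ : ∃ x₁, M - ε * M < G x₁ := by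
    refine exists_lt_of_lt_ciSup ?_
    have : 0 < ε * M := mul_pos hε0 hM0
    linarith
  set R : ℝ := max 1 (dist p x₁) with hR
  have hR0 : 0 < R := lt_of_lt_of_le one_pos (le_max_left _ _)
  have hRd : dist p x₁ ≤ R := le_max_right _ _
  -- the defect is small in the mean
  let D : E3 → ℝ := fun x => M - G x
  have hDc : Continuous D := continuous_const.sub hG2.continuous
  have hD0 : ∀ x, 0 ≤ D x := fun x => sub_nonneg.2 (hGM x)
  have hcp := cpsi_pos
  have hDx₁ : ∀ t, 0 ≤ t → Phi D x₁ t ≤ ε * M * cpsi := by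
    intro t ht
    have h1 := Phi_mono hG2 hGlap x₁ (mem_Ici.2 le_rfl) (mem_Ici.2 ht) ht
    rw [Phi_zero] at h1
    have h2 : Phi D x₁ t = M * cpsi - Phi G x₁ t := by
      have hi : Integrable (fun w => psi w * G (x₁ + t • w)) :=
        integrable_psi_mul (hG2.continuous.comp (by fun_prop))
      unfold Phi cpsi
      rw [← integral_const_mul, ← integral_sub (integrable_psi.const_mul M) hi]
      refine integral_congr_ae (Eventually.of_forall fun w => ?_)
      simp only [D]
      ring
    rw [h2]
    nlinarith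
  have hDmean : ∀ τ ∈ Icc 0 R, (1 + L) * (2 / M) * Phi D (p + τ • e) (η * R) ≤ cpsi / 2 := by
    intro τ hτ
    have hd : dist (p + τ • e) x₁ + η * R ≤ (2 + η) * R := by
      have h1 := dist_triangle (p + τ • e) p x₁
      have h2 : dist (p + τ • e) p = τ := by
        rw [dist_eq_norm, add_sub_cancel_left, norm_smul, he, mul_one, Real.norm_of_nonneg hτ.1]
      rw [h2] at h1
      nlinarith [hτ.2]
    have ht0 : 0 < (4 + 2 * η) * R := by positivity
    have h1 := Phi_compare hDc hD0 (z := x₁) (x := p + τ • e) (t := (4 + 2 * η) * R)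
      (s := η * R) ht0 (by positivity) (by nlinarith)
    have h2 := hDx₁ ((4 + 2 * η) * R) ht0.le
    have hr : (dist (p + τ • e) x₁ + η * R) / ((4 + 2 * η) * R) ≤ 1 / 2 := by
      rw [div_le_iff₀ ht0]
      linarith
    have hr0 : 0 ≤ (dist (p + τ • e) x₁ + η * R) / ((4 + 2 * η) * R) := by
      have := dist_nonneg (x := p + τ • e) (y := x₁)
      positivity
    set r := (dist (p + τ • e) x₁ + η * R) / ((4 + 2 * η) * R) with hrdef
    have hκ : (9 / 16 : ℝ) ≤ (1 - r ^ 2) ^ 2 := by
      have h3 : (3 / 4 : ℝ) ≤ 1 - r ^ 2 := by nlinarith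
      nlinarith
    have hs : η * R / ((4 + 2 * η) * R) = η / (4 + 2 * η) := by
      field_simp
    rw [hs] at h1
    have hPhi0 : 0 ≤ Phi D (p + τ • e) (η * R) :=
      integral_nonneg fun w => mul_nonneg (psi_nonneg w) (hD0 _)
    set q := (η / (4 + 2 * η)) ^ 3 with hq
    have hq0 : 0 < q := by rw [hq]; positivity
    have h4 : q * (9 / 16) * Phi D (p + τ • e) (η * R) ≤ ε * M * cpsi := by
      refine le_trans ?_ (h1.trans h2)
      refine mul_le_mul_of_nonneg_right ?_ hPhi0
      exact mul_le_mul_of_nonneg_left hκ hq0.le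
    have h5 : ε = 9 / 16 * q / (4 * (1 + L)) := hε
    rw [h5] at h4
    have h6 : 9 / 16 * q / (4 * (1 + L)) * M * cpsi = q * (9 / 16) * (M * cpsi / (4 * (1 + L))) := by
      field_simp
    rw [h6] at h4
    have h7 : Phi D (p + τ • e) (η * R) ≤ M * cpsi / (4 * (1 + L)) :=
      le_of_mul_le_mul_left h4 (by positivity)
    have h8 : (1 + L) * (2 / M) * Phi D (p + τ • e) (η * R) ≤
        (1 + L) * (2 / M) * (M * cpsi / (4 * (1 + L))) :=
      mul_le_mul_of_nonneg_left h7 (by positivity)
    refine h8.trans (le_of_eq ?_)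
    field_simp
    ring
  -- positivity of `u` where `G` is large
  obtain ⟨a, ha, hau⟩ : ∃ a : ℝ, 0 < a ∧ ∀ z ∈ closedBall p ((1 + η) * R), M / 2 ≤ G z →
      2 * a ≤ u z := by
    have hcomp : IsCompact (closedBall p ((1 + η) * R) ∩ {z | M / 2 ≤ G z}) :=
      (isCompact_closedBall _ _).inter_right (isClosed_le continuous_const hG2.continuous)
    rcases (closedBall p ((1 + η) * R) ∩ {z | M / 2 ≤ G z}).eq_empty_or_nonempty with hem | hne
    · refine ⟨1, one_pos, fun z hz hGz => ?_⟩
      have : z ∈ closedBall p ((1 + η) * R) ∩ {z | M / 2 ≤ G z} := ⟨hz, hGz⟩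
      rw [hem] at this
      exact absurd this (notMem_empty z)
    · obtain ⟨z₀, hz₀, hmin⟩ := hcomp.exists_isMinOn hne hu.continuous.continuousOn
      refine ⟨u z₀ / 2, half_pos (hslope z₀ hz₀.2).1, fun z hz hGz => ?_⟩
      have := hmin ⟨hz, hGz⟩
      change u z₀ ≤ u z at this
      linarith
  -- pointwise lower bound
  have hpt : ∀ z ∈ closedBall p ((1 + η) * R),
      1 - (1 + L) * (2 / M) * D z ≤ -(grad_H' a (u z) * fderiv ℝ u z e) := by
    intro z hz
    have hH0 := grad_H'_nonneg ha (u z)
    have hH1 := grad_H'_le ha (u z)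
    by_cases hGz : M / 2 ≤ G z
    · obtain ⟨-, hv⟩ := hslope z hGz
      rw [grad_H'_one ha (hau z hz hGz)]
      have : 0 ≤ (1 + L) * (2 / M) * D z := mul_nonneg (by positivity) (hD0 z)
      linarith
    · push Not at hGz
      have h1 : 1 ≤ 2 / M * D z := by
        have : M / 2 ≤ D z := by simp only [D]; linarith
        calc (1 : ℝ) = 2 / M * (M / 2) := by field_simp
          _ ≤ 2 / M * D z := mul_le_mul_of_nonneg_left this (by positivity)
      have h2 : 1 + L ≤ (1 + L) * (2 / M) * D z := by
        rw [mul_assoc]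
        exact le_mul_of_one_le_right (by positivity) h1
      have h3 : -L ≤ -(grad_H' a (u z) * fderiv ℝ u z e) := by
        rcases (hu.nonneg z).eq_or_lt with h | h
        · rw [← h, grad_H'_zero ha ha.le]
          simp [hL.le]
        · have h4 := (fderiv ℝ u z).le_opNorm e
          rw [he, mul_one, Real.norm_eq_abs] at h4
          have h5 := (le_abs_self (fderiv ℝ u z e)).trans (h4.trans (hLb z h))
          nlinarith
      linarith
  -- the derivative of `H ∘ u`
  have hHu : ∀ z, HasFDerivAt (fun y => grad_H a (u y)) (grad_H' a (u z) • fderiv ℝ u z) z := by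
    intro z
    rcases (hu.nonneg z).eq_or_lt with h | h
    · rw [← h, grad_H'_zero ha ha.le, zero_smul]
      refine (hasFDerivAt_const (0 : ℝ) z).congr_of_eventuallyEq ?_
      have h1 : {y | u y < a} ∈ 𝓝 z :=
        (isOpen_lt hu.continuous continuous_const).mem_nhds (by
          change u z < a
          rw [← h]; exact ha)
      filter_upwards [h1] with y hy
      exact grad_H_zero ha (le_of_lt hy)
    · exact (grad_H_deriv ha (u z)).comp_hasFDerivAt z
        ((hu.harmonic z h).1.differentiableAt (by norm_num)).hasFDerivAt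
  have hHuc : Continuous (fun y => grad_H a (u y)) :=
    continuous_iff_continuousAt.2 fun z => (hHu z).continuousAt
  have hmeas : Measurable (fun z => grad_H' a (u z) * fderiv ℝ u z e) := by
    refine Measurable.mul ?_ (measurable_fderiv_apply_const ℝ u e)
    have : Continuous (grad_H' a) := by unfold grad_H'; fun_prop
    exact (this.comp hu.continuous).measurable
  have hbd : ∀ z, |grad_H' a (u z) * fderiv ℝ u z e| ≤ L := by
    intro z
    rcases (hu.nonneg z).eq_or_lt with h | h
    · rw [← h, grad_H'_zero ha ha.le]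
      simp [hL.le]
    · have h4 := (fderiv ℝ u z).le_opNorm e
      rw [he, mul_one, Real.norm_eq_abs] at h4
      rw [abs_mul, abs_of_nonneg (grad_H'_nonneg ha _)]
      have h5 := h4.trans (hLb z h)
      have h6 := grad_H'_le ha (u z)
      have h7 := grad_H'_nonneg ha (u z)
      nlinarith [abs_nonneg (fderiv ℝ u z e)]
  -- the averaged function along the direction `e`
  let F : ℝ → ℝ := fun τ => ∫ w, psi w * grad_H a (u (p + τ • e + (η * R) • w))
  have hFder : ∀ τ, HasDerivAt F (∫ w, psi w * (grad_H' a (u (p + τ • e + (η * R) • w)) *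
      fderiv ℝ u (p + τ • e + (η * R) • w) e)) τ := by
    intro τ
    have key := hasDerivAt_integral_of_dominated_loc_of_deriv_le (μ := (volume : Measure E3))
      (F := fun τ w => psi w * grad_H a (u (p + τ • e + (η * R) • w)))
      (F' := fun τ w => psi w * (grad_H' a (u (p + τ • e + (η * R) • w)) *
        fderiv ℝ u (p + τ • e + (η * R) • w) e))
      (x₀ := τ) (s := ball τ 1) (bound := fun w => psi w * L) (ball_mem_nhds τ one_pos)
      ?_ ?_ ?_ ?_ ?_ ?_
    · exact key.2
    · refine Eventually.of_forall fun t => ?_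
      exact (continuous_psi.mul (hHuc.comp (by fun_prop))).aestronglyMeasurable
    · exact integrable_psi_mul (hHuc.comp (by fun_prop))
    · have h1 : Measurable (fun w : E3 => p + τ • e + (η * R) • w) := by fun_prop
      exact (continuous_psi.measurable.mul (hmeas.comp h1)).aestronglyMeasurable
    · refine Eventually.of_forall fun w t _ => ?_
      rw [norm_mul, Real.norm_of_nonneg (psi_nonneg w)]
      exact mul_le_mul_of_nonneg_left (hbd _) (psi_nonneg w)
    · exact integrable_psi.mul_const L
    · refine Eventually.of_forall fun w t _ => ?_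
      have h1 : HasDerivAt (fun t : ℝ => p + t • e + (η * R) • w) e t := by
        simpa using (((hasDerivAt_id t).smul_const e).const_add p).add_const ((η * R) • w)
      exact ((hHu (p + t • e + (η * R) • w)).comp_hasDerivAt t h1).const_mul (psi w)
  have hFle : ∀ τ ∈ Icc 0 R, (∫ w, psi w * (grad_H' a (u (p + τ • e + (η * R) • w)) *
      fderiv ℝ u (p + τ • e + (η * R) • w) e)) ≤ -(cpsi / 2) := by
    intro τ hτ
    have h1 := hDmean τ hτ
    have hmeas' : AEStronglyMeasurable (fun w => psi w * (grad_H' a (u (p + τ • e + (η * R) • w)) *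
        fderiv ℝ u (p + τ • e + (η * R) • w) e)) (volume : Measure E3) := by
      have h1 : Measurable (fun w : E3 => p + τ • e + (η * R) • w) := by fun_prop
      exact (continuous_psi.measurable.mul (hmeas.comp h1)).aestronglyMeasurable
    have hint : Integrable (fun w => psi w * (grad_H' a (u (p + τ • e + (η * R) • w)) *
        fderiv ℝ u (p + τ • e + (η * R) • w) e)) := by
      refine (integrable_psi.mul_const L).mono' hmeas' (Eventually.of_forall fun w => ?_)
      rw [norm_mul, Real.norm_of_nonneg (psi_nonneg w)]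
      exact mul_le_mul_of_nonneg_left (hbd _) (psi_nonneg w)
    have hintD : Integrable (fun w => psi w * D (p + τ • e + (η * R) • w)) :=
      integrable_psi_mul (hDc.comp (by fun_prop))
    have h2 : (∫ w, psi w * (grad_H' a (u (p + τ • e + (η * R) • w)) *
        fderiv ℝ u (p + τ • e + (η * R) • w) e)) ≤
        ∫ w, (-(psi w) + (1 + L) * (2 / M) * (psi w * D (p + τ • e + (η * R) • w))) := by
      refine integral_mono hint ?_ fun w => ?_
      · exact integrable_psi.neg.add (hintD.const_mul _)
      · simp only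
        by_cases hw : 1 ≤ ‖w‖
        · rw [psi_eq_zero hw]; simp
        · push Not at hw
          have hz : p + τ • e + (η * R) • w ∈ closedBall p ((1 + η) * R) := by
            rw [mem_closedBall, dist_eq_norm]
            have h3 : p + τ • e + (η * R) • w - p = τ • e + (η * R) • w := by abel
            rw [h3]
            refine (norm_add_le _ _).trans ?_
            rw [norm_smul, norm_smul, he, mul_one, Real.norm_of_nonneg hτ.1,
              Real.norm_of_nonneg (by positivity : 0 ≤ η * R)]
            have h4 : η * R * ‖w‖ ≤ η * R := mul_le_of_le_one_right (by positivity) hw.le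
            nlinarith [hτ.2]
          have h3 := mul_le_mul_of_nonneg_left (hpt _ hz) (psi_nonneg w)
          nlinarith
    have h3 : ∫ w, (-(psi w) + (1 + L) * (2 / M) * (psi w * D (p + τ • e + (η * R) • w))) =
        -cpsi + (1 + L) * (2 / M) * Phi D (p + τ • e) (η * R) := by
      have hi1 : Integrable (fun w => -(psi w)) := integrable_psi.neg
      have hi2 : Integrable (fun w => (1 + L) * (2 / M) *
          (psi w * D (p + τ • e + (η * R) • w))) := hintD.const_mul _
      rw [integral_add hi1 hi2, integral_neg, integral_const_mul]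
      rfl
    rw [h3] at h2
    linarith
  -- the contradiction
  have hmv := Convex.image_sub_le_mul_sub_of_deriv_le (convex_Icc 0 R) (f := F)
    (fun τ _ => (hFder τ).continuousAt.continuousWithinAt)
    (fun τ _ => (hFder τ).differentiableAt.differentiableWithinAt) (C := -(cpsi / 2))
    (fun τ hτ => by
      rw [interior_Icc] at hτ
      rw [(hFder τ).deriv]
      exact hFle τ (Ioo_subset_Icc_self hτ)) 0 (left_mem_Icc.2 hR0.le) R (right_mem_Icc.2 hR0.le)
    hR0.le
  have hFR : 0 ≤ F R := integral_nonneg fun w => mul_nonneg (psi_nonneg w) (grad_H_nonneg ha _)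
  have hF0 : F 0 ≤ R / 4 * cpsi := by
    have h1 : F 0 ≤ ∫ w, psi w * (R / 4) := by
      refine integral_mono (integrable_psi_mul (hHuc.comp (by fun_prop)))
        (integrable_psi.mul_const _) fun w => ?_
      simp only
      by_cases hw : 1 ≤ ‖w‖
      · rw [psi_eq_zero hw]; simp
      · push Not at hw
        refine mul_le_mul_of_nonneg_left ?_ (psi_nonneg w)
        refine (grad_H_le ha (hu.nonneg _)).trans ((lip hu _ hp).trans ?_)
        have h2 : p + (0 : ℝ) • e + (η * R) • w - p = (η * R) • w := by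
          rw [zero_smul]; abel
        rw [dist_eq_norm, h2, norm_smul, Real.norm_of_nonneg (by positivity : 0 ≤ η * R)]
        have h3 : η * R * ‖w‖ ≤ η * R := mul_le_of_le_one_right (by positivity) hw.le
        calc C0 * (η * R * ‖w‖) ≤ C0 * (η * R) := mul_le_mul_of_nonneg_left h3 hC0.le
          _ = R / 4 := by rw [hη]; field_simp
    rw [integral_mul_const] at h1
    have h2 : (∫ w : E3, psi w) = cpsi := rfl
    rw [h2] at h1
    linarith
  have h9 : 0 < R * cpsi := mul_pos hR0 hcp
  nlinarith

theorem norm_fderiv_le_one {u : E3 → ℝ} (hu : IsEntireSolution u) (hK : ∃ x, u x = 0) {x : E3}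
    (hx : 0 < u x) : ‖fderiv ℝ u x‖ ≤ 1 := by
  obtain ⟨p, hp⟩ := hK
  refine ContinuousLinearMap.opNorm_le_bound _ zero_le_one fun v => ?_
  rw [one_mul]
  rcases eq_or_ne v 0 with rfl | hv
  · simp
  have hv0 : 0 < ‖v‖ := norm_pos_iff.2 hv
  set e : E3 := ‖v‖⁻¹ • v with he
  have hen : ‖e‖ = 1 := by
    rw [he, norm_smul, norm_inv, norm_norm, inv_mul_cancel₀ hv0.ne']
  have hve : v = ‖v‖ • e := by
    rw [he, smul_smul, mul_inv_cancel₀ hv0.ne', one_smul]
  have h1 := grad_dir hu hp hen hx
  have h2 := grad_dir hu hp (e := -e) (by rw [norm_neg]; exact hen) hx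
  rw [map_neg, neg_neg] at h2
  rw [hve, map_smul, norm_smul, norm_smul, norm_norm, hen, Real.norm_eq_abs]
  refine mul_le_mul_of_nonneg_left ?_ hv0.le
  rw [abs_le]
  constructor <;> linarith

end FB75
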