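import Pool.Agent.FB75.Tube
import Pool.Agent.FB75.Grad

/-!
# Translation invariance of the zero phase implies translation invariance of the solution
-/

open MeasureTheory Metric Set Filter Topology InnerProductSpace Laplacian
open scoped ContDiff

namespace FB75

/-- The normal is orthogonal to a direction of invariance. -/
private theorem transInv_orth {u : E3 → ℝ} {l : E3} (hl : ‖l‖ = 1)
    (hinv : ∀ (x : E3) (s : ℝ), u x = 0 → u (x + s • l) = 0) {y ν : E3} {ρ : ℝ} {g : E3 → ℝ}
    (hs : SideAt u y ν ρ g) (hy : u y = 0) : inner ℝ ν l = 0 := by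
  by_contra hc
  have hρ := hs.rho_pos
  have hmem : y + (ρ * inner ℝ ν l) • l ∈ ball (y + ρ • ν) ρ := by
    rw [mem_ball, dist_eq_norm]
    have h1 : y + (ρ * inner ℝ ν l) • l - (y + ρ • ν) = (ρ * inner ℝ ν l) • l - ρ • ν := by
      abel
    rw [h1]
    have h2 : ‖(ρ * inner ℝ ν l) • l - ρ • ν‖ ^ 2 < ρ ^ 2 := by
      rw [norm_sub_sq_real, norm_smul, norm_smul, hl, hs.norm_nu, inner_smul_left,
        inner_smul_right, real_inner_comm ν l]
      simp only [mul_one, Real.norm_eq_abs, sq_abs, conj_trivial]
      have h3 : 0 < (ρ * inner ℝ ν l) ^ 2 := by positivity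
      nlinarith
    exact lt_of_pow_lt_pow_left₀ 2 hρ.le h2
  have h3 := hs.pos _ hmem
  rw [hinv y _ hy] at h3
  exact lt_irrefl _ h3

open Classical in
/-- The derivative in the direction `l`, extended by zero. -/
private noncomputable def transInv_w (u : E3 → ℝ) (l : E3) (x : E3) : ℝ :=
  if 0 < u x then fderiv ℝ u x l else 0

private theorem transInv_w_pos {u : E3 → ℝ} {l x : E3} (hx : 0 < u x) :
    transInv_w u l x = fderiv ℝ u x l := if_pos hx

private theorem transInv_w_zero {u : E3 → ℝ} {l x : E3} (hx : u x = 0) :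
    transInv_w u l x = 0 := if_neg (by rw [hx]; exact lt_irrefl 0)

private theorem transInv_w_ev {u : E3 → ℝ} (hu : IsEntireSolution u) {l x : E3} (hx : 0 < u x) :
    transInv_w u l =ᶠ[𝓝 x] fun y => fderiv ℝ u y l := by
  filter_upwards [(isOpen_pos hu).mem_nhds hx] with z hz
  exact transInv_w_pos hz

private theorem transInv_w_cont {u : E3 → ℝ} (hu : IsEntireSolution u) {l : E3} (hl : ‖l‖ = 1)
    (hinv : ∀ (x : E3) (s : ℝ), u x = 0 → u (x + s • l) = 0) : Continuous (transInv_w u l) := by
  rw [continuous_iff_continuousAt]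
  intro x
  rcases (hu.nonneg x).eq_or_lt with hx | hx
  · by_cases hcl : x ∈ closure {x | 0 < u x}
    · have hfr : x ∈ frontier {x | 0 < u x} := by
        rw [(isOpen_pos hu).frontier_eq]
        refine ⟨hcl, fun h => ?_⟩
        have : 0 < u x := h
        linarith
      rw [ContinuousAt, transInv_w_zero hx.symm, Metric.tendsto_nhds]
      intro ε hε
      by_contra hcon
      rw [not_eventually] at hcon
      obtain ⟨z, hz, hzε⟩ := exists_seq_forall_of_frequently hcon
      have hpos : ∀ n, 0 < u (z n) := by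
        intro n
        refine pos_of_ne hu fun h0 => hzε n ?_
        rw [transInv_w_zero h0, dist_self]
        exact hε
      obtain ⟨ν, ρ, g, -, hside, hfreq⟩ := exists_side hu hfr hz hpos one_pos
      have horth := transInv_orth hl hinv hside hx.symm
      have hcont : ContinuousAt (fun z => fderiv ℝ g z l) x :=
        ((hside.smooth.fderiv_right (m := ∞) (by simp)).clm_apply contDiffAt_const).continuousAt
      have hlim : Tendsto (fun n => fderiv ℝ g (z n) l) atTop (𝓝 0) := by
        have h1 := hcont.tendsto.comp hz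
        rwa [hside.grad, horth] at h1
      have hev := Metric.tendsto_nhds.1 hlim ε hε
      obtain ⟨n, hn1, hn2⟩ := (hfreq.and_eventually hev).exists
      refine hzε n ?_
      rw [transInv_w_pos (hpos n), hn1.1.fderiv_eq]
      exact hn2
    · have h1 : (closure {x | 0 < u x})ᶜ ∈ 𝓝 x := isClosed_closure.isOpen_compl.mem_nhds hcl
      have h2 : transInv_w u l =ᶠ[𝓝 x] fun _ => 0 := by
        filter_upwards [h1] with z hz
        refine transInv_w_zero ?_
        by_contra h
        exact hz (subset_closure (pos_of_ne hu h))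
      exact (continuousAt_const (y := (0 : ℝ))).congr h2.symm
  · exact ((harmonicAt_fderiv (hu.harmonic x hx) l).1.continuousAt).congr
      (transInv_w_ev hu hx).symm

private theorem transInv_w_abs {u : E3 → ℝ} (hu : IsEntireSolution u) (hK : ∃ x, u x = 0) {l : E3}
    (hl : ‖l‖ = 1) (x : E3) : |transInv_w u l x| ≤ 1 := by
  rcases (hu.nonneg x).eq_or_lt with hx | hx
  · rw [transInv_w_zero hx.symm]
    simp
  · rw [transInv_w_pos hx]
    have h1 := (fderiv ℝ u x).le_opNorm l
    rw [hl, mul_one, Real.norm_eq_abs] at h1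
    exact h1.trans (norm_fderiv_le_one hu hK hx)

private theorem transInv_half {u : E3 → ℝ} (hu : IsEntireSolution u) {l : E3} (hl : ‖l‖ = 1)
    (hinv : ∀ (x : E3) (s : ℝ), u x = 0 → u (x + s • l) = 0) {p : E3} {ρ : ℝ} (hρ : 0 < ρ)
    (hball : ∀ x ∈ ball p ρ, u x = 0) {σ : ℝ} (hσ : σ = 1 ∨ σ = -1) (x : E3) :
    max (σ * transInv_w u l x) 0 = 0 := by
  have hK : ∃ x, u x = 0 := ⟨p, hball p (mem_ball_self hρ)⟩
  have hc := transInv_w_cont hu hl hinv
  have hab := transInv_w_abs hu hK hl
  refine tube_zero (s := fun x => max (σ * transInv_w u l x) 0)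
    ((continuous_const.mul hc).max continuous_const) (fun x => le_max_right _ _) ?_ ?_ hl hρ
    (p := p) ?_ x
  · intro x
    refine max_le ?_ zero_le_one
    have h1 := abs_le.1 (hab x)
    rcases hσ with rfl | rfl
    · linarith [h1.2]
    · linarith [h1.1]
  · intro x hx
    have hx0 : 0 < σ * transInv_w u l x := by
      rcases lt_max_iff.1 hx with h | h
      · exact h
      · exact absurd h (lt_irrefl 0)
    have hux : 0 < u x := by
      refine pos_of_ne hu fun h => ?_
      rw [transInv_w_zero h, mul_zero] at hx0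
      exact lt_irrefl _ hx0
    have hh : HarmonicAt (σ • fun y => fderiv ℝ u y l) x :=
      (harmonicAt_fderiv (hu.harmonic x hux) l).const_smul
    have hev : (fun x => max (σ * transInv_w u l x) 0) =ᶠ[𝓝 x] σ • fun y => fderiv ℝ u y l := by
      have h1 : ∀ᶠ z in 𝓝 x, 0 < σ * transInv_w u l z :=
        (continuous_const.mul hc).continuousAt.eventually (lt_mem_nhds hx0)
      filter_upwards [h1, transInv_w_ev hu (l := l) hux] with z hz hz2
      rw [max_eq_left hz.le, hz2]
      rfl
    exact (harmonicAt_congr_nhds hev).2 hh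
  · intro x τ hx
    have h1 : x - τ • l ∈ ball p ρ := by
      rw [mem_ball, dist_eq_norm]
      rw [dist_eq_norm] at hx
      have : x - τ • l - p = x - (p + τ • l) := by abel
      rw [this]
      exact hx
    have h2 := hinv _ τ (hball _ h1)
    rw [sub_add_cancel] at h2
    change max (σ * transInv_w u l x) 0 = 0
    rw [transInv_w_zero h2, mul_zero, max_self]

theorem trans_inv {u : E3 → ℝ} (hu : IsEntireSolution u) {l : E3} (hl : ‖l‖ = 1)
    (hinv : ∀ (x : E3) (s : ℝ), u x = 0 → u (x + s • l) = 0) {p : E3} {ρ : ℝ} (hρ : 0 < ρ)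
    (hball : ∀ x ∈ ball p ρ, u x = 0) : ∀ (x : E3) (s : ℝ), u (x + s • l) = u x := by
  intro x s
  rcases (hu.nonneg x).eq_or_lt with hx | hx
  · rw [hinv x s hx.symm, ← hx]
  have hpos : ∀ t : ℝ, 0 < u (x + t • l) := by
    intro t
    refine pos_of_ne hu fun h => ?_
    have h1 := hinv _ (-t) h
    rw [add_assoc, ← add_smul, add_neg_cancel, zero_smul, add_zero] at h1
    rw [h1] at hx
    exact lt_irrefl _ hx
  have hw : ∀ z, 0 < u z → fderiv ℝ u z l = 0 := by
    intro z hz
    have h1 := transInv_half hu hl hinv hρ hball (Or.inl rfl) z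
    have h2 := transInv_half hu hl hinv hρ hball (Or.inr rfl) z
    rw [transInv_w_pos hz] at h1 h2
    have h3 := max_eq_right_iff.1 h1
    have h4 := max_eq_right_iff.1 h2
    linarith
  have hder : ∀ t : ℝ, HasDerivAt (fun t : ℝ => u (x + t • l)) 0 t := by
    intro t
    have h1 : DifferentiableAt ℝ u (x + t • l) :=
      (hu.harmonic _ (hpos t)).1.differentiableAt (by norm_num)
    have h2 : HasDerivAt (fun t : ℝ => x + t • l) l t := by
      have h3 := ((hasDerivAt_id t).smul_const l).const_add x
      simpa using h3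
    have h4 := h1.hasFDerivAt.comp_hasDerivAt t h2
    rw [hw _ (hpos t)] at h4
    exact h4
  have h5 := is_const_of_deriv_eq_zero (f := fun t : ℝ => u (x + t • l))
    (fun t => (hder t).differentiableAt) (fun t => (hder t).deriv) s 0
  simpa using h5

end FB75
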