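import Pool.Agent.FB75.ConeP
import Pool.Agent.FB75.TransInv
import Pool.Agent.FB75.PlaneK
import Pool.Agent.FB75.ConvGeo
import Pool.Agent.FB75.Touch
import Pool.Agent.FB75.Link
import Pool.Agent.FB75.Unbdd

/-!
# Solutions with convex zero phase
-/

open MeasureTheory Metric Set Filter Topology InnerProductSpace Laplacian
open scoped ContDiff

namespace FB75

/-- The orthogonal projection along a unit vector. -/
noncomputable def prl (l : E3) : E3 →L[ℝ] E3 :=
  ContinuousLinearMap.id ℝ E3 - (innerSL ℝ l).smulRight l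

theorem prl_apply (l x : E3) : prl l x = x - inner ℝ x l • l := by
  simp [prl, real_inner_comm]

theorem inner_prl {l : E3} (hl : ‖l‖ = 1) (x : E3) : inner ℝ (prl l x) l = (0 : ℝ) := by
  rw [prl_apply, inner_sub_left, inner_smul_left, real_inner_self_eq_norm_sq, hl]
  simp

theorem prl_of_inner {l x : E3} (h : inner ℝ x l = (0 : ℝ)) : prl l x = x := by
  rw [prl_apply, h]; simp

theorem invProj_prl {u : E3 → ℝ} {l : E3} (hl : ‖l‖ = 1)
    (hinv : ∀ (x : E3) (s : ℝ), u (x + s • l) = u x) : InvProj u (prl l) where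
  idem x := prl_of_inner (inner_prl hl x)
  symm x y := by
    rw [prl_apply, prl_apply, inner_sub_left, inner_sub_right, inner_smul_left, inner_smul_right,
      real_inner_comm l y]
    simp only [conj_trivial]
    ring
  inv x := by
    rw [prl_apply]
    have := hinv x (-inner ℝ x l)
    rwa [neg_smul, ← sub_eq_add_neg] at this

/-- A unit vector orthogonal to two given vectors. -/
theorem exists_perp_two (a b : E3) : ∃ f : E3, ‖f‖ = 1 ∧ inner ℝ f a = (0 : ℝ) ∧
    inner ℝ f b = (0 : ℝ) := by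
  let φ : E3 →ₗ[ℝ] ℝ × ℝ := LinearMap.prod (innerSL ℝ a).toLinearMap (innerSL ℝ b).toLinearMap
  have hker : ∃ f : E3, f ≠ 0 ∧ φ f = 0 := by
    by_contra hcon
    push Not at hcon
    have hinj : Function.Injective φ := by
      rw [injective_iff_map_eq_zero]
      intro f hf
      by_contra h
      exact hcon f h hf
    have := LinearMap.finrank_le_finrank_of_injective hinj
    simp at this
  obtain ⟨f, hf, hφ⟩ := hker
  have h1 : inner ℝ a f = (0 : ℝ) := congrArg Prod.fst hφ
  have h2 : inner ℝ b f = (0 : ℝ) := congrArg Prod.snd hφ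
  have hn : ‖f‖ ≠ 0 := norm_ne_zero_iff.2 hf
  refine ⟨‖f‖⁻¹ • f, ?_, ?_, ?_⟩
  · rw [norm_smul, norm_inv, norm_norm, inv_mul_cancel₀ hn]
  · rw [inner_smul_left, real_inner_comm, h1, mul_zero]
  · rw [inner_smul_left, real_inner_comm, h2, mul_zero]

/-- A vector orthogonal to three orthonormal vectors vanishes. -/
theorem eq_zero_of_perp_three {a b c w : E3} (ha : ‖a‖ = 1) (hb : ‖b‖ = 1) (hc : ‖c‖ = 1)
    (hab : inner ℝ a b = (0 : ℝ)) (hac : inner ℝ a c = (0 : ℝ)) (hbc : inner ℝ b c = (0 : ℝ))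
    (h1 : inner ℝ w a = (0 : ℝ)) (h2 : inner ℝ w b = (0 : ℝ)) (h3 : inner ℝ w c = (0 : ℝ)) :
    w = 0 := by
  have hon : Orthonormal ℝ ![a, b, c] := by
    rw [orthonormal_iff_ite]
    intro i j
    fin_cases i <;> fin_cases j <;>
      simp [ha, hb, hc, hab, hac, hbc, real_inner_comm]
  have hspan : Submodule.span ℝ (Set.range ![a, b, c]) = ⊤ :=
    hon.linearIndependent.span_eq_top_of_card_eq_finrank' (by simp)
  have hw : w ∈ (Submodule.span ℝ (Set.range ![a, b, c]))ᗮ := by
    rw [Submodule.mem_orthogonal']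
    intro v hv
    induction hv using Submodule.span_induction with
    | mem x hx =>
      obtain ⟨i, rfl⟩ := hx
      fin_cases i
      · exact h1
      · exact h2
      · exact h3
    | zero => simp
    | add x y _ _ hx hy => rw [inner_add_right, hx, hy, add_zero]
    | smul r x _ hx => rw [inner_smul_right, hx, mul_zero]
  rw [hspan, Submodule.top_orthogonal_eq_bot] at hw
  exact hw

theorem decomp_three {e m l : E3} (he : ‖e‖ = 1) (hm : ‖m‖ = 1) (hl : ‖l‖ = 1)
    (hem : inner ℝ e m = (0 : ℝ)) (hel : inner ℝ e l = (0 : ℝ)) (hml : inner ℝ m l = (0 : ℝ))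
    {w : E3} (hw : inner ℝ w e = (0 : ℝ)) : w = inner ℝ w m • m + inner ℝ w l • l := by
  have hlm : inner ℝ l m = (0 : ℝ) := by rw [real_inner_comm]; exact hml
  have hme : inner ℝ m e = (0 : ℝ) := by rw [real_inner_comm]; exact hem
  have hle : inner ℝ l e = (0 : ℝ) := by rw [real_inner_comm]; exact hel
  have h : w - (inner ℝ w m • m + inner ℝ w l • l) = 0 := by
    refine eq_zero_of_perp_three he hm hl hem hel hml ?_ ?_ ?_
    · rw [inner_sub_left, inner_add_left, inner_smul_left, inner_smul_left, hme, hle, hw]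
      simp
    · rw [inner_sub_left, inner_add_left, inner_smul_left, inner_smul_left, hlm,
        real_inner_self_eq_norm_sq, hm]
      simp
    · rw [inner_sub_left, inner_add_left, inner_smul_left, inner_smul_left, hml,
        real_inner_self_eq_norm_sq, hl]
      simp
  exact sub_eq_zero.1 h

/-- A closed subset of the line such that it and its complement are order connected and nonempty
is a closed ray. -/
theorem ray_of_ordConnected {J : Set ℝ} (hcl : IsClosed J) (h1 : J.OrdConnected)
    (h2 : Jᶜ.OrdConnected) (hne : J.Nonempty) (hne' : Jᶜ.Nonempty) :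
    ∃ t, J = Ici t ∨ J = Iic t := by
  obtain ⟨a, ha⟩ := hne
  obtain ⟨b, hb⟩ := hne'
  rcases lt_trichotomy a b with hab | hab | hab
  · have hub : ∀ x ∈ J, x ≤ b := by
      intro x hx
      by_contra hcon
      push Not at hcon
      exact hb (h1.out ha hx ⟨hab.le, hcon.le⟩)
    have hbd : BddAbove J := ⟨b, hub⟩
    have hs := hcl.csSup_mem ⟨a, ha⟩ hbd
    refine ⟨sSup J, Or.inr ?_⟩
    ext x
    refine ⟨fun hx => le_csSup hbd hx, fun hx => ?_⟩
    by_contra hcon
    exact h2.out hcon hb ⟨hx, hub _ hs⟩ hs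
  · rw [hab] at ha; exact absurd ha hb
  · have hlb : ∀ x ∈ J, b ≤ x := by
      intro x hx
      by_contra hcon
      push Not at hcon
      exact hb (h1.out hx ha ⟨hcon.le, hab.le⟩)
    have hbd : BddBelow J := ⟨b, hlb⟩
    have hs := hcl.csInf_mem ⟨a, ha⟩ hbd
    refine ⟨sInf J, Or.inl ?_⟩
    ext x
    refine ⟨fun hx => csInf_le hbd hx, fun hx => ?_⟩
    by_contra hcon
    exact h2.out hb hcon ⟨hlb _ hs, hx⟩ hs

theorem half_flat {u : E3 → ℝ} (hu : IsEntireSolution u) (hΩ : IsPreconnected {x | 0 < u x})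
    {e : E3} (he : ‖e‖ = 1) {t : ℝ} (h : ∀ x, u x = 0 ↔ t ≤ inner ℝ x e) :
    ∀ x, u x = max (inner ℝ x (-e) - (-t)) 0 := by
  have hin : ∀ x : E3, inner ℝ (x - t • e) e = inner ℝ x e - t := by
    intro x
    rw [inner_sub_left, inner_smul_left, real_inner_self_eq_norm_sq, he]
    simp
  have h1 := touch_flat hu hΩ (p := t • e) he ((h _).2 (by
      rw [inner_smul_left, real_inner_self_eq_norm_sq, he]; simp))
    (fun x hx => pos_of_ne hu fun h0 => by
      rw [hin] at hx
      have := (h x).1 h0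
      linarith)
    (fun η hη => ⟨0, fun x _ hx => (h x).2 (by
      rw [hin] at hx
      have : 0 ≤ η * ‖x - t • e‖ := by positivity
      linarith)⟩)
    (fun ε hε => ⟨0, fun x hx => by
      rw [hin] at hx
      rw [(h x).2 (by linarith)]
      positivity⟩)
  intro x
  rw [h1 x, hin, inner_neg_right]
  congr 1
  ring

theorem convex_flat {u : E3 → ℝ} (hu : IsEntireSolution u) [hC : ContractibleSpace {x | 0 < u x}]
    (hne : ∃ x, u x = 0) (hconv : Convex ℝ {x | u x = 0}) :
    ∃ (e : E3) (t : ℝ), ‖e‖ = 1 ∧ ∀ x, u x = max (inner ℝ x e - t) 0 := by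
  have hcl := isClosed_zero hu
  have hΩ : IsPreconnected {x | 0 < u x} := by
    rw [isPreconnected_iff_preconnectedSpace]
    infer_instance
  have hΩne : ∃ x, 0 < u x := by
    have : PathConnectedSpace {x | 0 < u x} := inferInstance
    obtain ⟨⟨x, hx⟩⟩ := this.nonempty
    exact ⟨x, hx⟩
  have hunb : ¬ Bornology.IsBounded {x | u x = 0} := by
    obtain ⟨p, hp⟩ := hne
    have h1 := unbounded_compl (A := {x | 0 < u x}) (p := p) (by simp [hp])
    have h2 : {x | 0 < u x}ᶜ = {x | u x = 0} := by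
      ext x
      simp only [mem_compl_iff, mem_ofPred_eq, not_lt]
      exact ⟨fun h => le_antisymm h (hu.nonneg x), fun h => h.le⟩
    rwa [h2] at h1
  by_cases hline : ∀ v : E3, v ≠ 0 → ∃ x ∈ {x | u x = 0}, ∃ s : ℝ, x + s • v ∉ {x | u x = 0}
  · exfalso
    obtain ⟨e, δ, M, he, hδ, hcone⟩ := convex_cone hconv hcl hne hline
    exact no_cone hu hΩ hunb he hδ hcone
  push Not at hline
  obtain ⟨v, hv0, hv⟩ := hline
  have hvn : ‖v‖ ≠ 0 := norm_ne_zero_iff.2 hv0
  set l : E3 := ‖v‖⁻¹ • v with hl'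
  have hl : ‖l‖ = 1 := by rw [hl', norm_smul, norm_inv, norm_norm, inv_mul_cancel₀ hvn]
  have hinvK : ∀ (x : E3) (s : ℝ), u x = 0 → u (x + s • l) = 0 := by
    intro x s hx
    have h1 := hv x hx (s * ‖v‖⁻¹)
    rw [mul_smul, ← hl'] at h1
    exact h1
  -- the zero phase has interior points
  have hint : (interior {x | u x = 0}).Nonempty := by
    by_contra hcon
    rw [Set.not_nonempty_iff_eq_empty] at hcon
    obtain ⟨n, c, hn, hK⟩ := convex_plane hconv hcon
    have hplane := zero_in_plane hu hn hK hne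
    have hcn : Continuous fun x : E3 => inner ℝ x n := by fun_prop
    have himg := hΩ.image (fun x : E3 => inner ℝ x n) hcn.continuousOn
    have hmem : ∀ τ : ℝ, τ ≠ c → τ ∈ (fun x : E3 => inner ℝ x n) '' {x | 0 < u x} := by
      intro τ hτ
      have h1 : inner ℝ (τ • n) n = τ := by
        rw [inner_smul_left, real_inner_self_eq_norm_sq, hn]; simp
      refine ⟨τ • n, pos_of_ne hu fun h => hτ ?_, h1⟩
      rw [← h1]; exact hK _ h
    obtain ⟨x, hx, hxc⟩ := himg.ordConnected.out (hmem (c - 1) (by simp)) (hmem (c + 1) (by simp))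
      (show c ∈ Icc (c - 1) (c + 1) by constructor <;> linarith)
    have h1 : u x = 0 := hplane x hxc
    have h2 : 0 < u x := hx
    linarith
  obtain ⟨p, hp⟩ := hint
  obtain ⟨ρ, hρ, hball⟩ := Metric.isOpen_iff.1 isOpen_interior p hp
  have hinv := trans_inv hu hl hinvK hρ (fun x hx => (interior_subset (hball hx) : x ∈ {x | u x = 0}))
  have hP := invProj_prl hl hinv
  have hpK : u p = 0 := (interior_subset hp : p ∈ {x | u x = 0})
  set K₀ : Set E3 := {x | u x = 0 ∧ inner ℝ x l = 0} with hK₀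
  have hPK : ∀ x, u x = 0 → prl l x ∈ K₀ := fun x hx => ⟨by rw [hP.inv, hx], inner_prl hl x⟩
  have hK₀cl : IsClosed K₀ :=
    hcl.inter (isClosed_eq (by fun_prop) continuous_const)
  have hK₀conv : Convex ℝ K₀ := by
    intro x hx y hy a b ha hb hab
    refine ⟨hconv hx.1 hy.1 ha hb hab, ?_⟩
    rw [inner_add_left, inner_smul_left, inner_smul_left, hx.2, hy.2]
    simp
  have hK₀ne : K₀.Nonempty := ⟨_, hPK p hpK⟩
  by_cases hline₀ : ∀ v : E3, v ≠ 0 → ∃ x ∈ K₀, ∃ s : ℝ, x + s • v ∉ K₀
  · exfalso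
    obtain ⟨e₀, δ₀, M₀, he₀, hδ₀, hcone₀⟩ := convex_cone hK₀conv hK₀cl hK₀ne hline₀
    by_cases hbd : Bornology.IsBounded K₀
    · obtain ⟨R, hR⟩ := hbd.subset_closedBall (0 : E3)
      have hR' : ∀ x ∈ K₀, ‖x‖ ≤ |R| := fun x hx =>
        (mem_closedBall_zero_iff.1 (hR hx)).trans (le_abs_self R)
      refine no_link (Ω := {x | 0 < u x}) (K := {x | u x = 0}) ?_
        (hconv.isPathConnected ⟨p, hpK⟩) hl (C := |R| + 1) (by positivity) ?_ ?_ ?_ ?_
      · refine Set.disjoint_left.2 fun x hx hx' => ?_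
        have h1 : 0 < u x := hx
        have h2 : u x = 0 := hx'
        linarith
      · intro x hx hxn
        refine pos_of_ne hu fun h0 => ?_
        have h1 := hR' x ⟨h0, hx⟩
        linarith
      · intro x hx hx0
        have h1 := hR' x ⟨hx, hx0⟩
        linarith
      · intro T
        refine ⟨p + (T + 1 - inner ℝ p l) • l, hinvK _ _ hpK, ?_⟩
        rw [inner_add_left, inner_smul_left, real_inner_self_eq_norm_sq, hl]
        simp
      · intro T
        refine ⟨p + (-T - 1 - inner ℝ p l) • l, hinvK _ _ hpK, ?_⟩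
        rw [inner_add_left, inner_smul_left, real_inner_self_eq_norm_sq, hl]
        simp
    · have hunb₀ : ∀ R : ℝ, ∃ x ∈ K₀, R < ‖x‖ := by
        intro R
        by_contra hcon
        push Not at hcon
        exact hbd ((isBounded_iff_forall_norm_le).2 ⟨R, fun x hx => hcon x hx⟩)
      set e₁ : E3 := prl l e₀ with he₁
      have hin₁ : ∀ x, inner ℝ (prl l x) e₀ = inner ℝ x e₁ := fun x => by rw [he₁, hP.symm]
      have he₁0 : ‖e₁‖ ≠ 0 := by
        intro h0
        obtain ⟨x, hx, hxn⟩ := hunb₀ (M₀ / δ₀)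
        have h1 := hcone₀ x hx
        rw [← prl_of_inner hx.2, hin₁, norm_eq_zero.1 h0, inner_zero_right, prl_of_inner hx.2] at h1
        rw [div_lt_iff₀ hδ₀] at hxn
        linarith
      have he₁pos : 0 < ‖e₁‖ := lt_of_le_of_ne (norm_nonneg _) (Ne.symm he₁0)
      obtain ⟨f, hf, hfe, hfl⟩ := exists_perp_two e₁ l
      refine no_wedge hu hΩ hP (fun R => ?_) (e := ‖e₁‖⁻¹ • e₁) (f := f) ?_ ?_ hf
        (prl_of_inner hfl) ?_ (δ := δ₀ / ‖e₁‖) (M := M₀ / ‖e₁‖) (by positivity) ?_
      · obtain ⟨x, hx, hxn⟩ := hunb₀ R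
        exact ⟨x, hx.1, by rwa [prl_of_inner hx.2]⟩
      · rw [norm_smul, norm_inv, norm_norm, inv_mul_cancel₀ he₁0]
      · rw [map_smul, he₁, hP.idem]
      · rw [inner_smul_left, real_inner_comm, hfe, mul_zero]
      · intro x hx
        have h1 := hcone₀ _ (hPK x hx)
        rw [hin₁] at h1
        rw [inner_smul_right, inv_mul_eq_div, div_mul_eq_mul_div, ← sub_div]
        exact div_le_div_of_nonneg_right h1 he₁pos.le
  · push Not at hline₀
    obtain ⟨v', hv'0, hv'⟩ := hline₀
    have hv'n : ‖v'‖ ≠ 0 := norm_ne_zero_iff.2 hv'0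
    set m : E3 := ‖v'‖⁻¹ • v' with hm'
    have hm : ‖m‖ = 1 := by rw [hm', norm_smul, norm_inv, norm_norm, inv_mul_cancel₀ hv'n]
    have hmK : ∀ x ∈ K₀, ∀ s : ℝ, x + s • m ∈ K₀ := by
      intro x hx s
      have h1 := hv' x hx (s * ‖v'‖⁻¹)
      rw [mul_smul, ← hm'] at h1
      exact h1
    have hml : inner ℝ m l = (0 : ℝ) := by
      obtain ⟨x, hx⟩ := hK₀ne
      have h1 := (hmK x hx 1).2
      rw [one_smul, inner_add_left, hx.2, zero_add] at h1
      exact h1
    obtain ⟨e, he, hem, hel⟩ := exists_perp_two m l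
    have hdep : ∀ x y, u x = 0 → inner ℝ y e = inner ℝ x e → u y = 0 := by
      intro x y hx hxy
      have hw := decomp_three he hm hl hem hel hml (w := y - x) (by
        rw [inner_sub_left, hxy, sub_self])
      have h1 := hmK _ (hPK x hx) (inner ℝ (y - x) m)
      have h2 := hinvK _ (inner ℝ x l + inner ℝ (y - x) l) h1.1
      have h3 : prl l x + inner ℝ (y - x) m • m + (inner ℝ x l + inner ℝ (y - x) l) • l = y := by
        rw [prl_apply]
        have h4 : y = x + inner ℝ (y - x) m • m + inner ℝ (y - x) l • l := by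
          rw [add_assoc, ← hw]
          abel
        conv_rhs => rw [h4]
        module
      rwa [h3] at h2
    set J : Set ℝ := {τ | u (τ • e) = 0} with hJ
    have hJiff : ∀ x, u x = 0 ↔ inner ℝ x e ∈ J := by
      intro x
      have h1 : inner ℝ (inner ℝ x e • e) e = inner ℝ x e := by
        rw [inner_smul_left, real_inner_self_eq_norm_sq, he]; simp
      exact ⟨fun hx => hdep x _ hx h1, fun hx => hdep _ x hx h1.symm⟩
    have hJcl : IsClosed J := by
      have : Continuous fun τ : ℝ => u (τ • e) := hu.continuous.comp (by fun_prop)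
      exact isClosed_eq this continuous_const
    have hce : Continuous fun x : E3 => inner ℝ x e := by fun_prop
    have hJ1 : J.OrdConnected := by
      have h1 : J = (fun x : E3 => inner ℝ x e) '' {x | u x = 0} := by
        ext τ
        constructor
        · intro hτ
          refine ⟨τ • e, hτ, ?_⟩
          simp only
          rw [inner_smul_left, real_inner_self_eq_norm_sq, he]; simp
        · rintro ⟨x, hx, rfl⟩
          exact (hJiff x).1 hx
      rw [h1]
      exact (hconv.isPreconnected.image _ hce.continuousOn).ordConnected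
    have hJ2 : Jᶜ.OrdConnected := by
      have h1 : Jᶜ = (fun x : E3 => inner ℝ x e) '' {x | 0 < u x} := by
        ext τ
        constructor
        · intro hτ
          refine ⟨τ • e, pos_of_ne hu hτ, ?_⟩
          simp only
          rw [inner_smul_left, real_inner_self_eq_norm_sq, he]; simp
        · rintro ⟨x, hx, rfl⟩ hcon
          have h2 := (hJiff x).2 hcon
          have h3 : 0 < u x := hx
          linarith
      rw [h1]
      exact (hΩ.image _ hce.continuousOn).ordConnected
    obtain ⟨x₁, hx₁⟩ := hΩne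
    obtain ⟨t, ht | ht⟩ := ray_of_ordConnected hJcl hJ1 hJ2 ⟨_, (hJiff p).1 hpK⟩
      ⟨inner ℝ x₁ e, fun hcon => by have := (hJiff x₁).2 hcon; linarith⟩
    · refine ⟨-e, -t, by rw [norm_neg, he], half_flat hu hΩ he fun x => ?_⟩
      rw [hJiff, ht, mem_Ici]
    · have h1 := half_flat hu hΩ (e := -e) (by rw [norm_neg, he]) (t := -t) fun x => by
        rw [hJiff, ht, mem_Iic, inner_neg_right]
        constructor <;> intro h <;> linarith
      refine ⟨e, t, he, fun x => ?_⟩
      rw [h1 x, neg_neg, neg_neg]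

end FB75
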