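import Pool.Agent.FB75.Mass

/-!
# A one-dimensional covering argument
-/

open MeasureTheory Metric Set Filter Topology InnerProductSpace Laplacian
open scoped ContDiff

namespace FB75

theorem cover_line {R t₀ S : ℝ} (ht₀ : 0 < t₀) (hR : 0 ≤ R) {s : ℝ → ℝ}
    (hs : ∀ r ∈ Icc 0 R, t₀ ≤ s r) (hS : ∀ r ∈ Icc 0 R, s r ≤ S) :
    ∃ F : Finset ℝ, (∀ r ∈ F, r ∈ Icc 0 R) ∧
      ((F : Set ℝ).PairwiseDisjoint fun r => closedBall r (s r)) ∧ R ≤ 10 * ∑ r ∈ F, s r := by
  classical
  set N : ℕ := ⌊R / t₀⌋₊ with hN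
  set A : Finset ℝ := (Finset.range (N + 1)).image (fun k : ℕ => (k : ℝ) * t₀) with hA
  have hAmem : ∀ a ∈ A, a ∈ Icc 0 R := by
    intro a ha
    rw [hA, Finset.mem_image] at ha
    obtain ⟨k, hk, rfl⟩ := ha
    rw [Finset.mem_range] at hk
    refine ⟨by positivity, ?_⟩
    have h1 : (k : ℝ) ≤ N := by exact_mod_cast Nat.lt_succ_iff.1 hk
    have h2 : (N : ℝ) ≤ R / t₀ := Nat.floor_le (by positivity)
    have h3 : (k : ℝ) ≤ R / t₀ := h1.trans h2
    rwa [le_div_iff₀ ht₀] at h3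
  obtain ⟨U, hUA, hUd, hUc⟩ := Vitali.exists_disjoint_subfamily_covering_enlargement_closedBall
    (A : Set ℝ) (fun r : ℝ => r) s S (fun a ha => hS a (hAmem a ha)) 5 (by norm_num)
  have hUfin : U.Finite := A.finite_toSet.subset hUA
  refine ⟨hUfin.toFinset, ?_, ?_, ?_⟩
  · intro r hr
    exact hAmem r (hUA (hUfin.mem_toFinset.1 hr))
  · rw [hUfin.coe_toFinset]; exact hUd
  · have hcov : Icc 0 R ⊆ ⋃ b ∈ hUfin.toFinset, closedBall b (5 * s b) := by
      intro x hx
      set k : ℕ := ⌊x / t₀⌋₊ with hk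
      have hxk : (k : ℝ) * t₀ ≤ x := by
        have : (k : ℝ) ≤ x / t₀ := Nat.floor_le (div_nonneg hx.1 ht₀.le)
        rwa [le_div_iff₀ ht₀] at this
      have hxk2 : x < (k + 1 : ℝ) * t₀ := by
        have : x / t₀ < k + 1 := Nat.lt_floor_add_one _
        rwa [div_lt_iff₀ ht₀] at this
      have hkA : (k : ℝ) * t₀ ∈ A := by
        rw [hA, Finset.mem_image]
        refine ⟨k, ?_, rfl⟩
        rw [Finset.mem_range, Nat.lt_succ_iff, hN, hk]
        exact Nat.floor_le_floor (div_le_div_of_nonneg_right hx.2 ht₀.le)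
      obtain ⟨b, hb, hbc⟩ := hUc _ hkA
      rw [mem_iUnion₂]
      refine ⟨b, hUfin.mem_toFinset.2 hb, hbc ?_⟩
      rw [mem_closedBall, Real.dist_eq, abs_le]
      have := hs _ (hAmem _ hkA)
      constructor <;> nlinarith
    have hvol : volume (Icc 0 R) ≤ ∑ b ∈ hUfin.toFinset, volume (closedBall b (5 * s b)) :=
      (measure_mono hcov).trans (measure_biUnion_finset_le _ _)
    rw [Real.volume_Icc] at hvol
    simp only [Real.volume_closedBall] at hvol
    rw [← ENNReal.ofReal_sum_of_nonneg] at hvol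
    · rw [ENNReal.ofReal_le_ofReal_iff] at hvol
      · rw [← Finset.mul_sum, ← Finset.mul_sum] at hvol
        linarith
      · refine Finset.sum_nonneg fun b hb => ?_
        have := hs b (hAmem b (hUA (hUfin.mem_toFinset.1 hb)))
        linarith
    · intro b hb
      have := hs b (hAmem b (hUA (hUfin.mem_toFinset.1 hb)))
      linarith

/-- The mass of a ball from the growth at points at every distance from the centre. -/
theorem mass_ge {v : E3 → ℝ} (hv : ContDiff ℝ 2 v) (hg0 : ∀ z, 0 ≤ Δ v z) {p : E3}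
    {R t₀ κ : ℝ} (ht₀ : 0 < t₀) (hR : 0 < R) (htR : t₀ < R) (hκ : 0 < κ)
    (hex : ∀ r ∈ Icc 0 R, ∃ y, dist y p = r ∧ κ / 2 ≤ Phi v y (4 * R) - Phi v y t₀) :
    κ / (5 * Real.log (4 * R / t₀)) * R ≤ mass (Δ v) p (5 * R) := by
  classical
  set ℓ : ℝ := Real.log (4 * R / t₀) with hℓ
  have hℓ0 : 0 < ℓ := Real.log_pos (by rw [lt_div_iff₀ ht₀]; linarith)
  set δ : ℝ := 2 * κ / ℓ with hδ
  have hδ0 : 0 < δ := by positivity
  have h1 : ∀ r ∈ Icc 0 R, ∃ y s, dist y p = r ∧ t₀ ≤ s ∧ s ≤ 4 * R ∧ δ * s ≤ mass (Δ v) y s := by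
    intro r hr
    obtain ⟨y, hy, hgr⟩ := hex r hr
    by_contra hcon
    push Not at hcon
    have h2 := Phi_growth_le hv hg0 (y := y) (t₀ := t₀) (T := 4 * R) (δ := δ) ht₀ (by linarith)
      (fun t ht => (hcon y t hy ht.1 ht.2).le)
    rw [← hℓ] at h2
    have h3 : δ / 6 * ℓ = κ / 3 := by rw [hδ]; field_simp; norm_num
    linarith
  choose! y s hy hs1 hs2 hs3 using h1
  obtain ⟨F, hF, hFd, hFs⟩ := cover_line ht₀ hR.le hs1 hs2
  have hdisj : (F : Set ℝ).PairwiseDisjoint fun r => closedBall (y r) (s r) := by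
    intro a ha b hb hab
    have hd := hFd ha hb hab
    refine Set.disjoint_left.2 fun z hza hzb => ?_
    have ha' : dist z p ∈ closedBall a (s a) := by
      rw [mem_closedBall, Real.dist_eq]
      have h := (abs_dist_sub_le z (y a) p).trans (mem_closedBall.1 hza)
      rwa [hy a (hF a ha)] at h
    have hb' : dist z p ∈ closedBall b (s b) := by
      rw [mem_closedBall, Real.dist_eq]
      have h := (abs_dist_sub_le z (y b) p).trans (mem_closedBall.1 hzb)
      rwa [hy b (hF b hb)] at h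
    exact Set.disjoint_left.1 hd ha' hb'
  have hg := laplacian_continuous hv
  have hsum : ∑ r ∈ F, mass (Δ v) (y r) (s r) = ∫ z in ⋃ r ∈ F, closedBall (y r) (s r), Δ v z := by
    rw [integral_biUnion_finset F (fun r _ => measurableSet_closedBall) hdisj
      (fun r _ => integrableOn_ball hg _ _)]
    rfl
  have hle : ∫ z in ⋃ r ∈ F, closedBall (y r) (s r), Δ v z ≤ mass (Δ v) p (5 * R) := by
    refine setIntegral_mono_set (integrableOn_ball hg _ _)
      (Eventually.of_forall fun z => hg0 z) (Eventually.of_forall ?_)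
    intro z hz
    change z ∈ ⋃ r ∈ F, closedBall (y r) (s r) at hz
    rw [mem_iUnion₂] at hz
    obtain ⟨r, hr, hz⟩ := hz
    change z ∈ closedBall p (5 * R)
    rw [mem_closedBall] at hz ⊢
    have h5 := hF r hr
    have h6 := dist_triangle z (y r) p
    rw [hy r h5] at h6
    have h7 := hs2 r h5
    linarith [h5.2]
  have h8 : δ * ∑ r ∈ F, s r ≤ ∑ r ∈ F, mass (Δ v) (y r) (s r) := by
    rw [Finset.mul_sum]
    exact Finset.sum_le_sum fun r hr => hs3 r (hF r hr)
  have h9 : δ * (R / 10) ≤ δ * ∑ r ∈ F, s r := mul_le_mul_of_nonneg_left (by linarith) hδ0.le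
  have h10 : δ * (R / 10) = κ / (5 * ℓ) * R := by rw [hδ]; field_simp; norm_num
  rw [hsum] at h8
  linarith

end FB75
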