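import Mathlib

/-!
# Entire classical solutions of the one-phase free boundary problem in three-space
-/

open scoped ContDiff

namespace FB75

/-- `IsEntireSolution u`: the function `u` is an entire classical solution of the one-phase free
boundary problem in `ℝ³`. It is continuous, nonnegative and harmonic in the positive phase
`{u > 0}`. The free boundary `F = frontier {u > 0}` is a smooth embedded surface: every point
`y` of it has an open neighbourhood `V` on which `F` is the zero set of a smooth function `φ`
without critical points. On each of the two sides `{φ > 0}` and `{-φ > 0}` of `F` in `V`, either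
`u` vanishes identically, or `u` is positive there and `u` is smooth up to `F`: it agrees, on
that side together with `F`, with a smooth function `g` on `V`, and its gradient has length `1`
on `F`. -/
structure IsEntireSolution (u : EuclideanSpace ℝ (Fin 3) → ℝ) : Prop where
  continuous : Continuous u
  nonneg : ∀ x, 0 ≤ u x
  harmonic : InnerProductSpace.HarmonicOnNhd u {x | 0 < u x}
  boundary : ∀ y ∈ frontier {x | 0 < u x}, ∃ V : Set (EuclideanSpace ℝ (Fin 3)),
    IsOpen V ∧ y ∈ V ∧ ∃ φ : EuclideanSpace ℝ (Fin 3) → ℝ,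
      ContDiffOn ℝ ∞ φ V ∧ (∀ x ∈ V, fderiv ℝ φ x ≠ 0) ∧
      frontier {x | 0 < u x} ∩ V = {x | φ x = 0} ∩ V ∧
      ∀ s : ℝ, (s = 1 ∨ s = -1) →
        ((∀ x ∈ V, 0 < s * φ x → u x = 0) ∨
          ∃ g : EuclideanSpace ℝ (Fin 3) → ℝ, ContDiffOn ℝ ∞ g V ∧
            (∀ x ∈ V, 0 < s * φ x → 0 < u x) ∧ (∀ x ∈ V, 0 ≤ s * φ x → u x = g x) ∧
            ∀ x ∈ V, φ x = 0 → ‖fderiv ℝ g x‖ = 1)

end FB75
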