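import Pool.Agent.FB75.Grad

/-!
# No bounded component of the positive phase in a half-space
-/

open MeasureTheory Metric Set Filter Topology InnerProductSpace Laplacian
open scoped ContDiff

namespace FB75

/-- The linear function `⟪x, e⟫` is harmonic. -/
private theorem dome_inner_harmonic (e x : E3) : HarmonicAt (fun y : E3 => inner ℝ y e) x := by
  have hfd : ∀ y : E3, HasFDerivAt (fun y : E3 => inner ℝ y e) (innerSL ℝ e) y := by
    intro y
    have h1 : (fun y : E3 => inner ℝ y e) = fun y => innerSL ℝ e y := by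
      funext y; rw [innerSL_apply_apply, real_inner_comm]
    rw [h1]
    exact (innerSL ℝ e).hasFDerivAt
  have hcd : ContDiff ℝ 2 (fun y : E3 => inner ℝ y e) := contDiff_id.inner ℝ contDiff_const
  refine ⟨hcd.contDiffAt, Eventually.of_forall fun y => ?_⟩
  rw [laplacian_eq_sum hcd.contDiffAt]
  have h2 : ∀ i, (fun y => fderiv ℝ (fun y : E3 => inner ℝ y e) y (ei i)) =
      fun _ => innerSL ℝ e (ei i) := by
    intro i; funext y; rw [(hfd y).fderiv]
  simp only [h2]
  simp

private theorem dome_inner_fderiv (e x : E3) :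
    HasFDerivAt (fun y : E3 => inner ℝ y e) (innerSL ℝ e) x := by
  have h1 : (fun y : E3 => inner ℝ y e) = fun y => innerSL ℝ e y := by
    funext y; rw [innerSL_apply_apply, real_inner_comm]
  rw [h1]
  exact (innerSL ℝ e).hasFDerivAt

/-- A functional of norm at most one with the value `-1` at the unit vector `e`. -/
private theorem dome_functional {L : E3 →L[ℝ] ℝ} {e : E3} (he : ‖e‖ = 1) (hL : ‖L‖ ≤ 1)
    (hLe : L e = -1) : L = -innerSL ℝ e := by
  set g : E3 := (InnerProductSpace.toDual ℝ E3).symm L with hg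
  have hgL : ∀ v, L v = inner ℝ g v := by
    intro v; rw [hg, InnerProductSpace.toDual_symm_apply]
  have hgn : ‖g‖ ≤ 1 := by
    rw [hg, LinearIsometryEquiv.norm_map]; exact hL
  have h1 : inner ℝ g e = -1 := by rw [← hgL, hLe]
  have h2 : ‖g + e‖ ^ 2 ≤ 0 := by
    rw [@norm_add_sq_real, h1, he]
    have : ‖g‖ ^ 2 ≤ 1 := by
      nlinarith [norm_nonneg g]
    linarith
  have h3 : g + e = 0 := by
    have : ‖g + e‖ = 0 := by
      have h4 := sq_nonneg ‖g + e‖
      have h5 : ‖g + e‖ ^ 2 = 0 := le_antisymm h2 h4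
      exact pow_eq_zero_iff (two_ne_zero) |>.1 h5
    exact norm_eq_zero.1 this
  have h4 : g = -e := eq_neg_of_add_eq_zero_left h3
  ext v
  rw [hgL, h4, inner_neg_left]
  simp

/-- The flat finish. -/
private theorem dome_flat {u : E3 → ℝ} (hu : IsEntireSolution u)
    (hΩ : IsPreconnected {x | 0 < u x}) (hK : ∃ x, u x = 0) {e : E3} (he : ‖e‖ = 1) {P : E3}
    (hP : 0 < u P) (hd : fderiv ℝ u P e = -1) :
    ∃ c : ℝ, ∀ x, u x = max (c - inner ℝ x e) 0 := by
  have hopen := isOpen_pos hu
  -- the function `1 + ∂_e u`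
  have hw : HarmonicOnNhd (fun y => 1 + fderiv ℝ u y e) {x | 0 < u x} := by
    intro x hx
    exact (harmonicAt_const (1 : ℝ)).add (harmonicAt_fderiv (hu.harmonic x hx) e)
  have hw0 : ∀ v ∈ {x | 0 < u x}, 0 ≤ 1 + fderiv ℝ u v e := by
    intro v hv
    have h1 := norm_fderiv_le_one hu hK hv
    have h2 : ‖fderiv ℝ u v e‖ ≤ ‖fderiv ℝ u v‖ * ‖e‖ := ContinuousLinearMap.le_opNorm _ _
    rw [he, mul_one, Real.norm_eq_abs] at h2
    have h3 := (abs_le.1 (h2.trans h1)).1
    linarith
  have hz := strong_min_connected hopen hΩ hw hw0 (x := P) hP (by rw [hd]; ring)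
  have hfd : ∀ v ∈ {x | 0 < u x}, fderiv ℝ u v = -innerSL ℝ e := by
    intro v hv
    refine dome_functional he (norm_fderiv_le_one hu hK hv) ?_
    have := hz v hv
    linarith
  have hdiff : ∀ v ∈ {x : E3 | 0 < u x}, DifferentiableAt ℝ u v := fun v hv =>
    (hu.harmonic v hv).1.differentiableAt (by norm_num)
  have hΦd : ∀ v ∈ {x : E3 | 0 < u x},
      HasFDerivAt (fun y : E3 => u y + inner ℝ y e) (0 : E3 →L[ℝ] ℝ) v := by
    intro v hv
    have h1 := (hdiff v hv).hasFDerivAt.add (dome_inner_fderiv e v)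
    rw [hfd v hv] at h1
    have h2 : (-innerSL ℝ e + innerSL ℝ e : E3 →L[ℝ] ℝ) = 0 := neg_add_cancel _
    rw [h2] at h1
    exact h1
  obtain ⟨c, hc⟩ := hopen.exists_is_const_of_fderiv_eq_zero hΩ
    (f := fun y => u y + inner ℝ y e)
    (fun v hv => (hΦd v hv).differentiableAt.differentiableWithinAt)
    (fun v hv => (hΦd v hv).fderiv)
  have hc' : ∀ v, 0 < u v → u v = c - inner ℝ v e := by
    intro v hv
    have := hc v hv
    linarith
  have hsub : {x : E3 | inner ℝ x e < c} ⊆ {x | 0 < u x} := by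
    refine IsPreconnected.subset_of_closure_inter_subset ?_ hopen ⟨P, ?_, hP⟩ ?_
    · refine Convex.isPreconnected ?_
      have h1 : {x : E3 | inner ℝ x e < c} = {x : E3 | innerSL ℝ e x < c} := by
        ext x; simp [real_inner_comm]
      rw [h1]
      exact convex_halfSpace_lt (innerSL ℝ e).isLinear c
    · have := hc' P hP
      change inner ℝ P e < c
      linarith
    · rintro x ⟨hx1, hx2⟩
      have hcl : IsClosed {x : E3 | u x = c - inner ℝ x e} :=
        isClosed_eq hu.continuous (by fun_prop)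
      have h1 : x ∈ {x : E3 | u x = c - inner ℝ x e} :=
        closure_minimal (fun v hv => hc' v hv) hcl hx1
      have h2 : u x = c - inner ℝ x e := h1
      have h3 : inner ℝ x e < c := hx2
      change 0 < u x
      linarith
  refine ⟨c, fun x => ?_⟩
  rcases (hu.nonneg x).eq_or_lt with hx | hx
  · rw [← hx, max_eq_right]
    by_contra h
    push Not at h
    have : x ∈ {x | 0 < u x} := hsub (by change inner ℝ x e < c; linarith)
    have h1 : 0 < u x := this
    linarith
  · rw [← hc' x hx, max_eq_left hx.le]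

/-- A maximum point of `u + ⟪x, e⟫` on `closure D` inside `D`. -/
private theorem dome_inside {u : E3 → ℝ} (hu : IsEntireSolution u)
    (hΩ : IsPreconnected {x | 0 < u x}) (hK : ∃ x, u x = 0) {e : E3} (he : ‖e‖ = 1) {D : Set E3}
    (hDo : IsOpen D) (hDsub : ∀ x ∈ D, 0 < u x) {P : E3} (hP : P ∈ D)
    (hmax : ∀ x ∈ D, u x + inner ℝ x e ≤ u P + inner ℝ P e) :
    ∃ c : ℝ, ∀ x, u x = max (c - inner ℝ x e) 0 := by
  obtain ⟨r, hr, hrD⟩ := Metric.isOpen_iff.1 hDo P hP
  have hw : HarmonicOnNhd (fun y => (u P + inner ℝ P e) - (u y + inner ℝ y e)) (ball P r) := by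
    intro x hx
    exact (harmonicAt_const (u P + inner ℝ P e)).sub
      ((hu.harmonic x (hDsub x (hrD hx))).add (dome_inner_harmonic e x))
  have h1 := strong_min hw (fun v hv => by
    have := hmax v (hrD hv)
    linarith) (by ring)
  refine dome_flat hu hΩ hK he (hDsub P hP) ?_
  have hev : u =ᶠ[𝓝 P] fun y => (u P + inner ℝ P e) - inner ℝ y e := by
    filter_upwards [ball_mem_nhds P (show 0 < r / 4 by linarith)] with y hy
    have := h1 y hy
    linarith
  rw [hev.fderiv_eq]
  have h2 := (dome_inner_fderiv e P).const_sub (u P + inner ℝ P e)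
  rw [h2.fderiv]
  simp [he]

theorem dome {u : E3 → ℝ} (hu : IsEntireSolution u) (hΩ : IsPreconnected {x | 0 < u x})
    (hK : ∃ x, u x = 0) {e : E3} (he : ‖e‖ = 1) {t : ℝ} {D : Set E3} (hDo : IsOpen D)
    (hDne : D.Nonempty) (hDb : Bornology.IsBounded D)
    (hDsub : ∀ x ∈ D, 0 < u x ∧ t < inner ℝ x e)
    (hDfr : ∀ x ∈ frontier D, u x = 0 ∨ inner ℝ x e = t) :
    ∃ c : ℝ, ∀ x, u x = max (c - inner ℝ x e) 0 := by
  have hcpt : IsCompact (closure D) := hDb.isCompact_closure
  have hΦc : Continuous fun x : E3 => u x + inner ℝ x e := by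
    have := hu.continuous
    fun_prop
  obtain ⟨P, hPD, hPmax⟩ := hcpt.exists_isMaxOn hDne.closure hΦc.continuousOn
  have hmax : ∀ x ∈ closure D, u x + inner ℝ x e ≤ u P + inner ℝ P e := fun x hx => hPmax hx
  have hin : ∀ c ∈ D, u c + inner ℝ c e = u P + inner ℝ P e →
      ∃ c : ℝ, ∀ x, u x = max (c - inner ℝ x e) 0 := by
    intro c hc hcP
    refine dome_inside hu hΩ hK he hDo (fun x hx => (hDsub x hx).1) hc ?_
    intro x hx
    rw [hcP]
    exact hmax x (subset_closure hx)
  have hmt : t < u P + inner ℝ P e := by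
    obtain ⟨x, hx⟩ := hDne
    have h1 := hmax x (subset_closure hx)
    have h2 := hDsub x hx
    linarith
  -- connected sets
  have hconn : ∀ A : Set E3, IsPreconnected A → (∀ x ∈ A, 0 < u x ∧ t < inner ℝ x e) →
      (A ∩ D).Nonempty → A ⊆ D := by
    intro A hA hA1 hA2
    refine hA.subset_of_closure_inter_subset hDo hA2 ?_
    rintro x ⟨hx1, hx2⟩
    by_contra hxD
    have hfr : x ∈ frontier D := by
      rw [hDo.frontier_eq]; exact ⟨hx1, hxD⟩
    have h1 := hA1 x hx2
    rcases hDfr x hfr with h | h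
    · linarith [h1.1]
    · linarith [h1.2]
  -- the Hopf step
  set κ₀ : ℝ := 256 / 78125 * (25 * Real.exp (-25)) with hκ₀
  have hκ₀p : 0 < κ₀ := by
    have := Real.exp_pos (-25)
    positivity
  have hhopf : ∀ ν : E3, ‖ν‖ = 1 → ∀ ρ : ℝ, 0 < ρ → ball (P + ρ • ν) ρ ⊆ D →
      (∃ c : ℝ, ∀ x, u x = max (c - inner ℝ x e) 0) ∨
      ∃ κ : ℝ, 0 < κ ∧ ∀ s : ℝ, 0 < s → s ≤ 3 * ρ / 4 →
        κ * s ≤ (u P + inner ℝ P e) - (u (P + s • ν) + inner ℝ (P + s • ν) e) := by
    intro ν hν ρ hρ hball
    set c : E3 := P + ρ • ν with hc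
    set w : E3 → ℝ := fun y => (u P + inner ℝ P e) - (u y + inner ℝ y e) with hwdef
    have hcD : c ∈ D := hball (mem_ball_self hρ)
    have hw : HarmonicOnNhd w (ball c ρ) := by
      intro x hx
      exact (harmonicAt_const (u P + inner ℝ P e)).sub
        ((hu.harmonic x (hDsub x (hball hx)).1).add (dome_inner_harmonic e x))
    have hwc : Continuous w := by
      have := hu.continuous
      fun_prop
    have hw0 : ∀ v ∈ closedBall c ρ, 0 ≤ w v := by
      intro v hv
      rw [← closure_ball c hρ.ne'] at hv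
      have := hmax v (closure_mono hball hv)
      simp only [hwdef]
      linarith
    have hwc0 : 0 ≤ w c := hw0 c (mem_closedBall_self hρ.le)
    rcases hwc0.eq_or_lt with h | h
    · left
      refine hin c hcD ?_
      simp only [hwdef] at h
      linarith
    · right
      refine ⟨κ₀ * w c / ρ, by positivity, fun s hs hsρ => ?_⟩
      have hdist : dist P c = ρ := by
        rw [hc, dist_eq_norm, sub_add_cancel_left, norm_neg, norm_smul, hν, mul_one,
          Real.norm_of_nonneg hρ.le]
      have h1 := hopf_local hρ hw hwc.continuousOn hw0 hdist hs hsρ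
      have h2 : P + (s / ρ) • (c - P) = P + s • ν := by
        rw [hc, add_sub_cancel_left, smul_smul, div_mul_cancel₀ _ hρ.ne']
      rw [h2] at h1
      have h3 : κ₀ * (s / ρ) * w c = κ₀ * w c / ρ * s := by field_simp
      rw [← hκ₀, h3] at h1
      simpa only [hwdef] using h1
  by_cases hPin : P ∈ D
  · exact hin P hPin rfl
  have hPfr : P ∈ frontier D := by rw [hDo.frontier_eq]; exact ⟨hPD, hPin⟩
  rcases (hu.nonneg P).eq_or_lt with hP0 | hP0
  · -- a free boundary point
    have hP0 : u P = 0 := hP0.symm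
    rw [hP0, zero_add] at hmt
    have hPF : P ∈ frontier {x | 0 < u x} := by
      rw [(isOpen_pos hu).frontier_eq]
      refine ⟨closure_mono (fun x hx => (hDsub x hx).1) hPD, fun h => ?_⟩
      have : 0 < u P := h
      linarith
    obtain ⟨z, hzD, hz⟩ := mem_closure_iff_seq_limit.1 hPD
    set r₀ : ℝ := (inner ℝ P e - t) / 3 with hr₀
    have hr₀p : 0 < r₀ := by rw [hr₀]; linarith
    have hnear : ∀ x, dist x P < 3 * r₀ → t < inner ℝ x e := by
      intro x hx
      have h1 : |inner ℝ (x - P) e| ≤ ‖x - P‖ * ‖e‖ := abs_real_inner_le_norm _ _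
      rw [he, mul_one, ← dist_eq_norm, inner_sub_left] at h1
      have h2 := (abs_le.1 h1).1
      have h3 : 3 * r₀ = inner ℝ P e - t := by rw [hr₀]; ring
      linarith
    obtain ⟨ν, ρ, g, hρr, hside, hfreq⟩ := exists_side hu hPF hz (fun n => (hDsub _ (hzD n)).1) hr₀p
    have hρ := hside.rho_pos
    have hev : ∀ᶠ n in atTop, dist (z n) P < ρ := by
      have := (tendsto_iff_dist_tendsto_zero.1 hz).eventually (gt_mem_nhds hρ)
      exact this
    obtain ⟨n, ⟨-, hseg⟩, hn⟩ := (hfreq.and_eventually hev).exists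
    have hcen : z n + ρ • ν ∈ D := by
      have hA : IsPreconnected ((fun s : ℝ => z n + s • ν) '' Icc 0 ρ) :=
        isPreconnected_Icc.image _ (by fun_prop)
      refine hconn _ hA ?_ ⟨z n, ⟨0, ⟨le_rfl, hρ.le⟩, by simp⟩, hzD n⟩
        ⟨ρ, ⟨hρ.le, le_rfl⟩, rfl⟩
      rintro _ ⟨s, hs, rfl⟩
      refine ⟨hseg s hs, hnear _ ?_⟩
      have h1 : dist (z n + s • ν) P ≤ dist (z n + s • ν) (z n) + dist (z n) P :=
        dist_triangle _ _ _
      have h2 : dist (z n + s • ν) (z n) = s := by
        rw [dist_eq_norm, add_sub_cancel_left, norm_smul, hside.norm_nu, mul_one,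
          Real.norm_of_nonneg hs.1]
      rw [h2] at h1
      have := hs.2
      linarith
    have hball : ball (P + ρ • ν) ρ ⊆ D := by
      refine hconn _ (convex_ball _ _).isPreconnected ?_ ⟨z n + ρ • ν, ?_, hcen⟩
      · intro x hx
        refine ⟨hside.pos x hx, hnear x ?_⟩
        rw [mem_ball] at hx
        have h1 : dist x P ≤ dist x (P + ρ • ν) + dist (P + ρ • ν) P := dist_triangle _ _ _
        have h2 : dist (P + ρ • ν) P = ρ := by
          rw [dist_eq_norm, add_sub_cancel_left, norm_smul, hside.norm_nu, mul_one,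
            Real.norm_of_nonneg hρ.le]
        linarith
      · rw [mem_ball, dist_add_right]
        exact hn
    rcases hhopf ν hside.norm_nu ρ hρ hball with h | ⟨κ, hκ, hκs⟩
    · exact h
    exfalso
    have hlow := hside.lower (show 0 < κ / 2 by linarith)
    have hs1 : ∀ᶠ s in 𝓝[>] (0 : ℝ), 0 < s ∧ s < 3 * ρ / 4 := by
      have : Ioo (0 : ℝ) (3 * ρ / 4) ∈ 𝓝[>] (0 : ℝ) := Ioo_mem_nhdsGT (by positivity)
      filter_upwards [this] with s hs using hs
    obtain ⟨s, h1, h2, h3⟩ := (hlow.and hs1).exists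
    have h4 := hκs s h2 h3.le
    rw [hP0, inner_add_left, inner_smul_left] at h4
    simp only [conj_trivial] at h4
    have h5 : |inner ℝ ν e| ≤ 1 := by
      have := abs_real_inner_le_norm ν e
      rwa [hside.norm_nu, he, one_mul] at this
    have h6 := (abs_le.1 h5).1
    nlinarith
  · -- a point of the plane
    have hPt : inner ℝ P e = t := by
      rcases hDfr P hPfr with h | h
      · linarith
      · exact h
    obtain ⟨r, hr, hrΩ⟩ := Metric.isOpen_iff.1 (isOpen_pos hu) P hP0
    have hA : ball P r ∩ {x : E3 | t < inner ℝ x e} ⊆ D := by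
      refine hconn _ ?_ ?_ ?_
      · refine Convex.isPreconnected ((convex_ball _ _).inter ?_)
        have h1 : {x : E3 | t < inner ℝ x e} = {x : E3 | t < innerSL ℝ e x} := by
          ext x; simp [real_inner_comm]
        rw [h1]
        exact convex_halfSpace_gt (innerSL ℝ e).isLinear t
      · rintro x ⟨hx1, hx2⟩
        exact ⟨hrΩ hx1, hx2⟩
      · obtain ⟨x, hx, hx2⟩ := Metric.mem_closure_iff.1 hPD r hr
        refine ⟨x, ⟨?_, (hDsub x hx).2⟩, hx⟩
        rw [mem_ball, dist_comm]; exact hx2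
    have hee : inner ℝ e e = (1 : ℝ) := by rw [real_inner_self_eq_norm_sq, he]; norm_num
    have hball : ball (P + (r / 2) • e) (r / 2) ⊆ D := by
      refine Subset.trans ?_ hA
      intro x hx
      rw [mem_ball] at hx
      have h2 : dist (P + (r / 2) • e) P = r / 2 := by
        rw [dist_eq_norm, add_sub_cancel_left, norm_smul, he, mul_one,
          Real.norm_of_nonneg (by linarith)]
      refine ⟨?_, ?_⟩
      · rw [mem_ball]
        have h1 : dist x P ≤ dist x (P + (r / 2) • e) + dist (P + (r / 2) • e) P :=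
          dist_triangle _ _ _
        linarith
      · have h1 : |inner ℝ (x - (P + (r / 2) • e)) e| ≤ ‖x - (P + (r / 2) • e)‖ * ‖e‖ :=
          abs_real_inner_le_norm _ _
        rw [he, mul_one, ← dist_eq_norm, inner_sub_left, inner_add_left, inner_smul_left, hee,
          hPt] at h1
        simp only [conj_trivial, mul_one] at h1
        have h3 := (abs_le.1 h1).1
        change t < inner ℝ x e
        linarith
    rcases hhopf e he (r / 2) (by linarith) hball with h | ⟨κ, hκ, hκs⟩
    · exact h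
    exfalso
    have hdiff : DifferentiableAt ℝ u P := (hu.harmonic P hP0).1.differentiableAt (by norm_num)
    have ho := hdiff.hasFDerivAt.isLittleO.bound (show 0 < κ / 2 by linarith)
    have htend : Tendsto (fun s : ℝ => P + s • e) (𝓝 0) (𝓝 P) := by
      have h1 : Continuous fun s : ℝ => P + s • e := by fun_prop
      have h2 := h1.tendsto 0
      simpa using h2
    have ho' := (htend.eventually ho).filter_mono (nhdsWithin_le_nhds (s := Ioi (0 : ℝ)))
    have hs1 : ∀ᶠ s in 𝓝[>] (0 : ℝ), 0 < s ∧ s < 3 * (r / 2) / 4 := by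
      have : Ioo (0 : ℝ) (3 * (r / 2) / 4) ∈ 𝓝[>] (0 : ℝ) := Ioo_mem_nhdsGT (by positivity)
      filter_upwards [this] with s hs using hs
    obtain ⟨s, h1, h2, h3⟩ := (ho'.and hs1).exists
    have h4 := hκs s h2 h3.le
    rw [inner_add_left, inner_smul_left, hee] at h4
    simp only [conj_trivial, mul_one] at h4
    rw [add_sub_cancel_left, map_smul, smul_eq_mul, norm_smul, he, mul_one,
      Real.norm_of_nonneg h2.le, Real.norm_eq_abs] at h1
    have h5 := (abs_le.1 h1).1
    have h6 := norm_fderiv_le_one hu hK hP0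
    have h7 : ‖fderiv ℝ u P e‖ ≤ ‖fderiv ℝ u P‖ * ‖e‖ := ContinuousLinearMap.le_opNorm _ _
    rw [he, mul_one, Real.norm_eq_abs] at h7
    have h8 := (abs_le.1 (h7.trans h6)).1
    nlinarith

end FB75
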