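import Pool.Agent.FB75.Cover

/-!
# Growth of solutions with connected unbounded zero phase
-/

open MeasureTheory Metric Set Filter Topology InnerProductSpace Laplacian
open scoped ContDiff

namespace FB75

theorem exists_zero_at_dist {u : E3 → ℝ} (hK : IsConnected {x | u x = 0})
    (hb : ¬ Bornology.IsBounded {x | u x = 0}) {p : E3} (hp : u p = 0) {r : ℝ} (hr : 0 ≤ r) :
    ∃ y, u y = 0 ∧ dist y p = r := by
  have himg : IsPreconnected ((fun y => dist y p) '' {x | u x = 0}) :=
    hK.isPreconnected.image _ (by fun_prop)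
  have h0 : (0 : ℝ) ∈ (fun y => dist y p) '' {x | u x = 0} := ⟨p, hp, dist_self p⟩
  have hex : ∃ z, u z = 0 ∧ r ≤ dist z p := by
    by_contra hcon
    push Not at hcon
    apply hb
    refine (isBounded_closedBall (x := p) (r := r)).subset ?_
    intro z hz
    exact mem_closedBall.2 (hcon z hz).le
  obtain ⟨z, hz, hrz⟩ := hex
  have hz' : dist z p ∈ (fun y => dist y p) '' {x | u x = 0} := ⟨z, hz, rfl⟩
  have := himg.ordConnected.out h0 hz' ⟨hr, hrz⟩
  obtain ⟨y, hy, hyr⟩ := this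
  exact ⟨y, hy, hyr⟩

theorem Phi_le_of_zero {u : E3 → ℝ} (hu : IsEntireSolution u) {ε : ℝ} (hε : 0 < ε) {y : E3}
    (hy : u y = 0) {t : ℝ} (ht : 0 ≤ t) :
    Phi (fun x => trc ε (u x)) y t ≤ (C0 * t) ^ 3 * cpsi := by
  unfold Phi cpsi
  rw [← integral_const_mul]
  refine integral_mono (integrable_psi_mul ((sub_contDiff hu hε).continuous.comp (by fun_prop)))
    (integrable_psi.const_mul _) ?_
  intro w
  simp only
  rw [mul_comm]
  by_cases hw : 1 ≤ ‖w‖
  · rw [psi_eq_zero hw]; simp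
  · push Not at hw
    refine mul_le_mul_of_nonneg_right ?_ (psi_nonneg w)
    refine (trc_le hε.le (hu.nonneg _)).trans (pow_le_pow_left₀ (hu.nonneg _) ?_ 3)
    refine (lip hu _ hy).trans (mul_le_mul_of_nonneg_left ?_ C0_pos.le)
    rw [dist_eq_norm, add_sub_cancel_left, norm_smul, Real.norm_of_nonneg ht]
    nlinarith

/-- The gain constant. -/
noncomputable def c1 : ℝ := 27 / 3072 * (49 / 2048) / 25

theorem c1_pos : 0 < c1 := by unfold c1; norm_num

theorem step_growth {u : E3 → ℝ} (hu : IsEntireSolution u) (hK : IsConnected {x | u x = 0})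
    (hb : ¬ Bornology.IsBounded {x | u x = 0}) {ε : ℝ} (hε : 0 < ε) {p : E3} (hp : u p = 0)
    {R t₀ : ℝ} (ht₀ : 0 < t₀) (htR : t₀ < R)
    (hpos : 0 < Phi (fun x => trc ε (u x)) p (2 * R))
    (hsmall : (C0 * t₀) ^ 3 * cpsi ≤ 49 / 4096 * Phi (fun x => trc ε (u x)) p (2 * R)) :
    Phi (fun x => trc ε (u x)) p (2 * R) * (1 + c1 / Real.log (4 * R / t₀)) ≤
      Phi (fun x => trc ε (u x)) p (20 * R) := by
  set v : E3 → ℝ := fun x => trc ε (u x) with hvdef
  have hv : ContDiff ℝ 2 v := sub_contDiff hu hε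
  have hg0 : ∀ z, 0 ≤ Δ v z := sub_laplacian_nonneg hu hε
  have hR : 0 < R := ht₀.trans htR
  set κ : ℝ := 49 / 2048 * Phi v p (2 * R) with hκ
  have hκ0 : 0 < κ := by positivity
  have hmass := mass_ge hv hg0 (p := p) (R := R) (t₀ := t₀) (κ := κ) ht₀ hR htR hκ0 (by
    intro r hr
    obtain ⟨y, hy, hyr⟩ := exists_zero_at_dist hK hb hp hr.1
    refine ⟨y, hyr, ?_⟩
    have h1 := Phi_le_of_zero hu hε hy ht₀.le
    have h2 := Phi_compare (h := v) hv.continuous (fun x => trc_nonneg _ _) (z := y) (x := p)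
      (t := 4 * R) (s := 2 * R) (by positivity) (by positivity)
      (by rw [dist_comm, hyr]; linarith [hr.2])
    rw [dist_comm, hyr] at h2
    have h3 : (49 / 2048 : ℝ) ≤ (2 * R / (4 * R)) ^ 3 * (1 - ((r + 2 * R) / (4 * R)) ^ 2) ^ 2 := by
      have e1 : 2 * R / (4 * R) = 1 / 2 := by field_simp; norm_num
      rw [e1]
      have e2 : (r + 2 * R) / (4 * R) ≤ 3 / 4 := by
        rw [div_le_iff₀ (by positivity)]; linarith [hr.2]
      have e3 : 0 ≤ (r + 2 * R) / (4 * R) := div_nonneg (by linarith [hr.1]) (by positivity)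
      have e4 : (7 / 16 : ℝ) ≤ 1 - ((r + 2 * R) / (4 * R)) ^ 2 := by nlinarith
      have e5 : (7 / 16 : ℝ) ^ 2 ≤ (1 - ((r + 2 * R) / (4 * R)) ^ 2) ^ 2 :=
        pow_le_pow_left₀ (by norm_num) e4 2
      linarith
    have h4 : κ ≤ Phi v y (4 * R) := by
      refine le_trans ?_ h2
      rw [hκ]
      exact mul_le_mul_of_nonneg_right h3 hpos.le
    have h5 : κ / 2 = 49 / 4096 * Phi v p (2 * R) := by rw [hκ]; ring
    linarith)
  have hgr := Phi_growth_ge hv hg0 (y := p) (T := 5 * R) (by positivity)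
  have e1 : 2 * (5 * R) = 10 * R := by ring
  have e2 : 4 * (5 * R) = 20 * R := by ring
  rw [e1, e2] at hgr
  have hmono : Phi v p (2 * R) ≤ Phi v p (10 * R) :=
    Phi_mono hv hg0 p (by simp only [mem_Ici]; positivity) (by simp only [mem_Ici]; positivity)
      (by linarith)
  set ℓ : ℝ := Real.log (4 * R / t₀) with hℓ
  have hℓ0 : 0 < ℓ := Real.log_pos (by rw [lt_div_iff₀ ht₀]; linarith)
  have h6 : κ / (25 * ℓ) ≤ mass (Δ v) p (5 * R) / (5 * R) := by
    rw [le_div_iff₀ (by positivity)]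
    have : κ / (25 * ℓ) * (5 * R) = κ / (5 * ℓ) * R := by field_simp; norm_num
    linarith
  have h7 : Phi v p (2 * R) * (1 + c1 / ℓ) = Phi v p (2 * R) + 27 / 3072 * (κ / (25 * ℓ)) := by
    rw [hκ, c1]; field_simp
  linarith

/-- The growth exponent of the averages. -/
noncomputable def gam : ℝ := c1 / Real.log 10

theorem log_ten_pos : 0 < Real.log 10 := Real.log_pos (by norm_num)

theorem gam_pos : 0 < gam := div_pos c1_pos log_ten_pos

theorem gam_le_one : gam ≤ 1 := by
  unfold gam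
  rw [div_le_one log_ten_pos]
  have h1 : (1 : ℝ) ≤ Real.log 10 := by
    rw [Real.le_log_iff_exp_le (by norm_num)]
    have := Real.exp_one_lt_d9
    linarith
  have : c1 ≤ 1 := by unfold c1; norm_num
  linarith

/-- Averages grow at least like a power of the logarithm. -/
theorem average_growth {u : E3 → ℝ} (hu : IsEntireSolution u) (hK : IsConnected {x | u x = 0})
    (hb : ¬ Bornology.IsBounded {x | u x = 0}) {x₀ : E3} (hx₀ : 0 < u x₀) {p : E3}
    (hp : u p = 0) :
    ∃ a : ℝ, 0 < a ∧ ∃ R₀ : ℝ, 1 ≤ R₀ ∧ ∀ R, R₀ ≤ R →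
      a * (Real.log (R / R₀)) ^ gam ≤ Phi (fun x => trc (u x₀ / 2) (u x)) p (2 * R) := by
  have hε : 0 < u x₀ / 2 := by positivity
  set v : E3 → ℝ := fun x => trc (u x₀ / 2) (u x) with hvdef
  have hv : ContDiff ℝ 2 v := sub_contDiff hu hε
  have hg0 : ∀ z, 0 ≤ Δ v z := sub_laplacian_nonneg hu hε
  have hv0 : ∀ z, 0 ≤ v z := fun z => trc_nonneg _ _
  set R₀ : ℝ := dist x₀ p + 1 with hR₀
  have hR₀1 : 1 ≤ R₀ := by rw [hR₀]; linarith [dist_nonneg (x := x₀) (y := p)]
  have hR₀0 : 0 < R₀ := by linarith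
  have hpos0 : 0 < Phi v p (2 * R₀) := by
    unfold Phi
    have hc : Continuous fun w => psi w * v (p + (2 * R₀) • w) :=
      continuous_psi.mul (hv.continuous.comp (by fun_prop))
    refine hc.integral_pos_of_hasCompactSupport_nonneg_nonzero hasCompactSupport_psi.mul_right
      (fun w => mul_nonneg (psi_nonneg w) (hv0 _)) (x := (2 * R₀)⁻¹ • (x₀ - p)) ?_
    have e : p + (2 * R₀) • (2 * R₀)⁻¹ • (x₀ - p) = x₀ := by
      rw [smul_smul, mul_inv_cancel₀ (by positivity), one_smul]; abel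
    rw [e]
    refine mul_ne_zero ?_ ?_
    · unfold psi
      have h1 : ‖(2 * R₀)⁻¹ • (x₀ - p)‖ < 1 := by
        rw [norm_smul, norm_inv, Real.norm_of_nonneg (by positivity), ← dist_eq_norm,
          inv_mul_lt_iff₀ (by positivity)]
        linarith
      have h2 : 0 < 1 - ‖(2 * R₀)⁻¹ • (x₀ - p)‖ ^ 2 := by
        nlinarith [norm_nonneg ((2 * R₀)⁻¹ • (x₀ - p))]
      rw [max_eq_right h2.le]
      positivity
    · simp only [hvdef, trc]
      have h3 : 0 < u x₀ - u x₀ / 2 := by linarith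
      rw [max_eq_right h3.le]
      positivity
  set a : ℝ := Phi v p (2 * R₀) with ha
  -- the small scale
  obtain ⟨t₀, ht₀, ht₁, ht₂⟩ : ∃ t₀ : ℝ, 0 < t₀ ∧ t₀ ≤ R₀ / 3 ∧
      (C0 * t₀) ^ 3 * cpsi ≤ 49 / 4096 * a := by
    have hlim : Tendsto (fun t : ℝ => (C0 * t) ^ 3 * cpsi) (𝓝[>] 0) (𝓝 0) := by
      have h : Continuous fun t : ℝ => (C0 * t) ^ 3 * cpsi := by fun_prop
      have h2 := (h.tendsto 0).mono_left (nhdsWithin_le_nhds (s := Ioi (0 : ℝ)))
      simpa using h2
    have h1 : ∀ᶠ t in 𝓝[>] (0 : ℝ), (C0 * t) ^ 3 * cpsi < 49 / 4096 * a :=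
      hlim.eventually (gt_mem_nhds (by positivity))
    have h2 : ∀ᶠ t in 𝓝[>] (0 : ℝ), t ∈ Ioo (0 : ℝ) (R₀ / 3) := Ioo_mem_nhdsGT (by positivity)
    obtain ⟨t, h3, h4⟩ := (h1.and h2).exists
    exact ⟨t, h4.1, h4.2.le, h3.le⟩
  set ℓ : ℝ := Real.log (4 * R₀ / t₀) with hℓ
  have hℓL : Real.log 10 ≤ ℓ := by
    refine Real.log_le_log (by norm_num) ?_
    rw [le_div_iff₀ ht₀]; linarith
  have hL := log_ten_pos
  have hℓ0 : 0 < ℓ := hL.trans_le hℓL
  -- iteration
  have hiter : ∀ k : ℕ, a * ((k * Real.log 10 + ℓ) / ℓ) ^ gam ≤ Phi v p (2 * (10 ^ k * R₀)) := by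
    intro k
    induction k with
    | zero => simp [div_self hℓ0.ne', ha]
    | succ k ih =>
      set R : ℝ := 10 ^ k * R₀ with hR
      have hRR : R₀ ≤ R := by
        rw [hR]
        have : (1 : ℝ) ≤ 10 ^ k := one_le_pow₀ (by norm_num)
        nlinarith
      have hmono : a ≤ Phi v p (2 * R) :=
        Phi_mono hv hg0 p (by simp only [mem_Ici]; positivity)
          (by simp only [mem_Ici]; positivity) (by linarith)
      have hstep := step_growth hu hK hb hε hp (R := R) (t₀ := t₀) ht₀ (by linarith)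
        (hpos0.trans_le hmono) (ht₂.trans (by
          refine mul_le_mul_of_nonneg_left hmono (by norm_num)))
      have hlog : Real.log (4 * R / t₀) = k * Real.log 10 + ℓ := by
        rw [hR, hℓ, show 4 * (10 ^ k * R₀) / t₀ = 10 ^ k * (4 * R₀ / t₀) by ring,
          Real.log_mul (by positivity) (by positivity), Real.log_pow]
      rw [hlog] at hstep
      have e20 : 20 * R = 2 * (10 ^ (k + 1) * R₀) := by rw [hR]; ring
      rw [e20] at hstep
      refine le_trans ?_ hstep
      set q : ℝ := k * Real.log 10 + ℓ with hq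
      have hq0 : 0 < q := by positivity
      have h1 : ((((k + 1 : ℕ) : ℝ) * Real.log 10 + ℓ) / ℓ) = (q / ℓ) * (1 + Real.log 10 / q) := by
        rw [hq]; push_cast; field_simp; ring
      rw [h1, Real.mul_rpow (by positivity) (by positivity)]
      have h2 : (1 + Real.log 10 / q) ^ gam ≤ 1 + c1 / q := by
        have h3 := rpow_one_add_le_one_add_mul_self (s := Real.log 10 / q)
          (by have : 0 ≤ Real.log 10 / q := by positivity
              linarith) gam_pos.le gam_le_one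
        have h4 : gam * (Real.log 10 / q) = c1 / q := by rw [gam]; field_simp
        rwa [h4] at h3
      calc a * ((q / ℓ) ^ gam * (1 + Real.log 10 / q) ^ gam)
          = (a * (q / ℓ) ^ gam) * (1 + Real.log 10 / q) ^ gam := by ring
        _ ≤ Phi v p (2 * R) * (1 + c1 / q) := by
            refine mul_le_mul ih h2 (by positivity) (hpos0.trans_le hmono).le
  refine ⟨a * (1 / ℓ) ^ gam, by positivity, R₀, hR₀1, fun R hR => ?_⟩
  have hRpos : 0 < R := hR₀0.trans_le hR
  have hlogn : 0 ≤ Real.log (R / R₀) := Real.log_nonneg (by rwa [le_div_iff₀ hR₀0, one_mul])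
  set k : ℕ := ⌊Real.log (R / R₀) / Real.log 10⌋₊ with hk
  have hk1 : (k : ℝ) * Real.log 10 ≤ Real.log (R / R₀) := by
    have := Nat.floor_le (div_nonneg hlogn hL.le)
    rwa [← hk, le_div_iff₀ hL] at this
  have hk2 : Real.log (R / R₀) < (k + 1 : ℝ) * Real.log 10 := by
    have := Nat.lt_floor_add_one (Real.log (R / R₀) / Real.log 10)
    rwa [← hk, div_lt_iff₀ hL] at this
  have hkR : 10 ^ k * R₀ ≤ R := by
    have h1 : Real.log ((10 : ℝ) ^ k) ≤ Real.log (R / R₀) := by rw [Real.log_pow]; exact hk1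
    have h2 : (10 : ℝ) ^ k ≤ R / R₀ := (Real.log_le_log_iff (by positivity) (by positivity)).1 h1
    rwa [le_div_iff₀ hR₀0] at h2
  have hmono : Phi v p (2 * (10 ^ k * R₀)) ≤ Phi v p (2 * R) :=
    Phi_mono hv hg0 p (by simp only [mem_Ici]; positivity) (by simp only [mem_Ici]; positivity)
      (by linarith)
  refine le_trans ?_ ((hiter k).trans hmono)
  rw [mul_assoc, ← Real.mul_rpow (by positivity) hlogn]
  refine mul_le_mul_of_nonneg_left ?_ hpos0.le
  refine Real.rpow_le_rpow (by positivity) ?_ gam_pos.le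
  rw [one_div, inv_mul_eq_div]
  refine div_le_div_of_nonneg_right ?_ hℓ0.le
  linarith

theorem growth_main : ∃ γ : ℝ, 0 < γ ∧ ∀ u : E3 → ℝ, IsEntireSolution u → (∃ x, 0 < u x) →
    IsConnected {x | u x = 0} → ¬ Bornology.IsBounded {x | u x = 0} →
    ∃ c : ℝ, 0 < c ∧ ∀ᶠ R : ℝ in atTop, ∃ x, ‖x‖ ≤ R ∧ c * (Real.log R) ^ γ ≤ u x := by
  refine ⟨gam / 3, by have := gam_pos; positivity, ?_⟩
  rintro u hu ⟨x₀, hx₀⟩ hK hb
  obtain ⟨p, hp⟩ := hK.nonempty
  obtain ⟨a, ha, R₀, hR₀, hgrow⟩ := average_growth hu hK hb hx₀ hp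
  have hε : 0 < u x₀ / 2 := by positivity
  have hcp := cpsi_pos
  have hgam := gam_pos
  set b : ℝ := (a / cpsi * (1 / 2) ^ gam) ^ ((1 : ℝ) / 3) with hb'
  have hb3 : b ^ 3 = a / cpsi * (1 / 2) ^ gam := by
    rw [hb', ← Real.rpow_natCast, ← Real.rpow_mul (by positivity)]
    norm_num
  have hbpos : 0 < b := by rw [hb']; positivity
  refine ⟨b, hbpos, ?_⟩
  filter_upwards [eventually_ge_atTop (2 * ‖p‖), eventually_ge_atTop (4 * R₀),
    eventually_ge_atTop ((4 * R₀) ^ 2)] with R h1 h2 h3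
  have hRpos : 0 < R := by linarith
  -- maximum over the ball about `p`
  obtain ⟨x, hx, hmax⟩ := (isCompact_closedBall p (R / 2)).exists_isMaxOn
    (nonempty_closedBall.2 (by positivity)) hu.continuous.continuousOn
  refine ⟨x, ?_, ?_⟩
  · rw [mem_closedBall] at hx
    have : ‖x‖ ≤ dist x p + ‖p‖ := by
      rw [dist_eq_norm]
      have := norm_add_le (x - p) p
      rwa [sub_add_cancel] at this
    linarith
  · have hPhi : Phi (fun x => trc (u x₀ / 2) (u x)) p (R / 2) ≤ (u x) ^ 3 * cpsi := by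
      unfold Phi cpsi
      rw [← integral_const_mul]
      refine integral_mono (integrable_psi_mul
        ((sub_contDiff hu hε).continuous.comp (by fun_prop))) (integrable_psi.const_mul _) ?_
      intro w
      simp only
      rw [mul_comm]
      by_cases hw : 1 ≤ ‖w‖
      · rw [psi_eq_zero hw]; simp
      · push Not at hw
        refine mul_le_mul_of_nonneg_right ?_ (psi_nonneg w)
        refine (trc_le hε.le (hu.nonneg _)).trans (pow_le_pow_left₀ (hu.nonneg _) ?_ 3)
        refine hmax ?_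
        rw [mem_closedBall, dist_eq_norm, add_sub_cancel_left, norm_smul,
          Real.norm_of_nonneg (by positivity)]
        nlinarith
    have hg := hgrow (R / 4) (by linarith)
    have e4 : 2 * (R / 4) = R / 2 := by ring
    rw [e4] at hg
    have hlog : Real.log R / 2 ≤ Real.log (R / 4 / R₀) := by
      have h5 : Real.log (4 * R₀) ≤ Real.log R / 2 := by
        have h6 : Real.log ((4 * R₀) ^ 2) ≤ Real.log R := Real.log_le_log (by positivity) h3
        rw [Real.log_pow] at h6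
        push_cast at h6
        linarith
      rw [div_div, Real.log_div hRpos.ne' (by positivity)]
      linarith
    have hlogR : 0 ≤ Real.log R := Real.log_nonneg (by nlinarith)
    have h7 : a * (Real.log R / 2) ^ gam ≤ (u x) ^ 3 * cpsi := by
      refine le_trans ?_ (hg.trans hPhi)
      refine mul_le_mul_of_nonneg_left ?_ ha.le
      exact Real.rpow_le_rpow (by positivity) hlog hgam.le
    have h8 : (b * (Real.log R) ^ (gam / 3)) ^ 3 ≤ (u x) ^ 3 := by
      rw [mul_pow, hb3, ← Real.rpow_natCast ((Real.log R) ^ (gam / 3)), ← Real.rpow_mul hlogR]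
      have e : gam / 3 * ((3 : ℕ) : ℝ) = gam := by push_cast; ring
      rw [e]
      have h9 : (Real.log R / 2) ^ gam = (1 / 2) ^ gam * (Real.log R) ^ gam := by
        rw [← Real.mul_rpow (by positivity) hlogR]
        congr 1; ring
      rw [h9] at h7
      have h10 : a / cpsi * (1 / 2) ^ gam * Real.log R ^ gam =
          (a * ((1 / 2) ^ gam * Real.log R ^ gam)) / cpsi := by field_simp
      rw [h10, div_le_iff₀ hcp]
      exact h7
    exact le_of_pow_le_pow_left₀ (by norm_num) (hu.nonneg x) h8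

end FB75
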