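import Pool.Agent.FB75.Mean

/-!
# A Harnack-type inequality from the weighted mean value property
-/

open MeasureTheory Metric Set Filter Topology InnerProductSpace Laplacian
open scoped ContDiff

namespace FB75

theorem integral_affine (F : E3 → ℝ) (a : E3) {r : ℝ} (hr : 0 < r) :
    ∫ w, F (r⁻¹ • (w - a)) = r ^ 3 * ∫ w, F w := by
  have h1 : ∫ w, F (r⁻¹ • (w - a)) = ∫ w, F (r⁻¹ • w) :=
    integral_sub_right_eq_self (fun w => F (r⁻¹ • w)) a
  rw [h1, Measure.integral_comp_inv_smul_of_nonneg volume F hr.le]
  simp

theorem harnack {h : E3 → ℝ} {z x : E3} {R t s : ℝ} (hz : HarmonicOnNhd h (ball z R))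
    (h0 : ∀ v ∈ ball z R, 0 ≤ h v) (ht : 0 < t) (htR : t < R) (hs : 0 < s)
    (hxs : dist x z + s ≤ t) :
    (s / t) ^ 3 * (1 - ((dist x z + s) / t) ^ 2) ^ 2 * h x ≤ h z := by
  have h1 : Phi h z t = h z * cpsi := Phi_harmonic hz ht.le htR
  have h2 : Phi h x s = h x * cpsi := by
    refine Phi_harmonic (R := s + (R - t)) (hz.mono ?_) hs.le (by linarith)
    refine ball_subset_ball' ?_
    linarith
  set κ : ℝ := (1 - ((dist x z + s) / t) ^ 2) ^ 2 with hκ
  have hr : 0 < s / t := div_pos hs ht
  set a : E3 := t⁻¹ • (x - z) with ha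
  have hna : ‖a‖ = dist x z / t := by
    rw [ha, norm_smul, norm_inv, Real.norm_of_nonneg ht.le, dist_eq_norm, div_eq_inv_mul]
  have h3 : ∫ w, psi ((s / t)⁻¹ • (w - a)) * h (x + s • ((s / t)⁻¹ • (w - a))) =
      (s / t) ^ 3 * Phi h x s :=
    integral_affine (fun w => psi w * h (x + s • w)) a hr
  have h3' : ∀ w : E3, x + s • ((s / t)⁻¹ • (w - a)) = z + t • w := by
    intro w
    rw [smul_smul, show s * (s / t)⁻¹ = t by field_simp, smul_sub, ha, smul_smul,
      mul_inv_cancel₀ ht.ne', one_smul]
    abel
  simp only [h3'] at h3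
  have hcont : ContinuousOn h (ball z R) := hz.continuousOn
  -- pointwise comparison
  have hle : ∀ w, κ * (psi ((s / t)⁻¹ • (w - a)) * h (z + t • w)) ≤ psi w * h (z + t • w) := by
    intro w
    by_cases hw : 1 ≤ ‖(s / t)⁻¹ • (w - a)‖
    · rw [psi_eq_zero hw, zero_mul, mul_zero]
      by_cases hw' : 1 ≤ ‖w‖
      · rw [psi_eq_zero hw', zero_mul]
      · push Not at hw'
        refine mul_nonneg (psi_nonneg w) (h0 _ ?_)
        rw [mem_ball, dist_eq_norm, add_sub_cancel_left, norm_smul, Real.norm_of_nonneg ht.le]
        nlinarith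
    · push Not at hw
      have hwa : ‖w - a‖ < s / t := by
        rw [norm_smul, norm_inv, Real.norm_of_nonneg hr.le, inv_mul_lt_iff₀ hr, mul_one] at hw
        exact hw
      have hwn : ‖w‖ ≤ (dist x z + s) / t := by
        have : ‖w‖ ≤ ‖w - a‖ + ‖a‖ := by
          have := norm_add_le (w - a) a
          rwa [sub_add_cancel] at this
        rw [hna] at this
        rw [add_div]
        linarith
      have hle1 : (dist x z + s) / t ≤ 1 := (div_le_one ht).2 hxs
      have hpw : κ ≤ psi w := by
        rw [hκ, psi]
        refine pow_le_pow_left₀ ?_ ?_ 2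
        · have h5 : 0 ≤ (dist x z + s) / t := by positivity
          nlinarith
        · refine le_max_of_le_right ?_
          nlinarith [norm_nonneg w]
      have hκ0 : 0 ≤ κ := by rw [hκ]; positivity
      have hh : 0 ≤ h (z + t • w) := by
        refine h0 _ ?_
        rw [mem_ball, dist_eq_norm, add_sub_cancel_left, norm_smul, Real.norm_of_nonneg ht.le]
        have : t * ‖w‖ ≤ t * 1 := mul_le_mul_of_nonneg_left (hwn.trans hle1) ht.le
        linarith
      calc κ * (psi ((s / t)⁻¹ • (w - a)) * h (z + t • w))
          ≤ κ * (1 * h (z + t • w)) := by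
            refine mul_le_mul_of_nonneg_left ?_ hκ0
            exact mul_le_mul_of_nonneg_right (psi_le_one _) hh
        _ = κ * h (z + t • w) := by rw [one_mul]
        _ ≤ psi w * h (z + t • w) := mul_le_mul_of_nonneg_right hpw hh
  -- integrability
  have hi1 : Integrable (fun w => psi w * h (z + t • w)) := by
    have hc : ContinuousOn (fun w => psi w * h (z + t • w)) (closedBall 0 1) := by
      refine continuous_psi.continuousOn.mul (hcont.comp (by fun_prop) ?_)
      intro w hw
      rw [mem_closedBall_zero_iff] at hw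
      rw [mem_ball, dist_eq_norm, add_sub_cancel_left, norm_smul, Real.norm_of_nonneg ht.le]
      nlinarith
    have h5 := hc.integrableOn_compact (μ := volume) (isCompact_closedBall (0 : E3) 1)
    refine (integrableOn_iff_integrable_of_support_subset ?_).1 h5
    intro w hw
    by_contra hcon
    apply hw
    simp only
    rw [psi_eq_zero, zero_mul]
    simp at hcon
    exact hcon.le
  have hi2 : Integrable (fun w => psi ((s / t)⁻¹ • (w - a)) * h (z + t • w)) := by
    have hc : ContinuousOn (fun w => psi ((s / t)⁻¹ • (w - a)) * h (z + t • w))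
        (closedBall 0 1) := by
      refine ContinuousOn.mul (continuous_psi.comp (by fun_prop)).continuousOn
        (hcont.comp (by fun_prop) ?_)
      intro w hw
      rw [mem_closedBall_zero_iff] at hw
      rw [mem_ball, dist_eq_norm, add_sub_cancel_left, norm_smul, Real.norm_of_nonneg ht.le]
      nlinarith
    have h5 := hc.integrableOn_compact (μ := volume) (isCompact_closedBall (0 : E3) 1)
    refine (integrableOn_iff_integrable_of_support_subset ?_).1 h5
    intro w hw
    by_contra hcon
    apply hw
    simp only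
    rw [psi_eq_zero, zero_mul]
    simp only [mem_closedBall, dist_zero_right, not_le] at hcon
    rw [norm_smul, norm_inv, Real.norm_of_nonneg hr.le, le_inv_mul_iff₀ hr, mul_one]
    have : ‖w‖ ≤ ‖w - a‖ + ‖a‖ := by
      have := norm_add_le (w - a) a
      rwa [sub_add_cancel] at this
    rw [hna] at this
    have h6 : (dist x z + s) / t ≤ 1 := (div_le_one ht).2 hxs
    rw [add_div] at h6
    linarith
  have hmono := integral_mono (hi2.const_mul κ) hi1 hle
  rw [integral_const_mul, h3, h2] at hmono
  have hmono' : κ * ((s / t) ^ 3 * (h x * cpsi)) ≤ h z * cpsi := by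
    rw [← h1]; exact hmono
  have hc := cpsi_pos
  have : (s / t) ^ 3 * κ * h x * cpsi ≤ h z * cpsi := by linarith
  exact le_of_mul_le_mul_right this hc

end FB75
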