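import Pool.Agent.FB75.Harnack

/-!
# The Hopf barrier
-/

open MeasureTheory Metric Set Filter Topology InnerProductSpace Laplacian
open scoped ContDiff

namespace FB75

/-- One-dimensional second derivative condition at a local minimum. -/
theorem second_deriv_nonneg {g g' : ℝ → ℝ} {L : ℝ}
    (h1 : ∀ᶠ s in 𝓝 (0 : ℝ), HasDerivAt g (g' s) s) (h2 : HasDerivAt g' L 0)
    (hm : IsLocalMin g 0) : 0 ≤ L := by
  by_contra hL
  push Not at hL
  have hd : deriv g =ᶠ[𝓝 0] g' := by
    filter_upwards [h1] with s hs using hs.deriv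
  have hdd : deriv (deriv g) 0 = L := by
    rw [hd.deriv_eq]; exact h2.deriv
  have h0 : deriv g 0 = 0 := hm.deriv_eq_zero
  have hc : ContinuousAt g 0 := h1.self_of_nhds.continuousAt
  have hmax : IsLocalMax g 0 := isLocalMax_of_deriv_deriv_neg (by rw [hdd]; exact hL) h0 hc
  have hconst : g =ᶠ[𝓝 0] fun _ => g 0 := by
    filter_upwards [hm, hmax] with s hs hs'
    exact le_antisymm hs' hs
  have h3 : deriv g =ᶠ[𝓝 0] fun _ => 0 := by
    have := hconst.deriv
    simpa using this
  have h4 : deriv (deriv g) 0 = 0 := by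
    rw [h3.deriv_eq]; simp
  rw [hdd] at h4
  linarith

theorem laplacian_nonneg_of_isLocalMin {f : E3 → ℝ} {z : E3} (hf : ContDiffAt ℝ 2 f z)
    (hm : IsLocalMin f z) : 0 ≤ Δ f z := by
  rw [laplacian_eq_sum hf]
  refine Finset.sum_nonneg fun i _ => ?_
  have hline : ∀ s : ℝ, HasDerivAt (fun s : ℝ => z + s • ei i) (ei i) s := by
    intro s
    simpa using ((hasDerivAt_id s).smul_const (ei i)).const_add z
  have hc0 : Tendsto (fun s : ℝ => z + s • ei i) (𝓝 0) (𝓝 z) := by
    have h := (hline 0).continuousAt.tendsto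
    simpa using h
  have hev : ∀ᶠ y in 𝓝 z, DifferentiableAt ℝ f y := by
    have := hf.eventually (by simp)
    filter_upwards [this] with y hy
    exact hy.differentiableAt (by norm_num)
  refine second_deriv_nonneg (g := fun s : ℝ => f (z + s • ei i))
    (g' := fun s : ℝ => fderiv ℝ f (z + s • ei i) (ei i)) ?_ ?_ ?_
  · filter_upwards [hc0.eventually hev] with s hs
    exact hs.hasFDerivAt.comp_hasDerivAt s (hline s)
  · have hd : DifferentiableAt ℝ (fun y => fderiv ℝ f y (ei i)) z :=
      ((hf.fderiv_right (m := 1) (by norm_num)).differentiableAt (by norm_num)).clm_apply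
        (differentiableAt_const _)
    have h0 : z + (0 : ℝ) • ei i = z := by simp
    have hd' : HasFDerivAt (fun y => fderiv ℝ f y (ei i))
        (fderiv ℝ (fun y => fderiv ℝ f y (ei i)) z) (z + (0 : ℝ) • ei i) := by
      rw [h0]; exact hd.hasFDerivAt
    exact hd'.comp_hasDerivAt (0 : ℝ) (hline 0)
  · have := hc0.eventually hm
    filter_upwards [this] with s hs
    simpa using hs

/-- The Gaussian. -/
noncomputable def gau (x : E3) (β : ℝ) (y : E3) : ℝ := Real.exp (-β * ‖y - x‖ ^ 2)

theorem gau_contDiff (x : E3) (β : ℝ) : ContDiff ℝ 2 (gau x β) := by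
  unfold gau
  exact Real.contDiff_exp.comp (contDiff_const.mul ((contDiff_id.sub contDiff_const).norm_sq ℝ))

theorem gau_hasFDerivAt (x : E3) (β : ℝ) (y : E3) :
    HasFDerivAt (gau x β) ((-2 * β * gau x β y) • innerSL ℝ (y - x)) y := by
  have h1 : HasFDerivAt (fun y : E3 => ‖y - x‖ ^ 2) (2 • innerSL ℝ (y - x)) y := by
    have h0 := (hasStrictFDerivAt_norm_sq (y - x)).hasFDerivAt.comp y
      ((hasFDerivAt_id y).sub_const x)
    have h0' : HasFDerivAt (fun y : E3 => ‖y - x‖ ^ 2)
      ((2 • innerSL ℝ (y - x)).comp (ContinuousLinearMap.id ℝ E3)) y := h0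
    rwa [ContinuousLinearMap.comp_id] at h0'
  have h2 := (h1.const_mul (-β)).exp
  unfold gau
  refine h2.congr_fderiv ?_
  ext v
  simp
  ring

theorem gau_laplacian (x : E3) (β : ℝ) (y : E3) :
    Δ (gau x β) y = (4 * β ^ 2 * ‖y - x‖ ^ 2 - 6 * β) * gau x β y := by
  rw [laplacian_eq_sum (gau_contDiff x β).contDiffAt]
  have h1 : ∀ i, (fun y => fderiv ℝ (gau x β) y (ei i)) =
      fun y => (-2 * β * gau x β y) * inner ℝ (y - x) (ei i) := by
    intro i; funext y
    rw [(gau_hasFDerivAt x β y).fderiv]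
    simp only [smul_apply, innerSL_apply_apply, smul_eq_mul]
  have h2 : ∀ i, fderiv ℝ (fun y => fderiv ℝ (gau x β) y (ei i)) y (ei i) =
      4 * β ^ 2 * gau x β y * (inner ℝ (y - x) (ei i)) ^ 2 - 2 * β * gau x β y := by
    intro i
    rw [h1 i]
    have h3 : HasFDerivAt (fun y : E3 => inner ℝ (y - x) (ei i)) (innerSL ℝ (ei i)) y := by
      have : (fun y : E3 => inner ℝ (y - x) (ei i)) = fun y => innerSL ℝ (ei i) (y - x) := by
        funext y; simp [real_inner_comm]
      rw [this]
      have h0 : HasFDerivAt (fun y : E3 => innerSL ℝ (ei i) (y - x))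
        ((innerSL ℝ (ei i)).comp (ContinuousLinearMap.id ℝ E3)) y :=
        (innerSL ℝ (ei i)).hasFDerivAt.comp y ((hasFDerivAt_id y).sub_const x)
      rwa [ContinuousLinearMap.comp_id] at h0
    have h4 : HasFDerivAt (fun y => (-2 * β * gau x β y) * inner ℝ (y - x) (ei i)) _ y :=
      ((gau_hasFDerivAt x β y).const_mul (-2 * β)).mul h3
    rw [h4.fderiv]
    have h5 : inner ℝ (ei i) (ei i) = (1 : ℝ) := by
      rw [real_inner_self_eq_norm_sq, ei, (EuclideanSpace.basisFun (Fin 3) ℝ).norm_eq_one]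
      norm_num
    simp only [add_apply, smul_apply, innerSL_apply_apply, smul_eq_mul,
      h5]
    ring
  simp only [h2]
  rw [Finset.sum_sub_distrib, ← Finset.mul_sum]
  have h6 : ∑ i, (inner ℝ (y - x) (ei i)) ^ 2 = ‖y - x‖ ^ 2 := by
    have := (EuclideanSpace.basisFun (Fin 3) ℝ).sum_sq_inner_left (y - x)
    simpa [ei] using this
  rw [h6]
  simp
  ring

theorem harnack_quarter {u : E3 → ℝ} (hn : ∀ v, 0 ≤ u v) {x : E3} {d : ℝ} (hd : 0 < d)
    (hh : HarmonicOnNhd u (ball x d)) {z : E3} (hz : dist z x = d / 4) :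
    256 / 78125 * u x ≤ u z := by
  have hsub : ball z (3 * d / 4) ⊆ ball x d := ball_subset_ball' (by rw [hz]; linarith)
  have h := harnack (h := u) (z := z) (x := x) (R := 3 * d / 4) (t := 5 * d / 8) (s := d / 8)
    (hh.mono hsub) (fun v _ => hn v) (by linarith) (by linarith) (by linarith)
    (by rw [dist_comm, hz]; linarith)
  rw [dist_comm x z, hz] at h
  have e1 : d / 8 / (5 * d / 8) = 1 / 5 := by field_simp
  have e2 : (d / 4 + d / 8) / (5 * d / 8) = 3 / 5 := by field_simp; norm_num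
  rw [e1, e2] at h
  norm_num at h
  linarith

theorem hopf_barrier {u : E3 → ℝ} (hu : Continuous u) (hn : ∀ v, 0 ≤ u v) {x : E3} {d : ℝ}
    (hd : 0 < d) (hh : HarmonicOnNhd u (ball x d)) {z : E3} (h1 : d / 4 ≤ dist z x)
    (h2 : dist z x ≤ d) :
    256 / 78125 * u x * (Real.exp (-25 * (dist z x / d) ^ 2) - Real.exp (-25)) ≤ u z := by
  set A : ℝ := 256 / 78125 * u x with hA
  have hA0 : 0 ≤ A := by rw [hA]; exact mul_nonneg (by norm_num) (hn x)
  rcases hA0.eq_or_lt with hA0 | hA0
  · rw [← hA0, zero_mul]; exact hn z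
  set β : ℝ := 25 / d ^ 2 with hβ
  have hβ0 : 0 < β := by rw [hβ]; positivity
  have hgau : ∀ y, gau x β y = Real.exp (-25 * (dist y x / d) ^ 2) := by
    intro y
    rw [gau, dist_eq_norm, hβ]
    congr 1
    field_simp
  let W : E3 → ℝ := fun y => u y - A * (gau x β y - Real.exp (-25))
  have hWc : Continuous W := by
    have := (gau_contDiff x β).continuous
    fun_prop
  have hcpt : IsCompact (closedBall x d ∩ {y | d / 4 ≤ dist y x}) :=
    (isCompact_closedBall x d).inter_right (isClosed_le continuous_const (by fun_prop))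
  obtain ⟨y, ⟨hy1, hy2⟩, hymin⟩ := hcpt.exists_isMinOn ⟨z, mem_closedBall.2 h2, h1⟩ hWc.continuousOn
  rw [mem_closedBall] at hy1
  rw [mem_ofPred_eq] at hy2
  have hWz : W y ≤ W z := hymin ⟨mem_closedBall.2 h2, h1⟩
  suffices hW : 0 ≤ W y by
    have := hW.trans hWz
    simp only [W, hgau z] at this
    linarith
  by_contra hneg
  push Not at hneg
  -- `y` is interior
  have hyd : dist y x ≠ d := by
    intro h
    have : W y = u y := by
      simp only [W, hgau y, h, div_self hd.ne']
      norm_num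
    rw [this] at hneg
    exact absurd (hn y) (not_le.2 hneg)
  have hyq : dist y x ≠ d / 4 := by
    intro h
    have h3 := harnack_quarter hn hd hh h
    have h4 : gau x β y - Real.exp (-25) ≤ 1 := by
      have : gau x β y ≤ 1 := by
        rw [gau]
        refine Real.exp_le_one_iff.2 ?_
        nlinarith [sq_nonneg ‖y - x‖]
      linarith [Real.exp_pos (-25)]
    have h5 : A * (gau x β y - Real.exp (-25)) ≤ A * 1 := mul_le_mul_of_nonneg_left h4 hA0.le
    simp only [W] at hneg
    linarith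
  have hy1' : dist y x < d := lt_of_le_of_ne hy1 hyd
  have hy2' : d / 4 < dist y x := lt_of_le_of_ne hy2 (Ne.symm hyq)
  have hloc : IsLocalMin W y := by
    have hcd : Continuous fun v : E3 => dist v x := by fun_prop
    have ho : IsOpen {v : E3 | dist v x < d ∧ d / 4 < dist v x} :=
      (isOpen_lt hcd continuous_const).and (isOpen_lt continuous_const hcd)
    filter_upwards [ho.mem_nhds (show y ∈ {v : E3 | dist v x < d ∧ d / 4 < dist v x} from ⟨hy1', hy2'⟩)]
      with v hv
    exact hymin ⟨mem_closedBall.2 hv.1.le, hv.2.le⟩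
  have hharm : HarmonicAt u y := hh y (mem_ball.2 hy1')
  have hb0 : ContDiffAt ℝ 2 (gau x β - fun _ => Real.exp (-25)) y :=
    ((gau_contDiff x β).sub contDiff_const).contDiffAt
  have hb : ContDiffAt ℝ 2 (A • (gau x β - fun _ => Real.exp (-25))) y := hb0.const_smul A
  have hWeq : W = u - A • (gau x β - fun _ => Real.exp (-25)) := by
    funext v; simp [W]
  have hlapW : Δ W y = - (A * ((4 * β ^ 2 * ‖y - x‖ ^ 2 - 6 * β) * gau x β y)) := by
    rw [hWeq, hharm.1.laplacian_sub hb, hharm.2.self_of_nhds,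
      laplacian_smul A hb0,
      (gau_contDiff x β).contDiffAt.laplacian_sub contDiffAt_const, gau_laplacian]
    simp
  have hWcd : ContDiffAt ℝ 2 W y := by rw [hWeq]; exact hharm.1.sub hb
  have hnn := laplacian_nonneg_of_isLocalMin hWcd hloc
  rw [hlapW] at hnn
  have hpos : 0 < 4 * β ^ 2 * ‖y - x‖ ^ 2 - 6 * β := by
    have h6 : (d / 4) ^ 2 < ‖y - x‖ ^ 2 := by
      rw [← dist_eq_norm]
      exact pow_lt_pow_left₀ hy2' (by positivity) (by norm_num)
    have h7 : β * d ^ 2 = 25 := by rw [hβ]; field_simp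
    have h8 : 0 < 4 * β * (d / 4) ^ 2 - 6 := by nlinarith
    have h9 : 4 * β * (d / 4) ^ 2 < 4 * β * ‖y - x‖ ^ 2 := by
      exact mul_lt_mul_of_pos_left h6 (by positivity)
    nlinarith
  have hg : 0 < gau x β y := Real.exp_pos _
  have : 0 < A * ((4 * β ^ 2 * ‖y - x‖ ^ 2 - 6 * β) * gau x β y) := by positivity
  linarith

/-- Linear growth from a boundary point of a ball. -/
theorem hopf_growth {u : E3 → ℝ} (hu : Continuous u) (hn : ∀ v, 0 ≤ u v) {x y : E3} {d s : ℝ}
    (hd : 0 < d) (hh : HarmonicOnNhd u (ball x d)) (hy : dist y x = d) (hs : 0 < s)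
    (hsd : s ≤ 3 * d / 4) :
    256 / 78125 * (25 * Real.exp (-25)) * (s / d) * u x ≤ u (y + (s / d) • (x - y)) := by
  set z : E3 := y + (s / d) • (x - y) with hz
  have hzx : dist z x = d - s := by
    have : z - x = (1 - s / d) • (y - x) := by
      rw [hz]; module
    rw [dist_eq_norm, this, norm_smul, ← dist_eq_norm y x, hy, Real.norm_of_nonneg]
    · field_simp
    · have : s / d ≤ 3 / 4 := by rw [div_le_iff₀ hd]; linarith
      linarith
  have h := hopf_barrier hu hn hd hh (z := z) (by rw [hzx]; linarith) (by rw [hzx]; linarith)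
  rw [hzx] at h
  refine le_trans ?_ h
  have h1 : Real.exp (-25) * (25 * (s / d)) ≤ Real.exp (-25 * ((d - s) / d) ^ 2) - Real.exp (-25) := by
    have e1 : -25 * ((d - s) / d) ^ 2 = -25 + (50 * (s / d) - 25 * (s / d) ^ 2) := by
      field_simp; ring
    rw [e1, Real.exp_add]
    have e2 := Real.add_one_le_exp (50 * (s / d) - 25 * (s / d) ^ 2)
    have e3 : 25 * (s / d) ≤ 50 * (s / d) - 25 * (s / d) ^ 2 := by
      have h4 : s / d ≤ 1 := by rw [div_le_iff₀ hd]; linarith
      have h5 : 0 < s / d := by positivity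
      nlinarith
    have e4 := Real.exp_pos (-25)
    nlinarith
  have h2 : 0 ≤ 256 / 78125 * u x := mul_nonneg (by norm_num) (hn x)
  calc 256 / 78125 * (25 * Real.exp (-25)) * (s / d) * u x
      = 256 / 78125 * u x * (Real.exp (-25) * (25 * (s / d))) := by ring
    _ ≤ _ := mul_le_mul_of_nonneg_left h1 h2

end FB75
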