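import Pool.Agent.FB75.Lip

/-!
# The positive phase of a nontrivial solution contains arbitrarily large balls
-/

open MeasureTheory Metric Set Filter Topology InnerProductSpace Laplacian
open scoped ContDiff

namespace FB75

theorem trivial_of_dense {u : E3 → ℝ} (hu : IsEntireSolution u) {L : ℝ}
    (hL : ∀ x, ∃ y, u y = 0 ∧ dist x y ≤ L) : ∀ x, u x = 0 := by
  by_contra hcon
  push Not at hcon
  obtain ⟨x₀, hx₀⟩ := hcon
  have hx₀ := pos_of_ne hu hx₀
  have hL0 : 0 < L := by
    obtain ⟨y, hy, hd⟩ := hL x₀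
    refine lt_of_lt_of_le ?_ hd
    rw [dist_pos]
    rintro rfl
    linarith
  have hC := C0_pos
  have hub : ∀ x, u x ≤ C0 * L := by
    intro x
    obtain ⟨y, hy, hd⟩ := hL x
    exact (lip hu x hy).trans (mul_le_mul_of_nonneg_left hd hC.le)
  have hbdd : BddAbove (range u) := ⟨C0 * L, by rintro _ ⟨x, rfl⟩; exact hub x⟩
  set m : ℝ := sSup (range u) with hm
  have hle : ∀ x, u x ≤ m := fun x => le_csSup hbdd (mem_range_self x)
  have hm0 : 0 < m := hx₀.trans_le (hle x₀)
  set η : ℝ := m / (2 * C0) with hη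
  have hη0 : 0 < η := by positivity
  set c : ℝ := ((η / 4) / L) ^ 3 * ((η / 8) / L) ^ 2 * (3 / 4) with hc
  have hc0 : 0 < c := by positivity
  have hkey : ∀ x, u x ≤ m / 2 ∨ u x ≤ m - c * m := by
    intro x
    by_cases hx : u x ≤ m / 2
    · exact Or.inl hx
    right
    push Not at hx
    obtain ⟨y, hy, hyL⟩ := hL x
    obtain ⟨y₀, d, hy₀, hd, hyx, hdy, hpos, hharm⟩ := exists_nearest hu
      (lt_trans (by positivity) hx) hy
    have hdL : d ≤ L := hdy.trans hyL
    have hdη : η < d := by
      have h1 := lip hu x hy₀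
      rw [dist_comm, hyx] at h1
      rw [hη, div_lt_iff₀ (by positivity)]
      nlinarith
    set w : E3 := y₀ + (η / (2 * d)) • (x - y₀) with hw
    have hwy : dist w y₀ = η / 2 := by
      rw [hw, dist_eq_norm, add_sub_cancel_left, norm_smul, ← dist_eq_norm, dist_comm x y₀, hyx,
        Real.norm_of_nonneg (by positivity)]
      field_simp
    have hwx : dist w x = d - η / 2 := by
      have : w - x = (1 - η / (2 * d)) • (y₀ - x) := by rw [hw]; module
      rw [dist_eq_norm, this, norm_smul, ← dist_eq_norm y₀ x, hyx, Real.norm_of_nonneg]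
      · field_simp
      · have : η / (2 * d) < 1 := by rw [div_lt_iff₀ (by positivity)]; linarith
        linarith
    have huw : u w ≤ m / 4 := by
      have h1 := lip hu w hy₀
      rw [hwy] at h1
      have : C0 * (η / 2) = m / 4 := by rw [hη]; field_simp; norm_num
      linarith
    have hh : HarmonicOnNhd ((fun _ => m) - u) (ball x d) :=
      (harmonicOnNhd_const m).sub hharm
    have hk := harnack (h := (fun _ => m) - u) (z := x) (x := w) (R := d) (t := d - η / 8)
      (s := η / 4) hh (fun v _ => by simp [hle v]) (by linarith) (by linarith) (by linarith)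
      (by rw [hwx]; linarith)
    rw [hwx] at hk
    simp only [Pi.sub_apply] at hk
    set t : ℝ := d - η / 8 with ht
    have ht0 : 0 < t := by rw [ht]; linarith
    have htL : t ≤ L := by rw [ht]; linarith
    set δ : ℝ := (η / 8) / t with hδ
    have hδ0 : 0 < δ := by positivity
    have hδ1 : δ ≤ 1 := by rw [hδ, div_le_one ht0, ht]; linarith
    have he : (d - η / 2 + η / 4) / t = 1 - δ := by
      rw [hδ]
      field_simp
      rw [ht]; ring
    rw [he] at hk
    have h1 : (η / 4 / L) ^ 3 ≤ (η / 4 / t) ^ 3 := by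
      refine pow_le_pow_left₀ (by positivity) ?_ 3
      exact div_le_div_of_nonneg_left (by positivity) ht0 htL
    have h2 : (η / 8 / L) ^ 2 ≤ (1 - (1 - δ) ^ 2) ^ 2 := by
      refine pow_le_pow_left₀ (by positivity) ?_ 2
      have : η / 8 / L ≤ δ := div_le_div_of_nonneg_left (by positivity) ht0 htL
      nlinarith
    have h3 : 3 / 4 * m ≤ m - u w := by linarith
    have h4 : (η / 4 / L) ^ 3 * (η / 8 / L) ^ 2 * (3 / 4 * m) ≤
        (η / 4 / t) ^ 3 * (1 - (1 - δ) ^ 2) ^ 2 * (m - u w) := by
      refine mul_le_mul (mul_le_mul h1 h2 (by positivity) (by positivity)) h3 (by positivity)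
        (by positivity)
    have h5 : c * m = (η / 4 / L) ^ 3 * (η / 8 / L) ^ 2 * (3 / 4 * m) := by rw [hc]; ring
    linarith
  have hsup : m ≤ max (m / 2) (m - c * m) := by
    refine csSup_le (range_nonempty u) ?_
    rintro _ ⟨x, rfl⟩
    rcases hkey x with h | h
    · exact h.trans (le_max_left _ _)
    · exact h.trans (le_max_right _ _)
  have : max (m / 2) (m - c * m) < m := max_lt (by linarith) (by nlinarith)
  linarith

end FB75
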