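import Pool.Agent.FB75.Def
import Pool.Agent.FB75.Hopf

/-!
# The linear upper bound by the distance to the zero phase
-/

open MeasureTheory Metric Set Filter Topology InnerProductSpace Laplacian
open scoped ContDiff

namespace FB75

/-- The universal constant of the linear bound. -/
noncomputable def C0 : ℝ := (256 / 78125 * (25 * Real.exp (-25)))⁻¹

theorem C0_pos : 0 < C0 := by
  unfold C0
  have := Real.exp_pos (-25)
  positivity

theorem isClosed_zero {u : E3 → ℝ} (hu : IsEntireSolution u) : IsClosed {x | u x = 0} :=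
  isClosed_eq hu.continuous continuous_const

theorem isOpen_pos {u : E3 → ℝ} (hu : IsEntireSolution u) : IsOpen {x | 0 < u x} :=
  isOpen_lt continuous_const hu.continuous

theorem pos_of_ne {u : E3 → ℝ} (hu : IsEntireSolution u) {x : E3} (h : u x ≠ 0) : 0 < u x :=
  lt_of_le_of_ne (hu.nonneg x) (Ne.symm h)

/-- A nearest zero point. -/
theorem exists_nearest {u : E3 → ℝ} (hu : IsEntireSolution u) {x y : E3} (hx : 0 < u x)
    (hy : u y = 0) : ∃ y₀ d, u y₀ = 0 ∧ 0 < d ∧ dist y₀ x = d ∧ d ≤ dist x y ∧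
      (∀ v ∈ ball x d, 0 < u v) ∧ HarmonicOnNhd u (ball x d) := by
  have hK := isClosed_zero hu
  have hne : {x | u x = 0}.Nonempty := ⟨y, hy⟩
  obtain ⟨y₀, hy₀, hd⟩ := hK.exists_infDist_eq_dist hne x
  have hpos : ∀ v ∈ ball x (dist y₀ x), 0 < u v := by
    intro v hv
    refine pos_of_ne hu fun h => ?_
    have h1 : infDist x {x | u x = 0} ≤ dist x v := infDist_le_dist_of_mem h
    rw [hd] at h1
    rw [mem_ball, dist_comm v x, dist_comm y₀ x] at hv
    linarith
  refine ⟨y₀, dist y₀ x, hy₀, ?_, rfl, ?_, hpos, hu.harmonic.mono hpos⟩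
  · rw [dist_pos]
    rintro rfl
    have : u y₀ = 0 := hy₀
    linarith
  · rw [dist_comm y₀ x, ← hd]
    exact infDist_le_dist_of_mem hy

theorem lip {u : E3 → ℝ} (hu : IsEntireSolution u) (x : E3) {y : E3} (hy : u y = 0) :
    u x ≤ C0 * dist x y := by
  rcases (hu.nonneg x).eq_or_lt with hx | hx
  · rw [← hx]
    exact mul_nonneg C0_pos.le dist_nonneg
  obtain ⟨y₀, d, hy₀, hd, hyx, hdy, hpos, hharm⟩ := exists_nearest hu hx hy
  -- `y₀` is a free boundary point
  have hfr : y₀ ∈ frontier {x | 0 < u x} := by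
    rw [(isOpen_pos hu).frontier_eq]
    refine ⟨?_, fun h => ?_⟩
    · have h1 : ball x d ⊆ {x | 0 < u x} := hpos
      refine closure_mono h1 ?_
      rw [closure_ball x hd.ne', mem_closedBall, hyx]
    · have : 0 < u y₀ := h
      linarith
  obtain ⟨V, hV, hyV, φ, hφ, -, hFV, hside⟩ := hu.boundary y₀ hfr
  have hφ0 : φ y₀ = 0 := by
    have : y₀ ∈ {x | φ x = 0} ∩ V := by rw [← hFV]; exact ⟨hfr, hyV⟩
    exact this.1
  set zs : ℝ → E3 := fun s => y₀ + (s / d) • (x - y₀) with hzs
  have hzc : Continuous zs := by fun_prop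
  have hz0 : zs 0 = y₀ := by simp [hzs]
  have htend : Tendsto zs (𝓝 0) (𝓝 y₀) := by
    have := hzc.tendsto 0
    rwa [hz0] at this
  have hnorm : ∀ s, 0 ≤ s → ‖zs s - y₀‖ = s := by
    intro s hs
    rw [hzs]
    simp only
    rw [add_sub_cancel_left, norm_smul, ← dist_eq_norm, dist_comm x y₀, hyx,
      Real.norm_of_nonneg (by positivity)]
    field_simp
  have hball : ∀ s, 0 < s → s < d → zs s ∈ ball x d := by
    intro s hs hsd
    have : zs s - x = (1 - s / d) • (y₀ - x) := by rw [hzs]; module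
    rw [mem_ball, dist_eq_norm, this, norm_smul, ← dist_eq_norm y₀ x, hyx, Real.norm_of_nonneg]
    · have : (1 - s / d) * d = d - s := by field_simp
      rw [this]; linarith
    · have : s / d < 1 := by rw [div_lt_iff₀ hd]; linarith
      linarith
  -- the key upper bound
  have hupper : ∀ ε : ℝ, 0 < ε → ∀ σ : ℝ, (σ = 1 ∨ σ = -1) → ∀ᶠ s in 𝓝 (0 : ℝ),
      0 < s → 0 < σ * φ (zs s) → u (zs s) ≤ (1 + ε) * s := by
    intro ε hε σ hσ
    rcases hside σ hσ with hzero | ⟨g, hg, -, hgu, hgn⟩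
    · filter_upwards [htend.eventually (hV.mem_nhds hyV)] with s hs hs0 hsφ
      rw [hzero _ hs hsφ]
      positivity
    · have hgd : DifferentiableAt ℝ g y₀ :=
        (hg.contDiffAt (hV.mem_nhds hyV)).differentiableAt (by simp)
      have hg0 : g y₀ = 0 := by
        rw [← hgu y₀ hyV (by rw [hφ0, mul_zero]), hy₀]
      have ho := hgd.hasFDerivAt.isLittleO.bound hε
      filter_upwards [htend.eventually (hV.mem_nhds hyV), htend.eventually ho] with s hs hs2 hs0 hsφ
      rw [hgu _ hs hsφ.le]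
      rw [hg0, sub_zero, hnorm s hs0.le] at hs2
      have h1 : ‖fderiv ℝ g y₀ (zs s - y₀)‖ ≤ 1 * s := by
        calc ‖fderiv ℝ g y₀ (zs s - y₀)‖ ≤ ‖fderiv ℝ g y₀‖ * ‖zs s - y₀‖ :=
              ContinuousLinearMap.le_opNorm _ _
          _ = 1 * s := by rw [hgn y₀ hyV hφ0, hnorm s hs0.le]
      rw [Real.norm_eq_abs] at h1 hs2
      have h2 := abs_le.1 h1
      have h3 := abs_le.1 hs2
      linarith
  -- combine
  have hmain : ∀ ε : ℝ, 0 < ε → 256 / 78125 * (25 * Real.exp (-25)) * u x ≤ (1 + ε) * d := by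
    intro ε hε
    have h1 := hupper ε hε 1 (Or.inl rfl)
    have h2 := hupper ε hε (-1) (Or.inr rfl)
    have h3 : ∀ᶠ s in 𝓝[>] (0 : ℝ), 0 < s ∧ s < 3 * d / 4 := by
      have : Ioo (0 : ℝ) (3 * d / 4) ∈ 𝓝[>] (0 : ℝ) := Ioo_mem_nhdsGT (by positivity)
      filter_upwards [this] with s hs using hs
    have h4 := ((h1.and h2).and (htend.eventually (hV.mem_nhds hyV))).filter_mono
      (nhdsWithin_le_nhds (s := Ioi (0 : ℝ)))
    obtain ⟨s, ⟨⟨hs1, hs2⟩, hsV⟩, hs0, hsd⟩ := (h4.and h3).exists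
    have hzb : zs s ∈ ball x d := hball s hs0 (by linarith)
    have hup : 0 < u (zs s) := hpos _ hzb
    have hne : φ (zs s) ≠ 0 := by
      intro h
      have : zs s ∈ frontier {x | 0 < u x} ∩ V := by rw [hFV]; exact ⟨h, hsV⟩
      rw [(isOpen_pos hu).frontier_eq] at this
      exact this.1.2 hup
    have hule : u (zs s) ≤ (1 + ε) * s := by
      rcases lt_or_gt_of_ne hne with h | h
      · exact hs2 hs0 (by linarith)
      · exact hs1 hs0 (by linarith)
    have hgr := hopf_growth hu.continuous hu.nonneg hd hharm hyx hs0 hsd.le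
    have h5 : 256 / 78125 * (25 * Real.exp (-25)) * (s / d) * u x ≤ (1 + ε) * s := hgr.trans hule
    have h6 : 256 / 78125 * (25 * Real.exp (-25)) * (s / d) * u x =
        (256 / 78125 * (25 * Real.exp (-25)) * u x) / d * s := by field_simp
    rw [h6] at h5
    have h7 := le_of_mul_le_mul_right h5 hs0
    rwa [div_le_iff₀ hd] at h7
  have hfin : 256 / 78125 * (25 * Real.exp (-25)) * u x ≤ d := by
    refine le_of_forall_pos_le_add fun ε hε => ?_
    have := hmain (ε / d) (by positivity)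
    have e : (1 + ε / d) * d = d + ε := by field_simp
    linarith
  have hc : 0 < 256 / 78125 * (25 * Real.exp (-25)) := by
    have := Real.exp_pos (-25); positivity
  calc u x ≤ C0 * d := by
        rw [C0, inv_mul_eq_div, le_div_iff₀ hc]
        linarith
    _ ≤ C0 * dist x y := mul_le_mul_of_nonneg_left hdy C0_pos.le

end FB75
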