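import Pool.Agent.FB75.Weight

/-!
# The weighted mean value formula
-/

open MeasureTheory Metric Set Filter Topology InnerProductSpace Laplacian
open scoped ContDiff

namespace FB75

/-- The Laplacian as a sum of second directional derivatives. -/
theorem laplacian_eq_sum {f : E3 → ℝ} {x : E3} (hf : ContDiffAt ℝ 2 f x) :
    Δ f x = ∑ i, fderiv ℝ (fun y => fderiv ℝ f y (ei i)) x (ei i) := by
  have h1 := laplacian_eq_iteratedFDeriv_orthonormalBasis f (EuclideanSpace.basisFun (Fin 3) ℝ)
  rw [h1]
  refine Finset.sum_congr rfl fun i _ => ?_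
  rw [iteratedFDeriv_two_apply]
  have hd : DifferentiableAt ℝ (fderiv ℝ f) x :=
    (hf.fderiv_right (m := 1) (by norm_num)).differentiableAt (by norm_num)
  have h2 : HasFDerivAt (fun y => fderiv ℝ f y (ei i)) ((fderiv ℝ (fderiv ℝ f) x).flip (ei i)) x :=
    hd.hasFDerivAt.clm_apply (hasFDerivAt_const (ei i) x) |>.congr_fderiv (by ext v; simp)
  rw [h2.fderiv]
  simp [ei]

/-- The weighted mean value functional. -/
noncomputable def Phi (f : E3 → ℝ) (x : E3) (t : ℝ) : ℝ := ∫ w, psi w * f (x + t • w)

theorem integrable_psi_mul {g : E3 → ℝ} (hg : Continuous g) :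
    Integrable (fun w => psi w * g w) :=
  (continuous_psi.mul hg).integrable_of_hasCompactSupport hasCompactSupport_psi.mul_right

theorem integrable_Psi_mul {g : E3 → ℝ} (hg : Continuous g) :
    Integrable (fun w => Psi w * g w) :=
  (continuous_Psi.mul hg).integrable_of_hasCompactSupport hasCompactSupport_Psi.mul_right

theorem sum_coord (w : E3) : ∑ i, w i • ei i = w := by
  have := (EuclideanSpace.basisFun (Fin 3) ℝ).sum_repr w
  simpa [ei] using this

theorem hasDerivAt_Phi {f : E3 → ℝ} (hf : ContDiff ℝ 2 f) (x : E3) (t : ℝ) :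
    HasDerivAt (Phi f x) (t * ∫ w, Psi w * Δ f (x + t • w)) t := by
  have hfd : Continuous (fderiv ℝ f) := hf.continuous_fderiv (by norm_num)
  have hdiff : Differentiable ℝ f := hf.differentiable (by norm_num)
  -- the bound
  obtain ⟨M, hM⟩ := (isCompact_closedBall (0 : E3) (‖x‖ + |t| + 1)).exists_bound_of_continuousOn
    hfd.continuousOn
  have key := hasDerivAt_integral_of_dominated_loc_of_deriv_le (μ := (volume : Measure E3))
    (F := fun t w => psi w * f (x + t • w)) (F' := fun t w => psi w * fderiv ℝ f (x + t • w) w)
    (x₀ := t) (s := ball t 1) (bound := fun w => psi w * M) (ball_mem_nhds t one_pos) ?_ ?_ ?_ ?_ ?_ ?_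
  · have h2 := key.2
    refine h2.congr_deriv ?_
    have hfdi : ∀ i, ContDiff ℝ 1 (fun y => fderiv ℝ f y (ei i)) := fun i =>
      (hf.fderiv_right (m := 1) (by norm_num)).clm_apply contDiff_const
    have hin : ∀ i, ∫ w, psi w * (w i * fderiv ℝ f (x + t • w) (ei i)) =
        ∫ w, Psi w * (t * fderiv ℝ (fun y => fderiv ℝ f y (ei i)) (x + t • w) (ei i)) := by
      intro i
      have hg : ∀ w, HasFDerivAt (fun w : E3 => fderiv ℝ f (x + t • w) (ei i))
          (t • fderiv ℝ (fun y => fderiv ℝ f y (ei i)) (x + t • w)) w := by
        intro w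
        have ha : HasFDerivAt (fun w : E3 => x + t • w) (t • ContinuousLinearMap.id ℝ E3) w :=
          ((hasFDerivAt_id w).const_smul t).const_add x
        have hb := (((hfdi i).differentiable (by norm_num)) (x + t • w)).hasFDerivAt.comp w ha
        refine hb.congr_fderiv ?_
        ext v; simp
      have hgc : Continuous (fun w : E3 => fderiv ℝ f (x + t • w) (ei i)) :=
        continuous_iff_continuousAt.2 fun w => (hg w).continuousAt
      have hgc' : Continuous (fun w : E3 =>
          fderiv ℝ (fun w : E3 => fderiv ℝ f (x + t • w) (ei i)) w (ei i)) := by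
        have : (fun w : E3 => fderiv ℝ (fun w : E3 => fderiv ℝ f (x + t • w) (ei i)) w (ei i)) =
            fun w => t * fderiv ℝ (fun y => fderiv ℝ f y (ei i)) (x + t • w) (ei i) := by
          funext w; rw [(hg w).fderiv]; simp
        rw [this]
        have h5 : Continuous (fderiv ℝ (fun y => fderiv ℝ f y (ei i))) :=
          (hfdi i).continuous_fderiv (by norm_num)
        fun_prop
      have hP : ∀ w, fderiv ℝ Psi w (ei i) = - (psi w * w i) := by
        intro w
        rw [(hasFDerivAt_Psi w).fderiv]
        have : inner ℝ w (ei i) = w i := by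
          rw [ei, real_inner_comm]
          simp [EuclideanSpace.inner_single_left]
        simp [this]
      have hibp := integral_mul_fderiv_eq_neg_fderiv_mul_of_integrable
        (μ := (volume : Measure E3)) (f := Psi)
        (g := fun w : E3 => fderiv ℝ f (x + t • w) (ei i)) (v := ei i) ?_ ?_ ?_ ?_ ?_
      · have e1 : ∀ w, fderiv ℝ (fun w : E3 => fderiv ℝ f (x + t • w) (ei i)) w (ei i) =
            t * fderiv ℝ (fun y => fderiv ℝ f y (ei i)) (x + t • w) (ei i) := by
          intro w; rw [(hg w).fderiv]; simp
        simp only [e1, hP] at hibp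
        rw [hibp, ← integral_neg]
        refine integral_congr_ae (Eventually.of_forall fun w => ?_)
        simp only
        ring
      · simp only [hP]
        have : (fun w : E3 => -(psi w * w i) * fderiv ℝ f (x + t • w) (ei i)) =
            fun w => psi w * (-(w i) * fderiv ℝ f (x + t • w) (ei i)) := by
          funext w; ring
        rw [this]
        exact integrable_psi_mul (by fun_prop)
      · exact integrable_Psi_mul hgc'
      · exact integrable_Psi_mul hgc
      · exact fun w _ => (hasFDerivAt_Psi w).differentiableAt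
      · exact fun w _ => (hg w).differentiableAt
    calc ∫ w, psi w * fderiv ℝ f (x + t • w) w
        = ∫ w, ∑ i, psi w * (w i * fderiv ℝ f (x + t • w) (ei i)) := by
          refine integral_congr_ae (Eventually.of_forall fun w => ?_)
          simp only
          rw [← Finset.mul_sum]
          congr 1
          conv_lhs => rw [← sum_coord w]
          rw [map_sum]
          refine Finset.sum_congr rfl fun i _ => ?_
          rw [map_smul, smul_eq_mul, sum_coord w]
      _ = ∑ i, ∫ w, psi w * (w i * fderiv ℝ f (x + t • w) (ei i)) := by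
          refine integral_finsetSum _ fun i _ => integrable_psi_mul ?_
          fun_prop
      _ = ∑ i, ∫ w, Psi w * (t * fderiv ℝ (fun y => fderiv ℝ f y (ei i)) (x + t • w) (ei i)) :=
          Finset.sum_congr rfl fun i _ => hin i
      _ = ∫ w, ∑ i, Psi w * (t * fderiv ℝ (fun y => fderiv ℝ f y (ei i)) (x + t • w) (ei i)) := by
          rw [integral_finsetSum _ fun i _ => integrable_Psi_mul ?_]
          have h5 : Continuous (fderiv ℝ (fun y => fderiv ℝ f y (ei i))) :=
            (hfdi i).continuous_fderiv (by norm_num)
          fun_prop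
      _ = t * ∫ w, Psi w * Δ f (x + t • w) := by
          rw [← integral_const_mul]
          refine integral_congr_ae (Eventually.of_forall fun w => ?_)
          simp only
          rw [laplacian_eq_sum hf.contDiffAt, Finset.mul_sum, Finset.mul_sum]
          refine Finset.sum_congr rfl fun i _ => ?_
          ring
  · refine Eventually.of_forall fun s => ?_
    exact (integrable_psi_mul (hf.continuous.comp (by fun_prop))).aestronglyMeasurable
  · exact integrable_psi_mul (hf.continuous.comp (by fun_prop))
  · exact (integrable_psi_mul (by fun_prop)).aestronglyMeasurable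
  · refine Eventually.of_forall fun w s hs => ?_
    by_cases hw : 1 ≤ ‖w‖
    · simp [psi_eq_zero hw]
    · push Not at hw
      rw [norm_mul, Real.norm_of_nonneg (psi_nonneg w)]
      refine mul_le_mul_of_nonneg_left ?_ (psi_nonneg w)
      have hx : x + s • w ∈ closedBall (0 : E3) (‖x‖ + |t| + 1) := by
        rw [mem_closedBall_zero_iff]
        have h1 : ‖x + s • w‖ ≤ ‖x‖ + ‖s • w‖ := norm_add_le _ _
        rw [norm_smul, Real.norm_eq_abs] at h1
        have h2 : |s| ≤ |t| + 1 := by
          have := mem_ball.1 hs
          rw [Real.dist_eq] at this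
          have h3 := abs_sub_abs_le_abs_sub s t
          linarith
        nlinarith [abs_nonneg s, norm_nonneg w]
      have hM' := hM _ hx
      calc ‖fderiv ℝ f (x + s • w) w‖ ≤ ‖fderiv ℝ f (x + s • w)‖ * ‖w‖ :=
            ContinuousLinearMap.le_opNorm _ _
        _ ≤ M * 1 := by
            refine mul_le_mul hM' hw.le (norm_nonneg _) ((norm_nonneg _).trans hM')
        _ = M := mul_one M
  · exact (integrable_psi_mul continuous_const)
  · refine Eventually.of_forall fun w s hs => ?_
    have ha : HasDerivAt (fun s : ℝ => x + s • w) w s := by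
      simpa using ((hasDerivAt_id s).smul_const w).const_add x
    have hb := (hdiff (x + s • w)).hasFDerivAt.comp_hasDerivAt s ha
    exact hb.const_mul (psi w)

/-- The mass of the weight. -/
noncomputable def cpsi : ℝ := ∫ w : E3, psi w

theorem integrable_psi : Integrable psi := continuous_psi.integrable_of_hasCompactSupport
  hasCompactSupport_psi

theorem cpsi_pos : 0 < cpsi := by
  unfold cpsi
  refine continuous_psi.integral_pos_of_hasCompactSupport_nonneg_nonzero hasCompactSupport_psi
    psi_nonneg (x := 0) ?_
  simp [psi]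

theorem Phi_zero (f : E3 → ℝ) (x : E3) : Phi f x 0 = f x * cpsi := by
  unfold Phi cpsi
  rw [← integral_const_mul]
  refine integral_congr_ae (Eventually.of_forall fun w => ?_)
  simp [mul_comm]

theorem Phi_congr {f g : E3 → ℝ} {x : E3} {t : ℝ} (ht : 0 ≤ t)
    (h : ∀ v, dist v x ≤ t → f v = g v) : Phi f x t = Phi g x t := by
  unfold Phi
  refine integral_congr_ae (Eventually.of_forall fun w => ?_)
  simp only
  by_cases hw : 1 ≤ ‖w‖
  · simp [psi_eq_zero hw]
  · push Not at hw
    rw [h (x + t • w)]
    rw [dist_eq_norm, add_sub_cancel_left, norm_smul, Real.norm_of_nonneg ht]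
    nlinarith

/-- The weighted mean value property. -/
theorem Phi_harmonic {f : E3 → ℝ} {x : E3} {R t : ℝ} (hf : HarmonicOnNhd f (ball x R))
    (ht : 0 ≤ t) (htR : t < R) : Phi f x t = f x * cpsi := by
  have hR : 0 < R := ht.trans_lt htR
  let b : ContDiffBump x := ⟨(2 * t + R) / 3, (t + 2 * R) / 3, by linarith, by linarith⟩
  have hbin : b.rIn = (2 * t + R) / 3 := rfl
  have hbout : b.rOut = (t + 2 * R) / 3 := rfl
  let g : E3 → ℝ := fun v => b v * f v
  have hg2 : ContDiff ℝ 2 g := by
    rw [contDiff_iff_contDiffAt]
    intro v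
    by_cases hv : v ∈ ball x R
    · exact b.contDiff.contDiffAt.mul (hf v hv).1
    · have : g =ᶠ[𝓝 v] fun _ => 0 := by
        have h1 : v ∉ tsupport b := by
          rw [b.tsupport_eq, hbout]
          intro h
          apply hv
          rw [mem_closedBall] at h
          rw [mem_ball]
          linarith
        have h2 : (tsupport b)ᶜ ∈ 𝓝 v := (isClosed_tsupport b).isOpen_compl.mem_nhds h1
        filter_upwards [h2] with z hz
        simp only [g, image_eq_zero_of_notMem_tsupport hz, zero_mul]
      exact (contDiffAt_const (c := (0 : ℝ))).congr_of_eventuallyEq this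
  have hgf : ∀ v, dist v x ≤ t → g =ᶠ[𝓝 v] f := by
    intro v hv
    have h1 : v ∈ ball x b.rIn := by rw [mem_ball, hbin]; linarith
    filter_upwards [isOpen_ball.mem_nhds h1] with z hz
    simp only [g, b.one_of_mem_closedBall (ball_subset_closedBall hz), one_mul]
  have hlap : ∀ v, dist v x ≤ t → Δ g v = 0 := by
    intro v hv
    have h1 : v ∈ ball x R := by rw [mem_ball]; linarith
    rw [(laplacian_congr_nhds (hgf v hv)).self_of_nhds]
    exact (hf v h1).2.self_of_nhds
  have hder : ∀ s ∈ Icc 0 t, HasDerivAt (Phi g x) 0 s := by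
    intro s hs
    have h1 := hasDerivAt_Phi hg2 x s
    have h2 : ∫ w, Psi w * Δ g (x + s • w) = 0 := by
      rw [← integral_zero E3 ℝ (μ := (volume : Measure E3))]
      refine integral_congr_ae (Eventually.of_forall fun w => ?_)
      simp only
      by_cases hw : 1 ≤ ‖w‖
      · simp [Psi_eq_zero hw]
      · push Not at hw
        rw [hlap, mul_zero]
        rw [dist_eq_norm, add_sub_cancel_left, norm_smul, Real.norm_of_nonneg hs.1]
        nlinarith [hs.1, hs.2, norm_nonneg w]
    rw [h2, mul_zero] at h1
    exact h1
  have hconst : Phi g x t = Phi g x 0 := by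
    rcases eq_or_lt_of_le ht with h | h
    · rw [← h]
    · obtain ⟨c, hc, hc'⟩ := exists_hasDerivAt_eq_slope (Phi g x) (fun _ => 0) h
        (fun s hs => (hder s hs).continuousAt.continuousWithinAt)
        (fun s hs => hder s (Ioo_subset_Icc_self hs))
      rw [eq_comm, div_eq_zero_iff] at hc'
      rcases hc' with h' | h' <;> linarith
  have h0 : g x = f x := (hgf x (by simpa using ht)).self_of_nhds
  calc Phi f x t = Phi g x t := Phi_congr ht fun v hv => (hgf v hv).self_of_nhds.symm
    _ = Phi g x 0 := hconst
    _ = g x * cpsi := Phi_zero g x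
    _ = f x * cpsi := by rw [h0]

end FB75
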