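import Pool.Agent.FB75.MovDef
import Pool.Agent.FB75.Spread

/-!
# Moving planes: the corner case (Serrin)
-/

open MeasureTheory Metric Set Filter Topology InnerProductSpace Laplacian
open scoped ContDiff

namespace FB75

private theorem movCorner_continuous_rf (e : E3) (T : ℝ) : Continuous fun x : E3 => rf e T x :=
  (continuous_rf e).comp (by fun_prop : Continuous fun x : E3 => (T, x))

/-- Linear growth from the plane on the half sphere of half the radius. -/
private theorem movCorner_linear {w : E3 → ℝ} (hwc : Continuous w) {e c : E3} (he : ‖e‖ = 1)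
    {T ρ : ℝ} (hρ : 0 < ρ) (hc : inner ℝ c e = T) (hh : HarmonicOnNhd w (ball c ρ))
    (h0 : ∀ x, T ≤ inner ℝ x e → 0 ≤ w x)
    (hp : ∀ x ∈ ball c ρ, T < inner ℝ x e → 0 < w x) :
    ∃ κ, 0 < κ ∧ ∀ x, dist x c ≤ ρ / 2 → T ≤ inner ℝ x e → κ * (inner ℝ x e - T) ≤ w x := by
  have hci : Continuous fun y : E3 => inner ℝ y e := by fun_prop
  have hee : inner ℝ e e = (1 : ℝ) := by
    rw [real_inner_self_eq_norm_sq, he]; norm_num
  set d : ℝ := ρ / 8 with hd
  have hd0 : 0 < d := by rw [hd]; positivity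
  have hK : IsCompact (closedBall c (3 * ρ / 4) ∩ {x | T + 3 * d / 4 ≤ inner ℝ x e}) :=
    (isCompact_closedBall c _).inter_right (isClosed_le continuous_const hci)
  obtain ⟨m, hm0, hm⟩ := hK.exists_forall_le' (f := w) hwc.continuousOn (a := 0) (by
    rintro x ⟨hx1, hx2⟩
    rw [mem_closedBall] at hx1
    have hx2 : T + 3 * d / 4 ≤ inner ℝ x e := hx2
    exact hp x (mem_ball.2 (by linarith)) (by linarith))
  set k : ℝ := 256 / 78125 * (25 * Real.exp (-25)) * m / d with hk
  have hk0 : 0 < k := by rw [hk]; positivity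
  refine ⟨min k (m / ρ), lt_min hk0 (by positivity), fun x hx1 hx2 => ?_⟩
  rcases eq_or_lt_of_le hx2 with h1 | h1
  · rw [← h1, sub_self, mul_zero]
    exact h0 x hx2
  set s : ℝ := inner ℝ x e - T with hs
  have hs0 : 0 < s := by rw [hs]; linarith
  have hsle : s ≤ dist x c := by
    have h2 : inner ℝ (x - c) e ≤ ‖x - c‖ * ‖e‖ := real_inner_le_norm _ _
    rw [he, mul_one, inner_sub_left, hc, ← dist_eq_norm] at h2
    exact h2
  by_cases hsd : s ≤ 3 * d / 4
  · -- near the plane
    set y0 : E3 := x - s • e with hy0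
    set c0 : E3 := y0 + d • e with hc0
    have hy0i : inner ℝ y0 e = T := by
      rw [hy0, inner_sub_left, inner_smul_left, hee]
      simp [hs]
    have hc0i : inner ℝ c0 e = T + d := by
      rw [hc0, inner_add_left, inner_smul_left, hee, hy0i]
      simp
    have hy0c : dist y0 c ≤ dist x c := by
      have h2 : ‖x - c‖ ^ 2 = ‖y0 - c‖ ^ 2 + s ^ 2 := by
        have h3 : x - c = (y0 - c) + s • e := by rw [hy0]; module
        have h4 : inner ℝ (y0 - c) (s • e) = (0 : ℝ) := by
          rw [inner_smul_right, inner_sub_left, hy0i, hc, sub_self, mul_zero]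
        rw [h3, norm_add_sq_real, h4, norm_smul, he]
        simp
      rw [dist_eq_norm, dist_eq_norm]
      refine le_of_sq_le_sq ?_ (norm_nonneg _)
      nlinarith [sq_nonneg s]
    have hdist : dist y0 c0 = d := by
      rw [dist_eq_norm, hc0, sub_add_cancel_left, norm_neg, norm_smul, he, mul_one,
        Real.norm_of_nonneg hd0.le]
    have hsub : closedBall c0 d ⊆ closedBall c (3 * ρ / 4) := by
      intro z hz
      rw [mem_closedBall] at hz ⊢
      have h2 := dist_triangle4 z c0 y0 c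
      rw [dist_comm c0 y0, hdist] at h2
      have h3 : d = ρ / 8 := hd
      linarith
    have hsub' : closedBall c0 d ⊆ ball c ρ := by
      intro z hz
      have h2 := hsub hz
      rw [mem_closedBall] at h2
      rw [mem_ball]
      linarith
    have hnn : ∀ v ∈ closedBall c0 d, 0 ≤ w v := by
      intro v hv
      refine h0 v ?_
      have h2 : |inner ℝ (v - c0) e| ≤ ‖v - c0‖ * ‖e‖ := abs_real_inner_le_norm _ _
      rw [mem_closedBall, dist_eq_norm] at hv
      rw [he, mul_one, inner_sub_left, hc0i] at h2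
      have h3 := (abs_le.1 (h2.trans hv)).1
      linarith
    have h2 := hopf_local hd0 (hh.mono (ball_subset_closedBall.trans hsub')) hwc.continuousOn
      hnn hdist hs0 hsd
    have h3 : y0 + (s / d) • (c0 - y0) = x := by
      rw [hc0, add_sub_cancel_left, smul_smul, div_mul_cancel₀ _ hd0.ne', hy0]
      module
    rw [h3] at h2
    have h4 : m ≤ w c0 := by
      refine hm c0 ⟨hsub (mem_closedBall_self hd0.le), ?_⟩
      show T + 3 * d / 4 ≤ inner ℝ c0 e
      rw [hc0i]
      linarith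
    have h5 : k * s ≤ 256 / 78125 * (25 * Real.exp (-25)) * (s / d) * w c0 := by
      have h6 : k * s = 256 / 78125 * (25 * Real.exp (-25)) * (s / d) * m := by
        rw [hk]; ring
      rw [h6]
      exact mul_le_mul_of_nonneg_left h4 (by positivity)
    have h6 : min k (m / ρ) * s ≤ k * s := mul_le_mul_of_nonneg_right (min_le_left _ _) hs0.le
    linarith
  · push Not at hsd
    have h2 : m ≤ w x := by
      refine hm x ⟨mem_closedBall.2 (by linarith), ?_⟩
      show T + 3 * d / 4 ≤ inner ℝ x e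
      linarith
    have h3 : min k (m / ρ) * s ≤ m / ρ * s := mul_le_mul_of_nonneg_right (min_le_right _ _) hs0.le
    have h4 : m / ρ * s ≤ m / ρ * ρ := mul_le_mul_of_nonneg_left (by linarith) (by positivity)
    rw [div_mul_cancel₀ _ hρ.ne'] at h4
    linarith

/-- The barrier on the outer half shell. -/
private theorem movCorner_barrier {w : E3 → ℝ} (hwc : Continuous w) {e c : E3}
    {T ρ κ : ℝ} (hρ : 0 < ρ) (hκ : 0 < κ) (hc : inner ℝ c e = T)
    (hh : HarmonicOnNhd w (ball c ρ)) (h0 : ∀ x, T ≤ inner ℝ x e → 0 ≤ w x)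
    (h1 : ∀ x, dist x c ≤ ρ / 2 → T ≤ inner ℝ x e → κ * (inner ℝ x e - T) ≤ w x) :
    ∀ x, T ≤ inner ℝ x e → ρ / 2 ≤ dist x c → dist x c ≤ ρ →
      κ * (inner ℝ x e - T) * (Real.exp (-10 * (dist x c / ρ) ^ 2) - Real.exp (-10)) ≤ w x := by
  set α : ℝ := 10 / ρ ^ 2 with hα
  have hα0 : 0 < α := by rw [hα]; positivity
  have hgau : ∀ x, gau c α x = Real.exp (-10 * (dist x c / ρ) ^ 2) := by
    intro x
    rw [gau, dist_eq_norm]
    congr 1
    rw [hα]
    field_simp
  set b : E3 → ℝ := fun y => κ * ((inner ℝ y e - T) * gau c α y -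
    Real.exp (-10) * (inner ℝ y e - T)) with hb
  have hbeq : ∀ y, b y = κ * (inner ℝ y e - T) * (gau c α y - Real.exp (-10)) := by
    intro y; rw [hb]; ring
  have hl2 : ContDiff ℝ 2 (fun y : E3 => inner ℝ y e - T) :=
    (contDiff_id.inner ℝ contDiff_const).sub contDiff_const
  have hlg : ContDiff ℝ 2 (fun y : E3 => (inner ℝ y e - T) * gau c α y) :=
    hl2.mul (gau_contDiff c α)
  have hbcd : ContDiff ℝ 2 b := contDiff_const.mul (hlg.sub (contDiff_const.mul hl2))
  have hlap0 : ∀ y, Δ (fun y : E3 => inner ℝ y e - T) y = 0 := by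
    intro y
    have h2 := spread_lap e c T 0 y
    have h3 : (fun y : E3 => (inner ℝ y e - T) * gau c 0 y) = fun y => inner ℝ y e - T := by
      funext v
      simp [gau]
    rw [h3] at h2
    rw [h2]
    ring
  have hbl : ∀ y, Δ b y = κ * (gau c α y * ((inner ℝ y e - T) *
      (4 * α ^ 2 * ‖y - c‖ ^ 2 - 10 * α))) := by
    intro y
    have e1 : b = κ • ((fun y : E3 => (inner ℝ y e - T) * gau c α y) -
        Real.exp (-10) • fun y : E3 => inner ℝ y e - T) := by
      funext v
      simp only [hb, Pi.smul_apply, Pi.sub_apply, smul_eq_mul]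
    have h5 : ContDiffAt ℝ 2 (Real.exp (-10) • fun y : E3 => inner ℝ y e - T) y :=
      (hl2.const_smul (Real.exp (-10))).contDiffAt
    have h6 : ContDiffAt ℝ 2 ((fun y : E3 => (inner ℝ y e - T) * gau c α y) -
        Real.exp (-10) • fun y : E3 => inner ℝ y e - T) y := hlg.contDiffAt.sub h5
    rw [e1, laplacian_smul κ h6, hlg.contDiffAt.laplacian_sub h5,
      laplacian_smul (Real.exp (-10)) hl2.contDiffAt, hlap0, spread_lap, hc]
    simp
  have hmin := min_principle (spread_isCompact e c T (ρ / 2) ρ) (F := fun y => w y - b y)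
    (hwc.sub hbcd.continuous).continuousOn ?_
  · intro x hx1 hx2 hx3
    have h3 := hmin x ⟨hx1, hx2, hx3⟩
    simp only [hbeq] at h3
    rw [hgau] at h3
    linarith
  · rintro x ⟨hx1, hx2, hx3⟩ hneg
    have hg1 : gau c α x ≤ 1 := by
      rw [gau]
      refine Real.exp_le_one_iff.2 ?_
      nlinarith [sq_nonneg ‖x - c‖]
    have hx1' : T < inner ℝ x e := by
      refine lt_of_le_of_ne hx1 fun h => ?_
      have h3 := h0 x hx1
      have h4 : b x = 0 := by rw [hbeq, ← h, sub_self, mul_zero, zero_mul]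
      linarith
    have hx3' : dist x c < ρ := by
      refine lt_of_le_of_ne hx3 fun h => ?_
      have h3 := h0 x hx1
      have h4 : b x = 0 := by
        rw [hbeq, hgau, h, div_self hρ.ne']
        norm_num
      linarith
    have hx2' : ρ / 2 < dist x c := by
      refine lt_of_le_of_ne hx2 fun h => ?_
      have h3 := h1 x h.symm.le hx1
      have h4 : b x ≤ κ * (inner ℝ x e - T) := by
        rw [hbeq]
        have h5 : 0 ≤ κ * (inner ℝ x e - T) := mul_nonneg hκ.le (by linarith)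
        have h6 := Real.exp_pos (-10)
        nlinarith
      linarith
    have hhx : HarmonicAt w x := hh x (mem_ball.2 hx3')
    refine ⟨?_, hhx.1.sub hbcd.contDiffAt, ?_⟩
    · have hc1 : Continuous fun x : E3 => inner ℝ x e := by fun_prop
      have hc2 : Continuous fun x : E3 => dist x c := by fun_prop
      have ho : IsOpen {x : E3 | T < inner ℝ x e ∧ ρ / 2 < dist x c ∧ dist x c < ρ} :=
        (isOpen_lt continuous_const hc1).inter
          ((isOpen_lt continuous_const hc2).inter (isOpen_lt hc2 continuous_const))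
      refine mem_of_superset (ho.mem_nhds ⟨hx1', hx2', hx3'⟩) ?_
      rintro y ⟨h3, h4, h5⟩
      exact ⟨h3.le, h4.le, h5.le⟩
    · have e2 : (fun y => w y - b y) = w - b := rfl
      rw [e2, hhx.1.laplacian_sub hbcd.contDiffAt, hbl, hhx.2.self_of_nhds]
      have h3 : 0 ≤ 4 * α ^ 2 * ‖x - c‖ ^ 2 - 10 * α := by
        have h6 : (ρ / 2) ^ 2 ≤ ‖x - c‖ ^ 2 := by
          rw [← dist_eq_norm]
          exact pow_le_pow_left₀ (by positivity) hx2 2
        have h7 : α * ρ ^ 2 = 10 := by rw [hα]; field_simp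
        have h8 : 4 * α ^ 2 * (ρ / 2) ^ 2 ≤ 4 * α ^ 2 * ‖x - c‖ ^ 2 :=
          mul_le_mul_of_nonneg_left h6 (by positivity)
        have h9 : 4 * α ^ 2 * (ρ / 2) ^ 2 = 10 * α := by
          calc 4 * α ^ 2 * (ρ / 2) ^ 2 = α * (α * ρ ^ 2) := by ring
            _ = 10 * α := by rw [h7]; ring
        linarith
      have h4 : 0 ≤ κ * (gau c α x * ((inner ℝ x e - T) *
          (4 * α ^ 2 * ‖x - c‖ ^ 2 - 10 * α))) :=
        mul_nonneg hκ.le (mul_nonneg (Real.exp_pos _).le (mul_nonneg (by linarith) h3))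
      simp only [Pi.zero_apply, zero_sub, Left.neg_nonpos_iff]
      exact h4

/-- Derivative along a line. -/
private theorem movCorner_deriv {g : E3 → ℝ} {y v : E3} {s : ℝ}
    (h : ContDiffAt ℝ 2 g (y + s • v)) :
    HasDerivAt (fun s : ℝ => g (y + s • v)) (fderiv ℝ g (y + s • v) v) s := by
  have h1 : HasDerivAt (fun s : ℝ => y + s • v) v s := by
    simpa using ((hasDerivAt_id s).smul_const v).const_add y
  exact (h.differentiableAt (by norm_num)).hasFDerivAt.comp_hasDerivAt s h1

/-- Second derivative along a line. -/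
private theorem movCorner_deriv2 {g : E3 → ℝ} {y v : E3} (h : ContDiffAt ℝ 2 g y) :
    HasDerivAt (fun s : ℝ => fderiv ℝ g (y + s • v) v) (fderiv ℝ (fderiv ℝ g) y v v) 0 := by
  have h1 : HasDerivAt (fun s : ℝ => y + s • v) v 0 := by
    simpa using ((hasDerivAt_id (0 : ℝ)).smul_const v).const_add y
  have h2 : DifferentiableAt ℝ (fderiv ℝ g) y :=
    (h.fderiv_right (m := 1) (by norm_num)).differentiableAt (by norm_num)
  have h3 : HasFDerivAt (fderiv ℝ g) (fderiv ℝ (fderiv ℝ g) y) (y + (0 : ℝ) • v) := by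
    rw [zero_smul, add_zero]
    exact h2.hasFDerivAt
  have h4 := h3.comp_hasDerivAt (0 : ℝ) h1
  exact ((ContinuousLinearMap.apply ℝ ℝ v).hasFDerivAt).comp_hasDerivAt (0 : ℝ) h4

/-- The second order difference vanishes. -/
private theorem movCorner_littleO {u : E3 → ℝ} {y ν e : E3} {ρ : ℝ} {g : E3 → ℝ}
    (hs : SideAt u y ν ρ g) (hν : inner ℝ ν e = 0) {ε : ℝ} (hε : 0 < ε) :
    ∀ᶠ s in 𝓝[>] (0 : ℝ), g (y + s • (ν - e)) - g (y + s • (ν + e)) ≤ ε * s ^ 2 := by
  have hg : ContDiffAt ℝ 2 g y := contDiffAt_infty.1 hs.smooth 2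
  set h : ℝ → ℝ := fun s => g (y + s • (ν - e)) - g (y + s • (ν + e)) with hh
  set h' : ℝ → ℝ := fun s => fderiv ℝ g (y + s • (ν - e)) (ν - e) -
    fderiv ℝ g (y + s • (ν + e)) (ν + e) with hh'
  have hten : ∀ v : E3, Tendsto (fun s : ℝ => y + s • v) (𝓝 0) (𝓝 y) := by
    intro v
    have h1 : Continuous fun s : ℝ => y + s • v := by fun_prop
    have h2 := h1.tendsto 0
    rwa [zero_smul, add_zero] at h2
  have hev : ∀ v : E3, ∀ᶠ s : ℝ in 𝓝 0, ContDiffAt ℝ 2 g (y + s • v) := fun v =>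
    (hten v).eventually (hg.eventually (by simp))
  have hd1 : ∀ᶠ s : ℝ in 𝓝 0, HasDerivAt h (h' s) s := by
    filter_upwards [hev (ν - e), hev (ν + e)] with s h1 h2
    exact (movCorner_deriv h1).sub (movCorner_deriv h2)
  have hsymm : fderiv ℝ (fderiv ℝ g) y ν e = 0 := by
    have h1 : fderiv ℝ (fderiv ℝ g) y e ν = 0 := hs.hess e hν
    have h2 : IsSymmSndFDerivAt ℝ g y := hg.isSymmSndFDerivAt (by simp)
    rw [← h1]
    exact h2 ν e
  have hd2 : HasDerivAt h' 0 0 := by
    have h1 := (movCorner_deriv2 (v := ν - e) hg).sub (movCorner_deriv2 (v := ν + e) hg)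
    have h2 : fderiv ℝ (fderiv ℝ g) y (ν - e) (ν - e) -
        fderiv ℝ (fderiv ℝ g) y (ν + e) (ν + e) = 0 := by
      have h3 : fderiv ℝ (fderiv ℝ g) y e ν = 0 := hs.hess e hν
      simp only [map_sub, map_add, sub_apply, add_apply, hsymm, h3]
      ring
    rwa [h2] at h1
  have h'0 : h' 0 = 0 := by
    simp only [hh', zero_smul, add_zero, hs.grad]
    rw [inner_sub_right, inner_add_right, hν]
    ring
  have h00 : h 0 = 0 := by simp [hh]
  have ho : ∀ᶠ s in 𝓝 (0 : ℝ), |h' s| ≤ ε * |s| := by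
    have h1 := hd2.isLittleO.bound hε
    filter_upwards [h1] with s hs
    simpa [h'0] using hs
  obtain ⟨δ, hδ, hδ'⟩ := Metric.eventually_nhds_iff_ball.1 (hd1.and ho)
  have hsm : ∀ᶠ s in 𝓝 (0 : ℝ), s < δ := gt_mem_nhds hδ
  filter_upwards [nhdsWithin_le_nhds hsm, self_mem_nhdsWithin] with s hs1 hs0
  have hs0 : (0 : ℝ) < s := hs0
  have hmem : ∀ t ∈ Icc (0 : ℝ) s, t ∈ ball (0 : ℝ) δ := by
    intro t ht
    rw [mem_ball, Real.dist_eq, sub_zero, abs_of_nonneg ht.1]
    linarith [ht.2]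
  have h1 := (convex_Icc (0 : ℝ) s).norm_image_sub_le_of_norm_hasDerivWithin_le (f := h) (f' := h')
    (C := ε * s) (fun t ht => ((hδ' t (hmem t ht)).1).hasDerivWithinAt) (fun t ht => ?_)
    (left_mem_Icc.2 hs0.le) (right_mem_Icc.2 hs0.le)
  · rw [h00, sub_zero, sub_zero, Real.norm_eq_abs, Real.norm_of_nonneg hs0.le] at h1
    have h2 := le_abs_self (h s)
    calc h s ≤ |h s| := h2
      _ ≤ ε * s * s := h1
      _ = ε * s ^ 2 := by ring
  · rw [Real.norm_eq_abs]
    refine ((hδ' t (hmem t ht)).2).trans ?_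
    rw [abs_of_nonneg ht.1]
    exact mul_le_mul_of_nonneg_left ht.2 hε.le

theorem no_corner {u : E3 → ℝ} (hu : IsEntireSolution u) {e : E3} (he : ‖e‖ = 1) {T : ℝ}
    (hT : PP u e T) (hst : ∀ x, T < inner ℝ x e → 0 < u x → u x < u (rf e T x))
    {y ν : E3} {ρ : ℝ} {g : E3 → ℝ} (hs : SideAt u y ν ρ g) (hy : inner ℝ y e = T)
    (hν : inner ℝ ν e = 0) : False := by
  have hρ := hs.rho_pos
  have hcσ := movCorner_continuous_rf e T
  have hee : inner ℝ e e = (1 : ℝ) := by
    rw [real_inner_self_eq_norm_sq, he]; norm_num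
  set c : E3 := y + ρ • ν with hc
  have hci : inner ℝ c e = T := by
    rw [hc, inner_add_left, inner_smul_left, hν, hy, mul_zero, add_zero]
  have hσc : rf e T c = c := rf_of_inner_eq hci
  have hσd : ∀ x, dist (rf e T x) c = dist x c := by
    intro x
    have h1 := dist_rf he T x c
    rwa [hσc] at h1
  set w : E3 → ℝ := fun x => u (rf e T x) - u x with hw
  have hwc : Continuous w := (hu.continuous.comp hcσ).sub hu.continuous
  have hharm : HarmonicOnNhd w (ball c ρ) := by
    intro x hx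
    have h1 : rf e T x ∈ ball c ρ := by
      rw [mem_ball, hσd]; exact hx
    exact (harmonicAt_rf he T (hu.harmonic _ (hs.pos _ h1))).sub (hu.harmonic _ (hs.pos x hx))
  have hw0 : ∀ x, T ≤ inner ℝ x e → 0 ≤ w x := fun x hx => sub_nonneg.2 (hT x hx)
  have hwp : ∀ x ∈ ball c ρ, T < inner ℝ x e → 0 < w x := fun x hx hx' =>
    sub_pos.2 (hst x hx' (hs.pos x hx))
  obtain ⟨κ, hκ0, hκ⟩ := movCorner_linear hwc he hρ hci hharm hw0 hwp
  have hbar := movCorner_barrier hwc hρ hκ0 hci hharm hw0 hκ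
  set k : ℝ := κ * Real.exp (-10) * 15 / ρ with hk
  have hk0 : 0 < k := by rw [hk]; positivity
  -- the point on the diagonal
  have hxi : ∀ s : ℝ, inner ℝ (y + s • (ν + e)) e = T + s := by
    intro s
    rw [inner_add_left, inner_smul_left, inner_add_left, hν, hee, hy]
    simp
  have hxd : ∀ s : ℝ, dist (y + s • (ν + e)) c ^ 2 = (ρ - s) ^ 2 + s ^ 2 := by
    intro s
    have h1 : y + s • (ν + e) - c = (s - ρ) • ν + s • e := by rw [hc]; module
    rw [dist_eq_norm, h1, norm_add_sq_real, inner_smul_left, inner_smul_right, hν, norm_smul,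
      norm_smul, hs.norm_nu, he]
    simp only [mul_one, mul_zero, add_zero, Real.norm_eq_abs, sq_abs]
    ring
  have hrf : ∀ s : ℝ, rf e T (y + s • (ν + e)) = y + s • (ν - e) := by
    intro s
    rw [rf, hxi]
    module
  have hlow : ∀ s : ℝ, 0 < s → s ≤ ρ / 4 → k * s ^ 2 ≤
      g (y + s • (ν - e)) - g (y + s • (ν + e)) := by
    intro s hs0 hs1
    set x : E3 := y + s • (ν + e) with hx
    have hd2 : dist x c ^ 2 = (ρ - s) ^ 2 + s ^ 2 := hxd s
    have hd1 : dist x c < ρ := by
      refine lt_of_pow_lt_pow_left₀ 2 hρ.le ?_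
      rw [hd2]
      nlinarith
    have hd3 : ρ / 2 ≤ dist x c := by
      refine le_of_sq_le_sq ?_ dist_nonneg
      rw [hd2]
      nlinarith
    have h1 := hbar x (by rw [hxi]; linarith) hd3 hd1.le
    have hxi' : inner ℝ x e - T = s := by rw [hxi]; ring
    rw [hxi'] at h1
    have h2 : Real.exp (-10) * (15 * (s / ρ)) ≤
        Real.exp (-10 * (dist x c / ρ) ^ 2) - Real.exp (-10) := by
      have e1 : -10 * (dist x c / ρ) ^ 2 = -10 + 20 * (s / ρ) * (1 - s / ρ) := by
        rw [div_pow, hd2]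
        field_simp
        ring
      rw [e1, Real.exp_add]
      have e2 := Real.add_one_le_exp (20 * (s / ρ) * (1 - s / ρ))
      have e3 : 15 * (s / ρ) ≤ 20 * (s / ρ) * (1 - s / ρ) := by
        have h4 : s / ρ ≤ 1 / 4 := by rw [div_le_iff₀ hρ]; linarith
        have h5 : 0 < s / ρ := by positivity
        nlinarith
      have e4 := Real.exp_pos (-10)
      nlinarith
    have h3 : k * s ^ 2 ≤ w x := by
      refine le_trans ?_ h1
      have h4 : k * s ^ 2 = κ * s * (Real.exp (-10) * (15 * (s / ρ))) := by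
        rw [hk]; field_simp
      rw [h4]
      exact mul_le_mul_of_nonneg_left h2 (by positivity)
    have hx1 : x ∈ ball c ρ := mem_ball.2 hd1
    have hx2 : rf e T x ∈ ball c ρ := by rw [mem_ball, hσd]; exact hd1
    have h4 : w x = g (rf e T x) - g x := by
      simp only [hw]
      rw [hs.eq _ hx1, hs.eq _ hx2]
    rw [h4, hrf] at h3
    exact h3
  have hev := movCorner_littleO hs hν (show 0 < k / 2 by positivity)
  have hsm : ∀ᶠ s in 𝓝 (0 : ℝ), s < ρ / 4 := gt_mem_nhds (by positivity)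
  obtain ⟨s, ⟨h1, h2⟩, h3⟩ :=
    ((hev.and (nhdsWithin_le_nhds hsm)).and self_mem_nhdsWithin).exists
  have h3 : (0 : ℝ) < s := h3
  have h4 := hlow s h3 h2.le
  have h5 : 0 < k * s ^ 2 := by positivity
  nlinarith

end FB75
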