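import Pool.Agent.FB75.Struct

/-!
# Moving planes: the comparison property and its strict form
-/

open MeasureTheory Metric Set Filter Topology InnerProductSpace Laplacian
open scoped ContDiff

namespace FB75

/-- The comparison property for the plane `⟪x, e⟫ = t`. -/
def PP (u : E3 → ℝ) (e : E3) (t : ℝ) : Prop := ∀ x, t ≤ inner ℝ x e → u x ≤ u (rf e t x)

theorem pp_closed {u : E3 → ℝ} (hu : IsEntireSolution u) {e : E3} {T : ℝ}
    (h : ∀ t < T, PP u e t) : PP u e T := by
  intro x hx
  have hc : Continuous fun t : ℝ => u (rf e t x) :=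
    hu.continuous.comp ((continuous_rf e).comp (by fun_prop : Continuous fun t : ℝ => (t, x)))
  have ht : Tendsto (fun t : ℝ => u (rf e t x)) (𝓝[<] T) (𝓝 (u (rf e T x))) :=
    (hc.tendsto T).mono_left nhdsWithin_le_nhds
  refine ge_of_tendsto ht ?_
  filter_upwards [self_mem_nhdsWithin] with t ht
  exact h t ht x (le_trans (le_of_lt ht) hx)

private theorem movDef_continuous_rf (e : E3) (T : ℝ) : Continuous fun x : E3 => rf e T x :=
  (continuous_rf e).comp (by fun_prop : Continuous fun x : E3 => (T, x))

/-- Near a point of the positive phase whose image is in the positive phase, the difference is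
harmonic. -/
private theorem movDef_ball {u : E3 → ℝ} (hu : IsEntireSolution u) {e : E3} (he : ‖e‖ = 1)
    {T : ℝ} {x : E3} (hx : 0 < u x) (hx' : 0 < u (rf e T x)) :
    ∃ r > 0, (∀ y ∈ ball x r, 0 < u y) ∧
      HarmonicOnNhd (fun y => u (rf e T y) - u y) (ball x r) := by
  have h1 : ∀ᶠ y in 𝓝 x, 0 < u y := hu.continuous.continuousAt.eventually (lt_mem_nhds hx)
  have h2 : ∀ᶠ y in 𝓝 x, 0 < u (rf e T y) :=
    (hu.continuous.comp (movDef_continuous_rf e T)).continuousAt.eventually (lt_mem_nhds hx')
  obtain ⟨r, hr, hr'⟩ := Metric.eventually_nhds_iff_ball.1 (h1.and h2)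
  refine ⟨r, hr, fun y hy => (hr' y hy).1, fun y hy => ?_⟩
  exact (harmonicAt_rf he T (hu.harmonic _ (hr' y hy).2)).sub (hu.harmonic _ (hr' y hy).1)

/-- Off the plane, equality at a point of the positive phase gives equality nearby. -/
private theorem movDef_off {u : E3 → ℝ} (hu : IsEntireSolution u) {e : E3} (he : ‖e‖ = 1)
    {T : ℝ} (hT : PP u e T) {x : E3} (hx : 0 < u x) (hxe : u x = u (rf e T x))
    (hne : inner ℝ x e ≠ T) : ∀ᶠ y in 𝓝 x, u y = u (rf e T y) := by
  have hx' : 0 < u (rf e T x) := hxe ▸ hx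
  obtain ⟨r, hr, -, hH⟩ := movDef_ball hu he hx hx'
  have hci : Continuous fun y : E3 => inner ℝ y e := by fun_prop
  rcases lt_or_gt_of_ne hne with hlt | hgt
  · have h1 : ∀ᶠ y in 𝓝 x, inner ℝ y e < T := hci.continuousAt.eventually (gt_mem_nhds hlt)
    obtain ⟨r', hr', h2⟩ := Metric.eventually_nhds_iff_ball.1 h1
    set ρ := min r r' with hρ
    have hρ0 : 0 < ρ := lt_min hr hr'
    have h3 : HarmonicOnNhd (fun y => u (rf e T y) - u y) (ball x ρ) :=
      hH.mono (ball_subset_ball (min_le_left _ _))
    have h4 : HarmonicOnNhd (fun y => u y - u (rf e T y)) (ball x ρ) := by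
      have h5 := h3.neg
      have h6 : (-fun y => u (rf e T y) - u y) = fun y => u y - u (rf e T y) := by
        funext y
        simp
      rwa [h6] at h5
    have h5 := strong_min h4 (fun v hv => ?_) (by rw [← hxe, sub_self])
    · filter_upwards [ball_mem_nhds x (by positivity : 0 < ρ / 4)] with y hy
      have h6 := h5 y hy
      linarith
    · have h6 : inner ℝ v e < T := h2 v (ball_subset_ball (min_le_right _ _) hv)
      have h7 := hT (rf e T v) (by rw [inner_rf he]; linarith)
      rw [rf_rf he] at h7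
      linarith
  · have h1 : ∀ᶠ y in 𝓝 x, T < inner ℝ y e := hci.continuousAt.eventually (lt_mem_nhds hgt)
    obtain ⟨r', hr', h2⟩ := Metric.eventually_nhds_iff_ball.1 h1
    set ρ := min r r' with hρ
    have hρ0 : 0 < ρ := lt_min hr hr'
    have h3 : HarmonicOnNhd (fun y => u (rf e T y) - u y) (ball x ρ) :=
      hH.mono (ball_subset_ball (min_le_left _ _))
    have h5 := strong_min h3 (fun v hv => ?_) (by rw [← hxe, sub_self])
    · filter_upwards [ball_mem_nhds x (by positivity : 0 < ρ / 4)] with y hy
      have h6 := h5 y hy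
      linarith
    · have h6 : T < inner ℝ v e := h2 v (ball_subset_ball (min_le_right _ _) hv)
      have h7 := hT v h6.le
      linarith

/-- Strictness of the comparison. -/
theorem pp_strict {u : E3 → ℝ} (hu : IsEntireSolution u) (hΩ : IsPreconnected {x | 0 < u x})
    {e : E3} (he : ‖e‖ = 1) {T : ℝ} (hT : PP u e T) (hns : ∃ x, u x = 0 ∧ 0 < u (rf e T x)) :
    ∀ x, T < inner ℝ x e → 0 < u x → u x < u (rf e T x) := by
  have hcσ := movDef_continuous_rf e T
  have hci : Continuous fun y : E3 => inner ℝ y e := by fun_prop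
  set Z : Set E3 := {x | 0 < u x ∧ ∀ᶠ y in 𝓝 x, u y = u (rf e T y)} with hZ
  have hZo : IsOpen Z := by
    rw [isOpen_iff_mem_nhds]
    rintro x ⟨h1, h2⟩
    have h3 : ∀ᶠ y in 𝓝 x, 0 < u y := hu.continuous.continuousAt.eventually (lt_mem_nhds h1)
    filter_upwards [h3, eventually_eventually_nhds.2 h2] with y hy1 hy2
    exact ⟨hy1, hy2⟩
  have hZc : closure Z ∩ {x | 0 < u x} ⊆ Z := by
    rintro x ⟨hxc, hx⟩
    have hx : 0 < u x := hx
    have hxe : u x = u (rf e T x) := by
      have h1 : IsClosed {x | u x = u (rf e T x)} :=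
        isClosed_eq hu.continuous (hu.continuous.comp hcσ)
      have h2 : Z ⊆ {x | u x = u (rf e T x)} := fun y hy => hy.2.self_of_nhds
      exact closure_minimal h2 h1 hxc
    refine ⟨hx, ?_⟩
    by_cases hne : inner ℝ x e = T
    swap
    · exact movDef_off hu he hT hx hxe hne
    have hx' : 0 < u (rf e T x) := hxe ▸ hx
    obtain ⟨r, hr, hpos, hH⟩ := movDef_ball hu he hx hx'
    have hσx : rf e T x = x := rf_of_inner_eq hne
    have hσB : ∀ y ∈ ball x r, rf e T y ∈ ball x r := by
      intro y hy
      rw [mem_ball] at hy ⊢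
      have h1 := dist_rf he T y x
      rw [hσx] at h1
      rwa [h1]
    set U : Set E3 := ball x r ∩ {y | T < inner ℝ y e} with hU
    have hUo : IsOpen U := isOpen_ball.inter (isOpen_lt continuous_const hci)
    have hUc : IsPreconnected U := by
      have h1 : Convex ℝ {y : E3 | T < inner ℝ y e} := by
        intro a ha b hb s t hs ht hst
        have ha : T < inner ℝ a e := ha
        have hb : T < inner ℝ b e := hb
        show T < inner ℝ (s • a + t • b) e
        rw [inner_add_left, inner_smul_left, inner_smul_left]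
        simp only [conj_trivial]
        rcases eq_or_lt_of_le hs with h0 | h0
        · have h2 : t = 1 := by linarith
          rw [← h0, h2]
          linarith
        · have h2 : 0 < s * (inner ℝ a e - T) := mul_pos h0 (by linarith)
          have h3 : 0 ≤ t * (inner ℝ b e - T) := mul_nonneg ht (by linarith)
          have h4 : s * inner ℝ a e + t * inner ℝ b e - T =
              s * (inner ℝ a e - T) + t * (inner ℝ b e - T) + (s + t - 1) * T := by ring
          rw [hst] at h4
          linarith
      exact ((convex_ball x r).inter h1).isPreconnected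
    -- a point of `U` with equality
    obtain ⟨z0, hz0, hz0B⟩ : ∃ z0, z0 ∈ Z ∧ z0 ∈ ball x r := by
      obtain ⟨z0, h1, h2⟩ := mem_closure_iff.1 hxc (ball x r) isOpen_ball (mem_ball_self hr)
      exact ⟨z0, h2, h1⟩
    obtain ⟨z2, hz2, hz2e⟩ : ∃ z2, z2 ∈ U ∧ u z2 = u (rf e T z2) := by
      by_cases hlt : inner ℝ z0 e < T
      · refine ⟨rf e T z0, ⟨hσB z0 hz0B, ?_⟩, ?_⟩
        · show T < inner ℝ (rf e T z0) e
          rw [inner_rf he]
          linarith
        · rw [rf_rf he]
          exact hz0.2.self_of_nhds.symm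
      · push Not at hlt
        have ht : Tendsto (fun s : ℝ => z0 + s • e) (𝓝[>] 0) (𝓝 z0) := by
          have h1 : Continuous fun s : ℝ => z0 + s • e := by fun_prop
          have h2 := h1.tendsto 0
          rw [zero_smul, add_zero] at h2
          exact h2.mono_left nhdsWithin_le_nhds
        have h3 := ht.eventually (hz0.2.and (isOpen_ball.mem_nhds hz0B))
        obtain ⟨s, ⟨h4, h5⟩, h6⟩ := (h3.and self_mem_nhdsWithin).exists
        refine ⟨z0 + s • e, ⟨h5, ?_⟩, h4⟩
        show T < inner ℝ (z0 + s • e) e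
        rw [inner_add_left, inner_smul_left, real_inner_self_eq_norm_sq, he]
        have h7 : (0 : ℝ) < s := h6
        simp only [conj_trivial]
        linarith
    have hw := strong_min_connected hUo hUc (hH.mono inter_subset_left) (fun v hv => by
      have h1 := hT v (le_of_lt hv.2)
      linarith) hz2 (by rw [← hz2e, sub_self])
    filter_upwards [ball_mem_nhds x hr] with y hy
    rcases lt_trichotomy (inner ℝ y e) T with h1 | h1 | h1
    · have h2 := hw (rf e T y) ⟨hσB y hy, by
        show T < inner ℝ (rf e T y) e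
        rw [inner_rf he]
        linarith⟩
      rw [rf_rf he] at h2
      linarith
    · rw [rf_of_inner_eq h1]
    · have h2 := hw y ⟨hy, h1⟩
      linarith
  have hempty : ∀ x, x ∉ Z := by
    intro x hx
    have h1 : {x | 0 < u x} ⊆ Z := hΩ.subset_of_closure_inter_subset hZo ⟨x, hx.1, hx⟩ hZc
    obtain ⟨y, hy0, hy1⟩ := hns
    have h2 : rf e T y ∈ Z := h1 hy1
    have h3 := h2.2.self_of_nhds
    rw [rf_rf he, hy0] at h3
    linarith
  intro x hx1 hx2
  refine lt_of_le_of_ne (hT x hx1.le) fun heq => ?_
  exact hempty x ⟨hx2, movDef_off hu he hT hx2 heq (ne_of_gt hx1)⟩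

end FB75
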