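import Pool.Agent.FB75.MovDef

/-!
# Moving planes: interior tangency is impossible
-/

open MeasureTheory Metric Set Filter Topology InnerProductSpace Laplacian
open scoped ContDiff

namespace FB75

private theorem movTouch_continuous_rf (e : E3) (T : ℝ) : Continuous fun x : E3 => rf e T x :=
  (continuous_rf e).comp (by fun_prop : Continuous fun x : E3 => (T, x))

theorem no_touch {u : E3 → ℝ} (hu : IsEntireSolution u) {e : E3} (he : ‖e‖ = 1) {T : ℝ}
    (hT : PP u e T) (hst : ∀ x, T < inner ℝ x e → 0 < u x → u x < u (rf e T x))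
    {y ν : E3} {ρ : ℝ} {g : E3 → ℝ} (hs : SideAt u y ν ρ g)
    (hball : ∀ x ∈ ball (y + ρ • ν) ρ, T < inner ℝ x e) (hz : u (rf e T y) = 0) : False := by
  have hρ := hs.rho_pos
  have hcσ := movTouch_continuous_rf e T
  have hci : Continuous fun y : E3 => inner ℝ y e := by fun_prop
  set c : E3 := y + ρ • ν with hc
  set w : E3 → ℝ := fun x => u (rf e T x) - u x with hw
  have hwc : Continuous w := (hu.continuous.comp hcσ).sub hu.continuous
  have hlt : ∀ x ∈ ball c ρ, 0 < u x ∧ u x < u (rf e T x) := fun x hx =>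
    ⟨hs.pos x hx, hst x (hball x hx) (hs.pos x hx)⟩
  have hharm : HarmonicOnNhd w (ball c ρ) := fun x hx =>
    (harmonicAt_rf he T (hu.harmonic _ ((hlt x hx).1.trans (hlt x hx).2))).sub
      (hu.harmonic _ (hlt x hx).1)
  have hcl : closure (ball c ρ) = closedBall c ρ := closure_ball c hρ.ne'
  have hnn : ∀ v ∈ closedBall c ρ, 0 ≤ w v := by
    intro v hv
    have h1 : T ≤ inner ℝ v e := by
      have h2 : closure (ball c ρ) ⊆ {x : E3 | T ≤ inner ℝ x e} :=
        closure_minimal (fun x hx => (hball x hx).le) (isClosed_le continuous_const hci)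
      exact h2 (hcl ▸ hv)
    exact sub_nonneg.2 (hT v h1)
  have hyc : dist y c = ρ := by
    rw [dist_eq_norm, hc, sub_add_cancel_left, norm_neg, norm_smul, hs.norm_nu, mul_one,
      Real.norm_of_nonneg hρ.le]
  have hwcpos : 0 < w c := sub_pos.2 (hlt c (mem_ball_self hρ)).2
  set κ : ℝ := 256 / 78125 * (25 * Real.exp (-25)) * w c / ρ with hκ
  have hκ0 : 0 < κ := by rw [hκ]; positivity
  have hlow : ∀ s : ℝ, 0 < s → s ≤ 3 * ρ / 4 → κ * s ≤ w (y + s • ν) := by
    intro s hs0 hs1
    have h1 := hopf_local hρ hharm hwc.continuousOn hnn hyc hs0 hs1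
    have h2 : y + (s / ρ) • (c - y) = y + s • ν := by
      rw [hc, add_sub_cancel_left, smul_smul, div_mul_cancel₀ _ hρ.ne']
    rw [h2] at h1
    refine le_trans (le_of_eq ?_) h1
    rw [hκ]
    ring
  -- the reflected point is a free boundary point
  have hyf : rf e T y ∈ frontier {x | 0 < u x} := by
    rw [(isOpen_pos hu).frontier_eq]
    refine ⟨?_, fun h => ?_⟩
    · have h1 : y ∈ closure (ball c ρ) := by
        rw [hcl, mem_closedBall, hyc]
      have h2 : rf e T y ∈ closure ((fun x => rf e T x) '' ball c ρ) :=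
        image_closure_subset_closure_image hcσ ⟨y, h1, rfl⟩
      refine closure_mono ?_ h2
      rintro _ ⟨x, hx, rfl⟩
      exact (hlt x hx).1.trans (hlt x hx).2
    · have h : 0 < u (rf e T y) := h
      linarith
  have hup := upper_at hu hyf (show 0 < κ / 4 by linarith)
  have hlo := hs.lower (show 0 < κ / 4 by linarith)
  have hten : Tendsto (fun s : ℝ => rf e T (y + s • ν)) (𝓝[>] 0) (𝓝 (rf e T y)) := by
    have h1 : Continuous fun s : ℝ => rf e T (y + s • ν) :=
      hcσ.comp (by fun_prop : Continuous fun s : ℝ => y + s • ν)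
    have h2 := h1.tendsto 0
    rw [zero_smul, add_zero] at h2
    exact h2.mono_left nhdsWithin_le_nhds
  have hsm : ∀ᶠ s in 𝓝[>] (0 : ℝ), s ≤ 3 * ρ / 4 := by
    have h1 : ∀ᶠ s in 𝓝 (0 : ℝ), s < 3 * ρ / 4 := gt_mem_nhds (by positivity)
    filter_upwards [nhdsWithin_le_nhds h1] with s hs using hs.le
  obtain ⟨s, ⟨⟨⟨h1, h2⟩, h3⟩, h4⟩⟩ :=
    (((hten.eventually hup).and hlo).and hsm |>.and self_mem_nhdsWithin).exists
  have h4 : (0 : ℝ) < s := h4
  have h5 := hlow s h4 h3
  rw [dist_rf he, dist_eq_norm, add_sub_cancel_left, norm_smul, hs.norm_nu, mul_one,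
    Real.norm_of_nonneg h4.le] at h1
  have h6 : w (y + s • ν) = u (rf e T (y + s • ν)) - u (y + s • ν) := rfl
  have h7 : 0 < κ * s := mul_pos hκ0 h4
  nlinarith

/-- The derivative in direction `e` is negative at points of the positive phase in the plane. -/
theorem deriv_neg_plane {u : E3 → ℝ} (hu : IsEntireSolution u) {e : E3} (he : ‖e‖ = 1) {T : ℝ}
    (hst : ∀ x, T < inner ℝ x e → 0 < u x → u x < u (rf e T x))
    {y : E3} (hy : inner ℝ y e = T) (hpos : 0 < u y) : fderiv ℝ u y e < 0 := by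
  have hcσ := movTouch_continuous_rf e T
  have hee : inner ℝ e e = (1 : ℝ) := by
    rw [real_inner_self_eq_norm_sq, he]; norm_num
  obtain ⟨r, hr, hr'⟩ := Metric.isOpen_iff.1 (isOpen_pos hu) y hpos
  have hσy : rf e T y = y := rf_of_inner_eq hy
  have hσB : ∀ x ∈ ball y r, rf e T x ∈ ball y r := by
    intro x hx
    rw [mem_ball] at hx ⊢
    have h1 := dist_rf he T x y
    rw [hσy] at h1
    rwa [h1]
  set ρ : ℝ := r / 3 with hρ
  have hρ0 : 0 < ρ := by rw [hρ]; positivity
  set c : E3 := y + ρ • e with hc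
  have hyc : dist y c = ρ := by
    rw [dist_eq_norm, hc, sub_add_cancel_left, norm_neg, norm_smul, he, mul_one,
      Real.norm_of_nonneg hρ0.le]
  have hsub : closedBall c ρ ⊆ ball y r := by
    intro x hx
    rw [mem_closedBall] at hx
    rw [mem_ball]
    have h1 := dist_triangle x c y
    rw [dist_comm c y, hyc] at h1
    linarith
  set w : E3 → ℝ := fun x => u (rf e T x) - u x with hw
  have hwc : Continuous w := (hu.continuous.comp hcσ).sub hu.continuous
  have hharm : HarmonicOnNhd w (ball c ρ) := by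
    intro x hx
    have h1 := hsub (ball_subset_closedBall hx)
    exact (harmonicAt_rf he T (hu.harmonic _ (hr' (hσB x h1)))).sub (hu.harmonic _ (hr' h1))
  have hci : inner ℝ c e = T + ρ := by
    rw [hc, inner_add_left, inner_smul_left, hy, hee]
    simp
  have hnn : ∀ v ∈ closedBall c ρ, 0 ≤ w v := by
    intro v hv
    have h1 : T ≤ inner ℝ v e := by
      have h2 : |inner ℝ (v - c) e| ≤ ‖v - c‖ * ‖e‖ := abs_real_inner_le_norm _ _
      rw [mem_closedBall, dist_eq_norm] at hv
      rw [he, mul_one, inner_sub_left, hci] at h2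
      have h3 := (abs_le.1 (h2.trans hv)).1
      linarith
    rcases eq_or_lt_of_le h1 with h2 | h2
    · simp only [w]
      rw [rf_of_inner_eq h2.symm, sub_self]
    · exact (sub_pos.2 (hst v h2 (hr' (hsub hv)))).le
  have hcpos : 0 < u c := hr' (hsub (mem_closedBall_self hρ0.le))
  have hwcpos : 0 < w c := sub_pos.2 (hst c (by rw [hci]; linarith) hcpos)
  set κ : ℝ := 256 / 78125 * (25 * Real.exp (-25)) * w c / ρ with hκ
  have hκ0 : 0 < κ := by rw [hκ]; positivity
  have hlow : ∀ s : ℝ, 0 < s → s ≤ 3 * ρ / 4 → κ * s ≤ u (y - s • e) - u (y + s • e) := by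
    intro s hs0 hs1
    have h1 := hopf_local hρ0 hharm hwc.continuousOn hnn hyc hs0 hs1
    have h2 : y + (s / ρ) • (c - y) = y + s • e := by
      rw [hc, add_sub_cancel_left, smul_smul, div_mul_cancel₀ _ hρ0.ne']
    have h3 : rf e T (y + s • e) = y - s • e := by
      have h4 : inner ℝ (y + s • e) e = T + s := by
        rw [inner_add_left, inner_smul_left, hy, hee]
        simp
      rw [rf, h4]
      module
    rw [h2] at h1
    have h5 : w (y + s • e) = u (y - s • e) - u (y + s • e) := by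
      simp only [w]
      rw [h3]
    rw [h5] at h1
    refine le_trans (le_of_eq ?_) h1
    rw [hκ]
    ring
  have hdf : HasFDerivAt u (fderiv ℝ u y) y :=
    ((hu.harmonic y hpos).1.differentiableAt (by norm_num)).hasFDerivAt
  have hplus : HasDerivAt (fun s : ℝ => u (y + s • e)) (fderiv ℝ u y e) 0 := by
    have h1 : HasDerivAt (fun s : ℝ => y + s • e) e 0 := by
      simpa using ((hasDerivAt_id (0 : ℝ)).smul_const e).const_add y
    have h2 : HasFDerivAt u (fderiv ℝ u y) (y + (0 : ℝ) • e) := by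
      rw [zero_smul, add_zero]; exact hdf
    exact h2.comp_hasDerivAt (0 : ℝ) h1
  have hminus : HasDerivAt (fun s : ℝ => u (y - s • e)) (-fderiv ℝ u y e) 0 := by
    have h1 : HasDerivAt (fun s : ℝ => y - s • e) (-e) 0 := by
      simpa using ((hasDerivAt_id (0 : ℝ)).smul_const e).const_sub y
    have h2 : HasFDerivAt u (fderiv ℝ u y) (y - (0 : ℝ) • e) := by
      rw [zero_smul, sub_zero]; exact hdf
    have h3 := h2.comp_hasDerivAt (0 : ℝ) h1
    rwa [map_neg] at h3
  have hd := hminus.sub hplus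
  have hslope := hd.tendsto_slope_zero_right
  have hge : ∀ᶠ s in 𝓝[>] (0 : ℝ), κ ≤ s⁻¹ • (((fun s : ℝ => u (y - s • e)) -
      fun s : ℝ => u (y + s • e)) (0 + s) - ((fun s : ℝ => u (y - s • e)) -
      fun s : ℝ => u (y + s • e)) 0) := by
    have h1 : ∀ᶠ s in 𝓝 (0 : ℝ), s < 3 * ρ / 4 := gt_mem_nhds (by positivity)
    filter_upwards [nhdsWithin_le_nhds h1, self_mem_nhdsWithin] with s hs hs0
    have hs0 : (0 : ℝ) < s := hs0
    have h2 := hlow s hs0 hs.le
    simp only [Pi.sub_apply, zero_add, zero_smul, sub_zero, add_zero, sub_self, smul_eq_mul]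
    rw [inv_mul_eq_div, le_div_iff₀ hs0]
    exact h2
  have hfin := ge_of_tendsto hslope hge
  linarith

end FB75
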