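import Pool.Agent.FB75.MovTouch
import Pool.Agent.FB75.MovCorner
import Pool.Agent.FB75.Spread

/-!
# Moving planes for solutions with zero phase in a cone
-/

open MeasureTheory Metric Set Filter Topology InnerProductSpace Laplacian
open scoped ContDiff

namespace FB75

/-- A point of positive derivative between two points of increasing value. -/
theorem exists_deriv_pos {u : E3 → ℝ} (hu : IsEntireSolution u) {y e : E3} {s : ℝ} (hs : 0 < s)
    (h : u y < u (y + s • e)) :
    ∃ τ ∈ Ioo (0 : ℝ) s, 0 < u (y + τ • e) ∧ 0 < fderiv ℝ u (y + τ • e) e := by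
  set φ : ℝ → ℝ := fun τ => u (y + τ • e) with hφ
  have hφc : Continuous φ := hu.continuous.comp (by fun_prop)
  have hφ0 : φ 0 = u y := by simp [hφ]
  set S : Set ℝ := Icc 0 s ∩ {τ | φ τ ≤ u y} with hS
  have hSc : IsCompact S := isCompact_Icc.inter_right (isClosed_le hφc continuous_const)
  have h0S : (0 : ℝ) ∈ S := ⟨left_mem_Icc.2 hs.le, hφ0.le⟩
  obtain ⟨τ₀, hτ₀, hgr⟩ := hSc.exists_isGreatest ⟨0, h0S⟩
  have hτs : τ₀ < s := by
    rcases hτ₀.1.2.lt_or_eq with h1 | h1
    · exact h1
    · exfalso
      have := hτ₀.2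
      rw [h1] at this
      exact absurd h (not_lt.2 this)
  have hpos : ∀ τ ∈ Ioc τ₀ s, u y < φ τ := by
    intro τ hτ
    by_contra hcon
    push Not at hcon
    have : τ ∈ S := ⟨⟨hτ₀.1.1.trans hτ.1.le, hτ.2⟩, hcon⟩
    exact absurd (hgr this) (not_le.2 hτ.1)
  have hdiff : ∀ τ ∈ Ioo τ₀ s, HasDerivAt φ (fderiv ℝ u (y + τ • e) e) τ := by
    intro τ hτ
    have h1 : 0 < u (y + τ • e) := (hu.nonneg y).trans_lt (hpos τ ⟨hτ.1, hτ.2.le⟩)
    have h2 : DifferentiableAt ℝ u (y + τ • e) :=
      ((hu.harmonic _ h1).1).differentiableAt (by norm_num)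
    have h3 : HasDerivAt (fun τ : ℝ => y + τ • e) e τ := by
      simpa using ((hasDerivAt_id τ).smul_const e).const_add y
    exact h2.hasFDerivAt.comp_hasDerivAt τ h3
  obtain ⟨τ, hτ, hd⟩ := exists_hasDerivAt_eq_slope φ (fun τ => fderiv ℝ u (y + τ • e) e) hτs
    hφc.continuousOn hdiff
  refine ⟨τ, ⟨hτ₀.1.1.trans_lt hτ.1, hτ.2⟩, (hu.nonneg y).trans_lt (hpos τ ⟨hτ.1, hτ.2.le⟩), ?_⟩
  rw [hd]
  refine div_pos ?_ (by linarith)
  have h4 : φ τ₀ ≤ u y := hτ₀.2
  have h5 : u y < φ s := h
  linarith

/-- The comparison principle at infinity. -/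
theorem pp_of_compact {u : E3 → ℝ} (hu : IsEntireSolution u)
    (hunb : ¬ Bornology.IsBounded {x | u x = 0}) {e : E3} (he : ‖e‖ = 1) {δ M : ℝ}
    (hδ : 0 < δ) (hcone : ∀ x, u x = 0 → δ * ‖x‖ - M ≤ inner ℝ x e) {t R₁ : ℝ}
    (h1 : ∀ x, t ≤ inner ℝ x e → R₁ < ‖x‖ → 0 < u (rf e t x))
    (h2 : ∀ x, t ≤ inner ℝ x e → ‖x‖ ≤ R₁ → u x ≤ u (rf e t x)) : PP u e t := by
  have hcr : Continuous (rf e t) := (continuous_rf e).comp (by fun_prop : Continuous fun x : E3 => (t, x))
  set s : E3 → ℝ := fun x => max (u x - u (rf e t x)) 0 with hs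
  have hsc : Continuous s := (hu.continuous.sub (hu.continuous.comp hcr)).max continuous_const
  have hs0 : ∀ x, 0 ≤ s x := fun x => le_max_right _ _
  have key := pl_zero he (t := t) hsc hs0 ?_ ?_ C0_pos (half_pos hδ) ?_
  · intro x hx
    have h3 := key x hx
    have h4 : u x - u (rf e t x) ≤ s x := le_max_left _ _
    linarith
  · intro x hx
    simp only [hs, rf_of_inner_eq hx, sub_self, max_self]
  · intro x hx hsx
    have h3 : 0 < u x - u (rf e t x) := by
      by_contra hcon
      push Not at hcon
      have : s x = 0 := max_eq_right hcon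
      linarith
    have hux : 0 < u x := by have := hu.nonneg (rf e t x); linarith
    have hurx : 0 < u (rf e t x) := by
      refine h1 x hx.le ?_
      by_contra hcon
      push Not at hcon
      have := h2 x hx.le hcon
      linarith
    have h4 : HarmonicAt (u - fun x => u (rf e t x)) x :=
      (hu.harmonic x hux).sub (harmonicAt_rf he t (hu.harmonic _ hurx))
    have h5 : s =ᶠ[𝓝 x] (u - fun x => u (rf e t x)) := by
      have h6 : ∀ᶠ y in 𝓝 x, 0 < u y - u (rf e t y) :=
        (hu.continuous.sub (hu.continuous.comp hcr)).continuousAt.eventually (lt_mem_nhds h3)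
      filter_upwards [h6] with y hy
      simp only [hs, Pi.sub_apply]
      exact max_eq_left hy.le
    exact (harmonicAt_congr_nhds h5).2 h4
  · intro R₀
    have hex : ∃ p, u p = 0 ∧ max R₀ (2 * (M + t) / δ) < ‖p‖ := by
      by_contra hcon
      push Not at hcon
      apply hunb
      refine (isBounded_iff_forall_norm_le).2 ⟨max R₀ (2 * (M + t) / δ), ?_⟩
      intro x hx
      exact hcon x hx
    obtain ⟨p, hp, hpn⟩ := hex
    refine ⟨p, (le_max_left _ _).trans hpn.le, ?_, ?_⟩
    · have h3 := hcone p hp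
      have h4 : 2 * (M + t) / δ < ‖p‖ := (le_max_right _ _).trans_lt hpn
      rw [div_lt_iff₀ hδ] at h4
      linarith
    · intro x
      refine max_le ?_ (mul_nonneg C0_pos.le dist_nonneg)
      have h3 := lip hu x hp
      have h4 := hu.nonneg (rf e t x)
      linarith

/-- Nonpositive derivative below the plane. -/
theorem deriv_nonpos_below {u : E3 → ℝ} (hu : IsEntireSolution u) {e : E3} (he : ‖e‖ = 1)
    {T : ℝ} (hT : ∀ t ≤ T, PP u e t) {x : E3} (hx : inner ℝ x e < T) (hpos : 0 < u x) :
    fderiv ℝ u x e ≤ 0 := by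
  have hd : DifferentiableAt ℝ u x := ((hu.harmonic _ hpos).1).differentiableAt (by norm_num)
  have h3 : HasDerivAt (fun τ : ℝ => x + τ • e) e 0 := by
    simpa using ((hasDerivAt_id (0 : ℝ)).smul_const e).const_add x
  have h4 : HasDerivAt (fun τ : ℝ => u (x + τ • e)) (fderiv ℝ u x e) 0 := by
    have hd' : HasFDerivAt u (fderiv ℝ u x) (x + (0 : ℝ) • e) := by
      simpa using hd.hasFDerivAt
    exact hd'.comp_hasDerivAt (0 : ℝ) h3
  refine le_of_tendsto h4.tendsto_slope_zero_right ?_
  have h5 : Ioo (0 : ℝ) (T - inner ℝ x e) ∈ 𝓝[>] (0 : ℝ) := Ioo_mem_nhdsGT (by linarith)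
  filter_upwards [h5] with s hs
  have h6 := hT (inner ℝ x e + s / 2) (by linarith [hs.1, hs.2]) (x + s • e) (by
    rw [inner_add_left, inner_smul_left, real_inner_self_eq_norm_sq, he]
    simp
    linarith [hs.1])
  have h7 : rf e (inner ℝ x e + s / 2) (x + s • e) = x := by
    rw [rf, inner_add_left, inner_smul_left, real_inner_self_eq_norm_sq, he]
    simp only [conj_trivial, one_pow, mul_one]
    module
  rw [h7] at h6
  rw [zero_add, zero_smul, add_zero, smul_eq_mul]
  exact mul_nonpos_of_nonneg_of_nonpos (inv_nonneg.2 hs.1.le) (by linarith)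

/-- Contradiction at a limit point of bad points. -/
theorem moving_limit {u : E3 → ℝ} (hu : IsEntireSolution u) {e : E3} (he : ‖e‖ = 1) {T : ℝ}
    (hT : ∀ t ≤ T, PP u e t) (hst : ∀ x, T < inner ℝ x e → 0 < u x → u x < u (rf e T x))
    {y : E3} (hyT : T ≤ inner ℝ y e) {t : ℕ → ℝ} {x : ℕ → E3}
    (ht : Tendsto t atTop (𝓝 T)) (hx : Tendsto x atTop (𝓝 y))
    (hxt : ∀ n, t n ≤ inner ℝ (x n) e) (hbad : ∀ n, u (rf e (t n) (x n)) < u (x n)) : False := by
  have hTT := hT T le_rfl
  have hrfy : Tendsto (fun n => rf e (t n) (x n)) atTop (𝓝 (rf e T y)) := by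
    have h1 := (continuous_rf e).continuousAt (x := (T, y)).tendsto
    exact h1.comp (ht.prodMk_nhds hx)
  have hle : u (rf e T y) ≤ u y := by
    refine le_of_tendsto_of_tendsto ((hu.continuous.tendsto _).comp hrfy)
      ((hu.continuous.tendsto _).comp hx) (Eventually.of_forall fun n => (hbad n).le)
  have heq : u y = u (rf e T y) := le_antisymm (hTT y hyT) hle
  have hxpos : ∀ n, 0 < u (x n) := fun n => (hu.nonneg _).trans_lt (hbad n)
  have hyfr : ∀ {z : ℕ → E3}, Tendsto z atTop (𝓝 y) → (∀ n, 0 < u (z n)) → u y = 0 →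
      y ∈ frontier {x | 0 < u x} := by
    intro z hz hzp hy0
    rw [(isOpen_pos hu).frontier_eq]
    refine ⟨mem_closure_of_tendsto hz (Eventually.of_forall hzp), fun h => ?_⟩
    have : 0 < u y := h
    linarith
  rcases hyT.lt_or_eq with hlt | hTeq
  · -- above the plane
    rcases (hu.nonneg y).eq_or_lt with hy0 | hypos
    · have hyF := hyfr hx hxpos hy0.symm
      obtain ⟨ν, ρ, g, hρ, hs, -⟩ := exists_side hu hyF hx hxpos
        (r₀ := (inner ℝ y e - T) / 2) (by linarith)
      refine no_touch hu he hTT hst hs ?_ (by rw [← heq, ← hy0])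
      intro v hv
      have h1 : dist v y < 2 * ρ := by
        have h2 := dist_triangle v (y + ρ • ν) y
        rw [mem_ball] at hv
        have h3 : dist (y + ρ • ν) y = ρ := by
          rw [dist_eq_norm, add_sub_cancel_left, norm_smul, hs.norm_nu,
            Real.norm_of_nonneg hs.rho_pos.le, mul_one]
        linarith
      have h2 : |inner ℝ (v - y) e| ≤ dist v y := by
        have := abs_real_inner_le_norm (v - y) e
        rwa [he, mul_one, ← dist_eq_norm] at this
      rw [inner_sub_left] at h2
      have h3 := (abs_le.1 h2).1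
      linarith
    · have := hst y hlt hypos
      linarith
  · -- on the plane
    have hrf : rf e T y = y := rf_of_inner_eq hTeq.symm
    rw [hrf] at hrfy
    have hseg : ∀ n, ∃ z, 0 < u z ∧ 0 < fderiv ℝ u z e ∧
        dist z y ≤ dist (rf e (t n) (x n)) y + 2 * (inner ℝ (x n) e - t n) := by
      intro n
      set s : ℝ := 2 * (inner ℝ (x n) e - t n) with hs
      have hxs : x n = rf e (t n) (x n) + s • e := by
        rw [rf, hs]; module
      have hs0 : 0 ≤ s := by have := hxt n; rw [hs]; linarith
      have hs1 : 0 < s := by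
        rcases hs0.lt_or_eq with h | h
        · exact h
        · exfalso
          rw [← h, zero_smul, add_zero] at hxs
          have := hbad n
          rw [← hxs] at this
          exact lt_irrefl _ this
      have hb := hbad n
      have hb' : u (rf e (t n) (x n)) < u (rf e (t n) (x n) + s • e) := by
        rwa [← hxs]
      obtain ⟨τ, hτ, h1, h2⟩ := exists_deriv_pos hu hs1 hb'
      refine ⟨_, h1, h2, ?_⟩
      refine (dist_triangle _ (rf e (t n) (x n)) y).trans ?_
      have h3 : dist (rf e (t n) (x n) + τ • e) (rf e (t n) (x n)) = τ := by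
        rw [dist_eq_norm, add_sub_cancel_left, norm_smul, he, Real.norm_of_nonneg hτ.1.le, mul_one]
      rw [h3]
      linarith [hτ.2]
    choose z hz1 hz2 hz3 using hseg
    have hz : Tendsto z atTop (𝓝 y) := by
      rw [tendsto_iff_dist_tendsto_zero]
      refine squeeze_zero (fun n => dist_nonneg) hz3 ?_
      have h1 : Tendsto (fun n => dist (rf e (t n) (x n)) y) atTop (𝓝 0) :=
        tendsto_iff_dist_tendsto_zero.1 hrfy
      have h2 : Tendsto (fun n => inner ℝ (x n) e) atTop (𝓝 (inner ℝ y e)) := by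
        have : Continuous fun v : E3 => inner ℝ v e := by fun_prop
        exact (this.tendsto y).comp hx
      have h3 := h1.add ((h2.sub ht).const_mul 2)
      rw [← hTeq, sub_self, mul_zero, add_zero] at h3
      exact h3
    rcases (hu.nonneg y).eq_or_lt with hy0 | hypos
    · have hyF := hyfr hz hz1 hy0.symm
      obtain ⟨ν, ρ, g, -, hs, hfreq⟩ := exists_side hu hyF hz hz1 (r₀ := 1) one_pos
      have hgc : ContinuousAt (fun v => fderiv ℝ g v e) y := by
        have h1 : ContDiffAt ℝ 1 (fderiv ℝ g) y :=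
          (hs.smooth.of_le (by norm_cast)).fderiv_right (m := 1) (n := 2) (by norm_num)
        exact (h1.continuousAt).clm_apply continuousAt_const
      have hnu0 : 0 ≤ inner ℝ ν e := by
        rw [← hs.grad e]
        have h1 : Tendsto (fun n => fderiv ℝ g (z n) e) atTop (𝓝 (fderiv ℝ g y e)) :=
          hgc.tendsto.comp hz
        by_contra hcon
        push Not at hcon
        have h2 := h1.eventually (gt_mem_nhds hcon)
        obtain ⟨n, ⟨h3, -⟩, h4⟩ := (hfreq.and_eventually h2).exists
        have h5 := hz2 n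
        rw [h3.fderiv_eq] at h5
        linarith
      rcases hnu0.lt_or_eq with hnupos | hnu
      · by_cases hν1 : inner ℝ ν e < 1
        · -- the direction `ν - e`
          set c : ℝ := inner ℝ ν e with hc
          have hvn : ‖ν - e‖ ^ 2 = 2 * (1 - c) := by
            rw [norm_sub_sq_real, hs.norm_nu, he, ← hc]; ring
          have hρ := hs.rho_pos
          have hball : ∀ s : ℝ, 0 < s → s < ρ → y + s • (ν - e) ∈ ball (y + ρ • ν) ρ := by
            intro s hs0 hsρ
            rw [mem_ball, dist_eq_norm]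
            have h1 : y + s • (ν - e) - (y + ρ • ν) = s • (ν - e) - ρ • ν := by abel
            rw [h1]
            have h2 : ‖s • (ν - e) - ρ • ν‖ ^ 2 < ρ ^ 2 := by
              rw [norm_sub_sq_real, norm_smul, norm_smul, mul_pow, mul_pow, hvn, hs.norm_nu,
                inner_smul_left, inner_smul_right, inner_sub_left,
                real_inner_self_eq_norm_sq, hs.norm_nu, real_inner_comm ν e, ← hc,
                Real.norm_eq_abs, Real.norm_eq_abs, sq_abs, sq_abs]
              simp only [conj_trivial]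
              have h3 : 0 < s * (1 - c) := mul_pos hs0 (by linarith)
              nlinarith
            exact lt_of_pow_lt_pow_left₀ 2 hρ.le h2
          have htend : Tendsto (fun s : ℝ => y + s • (ν - e)) (𝓝[>] 0) (𝓝 y) := by
            have h1 : Continuous fun s : ℝ => y + s • (ν - e) := by fun_prop
            have h2 := h1.tendsto 0
            simp only [zero_smul, add_zero] at h2
            exact h2.mono_left nhdsWithin_le_nhds
          have h1 := (hgc.tendsto.comp htend).eventually (lt_mem_nhds (a := 0) (by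
            rw [hs.grad e]; exact hnupos))
          have h2 : Ioo (0 : ℝ) ρ ∈ 𝓝[>] (0 : ℝ) := Ioo_mem_nhdsGT hρ
          obtain ⟨s, h3, h4⟩ := (h1.and h2).exists
          have h5 := hball s h4.1 h4.2
          have h6 : u =ᶠ[𝓝 (y + s • (ν - e))] g := by
            filter_upwards [isOpen_ball.mem_nhds h5] with v hv using hs.eq v hv
          have h7 : inner ℝ (y + s • (ν - e)) e < T := by
            rw [inner_add_left, inner_smul_left, inner_sub_left, real_inner_self_eq_norm_sq, he,
              ← hc, ← hTeq]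
            simp only [conj_trivial]
            nlinarith [h4.1]
          have h8 := deriv_nonpos_below hu he hT h7 (hs.pos _ h5)
          rw [h6.fderiv_eq] at h8
          simp only [Function.comp] at h3
          linarith
        · have h1 : inner ℝ ν e = (1 : ℝ) := by
            have h2 := real_inner_le_norm ν e
            rw [hs.norm_nu, he] at h2
            push Not at hν1
            linarith
          have hνe : ν = e := (inner_eq_one_iff_of_norm_eq_one hs.norm_nu he).1 h1
          refine no_touch hu he hTT hst hs ?_ (by rw [hrf, ← hy0])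
          intro v hv
          rw [mem_ball, dist_eq_norm, hνe] at hv
          have h2 := abs_real_inner_le_norm (v - (y + ρ • e)) e
          rw [he, mul_one, inner_sub_left, inner_add_left, inner_smul_left,
            real_inner_self_eq_norm_sq, he, ← hTeq] at h2
          simp only [conj_trivial, one_pow, mul_one] at h2
          have h3 := (abs_le.1 h2).1
          linarith
      · exact no_corner hu he hTT hst hs hTeq.symm hnu.symm
    · have h1 := deriv_neg_plane hu he hst hTeq.symm hypos
      have hcd : ContinuousAt (fun v => fderiv ℝ u v e) y := by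
        have h1 : ContDiffAt ℝ 1 (fderiv ℝ u) y :=
          (hu.harmonic y hypos).1.fderiv_right (m := 1) (by norm_num)
        exact (h1.continuousAt).clm_apply continuousAt_const
      have h2 : 0 ≤ fderiv ℝ u y e :=
        ge_of_tendsto (hcd.tendsto.comp hz) (Eventually.of_forall fun n => (hz2 n).le)
      linarith

theorem moving_open {u : E3 → ℝ} (hu : IsEntireSolution u) (hΩ : IsPreconnected {x | 0 < u x})
    (hunb : ¬ Bornology.IsBounded {x | u x = 0}) {e : E3} (he : ‖e‖ = 1) {δ M : ℝ}
    (hδ : 0 < δ) (hcone : ∀ x, u x = 0 → δ * ‖x‖ - M ≤ inner ℝ x e) {T : ℝ}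
    (hT : ∀ t ≤ T, PP u e t) : ∃ ε > 0, ∀ t ∈ Icc T (T + ε), PP u e t := by
  by_contra hcon
  push Not at hcon
  have hTT := hT T le_rfl
  -- strictness
  have hex : ∀ R : ℝ, ∃ p, u p = 0 ∧ R < ‖p‖ := by
    intro R
    by_contra hcon
    push Not at hcon
    exact hunb ((isBounded_iff_forall_norm_le).2 ⟨R, fun x hx => hcon x hx⟩)
  have hst : ∀ x, T < inner ℝ x e → 0 < u x → u x < u (rf e T x) := by
    refine pp_strict hu hΩ he hTT ?_
    obtain ⟨p, hp, hpn⟩ := hex ((2 * T + 2 * M) / δ)
    refine ⟨p, hp, pos_of_ne hu fun h => ?_⟩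
    have h1 := hcone _ h
    rw [inner_rf he] at h1
    have h2 : 0 ≤ δ * ‖rf e T p‖ := by positivity
    have h3 := hcone p hp
    rw [div_lt_iff₀ hδ] at hpn
    linarith
  -- the radius
  set R₁ : ℝ := |(M + T + 1) / δ| + 2 * (|T| + 1) with hR₁
  have hfar : ∀ t ∈ Icc T (T + 1), ∀ x, t ≤ inner ℝ x e → R₁ < ‖x‖ → 0 < u (rf e t x) := by
    intro t ht x hx hxR
    refine pos_of_ne hu fun h => ?_
    have h1 := hcone _ h
    rw [inner_rf he] at h1
    have h2 : ‖rf e t x‖ ≤ (M + T + 1) / δ := by
      rw [le_div_iff₀ hδ]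
      have := ht.2
      linarith
    have h3 : ‖x - t • e‖ = ‖rf e t x - t • e‖ := by
      have h4 := dist_rf he t x (t • e)
      have h5 : rf e t (t • e) = t • e := by
        apply rf_of_inner_eq
        rw [inner_smul_left, real_inner_self_eq_norm_sq, he]; simp
      rw [h5, dist_eq_norm, dist_eq_norm] at h4
      exact h4.symm
    have h4 : ‖t • e‖ ≤ |T| + 1 := by
      rw [norm_smul, he, mul_one, Real.norm_eq_abs, abs_le]
      constructor
      · have := neg_abs_le T; linarith [ht.1]
      · have := le_abs_self T; linarith [ht.2]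
    have h5 : ‖x‖ ≤ ‖x - t • e‖ + ‖t • e‖ := by
      have := norm_add_le (x - t • e) (t • e); rwa [sub_add_cancel] at this
    have h6 : ‖rf e t x - t • e‖ ≤ ‖rf e t x‖ + ‖t • e‖ := norm_sub_le _ _
    have h7 := le_abs_self ((M + T + 1) / δ)
    linarith
  -- the bad sequences
  have hbad : ∀ n : ℕ, ∃ t ∈ Icc T (T + 1 / (n + 1)), ∃ x, t ≤ inner ℝ x e ∧ ‖x‖ ≤ R₁ ∧
      u (rf e t x) < u x := by
    intro n
    obtain ⟨t, ht, hnot⟩ := hcon (1 / ((n : ℝ) + 1)) (by positivity)
    refine ⟨t, ht, ?_⟩
    by_contra hno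
    push Not at hno
    apply hnot
    have h1 : (1 : ℝ) / (n + 1) ≤ 1 := by
      rw [div_le_one (by positivity)]
      have : (0 : ℝ) ≤ n := by positivity
      linarith
    exact pp_of_compact hu hunb he hδ hcone
      (hfar t ⟨ht.1, ht.2.trans (by linarith)⟩) (fun x hx hxR => hno x hx hxR)
  choose t ht x hx hxR hlt using hbad
  obtain ⟨y, -, φ, hφ, hy⟩ := (isCompact_closedBall (0 : E3) R₁).tendsto_subseq
    (fun n => mem_closedBall_zero_iff.2 (hxR n))
  have htT : Tendsto t atTop (𝓝 T) := by
    have h1 : Tendsto (fun n : ℕ => T + 1 / ((n : ℝ) + 1)) atTop (𝓝 (T + 0)) :=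
      tendsto_const_nhds.add tendsto_one_div_add_atTop_nhds_zero_nat
    rw [add_zero] at h1
    exact tendsto_of_tendsto_of_tendsto_of_le_of_le tendsto_const_nhds h1
      (fun n => (ht n).1) (fun n => (ht n).2)
  have hyT : T ≤ inner ℝ y e := by
    have hc : Continuous fun v : E3 => inner ℝ v e := by fun_prop
    exact le_of_tendsto_of_tendsto (htT.comp hφ.tendsto_atTop) ((hc.tendsto y).comp hy)
      (Eventually.of_forall fun n => hx (φ n))
  exact moving_limit hu he hT hst hyT (htT.comp hφ.tendsto_atTop) hy (fun n => hx (φ n))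
    (fun n => hlt (φ n))

/-- If the zero phase is unbounded and lies in a cone `⟪x, e⟫ ≥ δ ‖x‖ - M`, then `u` is
nonincreasing in the direction `e`. -/
theorem moving {u : E3 → ℝ} (hu : IsEntireSolution u) (hΩ : IsPreconnected {x | 0 < u x})
    (hunb : ¬ Bornology.IsBounded {x | u x = 0}) {e : E3} (he : ‖e‖ = 1) {δ M : ℝ}
    (hδ : 0 < δ) (hcone : ∀ x, u x = 0 → δ * ‖x‖ - M ≤ inner ℝ x e) :
    ∀ (x : E3) (s : ℝ), 0 ≤ s → u (x + s • e) ≤ u x := by
  have hall : ∀ t, PP u e t := by
    set S : Set ℝ := {t | ∀ t' ≤ t, PP u e t'} with hS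
    have hstart : (-M - 1) ∈ S := by
      intro t' ht'
      refine pp_of_compact hu hunb he hδ hcone (R₁ := -1) ?_ ?_
      · intro x hx _
        refine pos_of_ne hu fun h => ?_
        have h1 := hcone _ h
        rw [inner_rf he] at h1
        have h2 : 0 ≤ δ * ‖rf e t' x‖ := by positivity
        linarith
      · intro x _ hx
        have := norm_nonneg x
        linarith
    by_contra hcon
    push Not at hcon
    obtain ⟨t₀, ht₀⟩ := hcon
    have hbdd : BddAbove S := by
      refine ⟨t₀, fun t ht => ?_⟩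
      by_contra h
      push Not at h
      exact ht₀ (ht t₀ h.le)
    set T := sSup S with hTdef
    have hlt : ∀ t < T, PP u e t := by
      intro t ht
      obtain ⟨t', ht', htt'⟩ := exists_lt_of_lt_csSup ⟨_, hstart⟩ ht
      exact ht' t htt'.le
    have hT : ∀ t ≤ T, PP u e t := by
      intro t ht
      rcases ht.lt_or_eq with h | h
      · exact hlt t h
      · rw [h]; exact pp_closed hu hlt
    obtain ⟨ε, hε, hopen⟩ := moving_open hu hΩ hunb he hδ hcone hT
    have hmem : T + ε ∈ S := by
      intro t ht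
      rcases le_total t T with h | h
      · exact hT t h
      · exact hopen t ⟨h, ht⟩
    have := le_csSup hbdd hmem
    linarith
  intro x s hs
  have h1 := hall (inner ℝ x e + s / 2) (x + s • e) (by
    rw [inner_add_left, inner_smul_left, real_inner_self_eq_norm_sq, he]
    simp
    linarith)
  have h2 : rf e (inner ℝ x e + s / 2) (x + s • e) = x := by
    rw [rf, inner_add_left, inner_smul_left, real_inner_self_eq_norm_sq, he]
    simp only [conj_trivial, one_pow, mul_one]
    module
  rwa [h2] at h1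

end FB75
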