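import Pool.Agent.FB75.Moving

/-!
# Moving planes for solutions invariant along a subspace, zero phase in a wedge
-/

open MeasureTheory Metric Set Filter Topology InnerProductSpace Laplacian
open scoped ContDiff

namespace FB75

/-- `P` is an orthogonal projection and `u` is invariant along its kernel. -/
structure InvProj (u : E3 → ℝ) (P : E3 →L[ℝ] E3) : Prop where
  idem : ∀ x, P (P x) = P x
  symm : ∀ x y, inner ℝ (P x) y = inner ℝ x (P y)
  inv : ∀ x, u (P x) = u x

theorem InvProj.norm_le {u : E3 → ℝ} {P : E3 →L[ℝ] E3} (h : InvProj u P) (x : E3) :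
    ‖P x‖ ≤ ‖x‖ := by
  have h1 : ‖P x‖ ^ 2 ≤ ‖x‖ * ‖P x‖ := by
    rw [← real_inner_self_eq_norm_sq, h.symm, h.idem]
    exact real_inner_le_norm _ _
  rcases (norm_nonneg (P x)).eq_or_lt with h2 | h2
  · rw [← h2]; exact norm_nonneg x
  · rw [sq] at h1
    exact le_of_mul_le_mul_right h1 h2

theorem InvProj.inner_eq {u : E3 → ℝ} {P : E3 →L[ℝ] E3} (h : InvProj u P) {e : E3}
    (hPe : P e = e) (x : E3) : inner ℝ (P x) e = inner ℝ x e := by
  rw [h.symm, hPe]

theorem InvProj.rf_eq {u : E3 → ℝ} {P : E3 →L[ℝ] E3} (h : InvProj u P) {e : E3}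
    (hPe : P e = e) (t : ℝ) (x : E3) : P (rf e t x) = rf e t (P x) := by
  rw [rf, rf, map_add, map_smul, hPe, h.inner_eq hPe]

theorem InvProj.u_rf {u : E3 → ℝ} {P : E3 →L[ℝ] E3} (h : InvProj u P) {e : E3}
    (hPe : P e = e) (t : ℝ) (x : E3) : u (rf e t (P x)) = u (rf e t x) := by
  rw [← h.rf_eq hPe, h.inv]

/-- The comparison principle at infinity. -/
theorem pp_of_compact_P {u : E3 → ℝ} (hu : IsEntireSolution u) {P : E3 →L[ℝ] E3}
    (hP : InvProj u P) (hunb : ∀ R : ℝ, ∃ p, u p = 0 ∧ R < ‖P p‖) {e : E3} (he : ‖e‖ = 1)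
    (hPe : P e = e) {δ M : ℝ}
    (hδ : 0 < δ) (hcone : ∀ x, u x = 0 → δ * ‖P x‖ - M ≤ inner ℝ x e) {t R₁ : ℝ}
    (h1 : ∀ x, t ≤ inner ℝ x e → R₁ < ‖P x‖ → 0 < u (rf e t x))
    (h2 : ∀ x, t ≤ inner ℝ x e → ‖P x‖ ≤ R₁ → u x ≤ u (rf e t x)) : PP u e t := by
  have hcr : Continuous (rf e t) := (continuous_rf e).comp (by fun_prop : Continuous fun x : E3 => (t, x))
  set s : E3 → ℝ := fun x => max (u x - u (rf e t x)) 0 with hs
  have hsc : Continuous s := (hu.continuous.sub (hu.continuous.comp hcr)).max continuous_const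
  have hs0 : ∀ x, 0 ≤ s x := fun x => le_max_right _ _
  have key := pl_zero he (t := t) hsc hs0 ?_ ?_ C0_pos (half_pos hδ) ?_
  · intro x hx
    have h3 := key x hx
    have h4 : u x - u (rf e t x) ≤ s x := le_max_left _ _
    linarith
  · intro x hx
    simp only [hs, rf_of_inner_eq hx, sub_self, max_self]
  · intro x hx hsx
    have h3 : 0 < u x - u (rf e t x) := by
      by_contra hcon
      push Not at hcon
      have : s x = 0 := max_eq_right hcon
      linarith
    have hux : 0 < u x := by have := hu.nonneg (rf e t x); linarith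
    have hurx : 0 < u (rf e t x) := by
      refine h1 x hx.le ?_
      by_contra hcon
      push Not at hcon
      have := h2 x hx.le hcon
      linarith
    have h4 : HarmonicAt (u - fun x => u (rf e t x)) x :=
      (hu.harmonic x hux).sub (harmonicAt_rf he t (hu.harmonic _ hurx))
    have h5 : s =ᶠ[𝓝 x] (u - fun x => u (rf e t x)) := by
      have h6 : ∀ᶠ y in 𝓝 x, 0 < u y - u (rf e t y) :=
        (hu.continuous.sub (hu.continuous.comp hcr)).continuousAt.eventually (lt_mem_nhds h3)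
      filter_upwards [h6] with y hy
      simp only [hs, Pi.sub_apply]
      exact max_eq_left hy.le
    exact (harmonicAt_congr_nhds h5).2 h4
  · intro R₀
    obtain ⟨p, hp, hpn⟩ := hunb (max R₀ (2 * (M + t) / δ))
    have hPp : u (P p) = 0 := by rw [hP.inv, hp]
    refine ⟨P p, (le_max_left _ _).trans hpn.le, ?_, ?_⟩
    · have h3 := hcone _ hPp
      rw [hP.idem] at h3
      have h4 : 2 * (M + t) / δ < ‖P p‖ := (le_max_right _ _).trans_lt hpn
      rw [div_lt_iff₀ hδ] at h4
      linarith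
    · intro x
      refine max_le ?_ (mul_nonneg C0_pos.le dist_nonneg)
      have h3 := lip hu x hPp
      have h4 := hu.nonneg (rf e t x)
      linarith

theorem moving_open_P {u : E3 → ℝ} (hu : IsEntireSolution u) (hΩ : IsPreconnected {x | 0 < u x})
    {P : E3 →L[ℝ] E3}
    (hP : InvProj u P) (hunb : ∀ R : ℝ, ∃ p, u p = 0 ∧ R < ‖P p‖) {e : E3} (he : ‖e‖ = 1)
    (hPe : P e = e) {δ M : ℝ}
    (hδ : 0 < δ) (hcone : ∀ x, u x = 0 → δ * ‖P x‖ - M ≤ inner ℝ x e) {T : ℝ}
    (hT : ∀ t ≤ T, PP u e t) : ∃ ε > 0, ∀ t ∈ Icc T (T + ε), PP u e t := by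
  by_contra hcon
  push Not at hcon
  have hTT := hT T le_rfl
  -- strictness
  have hst : ∀ x, T < inner ℝ x e → 0 < u x → u x < u (rf e T x) := by
    refine pp_strict hu hΩ he hTT ?_
    obtain ⟨p, hp, hpn⟩ := hunb ((2 * T + 2 * M) / δ)
    refine ⟨p, hp, pos_of_ne hu fun h => ?_⟩
    have h1 := hcone _ h
    rw [inner_rf he] at h1
    have h2 : 0 ≤ δ * ‖P (rf e T p)‖ := by positivity
    have h3 := hcone p hp
    rw [div_lt_iff₀ hδ] at hpn
    linarith
  -- the radius
  set R₁ : ℝ := |(M + T + 1) / δ| + 2 * (|T| + 1) with hR₁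
  have hfar : ∀ t ∈ Icc T (T + 1), ∀ x, t ≤ inner ℝ x e → R₁ < ‖P x‖ → 0 < u (rf e t x) := by
    intro t ht x hx hxR
    refine pos_of_ne hu fun h => ?_
    have h1 := hcone _ h
    rw [inner_rf he, hP.rf_eq hPe] at h1
    have h2 : ‖rf e t (P x)‖ ≤ (M + T + 1) / δ := by
      rw [le_div_iff₀ hδ]
      have := ht.2
      linarith
    have h3 : ‖P x - t • e‖ = ‖rf e t (P x) - t • e‖ := by
      have h4 := dist_rf he t (P x) (t • e)
      have h5 : rf e t (t • e) = t • e := by
        apply rf_of_inner_eq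
        rw [inner_smul_left, real_inner_self_eq_norm_sq, he]; simp
      rw [h5, dist_eq_norm, dist_eq_norm] at h4
      exact h4.symm
    have h4 : ‖t • e‖ ≤ |T| + 1 := by
      rw [norm_smul, he, mul_one, Real.norm_eq_abs, abs_le]
      constructor
      · have := neg_abs_le T; linarith [ht.1]
      · have := le_abs_self T; linarith [ht.2]
    have h5 : ‖P x‖ ≤ ‖P x - t • e‖ + ‖t • e‖ := by
      have := norm_add_le (P x - t • e) (t • e); rwa [sub_add_cancel] at this
    have h6 : ‖rf e t (P x) - t • e‖ ≤ ‖rf e t (P x)‖ + ‖t • e‖ := norm_sub_le _ _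
    have h7 := le_abs_self ((M + T + 1) / δ)
    linarith
  -- the bad sequences
  have hbad : ∀ n : ℕ, ∃ t ∈ Icc T (T + 1 / (n + 1)), ∃ x, t ≤ inner ℝ x e ∧ ‖x‖ ≤ R₁ ∧
      u (rf e t x) < u x := by
    intro n
    obtain ⟨t, ht, hnot⟩ := hcon (1 / ((n : ℝ) + 1)) (by positivity)
    refine ⟨t, ht, ?_⟩
    by_contra hno
    push Not at hno
    apply hnot
    have h1 : (1 : ℝ) / (n + 1) ≤ 1 := by
      rw [div_le_one (by positivity)]
      have : (0 : ℝ) ≤ n := by positivity
      linarith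
    refine pp_of_compact_P hu hP hunb he hPe hδ hcone
      (hfar t ⟨ht.1, ht.2.trans (by linarith)⟩) (fun x hx hxR => ?_)
    have h2 := hno (P x) (by rw [hP.inner_eq hPe]; exact hx) hxR
    rwa [hP.u_rf hPe, hP.inv] at h2
  choose t ht x hx hxR hlt using hbad
  obtain ⟨y, -, φ, hφ, hy⟩ := (isCompact_closedBall (0 : E3) R₁).tendsto_subseq
    (fun n => mem_closedBall_zero_iff.2 (hxR n))
  have htT : Tendsto t atTop (𝓝 T) := by
    have h1 : Tendsto (fun n : ℕ => T + 1 / ((n : ℝ) + 1)) atTop (𝓝 (T + 0)) :=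
      tendsto_const_nhds.add tendsto_one_div_add_atTop_nhds_zero_nat
    rw [add_zero] at h1
    exact tendsto_of_tendsto_of_tendsto_of_le_of_le tendsto_const_nhds h1
      (fun n => (ht n).1) (fun n => (ht n).2)
  have hyT : T ≤ inner ℝ y e := by
    have hc : Continuous fun v : E3 => inner ℝ v e := by fun_prop
    exact le_of_tendsto_of_tendsto (htT.comp hφ.tendsto_atTop) ((hc.tendsto y).comp hy)
      (Eventually.of_forall fun n => hx (φ n))
  exact moving_limit hu he hT hst hyT (htT.comp hφ.tendsto_atTop) hy (fun n => hx (φ n))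
    (fun n => hlt (φ n))

theorem moving_P {u : E3 → ℝ} (hu : IsEntireSolution u) (hΩ : IsPreconnected {x | 0 < u x})
    {P : E3 →L[ℝ] E3}
    (hP : InvProj u P) (hunb : ∀ R : ℝ, ∃ p, u p = 0 ∧ R < ‖P p‖) {e : E3} (he : ‖e‖ = 1)
    (hPe : P e = e) {δ M : ℝ}
    (hδ : 0 < δ) (hcone : ∀ x, u x = 0 → δ * ‖P x‖ - M ≤ inner ℝ x e) :
    ∀ (x : E3) (s : ℝ), 0 ≤ s → u (x + s • e) ≤ u x := by
  have hall : ∀ t, PP u e t := by
    set S : Set ℝ := {t | ∀ t' ≤ t, PP u e t'} with hS
    have hstart : (-M - 1) ∈ S := by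
      intro t' ht'
      refine pp_of_compact_P hu hP hunb he hPe hδ hcone (R₁ := -1) ?_ ?_
      · intro x hx _
        refine pos_of_ne hu fun h => ?_
        have h1 := hcone _ h
        rw [inner_rf he] at h1
        have h2 : 0 ≤ δ * ‖P (rf e t' x)‖ := by positivity
        linarith
      · intro x _ hx
        have := norm_nonneg (P x)
        linarith
    by_contra hcon
    push Not at hcon
    obtain ⟨t₀, ht₀⟩ := hcon
    have hbdd : BddAbove S := by
      refine ⟨t₀, fun t ht => ?_⟩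
      by_contra h
      push Not at h
      exact ht₀ (ht t₀ h.le)
    set T := sSup S with hTdef
    have hlt : ∀ t < T, PP u e t := by
      intro t ht
      obtain ⟨t', ht', htt'⟩ := exists_lt_of_lt_csSup ⟨_, hstart⟩ ht
      exact ht' t htt'.le
    have hT : ∀ t ≤ T, PP u e t := by
      intro t ht
      rcases ht.lt_or_eq with h | h
      · exact hlt t h
      · rw [h]; exact pp_closed hu hlt
    obtain ⟨ε, hε, hopen⟩ := moving_open_P hu hΩ hP hunb he hPe hδ hcone hT
    have hmem : T + ε ∈ S := by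
      intro t ht
      rcases le_total t T with h | h
      · exact hT t h
      · exact hopen t ⟨h, ht⟩
    have := le_csSup hbdd hmem
    linarith
  intro x s hs
  have h1 := hall (inner ℝ x e + s / 2) (x + s • e) (by
    rw [inner_add_left, inner_smul_left, real_inner_self_eq_norm_sq, he]
    simp
    linarith)
  have h2 : rf e (inner ℝ x e + s / 2) (x + s • e) = x := by
    rw [rf, inner_add_left, inner_smul_left, real_inner_self_eq_norm_sq, he]
    simp only [conj_trivial, one_pow, mul_one]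
    module
  rwa [h2] at h1

end FB75
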