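import Mathlib

/-!
# A separation lemma in the closed upper half-plane
-/

open Metric Set Filter Topology

namespace FB75

open Complex ComplexConjugate unitInterval in
/-- The product `(P t - w) (P t - conj w)` lifts to the logarithm; the lift has constant final
imaginary part on `E`. Comparison with an explicit logarithm at two points. -/
private theorem planar_lift {P : ℝ → ℂ} (hP : ContinuousOn P (Icc 0 1))
    (him : ∀ t ∈ Icc (0 : ℝ) 1, 0 ≤ (P t).im) {a c : ℝ} (ha : P 0 = a) (hc : P 1 = c)
    {E : Set ℂ} (hE : IsPreconnected E)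
    (hEim : ∀ w ∈ E, 0 ≤ w.im) (hPE : ∀ t ∈ Icc (0 : ℝ) 1, P t ∉ E) :
    ∃ κ : ℝ, ∀ w ∈ E, ∀ lam : C(I, ℂ),
      (∀ t : I, exp (lam t) = (P t - w) * (P t - conj w)) →
      (lam 1).im - (lam 0).im = κ := by
  have h0 : (0 : ℝ) ∈ Icc (0 : ℝ) 1 := ⟨le_refl _, zero_le_one⟩
  have h1 : (1 : ℝ) ∈ Icc (0 : ℝ) 1 := ⟨zero_le_one, le_refl _⟩
  have hG : ∀ t ∈ Icc (0 : ℝ) 1, ∀ w ∈ E, (P t - w) * (P t - conj w) ≠ 0 := by
    intro t ht w hw h
    rcases mul_eq_zero.mp h with h1 | h1
    · exact hPE t ht (by rw [sub_eq_zero.mp h1]; exact hw)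
    · have h2 : P t = conj w := sub_eq_zero.mp h1
      have h3 : (P t).im = - w.im := by rw [h2, Complex.conj_im]
      have h4 := him t ht
      have h5 := hEim w hw
      have h6 : w.im = 0 := by linarith
      have h7 : conj w = w := Complex.conj_eq_iff_im.mpr h6
      exact hPE t ht (by rw [h2, h7]; exact hw)
  have hPc : Continuous (fun t : I => P t) := continuousOn_iff_continuous_domRestrict.mp hP
  let H : C(I × E, {z : ℂ // z ≠ 0}) :=
    ⟨fun q => ⟨(P q.1 - q.2) * (P q.1 - conj (q.2 : ℂ)), hG _ q.1.2 _ q.2.2⟩, by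
      refine Continuous.subtype_mk ?_ _
      have e1 : Continuous (fun q : I × E => P q.1) := hPc.comp continuous_fst
      have e2 : Continuous (fun q : I × E => (q.2 : ℂ)) :=
        continuous_subtype_val.comp continuous_snd
      exact (e1.sub e2).mul (e1.sub (Complex.continuous_conj.comp e2))⟩
  have hns : ∀ w ∈ E, ∀ x : ℝ, (x : ℂ) ∉ E → Complex.normSq (x - w) ≠ 0 := by
    intro w hw x hx h
    rw [Complex.normSq_eq_zero, sub_eq_zero] at h
    exact hx (h ▸ hw)
  have haE : (a : ℂ) ∉ E := ha ▸ hPE 0 h0
  have hcE : (c : ℂ) ∉ E := hc ▸ hPE 1 h1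
  have hprod : ∀ (x : ℝ) (w : ℂ), ((x : ℂ) - w) * ((x : ℂ) - conj w)
      = ((Complex.normSq (x - w) : ℝ) : ℂ) := by
    intro x w
    rw [Complex.normSq_eq_conj_mul_self, map_sub, Complex.conj_ofReal, mul_comm]
  let f : C(E, ℂ) := ⟨fun w => ((Real.log (Complex.normSq ((a : ℂ) - w)) : ℝ) : ℂ), by
    refine Complex.continuous_ofReal.comp (Continuous.log ?_ ?_)
    · exact Complex.continuous_normSq.comp (continuous_const.sub continuous_subtype_val)
    · intro w
      exact hns w w.2 a haE⟩
  have hH0 : ∀ w : E, H (0, w) = (⟨exp (f w), (f w).exp_ne_zero⟩ : {z : ℂ // z ≠ 0}) := by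
    intro w
    apply Subtype.ext
    change (P ((0 : I) : ℝ) - w) * (P ((0 : I) : ℝ) - conj (w : ℂ)) = exp (f w)
    have e0 : P ((0 : I) : ℝ) = a := ha
    rw [e0, hprod]
    change _ = exp (((Real.log (Complex.normSq ((a : ℂ) - w)) : ℝ) : ℂ))
    rw [← Complex.ofReal_exp, Real.exp_log]
    exact lt_of_le_of_ne (Complex.normSq_nonneg _) (Ne.symm (hns w w.2 a haE))
  set L := Complex.isCoveringMap_exp.liftHomotopy H f hH0 with hLdef
  have hL : ∀ (t : I) (w : E), exp (L (t, w)) = (P t - w) * (P t - conj (w : ℂ)) := by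
    intro t w
    have := congr_fun (Complex.isCoveringMap_exp.liftHomotopy_lifts H f hH0) (t, w)
    exact congrArg Subtype.val this
  have hL0 : ∀ w : E, L (0, w) = f w := Complex.isCoveringMap_exp.liftHomotopy_zero H f hH0
  -- final imaginary part
  have hint : ∀ w : E, ∃ n : ℤ, (L (1, w)).im = n * (2 * Real.pi) := by
    intro w
    have e := hL 1 w
    have e1 : P ((1 : I) : ℝ) = c := hc
    rw [e1, hprod] at e
    have hpos : 0 < Complex.normSq ((c : ℂ) - w) :=
      lt_of_le_of_ne (Complex.normSq_nonneg _) (Ne.symm (hns w w.2 c hcE))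
    rw [← Real.exp_log hpos, Complex.ofReal_exp, Complex.exp_eq_exp_iff_exists_int] at e
    obtain ⟨n, hn⟩ := e
    refine ⟨n, ?_⟩
    rw [hn]
    simp
  have hcont : Continuous (fun w : E => (L (1, w)).im) :=
    Complex.continuous_im.comp (L.continuous.comp (Continuous.prodMk_right _))
  have hconst : ∀ w w' : E, (L (1, w)).im = (L (1, w')).im := by
    intro w w'
    have hpre : IsPreconnected (univ : Set E) := by
      have := isPreconnected_iff_preconnectedSpace.mp hE
      exact isPreconnected_univ
    have hdt : DiscreteTopology ((AddSubgroup.zmultiples (2 * Real.pi) : AddSubgroup ℝ) : Set ℝ) :=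
      NormedSpace.discreteTopology_zmultiples _
    refine hpre.constant_of_mapsTo (T := ((AddSubgroup.zmultiples (2 * Real.pi) : AddSubgroup ℝ) :
      Set ℝ)) (f := fun w : E => (L (1, w)).im) (isDiscrete_iff_discreteTopology.mpr hdt)
      hcont.continuousOn ?_ (mem_univ w) (mem_univ w')
    intro v _
    obtain ⟨n, hn⟩ := hint v
    exact AddSubgroup.mem_zmultiples_iff.mpr ⟨n, by
      change _ = (L (1, v)).im
      rw [hn]
      simp⟩
  by_cases hne : E.Nonempty
  · obtain ⟨w0, hw0⟩ := hne
    refine ⟨(L (1, ⟨w0, hw0⟩)).im, ?_⟩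
    intro w hw lam hlam
    -- compare `lam` with the lift
    have hcomp : (fun t : I => lam t - lam 0 + L (0, ⟨w, hw⟩)) = (fun t : I => L (t, ⟨w, hw⟩)) := by
      refine Complex.isCoveringMap_exp.eq_of_comp_eq ?_ ?_ ?_ 0 ?_
      · exact ((lam.continuous.sub continuous_const).add continuous_const)
      · exact L.continuous.comp (Continuous.prodMk_left _)
      · funext t
        apply Subtype.ext
        change exp (lam t - lam 0 + L (0, ⟨w, hw⟩)) = exp (L (t, ⟨w, hw⟩))
        rw [Complex.exp_add, Complex.exp_sub, hlam t, hlam 0, hL 0, hL t]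
        have hne0 := hG _ (0 : I).2 w hw
        rw [div_mul_cancel₀ _ hne0]
      · simp
    have e1 := congr_fun hcomp 1
    have e2 := congrArg Complex.im e1
    simp only [Complex.add_im, Complex.sub_im] at e2
    have e3 : (L (0, ⟨w, hw⟩)).im = 0 := by
      rw [hL0]
      exact Complex.ofReal_im _
    rw [e3, add_zero] at e2
    rw [e2]
    exact hconst _ _
  · refine ⟨0, ?_⟩
    intro w hw
    exact absurd ⟨w, hw⟩ hne

open Complex in
/-- `-i z` lies in the slit plane for `z ≠ 0` in the closed upper half-plane. -/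
private theorem planar_slit {z : ℂ} (hz : 0 ≤ z.im) (h0 : z ≠ 0) : -I * z ∈ slitPlane := by
  rw [Complex.mem_slitPlane_iff]
  have e1 : (-I * z).re = z.im := by simp
  have e2 : (-I * z).im = -z.re := by simp
  rw [e1, e2]
  rcases hz.lt_or_eq with h | h
  · exact Or.inl h
  · right
    intro h2
    exact h0 (Complex.ext (by simpa using h2) h.symm)

open Complex in
private theorem planar_log_pos {x : ℝ} (hx : 0 < x) : (log (-I * x)).im = -(Real.pi / 2) := by
  have e : (-I * (x : ℂ)) = (x : ℂ) * (-I) := by ring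
  rw [Complex.log_im, e, Complex.arg_real_mul _ hx, Complex.arg_neg_I]

open Complex in
private theorem planar_log_neg {x : ℝ} (hx : x < 0) : (log (-I * x)).im = Real.pi / 2 := by
  have e : (-I * (x : ℂ)) = ((-x : ℝ) : ℂ) * I := by push_cast; ring
  rw [Complex.log_im, e, Complex.arg_real_mul _ (neg_pos.mpr hx), Complex.arg_I]

open ComplexConjugate in
/-- A path in the closed upper half-plane with real endpoints `a < c` encloses the real points
between `a` and `c`. -/
theorem planar_enclose {P : ℝ → ℂ} (hP : ContinuousOn P (Icc 0 1))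
    (him : ∀ t ∈ Icc (0 : ℝ) 1, 0 ≤ (P t).im) {a b c : ℝ} (ha : P 0 = a) (hc : P 1 = c)
    (hab : a < b) (hbc : b < c) {E : Set ℂ} (hE : IsPreconnected E)
    (hEim : ∀ w ∈ E, 0 ≤ w.im) (hPE : ∀ t ∈ Icc (0 : ℝ) 1, P t ∉ E) (hb : (b : ℂ) ∈ E) :
    Bornology.IsBounded E ∧ ∀ d : ℝ, (d : ℂ) ∈ E → a < d ∧ d < c := by
  have h0 : (0 : ℝ) ∈ Icc (0 : ℝ) 1 := ⟨le_refl _, zero_le_one⟩
  have h1 : (1 : ℝ) ∈ Icc (0 : ℝ) 1 := ⟨zero_le_one, le_refl _⟩
  have hPc : Continuous (fun t : unitInterval => P t) :=
    continuousOn_iff_continuous_domRestrict.mp hP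
  obtain ⟨κ, hκ⟩ := planar_lift hP him ha hc hE hEim hPE
  have haE : (a : ℂ) ∉ E := ha ▸ hPE 0 h0
  have hcE : (c : ℂ) ∉ E := hc ▸ hPE 1 h1
  have hpi := Real.pi_pos
  -- the explicit logarithm at a real point of `E`
  have hreal : ∀ d : ℝ, (d : ℂ) ∈ E →
      2 * (Complex.log (-Complex.I * ((c - d : ℝ) : ℂ))).im
        - 2 * (Complex.log (-Complex.I * ((a - d : ℝ) : ℂ))).im = κ := by
    intro d hd
    have hne : ∀ t : unitInterval, P t - (d : ℂ) ≠ 0 := by
      intro t h
      exact hPE t t.2 (by rw [sub_eq_zero.mp h]; exact hd)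
    have him' : ∀ t : unitInterval, 0 ≤ (P t - (d : ℂ)).im := by
      intro t
      simpa using him t t.2
    let lam : C(unitInterval, ℂ) :=
      ⟨fun t => 2 * Complex.log (-Complex.I * (P t - d)) + Real.pi * Complex.I, by
        refine Continuous.add (continuous_const.mul ?_) continuous_const
        exact Continuous.clog (continuous_const.mul (hPc.sub continuous_const))
          (fun t => planar_slit (him' t) (hne t))⟩
    have hlam : ∀ t : unitInterval, Complex.exp (lam t) = (P t - d) * (P t - conj (d : ℂ)) := by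
      intro t
      change Complex.exp (2 * Complex.log (-Complex.I * (P t - d)) + Real.pi * Complex.I) = _
      rw [Complex.exp_add, Complex.exp_pi_mul_I, two_mul, Complex.exp_add,
        Complex.exp_log (Complex.slitPlane_ne_zero (planar_slit (him' t) (hne t))),
        Complex.conj_ofReal]
      ring_nf
      rw [Complex.I_sq]
      ring
    have e := hκ d hd lam hlam
    rw [← e]
    have e1 : lam 1 = 2 * Complex.log (-Complex.I * ((c - d : ℝ) : ℂ)) + Real.pi * Complex.I := by
      change 2 * Complex.log (-Complex.I * (P ((1 : unitInterval) : ℝ) - d))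
        + Real.pi * Complex.I = _
      have : P ((1 : unitInterval) : ℝ) = c := hc
      rw [this]
      push_cast
      rfl
    have e0 : lam 0 = 2 * Complex.log (-Complex.I * ((a - d : ℝ) : ℂ)) + Real.pi * Complex.I := by
      change 2 * Complex.log (-Complex.I * (P ((0 : unitInterval) : ℝ) - d))
        + Real.pi * Complex.I = _
      have : P ((0 : unitInterval) : ℝ) = a := ha
      rw [this]
      push_cast
      rfl
    rw [e1, e0]
    simp
  have hκb : κ = -(2 * Real.pi) := by
    rw [← hreal b hb, planar_log_pos (by linarith : (0 : ℝ) < c - b),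
      planar_log_neg (by linarith : a - b < 0)]
    ring
  constructor
  · -- boundedness
    obtain ⟨M, hM⟩ : ∃ M : ℝ, ∀ t ∈ Icc (0 : ℝ) 1, ‖P t‖ ≤ M :=
      isCompact_Icc.exists_bound_of_continuousOn hP
    have hM0 : 0 ≤ M := (norm_nonneg _).trans (hM 0 h0)
    rw [isBounded_iff_forall_norm_le]
    refine ⟨3 * M + 1, ?_⟩
    intro w hw
    by_contra hlt
    push Not at hlt
    have hwpos : 0 < ‖w‖ := by linarith
    have hw0 : w ≠ 0 := norm_pos_iff.mp hwpos
    have hwc0 : conj w ≠ 0 := (map_ne_zero _).mpr hw0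
    have hre : ∀ t : unitInterval,
        0 < ((P t - w) * (P t - conj w)).re := by
      intro t
      have hu : ‖P t / w‖ ≤ 1 / 3 := by
        rw [norm_div, div_le_iff₀ hwpos]
        have := hM t t.2
        linarith
      have hv : ‖P t / conj w‖ ≤ 1 / 3 := by
        rw [norm_div, RCLike.norm_conj, div_le_iff₀ hwpos]
        have := hM t t.2
        linarith
      have heq : (P t - w) * (P t - conj w)
          = ((Complex.normSq w : ℝ) : ℂ) * (1 - P t / w - P t / conj w
            + (P t / w) * (P t / conj w)) := by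
        rw [Complex.normSq_eq_conj_mul_self]
        field_simp
        ring
      rw [heq, Complex.re_ofReal_mul]
      refine mul_pos (Complex.normSq_pos.mpr hw0) ?_
      have h1 : -(1 / 3 : ℝ) ≤ -(P t / w).re := by
        have := (Complex.abs_re_le_norm (P t / w)).trans hu
        have := (abs_le.mp this).2
        linarith
      have h2 : -(1 / 3 : ℝ) ≤ -(P t / conj w).re := by
        have := (Complex.abs_re_le_norm (P t / conj w)).trans hv
        have := (abs_le.mp this).2
        linarith
      have h3 : -(1 / 9 : ℝ) ≤ ((P t / w) * (P t / conj w)).re := by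
        have h4 : ‖(P t / w) * (P t / conj w)‖ ≤ 1 / 3 * (1 / 3) := by
          rw [norm_mul]
          exact mul_le_mul hu hv (norm_nonneg _) (by norm_num)
        have := (Complex.abs_re_le_norm ((P t / w) * (P t / conj w))).trans h4
        have := (abs_le.mp this).1
        linarith
      simp only [Complex.add_re, Complex.sub_re, Complex.one_re]
      linarith
    have hslit : ∀ t : unitInterval, (P t - w) * (P t - conj w) ∈ Complex.slitPlane :=
      fun t => Or.inl (hre t)
    let lam : C(unitInterval, ℂ) :=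
      ⟨fun t => Complex.log ((P t - w) * (P t - conj w)),
        Continuous.clog ((hPc.sub continuous_const).mul (hPc.sub continuous_const)) hslit⟩
    have hlam : ∀ t : unitInterval, Complex.exp (lam t) = (P t - w) * (P t - conj w) :=
      fun t => Complex.exp_log (Complex.slitPlane_ne_zero (hslit t))
    have e := hκ w hw lam hlam
    have key : ∀ x : ℝ, (Complex.log (((x : ℂ) - w) * ((x : ℂ) - conj w))).im = 0 := by
      intro x
      have : ((x : ℂ) - w) * ((x : ℂ) - conj w) = ((Complex.normSq (x - w) : ℝ) : ℂ) := by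
        rw [Complex.normSq_eq_conj_mul_self, map_sub, Complex.conj_ofReal, mul_comm]
      rw [this, Complex.log_im, Complex.arg_ofReal_of_nonneg (Complex.normSq_nonneg _)]
    have e1 : (lam 1).im = 0 := by
      change (Complex.log ((P ((1 : unitInterval) : ℝ) - w)
        * (P ((1 : unitInterval) : ℝ) - conj w))).im = 0
      have : P ((1 : unitInterval) : ℝ) = c := hc
      rw [this]
      exact key c
    have e0 : (lam 0).im = 0 := by
      change (Complex.log ((P ((0 : unitInterval) : ℝ) - w)
        * (P ((0 : unitInterval) : ℝ) - conj w))).im = 0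
      have : P ((0 : unitInterval) : ℝ) = a := ha
      rw [this]
      exact key a
    rw [e1, e0, hκb] at e
    linarith
  · intro d hd
    have hda : d ≠ a := fun h => haE (h ▸ hd)
    have hdc : d ≠ c := fun h => hcE (h ▸ hd)
    have e := hreal d hd
    rw [hκb] at e
    constructor
    · by_contra hlt
      have h2 : d < a := lt_of_le_of_ne (not_lt.mp hlt) hda
      rw [planar_log_pos (by linarith : (0 : ℝ) < c - d),
        planar_log_pos (by linarith : (0 : ℝ) < a - d)] at e
      linarith
    · by_contra hlt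
      have h2 : c < d := lt_of_le_of_ne (not_lt.mp hlt) (Ne.symm hdc)
      rw [planar_log_neg (by linarith : c - d < 0),
        planar_log_neg (by linarith : a - d < 0)] at e
      linarith

end FB75
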