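import Pool.Agent.FB75.ProfileB

/-!
# Axially symmetric solutions: profile in the half-plane and its topology
-/

open MeasureTheory Metric Set Filter Topology InnerProductSpace Laplacian
open scoped ContDiff

namespace FB75

/-- If the zero phase contains the far part of a sector, it contains the far part of the cone. -/
theorem cone_of_sector {u : E3 → ℝ} (hu : IsEntireSolution u) {p e : E3} (he : ‖e‖ = 1)
    (hs : AxSym u p e) [ContractibleSpace {x | 0 < u x}] [ContractibleSpace {x | u x = 0}]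
    (hax : ∀ s : ℝ, u (p + s • e) = 0 ↔ 0 ≤ s)
    (hab : ∀ x, inner ℝ (x - p) e < 0 → 0 < u x) {η R₀ : ℝ} (hη : 0 < η) (hη2 : η < 1 / 2)
    (hsec : ∀ x, R₀ ≤ ‖x - p‖ → η * ‖x - p‖ ≤ (prf p e x).re → η * ‖x - p‖ ≤ (prf p e x).im →
      u x = 0) :
    ∃ R₁, ∀ x, R₁ ≤ ‖x - p‖ → η * ‖x - p‖ ≤ inner ℝ (x - p) e → u x = 0 :=
  cone_of_sector' hu he hs hax hab hη hη2 hsec

/-- If the positive phase contains the far part of a sector, the zero phase lies in a narrow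
cone, up to a bounded set. -/
theorem narrow_of_sector {u : E3 → ℝ} (hu : IsEntireSolution u) {p e : E3} (he : ‖e‖ = 1)
    (hs : AxSym u p e) [ContractibleSpace {x | 0 < u x}] [ContractibleSpace {x | u x = 0}]
    (hax : ∀ s : ℝ, u (p + s • e) = 0 ↔ 0 ≤ s)
    (hab : ∀ x, inner ℝ (x - p) e < 0 → 0 < u x) {η R₀ : ℝ} (hη : 0 < η) (hη2 : η < 1 / 2)
    (hsec : ∀ x, R₀ ≤ ‖x - p‖ → η * ‖x - p‖ ≤ (prf p e x).re → η * ‖x - p‖ ≤ (prf p e x).im →
      0 < u x) :
    ∃ R₁, ∀ x, u x = 0 → R₁ ≤ ‖x - p‖ → (prf p e x).im ≤ η * ‖x - p‖ :=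
  narrow_of_sector' hu he hs hax hab hη hη2 hsec

end FB75
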