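import Pool.Agent.FB75.Dome
import Pool.Agent.FB75.Planar
import Pool.Agent.FB75.AxisMeet
import Pool.Agent.FB75.Unbdd

/-!
# Axially symmetric solutions: profile in the half-plane and its topology
-/

open MeasureTheory Metric Set Filter Topology InnerProductSpace Laplacian
open scoped ContDiff

namespace FB75

/-- Axial symmetry about the line `p + ℝ e`. -/
def AxSym (u : E3 → ℝ) (p e : E3) : Prop :=
  ∀ x y, inner ℝ (x - p) e = inner ℝ (y - p) e → ‖x - p‖ = ‖y - p‖ → u x = u y

/-- The profile coordinates `z + i r`. -/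
noncomputable def prf (p e x : E3) : ℂ :=
  ⟨inner ℝ (x - p) e, √(‖x - p‖ ^ 2 - (inner ℝ (x - p) e) ^ 2)⟩

/-- The section of the profile coordinates in the half-plane spanned by `e` and `f`. -/
noncomputable def rep (p e f : E3) (ζ : ℂ) : E3 := p + ζ.re • e + ζ.im • f

theorem exists_perp (e : E3) : ∃ f : E3, ‖f‖ = 1 ∧ inner ℝ f e = 0 := by
  by_cases h : e 0 = 0 ∧ e 1 = 0
  · refine ⟨!₂[1, 0, 0], ?_, ?_⟩
    · rw [EuclideanSpace.norm_eq]
      simp [Fin.sum_univ_three]
    · simp [PiLp.inner_apply, Fin.sum_univ_three, h.1]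
  · set v : E3 := !₂[-(e 1), e 0, 0] with hv
    have hv0 : v ≠ 0 := by
      intro h0
      apply h
      have h1 := congrArg (fun w : E3 => w 0) h0
      have h2 := congrArg (fun w : E3 => w 1) h0
      simp [hv] at h1 h2
      exact ⟨h2, h1⟩
    have hvn : ‖v‖ ≠ 0 := norm_ne_zero_iff.2 hv0
    refine ⟨‖v‖⁻¹ • v, ?_, ?_⟩
    · rw [norm_smul, norm_inv, norm_norm, inv_mul_cancel₀ hvn]
    · rw [real_inner_smul_left]
      have : inner ℝ v e = 0 := by
        simp [hv, PiLp.inner_apply, Fin.sum_univ_three]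
        ring
      rw [this, mul_zero]

theorem continuous_prf (p e : E3) : Continuous (prf p e) := by
  have h : prf p e = fun x => ((inner ℝ (x - p) e : ℝ) : ℂ) +
      ((√(‖x - p‖ ^ 2 - (inner ℝ (x - p) e) ^ 2) : ℝ) : ℂ) * Complex.I :=
    funext fun x => Complex.mk_eq_add_mul_I _ _
  rw [h]
  fun_prop

theorem continuous_rep (p e f : E3) : Continuous (rep p e f) := by
  unfold rep
  fun_prop

theorem prf_im_nonneg (p e x : E3) : 0 ≤ (prf p e x).im := Real.sqrt_nonneg _

private theorem profA_sq_le {p e : E3} (he : ‖e‖ = 1) (x : E3) :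
    (inner ℝ (x - p) e) ^ 2 ≤ ‖x - p‖ ^ 2 := by
  have h := abs_real_inner_le_norm (x - p) e
  rw [he, mul_one] at h
  have h2 := pow_le_pow_left₀ (abs_nonneg _) h 2
  rwa [sq_abs] at h2

theorem norm_prf {p e : E3} (he : ‖e‖ = 1) (x : E3) : ‖prf p e x‖ = ‖x - p‖ := by
  have h1 : ‖prf p e x‖ ^ 2 = ‖x - p‖ ^ 2 := by
    rw [← Complex.normSq_eq_norm_sq, Complex.normSq_apply]
    simp only [prf]
    rw [← sq, ← sq, Real.sq_sqrt (sub_nonneg.2 (profA_sq_le he x))]
    ring
  exact (pow_left_inj₀ (norm_nonneg _) (norm_nonneg _) two_ne_zero).1 h1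

private theorem profA_norm_sq {e f : E3} (he : ‖e‖ = 1) (hf : ‖f‖ = 1) (hfe : inner ℝ f e = 0)
    (a b : ℝ) : ‖a • e + b • f‖ ^ 2 = a ^ 2 + b ^ 2 := by
  rw [@norm_add_sq_real, norm_smul, norm_smul, he, hf, real_inner_smul_left,
    real_inner_smul_right, real_inner_comm, hfe]
  simp only [mul_one, mul_zero, add_zero, Real.norm_eq_abs, sq_abs]

theorem prf_rep {p e f : E3} (he : ‖e‖ = 1) (hf : ‖f‖ = 1) (hfe : inner ℝ f e = 0) {ζ : ℂ}
    (hζ : 0 ≤ ζ.im) : prf p e (rep p e f ζ) = ζ := by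
  have h1 : rep p e f ζ - p = ζ.re • e + ζ.im • f := by
    unfold rep; abel
  have h2 : inner ℝ (ζ.re • e + ζ.im • f) e = ζ.re := by
    rw [inner_add_left, real_inner_smul_left, real_inner_smul_left, hfe,
      real_inner_self_eq_norm_sq, he]
    ring
  apply Complex.ext
  · simp only [prf, h1, h2]
  · simp only [prf, h1, h2, profA_norm_sq he hf hfe]
    rw [add_sub_cancel_left, Real.sqrt_sq hζ]

theorem dist_rep {p e f : E3} (he : ‖e‖ = 1) (hf : ‖f‖ = 1) (hfe : inner ℝ f e = 0) (ζ ξ : ℂ) :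
    dist (rep p e f ζ) (rep p e f ξ) = dist ζ ξ := by
  have h1 : rep p e f ζ - rep p e f ξ = (ζ.re - ξ.re) • e + (ζ.im - ξ.im) • f := by
    unfold rep; rw [sub_smul, sub_smul]; abel
  rw [dist_eq_norm, dist_eq_norm]
  apply (pow_left_inj₀ (norm_nonneg _) (norm_nonneg _) two_ne_zero).1
  rw [h1, profA_norm_sq he hf hfe, ← Complex.normSq_eq_norm_sq, Complex.normSq_apply,
    Complex.sub_re, Complex.sub_im]
  ring

theorem AxSym.eq_of_prf {u : E3 → ℝ} {p e : E3} (he : ‖e‖ = 1) (hs : AxSym u p e) {x y : E3}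
    (h : prf p e x = prf p e y) : u x = u y := by
  apply hs
  · exact congrArg Complex.re h
  · rw [← norm_prf he x, ← norm_prf he y, h]

private theorem profA_axis (p : E3) {e : E3} (he : ‖e‖ = 1) (s : ℝ) :
    prf p e (p + s • e) = (s : ℂ) := by
  have h1 : p + s • e - p = s • e := by abel
  have h2 : inner ℝ (s • e) e = s := by
    rw [real_inner_smul_left, real_inner_self_eq_norm_sq, he]
    ring
  apply Complex.ext
  · simp only [prf, h1, h2, Complex.ofReal_re]
  · simp only [prf, h1, h2, norm_smul, he, Complex.ofReal_im, mul_one, Real.norm_eq_abs, sq_abs,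
      sub_self, Real.sqrt_zero]

private theorem profA_pathConn {A : Set E3} [ContractibleSpace A] (p e : E3) :
    IsPathConnected (prf p e '' A) :=
  (isPathConnected_iff_pathConnectedSpace.2 inferInstance).image (continuous_prf p e)

private theorem profA_enclose {E : Set ℂ} {a b c : ℝ}
    (h : JoinedIn {w : ℂ | 0 ≤ w.im ∧ w ∉ E} (a : ℂ) (c : ℂ)) (hab : a < b) (hbc : b < c)
    (hE : IsPreconnected E) (hEim : ∀ w ∈ E, 0 ≤ w.im) (hb : (b : ℂ) ∈ E) :
    Bornology.IsBounded E := by
  obtain ⟨γ, hγ⟩ := h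
  have key : ∀ t ∈ Icc (0 : ℝ) 1, 0 ≤ (γ.extend t).im ∧ γ.extend t ∉ E := by
    intro t ht
    rw [Path.extend_apply γ ht]
    exact hγ ⟨t, ht⟩
  exact (planar_enclose (P := γ.extend) γ.continuous_extend.continuousOn
    (fun t ht => (key t ht).1) γ.extend_zero γ.extend_one hab hbc hE hEim
    (fun t ht => (key t ht).2) hb).1

/-- A gap of one phase on the axis makes this phase bounded. -/
private theorem profA_gap {p e : E3} (he : ‖e‖ = 1) {A B : Set E3} [ContractibleSpace A]
    [ContractibleSpace B] (hdisj : ∀ x ∈ A, ∀ y ∈ B, prf p e x ≠ prf p e y) {a b c : ℝ}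
    (hab : a < b) (hbc : b < c) (ha : p + a • e ∈ A) (hc : p + c • e ∈ A)
    (hb : p + b • e ∈ B) : Bornology.IsBounded B := by
  have hA := profA_pathConn (A := A) p e
  have hB := profA_pathConn (A := B) p e
  have h1 : JoinedIn (prf p e '' A) (a : ℂ) (c : ℂ) :=
    hA.joinedIn _ ⟨_, ha, profA_axis p he a⟩ _ ⟨_, hc, profA_axis p he c⟩
  have h2 : JoinedIn {w : ℂ | 0 ≤ w.im ∧ w ∉ prf p e '' B} (a : ℂ) (c : ℂ) := by
    refine h1.mono ?_
    rintro _ ⟨x, hx, rfl⟩
    refine ⟨prf_im_nonneg p e x, ?_⟩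
    rintro ⟨y, hy, hxy⟩
    exact hdisj x hx y hy hxy.symm
  have h3 := profA_enclose h2 hab hbc hB.isConnected.isPreconnected
    (by rintro _ ⟨x, -, rfl⟩; exact prf_im_nonneg p e x) ⟨_, hb, profA_axis p he b⟩
  obtain ⟨R, hR⟩ := h3.exists_norm_le
  refine (isBounded_closedBall (x := p) (r := R)).subset fun x hx => ?_
  rw [mem_closedBall, dist_eq_norm, ← norm_prf he]
  exact hR _ ⟨x, hx, rfl⟩

private theorem profA_disj {u : E3 → ℝ} {p e : E3} (he : ‖e‖ = 1) (hs : AxSym u p e) :
    ∀ x ∈ {x | u x = 0}, ∀ y ∈ {x | 0 < u x}, prf p e x ≠ prf p e y := by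
  intro x hx y hy h
  have h1 := hs.eq_of_prf he h
  have hx' : u x = 0 := hx
  have hy' : 0 < u y := hy
  linarith

/-- On the axis, the two phases are complementary rays. -/
theorem axis_rays {u : E3 → ℝ} (hu : IsEntireSolution u) {p e : E3} (he : ‖e‖ = 1)
    (hs : AxSym u p e) [ContractibleSpace {x | 0 < u x}] [ContractibleSpace {x | u x = 0}] :
    ∃ s₀ : ℝ, (∀ s : ℝ, u (p + s • e) = 0 ↔ s₀ ≤ s) ∨ (∀ s : ℝ, u (p + s • e) = 0 ↔ s ≤ s₀) := by
  have hposne : ∀ x, 0 < u x ↔ u x ≠ 0 := fun x => ⟨fun h => h.ne', fun h => pos_of_ne hu h⟩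
  -- both phases meet the axis
  obtain ⟨a, ha⟩ : ∃ s : ℝ, p + s • e ∈ {x | u x = 0} := by
    apply axis_meet he
    intro x y h1 h2
    have := hs x y h1 h2
    simp only [mem_ofPred_eq, this]
  obtain ⟨b, hb⟩ : ∃ s : ℝ, p + s • e ∈ {x | 0 < u x} := by
    apply axis_meet he
    intro x y h1 h2
    have := hs x y h1 h2
    simp only [mem_ofPred_eq, this]
  have ha' : u (p + a • e) = 0 := ha
  have hb' : 0 < u (p + b • e) := hb
  -- complements
  have hKc : {x | u x = 0}ᶜ = {x | 0 < u x} := by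
    ext x
    change ¬ u x = 0 ↔ 0 < u x
    exact (hposne x).symm
  have hOc : {x | 0 < u x}ᶜ = {x | u x = 0} := by
    rw [← hKc, compl_compl]
  have hOunb : ¬ Bornology.IsBounded {x | 0 < u x} := by
    rw [← hKc]
    exact unbounded_compl (A := {x | u x = 0}) (p := p + b • e) (fun h => by
      have h' : u (p + b • e) = 0 := h
      linarith)
  have hKunb : ¬ Bornology.IsBounded {x | u x = 0} := by
    rw [← hOc]
    exact unbounded_compl (A := {x | 0 < u x}) (p := p + a • e) (fun h => by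
      have h' : 0 < u (p + a • e) := h
      linarith)
  -- no gaps
  have gapK : ∀ x y z : ℝ, x < y → y < z → u (p + x • e) = 0 → u (p + z • e) = 0 →
      u (p + y • e) = 0 := by
    intro x y z hxy hyz hx hz
    by_contra hy
    exact hOunb (profA_gap he (profA_disj he hs) hxy hyz hx hz ((hposne _).2 hy))
  have gapO : ∀ x y z : ℝ, x < y → y < z → u (p + x • e) ≠ 0 → u (p + z • e) ≠ 0 →
      u (p + y • e) ≠ 0 := by
    intro x y z hxy hyz hx hz hy
    exact hKunb (profA_gap he (fun x hx y hy h => profA_disj he hs y hy x hx h.symm) hxy hyz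
      ((hposne _).2 hx) ((hposne _).2 hz) hy)
  -- the zero set on the axis
  set S : Set ℝ := {s | u (p + s • e) = 0} with hS
  have hScl : IsClosed S := by
    have hc : Continuous fun s : ℝ => u (p + s • e) := by
      have := hu.continuous
      fun_prop
    exact isClosed_eq hc continuous_const
  have haS : a ∈ S := ha'
  have hbS : u (p + b • e) ≠ 0 := hb'.ne'
  have hne : a ≠ b := by
    rintro rfl
    exact hbS ha'
  rcases lt_or_gt_of_ne hne with hlt | hlt
  · -- zeros to the left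
    have hup : ∀ s ∈ S, s ≤ b := by
      intro s hs'
      by_contra hcon
      push Not at hcon
      exact hbS (gapK a b s hlt hcon ha' hs')
    have hbdd : BddAbove S := ⟨b, hup⟩
    have hmem := hScl.csSup_mem ⟨a, haS⟩ hbdd
    refine ⟨sSup S, Or.inr fun s => ⟨fun h => le_csSup hbdd h, fun h => ?_⟩⟩
    rcases eq_or_lt_of_le h with h1 | h1
    · rw [h1]; exact hmem
    · by_contra h2
      have h3 : sSup S < b := lt_of_le_of_ne (hup _ hmem) (fun h => hbS (h ▸ hmem))
      exact gapO s (sSup S) b h1 h3 h2 hbS hmem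
  · have hlow : ∀ s ∈ S, b ≤ s := by
      intro s hs'
      by_contra hcon
      push Not at hcon
      exact hbS (gapK s b a hcon hlt hs' ha')
    have hbdd : BddBelow S := ⟨b, hlow⟩
    have hmem := hScl.csInf_mem ⟨a, haS⟩ hbdd
    refine ⟨sInf S, Or.inl fun s => ⟨fun h => csInf_le hbdd h, fun h => ?_⟩⟩
    rcases eq_or_lt_of_le h with h1 | h1
    · rw [← h1]; exact hmem
    · by_contra h2
      have h3 : b < sInf S := lt_of_le_of_ne (hlow _ hmem) (fun h => hbS (h ▸ hmem))
      exact gapO b (sInf S) s h3 h1 hbS h2 hmem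

/-- The zero phase lies above the tip. -/
theorem zero_above {u : E3 → ℝ} (hu : IsEntireSolution u) {p e : E3} (he : ‖e‖ = 1)
    (hs : AxSym u p e) [ContractibleSpace {x | 0 < u x}] [ContractibleSpace {x | u x = 0}]
    (hax : ∀ s : ℝ, u (p + s • e) = 0 ↔ 0 ≤ s) : ∀ x, inner ℝ (x - p) e < 0 → 0 < u x := by
  intro x hx
  by_contra hux
  have hux0 : u x = 0 := le_antisymm (not_lt.1 hux) (hu.nonneg x)
  set z₁ : ℝ := inner ℝ (x - p) e / 2 with hz₁
  have hz₁0 : z₁ < 0 := by rw [hz₁]; linarith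
  have hxz₁ : inner ℝ (x - p) e < z₁ := by rw [hz₁]; linarith
  -- the open set and its component
  set G : Set E3 := {y | 0 < u y ∧ z₁ + inner ℝ p e < inner ℝ y e} with hG
  have hGo : IsOpen G := by
    have hc := hu.continuous
    exact (isOpen_lt continuous_const hc).inter (isOpen_lt continuous_const
      (continuous_id.inner continuous_const : Continuous fun y : E3 => inner ℝ y e))
  set x₀ : E3 := p + (z₁ / 2) • e with hx₀
  have hinn : ∀ y : E3, inner ℝ (y - p) e = inner ℝ y e - inner ℝ p e := fun y => inner_sub_left _ _ _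
  have hx₀e : inner ℝ x₀ e = inner ℝ p e + z₁ / 2 := by
    rw [hx₀, inner_add_left, real_inner_smul_left, real_inner_self_eq_norm_sq, he]
    ring
  have hx₀G : x₀ ∈ G := by
    refine ⟨pos_of_ne hu (fun h => ?_), ?_⟩
    · have := (hax (z₁ / 2)).1 h
      linarith
    · rw [hx₀e]; linarith
  set D : Set E3 := connectedComponentIn G x₀ with hD
  have hDo : IsOpen D := hGo.connectedComponentIn
  have hDG : D ⊆ G := connectedComponentIn_subset G x₀
  have hx₀D : x₀ ∈ D := mem_connectedComponentIn hx₀G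
  have hDc : IsPreconnected D := isPreconnected_connectedComponentIn
  have hDfr : ∀ y ∈ frontier D, u y = 0 ∨ inner ℝ y e = z₁ + inner ℝ p e := by
    intro y hy
    rw [hDo.frontier_eq] at hy
    have hyG : y ∉ G := by
      intro hyG
      apply hy.2
      have h1 : IsPreconnected (insert y D) :=
        hDc.subset_closure (subset_insert _ _) (insert_subset hy.1 subset_closure)
      exact h1.subset_connectedComponentIn (Or.inr hx₀D) (insert_subset hyG hDG) (mem_insert _ _)
    have h2 : y ∈ closure G := closure_mono hDG hy.1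
    have h3 : z₁ + inner ℝ p e ≤ inner ℝ y e := by
      have hcl : IsClosed {y : E3 | z₁ + inner ℝ p e ≤ inner ℝ y e} :=
        isClosed_le continuous_const (continuous_id.inner continuous_const)
      exact closure_minimal (fun v hv => hv.2.le) hcl h2
    by_cases h4 : u y = 0
    · exact Or.inl h4
    · right
      apply le_antisymm _ h3
      by_contra h5
      push Not at h5
      exact hyG ⟨pos_of_ne hu h4, h5⟩
  -- the path in the profile
  have hK := profA_pathConn (A := {x | u x = 0}) p e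
  have h0K : (0 : ℂ) ∈ prf p e '' {x | u x = 0} := by
    refine ⟨p + (0 : ℝ) • e, (hax 0).2 le_rfl, ?_⟩
    rw [profA_axis p he]; simp
  obtain ⟨γ, hγ⟩ := hK.joinedIn _ h0K _ ⟨x, hux0, rfl⟩
  obtain ⟨τ, hτ⟩ : ∃ τ, (γ τ).re = z₁ := by
    have hc : Continuous fun t => (γ t).re := Complex.continuous_re.comp γ.continuous
    have h1 : z₁ ∈ Icc ((γ 1).re) ((γ 0).re) := by
      rw [γ.source, γ.target]
      exact ⟨hxz₁.le, hz₁0.le⟩
    exact mem_range_of_exists_le_of_exists_ge hc ⟨1, h1.1⟩ ⟨0, h1.2⟩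
  set F : Set ℂ := {w : ℂ | 0 ≤ w.im ∧ w ∉ prf p e '' D} with hF
  have hKF : ∀ w ∈ prf p e '' {x | u x = 0}, w ∈ F := by
    rintro _ ⟨y, hy, rfl⟩
    refine ⟨prf_im_nonneg p e y, ?_⟩
    rintro ⟨y', hy', hyy⟩
    exact profA_disj he hs y hy y' (hDG hy').1 hyy.symm
  have hj1 : JoinedIn F (γ τ) 0 := by
    have : PathConnectedSpace unitInterval := isPathConnected_iff_pathConnectedSpace.1
      ((convex_Icc (0 : ℝ) 1).isPathConnected ⟨0, by simp⟩)
    have h1 : JoinedIn (range γ) (γ τ) (γ 0) :=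
      (isPathConnected_range γ.continuous).joinedIn _ (mem_range_self _) _ (mem_range_self _)
    rw [γ.source] at h1
    refine h1.mono ?_
    rintro _ ⟨t, rfl⟩
    exact hKF _ (hγ t)
  have hj0 : JoinedIn F (z₁ : ℂ) (γ τ) := by
    apply JoinedIn.of_segment_subset
    intro w hw
    rw [segment_eq_image'] at hw
    obtain ⟨t, ht, rfl⟩ := hw
    have him : 0 ≤ (γ τ).im := (hKF _ (hγ τ)).1
    constructor
    · simp only [Complex.add_im, Complex.ofReal_im, Complex.real_smul, Complex.mul_im,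
        Complex.ofReal_re, Complex.sub_im, sub_zero, zero_mul, zero_add, add_zero]
      exact mul_nonneg ht.1 him
    · rintro ⟨y, hy, hyw⟩
      have h1 := (hDG hy).2
      have h2 := congrArg Complex.re hyw
      simp only [Complex.add_re, Complex.ofReal_re, Complex.real_smul, Complex.mul_re,
        Complex.ofReal_im, Complex.sub_re, hτ, sub_self, mul_zero, zero_mul, add_zero] at h2
      have h3 : (prf p e y).re = inner ℝ (y - p) e := rfl
      rw [h3, hinn] at h2
      linarith
  have hb : Bornology.IsBounded (prf p e '' D) := by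
    have h1 : JoinedIn F (z₁ : ℂ) ((0 : ℝ) : ℂ) := by
      rw [Complex.ofReal_zero]; exact hj0.trans hj1
    refine profA_enclose h1 (b := z₁ / 2) (by linarith) (by linarith)
      (hDc.image _ (continuous_prf p e).continuousOn) ?_ ⟨x₀, hx₀D, profA_axis p he _⟩
    rintro _ ⟨y, -, rfl⟩
    exact prf_im_nonneg p e y
  have hDb : Bornology.IsBounded D := by
    obtain ⟨R, hR⟩ := hb.exists_norm_le
    refine (isBounded_closedBall (x := p) (r := R)).subset fun y hy => ?_
    rw [mem_closedBall, dist_eq_norm, ← norm_prf he]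
    exact hR _ ⟨y, hy, rfl⟩
  have hΩ : IsPreconnected {x | 0 < u x} :=
    (isPathConnected_iff_pathConnectedSpace.2
      (inferInstance : PathConnectedSpace {x | 0 < u x})).isConnected.isPreconnected
  obtain ⟨c, hc⟩ := dome hu hΩ ⟨x, hux0⟩ he hDo ⟨x₀, hx₀D⟩ hDb (fun y hy => hDG hy) hDfr
  have haxis : ∀ s : ℝ, u (p + s • e) = max (c - inner ℝ p e - s) 0 := by
    intro s
    rw [hc, inner_add_left, real_inner_smul_left, real_inner_self_eq_norm_sq, he]
    congr 1; ring
  have hc1 : c - inner ℝ p e ≤ 0 := by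
    have h1 := (hax 0).2 le_rfl
    rw [haxis, sub_zero] at h1
    exact max_eq_right_iff.1 h1
  have hc2 : 0 ≤ c - inner ℝ p e := by
    apply (hax _).1
    rw [haxis, sub_self, max_self]
  have h1 := hc x
  rw [hux0] at h1
  have h2 := le_max_left (c - inner ℝ x e) 0
  rw [← h1] at h2
  rw [hinn] at hx
  linarith

end FB75
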