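import Pool.Agent.FB75.ProfileA

/-!
# Axially symmetric solutions: from a sector to a cone
-/

open MeasureTheory Metric Set Filter Topology InnerProductSpace Laplacian
open scoped ContDiff

namespace FB75

private lemma enclose_joined {E : Set ℂ} {a b c : ℝ}
    (h : JoinedIn {w : ℂ | 0 ≤ w.im ∧ w ∉ E} (a : ℂ) (c : ℂ)) (hab : a < b) (hbc : b < c)
    (hE : IsPreconnected E) (hEim : ∀ w ∈ E, 0 ≤ w.im) (hb : (b : ℂ) ∈ E) {d : ℝ}
    (hd : (d : ℂ) ∈ E) : a < d ∧ d < c := by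
  obtain ⟨γ, hγ⟩ := h
  have key : ∀ t ∈ Icc (0 : ℝ) 1, 0 ≤ (γ.extend t).im ∧ γ.extend t ∉ E := by
    intro t ht
    rw [Path.extend_apply γ ht]
    exact hγ ⟨t, ht⟩
  exact (planar_enclose (P := γ.extend) γ.continuous_extend.continuousOn
    (fun t ht => (key t ht).1) γ.extend_zero γ.extend_one hab hbc hE hEim
    (fun t ht => (key t ht).2) hb).2 d hd

/-- A path in a path-connected set, with a bound. -/
private lemma exists_bound_joined {S : Set ℂ} (hS : IsPathConnected S) {a b : ℂ} (ha : a ∈ S)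
    (hb : b ∈ S) : ∃ R : ℝ, JoinedIn {w | w ∈ S ∧ ‖w‖ ≤ R} a b := by
  obtain ⟨γ, hγ⟩ := hS.joinedIn a ha b hb
  obtain ⟨R, hR⟩ := (isCompact_range γ.continuous).isBounded.exists_norm_le
  exact ⟨R, γ, fun t => ⟨hγ t, hR _ ⟨t, rfl⟩⟩⟩

/-- A connected bounded subset joining two points of a path-connected set. -/
private lemma exists_conn {S : Set ℂ} (hS : IsPathConnected S) {a b : ℂ} (ha : a ∈ S)
    (hb : b ∈ S) : ∃ (E : Set ℂ) (R : ℝ), IsPreconnected E ∧ E ⊆ S ∧ a ∈ E ∧ b ∈ E ∧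
      ∀ w ∈ E, ‖w‖ ≤ R := by
  obtain ⟨γ, hγ⟩ := hS.joinedIn a ha b hb
  obtain ⟨R, hR⟩ := (isCompact_range γ.continuous).isBounded.exists_norm_le
  refine ⟨range γ, R, isPreconnected_range γ.continuous, ?_, ⟨0, γ.source⟩, ⟨1, γ.target⟩, hR⟩
  rintro _ ⟨t, rfl⟩
  exact hγ t

private lemma joined_seg {S : Set ℂ} {a b : ℂ}
    (h : ∀ t : ℝ, 0 ≤ t → t ≤ 1 → a + t * (b - a) ∈ S) : JoinedIn S a b := by
  apply JoinedIn.of_segment_subset
  intro w hw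
  rw [segment_eq_image'] at hw
  obtain ⟨t, ht, rfl⟩ := hw
  have := h t ht.1 ht.2
  simpa using this

private lemma norm_le_two {w : ℂ} {r : ℝ} (h1 : |w.re| ≤ r) (h2 : |w.im| ≤ r) : ‖w‖ ≤ 2 * r := by
  have := Complex.norm_le_abs_re_add_abs_im w
  linarith

/-- The planar form of `cone_of_sector`. -/
private lemma planar_cone {K' O' : Set ℂ} (hK : IsPathConnected K') (hO : IsPathConnected O')
    (hKim : ∀ w ∈ K', 0 ≤ w.im) (hOim : ∀ w ∈ O', 0 ≤ w.im) (hdisj : ∀ w ∈ K', w ∉ O')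
    (h0 : (0 : ℂ) ∈ K') (h1 : ((-1 : ℝ) : ℂ) ∈ O') {η R₀ : ℝ} (hη : 0 < η) (hη2 : η < 1 / 2)
    (hsec : ∀ w : ℂ, R₀ ≤ ‖w‖ → η * ‖w‖ ≤ w.re → η * ‖w‖ ≤ w.im → w ∈ K') :
    ∃ R₁, ∀ ζ ∈ O', R₁ ≤ ‖ζ‖ → ζ.re < η * ‖ζ‖ := by
  -- the diagonal ray
  have hdiag : ∀ t : ℝ, R₀ ≤ t → 0 ≤ t → (⟨t, t⟩ : ℂ) ∈ K' := by
    intro t ht ht0
    have hn1 : t ≤ ‖(⟨t, t⟩ : ℂ)‖ := by
      have := Complex.abs_re_le_norm (⟨t, t⟩ : ℂ)
      simpa [abs_of_nonneg ht0] using this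
    have hn2 : ‖(⟨t, t⟩ : ℂ)‖ ≤ 2 * t := norm_le_two (by simp [abs_of_nonneg ht0])
      (by simp [abs_of_nonneg ht0])
    have hn3 : η * ‖(⟨t, t⟩ : ℂ)‖ ≤ t := by nlinarith
    exact hsec _ (ht.trans hn1) hn3 hn3
  set R : ℝ := max R₀ 1 with hR
  have hRR₀ : R₀ ≤ R := le_max_left _ _
  have hR1 : 1 ≤ R := le_max_right _ _
  obtain ⟨R₂, hγ⟩ := exists_bound_joined hK h0 (hdiag R hRR₀ (by linarith))
  have hR₂ : 0 ≤ R₂ := by
    have := hγ.source_mem.2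
    simpa using this
  refine ⟨max R₀ (2 * R₂ + 1), fun ζ hζ hn => ?_⟩
  by_contra hre
  rw [not_lt] at hre
  have hnR₀ : R₀ ≤ ‖ζ‖ := (le_max_left _ _).trans hn
  have hnR₂ : 2 * R₂ + 1 ≤ ‖ζ‖ := (le_max_right _ _).trans hn
  have hn0 : 0 < ‖ζ‖ := by linarith
  have him0 := hOim ζ hζ
  have him : ζ.im < η * ‖ζ‖ := by
    by_contra h
    rw [not_lt] at h
    exact hdisj ζ (hsec ζ hnR₀ hre h) hζ
  have hre0 : 0 < ζ.re := lt_of_lt_of_le (by positivity) hre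
  have him2 : ζ.im < ‖ζ‖ / 2 := by nlinarith
  have hre2 : ‖ζ‖ / 2 < ζ.re := by
    have := Complex.norm_le_abs_re_add_abs_im ζ
    rw [abs_of_pos hre0, abs_of_nonneg him0] at this
    linarith
  obtain ⟨E₀, B, hE₀, hE₀O, hζE, h1E, hB⟩ := exists_conn hO hζ h1
  have hBζ := hB ζ hζE
  set R₄ : ℝ := max R (B + 1) with hR₄
  have hR₄R : R ≤ R₄ := le_max_left _ _
  have hR₄B : B + 1 ≤ R₄ := le_max_right _ _
  set A : Set ℂ := (fun s : ℝ => (ζ.re : ℂ) + s * Complex.I) '' Icc 0 ζ.im with hA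
  have hApre : IsPreconnected A :=
    isPreconnected_Icc.image _ (Continuous.continuousOn (by fun_prop))
  have hAmem : ∀ w ∈ A, w.re = ζ.re ∧ 0 ≤ w.im ∧ w.im ≤ ζ.im := by
    rintro _ ⟨s, hs, rfl⟩
    simpa using hs
  have hζA : ζ ∈ A := ⟨ζ.im, ⟨him0, le_rfl⟩, Complex.re_add_im ζ⟩
  have hbA : ((ζ.re : ℝ) : ℂ) ∈ A := ⟨0, ⟨le_rfl, him0⟩, by simp⟩
  have hEpre : IsPreconnected (E₀ ∪ A) := IsPreconnected.union ζ hζE hζA hE₀ hApre
  have hEim : ∀ w ∈ E₀ ∪ A, 0 ≤ w.im := by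
    rintro w (hw | hw)
    · exact hOim w (hE₀O hw)
    · exact (hAmem w hw).2.1
  have hEre : ∀ w ∈ E₀ ∪ A, w.re < R₄ := by
    rintro w (hw | hw)
    · have := hB w hw
      have := Complex.re_le_norm w
      linarith
    · rw [(hAmem w hw).1]
      have := Complex.re_le_norm ζ
      linarith
  have hAn : ∀ w ∈ A, R₂ < ‖w‖ := by
    intro w hw
    have h2 := Complex.re_le_norm w
    rw [(hAmem w hw).1] at h2
    linarith
  have hAd : ∀ w ∈ A, w.im < w.re := by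
    intro w hw
    obtain ⟨h2, h3, h4⟩ := hAmem w hw
    rw [h2]
    linarith
  have hP1 : JoinedIn {w : ℂ | 0 ≤ w.im ∧ w ∉ E₀ ∪ A} ((0 : ℝ) : ℂ) (⟨R, R⟩ : ℂ) := by
    rw [Complex.ofReal_zero]
    refine hγ.mono ?_
    rintro w ⟨hw1, hw2⟩
    refine ⟨hKim w hw1, ?_⟩
    rintro (hw | hw)
    · exact hdisj w hw1 (hE₀O hw)
    · have := hAn w hw
      linarith
  have hP2 : JoinedIn {w : ℂ | 0 ≤ w.im ∧ w ∉ E₀ ∪ A} (⟨R, R⟩ : ℂ) (⟨R₄, R₄⟩ : ℂ) := by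
    refine joined_seg fun t ht0 ht1 => ?_
    have he : (⟨R, R⟩ : ℂ) + t * ((⟨R₄, R₄⟩ : ℂ) - ⟨R, R⟩) =
        ⟨R + t * (R₄ - R), R + t * (R₄ - R)⟩ := by
      apply Complex.ext <;> simp
    rw [he]
    have h5 : R ≤ R + t * (R₄ - R) := by nlinarith
    refine ⟨by simp only; linarith, ?_⟩
    rintro (hw | hw)
    · exact hdisj _ (hdiag _ (hRR₀.trans h5) (by linarith)) (hE₀O hw)
    · have := hAd _ hw
      simp at this
  have hP3 : JoinedIn {w : ℂ | 0 ≤ w.im ∧ w ∉ E₀ ∪ A} (⟨R₄, R₄⟩ : ℂ) ((R₄ : ℝ) : ℂ) := by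
    refine joined_seg fun t ht0 ht1 => ?_
    have he : (⟨R₄, R₄⟩ : ℂ) + t * (((R₄ : ℝ) : ℂ) - ⟨R₄, R₄⟩) = ⟨R₄, R₄ - t * R₄⟩ := by
      apply Complex.ext <;> simp <;> ring
    rw [he]
    refine ⟨by simp only; nlinarith, fun hw => ?_⟩
    have := hEre _ hw
    simp at this
  have hfin := enclose_joined ((hP1.trans hP2).trans hP3) hre0
    (hEre ((ζ.re : ℝ) : ℂ) (Or.inr hbA)) hEpre hEim
    (Or.inr hbA) (Or.inl h1E)
  linarith [hfin.1]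

/-- The planar form of `narrow_of_sector`. -/
private lemma planar_narrow {K' O' : Set ℂ} (hK : IsPathConnected K') (hO : IsPathConnected O')
    (hKim : ∀ w ∈ K', 0 ≤ w.im) (hOim : ∀ w ∈ O', 0 ≤ w.im) (hdisj : ∀ w ∈ K', w ∉ O')
    (h0 : ((0 : ℝ) : ℂ) ∈ K') (h1 : ((-1 : ℝ) : ℂ) ∈ O') {η R₀ : ℝ} (hη : 0 < η) (hη2 : η < 1 / 2)
    (hKre : ∀ w ∈ K', 0 ≤ w.re)
    (hsec : ∀ w : ℂ, R₀ ≤ ‖w‖ → η * ‖w‖ ≤ w.re → η * ‖w‖ ≤ w.im → w ∈ O') :
    ∃ R₁, ∀ ζ ∈ K', R₁ ≤ ‖ζ‖ → ζ.im ≤ η * ‖ζ‖ := by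
  -- the diagonal ray
  have hdiag : ∀ t : ℝ, R₀ ≤ t → 0 ≤ t → (⟨t, t⟩ : ℂ) ∈ O' := by
    intro t ht ht0
    have hn1 : t ≤ ‖(⟨t, t⟩ : ℂ)‖ := by
      have := Complex.abs_re_le_norm (⟨t, t⟩ : ℂ)
      simpa [abs_of_nonneg ht0] using this
    have hn2 : ‖(⟨t, t⟩ : ℂ)‖ ≤ 2 * t := norm_le_two (by simp [abs_of_nonneg ht0])
      (by simp [abs_of_nonneg ht0])
    have hn3 : η * ‖(⟨t, t⟩ : ℂ)‖ ≤ t := by nlinarith
    exact hsec _ (ht.trans hn1) hn3 hn3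
  set R : ℝ := max R₀ 1 with hR
  have hRR₀ : R₀ ≤ R := le_max_left _ _
  have hR1 : 1 ≤ R := le_max_right _ _
  obtain ⟨R₂, hγ⟩ := exists_bound_joined hO (hdiag R hRR₀ (by linarith)) h1
  have hR₂ : 1 ≤ R₂ := by
    have := hγ.target_mem.2
    simpa using this
  refine ⟨max R₀ (8 * R₂ + 1), fun ζ hζ hn => ?_⟩
  by_contra him
  rw [not_le] at him
  have hnR₀ : R₀ ≤ ‖ζ‖ := (le_max_left _ _).trans hn
  have hnR₂ : 8 * R₂ + 1 ≤ ‖ζ‖ := (le_max_right _ _).trans hn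
  have hn0 : 0 < ‖ζ‖ := by linarith
  have hre0 := hKre ζ hζ
  have hre : ζ.re < η * ‖ζ‖ := by
    by_contra h
    rw [not_lt] at h
    exact hdisj ζ hζ (hsec ζ hnR₀ h him.le)
  have him0 : 0 < ζ.im := lt_of_le_of_lt (by positivity) him
  have hre2 : ζ.re < ‖ζ‖ / 2 := by nlinarith
  have him2 : ‖ζ‖ / 2 < ζ.im := by
    have := Complex.norm_le_abs_re_add_abs_im ζ
    rw [abs_of_pos him0, abs_of_nonneg hre0] at this
    linarith
  obtain ⟨E₀, B, hE₀, hE₀K, hζE, h0E, hB⟩ := exists_conn hK hζ h0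
  have hBζ := hB ζ hζE
  set R₄ : ℝ := max R (B + 1) with hR₄
  have hR₄R : R ≤ R₄ := le_max_left _ _
  have hR₄B : B + 1 ≤ R₄ := le_max_right _ _
  set A : Set ℂ := (fun s : ℝ => ζ + s * (((-ζ.im : ℝ) : ℂ) - ζ)) '' Icc 0 1 with hA
  have hApre : IsPreconnected A :=
    isPreconnected_Icc.image _ (Continuous.continuousOn (by fun_prop))
  have hAmem : ∀ w ∈ A, ∃ s : ℝ, 0 ≤ s ∧ s ≤ 1 ∧ w.re = ζ.re - s * (ζ.im + ζ.re) ∧
      w.im = ζ.im - s * ζ.im := by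
    rintro _ ⟨s, hs, rfl⟩
    refine ⟨s, hs.1, hs.2, ?_, ?_⟩ <;> simp <;> ring
  have hζA : ζ ∈ A := ⟨0, ⟨le_rfl, zero_le_one⟩, by simp⟩
  have hbA : ((-ζ.im : ℝ) : ℂ) ∈ A := ⟨1, ⟨zero_le_one, le_rfl⟩, by simp⟩
  have hEpre : IsPreconnected (E₀ ∪ A) := IsPreconnected.union ζ hζE hζA hE₀ hApre
  have hEim : ∀ w ∈ E₀ ∪ A, 0 ≤ w.im := by
    rintro w (hw | hw)
    · exact hKim w (hE₀K hw)
    · obtain ⟨s, hs0, hs1, h2, h3⟩ := hAmem w hw
      rw [h3]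
      nlinarith
  have hEb : ∀ w ∈ E₀ ∪ A, -R₄ < w.re ∧ w.im < R₄ := by
    rintro w (hw | hw)
    · have h2 := hB w hw
      have h3 := Complex.im_le_norm w
      have h4 := (abs_le.1 (Complex.abs_re_le_norm w)).1
      exact ⟨by linarith, by linarith⟩
    · obtain ⟨s, hs0, hs1, h2, h3⟩ := hAmem w hw
      have h4 := Complex.im_le_norm ζ
      rw [h2, h3]
      refine ⟨by nlinarith, by nlinarith⟩
  have hAn : ∀ w ∈ A, R₂ < ‖w‖ := by
    intro w hw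
    obtain ⟨s, hs0, hs1, h2, h3⟩ := hAmem w hw
    have h4 := Complex.im_le_norm w
    have h5 := (abs_le.1 (Complex.abs_re_le_norm w)).1
    rw [h2] at h5
    rw [h3] at h4
    rcases le_total s (1 / 2) with h6 | h6 <;> nlinarith
  have hAd : ∀ w ∈ A, w.re < w.im := by
    intro w hw
    obtain ⟨s, hs0, hs1, h2, h3⟩ := hAmem w hw
    rw [h2, h3]
    nlinarith
  have hP1 : JoinedIn {w : ℂ | 0 ≤ w.im ∧ w ∉ E₀ ∪ A} (((-R₄ : ℝ)) : ℂ) (⟨-R₄, R₄⟩ : ℂ) := by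
    refine joined_seg fun t ht0 ht1 => ?_
    have he : (((-R₄ : ℝ)) : ℂ) + t * ((⟨-R₄, R₄⟩ : ℂ) - ((-R₄ : ℝ) : ℂ)) = ⟨-R₄, t * R₄⟩ := by
      apply Complex.ext <;> simp
    rw [he]
    refine ⟨by simp only; nlinarith, fun hw => ?_⟩
    have := (hEb _ hw).1
    simp at this
  have hP2 : JoinedIn {w : ℂ | 0 ≤ w.im ∧ w ∉ E₀ ∪ A} (⟨-R₄, R₄⟩ : ℂ) (⟨R₄, R₄⟩ : ℂ) := by
    refine joined_seg fun t ht0 ht1 => ?_
    have he : (⟨-R₄, R₄⟩ : ℂ) + t * ((⟨R₄, R₄⟩ : ℂ) - ⟨-R₄, R₄⟩) =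
        ⟨-R₄ + t * (2 * R₄), R₄⟩ := by
      apply Complex.ext
      · simp only [Complex.add_re, Complex.mul_re, Complex.ofReal_re, Complex.ofReal_im,
          Complex.sub_re, Complex.sub_im]
        ring
      · simp
    rw [he]
    refine ⟨by simp only; linarith, fun hw => ?_⟩
    have := (hEb _ hw).2
    simp at this
  have hP3 : JoinedIn {w : ℂ | 0 ≤ w.im ∧ w ∉ E₀ ∪ A} (⟨R₄, R₄⟩ : ℂ) (⟨R, R⟩ : ℂ) := by
    refine joined_seg fun t ht0 ht1 => ?_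
    have he : (⟨R₄, R₄⟩ : ℂ) + t * ((⟨R, R⟩ : ℂ) - ⟨R₄, R₄⟩) =
        ⟨R₄ - t * (R₄ - R), R₄ - t * (R₄ - R)⟩ := by
      apply Complex.ext <;> simp <;> ring
    rw [he]
    have h5 : R ≤ R₄ - t * (R₄ - R) := by nlinarith
    refine ⟨by simp only; linarith, ?_⟩
    rintro (hw | hw)
    · exact hdisj _ (hE₀K hw) (hdiag _ (hRR₀.trans h5) (by linarith))
    · have := hAd _ hw
      simp at this
  have hP4 : JoinedIn {w : ℂ | 0 ≤ w.im ∧ w ∉ E₀ ∪ A} (⟨R, R⟩ : ℂ) ((-1 : ℝ) : ℂ) := by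
    refine hγ.mono ?_
    rintro w ⟨hw1, hw2⟩
    refine ⟨hOim w hw1, ?_⟩
    rintro (hw | hw)
    · exact hdisj w (hE₀K hw) hw1
    · have := hAn w hw
      linarith
  have hb1 : -R₄ < -ζ.im := by
    have := (hEb _ (Or.inr hbA)).1
    simpa using this
  have hfin := enclose_joined (((hP1.trans hP2).trans hP3).trans hP4) hb1
    (by linarith : -ζ.im < -1) hEpre hEim (Or.inr hbA) (Or.inl h0E)
  linarith [hfin.2]

private lemma isPathConnected_phase {A : Set E3} [ContractibleSpace A] (p e : E3) :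
    IsPathConnected (prf p e '' A) :=
  (isPathConnected_iff_pathConnectedSpace.2 inferInstance).image (continuous_prf p e)

private lemma prf_axis (p : E3) {e : E3} (he : ‖e‖ = 1) (s : ℝ) :
    prf p e (p + s • e) = (s : ℂ) := by
  have h1 : p + s • e - p = s • e := by abel
  have h2 : inner ℝ (s • e) e = s := by
    rw [real_inner_smul_left, real_inner_self_eq_norm_sq, he]
    ring
  apply Complex.ext
  · simp only [prf, h1, h2, Complex.ofReal_re]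
  · simp only [prf, h1, h2, norm_smul, he, Complex.ofReal_im, mul_one, Real.norm_eq_abs, sq_abs,
      sub_self, Real.sqrt_zero]

/-- If the zero phase contains the far part of a sector, it contains the far part of the cone. -/
theorem cone_of_sector' {u : E3 → ℝ} (hu : IsEntireSolution u) {p e : E3} (he : ‖e‖ = 1)
    (hs : AxSym u p e) [ContractibleSpace {x | 0 < u x}] [ContractibleSpace {x | u x = 0}]
    (hax : ∀ s : ℝ, u (p + s • e) = 0 ↔ 0 ≤ s)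
    (hab : ∀ x, inner ℝ (x - p) e < 0 → 0 < u x) {η R₀ : ℝ} (hη : 0 < η) (hη2 : η < 1 / 2)
    (hsec : ∀ x, R₀ ≤ ‖x - p‖ → η * ‖x - p‖ ≤ (prf p e x).re → η * ‖x - p‖ ≤ (prf p e x).im →
      u x = 0) :
    ∃ R₁, ∀ x, R₁ ≤ ‖x - p‖ → η * ‖x - p‖ ≤ inner ℝ (x - p) e → u x = 0 := by
  obtain ⟨f, hf, hfe⟩ := exists_perp e
  obtain ⟨R₁, hR₁⟩ := planar_cone (K' := prf p e '' {x | u x = 0}) (O' := prf p e '' {x | 0 < u x})
    (isPathConnected_phase p e) (isPathConnected_phase p e)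
    (by rintro _ ⟨x, -, rfl⟩; exact prf_im_nonneg p e x)
    (by rintro _ ⟨x, -, rfl⟩; exact prf_im_nonneg p e x)
    (by
      rintro _ ⟨x, hx, rfl⟩ ⟨y, hy, hxy⟩
      have h1 := hs.eq_of_prf he hxy
      simp only [mem_setOf_eq] at hx hy
      linarith)
    ⟨p + (0 : ℝ) • e, (hax 0).2 le_rfl, by rw [prf_axis p he]; simp⟩
    ⟨p + (-1 : ℝ) • e, lt_of_le_of_ne (hu.nonneg _)
      (fun h => by have := (hax (-1)).1 h.symm; linarith), prf_axis p he _⟩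
    hη hη2
    (by
      intro w hw1 hw2 hw3
      have hw4 : prf p e (rep p e f w) = w :=
        prf_rep he hf hfe (le_trans (mul_nonneg hη.le (norm_nonneg _)) hw3)
      have hw5 : ‖rep p e f w - p‖ = ‖w‖ := by rw [← norm_prf he, hw4]
      refine ⟨rep p e f w, ?_, hw4⟩
      apply hsec
      · rw [hw5]; exact hw1
      · rw [hw5, hw4]; exact hw2
      · rw [hw5, hw4]; exact hw3)
  refine ⟨R₁, fun x hx1 hx2 => ?_⟩
  by_contra hx
  have hpos : 0 < u x := lt_of_le_of_ne (hu.nonneg x) (Ne.symm hx)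
  have h1 := hR₁ (prf p e x) ⟨x, hpos, rfl⟩ (by rw [norm_prf he]; exact hx1)
  rw [norm_prf he] at h1
  have h2 : (prf p e x).re = inner ℝ (x - p) e := rfl
  rw [h2] at h1
  linarith

/-- If the positive phase contains the far part of a sector, the zero phase lies in a narrow
cone, up to a bounded set. -/
theorem narrow_of_sector' {u : E3 → ℝ} (hu : IsEntireSolution u) {p e : E3} (he : ‖e‖ = 1)
    (hs : AxSym u p e) [ContractibleSpace {x | 0 < u x}] [ContractibleSpace {x | u x = 0}]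
    (hax : ∀ s : ℝ, u (p + s • e) = 0 ↔ 0 ≤ s)
    (hab : ∀ x, inner ℝ (x - p) e < 0 → 0 < u x) {η R₀ : ℝ} (hη : 0 < η) (hη2 : η < 1 / 2)
    (hsec : ∀ x, R₀ ≤ ‖x - p‖ → η * ‖x - p‖ ≤ (prf p e x).re → η * ‖x - p‖ ≤ (prf p e x).im →
      0 < u x) :
    ∃ R₁, ∀ x, u x = 0 → R₁ ≤ ‖x - p‖ → (prf p e x).im ≤ η * ‖x - p‖ := by
  obtain ⟨f, hf, hfe⟩ := exists_perp e
  obtain ⟨R₁, hR₁⟩ := planar_narrow (K' := prf p e '' {x | u x = 0})
    (O' := prf p e '' {x | 0 < u x})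
    (isPathConnected_phase p e) (isPathConnected_phase p e)
    (by rintro _ ⟨x, -, rfl⟩; exact prf_im_nonneg p e x)
    (by rintro _ ⟨x, -, rfl⟩; exact prf_im_nonneg p e x)
    (by
      rintro _ ⟨x, hx, rfl⟩ ⟨y, hy, hxy⟩
      have h1 := hs.eq_of_prf he hxy
      simp only [mem_setOf_eq] at hx hy
      linarith)
    ⟨p + (0 : ℝ) • e, (hax 0).2 le_rfl, prf_axis p he _⟩
    ⟨p + (-1 : ℝ) • e, lt_of_le_of_ne (hu.nonneg _)
      (fun h => by have := (hax (-1)).1 h.symm; linarith), prf_axis p he _⟩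
    hη hη2
    (by
      rintro _ ⟨x, hx, rfl⟩
      by_contra h
      rw [not_le] at h
      have h2 := hab x h
      simp only [mem_setOf_eq] at hx
      linarith)
    (by
      intro w hw1 hw2 hw3
      have hw4 : prf p e (rep p e f w) = w :=
        prf_rep he hf hfe (le_trans (mul_nonneg hη.le (norm_nonneg _)) hw3)
      have hw5 : ‖rep p e f w - p‖ = ‖w‖ := by rw [← norm_prf he, hw4]
      refine ⟨rep p e f w, ?_, hw4⟩
      apply hsec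
      · rw [hw5]; exact hw1
      · rw [hw5, hw4]; exact hw2
      · rw [hw5, hw4]; exact hw3)
  refine ⟨R₁, fun x hx1 hx2 => ?_⟩
  have h1 := hR₁ (prf p e x) ⟨x, hx1, rfl⟩ (by rw [norm_prf he]; exact hx2)
  rwa [norm_prf he] at h1

end FB75
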