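import Mathlib

/-!
# Screw motions
-/

namespace FB75

/-- The screw motion about the third coordinate axis: rotation by the angle `θ` in the plane of
the first two coordinates, and translation by `c * θ` along the third axis. -/
noncomputable def screw (c θ : ℝ) (x : EuclideanSpace ℝ (Fin 3)) : EuclideanSpace ℝ (Fin 3) :=
  !₂[x 0 * Real.cos θ - x 1 * Real.sin θ, x 0 * Real.sin θ + x 1 * Real.cos θ, x 2 + c * θ]

end FB75
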