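import Pool.Agent.FB75.Large
import Pool.Agent.FB75.ScrewDef

/-!
# Screw-invariant functions with simply connected positive phase
-/

open Metric Set Filter Topology Complex

namespace FB75

/-- The quotient map by the screw group. -/
noncomputable def qmap (c : ℝ) (x : E3) : ℂ :=
  Complex.exp (-(I * ((x 2 / c : ℝ) : ℂ))) * ((x 0 : ℂ) + I * (x 1 : ℂ))

theorem qmap_continuous (c : ℝ) : Continuous (qmap c) := by
  unfold qmap
  fun_prop

/-- Points with the same image under `qmap` lie on one helix. -/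
theorem exists_screw_of_qmap_eq {c : ℝ} (hc : c ≠ 0) {x y : E3} (h : qmap c x = qmap c y) :
    ∃ θ, x = screw c θ y := by
  refine ⟨(x 2 - y 2) / c, ?_⟩
  set θ : ℝ := (x 2 - y 2) / c with hθ
  have h2 : x 2 = y 2 + c * θ := by rw [hθ]; field_simp; ring
  have h1 : ((x 0 : ℂ) + I * (x 1 : ℂ)) = Complex.exp (I * (θ : ℂ)) * ((y 0 : ℂ) + I * (y 1 : ℂ)) := by
    have e1 : (x 0 : ℂ) + I * (x 1 : ℂ) = Complex.exp (I * ((x 2 / c : ℝ) : ℂ)) * qmap c x := by
      rw [qmap, ← mul_assoc, ← Complex.exp_add]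
      simp
    rw [e1, h, qmap, ← mul_assoc, ← Complex.exp_add]
    congr 2
    rw [hθ]
    push_cast
    ring
  have h3 : Complex.exp (I * (θ : ℂ)) = (Real.cos θ : ℂ) + (Real.sin θ : ℂ) * I := by
    rw [mul_comm, Complex.exp_mul_I]
    simp
  rw [h3] at h1
  have hre := congrArg Complex.re h1
  have him := congrArg Complex.im h1
  simp only [add_re, add_im, mul_re, mul_im, ofReal_re, ofReal_im, I_re, I_im] at hre him
  ext i
  fin_cases i
  · simp [screw]
    linarith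
  · simp [screw]
    linarith
  · simpa [screw] using h2

theorem circle_meets {w : E3 → ℝ} (hw : Continuous w) (h0 : ∀ x, 0 ≤ w x) {c : ℝ} (hc : c ≠ 0)
    (hinv : ∀ θ x, w (screw c θ x) = w x) (hsc : SimplyConnectedSpace {x | 0 < w x})
    {x₀ : E3} (hx₀ : w x₀ = 0) {R : ℝ} (hR : ‖qmap c x₀‖ < R) :
    ∃ θ : ℝ, w !₂[R * Real.cos θ, R * Real.sin θ, 0] = 0 := by
  by_contra hcon
  push Not at hcon
  have hR0 : 0 < R := (norm_nonneg _).trans_lt hR
  set k : ℂ := qmap c x₀ with hk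
  have hne : ∀ x : {x | 0 < w x}, qmap c x.1 - k ≠ 0 := by
    rintro ⟨x, hx⟩ h
    obtain ⟨θ, hθ⟩ := exists_screw_of_qmap_eq hc (sub_eq_zero.1 h)
    have hx' : 0 < w x := hx
    have hθ' : x = screw c θ x₀ := hθ
    rw [hθ', hinv, hx₀] at hx'
    exact lt_irrefl _ hx'
  have ho : IsOpen {x | 0 < w x} := isOpen_lt continuous_const hw
  have : LocallyPathConnectedSpace {x | 0 < w x} := ho.locallyPathConnectedSpace
  -- the loop
  let γ : ℝ → {x | 0 < w x} := fun θ => ⟨!₂[R * Real.cos θ, R * Real.sin θ, 0],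
    lt_of_le_of_ne (h0 _) (Ne.symm (hcon θ))⟩
  have hγc : Continuous γ := by
    refine Continuous.subtype_mk ?_ _
    fun_prop
  let f : C({x | 0 < w x}, {z : ℂ // z ≠ 0}) :=
    ⟨fun x => ⟨qmap c x.1 - k, hne x⟩, by
      refine Continuous.subtype_mk ?_ _
      exact ((qmap_continuous c).comp continuous_subtype_val).sub continuous_const⟩
  obtain ⟨F, ⟨-, hF⟩, -⟩ := Complex.isCoveringMap_exp.existsUnique_continuousMap_lifts f (γ 0)
    (Complex.log (f (γ 0)).1) (by
      apply Subtype.ext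
      exact Complex.exp_log (f (γ 0)).2)
  have hexp : ∀ x, Complex.exp (F x) = qmap c x.1 - k := by
    intro x
    have := congrArg (fun g => (g x : ℂ)) hF
    exact this
  have hq : ∀ θ : ℝ, qmap c (γ θ).1 = R * Complex.exp (θ * I) := by
    intro θ
    simp only [γ, qmap]
    simp [Complex.exp_mul_I]
    ring
  have hk1 : ∀ θ : ℝ, ‖k / R * Complex.exp (-(θ * I))‖ < 1 := by
    intro θ
    rw [norm_mul, norm_div, Complex.norm_exp]
    simp only [norm_real, Real.norm_eq_abs, abs_of_pos hR0]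
    simp
    rw [div_lt_one hR0]
    exact hR
  have hslit : ∀ θ : ℝ, 1 - k / R * Complex.exp (-(θ * I)) ∈ slitPlane := by
    intro θ
    left
    have h1 := Complex.abs_re_le_norm (k / R * Complex.exp (-(θ * I)))
    have h2 := (abs_le.1 (h1.trans (hk1 θ).le)).2
    have h3 := lt_of_le_of_lt (le_abs_self _) (lt_of_le_of_lt h1 (hk1 θ))
    rw [sub_re, one_re]
    linarith
  let G : ℝ → ℂ := fun θ => F (γ θ) - Complex.log (1 - k / R * Complex.exp (-(θ * I)))
    - Complex.log R - θ * I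
  have hGc : Continuous G := by
    have h1 : Continuous fun θ : ℝ => F (γ θ) := F.continuous.comp hγc
    have h2 : Continuous fun θ : ℝ => Complex.log (1 - k / R * Complex.exp (-(θ * I))) := by
      refine Continuous.clog (by fun_prop) hslit
    fun_prop
  have hRC : (R : ℂ) ≠ 0 := by exact_mod_cast hR0.ne'
  have hG : ∀ θ, Complex.exp (G θ) = 1 := by
    intro θ
    have hn : (1 - k / R * Complex.exp (-(θ * I))) ≠ 0 := slitPlane_ne_zero (hslit θ)
    simp only [G]
    rw [Complex.exp_sub, Complex.exp_sub, Complex.exp_sub, hexp, hq, Complex.exp_log hn,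
      Complex.exp_log hRC]
    have he : Complex.exp (θ * I) ≠ 0 := Complex.exp_ne_zero _
    rw [div_div, div_div, div_eq_one_iff_eq (by
      refine mul_ne_zero hn (mul_ne_zero hRC he))]
    rw [Complex.exp_neg]
    field_simp
  have hint : ∀ θ, ∃ n : ℤ, G θ = n * (2 * Real.pi * I) := fun θ =>
    Complex.exp_eq_one_iff.1 (hG θ)
  let g : ℝ → ℝ := fun θ => (G θ).im / (2 * Real.pi)
  have hgc : Continuous g := (Complex.continuous_im.comp hGc).div_const _
  have hgint : ∀ θ, ∃ n : ℤ, g θ = n := by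
    intro θ
    obtain ⟨n, hn⟩ := hint θ
    refine ⟨n, ?_⟩
    simp only [g, hn]
    simp
  have hγper : γ (2 * Real.pi) = γ 0 := by
    apply Subtype.ext
    simp [γ]
  have hg2 : g (2 * Real.pi) = g 0 - 1 := by
    simp only [g, G, hγper]
    have e1 : Complex.exp (-(((2 * Real.pi : ℝ) : ℂ) * I)) = 1 := by
      push_cast
      rw [Complex.exp_neg, Complex.exp_two_pi_mul_I]
      simp
    rw [e1]
    simp
    field_simp
  have hivt : g 0 - 1 / 2 ∈ g '' Icc 0 (2 * Real.pi) := by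
    have := intermediate_value_Icc' (by positivity : (0 : ℝ) ≤ 2 * Real.pi) hgc.continuousOn
    apply this
    constructor
    · rw [hg2]; linarith
    · linarith
  obtain ⟨θ, -, hθ⟩ := hivt
  obtain ⟨n, hn⟩ := hgint θ
  obtain ⟨m, hm⟩ := hgint 0
  rw [hn, hm] at hθ
  have : (2 * n : ℝ) = 2 * m - 1 := by linarith
  have h' : (2 * n : ℤ) = 2 * m - 1 := by exact_mod_cast this
  omega

theorem screw_near {w : E3 → ℝ} {c : ℝ} (hc : c ≠ 0)
    (hinv : ∀ θ x, w (screw c θ x) = w x) {r : ℝ}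
    (hcirc : ∀ R, r < R → ∃ θ : ℝ, w !₂[R * Real.cos θ, R * Real.sin θ, 0] = 0) {x : E3}
    (hx : r < ‖((x 0 : ℂ) + I * (x 1 : ℂ))‖) :
    ∃ y, w y = 0 ∧ dist x y ≤ 2 * Real.pi * |c| := by
  set z : ℂ := (x 0 : ℂ) + I * (x 1 : ℂ) with hz
  obtain ⟨θ₀, hθ₀⟩ := hcirc ‖z‖ hx
  set α : ℝ := Complex.arg z with hα
  set n : ℤ := ⌊(x 2 / c - (α - θ₀)) / (2 * Real.pi)⌋ with hn
  set t : ℝ := α - θ₀ + n * (2 * Real.pi) with ht
  have hx0 : ‖z‖ * Real.cos α = x 0 := by
    rw [hα, Complex.norm_mul_cos_arg]; simp [hz]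
  have hx1 : ‖z‖ * Real.sin α = x 1 := by
    rw [hα, Complex.norm_mul_sin_arg]; simp [hz]
  have hy : screw c t !₂[‖z‖ * Real.cos θ₀, ‖z‖ * Real.sin θ₀, 0] = !₂[x 0, x 1, c * t] := by
    have e : θ₀ + t = α + n * (2 * Real.pi) := by rw [ht]; ring
    have e0 : ‖z‖ * Real.cos θ₀ * Real.cos t - ‖z‖ * Real.sin θ₀ * Real.sin t = x 0 := by
      rw [← hx0, ← Real.cos_add_int_mul_two_pi α n, ← e, Real.cos_add θ₀ t]; ring
    have e1 : ‖z‖ * Real.cos θ₀ * Real.sin t + ‖z‖ * Real.sin θ₀ * Real.cos t = x 1 := by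
      rw [← hx1, ← Real.sin_add_int_mul_two_pi α n, ← e, Real.sin_add θ₀ t]; ring
    ext i
    fin_cases i
    · simpa [screw] using e0
    · simpa [screw] using e1
    · simp [screw]
  refine ⟨!₂[x 0, x 1, c * t], ?_, ?_⟩
  · rw [← hy, hinv, hθ₀]
  · have h1 : dist x !₂[x 0, x 1, c * t] = |x 2 - c * t| := by
      rw [EuclideanSpace.dist_eq, Fin.sum_univ_three]
      simp [Real.dist_eq, Real.sqrt_sq_eq_abs]
    rw [h1]
    have h2 : x 2 - c * t = c * (x 2 / c - t) := by field_simp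
    rw [h2, abs_mul, mul_comm]
    refine mul_le_mul_of_nonneg_right ?_ (abs_nonneg c)
    have hpi : 0 < 2 * Real.pi := by positivity
    have h3 := Int.floor_le ((x 2 / c - (α - θ₀)) / (2 * Real.pi))
    have h4 := Int.lt_floor_add_one ((x 2 / c - (α - θ₀)) / (2 * Real.pi))
    rw [← hn] at h3 h4
    rw [le_div_iff₀ hpi] at h3
    rw [div_lt_iff₀ hpi] at h4
    rw [abs_le, ht]
    constructor <;> linarith

theorem screw_dense {w : E3 → ℝ} (hw : Continuous w) (h0 : ∀ x, 0 ≤ w x) {c : ℝ} (hc : c ≠ 0)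
    (hinv : ∀ θ x, w (screw c θ x) = w x) (hsc : SimplyConnectedSpace {x | 0 < w x})
    {x₀ : E3} (hx₀ : w x₀ = 0) : ∃ L, ∀ x, ∃ y, w y = 0 ∧ dist x y ≤ L := by
  set r : ℝ := ‖qmap c x₀‖ with hr
  have hr0 : 0 ≤ r := norm_nonneg _
  have hcirc : ∀ R, r < R → ∃ θ : ℝ, w !₂[R * Real.cos θ, R * Real.sin θ, 0] = 0 :=
    fun R hR => circle_meets hw h0 hc hinv hsc hx₀ hR
  refine ⟨2 * Real.pi * |c| + (2 * r + 1), fun x => ?_⟩
  by_cases hx : r < ‖((x 0 : ℂ) + I * (x 1 : ℂ))‖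
  · obtain ⟨y, hy, hd⟩ := screw_near hc hinv hcirc hx
    exact ⟨y, hy, by linarith⟩
  · push Not at hx
    set x' : E3 := !₂[x 0 + (2 * r + 1), x 1, x 2] with hx'
    have h1 : r < ‖((x' 0 : ℂ) + I * (x' 1 : ℂ))‖ := by
      have e : ((x' 0 : ℂ) + I * (x' 1 : ℂ)) =
          ((2 * r + 1 : ℝ) : ℂ) - -((x 0 : ℂ) + I * (x 1 : ℂ)) := by
        simp [hx']
        ring
      rw [e]
      have h2 := norm_sub_norm_le ((2 * r + 1 : ℝ) : ℂ) (-((x 0 : ℂ) + I * (x 1 : ℂ)))
      rw [norm_neg, Complex.norm_real, Real.norm_of_nonneg (by linarith)] at h2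
      linarith
    obtain ⟨y, hy, hd⟩ := screw_near hc hinv hcirc h1
    refine ⟨y, hy, ?_⟩
    have h3 : dist x x' = 2 * r + 1 := by
      rw [EuclideanSpace.dist_eq, Fin.sum_univ_three]
      simp [hx']
      rw [Real.sqrt_sq_eq_abs, abs_of_nonneg (by linarith)]
    linarith [dist_triangle x x' y]

/-- A solution invariant under a screw group, with simply connected positive phase, has no zero
phase. -/
theorem no_screw {u : E3 → ℝ} (hu : IsEntireSolution u) (T : E3 ≃ᵢ E3) {c : ℝ} (hc : c ≠ 0)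
    (hinv : ∀ θ x, u (T (screw c θ x)) = u (T x)) (hsc : SimplyConnectedSpace {x | 0 < u x}) :
    ∀ x, u x ≠ 0 := by
  intro x₀ hx₀
  let w : E3 → ℝ := fun x => u (T x)
  have hw : Continuous w := hu.continuous.comp T.continuous
  have hset : {x | 0 < w x} = T ⁻¹' {x | 0 < u x} := rfl
  have hsc' : SimplyConnectedSpace {x | 0 < w x} := by
    have e : {x | 0 < w x} ≃ₜ {x | 0 < u x} :=
      T.toHomeomorph.subtype (fun x => Iff.rfl)
    exact e.toHomotopyEquiv.simplyConnectedSpace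
  obtain ⟨L, hL⟩ := screw_dense hw (fun x => hu.nonneg _) hc hinv hsc'
    (x₀ := T.symm x₀) (by simp [w, hx₀])
  have hL' : ∀ x, ∃ y, u y = 0 ∧ dist x y ≤ L := by
    intro x
    obtain ⟨y, hy, hd⟩ := hL (T.symm x)
    refine ⟨T y, hy, ?_⟩
    have : dist (T (T.symm x)) (T y) = dist (T.symm x) y := T.dist_eq _ _
    rw [T.apply_symm_apply] at this
    rw [this]; exact hd
  have hz := trivial_of_dense hu hL'
  have hne : Nonempty {x | 0 < u x} := by
    have : PathConnectedSpace {x | 0 < u x} := inferInstance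
    exact this.nonempty
  obtain ⟨x, hx⟩ := hne
  have : 0 < u x := hx
  rw [hz x] at this
  exact lt_irrefl _ this

end FB75
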