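import Pool.Agent.FB75.Profile
import Pool.Agent.FB75.AreaLow

/-!
# No free boundary in the far part of a sector
-/

open MeasureTheory Metric Set Filter Topology InnerProductSpace Laplacian
open scoped ContDiff

namespace FB75

private theorem sector_norm_perp {e : E3} (he : ‖e‖ = 1) (v : E3) :
    ‖v - (inner ℝ v e) • e‖ ^ 2 = ‖v‖ ^ 2 - (inner ℝ v e) ^ 2 := by
  rw [norm_sub_sq_real, inner_smul_right, norm_smul, he, Real.norm_eq_abs, mul_one, sq_abs]
  ring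

private theorem sector_im {e : E3} (he : ‖e‖ = 1) (p y : E3) :
    (prf p e y).im = ‖(y - p) - (inner ℝ (y - p) e) • e‖ := by
  change √(‖y - p‖ ^ 2 - (inner ℝ (y - p) e) ^ 2) = _
  rw [← sector_norm_perp he, Real.sqrt_sq (norm_nonneg _)]

private theorem sector_perp_le {e : E3} (he : ‖e‖ = 1) (v : E3) :
    ‖v - (inner ℝ v e) • e‖ ≤ ‖v‖ := by
  have h := sector_norm_perp he v
  have h2 : ‖v - (inner ℝ v e) • e‖ ^ 2 ≤ ‖v‖ ^ 2 := by
    rw [h]; nlinarith [sq_nonneg (inner ℝ v e)]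
  exact (pow_le_pow_iff_left₀ (norm_nonneg _) (norm_nonneg _) two_ne_zero).1 h2

private theorem sector_ivt {f : ℝ → ℝ} (hf : Continuous f) {T q ρ : ℝ} (hρ : 0 < ρ) (hT : 0 ≤ T)
    (h0 : |f 0 - q| ≤ ρ / 4) (h1 : ρ ≤ |f T - q|) :
    ∃ c, |c - q| ≤ 3 * ρ / 4 ∧ ∀ x ∈ Icc (c - ρ / 4) (c + ρ / 4), ∃ t ∈ Ico 0 T, f t = x := by
  have h0' := abs_le.1 h0
  rcases le_abs.1 h1 with h | h
  · refine ⟨q + 5 * ρ / 8, ?_, ?_⟩
    · rw [abs_le]; constructor <;> linarith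
    · intro x hx
      obtain ⟨t, ht, htx⟩ := intermediate_value_Icc hT hf.continuousOn
        (show x ∈ Icc (f 0) (f T) from ⟨by linarith [hx.1, h0'.2], by linarith [hx.2]⟩)
      refine ⟨t, ⟨ht.1, lt_of_le_of_ne ht.2 ?_⟩, htx⟩
      rintro rfl
      linarith [hx.2]
  · refine ⟨q - 5 * ρ / 8, ?_, ?_⟩
    · rw [abs_le]; constructor <;> linarith
    · intro x hx
      obtain ⟨t, ht, htx⟩ := intermediate_value_Icc' hT hf.continuousOn
        (show x ∈ Icc (f T) (f 0) from ⟨by linarith [hx.1], by linarith [hx.2, h0'.1]⟩)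
      refine ⟨t, ⟨ht.1, lt_of_le_of_ne ht.2 ?_⟩, htx⟩
      rintro rfl
      linarith [hx.1]

private theorem sector_cover {S : Set ℂ} {q a b : ℂ} {ρ : ℝ} (hρ : 0 < ρ) (h : JoinedIn S a b)
    (ha1 : |a.re - q.re| ≤ ρ / 4) (ha2 : |a.im - q.im| ≤ ρ / 4)
    (hb : ρ ≤ |b.re - q.re| ∨ ρ ≤ |b.im - q.im|) :
    (∃ c, |c - q.re| ≤ 3 * ρ / 4 ∧ ∀ x ∈ Icc (c - ρ / 4) (c + ρ / 4),
      ∃ ζ ∈ S, ζ.re = x ∧ |ζ.im - q.im| ≤ ρ) ∨
    (∃ c, |c - q.im| ≤ 3 * ρ / 4 ∧ ∀ x ∈ Icc (c - ρ / 4) (c + ρ / 4),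
      ∃ ζ ∈ S, ζ.im = x ∧ |ζ.re - q.re| ≤ ρ) := by
  obtain ⟨γ, hγ⟩ := h
  set g : ℝ → ℂ := fun t => γ.extend t with hg
  have hgc : Continuous g := γ.extend.continuous
  have hgS : ∀ t, g t ∈ S := by
    intro t
    have h1 : g t ∈ range γ := by
      rw [← γ.extend_range]; exact mem_range_self t
    obtain ⟨s, hs⟩ := h1
    rw [← hs]; exact hγ s
  have hg0 : g 0 = a := by simp [hg]
  have hg1 : g 1 = b := by simp [hg]
  have hrec : Continuous fun t => (g t).re := Complex.continuous_re.comp hgc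
  have himc : Continuous fun t => (g t).im := Complex.continuous_im.comp hgc
  set G : ℝ → ℝ := fun t => max |(g t).re - q.re| |(g t).im - q.im| with hG
  have hGc : Continuous G := ((hrec.sub continuous_const).abs).max
    ((himc.sub continuous_const).abs)
  have hZc : IsCompact (Icc (0 : ℝ) 1 ∩ {t | ρ ≤ G t}) :=
    isCompact_Icc.inter_right (isClosed_le continuous_const hGc)
  have hZn : (Icc (0 : ℝ) 1 ∩ {t | ρ ≤ G t}).Nonempty := by
    refine ⟨1, ⟨by norm_num, by norm_num⟩, ?_⟩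
    change ρ ≤ G 1
    rw [hG]
    simp only [hg1]
    exact le_max_iff.2 hb
  obtain ⟨T, hTZ, hTl⟩ := hZc.exists_isLeast hZn
  have hT0 : 0 ≤ T := hTZ.1.1
  have hlt : ∀ t ∈ Ico 0 T, G t < ρ := by
    intro t ht
    by_contra hcon
    push Not at hcon
    have := hTl (show t ∈ Icc (0 : ℝ) 1 ∩ {t | ρ ≤ G t} from
      ⟨⟨ht.1, ht.2.le.trans hTZ.1.2⟩, hcon⟩)
    linarith [ht.2]
  have hTG : ρ ≤ max |(g T).re - q.re| |(g T).im - q.im| := hTZ.2
  rcases le_max_iff.1 hTG with h1 | h1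
  · left
    obtain ⟨c, hc, hcx⟩ := sector_ivt (f := fun t => (g t).re) hrec hρ hT0
      (by simp only [hg0]; exact ha1) h1
    refine ⟨c, hc, fun x hx => ?_⟩
    obtain ⟨t, ht, htx⟩ := hcx x hx
    refine ⟨g t, hgS t, htx, ?_⟩
    exact (le_max_right _ _).trans (hlt t ht).le
  · right
    obtain ⟨c, hc, hcx⟩ := sector_ivt (f := fun t => (g t).im) himc hρ hT0
      (by simp only [hg0]; exact ha2) h1
    refine ⟨c, hc, fun x hx => ?_⟩
    obtain ⟨t, ht, htx⟩ := hcx x hx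
    refine ⟨g t, hgS t, htx, ?_⟩
    exact (le_max_left _ _).trans (hlt t ht).le

private theorem sector_mixed {S T : Set ℂ} {q a b a' b' : ℂ} {ρ : ℝ} (hρ : 0 < ρ)
    (hST : ∀ ζ : ℂ, |ζ.re - q.re| ≤ ρ → |ζ.im - q.im| ≤ ρ → ζ ∈ S ∨ ζ ∈ T)
    (h : JoinedIn S a b) (ha1 : |a.re - q.re| ≤ ρ / 4) (ha2 : |a.im - q.im| ≤ ρ / 4)
    (hb : ρ ≤ |b.re - q.re| ∨ ρ ≤ |b.im - q.im|)
    (h' : JoinedIn T a' b') (ha1' : |a'.re - q.re| ≤ ρ / 4) (ha2' : |a'.im - q.im| ≤ ρ / 4)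
    (hb' : ρ ≤ |b'.re - q.re| ∨ ρ ≤ |b'.im - q.im|) :
    (∃ c, |c - q.re| ≤ 3 * ρ / 4 ∧ ∀ x ∈ Icc (c - ρ / 4) (c + ρ / 4),
      (∃ ζ ∈ S, ζ.re = x ∧ |ζ.im - q.im| ≤ ρ) ∧ ∃ ζ ∈ T, ζ.re = x ∧ |ζ.im - q.im| ≤ ρ) ∨
    (∃ c, |c - q.im| ≤ 3 * ρ / 4 ∧ ∀ x ∈ Icc (c - ρ / 4) (c + ρ / 4),
      (∃ ζ ∈ S, ζ.im = x ∧ |ζ.re - q.re| ≤ ρ) ∧ ∃ ζ ∈ T, ζ.im = x ∧ |ζ.re - q.re| ≤ ρ) := by
  have hin : ∀ {c y : ℝ}, ∀ {x}, |c - y| ≤ 3 * ρ / 4 → x ∈ Icc (c - ρ / 4) (c + ρ / 4) →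
      |x - y| ≤ ρ := by
    intro c y x hc hx
    have h1 := abs_le.1 hc
    rw [abs_le]; constructor <;> linarith [hx.1, hx.2]
  -- a vertical line which avoids one set forces the other set on all horizontal lines
  have hV : ∀ {A B : Set ℂ} {x : ℝ},
      (∀ ζ : ℂ, |ζ.re - q.re| ≤ ρ → |ζ.im - q.im| ≤ ρ → ζ ∈ A ∨ ζ ∈ B) → |x - q.re| ≤ ρ →
      (¬ ∃ ζ ∈ B, ζ.re = x ∧ |ζ.im - q.im| ≤ ρ) →
      ∀ y, |y - q.im| ≤ ρ → ∃ ζ ∈ A, ζ.im = y ∧ |ζ.re - q.re| ≤ ρ := by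
    intro A B x hAB hx hno y hy
    rcases hAB ⟨x, y⟩ hx hy with hA | hB
    · exact ⟨⟨x, y⟩, hA, rfl, hx⟩
    · exact absurd ⟨⟨x, y⟩, hB, rfl, hy⟩ hno
  have hH : ∀ {A B : Set ℂ} {y : ℝ},
      (∀ ζ : ℂ, |ζ.re - q.re| ≤ ρ → |ζ.im - q.im| ≤ ρ → ζ ∈ A ∨ ζ ∈ B) → |y - q.im| ≤ ρ →
      (¬ ∃ ζ ∈ B, ζ.im = y ∧ |ζ.re - q.re| ≤ ρ) →
      ∀ x, |x - q.re| ≤ ρ → ∃ ζ ∈ A, ζ.re = x ∧ |ζ.im - q.im| ≤ ρ := by
    intro A B y hAB hy hno x hx
    rcases hAB ⟨x, y⟩ hx hy with hA | hB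
    · exact ⟨⟨x, y⟩, hA, rfl, hy⟩
    · exact absurd ⟨⟨x, y⟩, hB, rfl, hx⟩ hno
  have hTS : ∀ ζ : ℂ, |ζ.re - q.re| ≤ ρ → |ζ.im - q.im| ≤ ρ → ζ ∈ T ∨ ζ ∈ S :=
    fun ζ h1 h2 => (hST ζ h1 h2).symm
  rcases sector_cover hρ h ha1 ha2 hb with ⟨c, hc, hcS⟩ | ⟨c, hc, hcS⟩ <;>
  rcases sector_cover hρ h' ha1' ha2' hb' with ⟨d, hd, hdT⟩ | ⟨d, hd, hdT⟩
  · -- both vertical
    by_cases h1 : ∀ x ∈ Icc (c - ρ / 4) (c + ρ / 4), ∃ ζ ∈ T, ζ.re = x ∧ |ζ.im - q.im| ≤ ρ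
    · exact Or.inl ⟨c, hc, fun x hx => ⟨hcS x hx, h1 x hx⟩⟩
    by_cases h2 : ∀ x ∈ Icc (d - ρ / 4) (d + ρ / 4), ∃ ζ ∈ S, ζ.re = x ∧ |ζ.im - q.im| ≤ ρ
    · exact Or.inl ⟨d, hd, fun x hx => ⟨h2 x hx, hdT x hx⟩⟩
    push Not at h1 h2
    obtain ⟨x1, hx1, hn1⟩ := h1
    obtain ⟨x2, hx2, hn2⟩ := h2
    have e1 := hV hST (hin hc hx1) (by push Not; exact hn1)
    have e2 := hV hTS (hin hd hx2) (by push Not; exact hn2)
    refine Or.inr ⟨q.im, by rw [sub_self, abs_zero]; positivity, fun y hy => ?_⟩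
    have hy' : |y - q.im| ≤ ρ := by rw [abs_le]; constructor <;> linarith [hy.1, hy.2]
    exact ⟨e1 y hy', e2 y hy'⟩
  · -- S vertical, T horizontal
    by_cases h1 : ∀ x ∈ Icc (c - ρ / 4) (c + ρ / 4), ∃ ζ ∈ T, ζ.re = x ∧ |ζ.im - q.im| ≤ ρ
    · exact Or.inl ⟨c, hc, fun x hx => ⟨hcS x hx, h1 x hx⟩⟩
    push Not at h1
    obtain ⟨x1, hx1, hn1⟩ := h1
    have e1 := hV hST (hin hc hx1) (by push Not; exact hn1)
    exact Or.inr ⟨d, hd, fun y hy => ⟨e1 y (hin hd hy), hdT y hy⟩⟩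
  · -- S horizontal, T vertical
    by_cases h1 : ∀ x ∈ Icc (d - ρ / 4) (d + ρ / 4), ∃ ζ ∈ S, ζ.re = x ∧ |ζ.im - q.im| ≤ ρ
    · exact Or.inl ⟨d, hd, fun x hx => ⟨h1 x hx, hdT x hx⟩⟩
    push Not at h1
    obtain ⟨x1, hx1, hn1⟩ := h1
    have e1 := hV hTS (hin hd hx1) (by push Not; exact hn1)
    exact Or.inr ⟨c, hc, fun y hy => ⟨hcS y hy, e1 y (hin hc hy)⟩⟩
  · -- both horizontal
    by_cases h1 : ∀ x ∈ Icc (c - ρ / 4) (c + ρ / 4), ∃ ζ ∈ T, ζ.im = x ∧ |ζ.re - q.re| ≤ ρ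
    · exact Or.inr ⟨c, hc, fun x hx => ⟨hcS x hx, h1 x hx⟩⟩
    by_cases h2 : ∀ x ∈ Icc (d - ρ / 4) (d + ρ / 4), ∃ ζ ∈ S, ζ.im = x ∧ |ζ.re - q.re| ≤ ρ
    · exact Or.inr ⟨d, hd, fun x hx => ⟨h2 x hx, hdT x hx⟩⟩
    push Not at h1 h2
    obtain ⟨x1, hx1, hn1⟩ := h1
    obtain ⟨x2, hx2, hn2⟩ := h2
    have e1 := hH hST (hin hc hx1) (by push Not; exact hn1)
    have e2 := hH hTS (hin hd hx2) (by push Not; exact hn2)
    refine Or.inl ⟨q.re, by rw [sub_self, abs_zero]; positivity, fun y hy => ?_⟩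
    have hy' : |y - q.re| ≤ ρ := by rw [abs_le]; constructor <;> linarith [hy.1, hy.2]
    exact ⟨e1 y hy', e2 y hy'⟩

/-- A segment perpendicular to the axis, in the profile. -/
private theorem sector_seg_perp {p e f : E3} (he : ‖e‖ = 1) (hf : ‖f‖ = 1)
    (hfe : inner ℝ f e = 0) {z r ρ : ℝ} (hρ : 0 < ρ) (hr : 2 * ρ ≤ r) {x : E3}
    (hx : x ∈ closedBall (p + z • e + (r - 2 * ρ) • f) (ρ / 8)) {ζ : ℂ}
    (h1 : ζ.re = inner ℝ (x - p) e) (h2 : |ζ.im - r| ≤ ρ) :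
    ∃ s ∈ Icc (0 : ℝ) (4 * ρ), prf p e (x + s • f) = ζ := by
  have hee : inner ℝ e e = (1 : ℝ) := by rw [real_inner_self_eq_norm_sq, he]; norm_num
  set c : E3 := p + z • e + (r - 2 * ρ) • f with hc
  rw [mem_closedBall, dist_eq_norm] at hx
  have hre : ∀ s : ℝ, (prf p e (x + s • f)).re = inner ℝ (x - p) e := by
    intro s
    change inner ℝ (x + s • f - p) e = _
    rw [show x + s • f - p = (x - p) + s • f by abel, inner_add_left, inner_smul_left, hfe]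
    simp
  have hcp : inner ℝ (c - p) e = z := by
    rw [hc, show p + z • e + (r - 2 * ρ) • f - p = z • e + (r - 2 * ρ) • f by abel,
      inner_add_left, inner_smul_left, inner_smul_left, hfe, hee]
    simp
  have hperp : ∀ s : ℝ, ‖(x + s • f - p) - (inner ℝ (x + s • f - p) e) • e
      - (r - 2 * ρ + s) • f‖ ≤ ρ / 8 := by
    intro s
    have e1 : inner ℝ (x + s • f - p) e = inner ℝ (x - p) e := hre s
    have e2 : (x + s • f - p) - (inner ℝ (x + s • f - p) e) • e - (r - 2 * ρ + s) • f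
        = (x - c) - (inner ℝ (x - c) e) • e := by
      rw [e1]
      have e3 : inner ℝ (x - c) e = inner ℝ (x - p) e - z := by
        rw [← hcp, ← inner_sub_left]; congr 1; abel
      rw [e3, hc]
      module
    rw [e2]
    exact (sector_perp_le he _).trans hx
  have him : ∀ s : ℝ, 0 ≤ s → |(prf p e (x + s • f)).im - (r - 2 * ρ + s)| ≤ ρ / 8 := by
    intro s hs
    rw [sector_im he]
    have h3 := hperp s
    have h4 : ‖(r - 2 * ρ + s) • f‖ = r - 2 * ρ + s := by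
      rw [norm_smul, hf, mul_one, Real.norm_of_nonneg (by linarith)]
    have h5 := abs_norm_sub_norm_le ((x + s • f - p) - (inner ℝ (x + s • f - p) e) • e)
      ((r - 2 * ρ + s) • f)
    rw [h4] at h5
    exact h5.trans h3
  have hcont : Continuous fun s : ℝ => (prf p e (x + s • f)).im :=
    Complex.continuous_im.comp ((continuous_prf p e).comp (by fun_prop))
  have h2' := abs_le.1 h2
  have ha := abs_le.1 (him 0 le_rfl)
  have hb := abs_le.1 (him (4 * ρ) (by linarith))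
  obtain ⟨s, hs, hss⟩ := intermediate_value_Icc (show (0 : ℝ) ≤ 4 * ρ by linarith)
    hcont.continuousOn (show ζ.im ∈ Icc _ _ from ⟨by linarith [ha.2], by linarith [hb.1]⟩)
  exact ⟨s, hs, Complex.ext ((hre s).trans h1.symm) hss⟩

/-- A segment parallel to the axis, in the profile. -/
private theorem sector_seg_par {p e : E3} (he : ‖e‖ = 1) {z ρ : ℝ} {x : E3}
    (hx : |inner ℝ (x - p) e - (z - 2 * ρ)| ≤ ρ / 8) (hρ : 0 < ρ) {ζ : ℂ}
    (h1 : ζ.im = (prf p e x).im) (h2 : |ζ.re - z| ≤ ρ) :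
    ∃ s ∈ Icc (0 : ℝ) (4 * ρ), prf p e (x + s • e) = ζ := by
  have hee : inner ℝ e e = (1 : ℝ) := by rw [real_inner_self_eq_norm_sq, he]; norm_num
  have h2' := abs_le.1 h2
  have hx' := abs_le.1 hx
  refine ⟨ζ.re - inner ℝ (x - p) e, ⟨by linarith, by linarith⟩, ?_⟩
  set s := ζ.re - inner ℝ (x - p) e with hs
  have e1 : inner ℝ (x + s • e - p) e = inner ℝ (x - p) e + s := by
    rw [show x + s • e - p = (x - p) + s • e by abel, inner_add_left, inner_smul_left, hee]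
    simp
  apply Complex.ext
  · change inner ℝ (x + s • e - p) e = _
    rw [e1, hs]; ring
  · rw [h1, sector_im he, sector_im he, e1]
    congr 1
    module

theorem sector {u : E3 → ℝ} (hu : IsEntireSolution u) {p e : E3} (he : ‖e‖ = 1)
    (hs : AxSym u p e) [ContractibleSpace {x | 0 < u x}] [ContractibleSpace {x | u x = 0}]
    (hax : ∀ s : ℝ, u (p + s • e) = 0 ↔ 0 ≤ s)
    (hup : ∀ ε > 0, ∃ C, ∀ x, 0 ≤ inner ℝ (x - p) e → u x ≤ ε * ‖x‖ + C) {η : ℝ}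
    (hη : 0 < η) (hη2 : η < 1 / 2) :
    ∃ R₀, ∀ x ∈ frontier {x | 0 < u x}, R₀ ≤ ‖x - p‖ → η * ‖x - p‖ ≤ (prf p e x).re →
      η * ‖x - p‖ ≤ (prf p e x).im → False := by
  obtain ⟨A, hA, harea⟩ := area_lower
  obtain ⟨f, hf, hfe⟩ := exists_perp e
  have hee : inner ℝ e e = (1 : ℝ) := by rw [real_inner_self_eq_norm_sq, he]; norm_num
  have hffi : inner ℝ f f = (1 : ℝ) := by rw [real_inner_self_eq_norm_sq, hf]; norm_num
  set ε : ℝ := η / (40 * 512 * (33 / 2) * 3 * 2 * A) with hε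
  have hε0 : 0 < ε := by positivity
  obtain ⟨C, hC⟩ := hup ε hε0
  set M : ℝ := A * (33 / 2) * (ε * ‖p‖ + C) with hM
  refine ⟨max 1 (M * (40 * 1024) / η + 1), fun x hxF hxR hx1 hx2 => ?_⟩
  set R : ℝ := ‖x - p‖ with hR
  have hR1 : 1 ≤ R := (le_max_left _ _).trans hxR
  have hR2 : M * (40 * 1024) / η + 1 ≤ R := (le_max_right _ _).trans hxR
  set ρ : ℝ := η * R / 40 with hρdef
  have hρ : 0 < ρ := by positivity
  have h40 : 40 * ρ = η * R := by rw [hρdef]; ring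
  have hρR : 80 * ρ ≤ R := by nlinarith
  set q : ℂ := prf p e x with hq
  have hqn : ‖q‖ = R := norm_prf he x
  have hqre : q.re ≤ R := by
    have := Complex.abs_re_le_norm q; rw [hqn] at this; exact (le_abs_self _).trans this
  have hqim : q.im ≤ R := by
    have := Complex.abs_im_le_norm q; rw [hqn] at this; exact (le_abs_self _).trans this
  -- the final contradiction
  have key : ∀ d c : E3, ‖d‖ = 1 → 17 * ρ ≤ inner ℝ (c - p) e → ‖c - p‖ ≤ 2 * R + ρ →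
      (∀ y ∈ closedBall c (ρ / 8), (∃ s ∈ Icc (0 : ℝ) (4 * ρ), u (y + s • d) = 0) ∧
        ∃ s ∈ Icc (0 : ℝ) (4 * ρ), 0 < u (y + s • d)) → False := by
    intro d c hd hc1 hc2 hmix
    have h1 := harea u hu d c (ρ / 8) (4 * ρ) (ε * (3 * R + ‖p‖) + C) hd (by positivity)
      (by positivity) hmix (by
        intro y hy
        rw [mem_closedBall, dist_eq_norm] at hy
        have hy1 : 0 ≤ inner ℝ (y - p) e := by
          have e1 : inner ℝ (y - p) e = inner ℝ (y - c) e + inner ℝ (c - p) e := by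
            rw [← inner_add_left]; congr 1; abel
          have e2 : |inner ℝ (y - c) e| ≤ ‖y - c‖ * ‖e‖ := abs_real_inner_le_norm _ _
          rw [he, mul_one] at e2
          have e3 := abs_le.1 (e2.trans hy)
          rw [e1]; linarith [e3.1]
        have hy2 : ‖y‖ ≤ 3 * R + ‖p‖ := by
          have e1 : ‖y‖ ≤ ‖y - c‖ + ‖c - p‖ + ‖p‖ := by
            calc ‖y‖ = ‖(y - c) + (c - p) + p‖ := by congr 1; abel
              _ ≤ _ := (norm_add_le _ _).trans (by gcongr; exact norm_add_le _ _)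
          linarith
        refine (hC y hy1).trans ?_
        gcongr)
    have h2 : ρ / 512 ≤ A * (33 / 2) * (ε * (3 * R + ‖p‖) + C) := by
      have h3 : ρ ^ 2 * (ρ / 512) ≤ ρ ^ 2 * (A * (33 / 2) * (ε * (3 * R + ‖p‖) + C)) := by
        nlinarith [h1]
      exact le_of_mul_le_mul_left h3 (by positivity)
    have h3 : A * (33 / 2) * (ε * (3 * R)) = η * R / (40 * 1024) := by
      rw [hε]; field_simp; norm_num
    have h4 : ρ / 512 = 2 * (η * R / (40 * 1024)) := by rw [hρdef]; ring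
    have h5 : η * R / (40 * 1024) ≤ M := by
      rw [hM]
      nlinarith [h2, h3, h4]
    have h6 : M * (40 * 1024) / η < R := by linarith
    rw [div_lt_iff₀ hη] at h6
    rw [div_le_iff₀ (by norm_num)] at h5
    linarith
  -- the two phases in the profile
  set S : Set ℂ := prf p e '' {x | u x = 0} with hS
  set T : Set ℂ := prf p e '' {x | 0 < u x} with hT
  have hSp : IsPathConnected S :=
    (isPathConnected_iff_pathConnectedSpace.2 inferInstance).image (continuous_prf p e)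
  have hTp : IsPathConnected T :=
    (isPathConnected_iff_pathConnectedSpace.2 inferInstance).image (continuous_prf p e)
  have hopen : IsOpen {x | 0 < u x} := isOpen_lt continuous_const hu.continuous
  have hux : u x = 0 := by
    have : x ∉ {x | 0 < u x} := by
      intro hxm
      exact hxF.2 (by rw [hopen.interior_eq]; exact hxm)
    exact le_antisymm (not_lt.1 this) (hu.nonneg x)
  have hST : ∀ ζ : ℂ, |ζ.re - q.re| ≤ ρ → |ζ.im - q.im| ≤ ρ → ζ ∈ S ∨ ζ ∈ T := by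
    intro ζ _ h2
    have h2' := abs_le.1 h2
    have hζ : 0 ≤ ζ.im := by linarith
    have hpr := prf_rep (p := p) he hf hfe hζ
    rcases (hu.nonneg (rep p e f ζ)).eq_or_lt with h | h
    · exact Or.inl ⟨_, h.symm, hpr⟩
    · exact Or.inr ⟨_, h, hpr⟩
  have hjS : JoinedIn S q (prf p e p) := by
    refine hSp.joinedIn _ ⟨x, hux, rfl⟩ _ ⟨p, ?_, rfl⟩
    have := (hax 0).2 le_rfl
    simpa using this
  obtain ⟨x', hx'Ω, hx'q⟩ : ∃ x', 0 < u x' ∧ dist (prf p e x') q < ρ / 4 := by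
    have h1 : x ∈ closure {x | 0 < u x} := hxF.1
    have h2 : {y | dist (prf p e y) q < ρ / 4} ∈ 𝓝 x := by
      refine (isOpen_lt ((continuous_prf p e).dist continuous_const) continuous_const).mem_nhds ?_
      change dist (prf p e x) q < ρ / 4
      rw [← hq, dist_self]; positivity
    obtain ⟨y, hy1, hy2⟩ := mem_closure_iff_nhds.1 h1 _ h2
    exact ⟨y, hy2, hy1⟩
  have hjT : JoinedIn T (prf p e x') (prf p e (p + (-1 : ℝ) • e)) := by
    refine hTp.joinedIn _ ⟨x', hx'Ω, rfl⟩ _ ⟨_, ?_, rfl⟩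
    have h1 : u (p + (-1 : ℝ) • e) ≠ 0 := by
      intro h
      have := (hax (-1)).1 h
      norm_num at this
    exact lt_of_le_of_ne (hu.nonneg _) h1.symm
  rw [dist_eq_norm] at hx'q
  have hx're : |(prf p e x').re - q.re| ≤ ρ / 4 := by
    have := Complex.abs_re_le_norm (prf p e x' - q)
    rw [Complex.sub_re] at this
    linarith
  have hx'im : |(prf p e x').im - q.im| ≤ ρ / 4 := by
    have := Complex.abs_im_le_norm (prf p e x' - q)
    rw [Complex.sub_im] at this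
    linarith
  have hpp : (prf p e p).re = 0 := by
    change inner ℝ (p - p) e = 0
    simp
  have hpe : (prf p e (p + (-1 : ℝ) • e)).re = -1 := by
    change inner ℝ (p + (-1 : ℝ) • e - p) e = -1
    rw [add_sub_cancel_left, inner_smul_left, hee]; simp
  have hm := sector_mixed hρ hST hjS (by rw [sub_self, abs_zero]; positivity)
    (by rw [sub_self, abs_zero]; positivity)
    (Or.inl (by rw [hpp, zero_sub, abs_neg]; exact le_trans (by linarith) (le_abs_self _)))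
    hjT hx're hx'im
    (Or.inl (by rw [hpe, abs_sub_comm]; exact le_trans (by linarith) (le_abs_self _)))
  rcases hm with ⟨c, hc, hcm⟩ | ⟨c, hc, hcm⟩
  · have hc' := abs_le.1 hc
    have hcp : inner ℝ (p + c • e + (q.im - 2 * ρ) • f - p) e = c := by
      rw [show p + c • e + (q.im - 2 * ρ) • f - p = c • e + (q.im - 2 * ρ) • f by abel,
        inner_add_left, inner_smul_left, inner_smul_left, hfe, hee]
      simp
    refine key f (p + c • e + (q.im - 2 * ρ) • f) hf ?_ ?_ ?_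
    · rw [hcp]; linarith [hc'.1]
    · rw [show p + c • e + (q.im - 2 * ρ) • f - p = c • e + (q.im - 2 * ρ) • f by abel]
      refine (norm_add_le _ _).trans ?_
      rw [norm_smul, norm_smul, he, hf, Real.norm_of_nonneg (by linarith : (0 : ℝ) ≤ c),
        Real.norm_of_nonneg (by linarith : (0 : ℝ) ≤ q.im - 2 * ρ)]
      linarith
    · intro y hy
      have hyc : |inner ℝ (y - p) e - c| ≤ ρ / 8 := by
        have e1 : inner ℝ (y - p) e - c
            = inner ℝ (y - (p + c • e + (q.im - 2 * ρ) • f)) e := by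
          conv_lhs => rw [← hcp, ← inner_sub_left]
          congr 1; abel
        rw [e1]
        refine (abs_real_inner_le_norm _ _).trans ?_
        rw [he, mul_one, ← dist_eq_norm]
        exact mem_closedBall.1 hy
      have hyc' := abs_le.1 hyc
      obtain ⟨⟨ζ, hζS, hζ1, hζ2⟩, ξ, hξT, hξ1, hξ2⟩ :=
        hcm (inner ℝ (y - p) e) ⟨by linarith, by linarith⟩
      refine ⟨?_, ?_⟩
      · obtain ⟨s, hs1, hs2⟩ := sector_seg_perp he hf hfe hρ (by linarith) hy hζ1 hζ2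
        obtain ⟨v, hv, hvζ⟩ := hζS
        refine ⟨s, hs1, ?_⟩
        rw [hs.eq_of_prf he (hs2.trans hvζ.symm)]; exact hv
      · obtain ⟨s, hs1, hs2⟩ := sector_seg_perp he hf hfe hρ (by linarith) hy hξ1 hξ2
        obtain ⟨v, hv, hvζ⟩ := hξT
        refine ⟨s, hs1, ?_⟩
        rw [hs.eq_of_prf he (hs2.trans hvζ.symm)]; exact hv
  · have hc' := abs_le.1 hc
    have hcp : inner ℝ (p + (q.re - 2 * ρ) • e + c • f - p) e = q.re - 2 * ρ := by
      rw [show p + (q.re - 2 * ρ) • e + c • f - p = (q.re - 2 * ρ) • e + c • f by abel,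
        inner_add_left, inner_smul_left, inner_smul_left, hfe, hee]
      simp
    refine key e (p + (q.re - 2 * ρ) • e + c • f) he ?_ ?_ ?_
    · rw [hcp]; linarith
    · rw [show p + (q.re - 2 * ρ) • e + c • f - p = (q.re - 2 * ρ) • e + c • f by abel]
      refine (norm_add_le _ _).trans ?_
      rw [norm_smul, norm_smul, he, hf,
        Real.norm_of_nonneg (by linarith : (0 : ℝ) ≤ q.re - 2 * ρ),
        Real.norm_of_nonneg (by linarith : (0 : ℝ) ≤ c)]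
      linarith
    · intro y hy
      have hyn : ‖y - (p + (q.re - 2 * ρ) • e + c • f)‖ ≤ ρ / 8 := by
        rw [← dist_eq_norm]; exact mem_closedBall.1 hy
      have hyc : |inner ℝ (y - p) e - (q.re - 2 * ρ)| ≤ ρ / 8 := by
        have e1 : inner ℝ (y - p) e - (q.re - 2 * ρ)
            = inner ℝ (y - (p + (q.re - 2 * ρ) • e + c • f)) e := by
          conv_lhs => rw [← hcp, ← inner_sub_left]
          congr 1; abel
        rw [e1]
        refine (abs_real_inner_le_norm _ _).trans ?_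
        rw [he, mul_one]
        exact hyn
      have hyim : |(prf p e y).im - c| ≤ ρ / 8 := by
        rw [sector_im he]
        have e1 : ‖c • f‖ = c := by
          rw [norm_smul, hf, mul_one, Real.norm_of_nonneg (by linarith)]
        have e2 := abs_norm_sub_norm_le ((y - p) - (inner ℝ (y - p) e) • e) (c • f)
        rw [e1] at e2
        refine e2.trans ?_
        have e3 : (y - p) - (inner ℝ (y - p) e) • e - c • f
            = (y - (p + (q.re - 2 * ρ) • e + c • f))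
              - (inner ℝ (y - (p + (q.re - 2 * ρ) • e + c • f)) e) • e := by
          have e4 : inner ℝ (y - (p + (q.re - 2 * ρ) • e + c • f)) e
              = inner ℝ (y - p) e - (q.re - 2 * ρ) := by
            conv_rhs => rw [← hcp, ← inner_sub_left]
            congr 1; abel
          rw [e4]
          module
        rw [e3]
        exact (sector_perp_le he _).trans hyn
      have hyim' := abs_le.1 hyim
      obtain ⟨⟨ζ, hζS, hζ1, hζ2⟩, ξ, hξT, hξ1, hξ2⟩ :=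
        hcm ((prf p e y).im) ⟨by linarith, by linarith⟩
      refine ⟨?_, ?_⟩
      · obtain ⟨s, hs1, hs2⟩ := sector_seg_par he hyc hρ hζ1 hζ2
        obtain ⟨v, hv, hvζ⟩ := hζS
        refine ⟨s, hs1, ?_⟩
        rw [hs.eq_of_prf he (hs2.trans hvζ.symm)]; exact hv
      · obtain ⟨s, hs1, hs2⟩ := sector_seg_par he hyc hρ hξ1 hξ2
        obtain ⟨v, hv, hvζ⟩ := hξT
        refine ⟨s, hs1, ?_⟩
        rw [hs.eq_of_prf he (hs2.trans hvζ.symm)]; exact hv

end FB75
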