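import Pool.Agent.FB75.Mean

/-!
# Smoothness of harmonic functions in three variables, gradient estimate
-/

open MeasureTheory Metric Set Filter Topology InnerProductSpace Laplacian
open scoped ContDiff

namespace FB75

/-- The smooth weight. -/
noncomputable def smPhi (w : E3) : ℝ := 2 * deriv expNegInvGlue (1 - ‖w‖ ^ 2)

/-- The potential of the smooth weight. -/
noncomputable def smQ (w : E3) : ℝ := expNegInvGlue (1 - ‖w‖ ^ 2)

theorem sm_contDiff_glue : ContDiff ℝ ∞ expNegInvGlue := expNegInvGlue.contDiff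

theorem sm_contDiff_deriv : ContDiff ℝ ∞ (deriv expNegInvGlue) :=
  (contDiff_infty_iff_deriv.1 sm_contDiff_glue).2

theorem sm_deriv_zero {s : ℝ} (hs : s ≤ 0) : deriv expNegInvGlue s = 0 := by
  have h : IsLocalMin expNegInvGlue s := by
    refine Filter.Eventually.of_forall fun y => ?_
    rw [expNegInvGlue.zero_of_nonpos hs]
    exact expNegInvGlue.nonneg y
  exact h.deriv_eq_zero

theorem sm_deriv_nonneg (s : ℝ) : 0 ≤ deriv expNegInvGlue s :=
  expNegInvGlue.monotone.deriv_nonneg

theorem sm_deriv_one : 0 < deriv expNegInvGlue 1 := by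
  have h1 : expNegInvGlue =ᶠ[𝓝 1] fun s => Real.exp (-s⁻¹) := by
    filter_upwards [Ioi_mem_nhds (zero_lt_one (α := ℝ))] with s hs
    have hs' : ¬ s ≤ 0 := not_le.2 hs
    simp [expNegInvGlue, hs']
  have h2 : HasDerivAt (fun s : ℝ => Real.exp (-s⁻¹)) (Real.exp (-1)) 1 := by
    have := ((hasDerivAt_inv (one_ne_zero (α := ℝ))).neg).exp
    refine this.congr_deriv ?_
    norm_num
  rw [h1.deriv_eq, h2.deriv]
  exact Real.exp_pos _

theorem smPhi_contDiff : ContDiff ℝ ∞ smPhi := by
  unfold smPhi
  exact contDiff_const.mul (sm_contDiff_deriv.comp (contDiff_const.sub (contDiff_norm_sq ℝ)))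

theorem smQ_contDiff : ContDiff ℝ ∞ smQ := by
  unfold smQ
  exact sm_contDiff_glue.comp (contDiff_const.sub (contDiff_norm_sq ℝ))

theorem smPhi_continuous : Continuous smPhi := smPhi_contDiff.continuous

theorem smQ_continuous : Continuous smQ := smQ_contDiff.continuous

theorem smPhi_nonneg (w : E3) : 0 ≤ smPhi w := by
  unfold smPhi
  have := sm_deriv_nonneg (1 - ‖w‖ ^ 2)
  positivity

theorem smPhi_eq_zero {w : E3} (h : 1 ≤ ‖w‖) : smPhi w = 0 := by
  unfold smPhi
  rw [sm_deriv_zero (by nlinarith [norm_nonneg w])]; simp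

theorem smQ_eq_zero {w : E3} (h : 1 ≤ ‖w‖) : smQ w = 0 := by
  unfold smQ
  rw [expNegInvGlue.zero_of_nonpos (by nlinarith [norm_nonneg w])]

theorem smPhi_hasCompactSupport : HasCompactSupport smPhi := by
  refine HasCompactSupport.of_support_subset_isCompact (isCompact_closedBall (0 : E3) 1) ?_
  intro w hw
  by_contra h
  apply hw
  apply smPhi_eq_zero
  simp at h
  exact h.le

theorem smQ_hasCompactSupport : HasCompactSupport smQ := by
  refine HasCompactSupport.of_support_subset_isCompact (isCompact_closedBall (0 : E3) 1) ?_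
  intro w hw
  by_contra h
  apply hw
  apply smQ_eq_zero
  simp at h
  exact h.le

theorem smQ_hasFDerivAt (w : E3) : HasFDerivAt smQ ((-smPhi w) • innerSL ℝ w) w := by
  have h1 : HasFDerivAt (fun w : E3 => 1 - ‖w‖ ^ 2) (-(2 • innerSL ℝ w)) w :=
    ((hasStrictFDerivAt_norm_sq w).hasFDerivAt).const_sub 1
  have h2 : HasDerivAt expNegInvGlue (deriv expNegInvGlue (1 - ‖w‖ ^ 2)) (1 - ‖w‖ ^ 2) :=
    ((sm_contDiff_glue.differentiable (by simp)) _).hasDerivAt
  have h3 := h2.comp_hasFDerivAt w h1
  have h4 : smQ = expNegInvGlue ∘ fun w : E3 => 1 - ‖w‖ ^ 2 := rfl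
  rw [h4]
  refine h3.congr_fderiv ?_
  ext v
  simp [smPhi]
  ring

/-- The mean value functional of the smooth weight. -/
noncomputable def smM (f : E3 → ℝ) (x : E3) (t : ℝ) : ℝ := ∫ w, smPhi w * f (x + t • w)

theorem smPhi_int {g : E3 → ℝ} (hg : Continuous g) : Integrable (fun w => smPhi w * g w) :=
  (smPhi_continuous.mul hg).integrable_of_hasCompactSupport smPhi_hasCompactSupport.mul_right

theorem smQ_int {g : E3 → ℝ} (hg : Continuous g) : Integrable (fun w => smQ w * g w) :=
  (smQ_continuous.mul hg).integrable_of_hasCompactSupport smQ_hasCompactSupport.mul_right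

theorem smM_hasDerivAt {f : E3 → ℝ} (hf : ContDiff ℝ 2 f) (x : E3) (t : ℝ) :
    HasDerivAt (smM f x) (t * ∫ w, smQ w * Δ f (x + t • w)) t := by
  have hfd : Continuous (fderiv ℝ f) := hf.continuous_fderiv (by norm_num)
  have hdiff : Differentiable ℝ f := hf.differentiable (by norm_num)
  -- the bound
  obtain ⟨M, hM⟩ := (isCompact_closedBall (0 : E3) (‖x‖ + |t| + 1)).exists_bound_of_continuousOn
    hfd.continuousOn
  have key := hasDerivAt_integral_of_dominated_loc_of_deriv_le (μ := (volume : Measure E3))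
    (F := fun t w => smPhi w * f (x + t • w)) (F' := fun t w => smPhi w * fderiv ℝ f (x + t • w) w)
    (x₀ := t) (s := ball t 1) (bound := fun w => smPhi w * M) (ball_mem_nhds t one_pos)
    ?_ ?_ ?_ ?_ ?_ ?_
  · have h2 := key.2
    refine h2.congr_deriv ?_
    have hfdi : ∀ i, ContDiff ℝ 1 (fun y => fderiv ℝ f y (ei i)) := fun i =>
      (hf.fderiv_right (m := 1) (by norm_num)).clm_apply contDiff_const
    have hin : ∀ i, ∫ w, smPhi w * (w i * fderiv ℝ f (x + t • w) (ei i)) =
        ∫ w, smQ w * (t * fderiv ℝ (fun y => fderiv ℝ f y (ei i)) (x + t • w) (ei i)) := by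
      intro i
      have hg : ∀ w, HasFDerivAt (fun w : E3 => fderiv ℝ f (x + t • w) (ei i))
          (t • fderiv ℝ (fun y => fderiv ℝ f y (ei i)) (x + t • w)) w := by
        intro w
        have ha : HasFDerivAt (fun w : E3 => x + t • w) (t • ContinuousLinearMap.id ℝ E3) w :=
          ((hasFDerivAt_id w).const_smul t).const_add x
        have hb := (((hfdi i).differentiable (by norm_num)) (x + t • w)).hasFDerivAt.comp w ha
        refine hb.congr_fderiv ?_
        ext v; simp
      have hgc : Continuous (fun w : E3 => fderiv ℝ f (x + t • w) (ei i)) :=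
        continuous_iff_continuousAt.2 fun w => (hg w).continuousAt
      have hgc' : Continuous (fun w : E3 =>
          fderiv ℝ (fun w : E3 => fderiv ℝ f (x + t • w) (ei i)) w (ei i)) := by
        have : (fun w : E3 => fderiv ℝ (fun w : E3 => fderiv ℝ f (x + t • w) (ei i)) w (ei i)) =
            fun w => t * fderiv ℝ (fun y => fderiv ℝ f y (ei i)) (x + t • w) (ei i) := by
          funext w; rw [(hg w).fderiv]; simp
        rw [this]
        have h5 : Continuous (fderiv ℝ (fun y => fderiv ℝ f y (ei i))) :=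
          (hfdi i).continuous_fderiv (by norm_num)
        fun_prop
      have hP : ∀ w, fderiv ℝ smQ w (ei i) = - (smPhi w * w i) := by
        intro w
        rw [(smQ_hasFDerivAt w).fderiv]
        have : inner ℝ w (ei i) = w i := by
          rw [ei, real_inner_comm]
          simp [EuclideanSpace.inner_single_left]
        simp [this]
      have hibp := integral_mul_fderiv_eq_neg_fderiv_mul_of_integrable
        (μ := (volume : Measure E3)) (f := smQ)
        (g := fun w : E3 => fderiv ℝ f (x + t • w) (ei i)) (v := ei i) ?_ ?_ ?_ ?_ ?_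
      · have e1 : ∀ w, fderiv ℝ (fun w : E3 => fderiv ℝ f (x + t • w) (ei i)) w (ei i) =
            t * fderiv ℝ (fun y => fderiv ℝ f y (ei i)) (x + t • w) (ei i) := by
          intro w; rw [(hg w).fderiv]; simp
        simp only [e1, hP] at hibp
        rw [hibp, ← integral_neg]
        refine integral_congr_ae (Eventually.of_forall fun w => ?_)
        simp only
        ring
      · simp only [hP]
        have : (fun w : E3 => -(smPhi w * w i) * fderiv ℝ f (x + t • w) (ei i)) =
            fun w => smPhi w * (-(w i) * fderiv ℝ f (x + t • w) (ei i)) := by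
          funext w; ring
        rw [this]
        exact smPhi_int (by fun_prop)
      · exact smQ_int hgc'
      · exact smQ_int hgc
      · exact fun w _ => (smQ_hasFDerivAt w).differentiableAt
      · exact fun w _ => (hg w).differentiableAt
    calc ∫ w, smPhi w * fderiv ℝ f (x + t • w) w
        = ∫ w, ∑ i, smPhi w * (w i * fderiv ℝ f (x + t • w) (ei i)) := by
          refine integral_congr_ae (Eventually.of_forall fun w => ?_)
          simp only
          rw [← Finset.mul_sum]
          congr 1
          conv_lhs => rw [← sum_coord w]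
          rw [map_sum]
          refine Finset.sum_congr rfl fun i _ => ?_
          rw [map_smul, smul_eq_mul, sum_coord w]
      _ = ∑ i, ∫ w, smPhi w * (w i * fderiv ℝ f (x + t • w) (ei i)) := by
          refine integral_finsetSum _ fun i _ => smPhi_int ?_
          fun_prop
      _ = ∑ i, ∫ w, smQ w * (t * fderiv ℝ (fun y => fderiv ℝ f y (ei i)) (x + t • w) (ei i)) :=
          Finset.sum_congr rfl fun i _ => hin i
      _ = ∫ w, ∑ i, smQ w * (t * fderiv ℝ (fun y => fderiv ℝ f y (ei i)) (x + t • w) (ei i)) := by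
          rw [integral_finsetSum _ fun i _ => smQ_int ?_]
          have h5 : Continuous (fderiv ℝ (fun y => fderiv ℝ f y (ei i))) :=
            (hfdi i).continuous_fderiv (by norm_num)
          fun_prop
      _ = t * ∫ w, smQ w * Δ f (x + t • w) := by
          rw [← integral_const_mul]
          refine integral_congr_ae (Eventually.of_forall fun w => ?_)
          simp only
          rw [laplacian_eq_sum hf.contDiffAt, Finset.mul_sum, Finset.mul_sum]
          refine Finset.sum_congr rfl fun i _ => ?_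
          ring
  · refine Eventually.of_forall fun s => ?_
    exact (smPhi_int (hf.continuous.comp (by fun_prop))).aestronglyMeasurable
  · exact smPhi_int (hf.continuous.comp (by fun_prop))
  · exact (smPhi_int (by fun_prop)).aestronglyMeasurable
  · refine Eventually.of_forall fun w s hs => ?_
    by_cases hw : 1 ≤ ‖w‖
    · simp [smPhi_eq_zero hw]
    · push Not at hw
      rw [norm_mul, Real.norm_of_nonneg (smPhi_nonneg w)]
      refine mul_le_mul_of_nonneg_left ?_ (smPhi_nonneg w)
      have hx : x + s • w ∈ closedBall (0 : E3) (‖x‖ + |t| + 1) := by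
        rw [mem_closedBall_zero_iff]
        have h1 : ‖x + s • w‖ ≤ ‖x‖ + ‖s • w‖ := norm_add_le _ _
        rw [norm_smul, Real.norm_eq_abs] at h1
        have h2 : |s| ≤ |t| + 1 := by
          have := mem_ball.1 hs
          rw [Real.dist_eq] at this
          have h3 := abs_sub_abs_le_abs_sub s t
          linarith
        nlinarith [abs_nonneg s, norm_nonneg w]
      have hM' := hM _ hx
      calc ‖fderiv ℝ f (x + s • w) w‖ ≤ ‖fderiv ℝ f (x + s • w)‖ * ‖w‖ :=
            ContinuousLinearMap.le_opNorm _ _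
        _ ≤ M * 1 := by
            refine mul_le_mul hM' hw.le (norm_nonneg _) ((norm_nonneg _).trans hM')
        _ = M := mul_one M
  · exact (smPhi_int continuous_const)
  · refine Eventually.of_forall fun w s hs => ?_
    have ha : HasDerivAt (fun s : ℝ => x + s • w) w s := by
      simpa using ((hasDerivAt_id s).smul_const w).const_add x
    have hb := (hdiff (x + s • w)).hasFDerivAt.comp_hasDerivAt s ha
    exact hb.const_mul (smPhi w)

/-- The mass of the smooth weight. -/
noncomputable def smC : ℝ := ∫ w : E3, smPhi w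

theorem smC_pos : 0 < smC := by
  unfold smC
  refine smPhi_continuous.integral_pos_of_hasCompactSupport_nonneg_nonzero smPhi_hasCompactSupport
    smPhi_nonneg (x := 0) ?_
  have := sm_deriv_one
  simp [smPhi, this.ne']

theorem smM_zero (f : E3 → ℝ) (x : E3) : smM f x 0 = f x * smC := by
  unfold smM smC
  rw [← integral_const_mul]
  refine integral_congr_ae (Eventually.of_forall fun w => ?_)
  simp [mul_comm]

theorem smM_congr {f g : E3 → ℝ} {x : E3} {t : ℝ} (ht : 0 ≤ t)
    (h : ∀ v, dist v x ≤ t → f v = g v) : smM f x t = smM g x t := by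
  unfold smM
  refine integral_congr_ae (Eventually.of_forall fun w => ?_)
  simp only
  by_cases hw : 1 ≤ ‖w‖
  · simp [smPhi_eq_zero hw]
  · push Not at hw
    rw [h (x + t • w)]
    rw [dist_eq_norm, add_sub_cancel_left, norm_smul, Real.norm_of_nonneg ht]
    nlinarith

/-- The mean value property for the smooth weight. -/
theorem smM_harmonic {f : E3 → ℝ} {x : E3} {R t : ℝ} (hf : HarmonicOnNhd f (ball x R))
    (ht : 0 ≤ t) (htR : t < R) : smM f x t = f x * smC := by
  have hR : 0 < R := ht.trans_lt htR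
  let b : ContDiffBump x := ⟨(2 * t + R) / 3, (t + 2 * R) / 3, by linarith, by linarith⟩
  have hbin : b.rIn = (2 * t + R) / 3 := rfl
  have hbout : b.rOut = (t + 2 * R) / 3 := rfl
  let g : E3 → ℝ := fun v => b v * f v
  have hg2 : ContDiff ℝ 2 g := by
    rw [contDiff_iff_contDiffAt]
    intro v
    by_cases hv : v ∈ ball x R
    · exact b.contDiff.contDiffAt.mul (hf v hv).1
    · have : g =ᶠ[𝓝 v] fun _ => 0 := by
        have h1 : v ∉ tsupport b := by
          rw [b.tsupport_eq, hbout]
          intro h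
          apply hv
          rw [mem_closedBall] at h
          rw [mem_ball]
          linarith
        have h2 : (tsupport b)ᶜ ∈ 𝓝 v := (isClosed_tsupport b).isOpen_compl.mem_nhds h1
        filter_upwards [h2] with z hz
        simp only [g, image_eq_zero_of_notMem_tsupport hz, zero_mul]
      exact (contDiffAt_const (c := (0 : ℝ))).congr_of_eventuallyEq this
  have hgf : ∀ v, dist v x ≤ t → g =ᶠ[𝓝 v] f := by
    intro v hv
    have h1 : v ∈ ball x b.rIn := by rw [mem_ball, hbin]; linarith
    filter_upwards [isOpen_ball.mem_nhds h1] with z hz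
    simp only [g, b.one_of_mem_closedBall (ball_subset_closedBall hz), one_mul]
  have hlap : ∀ v, dist v x ≤ t → Δ g v = 0 := by
    intro v hv
    have h1 : v ∈ ball x R := by rw [mem_ball]; linarith
    rw [(laplacian_congr_nhds (hgf v hv)).self_of_nhds]
    exact (hf v h1).2.self_of_nhds
  have hder : ∀ s ∈ Icc 0 t, HasDerivAt (smM g x) 0 s := by
    intro s hs
    have h1 := smM_hasDerivAt hg2 x s
    have h2 : ∫ w, smQ w * Δ g (x + s • w) = 0 := by
      rw [← integral_zero E3 ℝ (μ := (volume : Measure E3))]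
      refine integral_congr_ae (Eventually.of_forall fun w => ?_)
      simp only
      by_cases hw : 1 ≤ ‖w‖
      · simp [smQ_eq_zero hw]
      · push Not at hw
        rw [hlap, mul_zero]
        rw [dist_eq_norm, add_sub_cancel_left, norm_smul, Real.norm_of_nonneg hs.1]
        nlinarith [hs.1, hs.2, norm_nonneg w]
    rw [h2, mul_zero] at h1
    exact h1
  have hconst : smM g x t = smM g x 0 := by
    rcases eq_or_lt_of_le ht with h | h
    · rw [← h]
    · obtain ⟨c, hc, hc'⟩ := exists_hasDerivAt_eq_slope (smM g x) (fun _ => 0) h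
        (fun s hs => (hder s hs).continuousAt.continuousWithinAt)
        (fun s hs => hder s (Ioo_subset_Icc_self hs))
      rw [eq_comm, div_eq_zero_iff] at hc'
      rcases hc' with h' | h' <;> linarith
  have h0 : g x = f x := (hgf x (by simpa using ht)).self_of_nhds
  calc smM f x t = smM g x t := smM_congr ht fun v hv => (hgf v hv).self_of_nhds.symm
    _ = smM g x 0 := hconst
    _ = g x * smC := smM_zero g x
    _ = f x * smC := by rw [h0]

/-- The rescaled smooth weight. -/
noncomputable def smK (t : ℝ) (z : E3) : ℝ := smPhi (t⁻¹ • z)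

theorem smK_contDiff (t : ℝ) : ContDiff ℝ ∞ (smK t) :=
  smPhi_contDiff.comp (contDiff_const_smul t⁻¹)

theorem smK_hasCompactSupport {t : ℝ} (ht : 0 < t) : HasCompactSupport (smK t) :=
  smPhi_hasCompactSupport.comp_smul (inv_ne_zero ht.ne')

theorem smPhi_neg (w : E3) : smPhi (-w) = smPhi w := by simp [smPhi]

theorem smM_eq {G : E3 → ℝ} {v : E3} {t : ℝ} (ht : 0 < t) :
    smM G v t = (t ^ 3)⁻¹ * convolution G (smK t) (ContinuousLinearMap.lsmul ℝ ℝ) volume v := by
  have h1 := Measure.integral_comp_smul (volume : Measure E3)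
    (fun z => smPhi (t⁻¹ • z) * G (v + z)) t
  have h2 : (fun w : E3 => smPhi (t⁻¹ • (t • w)) * G (v + t • w)) =
      fun w => smPhi w * G (v + t • w) := by
    funext w
    rw [smul_smul, inv_mul_cancel₀ ht.ne', one_smul]
  simp only [h2] at h1
  have h3 : Module.finrank ℝ E3 = 3 := by simp
  rw [h3, abs_of_pos (by positivity), smul_eq_mul] at h1
  unfold smM
  rw [h1]
  congr 1
  have h4 := integral_add_left_eq_self (μ := (volume : Measure E3))
    (fun y => G y * smK t (v - y)) v
  simp only [convolution_def, ContinuousLinearMap.lsmul_apply, smul_eq_mul]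
  rw [← h4]
  refine integral_congr_ae (Eventually.of_forall fun z => ?_)
  simp only [smK]
  have : v - (v + z) = -z := by abel
  rw [this, smul_neg, smPhi_neg]
  ring

/-- A function harmonic in a ball is, near the centre, a convolution with a smooth weight. -/
theorem sm_rep {h : E3 → ℝ} {x : E3} {R : ℝ} (hR : 0 < R) (hh : HarmonicOnNhd h (ball x R)) :
    ∃ G : E3 → ℝ, LocallyIntegrable G ∧ (∀ y, G y = h y ∨ G y = 0) ∧
      (∀ y, y ∉ ball x R → G y = 0) ∧
      h =ᶠ[𝓝 x] fun v => (smC * (R / 2) ^ 3)⁻¹ *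
        convolution G (smK (R / 2)) (ContinuousLinearMap.lsmul ℝ ℝ) volume v := by
  have hc : ContinuousOn h (closedBall x (3 * R / 4)) := by
    intro v hv
    have : v ∈ ball x R := by
      rw [mem_closedBall] at hv
      rw [mem_ball]
      linarith
    exact (hh v this).1.continuousAt.continuousWithinAt
  refine ⟨(closedBall x (3 * R / 4)).indicator h, ?_, ?_, ?_, ?_⟩
  · refine Integrable.locallyIntegrable ?_
    rw [integrable_indicator_iff measurableSet_closedBall]
    exact hc.integrableOn_compact (isCompact_closedBall _ _)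
  · intro y
    by_cases hy : y ∈ closedBall x (3 * R / 4)
    · left; rw [indicator_of_mem hy]
    · right; rw [indicator_of_notMem hy]
  · intro y hy
    refine indicator_of_notMem ?_ _
    intro h'
    apply hy
    rw [mem_closedBall] at h'
    rw [mem_ball]
    linarith
  · filter_upwards [ball_mem_nhds x (show 0 < R / 4 by linarith)] with v hv
    rw [mem_ball] at hv
    have h1 : HarmonicOnNhd h (ball v (3 * R / 4)) := by
      refine hh.mono ?_
      intro y hy
      rw [mem_ball] at hy ⊢
      have := dist_triangle y v x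
      linarith
    have h2 := smM_harmonic (t := R / 2) h1 (by linarith) (by linarith)
    have h3 : smM ((closedBall x (3 * R / 4)).indicator h) v (R / 2) = smM h v (R / 2) := by
      refine smM_congr (by linarith) fun y hy => ?_
      refine indicator_of_mem ?_ _
      rw [mem_closedBall]
      have := dist_triangle y v x
      linarith
    rw [← h3, smM_eq (by linarith)] at h2
    have h4 := smC_pos
    have h5 : 0 < (R / 2) ^ 3 := by positivity
    rw [mul_inv, mul_assoc]
    rw [h2]
    field_simp

theorem harmonic_contDiffAt {h : E3 → ℝ} {x : E3} (hh : HarmonicAt h x) : ContDiffAt ℝ ∞ h x := by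
  obtain ⟨R, hR, hb⟩ : ∃ R > 0, HarmonicOnNhd h (ball x R) := by
    have := hh.eventually
    obtain ⟨R, hR, hb⟩ := Metric.eventually_nhds_iff_ball.1 this
    exact ⟨R, hR, fun v hv => hb v hv⟩
  obtain ⟨G, hG, -, -, hrep⟩ := sm_rep hR hb
  refine ContDiffAt.congr_of_eventuallyEq ?_ hrep
  refine contDiffAt_const.mul ?_
  exact ((smK_hasCompactSupport (by positivity)).contDiff_convolution_right _ hG
    (smK_contDiff _)).contDiffAt

theorem sm_fderiv_fderiv {f : E3 → ℝ} {x : E3} (hf : ContDiffAt ℝ 2 f x) (a b : E3) :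
    fderiv ℝ (fun y => fderiv ℝ f y a) x b = fderiv ℝ (fderiv ℝ f) x b a := by
  have hd : DifferentiableAt ℝ (fderiv ℝ f) x :=
    (hf.fderiv_right (m := 1) (by norm_num)).differentiableAt (by norm_num)
  have h2 : HasFDerivAt (fun y => fderiv ℝ f y a) ((fderiv ℝ (fderiv ℝ f) x).flip a) x :=
    hd.hasFDerivAt.clm_apply (hasFDerivAt_const a x) |>.congr_fderiv (by ext v; simp)
  rw [h2.fderiv]
  simp

theorem sm_comm {f : E3 → ℝ} {x : E3} (hf : ContDiffAt ℝ 2 f x) (a b : E3) :
    fderiv ℝ (fun y => fderiv ℝ f y a) x b = fderiv ℝ (fun y => fderiv ℝ f y b) x a := by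
  rw [sm_fderiv_fderiv hf, sm_fderiv_fderiv hf]
  have := hf.isSymmSndFDerivAt (by simp)
  exact this b a

theorem harmonicAt_fderiv {h : E3 → ℝ} {x : E3} (hh : HarmonicAt h x) (e : E3) :
    HarmonicAt (fun y => fderiv ℝ h y e) x := by
  have hev : ∀ᶠ y in 𝓝 x, HarmonicAt h y := hh.eventually
  have hsm : ∀ y, HarmonicAt h y → ∀ a : E3, ContDiffAt ℝ ∞ (fun y => fderiv ℝ h y a) y := by
    intro y hy a
    exact ((harmonic_contDiffAt hy).fderiv_right (m := ∞) (by simp)).clm_apply contDiffAt_const
  have h2 : (2 : WithTop ℕ∞) ≤ ∞ := by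
    have : ((2 : ℕ∞) : WithTop ℕ∞) ≤ ((⊤ : ℕ∞) : WithTop ℕ∞) := WithTop.coe_le_coe.2 le_top
    exact this
  refine ⟨(hsm x hh e).of_le h2, ?_⟩
  filter_upwards [hev.eventually_nhds] with y hy
  have hy0 : HarmonicAt h y := hy.self_of_nhds
  rw [laplacian_eq_sum ((hsm y hy0 e).of_le h2)]
  have h3 : ∀ i, fderiv ℝ (fun z => fderiv ℝ (fun y => fderiv ℝ h y e) z (ei i)) y (ei i) =
      fderiv ℝ (fun z => fderiv ℝ (fun y => fderiv ℝ h y (ei i)) z (ei i)) y e := by
    intro i
    have h4 : (fun z => fderiv ℝ (fun y => fderiv ℝ h y e) z (ei i)) =ᶠ[𝓝 y]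
        fun z => fderiv ℝ (fun y => fderiv ℝ h y (ei i)) z e := by
      filter_upwards [hy] with z hz
      exact sm_comm ((harmonic_contDiffAt hz).of_le h2) e (ei i)
    rw [h4.fderiv_eq]
    exact sm_comm ((hsm y hy0 (ei i)).of_le h2) e (ei i)
  simp only [h3]
  have h5 : ∀ i, DifferentiableAt ℝ (fun z => fderiv ℝ (fun y => fderiv ℝ h y (ei i)) z (ei i)) y := by
    intro i
    have := ((hsm y hy0 (ei i)).fderiv_right (m := ∞) (by simp)).clm_apply
      (contDiffAt_const (c := ei i))
    exact this.differentiableAt (by simp)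
  have h6 : (fun z => ∑ i, fderiv ℝ (fun y => fderiv ℝ h y (ei i)) z (ei i)) =ᶠ[𝓝 y] fun _ => 0 := by
    filter_upwards [hy.eventually_nhds] with z hz
    rw [← laplacian_eq_sum ((harmonic_contDiffAt hz.self_of_nhds).of_le h2)]
    exact hz.self_of_nhds.2.self_of_nhds
  have h7 : fderiv ℝ (fun z => ∑ i, fderiv ℝ (fun y => fderiv ℝ h y (ei i)) z (ei i)) y = 0 := by
    rw [h6.fderiv_eq]; simp
  rw [fderiv_fun_sum fun i _ => h5 i] at h7
  have h8 := congrArg (fun L : E3 →L[ℝ] ℝ => L e) h7
  simpa using h8

theorem grad_bound : ∃ C : ℝ, 0 < C ∧ ∀ (h : E3 → ℝ) (x : E3) (R m : ℝ), 0 < R →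
    HarmonicOnNhd h (ball x R) → (∀ v ∈ ball x R, |h v| ≤ m) → ‖fderiv ℝ h x‖ ≤ C * m / R := by
  have hN0 : 0 ≤ ∫ z : E3, ‖fderiv ℝ smPhi z‖ := integral_nonneg fun _ => norm_nonneg _
  set N : ℝ := ∫ z : E3, ‖fderiv ℝ smPhi z‖ with hN
  have hCp := smC_pos
  refine ⟨2 * N / smC + 1, by positivity, fun h x R m hR hh hm => ?_⟩
  obtain ⟨G, hG, hG1, hG2, hrep⟩ := sm_rep hR hh
  have hm0 : 0 ≤ m := (abs_nonneg _).trans (hm x (mem_ball_self hR))
  have hGm : ∀ y, |G y| ≤ m := by
    intro y
    by_cases hy : y ∈ ball x R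
    · rcases hG1 y with h' | h'
      · rw [h']; exact hm y hy
      · rw [h']; simpa using hm0
    · rw [hG2 y hy]; simpa using hm0
  set t : ℝ := R / 2 with ht
  have ht0 : 0 < t := by positivity
  have hder := (smK_hasCompactSupport ht0).hasFDerivAt_convolution_right
    (ContinuousLinearMap.lsmul ℝ ℝ) hG ((smK_contDiff t).of_le (by exact_mod_cast le_top)) x
  have hder2 := (hder.const_mul (smC * t ^ 3)⁻¹).congr_of_eventuallyEq hrep
  rw [hder2.fderiv, norm_smul]
  have hKd : ∀ z, ‖fderiv ℝ (smK t) z‖ = t⁻¹ * ‖fderiv ℝ smPhi (t⁻¹ • z)‖ := by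
    intro z
    have h1 : HasFDerivAt (fun z : E3 => t⁻¹ • z) (t⁻¹ • ContinuousLinearMap.id ℝ E3) z :=
      (hasFDerivAt_id z).const_smul t⁻¹
    have h2 := ((smPhi_contDiff.differentiable (by simp)) (t⁻¹ • z)).hasFDerivAt.comp z h1
    have h3 : smPhi ∘ (fun z : E3 => t⁻¹ • z) = smK t := rfl
    rw [h3] at h2
    rw [h2.fderiv]
    have h4 : (fderiv ℝ smPhi (t⁻¹ • z)).comp (t⁻¹ • ContinuousLinearMap.id ℝ E3) =
        t⁻¹ • fderiv ℝ smPhi (t⁻¹ • z) := by
      ext v; simp
    rw [h4, norm_smul, Real.norm_of_nonneg (by positivity)]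
  have hint : ∫ z, ‖fderiv ℝ (smK t) z‖ = t ^ 2 * N := by
    simp only [hKd]
    rw [integral_const_mul, Measure.integral_comp_smul (volume : Measure E3)
      (fun z => ‖fderiv ℝ smPhi z‖) t⁻¹]
    have h3 : Module.finrank ℝ E3 = 3 := by simp
    rw [h3, abs_of_pos (by positivity), smul_eq_mul, ← hN]
    field_simp
  have hcont : Continuous (fderiv ℝ (smK t)) := (smK_contDiff t).continuous_fderiv (by simp)
  have hcs : HasCompactSupport (fderiv ℝ (smK t)) := (smK_hasCompactSupport ht0).fderiv ℝ
  have hii : Integrable (fun z => ‖fderiv ℝ (smK t) z‖) :=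
    (hcont.integrable_of_hasCompactSupport hcs).norm
  have hbound : ‖convolution G (fderiv ℝ (smK t))
      ((ContinuousLinearMap.lsmul ℝ ℝ).precompR E3) volume x‖ ≤ m * (t ^ 2 * N) := by
    rw [convolution_def]
    refine (norm_integral_le_of_norm_le
      (g := fun y => m * ‖fderiv ℝ (smK t) (x - y)‖) ?_ ?_).trans ?_
    · exact (hii.comp_sub_left x).const_mul m
    · refine Eventually.of_forall fun y => ?_
      have h1 : ((ContinuousLinearMap.lsmul ℝ ℝ).precompR E3) (G y) (fderiv ℝ (smK t) (x - y)) =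
          G y • fderiv ℝ (smK t) (x - y) := by
        ext v
        simp [ContinuousLinearMap.precompR_apply]
      rw [h1, norm_smul, Real.norm_eq_abs]
      exact mul_le_mul_of_nonneg_right (hGm y) (norm_nonneg _)
    · rw [integral_const_mul, integral_sub_left_eq_self
        (fun y => ‖fderiv ℝ (smK t) y‖) volume x, hint]
  have h9 : ‖(smC * t ^ 3)⁻¹‖ = (smC * t ^ 3)⁻¹ := Real.norm_of_nonneg (by positivity)
  rw [h9]
  calc (smC * t ^ 3)⁻¹ * ‖convolution G (fderiv ℝ (smK t))
        ((ContinuousLinearMap.lsmul ℝ ℝ).precompR E3) volume x‖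
      ≤ (smC * t ^ 3)⁻¹ * (m * (t ^ 2 * N)) := mul_le_mul_of_nonneg_left hbound (by positivity)
    _ = (2 * N / smC) * m / R := by
        rw [ht]
        field_simp
    _ ≤ (2 * N / smC + 1) * m / R := by
        gcongr
        linarith

end FB75
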