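import Pool.Agent.FB75.Lip

/-!
# The truncated cube of a solution, and its mass
-/

open MeasureTheory Metric Set Filter Topology InnerProductSpace Laplacian
open scoped ContDiff

namespace FB75

/-- The truncated cube. -/
noncomputable def trc (ε s : ℝ) : ℝ := (max 0 (s - ε)) ^ 3

theorem trc_hasDerivAt (ε s : ℝ) : HasDerivAt (trc ε) (3 * (max 0 (s - ε)) ^ 2) s := by
  have h := (hasDerivAt_posPow 1 (s - ε)).comp s ((hasDerivAt_id s).sub_const ε)
  refine h.congr_deriv ?_
  norm_num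

theorem trc_hasDerivAt2 (ε s : ℝ) :
    HasDerivAt (fun s : ℝ => 3 * (max 0 (s - ε)) ^ 2) (6 * max 0 (s - ε)) s := by
  have h := ((hasDerivAt_posPow 0 (s - ε)).comp s ((hasDerivAt_id s).sub_const ε)).const_mul 3
  refine h.congr_deriv ?_
  norm_num
  ring

theorem trc_contDiff (ε : ℝ) : ContDiff ℝ 2 (trc ε) := by
  have h1 : deriv (trc ε) = fun s => 3 * (max 0 (s - ε)) ^ 2 :=
    funext fun s => (trc_hasDerivAt ε s).deriv
  have h2 : deriv (fun s : ℝ => 3 * (max 0 (s - ε)) ^ 2) = fun s => 6 * max 0 (s - ε) :=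
    funext fun s => (trc_hasDerivAt2 ε s).deriv
  rw [show (2 : WithTop ℕ∞) = 1 + 1 by norm_num, contDiff_succ_iff_deriv]
  refine ⟨fun s => (trc_hasDerivAt ε s).differentiableAt, by simp, ?_⟩
  rw [h1, contDiff_one_iff_deriv, h2]
  exact ⟨fun s => (trc_hasDerivAt2 ε s).differentiableAt, by fun_prop⟩

theorem trc_nonneg (ε s : ℝ) : 0 ≤ trc ε s := by unfold trc; positivity

theorem trc_le {ε s : ℝ} (hε : 0 ≤ ε) (hs : 0 ≤ s) : trc ε s ≤ s ^ 3 := by
  unfold trc
  refine pow_le_pow_left₀ (le_max_left _ _) (max_le hs (by linarith)) 3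

theorem trc_eq_zero {ε s : ℝ} (h : s ≤ ε) : trc ε s = 0 := by
  unfold trc
  rw [max_eq_left (by linarith)]; simp

variable {u : E3 → ℝ} (hu : IsEntireSolution u) {ε : ℝ} (hε : 0 < ε)

include hu hε

theorem near_zero {x : E3} (hx : u x = 0) : (fun y => trc ε (u y)) =ᶠ[𝓝 x] fun _ => 0 := by
  have h1 : {y | u y < ε} ∈ 𝓝 x :=
    (isOpen_lt hu.continuous continuous_const).mem_nhds (by
      change u x < ε
      rw [hx]; exact hε)
  filter_upwards [h1] with y hy
  exact trc_eq_zero (le_of_lt hy)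

theorem sub_contDiff : ContDiff ℝ 2 (fun x => trc ε (u x)) := by
  rw [contDiff_iff_contDiffAt]
  intro x
  by_cases hx : u x = 0
  · exact (contDiffAt_const (c := (0 : ℝ))).congr_of_eventuallyEq (near_zero hu hε hx)
  · exact (trc_contDiff ε).contDiffAt.comp x (hu.harmonic x (pos_of_ne hu hx)).1

theorem sub_laplacian_nonneg (x : E3) : 0 ≤ Δ (fun x => trc ε (u x)) x := by
  by_cases hx : u x = 0
  · rw [(laplacian_congr_nhds (near_zero hu hε hx)).self_of_nhds]
    have : Δ (fun _ : E3 => (0 : ℝ)) = 0 := laplacian_const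
    rw [this]; simp
  have hxp := pos_of_ne hu hx
  have hharm : HarmonicAt u x := hu.harmonic x hxp
  rw [laplacian_eq_sum (sub_contDiff hu hε).contDiffAt]
  have hud : ∀ᶠ y in 𝓝 x, DifferentiableAt ℝ u y := by
    filter_upwards [hharm.1.eventually (by simp)] with y hy
    exact hy.differentiableAt (by norm_num)
  have h1 : ∀ i, (fun y => fderiv ℝ (fun x => trc ε (u x)) y (ei i)) =ᶠ[𝓝 x]
      fun y => (3 * (max 0 (u y - ε)) ^ 2) * fderiv ℝ u y (ei i) := by
    intro i
    filter_upwards [hud] with y hy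
    have h2 := (trc_hasDerivAt ε (u y)).comp_hasFDerivAt y hy.hasFDerivAt
    have h3 : fderiv ℝ (fun x => trc ε (u x)) y = (3 * (max 0 (u y - ε)) ^ 2) • fderiv ℝ u y :=
      h2.fderiv
    rw [h3]
    rfl
  have h2 : ∀ i, fderiv ℝ (fun y => fderiv ℝ (fun x => trc ε (u x)) y (ei i)) x (ei i) =
      6 * max 0 (u x - ε) * (fderiv ℝ u x (ei i)) ^ 2 + 3 * (max 0 (u x - ε)) ^ 2 *
        fderiv ℝ (fun y => fderiv ℝ u y (ei i)) x (ei i) := by
    intro i
    rw [(h1 i).fderiv_eq]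
    have hd1 : HasFDerivAt (fun y => 3 * (max 0 (u y - ε)) ^ 2)
        ((6 * max 0 (u x - ε)) • fderiv ℝ u x) x :=
      (trc_hasDerivAt2 ε (u x)).comp_hasFDerivAt x
        (hharm.1.differentiableAt (by norm_num)).hasFDerivAt
    have hd2 : HasFDerivAt (fun y => fderiv ℝ u y (ei i))
        (fderiv ℝ (fun y => fderiv ℝ u y (ei i)) x) x :=
      (((hharm.1.fderiv_right (m := 1) (by norm_num)).differentiableAt (by norm_num)).clm_apply
        (differentiableAt_const _)).hasFDerivAt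
    have hd3 : HasFDerivAt (fun y => (3 * (max 0 (u y - ε)) ^ 2) * fderiv ℝ u y (ei i)) _ x :=
      hd1.mul hd2
    rw [hd3.fderiv]
    simp only [add_apply, smul_apply, smul_eq_mul]
    ring
  simp only [h2]
  rw [Finset.sum_add_distrib, ← Finset.mul_sum]
  have h4 : ∑ i, fderiv ℝ (fun y => fderiv ℝ u y (ei i)) x (ei i) = 0 := by
    rw [← laplacian_eq_sum hharm.1, hharm.2.self_of_nhds]; rfl
  have h5 : ∑ i, 3 * (max 0 (u x - ε)) ^ 2 * fderiv ℝ (fun y => fderiv ℝ u y (ei i)) x (ei i) = 0 := by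
    rw [← Finset.mul_sum, h4, mul_zero]
  rw [h5, add_zero]
  have : 0 ≤ max 0 (u x - ε) := le_max_left _ _
  positivity

omit hu hε in
theorem laplacian_continuous {f : E3 → ℝ} (hf : ContDiff ℝ 2 f) : Continuous (Δ f) := by
  have h1 : Δ f = fun x => ∑ i, fderiv ℝ (fun y => fderiv ℝ f y (ei i)) x (ei i) :=
    funext fun x => laplacian_eq_sum hf.contDiffAt
  rw [h1]
  refine continuous_finsetSum _ fun i _ => ?_
  have h2 : ContDiff ℝ 1 (fun y => fderiv ℝ f y (ei i)) :=
    (hf.fderiv_right (m := 1) (by norm_num)).clm_apply contDiff_const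
  have h3 : Continuous (fderiv ℝ (fun y => fderiv ℝ f y (ei i))) :=
    h2.continuous_fderiv (by norm_num)
  fun_prop

end FB75
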