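import Pool.Agent.FB75.Screw
import Pool.Agent.FB75.Axi

/-!
# Solutions invariant under a one-parameter group of screw motions or rotations
-/

open MeasureTheory Metric Set Filter Topology InnerProductSpace Laplacian
open scoped ContDiff

namespace FB75

/-- Two points with the same height and the same norm differ by a rotation. -/
theorem exists_rot {x y : E3} (h2 : x 2 = y 2) (hn : ‖x‖ = ‖y‖) : ∃ θ : ℝ, screw 0 θ x = y := by
  set a : ℂ := ⟨x 0, x 1⟩ with ha
  set b : ℂ := ⟨y 0, y 1⟩ with hb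
  have hab : ‖a‖ = ‖b‖ := by
    have h1 : ‖x‖ ^ 2 = ‖y‖ ^ 2 := by rw [hn]
    rw [EuclideanSpace.norm_sq_eq, EuclideanSpace.norm_sq_eq] at h1
    simp only [Fin.sum_univ_three, Real.norm_eq_abs, sq_abs, h2] at h1
    have h3 : ‖a‖ ^ 2 = ‖b‖ ^ 2 := by
      rw [← Complex.normSq_eq_norm_sq, ← Complex.normSq_eq_norm_sq, Complex.normSq_apply,
        Complex.normSq_apply]
      simp only [ha, hb]
      linarith
    exact (pow_left_inj₀ (norm_nonneg _) (norm_nonneg _) (by norm_num)).1 h3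
  obtain ⟨θ, hθ⟩ : ∃ θ : ℝ, a * Complex.exp (θ * Complex.I) = b := by
    by_cases ha0 : a = 0
    · refine ⟨0, ?_⟩
      have : b = 0 := by rw [← norm_eq_zero, ← hab, ha0, norm_zero]
      rw [ha0, this, zero_mul]
    · refine ⟨(b / a).arg, ?_⟩
      have h3 := Complex.norm_mul_exp_arg_mul_I (b / a)
      rw [norm_div, hab, div_self (by rw [← hab]; exact norm_ne_zero_iff.2 ha0),
        Complex.ofReal_one, one_mul] at h3
      rw [h3]
      field_simp
  refine ⟨θ, ?_⟩
  have hre := congrArg Complex.re hθ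
  have him := congrArg Complex.im hθ
  rw [Complex.mul_re, Complex.exp_ofReal_mul_I_re, Complex.exp_ofReal_mul_I_im] at hre
  rw [Complex.mul_im, Complex.exp_ofReal_mul_I_re, Complex.exp_ofReal_mul_I_im] at him
  simp only [ha, hb] at hre him
  ext i
  fin_cases i
  · simp [screw]; linarith
  · simp [screw]; linarith
  · simp [screw]; exact h2

theorem axSym_of_rot {u : E3 → ℝ} (T : E3 ≃ᵢ E3) (hinv : ∀ θ x, u (T (screw 0 θ x)) = u (T x)) :
    ∃ p e : E3, ‖e‖ = 1 ∧ AxSym u p e := by
  set e₃ : E3 := EuclideanSpace.single 2 1 with he₃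
  set A := T.toRealAffineIsometryEquiv with hA
  have hAT : ∀ x, A x = T x := fun x => by rw [hA]; rfl
  have hlin : ∀ x y, T x - T y = A.linearIsometryEquiv (x - y) := by
    intro x y
    have := A.map_vsub x y
    rw [hAT, hAT] at this
    exact this.symm
  have hin : ∀ x, inner ℝ (T x - T 0) (T e₃ - T 0) = x 2 := by
    intro x
    rw [hlin, hlin, LinearIsometryEquiv.inner_map_map, sub_zero, sub_zero, he₃,
      EuclideanSpace.inner_single_right]
    simp
  have hno : ∀ x, ‖T x - T 0‖ = ‖x‖ := by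
    intro x
    rw [hlin, LinearIsometryEquiv.norm_map, sub_zero]
  refine ⟨T 0, T e₃ - T 0, ?_, ?_⟩
  · rw [hno, he₃]; simp
  · intro X Y h1 h2
    obtain ⟨x, rfl⟩ := T.surjective X
    obtain ⟨y, rfl⟩ := T.surjective Y
    rw [hin, hin] at h1
    rw [hno, hno] at h2
    obtain ⟨θ, hθ⟩ := exists_rot h1 h2
    rw [← hθ, hinv]

theorem sym_flat {u : E3 → ℝ} (hu : IsEntireSolution u) (T : E3 ≃ᵢ E3) (c : ℝ)
    (hinv : ∀ θ x, u (T (screw c θ x)) = u (T x)) [h1 : ContractibleSpace {x | 0 < u x}]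
    [h2 : ContractibleSpace {x | u x = 0}] :
    ∃ (e : E3) (t : ℝ), ‖e‖ = 1 ∧ ∀ x, u x = max (inner ℝ x e - t) 0 := by
  by_cases hc : c = 0
  · subst hc
    obtain ⟨p, e, he, hs⟩ := axSym_of_rot T hinv
    exact axi_flat hu he hs
  · exfalso
    have hsc : SimplyConnectedSpace {x | 0 < u x} := inferInstance
    have h3 := no_screw hu T hc hinv hsc
    have : PathConnectedSpace {x | u x = 0} := inferInstance
    obtain ⟨⟨x, hx⟩⟩ := this.nonempty
    exact h3 x hx

end FB75
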