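import Pool.Agent.FB75.Spread

/-!
# A bounded subharmonic function which vanishes on a tube vanishes
-/

open MeasureTheory Metric Set Filter Topology InnerProductSpace Laplacian
open scoped ContDiff

namespace FB75

/-- The squared distance to the axis. -/
noncomputable def tube_w (p l : E3) (y : E3) : ℝ := ‖y - p‖ ^ 2 - (inner ℝ (y - p) l) ^ 2

theorem tube_w_contDiff (p l : E3) : ContDiff ℝ 2 (tube_w p l) := by
  have h1 : ContDiff ℝ 2 (fun y : E3 => inner ℝ (y - p) l) :=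
    (contDiff_id.sub contDiff_const).inner ℝ contDiff_const
  have h2 : ContDiff ℝ 2 (fun y : E3 => ‖y - p‖ ^ 2) :=
    (contDiff_id.sub contDiff_const).norm_sq ℝ
  exact h2.sub (h1.pow 2)

theorem tube_w_hasFDerivAt (p l y : E3) :
    HasFDerivAt (tube_w p l)
      (2 • innerSL ℝ (y - p) - (2 * inner ℝ (y - p) l) • innerSL ℝ l) y := by
  have hsq : HasFDerivAt (fun y : E3 => ‖y - p‖ ^ 2) (2 • innerSL ℝ (y - p)) y := by
    have h0 := (hasStrictFDerivAt_norm_sq (y - p)).hasFDerivAt.comp y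
      ((hasFDerivAt_id y).sub_const p)
    have h0' : HasFDerivAt (fun y : E3 => ‖y - p‖ ^ 2)
      ((2 • innerSL ℝ (y - p)).comp (ContinuousLinearMap.id ℝ E3)) y := h0
    rwa [ContinuousLinearMap.comp_id] at h0'
  have h : HasFDerivAt (tube_w p l) _ y := hsq.sub ((spread_hasFDerivAt_inner l p y).pow 2)
  refine h.congr_fderiv ?_
  ext v
  simp

theorem tube_log_contDiffAt {p l x : E3} (hx : 0 < tube_w p l x) :
    ContDiffAt ℝ 2 (fun y => Real.log (tube_w p l y)) x :=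
  (tube_w_contDiff p l).contDiffAt.log hx.ne'

theorem tube_log_lap {p l : E3} (hl : ‖l‖ = 1) {x : E3} (hx : 0 < tube_w p l x) :
    Δ (fun y => Real.log (tube_w p l y)) x = 0 := by
  rw [laplacian_eq_sum (tube_log_contDiffAt hx)]
  have hev : ∀ᶠ y in 𝓝 x, 0 < tube_w p l y :=
    (tube_w_contDiff p l).continuous.continuousAt.eventually (lt_mem_nhds hx)
  have h1 : ∀ i, (fun y => fderiv ℝ (fun y => Real.log (tube_w p l y)) y (ei i)) =ᶠ[𝓝 x]
      fun y => (tube_w p l y)⁻¹ * (2 * inner ℝ (y - p) (ei i) -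
        2 * inner ℝ (y - p) l * inner ℝ l (ei i)) := by
    intro i
    filter_upwards [hev] with y hy
    rw [((tube_w_hasFDerivAt p l y).log hy.ne').fderiv]
    simp only [sub_apply, smul_apply, innerSL_apply_apply, smul_eq_mul, nsmul_eq_mul]
    push_cast
    ring
  have h2 : ∀ i, fderiv ℝ (fun y => fderiv ℝ (fun y => Real.log (tube_w p l y)) y (ei i)) x
      (ei i) = (tube_w p l x)⁻¹ * (2 - 2 * (inner ℝ l (ei i)) ^ 2) -
        ((tube_w p l x)⁻¹) ^ 2 * (2 * inner ℝ (x - p) (ei i) -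
        2 * inner ℝ (x - p) l * inner ℝ l (ei i)) ^ 2 := by
    intro i
    rw [(h1 i).fderiv_eq]
    have hd1 : HasFDerivAt (fun y : E3 => 2 * inner ℝ (y - p) (ei i) -
        2 * inner ℝ (y - p) l * inner ℝ l (ei i)) _ x :=
      ((spread_hasFDerivAt_inner (ei i) p x).const_mul 2).sub
        (((spread_hasFDerivAt_inner l p x).const_mul 2).mul_const (inner ℝ l (ei i)))
    have hd2 : HasFDerivAt (fun y : E3 => (tube_w p l y)⁻¹) _ x :=
      (hasDerivAt_inv hx.ne').comp_hasFDerivAt x (tube_w_hasFDerivAt p l x)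
    have hd3 : HasFDerivAt (fun y => (tube_w p l y)⁻¹ * (2 * inner ℝ (y - p) (ei i) -
        2 * inner ℝ (y - p) l * inner ℝ l (ei i))) _ x := hd2.mul hd1
    rw [hd3.fderiv]
    simp only [add_apply, sub_apply, smul_apply, innerSL_apply_apply, smul_eq_mul, nsmul_eq_mul,
      spread_ei_self]
    push_cast
    have e1 : inner ℝ (ei i) l = inner ℝ l (ei i) := real_inner_comm _ _
    have hw := hx.ne'
    field_simp
    ring
  simp only [h2]
  rw [Finset.sum_sub_distrib, ← Finset.mul_sum, ← Finset.mul_sum]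
  have e2 : ∑ i, (2 - 2 * (inner ℝ l (ei i)) ^ 2) = 4 := by
    rw [Finset.sum_sub_distrib, ← Finset.mul_sum, spread_sum_sq, hl]
    simp
    norm_num
  have e3 : ∑ i, (2 * inner ℝ (x - p) (ei i) - 2 * inner ℝ (x - p) l * inner ℝ l (ei i)) ^ 2 =
      4 * tube_w p l x := by
    have e4 : ∀ i, (2 * inner ℝ (x - p) (ei i) - 2 * inner ℝ (x - p) l * inner ℝ l (ei i)) ^ 2 =
        4 * (inner ℝ (x - p) (ei i)) ^ 2 - 8 * inner ℝ (x - p) l *
          (inner ℝ (x - p) (ei i) * inner ℝ l (ei i)) +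
          4 * (inner ℝ (x - p) l) ^ 2 * (inner ℝ l (ei i)) ^ 2 := by
      intro i; ring
    simp only [e4]
    rw [Finset.sum_add_distrib, Finset.sum_sub_distrib, ← Finset.mul_sum, ← Finset.mul_sum,
      ← Finset.mul_sum, spread_sum_sq, spread_sum_sq, spread_sum_mul, hl, tube_w]
    ring
  rw [e2, e3]
  field_simp
  ring

theorem tube_w_eq {p l : E3} (hl : ‖l‖ = 1) (x : E3) :
    tube_w p l x = ‖x - p - (inner ℝ (x - p) l) • l‖ ^ 2 := by
  rw [tube_w, norm_sub_sq_real (x - p), norm_smul, inner_smul_right, mul_pow, hl,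
    Real.norm_eq_abs, sq_abs]
  ring

theorem tube_dist {p l : E3} (hl : ‖l‖ = 1) (x : E3) :
    dist x (p + (inner ℝ (x - p) l) • l) ^ 2 = tube_w p l x := by
  rw [tube_w_eq hl, dist_eq_norm]
  congr 2
  abel

/-- On the closed tube the function vanishes. -/
theorem tube_closed {s : E3 → ℝ} (hs : Continuous s) {p l : E3} (hl : ‖l‖ = 1) {ρ : ℝ} (hρ : 0 < ρ)
    (ht : ∀ (x : E3) (τ : ℝ), dist x (p + τ • l) < ρ → s x = 0) {x : E3}
    (hx : tube_w p l x ≤ ρ ^ 2) : s x = 0 := by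
  set z : ℝ := inner ℝ (x - p) l with hz
  set g : ℝ → E3 := fun t => p + z • l + t • (x - p - z • l) with hg
  have hgc : Continuous g := by rw [hg]; fun_prop
  have hcl : IsClosed {t : ℝ | s (g t) = 0} :=
    isClosed_eq (hs.comp hgc) continuous_const
  have hsub : Ico (0 : ℝ) 1 ⊆ {t : ℝ | s (g t) = 0} := by
    intro t htt
    refine ht (g t) z ?_
    have h1 : g t - (p + z • l) = t • (x - p - z • l) := by
      rw [hg]; module
    rw [dist_eq_norm, h1, norm_smul, Real.norm_of_nonneg htt.1]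
    have h2 : ‖x - p - z • l‖ ≤ ρ := by
      rw [tube_w_eq hl] at hx
      exact (sq_le_sq₀ (norm_nonneg _) hρ.le).1 hx
    have h3 : 0 ≤ ‖x - p - z • l‖ := norm_nonneg _
    have h4 := htt.2
    have h5 := htt.1
    nlinarith
  have h1 : (1 : ℝ) ∈ {t : ℝ | s (g t) = 0} := by
    have h2 := closure_minimal hsub hcl
    rw [closure_Ico (by norm_num)] at h2
    exact h2 ⟨by norm_num, le_refl _⟩
  have h2 : g 1 = x := by rw [hg]; module
  rw [mem_ofPred_eq, h2] at h1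
  exact h1

/-- The upper bound at scale `R`. -/
theorem tube_bound {s : E3 → ℝ} (hs : Continuous s) (h1 : ∀ x, s x ≤ 1)
    (hh : ∀ x, 0 < s x → HarmonicAt s x) {p l : E3} (hl : ‖l‖ = 1) {ρ : ℝ} (hρ : 0 < ρ)
    (ht : ∀ (x : E3) (τ : ℝ), dist x (p + τ • l) < ρ → s x = 0) {R : ℝ} (hR : ρ < R) {x : E3}
    (hx1 : ρ ^ 2 ≤ tube_w p l x) (hx2 : tube_w p l x ≤ R ^ 2)
    (hx3 : (inner ℝ (x - p) l) ^ 2 ≤ R ^ 2) :
    s x ≤ 2 * ((Real.log (tube_w p l x) - Real.log (ρ ^ 2)) / (Real.log (R ^ 2) - Real.log (ρ ^ 2)) +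
      spread_q l p (ρ ^ 2 / (2 * R ^ 2)) (-(1 / (2 * R ^ 2))) 0 x) := by
  have hR0 : 0 < R := hρ.trans hR
  have hρR : ρ ^ 2 < R ^ 2 := pow_lt_pow_left₀ hR hρ.le (by norm_num)
  have hlogR : 0 < Real.log (R ^ 2) - Real.log (ρ ^ 2) :=
    sub_pos.2 (Real.log_lt_log (by positivity) hρR)
  set D : ℝ := Real.log (R ^ 2) - Real.log (ρ ^ 2) with hD
  set Q : E3 → ℝ := spread_q l p (ρ ^ 2 / (2 * R ^ 2)) (-(1 / (2 * R ^ 2))) 0 with hQ
  have hQe : ∀ y, Q y = (inner ℝ (y - p) l) ^ 2 / R ^ 2 - (tube_w p l y - ρ ^ 2) / (2 * R ^ 2) := by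
    intro y
    rw [hQ, spread_q, tube_w]
    field_simp
    ring
  set G : E3 → ℝ := fun y => (Real.log (tube_w p l y) - Real.log (ρ ^ 2)) / D + Q y with hG
  have hQcd : ContDiff ℝ 2 Q := spread_q_contDiff _ _ _ _ _
  -- concavity of the logarithm
  have hconc : ∀ u, ρ ^ 2 ≤ u → u ≤ R ^ 2 →
      (u - ρ ^ 2) / (2 * R ^ 2) ≤ (Real.log u - Real.log (ρ ^ 2)) / D := by
    intro u hu1 hu2
    have hd : 0 < R ^ 2 - ρ ^ 2 := by linarith
    have ha : 0 ≤ (R ^ 2 - u) / (R ^ 2 - ρ ^ 2) := div_nonneg (by linarith) hd.le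
    have hb : 0 ≤ (u - ρ ^ 2) / (R ^ 2 - ρ ^ 2) := div_nonneg (by linarith) hd.le
    have hab : (R ^ 2 - u) / (R ^ 2 - ρ ^ 2) + (u - ρ ^ 2) / (R ^ 2 - ρ ^ 2) = 1 := by
      field_simp
      ring
    have hm1 : ρ ^ 2 ∈ Ioi (0 : ℝ) := by simp only [mem_Ioi]; positivity
    have hm2 : R ^ 2 ∈ Ioi (0 : ℝ) := by simp only [mem_Ioi]; positivity
    have h3 := strictConcaveOn_log_Ioi.concaveOn.2 hm1 hm2 ha hb hab
    simp only [smul_eq_mul] at h3
    have h4 : (R ^ 2 - u) / (R ^ 2 - ρ ^ 2) * ρ ^ 2 + (u - ρ ^ 2) / (R ^ 2 - ρ ^ 2) * R ^ 2 = u := by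
      field_simp
      ring
    rw [h4] at h3
    have h5 : (u - ρ ^ 2) / (R ^ 2 - ρ ^ 2) * D ≤ Real.log u - Real.log (ρ ^ 2) := by
      have h6 : (R ^ 2 - u) / (R ^ 2 - ρ ^ 2) = 1 - (u - ρ ^ 2) / (R ^ 2 - ρ ^ 2) := by
        field_simp
        ring
      rw [h6] at h3
      rw [hD]
      linarith
    rw [le_div_iff₀ hlogR]
    refine le_trans (mul_le_mul_of_nonneg_right ?_ hlogR.le) h5
    apply div_le_div_of_nonneg_left (by linarith) hd
    nlinarith [sq_nonneg ρ]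
  set C : Set E3 := {y | ρ ^ 2 ≤ tube_w p l y ∧ tube_w p l y ≤ R ^ 2 ∧
    (inner ℝ (y - p) l) ^ 2 ≤ R ^ 2} with hC
  have hwc : Continuous (tube_w p l) := (tube_w_contDiff p l).continuous
  have hzc : Continuous fun y : E3 => (inner ℝ (y - p) l) ^ 2 := by fun_prop
  have hcpt : IsCompact C := by
    refine (isCompact_closedBall p (2 * R)).of_isClosed_subset ?_ ?_
    · exact (isClosed_le continuous_const hwc).inter
        ((isClosed_le hwc continuous_const).inter (isClosed_le hzc continuous_const))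
    · rintro y ⟨-, hy2, hy3⟩
      rw [mem_closedBall, dist_eq_norm]
      refine (sq_le_sq₀ (norm_nonneg _) (by positivity)).1 ?_
      rw [tube_w] at hy2
      nlinarith [sq_nonneg R]
  have hpos : ∀ y ∈ C, 0 < tube_w p l y := fun y hy => lt_of_lt_of_le (by positivity) hy.1
  have hG0 : ∀ y ∈ C, 0 ≤ G y := by
    intro y hy
    have h3 := hconc _ hy.1 hy.2.1
    simp only [hG, hQe]
    have h4 : 0 ≤ (inner ℝ (y - p) l) ^ 2 / R ^ 2 := by positivity
    linarith
  have hhalf : ∀ y ∈ C, (tube_w p l y - ρ ^ 2) / (2 * R ^ 2) ≤ 1 / 2 := by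
    intro y hy
    rw [div_le_div_iff₀ (by positivity) (by norm_num)]
    nlinarith [hy.2.1, sq_nonneg ρ]
  have hmin := min_principle hcpt (F := fun y => 2 * G y - s y) ?_ ?_
  · have h3 := hmin x ⟨hx1, hx2, hx3⟩
    simp only [hG] at h3
    linarith
  · refine ContinuousOn.sub (ContinuousOn.mul continuousOn_const (ContinuousOn.add
      (ContinuousOn.div_const (ContinuousOn.sub ?_ continuousOn_const) _)
      hQcd.continuous.continuousOn)) hs.continuousOn
    exact hwc.continuousOn.log fun y hy => (hpos y hy).ne'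
  · intro y hy hneg
    have hsy : 0 < s y := by linarith [hG0 y hy]
    have hlt1 : ρ ^ 2 < tube_w p l y := by
      refine lt_of_le_of_ne hy.1 fun h => ?_
      have := tube_closed hs hl hρ ht h.ge
      linarith
    have hGlt : G y < 1 / 2 := by linarith [h1 y]
    have hlt2 : tube_w p l y < R ^ 2 := by
      refine lt_of_le_of_ne hy.2.1 fun h => ?_
      have h3 : G y = 1 + ((inner ℝ (y - p) l) ^ 2 / R ^ 2 -
          (tube_w p l y - ρ ^ 2) / (2 * R ^ 2)) := by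
        simp only [hG, hQe]
        rw [h, ← hD, div_self hlogR.ne']
      have h4 : 0 ≤ (inner ℝ (y - p) l) ^ 2 / R ^ 2 := by positivity
      linarith [hhalf y hy]
    have hlt3 : (inner ℝ (y - p) l) ^ 2 < R ^ 2 := by
      refine lt_of_le_of_ne hy.2.2 fun h => ?_
      have h3 : 0 ≤ (Real.log (tube_w p l y) - Real.log (ρ ^ 2)) / D := by
        apply div_nonneg _ hlogR.le
        exact sub_nonneg.2 (Real.log_le_log (by positivity) hy.1)
      have h4 : G y = (Real.log (tube_w p l y) - Real.log (ρ ^ 2)) / D + (1 -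
          (tube_w p l y - ρ ^ 2) / (2 * R ^ 2)) := by
        simp only [hG, hQe]
        rw [h, div_self (by positivity)]
      linarith [hhalf y hy]
    have hLcd : ContDiffAt ℝ 2 (fun y => Real.log (tube_w p l y)) y :=
      tube_log_contDiffAt (hpos y hy)
    have hEq : (fun y => 2 * G y - s y) = ((2 / D) • (fun y => Real.log (tube_w p l y)) +
        spread_q l p (2 * (ρ ^ 2 / (2 * R ^ 2)) - 2 * Real.log (ρ ^ 2) / D)
          (2 * (-(1 / (2 * R ^ 2)))) 0) - s := by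
      funext v
      simp only [hG, hQ, Pi.sub_apply, Pi.add_apply, Pi.smul_apply, smul_eq_mul, spread_q]
      ring
    have hcdA : ContDiffAt ℝ 2 ((2 / D) • (fun y => Real.log (tube_w p l y))) y :=
      hLcd.const_smul (2 / D)
    have hcdB : ContDiffAt ℝ 2 (spread_q l p (2 * (ρ ^ 2 / (2 * R ^ 2)) -
        2 * Real.log (ρ ^ 2) / D) (2 * (-(1 / (2 * R ^ 2)))) 0) y :=
      (spread_q_contDiff _ _ _ _ _).contDiffAt
    have hAB : ContDiffAt ℝ 2 ((2 / D) • (fun y => Real.log (tube_w p l y)) +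
        spread_q l p (2 * (ρ ^ 2 / (2 * R ^ 2)) - 2 * Real.log (ρ ^ 2) / D)
          (2 * (-(1 / (2 * R ^ 2)))) 0) y := hcdA.add hcdB
    have hharm := hh y hsy
    refine ⟨?_, ?_, ?_⟩
    · have ho : IsOpen {y : E3 | ρ ^ 2 < tube_w p l y ∧ tube_w p l y < R ^ 2 ∧
          (inner ℝ (y - p) l) ^ 2 < R ^ 2} :=
        (isOpen_lt continuous_const hwc).inter
          ((isOpen_lt hwc continuous_const).inter (isOpen_lt hzc continuous_const))
      refine mem_of_superset (ho.mem_nhds ⟨hlt1, hlt2, hlt3⟩) ?_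
      rintro v ⟨h3, h4, h5⟩
      exact ⟨h3.le, h4.le, h5.le⟩
    · rw [hEq]
      exact hAB.sub hharm.1
    · rw [hEq, hAB.laplacian_sub hharm.1, hcdA.laplacian_add hcdB,
        laplacian_smul _ hLcd, tube_log_lap hl (hpos y hy), spread_q_lap hl,
        hharm.2.self_of_nhds]
      simp

theorem tube_zero {s : E3 → ℝ} (hs : Continuous s) (h0 : ∀ x, 0 ≤ s x) (h1 : ∀ x, s x ≤ 1)
    (hh : ∀ x, 0 < s x → HarmonicAt s x) {p l : E3} (hl : ‖l‖ = 1) {ρ : ℝ} (hρ : 0 < ρ)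
    (ht : ∀ (x : E3) (τ : ℝ), dist x (p + τ • l) < ρ → s x = 0) : ∀ x, s x = 0 := by
  intro x
  rcases le_total (tube_w p l x) (ρ ^ 2) with hx | hx
  · exact tube_closed hs hl hρ ht hx
  · refine le_antisymm ?_ (h0 x)
    have hsqT : Tendsto (fun R : ℝ => R ^ 2) atTop atTop := tendsto_pow_atTop (by norm_num)
    have hinv : Tendsto (fun R : ℝ => (R ^ 2)⁻¹) atTop (𝓝 0) := tendsto_inv_atTop_zero.comp hsqT
    have hlog : Tendsto (fun R : ℝ => (Real.log (R ^ 2) - Real.log (ρ ^ 2))⁻¹) atTop (𝓝 0) := by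
      refine tendsto_inv_atTop_zero.comp ?_
      exact tendsto_atTop_add_const_right _ _ (Real.tendsto_log_atTop.comp hsqT)
    have hlim : Tendsto (fun R : ℝ => 2 * ((Real.log (tube_w p l x) - Real.log (ρ ^ 2)) *
        (Real.log (R ^ 2) - Real.log (ρ ^ 2))⁻¹ +
        (ρ ^ 2 / 2 - 1 / 2 * (‖x - p‖ ^ 2 - 3 * (inner ℝ (x - p) l) ^ 2)) * (R ^ 2)⁻¹)) atTop
        (𝓝 (2 * ((Real.log (tube_w p l x) - Real.log (ρ ^ 2)) * 0 +
        (ρ ^ 2 / 2 - 1 / 2 * (‖x - p‖ ^ 2 - 3 * (inner ℝ (x - p) l) ^ 2)) * 0))) :=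
      ((hlog.const_mul _).add (hinv.const_mul _)).const_mul _
    simp only [mul_zero, add_zero] at hlim
    refine ge_of_tendsto hlim ?_
    have e1 := hsqT.eventually_ge_atTop (tube_w p l x)
    have e2 := hsqT.eventually_ge_atTop ((inner ℝ (x - p) l) ^ 2)
    filter_upwards [e1, e2, eventually_gt_atTop ρ] with R hR1 hR2 hR3
    have h3 := tube_bound hs h1 hh hl hρ ht hR3 hx hR1 hR2
    refine h3.trans (le_of_eq ?_)
    have hR0 : 0 < R := hρ.trans hR3
    rw [spread_q, div_eq_mul_inv (Real.log (tube_w p l x) - Real.log (ρ ^ 2))]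
    field_simp
    ring

end FB75
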