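import Mathlib

/-!
# Radial weights and the weighted mean value formula in three dimensions
-/

open MeasureTheory Metric Set Filter Topology
open scoped ContDiff

namespace FB75

/-- Euclidean three-space. -/
abbrev E3 := EuclideanSpace ℝ (Fin 3)

/-- The coordinate vectors. -/
noncomputable def ei (i : Fin 3) : E3 := EuclideanSpace.basisFun (Fin 3) ℝ i

/-- The positive part to the power `n + 2`. -/
theorem hasDerivAt_posPow (n : ℕ) (s : ℝ) :
    HasDerivAt (fun s : ℝ => (max 0 s) ^ (n + 2)) ((n + 2 : ℝ) * (max 0 s) ^ (n + 1)) s := by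
  rcases lt_trichotomy s 0 with h | h | h
  · have h1 : (fun s : ℝ => (max 0 s) ^ (n + 2)) =ᶠ[𝓝 s] fun _ => 0 := by
      filter_upwards [Iio_mem_nhds h] with y hy
      rw [max_eq_left (le_of_lt hy)]; simp
    rw [max_eq_left h.le]
    simpa using (hasDerivAt_const s (0 : ℝ)).congr_of_eventuallyEq h1
  · subst h
    have : ((n + 2 : ℝ) * (max 0 (0 : ℝ)) ^ (n + 1)) = 0 := by simp
    rw [this, hasDerivAt_iff_isLittleO]
    simp only [max_self, smul_zero, sub_zero]
    have h0 : (0 : ℝ) ^ (n + 2) = 0 := by simp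
    rw [h0]
    have hO : (fun x : ℝ => (max 0 x) ^ (n + 2) - 0) =O[𝓝 0] fun x : ℝ => x ^ (n + 2) := by
      refine Asymptotics.IsBigO.of_bound 1 (Eventually.of_forall fun x => ?_)
      rw [sub_zero, one_mul, norm_pow, norm_pow]
      refine pow_le_pow_left₀ (norm_nonneg _) ?_ _
      rw [Real.norm_eq_abs, Real.norm_eq_abs, abs_of_nonneg (le_max_left _ _)]
      exact max_le (abs_nonneg _) (le_abs_self _)
    refine hO.trans_isLittleO ?_
    have := Asymptotics.isLittleO_pow_id (𝕜 := ℝ) (n := n + 2) (by omega)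
    exact this
  · have h1 : (fun s : ℝ => (max 0 s) ^ (n + 2)) =ᶠ[𝓝 s] fun s => s ^ (n + 2) := by
      filter_upwards [Ioi_mem_nhds h] with y hy
      rw [max_eq_right (le_of_lt hy)]
    rw [max_eq_right h.le]
    have := (hasDerivAt_pow (n + 2) s).congr_of_eventuallyEq h1
    refine this.congr_deriv ?_
    push_cast
    rfl

/-- The weight of the mean value functional. -/
noncomputable def psi (w : E3) : ℝ := (max 0 (1 - ‖w‖ ^ 2)) ^ 2

/-- The potential of the weight. -/
noncomputable def Psi (w : E3) : ℝ := (max 0 (1 - ‖w‖ ^ 2)) ^ 3 / 6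

theorem continuous_psi : Continuous psi := by unfold psi; fun_prop

theorem continuous_Psi : Continuous Psi := by unfold Psi; fun_prop

theorem psi_nonneg (w : E3) : 0 ≤ psi w := by unfold psi; positivity

theorem Psi_nonneg (w : E3) : 0 ≤ Psi w := by unfold Psi; positivity

theorem psi_eq_zero {w : E3} (h : 1 ≤ ‖w‖) : psi w = 0 := by
  unfold psi
  rw [max_eq_left]; · simp
  nlinarith [norm_nonneg w]

theorem Psi_eq_zero {w : E3} (h : 1 ≤ ‖w‖) : Psi w = 0 := by
  unfold Psi
  rw [max_eq_left]; · simp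
  nlinarith [norm_nonneg w]

theorem psi_le_one (w : E3) : psi w ≤ 1 := by
  unfold psi
  have h1 : max 0 (1 - ‖w‖ ^ 2) ≤ 1 := max_le zero_le_one (by nlinarith [sq_nonneg ‖w‖])
  have h0 : 0 ≤ max 0 (1 - ‖w‖ ^ 2) := le_max_left _ _
  nlinarith

theorem Psi_le_one (w : E3) : Psi w ≤ 1 / 6 := by
  unfold Psi
  have h1 : max 0 (1 - ‖w‖ ^ 2) ≤ 1 := max_le zero_le_one (by nlinarith [sq_nonneg ‖w‖])
  have h0 : 0 ≤ max 0 (1 - ‖w‖ ^ 2) := le_max_left _ _
  have : (max 0 (1 - ‖w‖ ^ 2)) ^ 3 ≤ 1 := pow_le_one₀ h0 h1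
  linarith

theorem hasCompactSupport_psi : HasCompactSupport psi := by
  refine HasCompactSupport.of_support_subset_isCompact (isCompact_closedBall (0 : E3) 1) ?_
  intro w hw
  by_contra h
  apply hw
  apply psi_eq_zero
  simp at h
  exact h.le

theorem hasCompactSupport_Psi : HasCompactSupport Psi := by
  refine HasCompactSupport.of_support_subset_isCompact (isCompact_closedBall (0 : E3) 1) ?_
  intro w hw
  by_contra h
  apply hw
  apply Psi_eq_zero
  simp at h
  exact h.le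

theorem hasFDerivAt_Psi (w : E3) :
    HasFDerivAt Psi ((-psi w) • innerSL ℝ w) w := by
  have h1 : HasFDerivAt (fun w : E3 => 1 - ‖w‖ ^ 2) (-(2 • innerSL ℝ w)) w :=
    ((hasStrictFDerivAt_norm_sq w).hasFDerivAt).const_sub 1
  have h2 : HasDerivAt (fun s : ℝ => (max 0 s) ^ 3 / 6) ((max 0 (1 - ‖w‖ ^ 2)) ^ 2 / 2)
      (1 - ‖w‖ ^ 2) := by
    have := (hasDerivAt_posPow 1 (1 - ‖w‖ ^ 2)).div_const 6
    refine this.congr_deriv ?_
    norm_num
    ring
  have h3 := h2.comp_hasFDerivAt w h1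
  have h4 : Psi = (fun s : ℝ => (max 0 s) ^ 3 / 6) ∘ fun w : E3 => 1 - ‖w‖ ^ 2 := rfl
  rw [h4]
  refine h3.congr_fderiv ?_
  ext v
  simp [psi]
  ring

end FB75
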