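import Pool.Agent.FB75.Profile

/-!
# Axially symmetric solutions: the zero phase lies above the tip
-/

open MeasureTheory Metric Set Filter Topology InnerProductSpace Laplacian
open scoped ContDiff

namespace FB75

/-- The zero phase lies above the tip. -/
theorem zero_above' {u : E3 → ℝ} (hu : IsEntireSolution u) {p e : E3} (he : ‖e‖ = 1)
    (hs : AxSym u p e) [hΩc : ContractibleSpace {x | 0 < u x}]
    [hKc : ContractibleSpace {x | u x = 0}]
    (hax : ∀ s : ℝ, u (p + s • e) = 0 ↔ 0 ≤ s) : ∀ x, inner ℝ (x - p) e < 0 → 0 < u x := by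
  intro x hx
  by_contra hux
  have hux0 : u x = 0 := le_antisymm (not_lt.1 hux) (hu.nonneg x)
  have hKne : ∃ x, u x = 0 := ⟨x, hux0⟩
  have hΩpc : IsPathConnected {x | 0 < u x} := isPathConnected_iff_pathConnectedSpace.2 inferInstance
  have hKpc : IsPathConnected {x | u x = 0} := isPathConnected_iff_pathConnectedSpace.2 inferInstance
  have hΩ : IsPreconnected {x | 0 < u x} := hΩpc.isConnected.isPreconnected
  set zx : ℝ := inner ℝ (x - p) e with hzx
  set z1 : ℝ := zx / 2 with hz1
  have hz1n : z1 < 0 := by rw [hz1]; linarith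
  have hz1x : zx < z1 := by rw [hz1]; linarith
  have hp0 : u p = 0 := by
    have := (hax 0).2 le_rfl
    simpa using this
  -- the path in the zero phase from `p` to `x`
  obtain ⟨γ, hγ⟩ := hKpc.joinedIn p hp0 x hux0
  set g : ℝ → ℂ := fun t => prf p e (γ.extend t) with hg
  have hgc : Continuous g := (continuous_prf p e).comp γ.continuous_extend
  have hγe : ∀ t, u (γ.extend t) = 0 := by
    intro t
    exact hγ (projIcc 0 1 zero_le_one t)
  have hprf_re : ∀ y, (prf p e y).re = inner ℝ (y - p) e := fun y => rfl
  have hprfp : prf p e p = 0 := by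
    have : ‖prf p e p‖ = 0 := by rw [norm_prf he]; simp
    exact norm_eq_zero.1 this
  have hg0 : g 0 = 0 := by rw [hg]; simp only [γ.extend_zero]; exact hprfp
  have hg1 : (g 1).re = zx := by rw [hg]; simp only [γ.extend_one]; rfl
  -- a time at which the path is at the height `z1`
  obtain ⟨τ, hτ, hτ1⟩ : ∃ τ ∈ Icc (0 : ℝ) 1, (g τ).re = z1 := by
    have h1 : z1 ∈ Icc (g 1).re (g 0).re := by
      rw [hg0, hg1]
      exact ⟨hz1x.le, hz1n.le⟩
    exact intermediate_value_Icc' zero_le_one
      (Complex.continuous_re.comp hgc).continuousOn h1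
  -- the open set and its component
  set W : Set E3 := {y | 0 < u y ∧ z1 < inner ℝ (y - p) e} with hW
  have hWo : IsOpen W := by
    have h1 : IsOpen {y : E3 | z1 < inner ℝ (y - p) e} :=
      isOpen_lt continuous_const (by fun_prop)
    exact (isOpen_pos hu).inter h1
  set y0 : E3 := p + (z1 / 2) • e with hy0
  have hee : inner ℝ e e = (1 : ℝ) := by
    rw [real_inner_self_eq_norm_sq, he]; norm_num
  have hy0z : inner ℝ (y0 - p) e = z1 / 2 := by
    rw [hy0, add_sub_cancel_left, inner_smul_left, hee]
    simp
  have hy0W : y0 ∈ W := by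
    refine ⟨?_, by rw [hy0z]; linarith⟩
    refine lt_of_le_of_ne (hu.nonneg _) fun h => ?_
    have := (hax (z1 / 2)).1 h.symm
    linarith
  set D : Set E3 := connectedComponentIn W y0 with hD
  have hDo : IsOpen D := hWo.connectedComponentIn
  have hDW : D ⊆ W := connectedComponentIn_subset _ _
  have hy0D : y0 ∈ D := mem_connectedComponentIn hy0W
  have hDpre : IsPreconnected D := isPreconnected_connectedComponentIn
  -- the path
  set P : ℝ → ℂ := fun t => if t ≤ 1 / 2 then (z1 : ℂ) + ((2 * t * (g τ).im : ℝ) : ℂ) * Complex.I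
    else g (τ * (2 - 2 * t)) with hP
  have hPc : Continuous P := by
    rw [hP]
    apply Continuous.if_le
    · fun_prop
    · apply hgc.comp; fun_prop
    · fun_prop
    · fun_prop
    · intro t ht
      rw [ht]
      apply Complex.ext
      · simp
        rw [← hτ1]
        congr 2
        ring
      · simp
        congr 2
        ring
  have hgim : ∀ t, 0 ≤ (g t).im := fun t => prf_im_nonneg _ _ _
  have hPim : ∀ t ∈ Icc (0 : ℝ) 1, 0 ≤ (P t).im := by
    intro t ht
    rw [hP]
    simp only
    split_ifs with h
    · have := mul_nonneg (mul_nonneg (by norm_num : (0 : ℝ) ≤ 2) ht.1) (hgim τ)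
      simpa using this
    · exact hgim _
  have hP0 : P 0 = (z1 : ℝ) := by
    rw [hP]; simp
  have hP1 : P 1 = (0 : ℝ) := by
    rw [hP]
    norm_num
    exact hg0
  set E : Set ℂ := prf p e '' D with hE
  have hEpre : IsPreconnected E := hDpre.image _ (continuous_prf p e).continuousOn
  have hEim : ∀ w ∈ E, 0 ≤ w.im := by
    rintro _ ⟨y, -, rfl⟩
    exact prf_im_nonneg _ _ _
  have hPE : ∀ t ∈ Icc (0 : ℝ) 1, P t ∉ E := by
    intro t ht hcon
    obtain ⟨y, hyD, hy⟩ := hcon
    have hyW := hDW hyD
    rw [hP] at hy
    simp only at hy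
    split_ifs at hy with h
    · have h1 := congrArg Complex.re hy
      rw [hprf_re] at h1
      simp at h1
      have := hyW.2
      linarith
    · have h2 := hs.eq_of_prf he (x := y) (y := γ.extend (τ * (2 - 2 * t))) hy
      rw [hγe] at h2
      have := hyW.1
      linarith
  have hb : ((z1 / 2 : ℝ) : ℂ) ∈ E := by
    refine ⟨y0, hy0D, ?_⟩
    apply Complex.ext
    · rw [hprf_re, hy0z, Complex.ofReal_re]
    · simp only [prf, Complex.ofReal_im]
      rw [hy0z, hy0, add_sub_cancel_left, norm_smul, he, mul_one, Real.norm_eq_abs, sq_abs, sub_self,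
        Real.sqrt_zero]
  have hEb := (planar_enclose hPc.continuousOn hPim hP0 hP1 (by linarith : z1 < z1 / 2)
    (by linarith : z1 / 2 < 0) hEpre hEim hPE hb).1
  have hDb : Bornology.IsBounded D := by
    obtain ⟨R, hR⟩ := hEb.exists_norm_le
    refine (isBounded_iff_forall_norm_le).2 ⟨R + ‖p‖, fun y hy => ?_⟩
    have h1 := hR _ ⟨y, hy, rfl⟩
    rw [norm_prf he] at h1
    have h2 : y = (y - p) + p := by abel
    calc ‖y‖ = ‖(y - p) + p‖ := by rw [← h2]
      _ ≤ ‖y - p‖ + ‖p‖ := norm_add_le _ _
      _ ≤ R + ‖p‖ := by linarith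
  obtain ⟨c, hc⟩ := dome hu hΩ hKne he (t := z1 + inner ℝ p e) hDo ⟨y0, hy0D⟩ hDb
    (fun y hy => by
      have := hDW hy
      refine ⟨this.1, ?_⟩
      have h1 := this.2
      rw [inner_sub_left] at h1
      linarith)
    (fun y hy => by
      have hyc : y ∈ closure D := frontier_subset_closure hy
      have hynD : y ∉ D := by
        rw [hDo.frontier_eq] at hy
        exact hy.2
      have hynW : y ∉ W := by
        intro hyW
        obtain ⟨r, hr, hrW⟩ := Metric.isOpen_iff.1 hWo y hyW
        obtain ⟨w, hw1, hw2⟩ := Metric.mem_closure_iff.1 hyc r hr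
        have hball : IsPreconnected (ball y r) := (convex_ball y r).isPreconnected
        have hw3 : w ∈ ball y r := by rw [mem_ball, dist_comm]; exact hw2
        have h1 : connectedComponentIn W w = D := (connectedComponentIn_eq hw1).symm
        have h2 : ball y r ⊆ connectedComponentIn W w :=
          hball.subset_connectedComponentIn hw3 hrW
        rw [h1] at h2
        exact hynD (h2 (mem_ball_self hr))
      have hycl : 0 ≤ u y ∧ z1 ≤ inner ℝ (y - p) e := by
        have h1 : closure D ⊆ {y | 0 ≤ u y ∧ z1 ≤ inner ℝ (y - p) e} := by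
          apply closure_minimal
          · intro w hw
            exact ⟨(hDW hw).1.le, (hDW hw).2.le⟩
          · have h2 : IsClosed {y : E3 | 0 ≤ u y} := isClosed_le continuous_const hu.continuous
            have h3 : IsClosed {y : E3 | z1 ≤ inner ℝ (y - p) e} :=
              isClosed_le continuous_const (by fun_prop)
            exact h2.inter h3
        exact h1 hyc
      rcases hycl.1.lt_or_eq with h | h
      · right
        by_contra hne
        apply hynW
        refine ⟨h, lt_of_le_of_ne hycl.2 fun h' => hne ?_⟩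
        rw [inner_sub_left] at h'
        linarith
      · left; exact h.symm)
  have hcp : c = inner ℝ p e := by
    have h1 : ∀ s : ℝ, u (p + s • e) = max (c - inner ℝ p e - s) 0 := by
      intro s
      rw [hc, inner_add_left, inner_smul_left, hee]
      simp
      congr 1
      ring
    have h2 := (hax 0).2 le_rfl
    rw [h1] at h2
    have h3 : c - inner ℝ p e ≤ 0 := by
      by_contra hcon
      rw [max_eq_left (by linarith)] at h2
      linarith
    by_contra hne
    have h4 : c - inner ℝ p e < 0 := lt_of_le_of_ne h3 (fun h => hne (by linarith))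
    have h5 := (hax (c - inner ℝ p e)).1 (by rw [h1, sub_self, max_self])
    linarith
  have h6 := hc x
  rw [hux0, hcp] at h6
  have h7 : inner ℝ p e - inner ℝ x e = -zx := by
    rw [hzx, inner_sub_left]; ring
  rw [h7, max_eq_left (by linarith)] at h6
  linarith

end FB75
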